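/-
Numerics of theorem A (positive proportion of small gaps, MP_103a5c):
the value at mu = .5044 of mu + 2 mu int_0^1 (1-w) sinc(pi mu w / 2) dw exceeds 1.
-/
import Mathlib

namespace Pool.Agent.H80.GP

open scoped Real
open MeasureTheory intervalIntegral Finset

/-- partial sums of the Taylor series of sine -/
noncomputable def sinP (n : ℕ) (x : ℝ) : ℝ :=
  ∑ i ∈ Finset.range n, (-1 : ℝ) ^ i * x ^ (2 * i + 1) / (Nat.factorial (2 * i + 1) : ℝ)

/-- partial sums of the Taylor series of cosine -/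
noncomputable def cosP (n : ℕ) (x : ℝ) : ℝ :=
  ∑ i ∈ Finset.range n, (-1 : ℝ) ^ i * x ^ (2 * i) / (Nat.factorial (2 * i) : ℝ)

theorem hasDerivAt_sinP (n : ℕ) (x : ℝ) : HasDerivAt (sinP n) (cosP n x) x := by
  unfold sinP cosP
  apply HasDerivAt.fun_sum
  intro i _
  have h := ((hasDerivAt_pow (2 * i + 1) x).const_mul ((-1 : ℝ) ^ i)).div_const
    (Nat.factorial (2 * i + 1) : ℝ)
  refine h.congr_deriv ?_
  rw [Nat.factorial_succ (2 * i), Nat.add_sub_cancel]
  have h1 : (Nat.factorial (2 * i) : ℝ) ≠ 0 := by positivity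
  have h2 : ((2 * i + 1 : ℕ) : ℝ) ≠ 0 := by positivity
  push_cast
  push_cast at h2
  field_simp

theorem hasDerivAt_cosP (n : ℕ) (x : ℝ) : HasDerivAt (cosP (n + 1)) (-(sinP n x)) x := by
  have e : cosP (n + 1) = fun y => (∑ i ∈ Finset.range n,
      (-1 : ℝ) ^ (i + 1) * y ^ (2 * (i + 1)) / (Nat.factorial (2 * (i + 1)) : ℝ)) + 1 := by
    funext y
    unfold cosP
    rw [Finset.sum_range_succ']
    simp
  rw [e]
  have hs : -(sinP n x) = ∑ i ∈ Finset.range n,
      (-1 : ℝ) ^ (i + 1) * x ^ (2 * i + 1) / (Nat.factorial (2 * i + 1) : ℝ) := by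
    unfold sinP
    rw [← Finset.sum_neg_distrib]
    refine Finset.sum_congr rfl fun i _ => ?_
    rw [pow_succ]
    ring
  rw [hs]
  apply HasDerivAt.add_const
  apply HasDerivAt.fun_sum
  intro i _
  have h := ((hasDerivAt_pow (2 * (i + 1)) x).const_mul ((-1 : ℝ) ^ (i + 1))).div_const
    (Nat.factorial (2 * (i + 1)) : ℝ)
  refine h.congr_deriv ?_
  have e1 : 2 * (i + 1) = (2 * i + 1) + 1 := by ring
  rw [e1, Nat.factorial_succ (2 * i + 1), Nat.add_sub_cancel]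
  have h1 : (Nat.factorial (2 * i + 1) : ℝ) ≠ 0 := by positivity
  have h2 : ((2 * i + 1 + 1 : ℕ) : ℝ) ≠ 0 := by positivity
  push_cast
  push_cast at h2
  field_simp

theorem sinP_zero (n : ℕ) : sinP n 0 = 0 := by
  unfold sinP
  apply Finset.sum_eq_zero
  intro i _
  simp

theorem cosP_zero (n : ℕ) : cosP (n + 1) 0 = 1 := by
  unfold cosP
  rw [Finset.sum_range_succ']
  simp

/-- monotonicity: `F 0 = 0`, `F' ≥ 0` on `[0,∞)` gives `F ≥ 0` there -/
theorem nonneg_of_deriv {F F' : ℝ → ℝ} (h0 : F 0 = 0) (hd : ∀ x, HasDerivAt F (F' x) x)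
    (hF : ∀ x, 0 ≤ x → 0 ≤ F' x) {x : ℝ} (hx : 0 ≤ x) : 0 ≤ F x := by
  have hm : MonotoneOn F (Set.Ici 0) := by
    apply monotoneOn_of_deriv_nonneg (convex_Ici 0)
    · exact fun y _ => (hd y).continuousAt.continuousWithinAt
    · exact fun y _ => (hd y).differentiableAt.differentiableWithinAt
    · intro y hy
      rw [interior_Ici] at hy
      rw [(hd y).deriv]
      exact hF y (le_of_lt hy)
  have := hm (Set.mem_Ici.2 le_rfl) (Set.mem_Ici.2 hx) hx
  rwa [h0] at this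

/-- alternating Taylor bounds: sign `(-1)^(n+1)` of the remainder after `n+1` terms -/
theorem taylor_signs (n : ℕ) :
    (∀ x : ℝ, 0 ≤ x → 0 ≤ (-1 : ℝ) ^ (n + 1) * (Real.cos x - cosP (n + 1) x)) ∧
    (∀ x : ℝ, 0 ≤ x → 0 ≤ (-1 : ℝ) ^ (n + 1) * (Real.sin x - sinP (n + 1) x)) := by
  have step : ∀ m : ℕ, (∀ x : ℝ, 0 ≤ x → 0 ≤ (-1 : ℝ) ^ m * (Real.cos x - cosP m x)) →
      (∀ x : ℝ, 0 ≤ x → 0 ≤ (-1 : ℝ) ^ m * (Real.sin x - sinP m x)) := by
    intro m h x hx
    refine nonneg_of_deriv (F := fun x => (-1 : ℝ) ^ m * (Real.sin x - sinP m x))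
      (F' := fun x => (-1 : ℝ) ^ m * (Real.cos x - cosP m x)) ?_ ?_ h hx
    · simp [sinP_zero]
    · intro y
      exact ((Real.hasDerivAt_sin y).sub (hasDerivAt_sinP m y)).const_mul _
  induction n with
  | zero =>
    have h1 : ∀ x : ℝ, 0 ≤ x → 0 ≤ (-1 : ℝ) ^ (0 + 1) * (Real.cos x - cosP (0 + 1) x) := by
      intro x _
      have := Real.cos_le_one x
      simp only [cosP, zero_add, Finset.sum_range_one]
      norm_num
      linarith
    exact ⟨h1, step _ h1⟩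
  | succ n ih =>
    have h1 : ∀ x : ℝ, 0 ≤ x →
        0 ≤ (-1 : ℝ) ^ (n + 1 + 1) * (Real.cos x - cosP (n + 1 + 1) x) := by
      intro x hx
      refine nonneg_of_deriv
        (F := fun x => (-1 : ℝ) ^ (n + 1 + 1) * (Real.cos x - cosP (n + 1 + 1) x))
        (F' := fun x => (-1 : ℝ) ^ (n + 1) * (Real.sin x - sinP (n + 1) x)) ?_ ?_ ih.2 hx
      · simp [cosP_zero]
      · intro y
        have h := ((Real.hasDerivAt_cos y).sub (hasDerivAt_cosP (n + 1) y)).const_mul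
          ((-1 : ℝ) ^ (n + 1 + 1))
        refine h.congr_deriv ?_
        rw [pow_succ (-1 : ℝ) (n + 1)]
        ring
    exact ⟨h1, step _ h1⟩

/-- lower bounds with an even number of terms -/
theorem sin_lower (m : ℕ) {x : ℝ} (hx : 0 ≤ x) : sinP (2 * m + 2) x ≤ Real.sin x := by
  have h := (taylor_signs (2 * m + 1)).2 x hx
  have e : (-1 : ℝ) ^ (2 * m + 1 + 1) = 1 := by
    have : 2 * m + 1 + 1 = 2 * (m + 1) := by ring
    rw [this, pow_mul]
    simp
  rw [e, one_mul] at h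
  linarith

theorem cos_lower (m : ℕ) {x : ℝ} (hx : 0 ≤ x) : cosP (2 * m + 2) x ≤ Real.cos x := by
  have h := (taylor_signs (2 * m + 1)).1 x hx
  have e : (-1 : ℝ) ^ (2 * m + 1 + 1) = 1 := by
    have : 2 * m + 1 + 1 = 2 * (m + 1) := by ring
    rw [this, pow_mul]
    simp
  rw [e, one_mul] at h
  linarith

/-- upper bounds with an odd number of terms -/
theorem sin_upper (m : ℕ) {x : ℝ} (hx : 0 ≤ x) : Real.sin x ≤ sinP (2 * m + 1) x := by
  have h := (taylor_signs (2 * m)).2 x hx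
  have e : (-1 : ℝ) ^ (2 * m + 1) = -1 := by
    rw [pow_succ, pow_mul]
    simp
  rw [e] at h
  linarith

theorem cos_upper (m : ℕ) {x : ℝ} (hx : 0 ≤ x) : Real.cos x ≤ cosP (2 * m + 1) x := by
  have h := (taylor_signs (2 * m)).1 x hx
  have e : (-1 : ℝ) ^ (2 * m + 1) = -1 := by
    rw [pow_succ, pow_mul]
    simp
  rw [e] at h
  linarith

/-- partial sums for `sinc` -/
noncomputable def sincP (n : ℕ) (x : ℝ) : ℝ :=
  ∑ i ∈ Finset.range n, (-1 : ℝ) ^ i * x ^ (2 * i) / (Nat.factorial (2 * i + 1) : ℝ)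

theorem sinP_eq (n : ℕ) (x : ℝ) : sinP n x = x * sincP n x := by
  unfold sinP sincP
  rw [Finset.mul_sum]
  refine Finset.sum_congr rfl fun i _ => ?_
  rw [pow_succ]
  ring

theorem sinc_lower (m : ℕ) {x : ℝ} (hx : 0 ≤ x) : sincP (2 * m + 2) x ≤ Real.sinc x := by
  rcases eq_or_lt_of_le hx with h0 | h0
  · rw [← h0, Real.sinc_zero]
    unfold sincP
    rw [show 2 * m + 2 = (2 * m + 1) + 1 by ring, Finset.sum_range_succ']
    simp
  · rw [Real.sinc_of_ne_zero h0.ne', le_div_iff₀ h0, mul_comm, ← sinP_eq]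
    exact sin_lower m hx

theorem sinc_upper (m : ℕ) {x : ℝ} (hx : 0 ≤ x) : Real.sinc x ≤ sincP (2 * m + 1) x := by
  rcases eq_or_lt_of_le hx with h0 | h0
  · rw [← h0, Real.sinc_zero]
    unfold sincP
    rw [Finset.sum_range_succ']
    simp
  · rw [Real.sinc_of_ne_zero h0.ne', div_le_iff₀ h0, mul_comm, ← sinP_eq]
    exact sin_upper m hx

/-- **Numerics of theorem A.** -/
theorem num_A : 1 + 1 / 10000 ≤
    (5044 / 10000 : ℝ) + 2 * (5044 / 10000 : ℝ) *
      ∫ w in (0 : ℝ)..1, (1 - w) * Real.sinc (π * (5044 / 10000 : ℝ) * w / 2) := by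
  set a : ℝ := π * (5044 / 10000 : ℝ) / 2 with ha
  have hpi1 := Real.pi_gt_d6
  have hpi2 := Real.pi_lt_d6
  have ha1 : (0.79230 : ℝ) < a := by rw [ha]; norm_num at hpi1 ⊢; linarith
  have ha2 : a < (0.79231 : ℝ) := by rw [ha]; norm_num at hpi2 ⊢; linarith
  have ha0 : 0 < a := by linarith
  have hI : ∫ w in (0 : ℝ)..1, (1 - w) * (1 - (a * w) ^ 2 / 6 + (a * w) ^ 4 / 120
        - (a * w) ^ 6 / 5040) =
      1 / 2 - a ^ 2 / 72 + a ^ 4 / 3600 - a ^ 6 / 282240 := by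
    have e : ∀ w : ℝ, (1 - w) * (1 - (a * w) ^ 2 / 6 + (a * w) ^ 4 / 120
        - (a * w) ^ 6 / 5040) =
        1 - w - (a ^ 2 / 6) * w ^ 2 + (a ^ 2 / 6) * w ^ 3 + (a ^ 4 / 120) * w ^ 4
        - (a ^ 4 / 120) * w ^ 5 - (a ^ 6 / 5040) * w ^ 6 + (a ^ 6 / 5040) * w ^ 7 := by
      intro w; ring
    simp only [e]
    have hd : ∀ w : ℝ, HasDerivAt (fun w : ℝ => w - w ^ 2 / 2 - (a ^ 2 / 6) * (w ^ 3 / 3)
        + (a ^ 2 / 6) * (w ^ 4 / 4) + (a ^ 4 / 120) * (w ^ 5 / 5)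
        - (a ^ 4 / 120) * (w ^ 6 / 6) - (a ^ 6 / 5040) * (w ^ 7 / 7)
        + (a ^ 6 / 5040) * (w ^ 8 / 8))
        (1 - w - (a ^ 2 / 6) * w ^ 2 + (a ^ 2 / 6) * w ^ 3 + (a ^ 4 / 120) * w ^ 4
        - (a ^ 4 / 120) * w ^ 5 - (a ^ 6 / 5040) * w ^ 6 + (a ^ 6 / 5040) * w ^ 7) w := by
      intro w
      have h := (((((((hasDerivAt_id w).sub ((hasDerivAt_pow 2 w).div_const 2)).sub
        (((hasDerivAt_pow 3 w).div_const 3).const_mul (a ^ 2 / 6))).add
        (((hasDerivAt_pow 4 w).div_const 4).const_mul (a ^ 2 / 6))).add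
        (((hasDerivAt_pow 5 w).div_const 5).const_mul (a ^ 4 / 120))).sub
        (((hasDerivAt_pow 6 w).div_const 6).const_mul (a ^ 4 / 120))).sub
        (((hasDerivAt_pow 7 w).div_const 7).const_mul (a ^ 6 / 5040))).add
        (((hasDerivAt_pow 8 w).div_const 8).const_mul (a ^ 6 / 5040))
      refine h.congr_deriv ?_
      push_cast
      ring
    rw [intervalIntegral.integral_eq_sub_of_hasDerivAt (fun w _ => hd w)
      (Continuous.intervalIntegrable (by fun_prop) _ _)]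
    ring
  have hle : ∫ w in (0 : ℝ)..1, (1 - w) * (1 - (a * w) ^ 2 / 6 + (a * w) ^ 4 / 120
        - (a * w) ^ 6 / 5040) ≤
      ∫ w in (0 : ℝ)..1, (1 - w) * Real.sinc (π * (5044 / 10000 : ℝ) * w / 2) := by
    apply intervalIntegral.integral_mono_on (by norm_num)
    · exact Continuous.intervalIntegrable (by fun_prop) _ _
    · refine Continuous.intervalIntegrable ?_ _ _
      have := Real.continuous_sinc
      fun_prop
    · intro w hw
      have h1 : 0 ≤ 1 - w := by linarith [hw.2]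
      apply mul_le_mul_of_nonneg_left _ h1
      have e : π * (5044 / 10000 : ℝ) * w / 2 = a * w := by rw [ha]; ring
      rw [e]
      have h2 := sinc_lower 1 (x := a * w) (mul_nonneg ha0.le hw.1)
      refine le_trans (le_of_eq ?_) h2
      unfold sincP
      simp only [Finset.sum_range_succ, Finset.sum_range_zero, Nat.factorial]
      push_cast
      ring
  have hfin : 1 + 1 / 10000 ≤ (5044 / 10000 : ℝ) + 2 * (5044 / 10000 : ℝ) *
      (1 / 2 - a ^ 2 / 72 + a ^ 4 / 3600 - a ^ 6 / 282240) := by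
    have h2 : a ^ 2 ≤ 0.79231 ^ 2 := by gcongr
    have h4 : (0.79230 : ℝ) ^ 4 ≤ a ^ 4 := by gcongr
    have h6 : a ^ 6 ≤ 0.79231 ^ 6 := by gcongr
    norm_num at h2 h4 h6 ⊢
    linarith
  rw [← hI] at hfin
  refine le_trans hfin ?_
  gcongr

/-- The same with the sine integral. -/
theorem num_A' : 1 + 1 / 10000 ≤
    (5044 / 10000 : ℝ) + (4 / π) *
      ∫ w in (0 : ℝ)..1, (1 - w) * Real.sin (π * (5044 / 10000 : ℝ) * w / 2) / w := by
  refine le_trans num_A (le_of_eq ?_)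
  congr 1
  rw [← intervalIntegral.integral_const_mul, ← intervalIntegral.integral_const_mul]
  apply intervalIntegral.integral_congr_ae
  refine Filter.Eventually.of_forall fun w hw => ?_
  rw [Set.uIoc_of_le (by norm_num : (0 : ℝ) ≤ 1)] at hw
  have hw0 : 0 < w := hw.1
  have hpi := Real.pi_pos
  have hne : π * (5044 / 10000 : ℝ) * w / 2 ≠ 0 := by positivity
  rw [Real.sinc_of_ne_zero hne]
  field_simp
  ring

end Pool.Agent.H80.GP
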