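/-
The window of theorem A (MP_103a5c_GP): a smooth bump inside [-.2522,.2522] for which the
two-sided functional exceeds 1.
-/
import Mathlib
import Pool.Agent.H6.Nice
import Pool.Agent.H80.GP.NumA

namespace Pool.Agent.H80.GP

open scoped Real ContDiff
open MeasureTheory intervalIntegral Set Pool.Agent.H6

/-- transform of the indicator function of `[-a, a]` -/
theorem integral_cos_window {a x : ℝ} (ha : 0 < a) :
    ∫ u in (-a)..a, Real.cos (2 * π * u * x) = 2 * a * Real.sinc (2 * π * a * x) := by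
  rcases eq_or_ne x 0 with hx | hx
  · subst hx
    simp only [mul_zero, Real.cos_zero, Real.sinc_zero, mul_one]
    rw [intervalIntegral.integral_const, smul_eq_mul, mul_one]
    ring
  · have hpi := Real.pi_pos
    have hc : 2 * π * x ≠ 0 := by positivity
    have hne : 2 * π * a * x ≠ 0 := by positivity
    have e : ∀ u : ℝ, HasDerivAt (fun u : ℝ => Real.sin (2 * π * u * x) / (2 * π * x))
        (Real.cos (2 * π * u * x)) u := by
      intro u
      have h1 : HasDerivAt (fun u : ℝ => 2 * π * u * x) (2 * π * x) u := by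
        have := ((hasDerivAt_id u).const_mul (2 * π)).mul_const x
        simpa using this
      have h2 := (h1.sin).div_const (2 * π * x)
      refine h2.congr_deriv ?_
      field_simp
    rw [intervalIntegral.integral_eq_sub_of_hasDerivAt (fun u _ => e u)
      (Continuous.intervalIntegrable (by fun_prop) _ _), Real.sinc_of_ne_zero hne]
    have e2 : 2 * π * (-a) * x = -(2 * π * a * x) := by ring
    rw [e2, Real.sin_neg]
    field_simp
    ring

theorem cosT_close {ψ : ℝ → ℝ} (hc : Continuous ψ) (h0 : ∀ u, 0 ≤ ψ u) (h1 : ∀ u, ψ u ≤ 1)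
    {a ε : ℝ} (ha : 0 < a) (hε : 0 < ε) (hεa : ε < a) (hs : ∀ u, a ≤ |u| → ψ u = 0)
    (hi : ∀ u, |u| ≤ a - ε → ψ u = 1) (x : ℝ) :
    |cosT ψ x - 2 * a * Real.sinc (2 * π * a * x)| ≤ 2 * ε := by
  have hcos : Continuous fun u : ℝ => Real.cos (2 * π * u * x) := by fun_prop
  have e1 : cosT ψ x = ∫ u in (-a)..a, ψ u * Real.cos (2 * π * u * x) := by
    unfold cosT
    rw [intervalIntegral.integral_of_le (by linarith)]
    symm
    apply setIntegral_eq_integral_of_forall_compl_eq_zero
    intro u hu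
    have : ψ u = 0 := by
      apply hs
      by_contra h
      rw [not_le, abs_lt] at h
      exact hu ⟨h.1, h.2.le⟩
    rw [this, zero_mul]
  have e2 : cosT ψ x - 2 * a * Real.sinc (2 * π * a * x) =
      ∫ u in (-a)..a, (ψ u - 1) * Real.cos (2 * π * u * x) := by
    have i1 : IntervalIntegrable (fun u => ψ u * Real.cos (2 * π * u * x)) volume (-a) a :=
      (hc.mul hcos).intervalIntegrable _ _
    have i2 : IntervalIntegrable (fun u => Real.cos (2 * π * u * x)) volume (-a) a :=
      hcos.intervalIntegrable _ _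
    rw [e1, ← integral_cos_window ha, ← intervalIntegral.integral_sub i1 i2]
    congr 1
    funext u
    ring
  rw [e2]
  have h3 : |∫ u in (-a)..a, (ψ u - 1) * Real.cos (2 * π * u * x)| ≤
      ∫ u in (-a)..a, (1 - ψ u) := by
    refine le_trans (intervalIntegral.abs_integral_le_integral_abs (by linarith)) ?_
    apply intervalIntegral.integral_mono_on (by linarith)
    · exact (((hc.sub continuous_const).mul hcos).abs).intervalIntegrable _ _
    · exact (continuous_const.sub hc).intervalIntegrable _ _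
    · intro u _
      rw [abs_mul, abs_of_nonpos (by linarith [h1 u] : ψ u - 1 ≤ 0)]
      have := Real.abs_cos_le_one (2 * π * u * x)
      have h4 : 0 ≤ 1 - ψ u := by linarith [h1 u]
      nlinarith [abs_nonneg (Real.cos (2 * π * u * x))]
  refine le_trans h3 ?_
  have hI1 : IntervalIntegrable ψ volume (-a) (-(a - ε)) := hc.intervalIntegrable _ _
  have hI2 : IntervalIntegrable ψ volume (-(a - ε)) (a - ε) := hc.intervalIntegrable _ _
  have hI3 : IntervalIntegrable ψ volume (a - ε) a := hc.intervalIntegrable _ _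
  have h4 : ∫ u in (-a)..a, ψ u = (∫ u in (-a)..(-(a - ε)), ψ u) +
      (∫ u in (-(a - ε))..(a - ε), ψ u) + ∫ u in (a - ε)..a, ψ u := by
    rw [intervalIntegral.integral_add_adjacent_intervals hI1 hI2,
      intervalIntegral.integral_add_adjacent_intervals (hI1.trans hI2) hI3]
  have h5 : ∫ u in (-(a - ε))..(a - ε), ψ u = 2 * (a - ε) := by
    have : ∫ u in (-(a - ε))..(a - ε), ψ u = ∫ u in (-(a - ε))..(a - ε), (1 : ℝ) := by
      apply intervalIntegral.integral_congr
      intro u hu
      rw [uIcc_of_le (by linarith)] at hu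
      exact hi u (abs_le.2 hu)
    rw [this, intervalIntegral.integral_const, smul_eq_mul, mul_one]
    ring
  have h6 : 0 ≤ ∫ u in (-a)..(-(a - ε)), ψ u :=
    intervalIntegral.integral_nonneg (by linarith) fun u _ => h0 u
  have h7 : 0 ≤ ∫ u in (a - ε)..a, ψ u :=
    intervalIntegral.integral_nonneg (by linarith) fun u _ => h0 u
  rw [intervalIntegral.integral_sub (continuous_const.intervalIntegrable _ _)
    (hc.intervalIntegrable _ _), intervalIntegral.integral_const, smul_eq_mul, mul_one]
  linarith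

/-- the functional with `R = 1`, `f = 1` at the indicator of `[-.2522,.2522]` -/
theorem num_A_half : 1 + 1 / 10000 ≤
    (5044 / 10000 : ℝ) + 4 * ∫ x in (0 : ℝ)..(1 / 2),
      (1 - 2 * x) * (2 * (2522 / 10000 : ℝ) * Real.sinc (2 * π * (2522 / 10000 : ℝ) * x)) := by
  refine le_trans num_A (le_of_eq ?_)
  congr 1
  have h := intervalIntegral.integral_comp_mul_left (a := 0) (b := 1 / 2)
    (fun w : ℝ => (1 - w) * Real.sinc (π * (5044 / 10000 : ℝ) * w / 2)) (two_ne_zero (α := ℝ))
  rw [mul_zero, show (2 : ℝ) * (1 / 2) = 1 by norm_num, smul_eq_mul] at h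
  have e : ∫ x in (0 : ℝ)..(1 / 2),
      (1 - 2 * x) * (2 * (2522 / 10000 : ℝ) * Real.sinc (2 * π * (2522 / 10000 : ℝ) * x)) =
      (5044 / 10000 : ℝ) * ∫ x in (0 : ℝ)..(1 / 2),
        (1 - 2 * x) * Real.sinc (π * (5044 / 10000 : ℝ) * (2 * x) / 2) := by
    rw [← intervalIntegral.integral_const_mul]
    congr 1
    funext x
    have : 2 * π * (2522 / 10000 : ℝ) * x = π * (5044 / 10000 : ℝ) * (2 * x) / 2 := by ring
    rw [this]
    ring
  rw [e, h]
  ring

/-- **The window of theorem A.** -/
theorem exists_window : ∃ (ψ : ℝ → ℝ) (μ : ℝ), 0 < μ ∧ μ < 5044 / 10000 ∧ Nice ψ ∧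
    (∀ x, 0 ≤ ψ x) ∧ (∀ x, ψ x ≤ 1) ∧ (∀ x, μ / 2 < |x| → ψ x = 0) ∧
    1 + 1 / 20000 ≤ cosT ψ 0 + 4 * ∫ x in (0 : ℝ)..(1 / 2), (1 - 2 * x) * cosT ψ x := by
  let φ : ContDiffBump (0 : ℝ) :=
    { rIn := 2522 / 10000 - 1 / 100000
      rOut := 2522 / 10000 - 1 / 200000
      rIn_pos := by norm_num
      rIn_lt_rOut := by norm_num }
  have hsm : ContDiff ℝ ∞ (φ : ℝ → ℝ) := φ.contDiff
  have hc : Continuous (φ : ℝ → ℝ) := φ.continuous
  have h0 : ∀ x, 0 ≤ φ x := fun x => φ.nonneg
  have h1 : ∀ x, φ x ≤ 1 := fun x => φ.le_one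
  have hz : ∀ x : ℝ, (2522 / 10000 - 1 / 200000 : ℝ) ≤ |x| → φ x = 0 := by
    intro x hx
    apply φ.zero_of_le_dist
    rw [Real.dist_eq, sub_zero]
    exact hx
  have hi : ∀ x : ℝ, |x| ≤ (2522 / 10000 - 1 / 100000 : ℝ) → φ x = 1 := by
    intro x hx
    apply φ.one_of_mem_closedBall
    rw [Metric.mem_closedBall, Real.dist_eq, sub_zero]
    exact hx
  have heven : ∀ x, φ (-x) = φ x := fun x => φ.neg x
  have hcl : ∀ x, |cosT φ x - 2 * (2522 / 10000 : ℝ) *
      Real.sinc (2 * π * (2522 / 10000 : ℝ) * x)| ≤ 2 * (1 / 100000) := by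
    intro x
    apply cosT_close hc h0 h1 (by norm_num) (by norm_num) (by norm_num) _ _ x
    · intro u hu
      apply hz
      linarith
    · intro u hu
      exact hi u hu
  refine ⟨φ, 5044 / 10000 - 1 / 100000, by norm_num, by norm_num,
    ⟨hsm, heven, 2522 / 10000 - 1 / 200000, by norm_num, hz⟩, h0, h1, ?_, ?_⟩
  · intro x hx
    apply hz
    linarith
  · have hint : Integrable (φ : ℝ → ℝ) :=
      hc.integrable_of_hasCompactSupport φ.hasCompactSupport
    have hcT : Continuous (cosT φ) := by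
      exact TestFn.continuous_cosT_of_integrable hint
    have hcS : Continuous fun x : ℝ => 2 * (2522 / 10000 : ℝ) *
        Real.sinc (2 * π * (2522 / 10000 : ℝ) * x) := by
      have := Real.continuous_sinc
      fun_prop
    have hA := hcl 0
    rw [mul_zero, Real.sinc_zero, abs_le] at hA
    have hB : (∫ x in (0 : ℝ)..(1 / 2), (1 - 2 * x) * (2 * (2522 / 10000 : ℝ) *
          Real.sinc (2 * π * (2522 / 10000 : ℝ) * x))) -
        (∫ x in (0 : ℝ)..(1 / 2), (1 - 2 * x) * cosT φ x) ≤
        ∫ x in (0 : ℝ)..(1 / 2), (1 - 2 * x) * (2 * (1 / 100000)) := by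
      have hl : Continuous fun x : ℝ => 1 - 2 * x := by fun_prop
      have i1 : IntervalIntegrable (fun x : ℝ => (1 - 2 * x) * (2 * (2522 / 10000 : ℝ) *
          Real.sinc (2 * π * (2522 / 10000 : ℝ) * x))) volume 0 (1 / 2) :=
        (hl.mul hcS).intervalIntegrable _ _
      have i2 : IntervalIntegrable (fun x : ℝ => (1 - 2 * x) * cosT φ x) volume 0 (1 / 2) :=
        (hl.mul hcT).intervalIntegrable _ _
      rw [← intervalIntegral.integral_sub i1 i2]
      apply intervalIntegral.integral_mono_on (by norm_num)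
      · exact ((hl.mul hcS).sub (hl.mul hcT)).intervalIntegrable _ _
      · exact (hl.mul continuous_const).intervalIntegrable _ _
      · intro x hx
        have h2 : 0 ≤ 1 - 2 * x := by linarith [hx.2]
        have h3 := (abs_le.1 (hcl x)).1
        rw [← mul_sub]
        apply mul_le_mul_of_nonneg_left _ h2
        linarith
    have hC : ∫ x in (0 : ℝ)..(1 / 2), (1 - 2 * x) * (2 * (1 / 100000 : ℝ)) = 1 / 200000 := by
      have hd : ∀ x : ℝ, HasDerivAt (fun x : ℝ => (x - x ^ 2) * (2 * (1 / 100000 : ℝ)))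
          ((1 - 2 * x) * (2 * (1 / 100000 : ℝ))) x := by
        intro x
        have h := ((hasDerivAt_id x).sub (hasDerivAt_pow 2 x)).mul_const (2 * (1 / 100000 : ℝ))
        refine h.congr_deriv ?_
        push_cast
        ring
      rw [intervalIntegral.integral_eq_sub_of_hasDerivAt (fun x _ => hd x)
        (Continuous.intervalIntegrable (by fun_prop) _ _)]
      norm_num
    rw [hC] at hB
    have hN := num_A_half
    norm_num at hA hB hN ⊢
    linarith

end Pool.Agent.H80.GP
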