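/-
MP_103a5c_GP, section 7: the functional of theorem A exceeds 1 (R = 1, f = 1, c = -1).
-/
import Mathlib
import Pool.Agent.H80.GP.Psi
import Pool.Agent.H87.GP.FCells

namespace Pool.Agent.H80.GP

open scoped Real ContDiff
open MeasureTheory Set Pool.Agent.H6 Pool.Agent.H14.GP

theorem rho_one (n : ℕ) : rho 1 n = 1 := by
  unfold rho
  simp

theorem nu_one (M : ℕ) : nu 1 M (fun _ => 1) = M := by
  unfold nu
  simp [rho_one]

theorem KK_one (M j : ℕ) : H14.GP.KK 1 M (fun _ => 1) j = ((M - j : ℕ) : ℝ) := by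
  unfold H14.GP.KK
  simp [rho_one]

theorem ratio_one (ε : ℝ) (hε : 0 < ε) : ∃ N0 : ℕ, ∀ N ≥ N0, ∀ j ≤ N,
    |H14.GP.KK 1 (N + 1) (fun _ => 1) j / nu 1 (N + 1) (fun _ => 1) - (1 - (j : ℝ) / N)| ≤ ε := by
  obtain ⟨N1, hN1⟩ := exists_nat_gt (1 / ε)
  refine ⟨max 1 N1, fun N hN j hj => ?_⟩
  have hN1' : 1 ≤ N := (le_max_left _ _).trans hN
  have hN2 : N1 ≤ N := (le_max_right _ _).trans hN
  have hNpos : (0 : ℝ) < N := by exact_mod_cast hN1'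
  have hjN : (j : ℝ) ≤ N := by exact_mod_cast hj
  have hj0 : (0 : ℝ) ≤ j := by positivity
  rw [nu_one, KK_one, Nat.cast_sub (by omega : j ≤ N + 1)]
  push_cast
  have e : ((N : ℝ) + 1 - j) / (N + 1) - (1 - (j : ℝ) / N) = j / (N * (N + 1)) := by
    field_simp
    ring
  rw [e, abs_of_nonneg (by positivity)]
  have h1 : (j : ℝ) / (N * (N + 1)) ≤ N / (N * (N + 1)) := by gcongr
  have h2 : (N : ℝ) / (N * (N + 1)) = 1 / (N + 1) := by field_simp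
  have h3 : 1 / ε < (N : ℝ) := lt_of_lt_of_le hN1 (by exact_mod_cast hN2)
  have h4 : 1 / ((N : ℝ) + 1) ≤ ε := by
    rw [div_le_iff₀ (by positivity)]
    rw [div_lt_iff₀ hε] at h3
    nlinarith
  linarith

/-- **The functional of theorem A.** -/
theorem functional_small : ∃ (ψ : ℝ → ℝ) (μ : ℝ), 0 < μ ∧ μ < 5044 / 10000 ∧ Nice ψ ∧
    (∀ x, 0 ≤ ψ x) ∧ (∀ x, ψ x ≤ 1) ∧ (∀ x, μ / 2 < |x| → ψ x = 0) ∧
    ∃ (M : ℕ) (θ : ℝ) (G : ℕ → ℝ → ℝ) (f : ℕ → ℝ), Cells M θ G ∧ 0 < nu 1 M f ∧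
      1 + 1 / 100000 ≤ H87GP.JJ (-1) 1 M f G ψ := by
  obtain ⟨ψ, μ, hμ0, hμ1, hN, h0, h1, hs, hJ⟩ := exists_window
  have hK : Continuous fun w : ℝ => 1 - w := by fun_prop
  have hΛ : ∀ x y : ℝ, 0 ≤ x → x ≤ 1 → 0 ≤ y → y ≤ 1 →
      |(1 - x) - (1 - y)| ≤ 1 * |x - y| := by
    intro x y _ _ _ _
    have : (1 - x) - (1 - y) = -(x - y) := by ring
    rw [this, abs_neg, one_mul]
  obtain ⟨N0, hN0⟩ := H87GP.flimJ (K := fun w => 1 - w) hK hΛ (R := 1) (f := fun _ _ => 1)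
    (fun ε hε => ratio_one ε hε) hN (-1) (ε := 1 / 100000) (by norm_num)
  obtain ⟨θ, G, hG, hJJ⟩ := hN0 N0 le_rfl
  refine ⟨ψ, μ, hμ0, hμ1, hN, h0, h1, hs, N0 + 1, θ, G, fun _ => 1, hG, ?_, ?_⟩
  · rw [nu_one]
    positivity
  · have h2 := (abs_le.1 hJJ).1
    norm_num at h2 hJ ⊢
    linarith

end Pool.Agent.H80.GP
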