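import Mathlib
import Pool.Agent.H80.GP.Defs

/-! The module `HS O t` of forms of degree `t`, its reduction map, evaluation, layers; integer version of `nn`. -/

namespace GP80

open MvPolynomial

noncomputable section

/-- forms of degree `t` in three variables over `O` -/
def HS (O : Type) [CommRing O] (t : ℕ) : Type := ↥(homogeneousSubmodule (Fin 3) O t)

instance (O : Type) [CommRing O] (t : ℕ) : AddCommGroup (HS O t) :=
  inferInstanceAs (AddCommGroup ↥(homogeneousSubmodule (Fin 3) O t))

instance (O : Type) [CommRing O] (t : ℕ) : Module O (HS O t) :=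
  inferInstanceAs (Module O ↥(homogeneousSubmodule (Fin 3) O t))

/-- the underlying polynomial -/
def HS.val {O : Type} [CommRing O] {t : ℕ} (f : HS O t) : MvPolynomial (Fin 3) O := Subtype.val f

theorem HS.prop {O : Type} [CommRing O] {t : ℕ} (f : HS O t) : f.val.IsHomogeneous t :=
  (mem_homogeneousSubmodule t f.val).1 (Subtype.property f)

/-- constructor -/
def HS.mk {O : Type} [CommRing O] {t : ℕ} (f : MvPolynomial (Fin 3) O) (hf : f.IsHomogeneous t) : HS O t :=
  ⟨f, (mem_homogeneousSubmodule t f).2 hf⟩

@[simp] theorem HS.val_mk {O : Type} [CommRing O] {t : ℕ} (f : MvPolynomial (Fin 3) O)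
    (hf : f.IsHomogeneous t) : (HS.mk f hf).val = f := rfl

@[ext] theorem HS.ext {O : Type} [CommRing O] {t : ℕ} {f g : HS O t} (h : f.val = g.val) : f = g :=
  Subtype.ext h

@[simp] theorem HS.val_add {O : Type} [CommRing O] {t : ℕ} (f g : HS O t) :
    (f + g).val = f.val + g.val := rfl

@[simp] theorem HS.val_sub {O : Type} [CommRing O] {t : ℕ} (f g : HS O t) :
    (f - g).val = f.val - g.val := rfl

@[simp] theorem HS.val_neg {O : Type} [CommRing O] {t : ℕ} (f : HS O t) : (-f).val = -f.val := rfl

@[simp] theorem HS.val_zero {O : Type} [CommRing O] {t : ℕ} : (0 : HS O t).val = 0 := rfl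

@[simp] theorem HS.val_smul {O : Type} [CommRing O] {t : ℕ} (a : O) (f : HS O t) :
    (a • f).val = C a * f.val := by
  show a • f.val = _
  rw [MvPolynomial.smul_eq_C_mul]

/-- `val` as a linear map -/
def HS.valHom (O : Type) [CommRing O] (t : ℕ) : HS O t →ₗ[O] MvPolynomial (Fin 3) O where
  toFun := HS.val
  map_add' _ _ := rfl
  map_smul' a f := by simp [MvPolynomial.smul_eq_C_mul]

theorem HS.val_sum {O : Type} [CommRing O] {t : ℕ} {J : Type} (s : Finset J) (f : J → HS O t) :
    (∑ j ∈ s, f j).val = ∑ j ∈ s, (f j).val := map_sum (HS.valHom O t) f s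

/-- reduction of forms of degree `t`, as a semilinear map -/
def redHom {O k : Type} [CommRing O] [Field k] (rho : O →+* k) (t : ℕ) : HS O t →ₛₗ[rho] HS k t where
  toFun f := HS.mk (map rho f.val) (f.prop.map rho)
  map_add' f g := by ext1; simp
  map_smul' a f := by ext1; simp

@[simp] theorem redHom_val {O k : Type} [CommRing O] [Field k] (rho : O →+* k) (t : ℕ)
    (f : HS O t) : (redHom rho t f).val = map rho f.val := rfl

/-- `nz x = nn x` for `x ≥ 0`, and `0` for negative integers -/
def nz (x : ℤ) : ℕ := if 0 ≤ x then nn x.toNat else 0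

/-- evaluation of forms of degree `t` at the points `v z` -/
def evHom {O I : Type} [CommRing O] (v : I → Fin 3 → O) (t : ℕ) : HS O t →ₗ[O] (I → O) where
  toFun f := fun z => eval (v z) f.val
  map_add' f g := by ext z; simp
  map_smul' a f := by ext z; simp

@[simp] theorem evHom_apply {O I : Type} [CommRing O] (v : I → Fin 3 → O) (t : ℕ)
    (f : HS O t) (z : I) : evHom v t f z = eval (v z) f.val := rfl

/-- forms `f` of degree `t` with `pi^i f` in the ideal `(F, G)` -/
def JJ {O : Type} [CommRing O] (pi : O) (F G : MvPolynomial (Fin 3) O) (t i : ℕ) :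
    Submodule O (HS O t) where
  carrier := {f | C (pi ^ i) * f.val ∈ Ideal.span {F, G}}
  add_mem' {f g} hf hg := by
    simp only [Set.mem_ofPred_eq, HS.val_add, mul_add] at *
    exact Ideal.add_mem _ hf hg
  zero_mem' := by simp
  smul_mem' a f hf := by
    simp only [Set.mem_ofPred_eq, HS.val_smul] at *
    rw [← mul_assoc, mul_comm (C (pi ^ i)) (C a), mul_assoc]
    exact Ideal.mul_mem_left _ _ hf

@[simp] theorem mem_JJ {O : Type} [CommRing O] (pi : O) (F G : MvPolynomial (Fin 3) O) (t i : ℕ)
    (f : HS O t) :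
    f ∈ JJ pi F G t i ↔ C (pi ^ i) * f.val ∈ Ideal.span {F, G} := Iff.rfl

end

end GP80
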