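import Mathlib
import Pool.Agent.H80.GP.Defs
import Pool.Agent.H80.GP.Defs2

/-!
# MP_87ed0a_ag, project MP_87ed0a_GP: common definitions of the global part

`RR = ℂ[P_0..P_3]` (coordinates of the centre of projection), `BB = ℂ[P_0..P_3, x_0..x_3]` (`inl` = `P`, `inr` = `x`).
-/

namespace GP80

open MvPolynomial

noncomputable section

/-- `ℂ[P_0, P_1, P_2, P_3]` -/
abbrev RR : Type := MvPolynomial (Fin 4) ℂ

/-- `ℂ[P_0, .., P_3, x_0, .., x_3]`; `Sum.inl i` is `P_i`, `Sum.inr i` is `x_i` -/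
abbrev BB : Type := MvPolynomial (Fin 4 ⊕ Fin 4) ℂ

/-- inclusion of `ℂ[P]` -/
def inP : RR →+* BB := (rename (Sum.inl : Fin 4 → Fin 4 ⊕ Fin 4) : RR →ₐ[ℂ] BB).toRingHom

/-- `E = ∑ P_i ∂/∂x_i` -/
def EE : Derivation ℂ BB BB := mkDerivation ℂ (Sum.elim (fun _ => (0 : BB)) (fun i => X (Sum.inl i)))

/-- `D = ∑ x_i ∂/∂P_i` -/
def DG : Derivation ℂ BB BB := mkDerivation ℂ (Sum.elim (fun i => (X (Sum.inr i) : BB)) (fun _ => 0))

/-- weights counting the degree in `P` -/
def wP : Fin 4 ⊕ Fin 4 → ℕ := Sum.elim (fun _ => 1) (fun _ => 0)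

/-- weights counting the degree in `x` -/
def wx : Fin 4 ⊕ Fin 4 → ℕ := Sum.elim (fun _ => 0) (fun _ => 1)

/-- substitution `x = z` -/
def atz (z : Fin 4 → ℂ) : BB →+* RR := eval₂Hom (C : ℂ →+* RR) (Sum.elim X (fun i => C (z i)))

/-- `∂_z = ∑ z_i ∂/∂P_i` on `ℂ[P]` -/
def dz (z : Fin 4 → ℂ) : Derivation ℂ RR RR := mkDerivation ℂ (fun i => (C (z i) : RR))

/-- for a form `f` in three variables over `ℂ[P]`: the `E`-invariant form `f(P_i x' - x_i P')`, `'` = without the `i`-th coordinate -/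
def hlift (i : Fin 4) : MvPolynomial (Fin 3) RR →+* BB :=
  eval₂Hom inP (fun j => X (Sum.inl i) * X (Sum.inr (i.succAbove j)) -
    X (Sum.inr i) * X (Sum.inl (i.succAbove j)))

/-- restriction to the plane `x_i = 0`, with coefficients in an `RR`-algebra `O` -/
def chartH (O : Type) [CommRing O] [Algebra RR O] (i : Fin 4) : BB →+* MvPolynomial (Fin 3) O :=
  eval₂Hom ((C : O →+* MvPolynomial (Fin 3) O).comp ((algebraMap RR O).comp (C : ℂ →+* RR)))
    (Sum.elim (fun j => C (algebraMap RR O (X j)))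
      (fun j => Fin.insertNth (α := fun _ => MvPolynomial (Fin 3) O) i 0 (fun m => X m) j))

/-- the point `z'/z_i - P'/P_i` of the chart `i` -/
def vz (O : Type) [CommRing O] [Algebra RR O] (i : Fin 4) (z : Fin 4 → ℂ) : Fin 3 → O :=
  fun j => algebraMap RR O (C (z (i.succAbove j) / z i)) -
    algebraMap RR O (X (i.succAbove j)) * Ring.inverse (algebraMap RR O (X i))

/-- a family of derivations `∂_j` on `O` extending `P_i ∂/∂P_{s j}`, `s = i.succAbove` -/
def IsDer (O : Type) [CommRing O] [Algebra RR O] (i : Fin 4) (der : Fin 3 → Derivation ℤ O O) : Prop :=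
  ∀ (j : Fin 3) (r : RR), der j (algebraMap RR O r) = algebraMap RR O (X i * pderiv (i.succAbove j) r)

/-- global pair: bihomogeneous, `E`-invariant, vanishing at the points, generating (over the fraction field of `ℂ[P]`)
the ideal of the projected points; `F` has no factor in `ℂ[P]` if `c < d`. -/
structure Glob {I : Type} [Fintype I] (z : I → Fin 4 → ℂ) (c d f f' : ℕ) (F G : BB) : Prop where
  c2 : 2 ≤ c
  cd : c ≤ d
  N : Fintype.card I = c * d
  Fx : IsWeightedHomogeneous wx F c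
  FP : IsWeightedHomogeneous wP F f
  Gx : IsWeightedHomogeneous wx G d
  GP : IsWeightedHomogeneous wP G f'
  FE : EE F = 0
  GE : EE G = 0
  Fz : ∀ s, atz (z s) F = 0
  Gz : ∀ s, atz (z s) G = 0
  gen : ∀ t H, IsWeightedHomogeneous wx H t → EE H = 0 → (∀ s, atz (z s) H = 0) →
    ∃ r : RR, r ≠ 0 ∧ inP r * H ∈ Ideal.span {F, G}
  prim : c < d → ∀ q : RR, Prime q → ¬ inP q ∣ F

/-- geometric conditions on the points: nonzero coordinates, pairwise independent, spanning -/
structure Geom {I : Type} (z : I → Fin 4 → ℂ) : Prop where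
  co : ∀ s i, z s i ≠ 0
  ind : ∀ s s', s ≠ s' → LinearIndependent ℂ ![z s, z s']
  span : Submodule.span ℂ (Set.range z) = ⊤

/-- at most `m` of the points lie on a line -/
def ColB {I : Type} (z : I → Fin 4 → ℂ) (m : ℕ) : Prop :=
  ∀ s s', s ≠ s' → Nat.card {t : I // z t ∈ Submodule.span ℂ {z s, z s'}} ≤ m

/-- `J` is the Jacobian at `x = z` in the chart `i`: `∇'F × ∇'G = J (P_i z' - z_i P')` -/
def IsJac (i : Fin 4) (F G : BB) (z : Fin 4 → ℂ) (J : RR) : Prop :=
  crossProduct (fun j : Fin 3 => atz z (pderiv (Sum.inr (i.succAbove j)) F))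
      (fun j : Fin 3 => atz z (pderiv (Sum.inr (i.succAbove j)) G)) =
    fun j => J * (X i * C (z (i.succAbove j)) - C (z i) * X (i.succAbove j))

/-- the local ring at `π` -/
abbrev OO (π : RR) [hp : (Ideal.span {π} : Ideal RR).IsPrime] : Type := Localization.AtPrime (Ideal.span {π} : Ideal RR)

/-! ### lines -/

/-- `P ↦ s z + t z' + ε w`, `s, t, w` variables, as a polynomial in `ε` -/
def lineH (z z' : Fin 4 → ℂ) : RR →+* Polynomial (MvPolynomial (Fin 2 ⊕ Fin 4) ℂ) :=
  eval₂Hom ((Polynomial.C).comp (C : ℂ →+* MvPolynomial (Fin 2 ⊕ Fin 4) ℂ))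
    (fun i => Polynomial.C (X (Sum.inl 0) * C (z i) + X (Sum.inl 1) * C (z' i)) +
      Polynomial.X * Polynomial.C (X (Sum.inr i)))

/-- order of vanishing of `h` along the line `z z'` -/
def ordL (z z' : Fin 4 → ℂ) (h : RR) : ℕ := (lineH z z' h).natTrailingDegree

/-- the ideal of the line `z z'` -/
def pL (z z' : Fin 4 → ℂ) : Ideal RR :=
  RingHom.ker (eval₂Hom (C : ℂ →+* MvPolynomial (Fin 2) ℂ) (fun i => X 0 * C (z i) + X 1 * C (z' i)) :
    RR →+* MvPolynomial (Fin 2) ℂ)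

instance pL_prime (z z' : Fin 4 → ℂ) : (pL z z').IsPrime := by
  unfold pL; exact RingHom.ker_isPrime _

/-- the local ring of the line `z z'` -/
abbrev AL (z z' : Fin 4 → ℂ) : Type := Localization.AtPrime (pL z z')

end

end GP80
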