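import Mathlib
import Pool.Agent.H80.GP.Defs

/-!
# Row Cda (MP_87ed0a_GP): coefficientwise derivations and the operator D  (about 150 lines)

`cder δ f` applies the derivation `δ` to all coefficients; `DD der f = ∑ X_i cder (der i) f`.
All statements are formal: start with `coeff_cder`; additivity from it; the product rule on monomials
(`cder δ (monomial m a) = monomial m (δ a)`) and `MvPolynomial.induction_on'`.
`cder_eval` : `δ (f(v)) = (cder δ f)(v) + ∑ (∂_i f)(v) δ(v_i)` (both sides, for fixed `v`, are derivations of `O[X]` into `O`;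
check on `C a` and `X i`, or induction on `f`).
`euler3`: Euler's identity.  `ev_DD` (with `der i (v j) = - [i = j]`): for `f` homogeneous of degree `t`,
`∑ v_i der_i (f(v)) = (DD f)(v) - t f(v)`: by `cder_eval`, `der_i (f(v)) = (cder_i f)(v) - (∂_i f)(v)`; multiply by `v_i`, sum, use Euler.
-/

namespace GP80

open MvPolynomial

variable {O : Type} [CommRing O]

theorem coeff_cder (δ : Derivation ℤ O O) (f : MvPolynomial (Fin 3) O) (m : Fin 3 →₀ ℕ) :
    coeff m (cder δ f) = δ (coeff m f) := by
  classical
  rw [cder, coeff_sum]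
  simp only [coeff_monomial]
  rw [Finset.sum_ite_eq']
  split_ifs with h
  · rfl
  · rw [notMem_support_iff.mp h, map_zero]

theorem cder_add (δ : Derivation ℤ O O) (f g : MvPolynomial (Fin 3) O) :
    cder δ (f + g) = cder δ f + cder δ g := by
  ext m
  rw [coeff_cder, coeff_add, coeff_add, coeff_cder, coeff_cder, map_add]

theorem Cda_mon (δ : Derivation ℤ O O) (m : Fin 3 →₀ ℕ) (a : O) :
    cder δ (monomial m a) = monomial m (δ a) := by
  classical
  ext n
  rw [coeff_cder, coeff_monomial, coeff_monomial]
  split_ifs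
  · rfl
  · rw [map_zero]

theorem cder_mul (δ : Derivation ℤ O O) (f g : MvPolynomial (Fin 3) O) :
    cder δ (f * g) = cder δ f * g + f * cder δ g := by
  induction f using MvPolynomial.induction_on' with
  | monomial m a =>
    induction g using MvPolynomial.induction_on' with
    | monomial n b =>
      rw [monomial_mul, Cda_mon, Cda_mon, Cda_mon, monomial_mul, monomial_mul, ← map_add,
        Derivation.leibniz, smul_eq_mul, smul_eq_mul]
      congr 1
      ring
    | add p q hp hq =>
      rw [mul_add, cder_add, hp, hq, cder_add]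
      ring
  | add p q hp hq =>
    rw [add_mul, cder_add, hp, hq, cder_add]
    ring

theorem cder_C (δ : Derivation ℤ O O) (a : O) :
    cder δ (C a : MvPolynomial (Fin 3) O) = C (δ a) :=
  Cda_mon δ 0 a

theorem cder_X (δ : Derivation ℤ O O) (i : Fin 3) :
    cder δ (X i : MvPolynomial (Fin 3) O) = 0 := by
  rw [X, Cda_mon, Derivation.map_one_eq_zero, map_zero]

theorem cder_homog (δ : Derivation ℤ O O) {f : MvPolynomial (Fin 3) O} {t : ℕ}
    (hf : f.IsHomogeneous t) : (cder δ f).IsHomogeneous t := by
  intro m hm
  apply hf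
  intro h0
  rw [coeff_cder, h0, map_zero] at hm
  exact hm rfl

theorem cder_pderiv (δ : Derivation ℤ O O) (f : MvPolynomial (Fin 3) O) (i : Fin 3) :
    cder δ (pderiv i f) = pderiv i (cder δ f) := by
  induction f using MvPolynomial.induction_on' with
  | monomial m a =>
    rw [Cda_mon, pderiv_monomial, pderiv_monomial, Cda_mon, Derivation.leibniz,
      Derivation.map_natCast, smul_zero, zero_add, smul_eq_mul, mul_comm]
  | add p q hp hq =>
    rw [map_add, cder_add, hp, hq, cder_add, map_add]

theorem Cda_pX (i j : Fin 3) (v : Fin 3 → O) :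
    eval v (pderiv i (X j : MvPolynomial (Fin 3) O)) = if i = j then 1 else 0 := by
  by_cases h : i = j
  · subst h
    rw [pderiv_X_self, map_one, if_pos rfl]
  · rw [pderiv_X_of_ne (Ne.symm h), map_zero, if_neg h]

theorem cder_eval (δ : Derivation ℤ O O) (f : MvPolynomial (Fin 3) O) (v : Fin 3 → O) :
    δ (eval v f) = eval v (cder δ f) + ∑ i, eval v (pderiv i f) * δ (v i) := by
  induction f using MvPolynomial.induction_on with
  | C a =>
    rw [eval_C, cder_C, eval_C]
    simp [pderiv_C]
  | add p q hp hq =>
    rw [map_add, map_add, hp, hq, cder_add, map_add]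
    simp only [map_add, add_mul, Finset.sum_add_distrib]
    ring
  | mul_X p j hp =>
    rw [map_mul, eval_X, Derivation.leibniz, hp, cder_mul, cder_X, mul_zero, add_zero, map_mul,
      eval_X, smul_eq_mul, smul_eq_mul]
    have h : ∑ i, eval v (pderiv i (p * X j)) * δ (v i)
        = v j * ∑ i, eval v (pderiv i p) * δ (v i) + eval v p * δ (v j) := by
      have h1 : ∀ i, eval v (pderiv i (p * X j)) * δ (v i)
          = v j * (eval v (pderiv i p) * δ (v i)) + (if i = j then eval v p * δ (v i) else 0) := by
        intro i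
        rw [pderiv_mul, map_add, map_mul, map_mul, eval_X, Cda_pX]
        split_ifs <;> ring
      simp only [h1]
      rw [Finset.sum_add_distrib, ← Finset.mul_sum, Finset.sum_ite_eq' Finset.univ j,
        if_pos (Finset.mem_univ _)]
    rw [h]
    ring

theorem DD_add (der : Fin 3 → Derivation ℤ O O) (f g : MvPolynomial (Fin 3) O) :
    DD der (f + g) = DD der f + DD der g := by
  rw [DD, DD, DD, ← Finset.sum_add_distrib]
  apply Finset.sum_congr rfl
  intro i _
  rw [cder_add, mul_add]

theorem DD_mul (der : Fin 3 → Derivation ℤ O O) (f g : MvPolynomial (Fin 3) O) :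
    DD der (f * g) = DD der f * g + f * DD der g := by
  rw [DD, DD, DD, Finset.sum_mul, Finset.mul_sum, ← Finset.sum_add_distrib]
  apply Finset.sum_congr rfl
  intro i _
  rw [cder_mul]
  ring

theorem DD_C (der : Fin 3 → Derivation ℤ O O) (a : O) :
    DD der (C a : MvPolynomial (Fin 3) O) = ∑ i, X i * C (der i a) := by
  rw [DD]
  apply Finset.sum_congr rfl
  intro i _
  rw [cder_C]

theorem DD_X (der : Fin 3 → Derivation ℤ O O) (i : Fin 3) :
    DD der (X i : MvPolynomial (Fin 3) O) = 0 := by
  rw [DD]
  apply Finset.sum_eq_zero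
  intro j _
  rw [cder_X, mul_zero]

theorem DD_homog (der : Fin 3 → Derivation ℤ O O) {f : MvPolynomial (Fin 3) O} {t : ℕ}
    (hf : f.IsHomogeneous t) : (DD der f).IsHomogeneous (t + 1) := by
  rw [DD]
  apply IsHomogeneous.sum
  intro i _
  rw [add_comm]
  exact (isHomogeneous_X O i).mul (cder_homog (der i) hf)

theorem DD_pderiv (der : Fin 3 → Derivation ℤ O O) (f : MvPolynomial (Fin 3) O) (j : Fin 3) :
    pderiv j (DD der f) = DD der (pderiv j f) + cder (der j) f := by
  rw [DD, DD, map_sum]
  have h1 : ∀ i, pderiv j (X i * cder (der i) f)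
      = X i * cder (der i) (pderiv j f) + (if i = j then cder (der i) f else 0) := by
    intro i
    rw [pderiv_mul, cder_pderiv]
    split_ifs with h
    · subst h
      rw [pderiv_X_self, one_mul, add_comm]
    · rw [pderiv_X_of_ne h, zero_mul, zero_add, add_zero]
  simp only [h1]
  rw [Finset.sum_add_distrib, Finset.sum_ite_eq' Finset.univ j, if_pos (Finset.mem_univ _)]

theorem euler3 {f : MvPolynomial (Fin 3) O} {t : ℕ} (hf : f.IsHomogeneous t) (v : Fin 3 → O) :
    ∑ i, v i * eval v (pderiv i f) = (t : O) * eval v f := by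
  have h := congrArg (eval v) hf.sum_X_mul_pderiv
  rw [map_sum] at h
  simp only [map_mul, eval_X] at h
  rw [h, nsmul_eq_mul, map_mul, map_natCast]

theorem ev_DD (der : Fin 3 → Derivation ℤ O O) (v : Fin 3 → O)
    (hv : ∀ i j, der i (v j) = if i = j then -1 else 0) {f : MvPolynomial (Fin 3) O} {t : ℕ}
    (hf : f.IsHomogeneous t) :
    ∑ i, v i * der i (eval v f) = eval v (DD der f) - (t : O) * eval v f := by
  rw [← euler3 hf v, DD, map_sum, ← Finset.sum_sub_distrib]
  apply Finset.sum_congr rfl
  intro i _
  rw [cder_eval, map_mul, eval_X]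
  have h : ∑ j, eval v (pderiv j f) * der i (v j) = - eval v (pderiv i f) := by
    simp only [hv]
    have h2 : ∀ j, eval v (pderiv j f) * (if i = j then (-1 : O) else 0)
        = if i = j then -eval v (pderiv j f) else 0 := by
      intro j
      split_ifs <;> ring
    simp only [h2]
    rw [Finset.sum_ite_eq Finset.univ i, if_pos (Finset.mem_univ _)]
  rw [h]
  ring

end GP80
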