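import Mathlib
import Pool.Agent.H80.GP.Defs
import Pool.Agent.H80.GP.Cda

/-!
# Row Cnx (MP_87ed0a_GP): the connection lemma 1.1  (about 90 lines)

`δ := ∑ v_i der_i`.  If `p DF = M11 F + M12 G`, `p DG = M21 F + M22 G` and `F, G` vanish at `v`, then
`p δ(J) = (M11(v) + M22(v)) J - p (c + d - 1) J`.

Proof.  `a_j = (∂_j F)(v)`, `b_j = (∂_j G)(v)`.
Since `F(v) = 0`: `(cder_i F)(v) = a_i` by `cder_eval` (`der_i (F(v)) = 0`).  By `ev_DD` for `∂_j F` (degree `c-1`)
`δ a_j = (DD ∂_j F)(v) - (c-1) a_j = (∂_j DD F)(v) - (cder_j F)(v) - (c-1) a_j = (∂_j DD F)(v) - c a_j` (`DD_pderiv`; for `c = 0`, `F` constant, `∂_j F = 0`,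
everything is trivially true).  Multiply by `p`: `p (∂_j DD F)(v) = M11(v) a_j + M12(v) b_j` because `F(v)=G(v)=0`.  So
`p δ a_j = (M11(v) - p c) a_j + M12(v) b_j`,  `p δ b_j = M21(v) a_j + (M22(v) - p d) b_j`, and by the product rule
`p δ((a × b)_i) = (M11(v) + M22(v) - p (c+d)) (a × b)_i`.  With `(a × b)_i = J v_i` and `δ v_i = - v_i`:
`p δ(J) v_i - p J v_i = (M11(v) + M22(v) - p (c+d)) J v_i`; cancel `v_i ≠ 0`.
`euler_cross`: gradients are orthogonal to `v`, hence (if some `v i` is a unit) `∇F × ∇G = J v` for some `J`.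
-/

namespace GP80

open MvPolynomial

theorem exists_J3 {O : Type} [CommRing O] {F G : MvPolynomial (Fin 3) O} {c d : ℕ}
    (hF : F.IsHomogeneous c) (hG : G.IsHomogeneous d) {v : Fin 3 → O} (hv : ∃ i, IsUnit (v i))
    (vF : eval v F = 0) (vG : eval v G = 0) : ∃ J, IsJ3 F G v J := by
  have ha := euler3 hF v
  have hb := euler3 hG v
  rw [vF, mul_zero, Fin.sum_univ_three] at ha
  rw [vG, mul_zero, Fin.sum_univ_three] at hb
  set a : Fin 3 → O := grad F v with hadef
  set b : Fin 3 → O := grad G v with hbdef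
  have ha' : v 0 * a 0 + v 1 * a 1 + v 2 * a 2 = 0 := ha
  have hb' : v 0 * b 0 + v 1 * b 1 + v 2 * b 2 = 0 := hb
  have x0 : crossProduct a b 0 = a 1 * b 2 - a 2 * b 1 := by rw [cross_apply]; rfl
  have x1 : crossProduct a b 1 = a 2 * b 0 - a 0 * b 2 := by rw [cross_apply]; rfl
  have x2 : crossProduct a b 2 = a 0 * b 1 - a 1 * b 0 := by rw [cross_apply]; rfl
  have h01 : crossProduct a b 0 * v 1 = crossProduct a b 1 * v 0 := by
    rw [x0, x1]
    linear_combination (b 2) * ha' - (a 2) * hb'
  have h12 : crossProduct a b 1 * v 2 = crossProduct a b 2 * v 1 := by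
    rw [x1, x2]
    linear_combination (b 0) * ha' - (a 0) * hb'
  have h20 : crossProduct a b 2 * v 0 = crossProduct a b 0 * v 2 := by
    rw [x0, x2]
    linear_combination (b 1) * ha' - (a 1) * hb'
  have key : ∀ i j : Fin 3, crossProduct a b i * v j = crossProduct a b j * v i := by
    intro i j
    fin_cases i <;> fin_cases j
    · rfl
    · exact h01
    · exact h20.symm
    · exact h01.symm
    · rfl
    · exact h12
    · exact h20
    · exact h12.symm
    · rfl
  obtain ⟨i0, hi0⟩ := hv
  obtain ⟨u, hu⟩ := hi0.exists_right_inv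
  refine ⟨crossProduct a b i0 * u, ?_⟩
  unfold IsJ3
  rw [← hadef, ← hbdef]
  funext j
  rw [Pi.smul_apply, smul_eq_mul]
  linear_combination u * key j i0 - (crossProduct a b j) * hu

/-- `(cder_i F)(v) = (∂_i F)(v)` if `F(v) = 0`. -/
theorem Cnx_cder {O : Type} [CommRing O] (der : Fin 3 → Derivation ℤ O O)
    {v : Fin 3 → O} (hv : ∀ i j, der i (v j) = if i = j then -1 else 0)
    {F : MvPolynomial (Fin 3) O} (vF : eval v F = 0) (i : Fin 3) :
    eval v (cder (der i) F) = eval v (pderiv i F) := by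
  have h := cder_eval (der i) F v
  rw [vF, map_zero] at h
  have h2 : ∑ j, eval v (pderiv j F) * der i (v j) = -eval v (pderiv i F) := by
    rw [Finset.sum_eq_single i]
    · rw [hv, if_pos rfl]; ring
    · intro j _ hj
      rw [hv, if_neg (Ne.symm hj), mul_zero]
    · intro h3
      exact absurd (Finset.mem_univ i) h3
  rw [h2] at h
  linear_combination -h

/-- The degree factor. -/
theorem Cnx_deg {O : Type} [CommRing O] {F : MvPolynomial (Fin 3) O} {c : ℕ}
    (hF : F.IsHomogeneous c) (v : Fin 3 → O) (j : Fin 3) :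
    (1 + ((c - 1 : ℕ) : O)) * eval v (pderiv j F) = (c : O) * eval v (pderiv j F) := by
  rcases Nat.eq_zero_or_pos c with h0 | h1
  · subst h0
    have h2 : F = C (coeff 0 F) := by
      rw [← totalDegree_eq_zero_iff_eq_C]
      exact (totalDegree_zero_iff_isHomogeneous _).2 hF
    have h3 : pderiv j F = 0 := by
      rw [h2, pderiv_C]
    rw [h3, map_zero, mul_zero, mul_zero]
  · have h2 : (1 + ((c - 1 : ℕ) : O)) = (c : O) := by
      rw [add_comm]
      exact_mod_cast congrArg (Nat.cast : ℕ → O) (Nat.sub_add_cancel h1)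
    rw [h2]

/-- `p δ a_j = M11(v) a_j + M12(v) b_j - p c a_j`. -/
theorem Cnx_step {O : Type} [CommRing O] (der : Fin 3 → Derivation ℤ O O)
    {v : Fin 3 → O} (hv : ∀ i j, der i (v j) = if i = j then -1 else 0)
    {F G H : MvPolynomial (Fin 3) O} {c : ℕ} (hH : H.IsHomogeneous c)
    (vF : eval v F = 0) (vG : eval v G = 0) (vH : eval v H = 0) {p : O}
    {M N : MvPolynomial (Fin 3) O} (h1 : C p * DD der H = M * F + N * G) (j : Fin 3) :
    p * ∑ i, v i * der i (eval v (pderiv j H)) =
      eval v M * eval v (pderiv j F) + eval v N * eval v (pderiv j G) -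
        p * (c : O) * eval v (pderiv j H) := by
  have e1 := ev_DD der v hv (hH.pderiv (i := j))
  have e2 := congrArg (eval v) (DD_pderiv der H j)
  rw [map_add, Cnx_cder der hv vH j] at e2
  have e3 := Cnx_deg hH v j
  have e4 := congrArg (fun P => eval v (pderiv j P)) h1
  simp only [map_add, Derivation.leibniz, smul_eq_mul, map_mul, pderiv_C, mul_zero, add_zero,
    zero_add, eval_C, vF, vG, zero_mul] at e4
  rw [e1]
  linear_combination e4 - p * e2 - p * e3

theorem connection {O : Type} [CommRing O] [IsDomain O] (der : Fin 3 → Derivation ℤ O O)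
    {v : Fin 3 → O} (hv : ∀ i j, der i (v j) = if i = j then -1 else 0) (hv0 : ∃ i, v i ≠ 0)
    {F G : MvPolynomial (Fin 3) O} {c d : ℕ} (hF : F.IsHomogeneous c) (hG : G.IsHomogeneous d)
    (vF : eval v F = 0) (vG : eval v G = 0) {p : O} {M11 M12 M21 M22 : MvPolynomial (Fin 3) O}
    (h1 : C p * DD der F = M11 * F + M12 * G) (h2 : C p * DD der G = M21 * F + M22 * G) {J : O}
    (hJ : IsJ3 F G v J) :
    p * ∑ i, v i * der i J = (eval v M11 + eval v M22) * J - p * ((c : O) + d - 1) * J := by
  have sa := Cnx_step der hv hF vF vG vF h1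
  have sb := Cnx_step der hv hG vF vG vG h2
  set a : Fin 3 → O := grad F v with hadef
  set b : Fin 3 → O := grad G v with hbdef
  have ea : ∀ j, eval v (pderiv j F) = a j := fun j => rfl
  have eb : ∀ j, eval v (pderiv j G) = b j := fun j => rfl
  simp only [ea, eb] at sa sb
  set δ : O → O := fun x => ∑ i, v i * der i x with hδ
  have δmul : ∀ x y, δ (x * y) = δ x * y + x * δ y := by
    intro x y
    simp only [hδ, Derivation.leibniz, smul_eq_mul, Finset.sum_mul, Finset.mul_sum]
    rw [← Finset.sum_add_distrib]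
    exact Finset.sum_congr rfl fun i _ => by ring
  have δsub : ∀ x y, δ (x - y) = δ x - δ y := by
    intro x y
    simp only [hδ, map_sub, mul_sub, Finset.sum_sub_distrib]
  have δv : ∀ j, δ (v j) = -v j := by
    intro j
    show ∑ i, v i * der i (v j) = -v j
    rw [Finset.sum_eq_single j]
    · rw [hv, if_pos rfl]; ring
    · intro i _ hi
      rw [hv, if_neg hi, mul_zero]
    · intro h3
      exact absurd (Finset.mem_univ j) h3
  have sa' : ∀ j, p * δ (a j) = eval v M11 * a j + eval v M12 * b j - p * (c : O) * a j := sa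
  have sb' : ∀ j, p * δ (b j) = eval v M21 * a j + eval v M22 * b j - p * (d : O) * b j := sb
  have hmin : ∀ j k, p * δ (a j * b k - a k * b j) =
      (eval v M11 + eval v M22 - p * ((c : O) + d)) * (a j * b k - a k * b j) := by
    intro j k
    rw [δsub, δmul, δmul]
    linear_combination (b k) * sa' j + (a j) * sb' k - (b j) * sa' k - (a k) * sb' j
  have hcr : ∀ i, p * δ (crossProduct a b i) =
      (eval v M11 + eval v M22 - p * ((c : O) + d)) * crossProduct a b i := by
    intro i
    have x0 : crossProduct a b 0 = a 1 * b 2 - a 2 * b 1 := by rw [cross_apply]; rfl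
    have x1 : crossProduct a b 1 = a 2 * b 0 - a 0 * b 2 := by rw [cross_apply]; rfl
    have x2 : crossProduct a b 2 = a 0 * b 1 - a 1 * b 0 := by rw [cross_apply]; rfl
    fin_cases i
    · show p * δ (crossProduct a b 0) = _ * crossProduct a b 0
      rw [x0]
      exact hmin 1 2
    · show p * δ (crossProduct a b 1) = _ * crossProduct a b 1
      rw [x1]
      exact hmin 2 0
    · show p * δ (crossProduct a b 2) = _ * crossProduct a b 2
      rw [x2]
      exact hmin 0 1
  obtain ⟨i, hi⟩ := hv0
  have hJi : crossProduct a b i = J * v i := by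
    have := congrFun hJ i
    rw [Pi.smul_apply, smul_eq_mul] at this
    exact this
  have h3 := hcr i
  rw [hJi, δmul, δv] at h3
  have h4 : (p * δ J) * v i =
      ((eval v M11 + eval v M22) * J - p * ((c : O) + d - 1) * J) * v i := by
    linear_combination h3
  exact mul_right_cancel₀ hi h4

end GP80
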