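import Mathlib
import Pool.Agent.H80.GP.GDefs

/-!
# Row Ga1 (MP_87ed0a_GP): E-invariance as a functional equation; basic facts on `inP`, `atz`  (about 130 lines)

* `einv`: if `EE H = 0` then `H(p, y + μ p) = H(p, y)` in any commutative `ℂ`-algebra `S`.
  Proof: `q := aeval (p, y + T p) H ∈ S[T]` (`Polynomial S`).  The map `H ↦ derivative (aeval (p, y+Tp) H)` and `H ↦ aeval (p, y + T p) (EE H)` are both derivations along the ring hom `aeval ..`,
  equal on the generators (`derivative (C (y i) + X * C (p i)) = C (p i)`), so they agree (induction on `H`: `MvPolynomial.induction_on`).  So `q' = 0`; `S` is a `ℚ`-algebra, all positive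
  integers are units, so the coefficients of `q` of index `> 0` vanish; `q(μ) = q(0)`.
* `inP_injective`, `inP_prime`: `rename` with an injective map is injective; a prime of `ℂ[P]` stays prime in `ℂ[P][x]`: use `MvPolynomial.prime_C_iff` through
  `MvPolynomial.sumRingEquiv`/`sumAlgEquiv` (after `Equiv.sumComm` if necessary), or `prime_rename_iff`.
* `EE_inP = 0`; `EE_pderiv`: `EE (pderiv (inr a) H) = pderiv (inr a) (EE H)` (the bracket of the two derivations vanishes on the generators).
* `pderiv_wx`: derivative of an `x`-homogeneous polynomial of degree `t` is `x`-homogeneous of degree `t - 1` (weights 1); for the `P`-weight `pderiv (inr a)` keeps the degree.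
* `atz_wP`: `atz z H` is homogeneous of degree `m` if `H` is `wP`-homogeneous of degree `m`.
* `dz_atz`: `dz z (atz z H) = atz z (DG H)` (both sides derivations along `atz z`; generators: `P_i ↦ z_i`, `x_i ↦ 0`).
-/

namespace GP80

open MvPolynomial

theorem Ga1_EE_inl (i : Fin 4) : EE (X (Sum.inl i)) = 0 := by
  simp [EE, mkDerivation_X]

theorem Ga1_EE_inr (i : Fin 4) : EE (X (Sum.inr i)) = X (Sum.inl i) := by
  simp [EE, mkDerivation_X]

theorem Ga1_DG_inl (i : Fin 4) : DG (X (Sum.inl i)) = X (Sum.inr i) := by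
  simp [DG, mkDerivation_X]

theorem Ga1_DG_inr (i : Fin 4) : DG (X (Sum.inr i)) = 0 := by
  simp [DG, mkDerivation_X]

theorem Ga1_EE_C (a : ℂ) : EE (C a) = 0 := EE.map_algebraMap a

theorem Ga1_DG_C (a : ℂ) : DG (C a) = 0 := DG.map_algebraMap a

theorem Ga1_dz_C (z : Fin 4 → ℂ) (a : ℂ) : dz z (C a) = 0 := (dz z).map_algebraMap a

theorem Ga1_atz_C (z : Fin 4 → ℂ) (a : ℂ) : atz z (C a) = C a := by
  simp [atz]

theorem Ga1_atz_inl (z : Fin 4 → ℂ) (i : Fin 4) : atz z (X (Sum.inl i)) = X i := by
  simp [atz]

theorem Ga1_atz_inr (z : Fin 4 → ℂ) (i : Fin 4) : atz z (X (Sum.inr i)) = C (z i) := by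
  simp [atz]

theorem Ga1_deriv {S : Type} [CommRing S] [Algebra ℂ S] (H : BB) (p y : Fin 4 → S) :
    Polynomial.derivative (aeval (Sum.elim (fun i => Polynomial.C (p i))
      (fun i => Polynomial.C (y i) + Polynomial.X * Polynomial.C (p i))) H) =
    aeval (Sum.elim (fun i => Polynomial.C (p i))
      (fun i => Polynomial.C (y i) + Polynomial.X * Polynomial.C (p i))) (EE H) := by
  induction H using MvPolynomial.induction_on with
  | C a =>
    rw [Ga1_EE_C, map_zero, algHom_C, Polynomial.algebraMap_apply, Polynomial.derivative_C]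
  | add f g hf hg => rw [map_add, map_add, map_add, map_add, hf, hg]
  | mul_X f i hf =>
    rw [map_mul, Polynomial.derivative_mul, hf, Derivation.leibniz, map_add, smul_eq_mul,
      smul_eq_mul, map_mul, map_mul, aeval_X]
    rcases i with i | i
    · rw [Ga1_EE_inl]
      simp
      ring
    · rw [Ga1_EE_inr]
      simp
      ring

theorem Ga1_eval {S : Type} [CommRing S] [Algebra ℂ S] (H : BB) (p y : Fin 4 → S) (μ : S) :
    Polynomial.eval μ (aeval (Sum.elim (fun i => Polynomial.C (p i))
      (fun i => Polynomial.C (y i) + Polynomial.X * Polynomial.C (p i))) H) =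
    aeval (Sum.elim p (fun i => y i + μ * p i)) H := by
  induction H using MvPolynomial.induction_on with
  | C a =>
    rw [algHom_C, algHom_C, Polynomial.algebraMap_apply, Polynomial.eval_C]
  | add f g hf hg => rw [map_add, map_add, Polynomial.eval_add, hf, hg]
  | mul_X f i hf =>
    rw [map_mul, map_mul, Polynomial.eval_mul, hf, aeval_X, aeval_X]
    rcases i with i | i
    · simp
    · simp only [Sum.elim_inr, Polynomial.eval_add, Polynomial.eval_C, Polynomial.eval_mul,
        Polynomial.eval_X]

theorem Ga1_const {S : Type} [CommRing S] [Algebra ℂ S] {q : Polynomial S}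
    (h : Polynomial.derivative q = 0) : q = Polynomial.C (q.coeff 0) := by
  ext n
  rcases n with _ | n
  · simp
  · have h1 : (Polynomial.derivative q).coeff n = 0 := by rw [h]; simp
    rw [Polynomial.coeff_derivative] at h1
    have hu : IsUnit ((n : S) + 1) := by
      have h2 : IsUnit ((n : ℂ) + 1) := by
        apply isUnit_iff_ne_zero.2
        exact_mod_cast Nat.succ_ne_zero n
      have h3 := h2.map (algebraMap ℂ S)
      simpa using h3
    rw [Polynomial.coeff_C_succ]
    exact hu.mul_left_eq_zero.1 h1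

theorem einv {S : Type} [CommRing S] [Algebra ℂ S] {H : BB} (hE : EE H = 0) (p y : Fin 4 → S) (μ : S) :
    aeval (Sum.elim p (fun i => y i + μ * p i)) H = aeval (Sum.elim p y) H := by
  have h1 := Ga1_deriv H p y
  rw [hE, map_zero] at h1
  have h2 := Ga1_const h1
  have h3 := Ga1_eval H p y μ
  have h4 := Ga1_eval H p y 0
  rw [h2, Polynomial.eval_C] at h3 h4
  rw [← h3, h4]
  congr 2
  funext i
  simp

theorem inP_injective : Function.Injective inP := by
  intro a b h
  exact rename_injective _ Sum.inl_injective h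

theorem inP_prime {q : RR} (hq : Prime q) : Prime (inP q) := by
  have h1 : Prime (C q : MvPolynomial (Fin 4) RR) := (prime_C_iff _).2 hq
  let e : MvPolynomial (Fin 4) RR ≃+* BB :=
    (sumRingEquiv ℂ (Fin 4) (Fin 4)).symm.trans
      ((renameEquiv ℂ (Equiv.sumComm (Fin 4) (Fin 4))).toRingEquiv)
  have h2 : (e.toRingHom.comp (C : RR →+* MvPolynomial (Fin 4) RR)) = inP := by
    apply MvPolynomial.ringHom_ext
    · intro a
      have h3 : inP (C a) = C a := by simp [inP]
      rw [h3]
      change rename _ ((sumRingEquiv ℂ (Fin 4) (Fin 4)).symm (C (C a))) = C a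
      rw [sumRingEquiv_symm_C_C, rename_C]
    · intro i
      have h3 : inP (X i) = X (Sum.inl i) := by simp [inP]
      rw [h3]
      change rename _ ((sumRingEquiv ℂ (Fin 4) (Fin 4)).symm (C (X i))) = X (Sum.inl i)
      rw [sumRingEquiv_symm_C_X, rename_X]
      rfl
  have h3 : inP q = e (C q) := by rw [← h2]; rfl
  rw [h3]
  exact (MulEquiv.prime_iff e).2 h1

theorem EE_inP (r : RR) : EE (inP r) = 0 := by
  induction r using MvPolynomial.induction_on with
  | C a =>
    have : inP (C a) = C a := by simp [inP]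
    rw [this, Ga1_EE_C]
  | add f g hf hg => rw [map_add, map_add, hf, hg, add_zero]
  | mul_X f i hf =>
    have : inP (X i) = X (Sum.inl i) := by simp [inP]
    rw [map_mul, Derivation.leibniz, hf, this, Ga1_EE_inl, smul_zero, smul_zero, add_zero]

theorem atz_inP (z : Fin 4 → ℂ) (r : RR) : atz z (inP r) = r := by
  induction r using MvPolynomial.induction_on with
  | C a =>
    have : inP (C a) = C a := by simp [inP]
    rw [this, Ga1_atz_C]
  | add f g hf hg => rw [map_add, map_add, hf, hg]
  | mul_X f i hf =>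
    have : inP (X i) = X (Sum.inl i) := by simp [inP]
    rw [map_mul, map_mul, hf, this, Ga1_atz_inl]

theorem EE_pderiv (a : Fin 4) (H : BB) : EE (pderiv (Sum.inr a) H) = pderiv (Sum.inr a) (EE H) := by
  induction H using MvPolynomial.induction_on with
  | C c => rw [pderiv_C, Ga1_EE_C, map_zero, map_zero]
  | add f g hf hg => rw [map_add, map_add, map_add, map_add, hf, hg]
  | mul_X f i hf =>
    rw [Derivation.leibniz, map_add, Derivation.leibniz, map_add, smul_eq_mul, smul_eq_mul,
      smul_eq_mul, smul_eq_mul, Derivation.leibniz, Derivation.leibniz, Derivation.leibniz,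
      Derivation.leibniz, hf]
    have h1 : EE (pderiv (Sum.inr a) (X i : BB)) = 0 := by
      rw [pderiv_X]
      by_cases h : i = Sum.inr a
      · subst h
        simp
      · rw [Pi.single_eq_of_ne (Ne.symm (by exact fun hh => h hh.symm))]
        simp
    have h2 : pderiv (Sum.inr a) (EE (X i : BB)) = 0 := by
      rcases i with i | i
      · rw [Ga1_EE_inl, map_zero]
      · rw [Ga1_EE_inr, pderiv_X_of_ne (by simp)]
    rw [h1, h2]
    simp only [smul_eq_mul]
    ring

theorem pderiv_wx {H : BB} {t : ℕ} (h : IsWeightedHomogeneous wx H t) (a : Fin 4) :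
    IsWeightedHomogeneous wx (pderiv (Sum.inr a) H) (t - 1) := by
  rcases Nat.eq_zero_or_pos t with ht | ht
  · subst ht
    have h0 : pderiv (Sum.inr a) H = 0 := by
      apply pderiv_eq_zero_of_notMem_vars
      intro hv
      rw [mem_vars_iff_mem_support] at hv
      obtain ⟨d, hd, ha⟩ := hv
      have h1 := h (mem_support_iff.1 hd)
      have h2 := Finsupp.le_weight wx (s := Sum.inr a) (by simp [wx]) d
      rw [h1] at h2
      exact (Finsupp.mem_support_iff.1 ha) (by omega)
    rw [h0]
    exact isWeightedHomogeneous_zero _ _ _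
  · exact IsWeightedHomogeneous.pderiv h (by simp [wx]; omega)

theorem pderiv_wP {H : BB} {t : ℕ} (h : IsWeightedHomogeneous wP H t) (a : Fin 4) :
    IsWeightedHomogeneous wP (pderiv (Sum.inr a) H) t :=
  IsWeightedHomogeneous.pderiv h (by simp [wP])

theorem Ga1_hom {σ τ : Type} (w : σ → ℕ) (v : τ → ℕ) (φ : MvPolynomial σ ℂ →+* MvPolynomial τ ℂ)
    (hC : ∀ a, IsWeightedHomogeneous v (φ (C a)) 0)
    (hX : ∀ i, IsWeightedHomogeneous v (φ (X i)) (w i)) {H : MvPolynomial σ ℂ} {m : ℕ}
    (h : IsWeightedHomogeneous w H m) : IsWeightedHomogeneous v (φ H) m := by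
  rw [H.as_sum, map_sum]
  apply IsWeightedHomogeneous.sum
  intro d hd
  have h1 := h (mem_support_iff.1 hd)
  rw [monomial_eq, map_mul, Finsupp.prod, map_prod, ← h1, ← zero_add (Finsupp.weight w d)]
  apply (hC _).mul
  rw [Finsupp.weight_apply, Finsupp.sum]
  apply IsWeightedHomogeneous.prod
  intro i _
  rw [map_pow]
  exact (hX i).pow _

theorem atz_wP {H : BB} {m : ℕ} (h : IsWeightedHomogeneous wP H m) (z : Fin 4 → ℂ) :
    (atz z H).IsHomogeneous m := by
  refine Ga1_hom wP 1 (atz z) (fun a => ?_) (fun i => ?_) h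
  · rw [Ga1_atz_C]; exact isWeightedHomogeneous_C _ _
  · rcases i with i | i
    · rw [Ga1_atz_inl]; exact isWeightedHomogeneous_X _ _ _
    · rw [Ga1_atz_inr]; exact isWeightedHomogeneous_C _ _

theorem dz_atz (z : Fin 4 → ℂ) (H : BB) : dz z (atz z H) = atz z (DG H) := by
  induction H using MvPolynomial.induction_on with
  | C a =>
    rw [Ga1_atz_C, Ga1_DG_C, map_zero, Ga1_dz_C]
  | add f g hf hg => rw [map_add, map_add, map_add, map_add, hf, hg]
  | mul_X f i hf =>
    rw [map_mul, Derivation.leibniz, Derivation.leibniz, map_add, smul_eq_mul, smul_eq_mul,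
      smul_eq_mul, smul_eq_mul, map_mul, map_mul, hf]
    congr 2
    rcases i with i | i
    · rw [Ga1_atz_inl, Ga1_DG_inl, Ga1_atz_inr]
      simp [dz, mkDerivation_X]
    · rw [Ga1_atz_inr, Ga1_DG_inr, map_zero, Ga1_dz_C]

theorem inP_wP {r : RR} {m : ℕ} (h : r.IsHomogeneous m) : IsWeightedHomogeneous wP (inP r) m := by
  refine Ga1_hom 1 wP inP (fun a => ?_) (fun i => ?_) h
  · have : inP (C a) = C a := by simp [inP]
    rw [this]; exact isWeightedHomogeneous_C _ _
  · have : inP (X i) = X (Sum.inl i) := by simp [inP]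
    rw [this]; exact isWeightedHomogeneous_X _ _ _

theorem inP_wx (r : RR) : IsWeightedHomogeneous wx (inP r) 0 := by
  induction r using MvPolynomial.induction_on with
  | C a =>
    have : inP (C a) = C a := by simp [inP]
    rw [this]
    exact isWeightedHomogeneous_C _ _
  | add f g hf hg => rw [map_add]; exact hf.add hg
  | mul_X f i hf =>
    have : inP (X i) = X (Sum.inl i) := by simp [inP]
    rw [map_mul, this]
    have h2 : IsWeightedHomogeneous wx (X (Sum.inl i) : BB) 0 := isWeightedHomogeneous_X _ _ _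
    simpa using hf.mul h2

/-- Euler for the degree in `x`, evaluated at `x = z` -/
theorem atz_euler {H : BB} {t : ℕ} (h : IsWeightedHomogeneous wx H t) (z : Fin 4 → ℂ) :
    ∑ a, C (z a) * atz z (pderiv (Sum.inr a) H) = (t : RR) * atz z H := by
  have h1 := h.sum_weight_X_mul_pderiv
  have h2 := congrArg (atz z) h1
  rw [Fintype.sum_sum_type] at h2
  simp only [wx, Sum.elim_inl, Sum.elim_inr, zero_smul, Finset.sum_const_zero, zero_add, one_smul,
    map_sum, map_mul, Ga1_atz_inr, nsmul_eq_mul, map_natCast] at h2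
  exact h2

theorem Ga1_EE_eq (H : BB) : EE H = ∑ a, X (Sum.inl a) * pderiv (Sum.inr a) H := by
  induction H using MvPolynomial.induction_on with
  | C c => simp
  | add f g hf hg => simp only [map_add, hf, hg, mul_add, Finset.sum_add_distrib]
  | mul_X f i hf =>
    rw [Derivation.leibniz, hf, smul_eq_mul, smul_eq_mul]
    simp only [Derivation.leibniz, smul_eq_mul, mul_add, Finset.sum_add_distrib]
    congr 1
    · rcases i with i | i
      · rw [Ga1_EE_inl, mul_zero, Finset.sum_eq_zero]
        intro a _
        rw [pderiv_X_of_ne (by simp)]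
        simp
      · rw [Ga1_EE_inr, Finset.sum_eq_single i]
        · rw [pderiv_X_self]; ring
        · intro b _ hb
          rw [pderiv_X_of_ne (by simpa using hb.symm)]
          simp
        · simp
    · rw [Finset.mul_sum]
      exact Finset.sum_congr rfl (fun a _ => by ring)

/-- `EE H = 0` evaluated at `x = z` -/
theorem atz_EE {H : BB} (h : EE H = 0) (z : Fin 4 → ℂ) :
    ∑ a, (X a : RR) * atz z (pderiv (Sum.inr a) H) = 0 := by
  rw [Ga1_EE_eq] at h
  have h2 := congrArg (atz z) h
  simpa only [map_sum, map_mul, Ga1_atz_inl, map_zero] using h2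

end GP80
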