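import Mathlib
import Pool.Agent.H80.GP.GDefs
import Pool.Agent.H80.GP.Ga1

/-!
# Row Ga2 (MP_87ed0a_GP): charts  (about 200 lines)

`s = i.succAbove`.  `chartH O i` substitutes `x_i = 0`, `x_(s j) = X_j`, and maps the coefficients to `O`.
* `chart_map`: `chartH O i H = map (algebraMap RR O) (chartH RR i H)` (ring homs agreeing on generators, `MvPolynomial.ringHom_ext`).
* `chart_inP`: `chartH O i (inP r) = C (algebraMap RR O r)`.
* `chart_pderiv`: `pderiv j (chartH O i H) = chartH O i (pderiv (inr (s j)) H)` (both are derivations along `chartH`; generators).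
* `chart_homog`: `x`-homogeneous of degree `t` goes to homogeneous of degree `t`.
* `chart_coeff_wP`: if `H` is `wP`-homogeneous of degree `m`, all coefficients of `chartH RR i H` are homogeneous of degree `m`.
* `hlift_*`: `hlift i f = f(P_i x' - x_i P')`: it is `E`-invariant, `x`-homogeneous of degree `t` for `f` homogeneous of degree `t`, `wP`-homogeneous of degree `m + t` if moreover
  all coefficients of `f` are homogeneous of degree `m`; `atz z (hlift i f) = f(P_i z' - z_i P')`; `chartH O i (hlift i f) = P_i^t f` for `f` homogeneous of degree `t`.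
* `hlift_chart`: for `H` `E`-invariant and `x`-homogeneous of degree `t`, `hlift i (chartH RR i H) = P_i^t H`: the left side is
  `H(P, P_i x - x_i P)` (the `i`-th coordinate of `P_i x - x_i P` is `0`), by `einv` (with `y = P_i x`, `μ = - x_i`) it is `H(P, P_i x) = P_i^t H`.
* `chart_eval`: for `H` `E`-invariant, `x`-homogeneous of degree `t`, `z_i ≠ 0`, `P_i` a unit of `O`: in `O`, `z = z_i (0, v) + (z_i / P_i) P` where `v = vz O i z`
  (coordinates: `s j`: `z_i (z_(s j)/z_i - P_(s j)/P_i) + (z_i/P_i) P_(s j) = z_(s j)`), so `H(P, z) = H(P, z_i (0,v)) = z_i^t H(P, (0, v))`.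
-/

namespace GP80

open MvPolynomial

theorem Ga2_weight {σ R : Type} [CommSemiring R] {w : σ → ℕ} {φ : MvPolynomial σ R} {m : ℕ}
    (h : IsWeightedHomogeneous w φ m) {d : σ →₀ ℕ} (hd : d ∈ φ.support) :
    ∑ i ∈ d.support, d i * w i = m := by
  have := h (mem_support_iff.1 hd)
  rw [Finsupp.weight_apply] at this
  simpa [Finsupp.sum, smul_eq_mul] using this

theorem Ga2_eval₂_wh {σ τ R S : Type} [CommSemiring R] [CommSemiring S] {w : σ → ℕ} {w' : τ → ℕ}
    {φ : MvPolynomial σ R} {m : ℕ} (h : IsWeightedHomogeneous w φ m) (f : R →+* MvPolynomial τ S)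
    (g : σ → MvPolynomial τ S) (hf : ∀ r, IsWeightedHomogeneous w' (f r) 0)
    (hg : ∀ i, IsWeightedHomogeneous w' (g i) (w i)) :
    IsWeightedHomogeneous w' (eval₂ f g φ) m := by
  rw [eval₂_eq]
  refine IsWeightedHomogeneous.sum _ _ _ fun d hd => ?_
  have h1 : IsWeightedHomogeneous w' (∏ i ∈ d.support, g i ^ d i)
      (∑ i ∈ d.support, d i • w i) :=
    IsWeightedHomogeneous.prod _ _ _ fun i _ => (hg i).pow (d i)
  have h2 := (hf (coeff d φ)).mul h1
  have h3 := Ga2_weight h hd
  simp only [smul_eq_mul, zero_add] at h2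
  rw [h3] at h2
  exact h2

theorem Ga2_scale {σ R S : Type} [CommSemiring R] [CommSemiring S] {w : σ → ℕ}
    {φ : MvPolynomial σ R} {m : ℕ} (h : IsWeightedHomogeneous w φ m) (f : R →+* S)
    (g g' : σ → S) (c : S) (hg : ∀ i, g' i = c ^ w i * g i) :
    eval₂ f g' φ = c ^ m * eval₂ f g φ := by
  rw [eval₂_eq, eval₂_eq, Finset.mul_sum]
  refine Finset.sum_congr rfl fun d hd => ?_
  have h3 := Ga2_weight h hd
  have h4 : ∏ i ∈ d.support, g' i ^ d i = c ^ m * ∏ i ∈ d.support, g i ^ d i := by
    rw [← h3, ← Finset.prod_pow_eq_pow_sum, ← Finset.prod_mul_distrib]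
    refine Finset.prod_congr rfl fun i _ => ?_
    rw [hg i, mul_pow, ← pow_mul, mul_comm (w i) (d i)]
  rw [h4]
  ring

theorem Ga2_eval₂_map {σ R S : Type} [CommSemiring R] [CommSemiring S] (f : R →+* S)
    (p : MvPolynomial σ R) :
    eval₂ ((C : S →+* MvPolynomial σ S).comp f) (fun j => X j) p = map f p := by
  induction p using MvPolynomial.induction_on with
  | C a => simp
  | add p q hp hq => rw [eval₂_add, map_add, hp, hq]
  | mul_X p n hp => rw [eval₂_mul, map_mul, hp, eval₂_X, map_X]

theorem Ga2_chart_C (O : Type) [CommRing O] [Algebra RR O] (i : Fin 4) (a : ℂ) :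
    chartH O i (C a) = C (algebraMap RR O (C a)) := by
  simp [chartH]

theorem Ga2_chart_inl (O : Type) [CommRing O] [Algebra RR O] (i j : Fin 4) :
    chartH O i (X (Sum.inl j)) = C (algebraMap RR O (X j)) := by
  simp [chartH]

theorem Ga2_chart_inr_self (O : Type) [CommRing O] [Algebra RR O] (i : Fin 4) :
    chartH O i (X (Sum.inr i)) = 0 := by
  simp [chartH]

theorem Ga2_chart_inr (O : Type) [CommRing O] [Algebra RR O] (i : Fin 4) (j : Fin 3) :
    chartH O i (X (Sum.inr (i.succAbove j))) = X j := by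
  simp [chartH]

theorem Ga2_inP_C (a : ℂ) : inP (C a) = C a := by
  simp [inP]

theorem Ga2_inP_X (j : Fin 4) : inP (X j) = X (Sum.inl j) := by
  simp [inP]

theorem Ga2_hlift_C (i : Fin 4) (r : RR) : hlift i (C r) = inP r := by
  simp [hlift]

theorem Ga2_hlift_X (i : Fin 4) (j : Fin 3) : hlift i (X j) =
    X (Sum.inl i) * X (Sum.inr (i.succAbove j)) - X (Sum.inr i) * X (Sum.inl (i.succAbove j)) := by
  simp [hlift]

theorem chart_map (O : Type) [CommRing O] [Algebra RR O] (i : Fin 4) (H : BB) :
    chartH O i H = map (algebraMap RR O) (chartH RR i H) := by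
  have h : chartH O i = (map (algebraMap RR O)).comp (chartH RR i) := by
    apply MvPolynomial.ringHom_ext
    · intro a
      rw [RingHom.comp_apply, Ga2_chart_C, Ga2_chart_C, map_C]
      rfl
    · rintro (j | j)
      · rw [RingHom.comp_apply, Ga2_chart_inl, Ga2_chart_inl, map_C]
        rfl
      · refine (Fin.forall_iff_succAbove (P := fun j => chartH O i (X (Sum.inr j)) =
          ((map (algebraMap RR O)).comp (chartH RR i)) (X (Sum.inr j))) i).2 ⟨?_, fun m => ?_⟩ j
        · rw [RingHom.comp_apply, Ga2_chart_inr_self, Ga2_chart_inr_self, map_zero]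
        · rw [RingHom.comp_apply, Ga2_chart_inr, Ga2_chart_inr, map_X]
  rw [h]
  rfl

theorem chart_inP (O : Type) [CommRing O] [Algebra RR O] (i : Fin 4) (r : RR) :
    chartH O i (inP r) = C (algebraMap RR O r) := by
  have h : (chartH O i).comp inP = (C : O →+* MvPolynomial (Fin 3) O).comp (algebraMap RR O) := by
    apply MvPolynomial.ringHom_ext
    · intro a
      rw [RingHom.comp_apply, Ga2_inP_C, Ga2_chart_C]
      rfl
    · intro j
      rw [RingHom.comp_apply, Ga2_inP_X, Ga2_chart_inl]
      rfl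
  exact congrArg (fun g : RR →+* MvPolynomial (Fin 3) O => g r) h

theorem chart_pderiv (O : Type) [CommRing O] [Algebra RR O] (i : Fin 4) (j : Fin 3) (H : BB) :
    pderiv j (chartH O i H) = chartH O i (pderiv (Sum.inr (i.succAbove j)) H) := by
  induction H using MvPolynomial.induction_on with
  | C a => rw [Ga2_chart_C, pderiv_C, pderiv_C, map_zero]
  | add p q hp hq => rw [map_add, map_add, map_add, map_add, hp, hq]
  | mul_X p n hp =>
    rw [map_mul, Derivation.leibniz, Derivation.leibniz, hp, map_add, smul_eq_mul, smul_eq_mul,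
      smul_eq_mul, smul_eq_mul, map_mul, map_mul]
    congr 1
    congr 1
    rcases n with n | n
    · rw [Ga2_chart_inl, pderiv_C, pderiv_X_of_ne (by simp), map_zero]
    · refine (Fin.forall_iff_succAbove (P := fun n => pderiv j (chartH O i (X (Sum.inr n))) =
          chartH O i (pderiv (Sum.inr (i.succAbove j)) (X (Sum.inr n)))) i).2 ⟨?_, fun m => ?_⟩ n
      · have hne : (Sum.inr i : Fin 4 ⊕ Fin 4) ≠ Sum.inr (i.succAbove j) := by
          intro h
          exact Fin.succAbove_ne i j (Sum.inr_injective h).symm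
        rw [Ga2_chart_inr_self, map_zero, pderiv_X_of_ne hne, map_zero]
      · rw [Ga2_chart_inr]
        by_cases hm : m = j
        · subst hm
          rw [pderiv_X_self, pderiv_X_self, map_one]
        · have hne : (Sum.inr (i.succAbove m) : Fin 4 ⊕ Fin 4) ≠ Sum.inr (i.succAbove j) := by
            intro h
            exact hm (Fin.succAbove_right_injective (Sum.inr_injective h))
          rw [pderiv_X_of_ne hm, pderiv_X_of_ne hne, map_zero]

theorem chart_homog (O : Type) [CommRing O] [Algebra RR O] (i : Fin 4) {H : BB} {t : ℕ}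
    (h : IsWeightedHomogeneous wx H t) : (chartH O i H).IsHomogeneous t := by
  refine Ga2_eval₂_wh h _ _ (fun r => ?_) ?_
  · exact isWeightedHomogeneous_C _ _
  · rintro (j | j)
    · exact isWeightedHomogeneous_C _ _
    · refine (Fin.forall_iff_succAbove (P := fun j => IsWeightedHomogeneous 1
        (Sum.elim (fun j => C (algebraMap RR O (X j)))
          (fun j => Fin.insertNth (α := fun _ => MvPolynomial (Fin 3) O) i 0 (fun m => X m) j)
          (Sum.inr j : Fin 4 ⊕ Fin 4)) (wx (Sum.inr j))) i).2 ⟨?_, fun m => ?_⟩ j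
      · simp only [Sum.elim_inr, Fin.insertNth_apply_same]
        exact isWeightedHomogeneous_zero _ _ _
      · simp only [Sum.elim_inr, Fin.insertNth_apply_succAbove]
        exact isWeightedHomogeneous_X _ _ _

/-- all coefficients homogeneous of degree `n` -/
def Ga2_CH (φ : MvPolynomial (Fin 3) RR) (n : ℕ) : Prop := ∀ e, (coeff e φ).IsHomogeneous n

theorem Ga2_CH_C {r : RR} {n : ℕ} (h : r.IsHomogeneous n) : Ga2_CH (C r) n := by
  intro e
  rw [coeff_C]
  split_ifs
  · exact h
  · exact isHomogeneous_zero _ _ _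

theorem Ga2_CH_zero (n : ℕ) : Ga2_CH 0 n := by
  intro e
  rw [coeff_zero]
  exact isHomogeneous_zero _ _ _

theorem Ga2_CH_X (j : Fin 3) : Ga2_CH (X j) 0 := by
  intro e
  rw [coeff_X]
  split_ifs
  · exact isHomogeneous_one _ _
  · exact isHomogeneous_zero _ _ _

theorem Ga2_CH_mul {φ ψ : MvPolynomial (Fin 3) RR} {n m : ℕ} (h : Ga2_CH φ n) (h' : Ga2_CH ψ m) :
    Ga2_CH (φ * ψ) (n + m) := by
  intro e
  rw [coeff_mul]
  exact IsHomogeneous.sum _ _ _ fun x _ => (h x.1).mul (h' x.2)

theorem Ga2_CH_pow {φ : MvPolynomial (Fin 3) RR} {n : ℕ} (h : Ga2_CH φ n) (k : ℕ) :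
    Ga2_CH (φ ^ k) (k * n) := by
  induction k with
  | zero =>
    rw [pow_zero, zero_mul, ← C_1]
    exact Ga2_CH_C (isHomogeneous_one _ _)
  | succ k ih =>
    rw [pow_succ, Nat.succ_mul]
    exact Ga2_CH_mul ih h

theorem Ga2_CH_prod {ι : Type} (s : Finset ι) (φ : ι → MvPolynomial (Fin 3) RR) (n : ι → ℕ)
    (h : ∀ i ∈ s, Ga2_CH (φ i) (n i)) : Ga2_CH (∏ i ∈ s, φ i) (∑ i ∈ s, n i) := by
  classical
  induction s using Finset.induction_on with
  | empty =>
    rw [Finset.prod_empty, Finset.sum_empty, ← C_1]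
    exact Ga2_CH_C (isHomogeneous_one _ _)
  | insert a s ha ih =>
    rw [Finset.prod_insert ha, Finset.sum_insert ha]
    exact Ga2_CH_mul (h a (Finset.mem_insert_self _ _))
      (ih fun i hi => h i (Finset.mem_insert_of_mem hi))

theorem Ga2_CH_sum {ι : Type} (s : Finset ι) (φ : ι → MvPolynomial (Fin 3) RR) (n : ℕ)
    (h : ∀ i ∈ s, Ga2_CH (φ i) n) : Ga2_CH (∑ i ∈ s, φ i) n := by
  intro e
  rw [coeff_sum]
  exact IsHomogeneous.sum _ _ _ fun x hx => h x hx e

theorem chart_coeff_wP (i : Fin 4) {H : BB} {m : ℕ} (h : IsWeightedHomogeneous wP H m)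
    (e : Fin 3 →₀ ℕ) : (coeff e (chartH RR i H)).IsHomogeneous m := by
  have key : Ga2_CH (chartH RR i H) m := by
    rw [chartH, coe_eval₂Hom, eval₂_eq]
    refine Ga2_CH_sum _ _ _ fun d hd => ?_
    have h1 : Ga2_CH ((((C : RR →+* MvPolynomial (Fin 3) RR).comp
        ((algebraMap RR RR).comp (C : ℂ →+* RR)))) (coeff d H)) 0 :=
      Ga2_CH_C (isHomogeneous_C _ _)
    have h2 := Ga2_CH_prod d.support (fun k => (Sum.elim (fun j => C (algebraMap RR RR (X j)))
        (fun j => Fin.insertNth (α := fun _ => MvPolynomial (Fin 3) RR) i 0 (fun m => X m) j) k) ^ d k)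
        (fun k => d k * wP k) (fun k _ => by
          refine Ga2_CH_pow ?_ _
          rcases k with j | j
          · exact Ga2_CH_C (isHomogeneous_X _ _)
          · refine (Fin.forall_iff_succAbove (P := fun j => Ga2_CH
              (Sum.elim (fun j => C (algebraMap RR RR (X j)))
                (fun j => Fin.insertNth (α := fun _ => MvPolynomial (Fin 3) RR) i 0
                  (fun m => X m) j) (Sum.inr j : Fin 4 ⊕ Fin 4)) (wP (Sum.inr j))) i).2
                ⟨?_, fun m => ?_⟩ j
            · simp only [Sum.elim_inr, Fin.insertNth_apply_same]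
              exact Ga2_CH_zero _
            · simp only [Sum.elim_inr, Fin.insertNth_apply_succAbove]
              exact Ga2_CH_X _)
    have h3 := Ga2_CH_mul h1 h2
    rw [Ga2_weight h hd, zero_add] at h3
    exact h3
  exact key e

theorem hlift_EE (i : Fin 4) (f : MvPolynomial (Fin 3) RR) : EE (hlift i f) = 0 := by
  induction f using MvPolynomial.induction_on with
  | C a => rw [Ga2_hlift_C, EE_inP]
  | add p q hp hq => rw [map_add, map_add, hp, hq, add_zero]
  | mul_X p n hp =>
    have h : EE (hlift i (X n)) = 0 := by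
      rw [Ga2_hlift_X, map_sub, Derivation.leibniz, Derivation.leibniz]
      simp only [EE, mkDerivation_X, Sum.elim_inl, Sum.elim_inr, smul_eq_mul, mul_zero]
      ring
    rw [map_mul, Derivation.leibniz, hp, h, smul_zero, smul_zero, add_zero]

theorem hlift_wx (i : Fin 4) {f : MvPolynomial (Fin 3) RR} {t : ℕ} (hf : f.IsHomogeneous t) :
    IsWeightedHomogeneous wx (hlift i f) t := by
  refine Ga2_eval₂_wh (w := 1) hf _ _ (fun r => inP_wx r) fun j => ?_
  have e1 : IsWeightedHomogeneous wx (X (Sum.inl i) * X (Sum.inr (i.succAbove j)) : BB) (0 + 1) :=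
    (isWeightedHomogeneous_X ℂ wx (Sum.inl i)).mul
      (isWeightedHomogeneous_X ℂ wx (Sum.inr (i.succAbove j)))
  have e2 : IsWeightedHomogeneous wx (X (Sum.inr i) * X (Sum.inl (i.succAbove j)) : BB) (1 + 0) :=
    (isWeightedHomogeneous_X ℂ wx (Sum.inr i)).mul
      (isWeightedHomogeneous_X ℂ wx (Sum.inl (i.succAbove j)))
  rw [zero_add] at e1
  rw [add_zero] at e2
  exact Submodule.sub_mem (weightedHomogeneousSubmodule ℂ wx 1) e1 e2

theorem hlift_wP (i : Fin 4) {f : MvPolynomial (Fin 3) RR} {t m : ℕ} (hf : f.IsHomogeneous t)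
    (hm : ∀ e, (coeff e f).IsHomogeneous m) : IsWeightedHomogeneous wP (hlift i f) (m + t) := by
  have hg : ∀ j : Fin 3, IsWeightedHomogeneous wP (X (Sum.inl i) * X (Sum.inr (i.succAbove j)) -
      X (Sum.inr i) * X (Sum.inl (i.succAbove j)) : BB) 1 := by
    intro j
    have e1 : IsWeightedHomogeneous wP (X (Sum.inl i) * X (Sum.inr (i.succAbove j)) : BB) (1 + 0) :=
      (isWeightedHomogeneous_X ℂ wP (Sum.inl i)).mul
        (isWeightedHomogeneous_X ℂ wP (Sum.inr (i.succAbove j)))
    have e2 : IsWeightedHomogeneous wP (X (Sum.inr i) * X (Sum.inl (i.succAbove j)) : BB) (0 + 1) :=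
      (isWeightedHomogeneous_X ℂ wP (Sum.inr i)).mul
        (isWeightedHomogeneous_X ℂ wP (Sum.inl (i.succAbove j)))
    rw [add_zero] at e1
    rw [zero_add] at e2
    exact Submodule.sub_mem (weightedHomogeneousSubmodule ℂ wP 1) e1 e2
  rw [hlift, coe_eval₂Hom, eval₂_eq]
  refine IsWeightedHomogeneous.sum _ _ _ fun d hd => ?_
  refine (inP_wP (hm d)).mul ?_
  have h1 : IsWeightedHomogeneous wP (∏ j ∈ d.support,
      (X (Sum.inl i) * X (Sum.inr (i.succAbove j)) -
      X (Sum.inr i) * X (Sum.inl (i.succAbove j)) : BB) ^ d j)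
      (∑ j ∈ d.support, d j • 1) :=
    IsWeightedHomogeneous.prod _ _ _ fun j _ => (hg j).pow (d j)
  have h2 := Ga2_weight (w := 1) hf hd
  simp only [Pi.one_apply, mul_one] at h2
  simp only [smul_eq_mul, mul_one, h2] at h1
  exact h1

theorem atz_hlift (i : Fin 4) (z : Fin 4 → ℂ) (f : MvPolynomial (Fin 3) RR) :
    atz z (hlift i f) =
      eval (fun j => X i * C (z (i.succAbove j)) - C (z i) * X (i.succAbove j)) f := by
  have h : (atz z).comp (hlift i) =
      (eval (fun j => X i * C (z (i.succAbove j)) - C (z i) * X (i.succAbove j)) :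
        MvPolynomial (Fin 3) RR →+* RR) := by
    apply MvPolynomial.ringHom_ext
    · intro r
      rw [RingHom.comp_apply, Ga2_hlift_C, atz_inP, eval_C]
    · intro j
      rw [RingHom.comp_apply, Ga2_hlift_X, eval_X]
      simp [atz]
  exact congrArg (fun g : MvPolynomial (Fin 3) RR →+* RR => g f) h

theorem chart_hlift (O : Type) [CommRing O] [Algebra RR O] (i : Fin 4) {f : MvPolynomial (Fin 3) RR}
    {t : ℕ} (hf : f.IsHomogeneous t) :
    chartH O i (hlift i f) = C (algebraMap RR O (X i ^ t)) * map (algebraMap RR O) f := by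
  have h : (chartH O i).comp (hlift i) =
      eval₂Hom ((C : O →+* MvPolynomial (Fin 3) O).comp (algebraMap RR O))
        (fun j => C (algebraMap RR O (X i)) * X j) := by
    apply MvPolynomial.ringHom_ext
    · intro r
      rw [RingHom.comp_apply, Ga2_hlift_C, chart_inP, eval₂Hom_C]
      rfl
    · intro j
      rw [RingHom.comp_apply, Ga2_hlift_X, eval₂Hom_X', map_sub, map_mul, map_mul,
        Ga2_chart_inl, Ga2_chart_inr, Ga2_chart_inr_self, zero_mul, sub_zero]
  have h1 : chartH O i (hlift i f) = eval₂ ((C : O →+* MvPolynomial (Fin 3) O).comp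
      (algebraMap RR O)) (fun j => C (algebraMap RR O (X i)) * X j) f :=
    congrArg (fun g : MvPolynomial (Fin 3) RR →+* MvPolynomial (Fin 3) O => g f) h
  rw [h1, Ga2_scale (w := 1) hf _ (fun j => X j) _ (C (algebraMap RR O (X i)))
    (fun j => by simp), map_pow, map_pow, Ga2_eval₂_map]

theorem hlift_chart (i : Fin 4) {H : BB} {t : ℕ} (h : IsWeightedHomogeneous wx H t)
    (hE : EE H = 0) : hlift i (chartH RR i H) = inP (X i ^ t) * H := by
  have h1 : (hlift i).comp (chartH RR i) = (aeval (Sum.elim (fun j => (X (Sum.inl j) : BB))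
      (fun j => X (Sum.inl i) * X (Sum.inr j) + (-X (Sum.inr i)) * X (Sum.inl j))) :
        BB →ₐ[ℂ] BB).toRingHom := by
    apply MvPolynomial.ringHom_ext
    · intro a
      rw [RingHom.comp_apply, Ga2_chart_C, Ga2_hlift_C]
      simp [inP]
    · rintro (j | j)
      · rw [RingHom.comp_apply, Ga2_chart_inl, Ga2_hlift_C]
        simp [inP]
      · refine (Fin.forall_iff_succAbove (P := fun j => ((hlift i).comp (chartH RR i))
          (X (Sum.inr j)) = (aeval (Sum.elim (fun j => (X (Sum.inl j) : BB))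
          (fun j => X (Sum.inl i) * X (Sum.inr j) + (-X (Sum.inr i)) * X (Sum.inl j))) :
          BB →ₐ[ℂ] BB).toRingHom (X (Sum.inr j))) i).2 ⟨?_, fun m => ?_⟩ j
        · rw [RingHom.comp_apply, Ga2_chart_inr_self, map_zero]
          simp only [AlgHom.toRingHom_eq_coe, RingHom.coe_coe, aeval_X, Sum.elim_inr]
          ring
        · rw [RingHom.comp_apply, Ga2_chart_inr, Ga2_hlift_X]
          simp only [AlgHom.toRingHom_eq_coe, RingHom.coe_coe, aeval_X, Sum.elim_inr]
          ring
  have h2 : hlift i (chartH RR i H) = aeval (Sum.elim (fun j => (X (Sum.inl j) : BB))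
      (fun j => X (Sum.inl i) * X (Sum.inr j) + (-X (Sum.inr i)) * X (Sum.inl j))) H :=
    congrArg (fun g : BB →+* BB => g H) h1
  rw [h2, einv hE (fun j => (X (Sum.inl j) : BB)) (fun j => X (Sum.inl i) * X (Sum.inr j))
    (-X (Sum.inr i)), aeval_def,
    Ga2_scale h _ (fun k => X k) _ (X (Sum.inl i)) (fun k => by
      rcases k with k | k <;> simp [wx])]
  have h3 : eval₂ (algebraMap ℂ BB) (fun k => X k) H = H := by
    rw [← aeval_def]
    exact aeval_X_left_apply H
  rw [h3, map_pow, Ga2_inP_X]

theorem Ga2_inv (O : Type) [CommRing O] [Algebra RR O] (i : Fin 4)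
    (hu : IsUnit (algebraMap RR O (X i))) :
    Ring.inverse (algebraMap RR O (X i)) * algebraMap RR O (X i) = 1 :=
  Ring.inverse_mul_cancel _ hu

theorem Ga2_Cdiv (O : Type) [CommRing O] [Algebra RR O] {a b : ℂ} (hb : b ≠ 0) :
    algebraMap RR O (C b) * algebraMap RR O (C (a / b)) = algebraMap RR O (C a) := by
  rw [← map_mul, ← C_mul, mul_div_cancel₀ a hb]

theorem chart_eval (O : Type) [CommRing O] [Algebra RR O] (i : Fin 4)
    (hu : IsUnit (algebraMap RR O (X i))) {H : BB} {t : ℕ} (h : IsWeightedHomogeneous wx H t)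
    (hE : EE H = 0) {z : Fin 4 → ℂ} (hz : z i ≠ 0) :
    algebraMap RR O (atz z H) = algebraMap RR O (C (z i ^ t)) * eval (vz O i z) (chartH O i H) := by
  let _ : Algebra ℂ O := ((algebraMap RR O).comp (C : ℂ →+* RR)).toAlgebra
  have hal : algebraMap ℂ O = (algebraMap RR O).comp (C : ℂ →+* RR) := rfl
  set p : Fin 4 → O := fun j => algebraMap RR O (X j) with hp
  set v : Fin 4 → O := fun j => Fin.insertNth (α := fun _ => O) i 0 (vz O i z) j with hv
  set ι : O := Ring.inverse (algebraMap RR O (X i)) with hι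
  have hι1 : ι * p i = 1 := Ga2_inv O i hu
  -- left side
  have e1 : algebraMap RR O (atz z H) = aeval (Sum.elim p
      (fun j => algebraMap RR O (C (z i)) * v j + (algebraMap RR O (C (z i)) * ι) * p j)) H := by
    have h1 : (algebraMap RR O).comp (atz z) = eval₂Hom (algebraMap ℂ O) (Sum.elim p
        (fun j => algebraMap RR O (C (z i)) * v j + (algebraMap RR O (C (z i)) * ι) * p j)) := by
      apply MvPolynomial.ringHom_ext
      · intro a
        simp [atz, hal]
      · rintro (j | j)
        · simp [atz, hp]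
        · refine (Fin.forall_iff_succAbove (P := fun j => ((algebraMap RR O).comp (atz z))
            (X (Sum.inr j)) = eval₂Hom (algebraMap ℂ O) (Sum.elim p
            (fun j => algebraMap RR O (C (z i)) * v j +
              (algebraMap RR O (C (z i)) * ι) * p j)) (X (Sum.inr j))) i).2 ⟨?_, fun m => ?_⟩ j
          · rw [RingHom.comp_apply, eval₂Hom_X']
            simp only [atz, coe_eval₂Hom, eval₂_X, Sum.elim_inr, hv, Fin.insertNth_apply_same]
            rw [mul_assoc, hι1]
            ring
          · rw [RingHom.comp_apply, eval₂Hom_X']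
            simp only [atz, coe_eval₂Hom, eval₂_X, Sum.elim_inr, hv,
              Fin.insertNth_apply_succAbove, vz]
            rw [mul_sub, Ga2_Cdiv O hz]
            ring
    have h2 := congrArg (fun g : BB →+* O => g H) h1
    simpa [aeval_def] using h2
  have e2 : eval (vz O i z) (chartH O i H) = aeval (Sum.elim p v) H := by
    have h1 : (eval (vz O i z)).comp (chartH O i) = eval₂Hom (algebraMap ℂ O) (Sum.elim p v) := by
      apply MvPolynomial.ringHom_ext
      · intro a
        rw [RingHom.comp_apply, Ga2_chart_C, eval_C, eval₂Hom_C]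
        rfl
      · rintro (j | j)
        · rw [RingHom.comp_apply, Ga2_chart_inl, eval_C, eval₂Hom_X']
          rfl
        · refine (Fin.forall_iff_succAbove (P := fun j => ((eval (vz O i z)).comp (chartH O i))
            (X (Sum.inr j)) = eval₂Hom (algebraMap ℂ O) (Sum.elim p v) (X (Sum.inr j))) i).2
            ⟨?_, fun m => ?_⟩ j
          · rw [RingHom.comp_apply, Ga2_chart_inr_self, map_zero, eval₂Hom_X']
            simp [hv]
          · rw [RingHom.comp_apply, Ga2_chart_inr, eval_X, eval₂Hom_X']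
            simp [hv]
    have h2 := congrArg (fun g : BB →+* O => g H) h1
    simpa [aeval_def] using h2
  rw [e1, e2, einv hE p (fun j => algebraMap RR O (C (z i)) * v j)
    (algebraMap RR O (C (z i)) * ι), aeval_def, aeval_def,
    Ga2_scale h _ (Sum.elim p v) _ (algebraMap RR O (C (z i))) (fun k => by
      rcases k with k | k <;> simp [wx]), map_pow, map_pow]

/-- `P_i z' - z_i P' = P_i z_i v` -/
theorem vz_scale (O : Type) [CommRing O] [Algebra RR O] (i : Fin 4)
    (hu : IsUnit (algebraMap RR O (X i))) {z : Fin 4 → ℂ} (hz : z i ≠ 0) (j : Fin 3) :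
    algebraMap RR O (X i * C (z (i.succAbove j)) - C (z i) * X (i.succAbove j)) =
      algebraMap RR O (X i * C (z i)) * vz O i z j := by
  have h1 := Ga2_inv O i hu
  have h2 := Ga2_Cdiv O (a := z (i.succAbove j)) hz
  rw [vz, map_sub, map_mul, map_mul, map_mul, ← h2]
  linear_combination (algebraMap RR O (C (z i)) * algebraMap RR O (X (i.succAbove j))) * h1

end GP80
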