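import Mathlib
import Pool.Agent.H80.GP.Defs2

/-!
# Row Kp2 (MP_87ed0a_GP): divisors of forms are forms, gcd of an ideal  (about 100 lines)

* `homog_of_mul`: in a domain, if `f g` is homogeneous of degree `n` and nonzero, then `f` is homogeneous of some degree `a`, `g` of
  degree `b`, `a + b = n`.  Proof: lowest and highest homogeneous components of `f` and `g`: the products of the highest components (degree
  `totalDegree f + totalDegree g`) and of the lowest components are nonzero components of `f g`, so both degrees are `n`; hence the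
  lowest and the highest degree of `f` agree.  (Possible tool: substitute `X_i ↦ T X_i` in `Polynomial (MvPolynomial σ k)`: `f g` becomes `T^n f g`, a
  monomial in `T`, and factors of a monomial in `T` over a domain are monomials in `T`; or search Mathlib for
  `IsHomogeneous.of_mul`/`isHomogeneous_of_mul`.)
* `homog_of_mul_left`: if in addition `f` is known to be homogeneous of degree `a`, `f ≠ 0`, then `g` is homogeneous of degree `n - a` and `a ≤ n`.
* `exists_gcd_ideal`: a nonzero ideal `B` of the UFD `k[X]` has a gcd `Δ` with the strong property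
  (`g ∣ x q` for all `q ∈ B` implies `g ∣ x Δ`).  Proof: `B` is generated by a finite set (Noetherian); `Δ` = gcd of the generators
  (`UniqueFactorizationMonoid.toGCDMonoid`, `Finset.gcd`), `gcd (x q_i) = x gcd (q_i)` up to units (`Finset.gcd_mul_left`).
-/

namespace GP80

open MvPolynomial

/-- substitute `X_i ↦ T X_i` -/
private noncomputable def Kp2_phi (σ K : Type) [CommRing K] :
    MvPolynomial σ K →+* Polynomial (MvPolynomial σ K) :=
  eval₂Hom (Polynomial.C.comp C) (fun i => Polynomial.X * Polynomial.C (X i))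

private theorem Kp2_mono {σ K : Type} [CommRing K] (d : σ →₀ ℕ) (r : K) :
    Kp2_phi σ K (monomial d r) = Polynomial.C (monomial d r) * Polynomial.X ^ d.degree := by
  unfold Kp2_phi
  rw [eval₂Hom_monomial, monomial_eq, map_mul, Finsupp.prod, Finsupp.prod]
  simp only [mul_pow, Finset.prod_mul_distrib, Finset.prod_pow_eq_pow_sum, RingHom.comp_apply]
  rw [map_prod, Finsupp.degree_apply]
  simp only [map_pow]
  ring

private theorem Kp2_coeff {σ K : Type} [CommRing K] (f : MvPolynomial σ K) (m : ℕ) :
    (Kp2_phi σ K f).coeff m = homogeneousComponent m f := by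
  classical
  induction f using MvPolynomial.induction_on' with
  | monomial d r =>
    rw [Kp2_mono, Polynomial.coeff_C_mul, Polynomial.coeff_X_pow]
    ext e
    rw [coeff_homogeneousComponent]
    by_cases h : m = d.degree
    · rw [if_pos h, mul_one, h]
      split_ifs with h2
      · rfl
      · rw [coeff_monomial, if_neg]
        intro h3
        rw [h3] at h2
        exact h2 rfl
    · rw [if_neg h, mul_zero, coeff_zero]
      split_ifs with h2
      · rw [coeff_monomial, if_neg]
        intro h3
        rw [h3] at h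
        exact h h2.symm
      · rfl
  | add p q hp hq => rw [map_add, Polynomial.coeff_add, hp, hq, map_add]

private theorem Kp2_hom {σ K : Type} [CommRing K] {f : MvPolynomial σ K} {a : ℕ}
    (h : ∀ m, m ≠ a → homogeneousComponent m f = 0) : f.IsHomogeneous a := by
  have h1 : f = homogeneousComponent a f := by
    ext d
    rw [coeff_homogeneousComponent]
    split_ifs with h2
    · rfl
    · have h3 := congrArg (coeff d) (h _ h2)
      rw [coeff_homogeneousComponent, if_pos rfl, coeff_zero] at h3
      exact h3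
  rw [h1]
  exact homogeneousComponent_isHomogeneous a f

private theorem Kp2_mul {σ K : Type} [CommRing K] {f : MvPolynomial σ K} {n : ℕ}
    (h : f.IsHomogeneous n) : Kp2_phi σ K f = Polynomial.monomial n f := by
  ext1 m
  rw [Kp2_coeff, Polynomial.coeff_monomial,
    homogeneousComponent_of_mem ((mem_homogeneousSubmodule n f).2 h)]
  by_cases h1 : m = n
  · rw [if_pos h1, if_pos h1.symm]
  · rw [if_neg h1, if_neg (Ne.symm h1)]

theorem homog_of_mul {σ K : Type} [CommRing K] [IsDomain K] {f g : MvPolynomial σ K} {n : ℕ}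
    (h : (f * g).IsHomogeneous n) (h0 : f * g ≠ 0) :
    ∃ a b : ℕ, a + b = n ∧ f.IsHomogeneous a ∧ g.IsHomogeneous b := by
  classical
  have h1 := Kp2_mul h
  rw [map_mul] at h1
  have hne : Kp2_phi σ K f * Kp2_phi σ K g ≠ 0 := by
    rw [h1]
    exact (Polynomial.monomial_eq_zero_iff _ _).not.2 h0
  have hF := left_ne_zero_of_mul hne
  have hG := right_ne_zero_of_mul hne
  have h2 := Polynomial.natDegree_mul hF hG
  rw [h1, Polynomial.natDegree_monomial, if_neg h0] at h2
  have h3 := Polynomial.natTrailingDegree_mul hF hG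
  rw [h1, Polynomial.natTrailingDegree_monomial h0] at h3
  have h4 := Polynomial.natTrailingDegree_le_natDegree (Kp2_phi σ K f)
  have h5 := Polynomial.natTrailingDegree_le_natDegree (Kp2_phi σ K g)
  refine ⟨(Kp2_phi σ K f).natDegree, (Kp2_phi σ K g).natDegree, h2.symm, ?_, ?_⟩
  · refine Kp2_hom fun m hm => ?_
    rw [← Kp2_coeff]
    rcases lt_or_gt_of_ne hm with h6 | h6
    · exact Polynomial.coeff_eq_zero_of_lt_natTrailingDegree (by omega)
    · exact Polynomial.coeff_eq_zero_of_natDegree_lt h6
  · refine Kp2_hom fun m hm => ?_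
    rw [← Kp2_coeff]
    rcases lt_or_gt_of_ne hm with h6 | h6
    · exact Polynomial.coeff_eq_zero_of_lt_natTrailingDegree (by omega)
    · exact Polynomial.coeff_eq_zero_of_natDegree_lt h6

theorem homog_of_mul_left {σ K : Type} [CommRing K] [IsDomain K] {f g : MvPolynomial σ K} {n a : ℕ}
    (h : (f * g).IsHomogeneous n) (hf : f.IsHomogeneous a) (h0 : f * g ≠ 0) :
    a ≤ n ∧ g.IsHomogeneous (n - a) := by
  obtain ⟨a', b, h1, h2, h3⟩ := homog_of_mul h h0
  have h4 : a = a' := hf.inj_right h2 (left_ne_zero_of_mul h0)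
  have h5 : n - a = b := by omega
  rw [h5]
  exact ⟨by omega, h3⟩

private theorem Kp2_gcd {R : Type} [CommRing R] [IsDomain R] [GCDMonoid R] (S : Finset R) :
    ∃ Δ : R, (∀ q ∈ S, Δ ∣ q) ∧ ∀ x g : R, (∀ q ∈ S, g ∣ x * q) → g ∣ x * Δ := by
  classical
  induction S using Finset.induction_on with
  | empty => exact ⟨0, fun q hq => absurd hq (Finset.notMem_empty q), fun x g _ => by simp⟩
  | insert q0 S hq0 ih =>
    obtain ⟨Δ, h1, h2⟩ := ih
    refine ⟨gcd q0 Δ, fun q hq => ?_, fun x g hg => ?_⟩
    · rcases Finset.mem_insert.1 hq with rfl | hq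
      · exact gcd_dvd_left _ _
      · exact (gcd_dvd_right _ _).trans (h1 q hq)
    · have h3 := hg q0 (Finset.mem_insert_self _ _)
      have h4 := h2 x g fun q hq => hg q (Finset.mem_insert_of_mem hq)
      exact (dvd_gcd h3 h4).trans (gcd_mul_left' x q0 Δ).dvd

theorem exists_gcd_ideal {k : Type} [Field k] (B : Ideal (MvPolynomial (Fin 3) k)) (hB : B ≠ ⊥) :
    ∃ Δ : MvPolynomial (Fin 3) k, (∀ q ∈ B, Δ ∣ q) ∧
      ∀ x g : MvPolynomial (Fin 3) k, (∀ q ∈ B, g ∣ x * q) → g ∣ x * Δ := by
  classical
  let _ := UniqueFactorizationMonoid.toGCDMonoid (MvPolynomial (Fin 3) k)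
  obtain ⟨S, hS⟩ := (isNoetherian_def.1 (inferInstance : IsNoetherian (MvPolynomial (Fin 3) k)
    (MvPolynomial (Fin 3) k))) B
  obtain ⟨Δ, h1, h2⟩ := Kp2_gcd S
  refine ⟨Δ, fun q hq => ?_, fun x g hg => h2 x g fun q hq => hg q ?_⟩
  · have h3 : B ≤ Ideal.span {Δ} := by
      rw [← hS]
      refine Submodule.span_le.2 fun q hq => ?_
      exact Ideal.mem_span_singleton.2 (h1 q hq)
    exact Ideal.mem_span_singleton.1 (h3 hq)
  · rw [← hS]
    exact Submodule.subset_span hq

end GP80
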