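import Mathlib
import Pool.Agent.H80.GP.GDefs
import Pool.Agent.H80.GP.Ga1
import Pool.Agent.H80.GP.Ga2
import Pool.Agent.H80.GP.Kp2
import Pool.Agent.H80.GP.Cnx

/-!
# Row Jac (MP_87ed0a_GP): the global Jacobian  (about 180 lines)

`a_l := atz z (∂_(x_l) F)`, `b_l := atz z (∂_(x_l) G)`, `l : Fin 4`, elements of `RR`.  Relations: `∑ P_l a_l = 0`, `∑ z_l a_l = c atz z F = 0` (`atz_EE`, `atz_euler`), same for `b`.
* `jac_exists`: there is `J` with `IsJac 0 F G z J`.  In chart `i` put `q_j = P_i z_(s j) - z_i P_(s j)`.  From the relations `∑_j q_j a_(s j) = P_i (∑_j z_(s j) a_(s j)) - z_i (∑_j P_(s j) a_(s j)) =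
  P_i (- z_i a_i) - z_i (- P_i a_i) = 0`, same for `b`.  So `q` is orthogonal to `a' = (a_(s j))` and `b'`, hence `q × (a' × b') = 0` (`a (q·b) - b (q·a)`, triple product), i.e.
  `q_j (a' × b')_l = q_l (a' × b')_j`.  `q_0, q_1` are non associated primes of `RR` (linear forms `P_i z_(s j) - z_i P_(s j)`, `z_i ≠ 0`; a nonzero linear form is prime: it generates the kernel of a surjection onto a
  polynomial ring, or use irreducibility by degree + UFD), so `q_0 ∣ (a' × b')_0`; put `J` = quotient; then `(a' × b')_j = J q_j` for all `j` (cancel `q_0 ≠ 0`).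
* `jac_one`: `IsJac 0 F G z J` implies `IsJac 1 F G z (-J)` (`i = 1`, `s = (0, 2, 3)`): by `jac_exists` (for `i = 1`) there is `J1`; compare the component `a_2 b_3 - a_3 b_2`: it is the first component
  (`j = 0`) in both charts: `J (P_0 z_1 - z_0 P_1) = J1 (P_1 z_0 - z_1 P_0)`, so `J1 = - J`.
* `jac_homog`: `J` is homogeneous of degree `f + f' - 1` (`a_l`, `b_l` homogeneous of degrees `f`, `f'` by `pderiv_wP`, `atz_wP`; `J q_0` homogeneous of degree `f + f'`, `q_0` of degree 1, nonzero;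
  use `homog_of_mul_left` of Kp2; if `J = 0` trivial).
* `j3_of_jac`: over an `RR`-algebra `O` in which `P_i` is a unit.  `grad (chartH O i F) v_j = eval v (chartH O i (∂_(x_(s j)) F))` (`chart_pderiv`) and by `chart_eval` (for `∂_(x_(s j)) F`, `E`-invariant by `EE_pderiv`,
  `x`-homogeneous of degree `c - 1`) `algebraMap a_(s j) = z_i^(c-1) grad_j`.  So `z_i^(c+d-2) (grad F × grad G) = algebraMap (J q) = algebraMap (J P_i z_i) v` (`vz_scale`), i.e.
  `grad F × grad G = (J P_i z_i^3 / z_i^(c+d)) v`.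
-/

namespace GP80

open MvPolynomial

/-- the linear form `P_i z_j - z_i P_j`. -/
noncomputable def Jac_q (z : Fin 4 → ℂ) (i j : Fin 4) : RR := X i * C (z j) - C (z i) * X j

theorem Jac_q_hom (z : Fin 4 → ℂ) (i j : Fin 4) : (Jac_q z i j).IsHomogeneous 1 := by
  unfold Jac_q
  have h1 : (X i * C (z j) : RR).IsHomogeneous (1 + 0) :=
    (isHomogeneous_X ℂ i).mul (isHomogeneous_C _ _)
  have h2 : (C (z i) * X j : RR).IsHomogeneous (0 + 1) :=
    (isHomogeneous_C _ _).mul (isHomogeneous_X ℂ j)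
  exact h1.sub h2

theorem Jac_q_eval (z p : Fin 4 → ℂ) (i j : Fin 4) :
    eval p (Jac_q z i j) = p i * z j - z i * p j := by
  unfold Jac_q
  simp

theorem Jac_q_ne {z : Fin 4 → ℂ} {i j : Fin 4} (hz : z i ≠ 0) (hij : j ≠ i) : Jac_q z i j ≠ 0 := by
  intro h
  have h1 := congrArg (eval (Pi.single j 1 : Fin 4 → ℂ)) h
  rw [Jac_q_eval, map_zero, Pi.single_eq_same, Pi.single_eq_of_ne hij.symm] at h1
  apply hz
  linear_combination -h1

theorem Jac_q_prime {z : Fin 4 → ℂ} {i j : Fin 4} (hz : z i ≠ 0) (hij : j ≠ i) :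
    Prime (Jac_q z i j) := by
  have hne := Jac_q_ne hz hij
  have h1 : Irreducible (Jac_q z i j) := by
    refine irreducible_of_totalDegree_eq_one ((Jac_q_hom z i j).totalDegree hne) ?_
    intro x hx
    rw [isUnit_iff_ne_zero]
    intro h0
    apply hne
    ext m
    rw [coeff_zero]
    have := hx m
    rw [h0] at this
    exact zero_dvd_iff.1 this
  exact h1.prime

theorem Jac_q_ndvd {z : Fin 4 → ℂ} {i j k : Fin 4} (hz : z i ≠ 0) (hij : j ≠ i) (hik : k ≠ i)
    (hjk : j ≠ k) : ¬ Jac_q z i j ∣ Jac_q z i k := by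
  rintro ⟨w, hw⟩
  have h1 := congrArg (eval (z + Pi.single k 1 : Fin 4 → ℂ)) hw
  rw [map_mul, Jac_q_eval, Jac_q_eval] at h1
  simp only [Pi.add_apply, Pi.single_eq_same, Pi.single_eq_of_ne hik.symm,
    Pi.single_eq_of_ne hjk] at h1
  apply hz
  linear_combination -h1

theorem Jac_cross {O : Type} [CommRing O] {a b q : Fin 3 → O}
    (ha' : q 0 * a 0 + q 1 * a 1 + q 2 * a 2 = 0) (hb' : q 0 * b 0 + q 1 * b 1 + q 2 * b 2 = 0) :
    ∀ i j : Fin 3, crossProduct a b i * q j = crossProduct a b j * q i := by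
  have x0 : crossProduct a b 0 = a 1 * b 2 - a 2 * b 1 := by rw [cross_apply]; rfl
  have x1 : crossProduct a b 1 = a 2 * b 0 - a 0 * b 2 := by rw [cross_apply]; rfl
  have x2 : crossProduct a b 2 = a 0 * b 1 - a 1 * b 0 := by rw [cross_apply]; rfl
  have h01 : crossProduct a b 0 * q 1 = crossProduct a b 1 * q 0 := by
    rw [x0, x1]
    linear_combination (b 2) * ha' - (a 2) * hb'
  have h12 : crossProduct a b 1 * q 2 = crossProduct a b 2 * q 1 := by
    rw [x1, x2]
    linear_combination (b 0) * ha' - (a 0) * hb'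
  have h20 : crossProduct a b 2 * q 0 = crossProduct a b 0 * q 2 := by
    rw [x0, x2]
    linear_combination (b 1) * ha' - (a 1) * hb'
  intro i j
  fin_cases i <;> fin_cases j
  · rfl
  · exact h01
  · exact h20.symm
  · exact h01.symm
  · rfl
  · exact h12
  · exact h20
  · exact h12.symm
  · rfl

theorem Jac_orth (i : Fin 4) {F : BB} {c : ℕ} (hF : IsWeightedHomogeneous wx F c) (eF : EE F = 0)
    {z : Fin 4 → ℂ} (vF : atz z F = 0) :
    ∑ j : Fin 3, Jac_q z i (i.succAbove j) * atz z (pderiv (Sum.inr (i.succAbove j)) F) = 0 := by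
  have h1 := atz_euler hF z
  have h2 := atz_EE eF z
  rw [vF, mul_zero, Fin.sum_univ_succAbove _ i] at h1
  rw [Fin.sum_univ_succAbove _ i] at h2
  have h3 : ∑ j : Fin 3, Jac_q z i (i.succAbove j) * atz z (pderiv (Sum.inr (i.succAbove j)) F) =
      X i * ∑ j : Fin 3, C (z (i.succAbove j)) * atz z (pderiv (Sum.inr (i.succAbove j)) F) -
      C (z i) * ∑ j : Fin 3, X (i.succAbove j) * atz z (pderiv (Sum.inr (i.succAbove j)) F) := by
    rw [Finset.mul_sum, Finset.mul_sum, ← Finset.sum_sub_distrib]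
    refine Finset.sum_congr rfl fun j _ => ?_
    unfold Jac_q
    ring
  rw [h3]
  linear_combination (X i : RR) * h1 - (C (z i) : RR) * h2

theorem jac_exists (i : Fin 4) {F G : BB} {c d : ℕ} (hF : IsWeightedHomogeneous wx F c)
    (hG : IsWeightedHomogeneous wx G d) (eF : EE F = 0) (eG : EE G = 0) {z : Fin 4 → ℂ}
    (hz : ∀ l, z l ≠ 0) (vF : atz z F = 0) (vG : atz z G = 0) : ∃ J, IsJac i F G z J := by
  obtain ⟨q, hq⟩ : ∃ q : Fin 3 → RR, q = fun j => Jac_q z i (i.succAbove j) := ⟨_, rfl⟩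
  obtain ⟨a, ha⟩ : ∃ a : Fin 3 → RR, a = fun j => atz z (pderiv (Sum.inr (i.succAbove j)) F) :=
    ⟨_, rfl⟩
  obtain ⟨b, hb⟩ : ∃ b : Fin 3 → RR, b = fun j => atz z (pderiv (Sum.inr (i.succAbove j)) G) :=
    ⟨_, rfl⟩
  have h1 := Jac_orth i hF eF vF
  have h2 := Jac_orth i hG eG vG
  rw [Fin.sum_univ_three] at h1 h2
  have ha' : q 0 * a 0 + q 1 * a 1 + q 2 * a 2 = 0 := by rw [hq, ha]; exact h1
  have hb' : q 0 * b 0 + q 1 * b 1 + q 2 * b 2 = 0 := by rw [hq, hb]; exact h2
  have key := Jac_cross ha' hb'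
  have hne : ∀ j : Fin 3, i.succAbove j ≠ i := fun j => Fin.succAbove_ne i j
  have hpr : Prime (q 0) := by rw [hq]; exact Jac_q_prime (hz i) (hne 0)
  have hnd : ¬ q 0 ∣ q 1 := by
    rw [hq]
    refine Jac_q_ndvd (hz i) (hne 0) (hne 1) ?_
    intro h
    exact absurd (Fin.succAbove_right_injective h) (by decide)
  have hdv : q 0 ∣ crossProduct a b 0 := by
    have h3 : q 0 ∣ crossProduct a b 0 * q 1 := ⟨crossProduct a b 1, by rw [key 0 1, mul_comm]⟩
    exact (hpr.dvd_or_dvd h3).resolve_right hnd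
  obtain ⟨J, hJ⟩ := hdv
  refine ⟨J, ?_⟩
  unfold IsJac
  rw [← ha, ← hb]
  funext j
  have h4 : crossProduct a b j = J * q j := by
    refine mul_left_cancel₀ hpr.ne_zero ?_
    have := key j 0
    rw [hJ] at this
    linear_combination this
  rw [h4, hq]
  rfl

theorem Jac_apply {i : Fin 4} {F G : BB} {z : Fin 4 → ℂ} {J : RR} (hJ : IsJac i F G z J) :
    atz z (pderiv (Sum.inr (i.succAbove 1)) F) * atz z (pderiv (Sum.inr (i.succAbove 2)) G) -
      atz z (pderiv (Sum.inr (i.succAbove 2)) F) * atz z (pderiv (Sum.inr (i.succAbove 1)) G) =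
      J * Jac_q z i (i.succAbove 0) := by
  have h := congrFun hJ 0
  rw [cross_apply] at h
  exact h

theorem jac_one {F G : BB} {c d : ℕ} (hF : IsWeightedHomogeneous wx F c)
    (hG : IsWeightedHomogeneous wx G d) (eF : EE F = 0) (eG : EE G = 0) {z : Fin 4 → ℂ}
    (hz : ∀ l, z l ≠ 0) (vF : atz z F = 0) (vG : atz z G = 0) {J : RR} (hJ : IsJac 0 F G z J) :
    IsJac 1 F G z (-J) := by
  obtain ⟨J1, h1⟩ := jac_exists 1 hF hG eF eG hz vF vG
  have e0 := Jac_apply hJ
  have e1 := Jac_apply h1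
  have s01 : (0 : Fin 4).succAbove 1 = 2 := by decide
  have s02 : (0 : Fin 4).succAbove 2 = 3 := by decide
  have s00 : (0 : Fin 4).succAbove 0 = 1 := by decide
  have s11 : (1 : Fin 4).succAbove 1 = 2 := by decide
  have s12 : (1 : Fin 4).succAbove 2 = 3 := by decide
  have s10 : (1 : Fin 4).succAbove 0 = 0 := by decide
  rw [s01, s02, s00] at e0
  rw [s11, s12, s10] at e1
  have hq : Jac_q z 1 0 = - Jac_q z 0 1 := by
    unfold Jac_q
    ring
  rw [e0, hq] at e1
  have hne : Jac_q z 0 1 ≠ 0 := Jac_q_ne (hz 0) (by decide)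
  have h3 : -J = J1 := by
    refine mul_right_cancel₀ hne ?_
    linear_combination -e1
  rw [h3]
  exact h1

theorem jac_homog {F G : BB} {f f' : ℕ} (hF : IsWeightedHomogeneous wP F f)
    (hG : IsWeightedHomogeneous wP G f') {z : Fin 4 → ℂ} (hz : ∀ l, z l ≠ 0) {J : RR}
    (hJ : IsJac 0 F G z J) : J.IsHomogeneous (f + f' - 1) := by
  have e0 := Jac_apply hJ
  have hne : Jac_q z 0 ((0 : Fin 4).succAbove 0) ≠ 0 := Jac_q_ne (hz 0) (by decide)
  by_cases h0 : J = 0
  · rw [h0]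
    exact isHomogeneous_zero _ _ _
  have h1 : (Jac_q z 0 ((0 : Fin 4).succAbove 0) * J).IsHomogeneous (f + f') := by
    rw [mul_comm, ← e0]
    refine IsHomogeneous.sub ?_ ?_
    · exact (atz_wP (pderiv_wP hF _) z).mul (atz_wP (pderiv_wP hG _) z)
    · exact (atz_wP (pderiv_wP hF _) z).mul (atz_wP (pderiv_wP hG _) z)
  exact (homog_of_mul_left h1 (Jac_q_hom z 0 _) (mul_ne_zero hne h0)).2

theorem Jac_pc (O : Type) [CommRing O] [Algebra RR O] (i : Fin 4)
    (hu : IsUnit (algebraMap RR O (X i))) {F : BB} {c : ℕ} (hF : IsWeightedHomogeneous wx F c)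
    (eF : EE F = 0) {z : Fin 4 → ℂ} (hz : z i ≠ 0) (j : Fin 3) :
    algebraMap RR O (atz z (pderiv (Sum.inr (i.succAbove j)) F)) =
      algebraMap RR O (C (z i ^ (c - 1))) * grad (chartH O i F) (vz O i z) j := by
  rw [chart_eval O i hu (pderiv_wx hF (i.succAbove j)) (by rw [EE_pderiv, eF, map_zero]) hz]
  unfold grad
  rw [chart_pderiv]

theorem Jac_cross_smul {O : Type} [CommRing O] (s t : O) (a b : Fin 3 → O) (j : Fin 3) :
    crossProduct (fun l => s * a l) (fun l => t * b l) j = s * t * crossProduct a b j := by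
  rw [cross_apply, cross_apply]
  fin_cases j
  · show s * a 1 * (t * b 2) - s * a 2 * (t * b 1) = s * t * (a 1 * b 2 - a 2 * b 1)
    ring
  · show s * a 2 * (t * b 0) - s * a 0 * (t * b 2) = s * t * (a 2 * b 0 - a 0 * b 2)
    ring
  · show s * a 0 * (t * b 1) - s * a 1 * (t * b 0) = s * t * (a 0 * b 1 - a 1 * b 0)
    ring

theorem Jac_cross_map {R O : Type} [CommRing R] [CommRing O] (φ : R →+* O) (a b : Fin 3 → R)
    (j : Fin 3) :
    φ (crossProduct a b j) = crossProduct (fun l => φ (a l)) (fun l => φ (b l)) j := by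
  rw [cross_apply, cross_apply]
  fin_cases j
  · show φ (a 1 * b 2 - a 2 * b 1) = φ (a 1) * φ (b 2) - φ (a 2) * φ (b 1)
    rw [map_sub, map_mul, map_mul]
  · show φ (a 2 * b 0 - a 0 * b 2) = φ (a 2) * φ (b 0) - φ (a 0) * φ (b 2)
    rw [map_sub, map_mul, map_mul]
  · show φ (a 0 * b 1 - a 1 * b 0) = φ (a 0) * φ (b 1) - φ (a 1) * φ (b 0)
    rw [map_sub, map_mul, map_mul]

theorem j3_of_jac (O : Type) [CommRing O] [Algebra RR O] (i : Fin 4)
    (hu : IsUnit (algebraMap RR O (X i))) {F G : BB} {c d : ℕ} (hc : 1 ≤ c) (hd : 1 ≤ d)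
    (hF : IsWeightedHomogeneous wx F c)
    (hG : IsWeightedHomogeneous wx G d) (eF : EE F = 0) (eG : EE G = 0) {z : Fin 4 → ℂ}
    (hz : ∀ l, z l ≠ 0) {J : RR} (hJ : IsJac i F G z J) :
    IsJ3 (chartH O i F) (chartH O i G) (vz O i z)
      (algebraMap RR O (J * X i * C (z i ^ 3 / z i ^ (c + d)))) := by
  unfold IsJ3
  funext j
  have h := congrArg (algebraMap RR O) (congrFun hJ j)
  rw [Jac_cross_map] at h
  simp only [Jac_pc O i hu hF eF (hz i), Jac_pc O i hu hG eG (hz i)] at h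
  rw [Jac_cross_smul, map_mul, vz_scale O i hu (hz i)] at h
  rw [Pi.smul_apply, smul_eq_mul]
  have hzc : IsUnit (algebraMap RR O (C (z i ^ (c - 1))) * algebraMap RR O (C (z i ^ (d - 1)))) := by
    rw [← map_mul, ← C_mul]
    refine IsUnit.map _ (IsUnit.map _ ?_)
    rw [isUnit_iff_ne_zero]
    exact mul_ne_zero (pow_ne_zero _ (hz i)) (pow_ne_zero _ (hz i))
  refine hzc.mul_left_cancel ?_
  have hfin : (C (z i ^ (c - 1)) * C (z i ^ (d - 1)) * (J * X i * C (z i ^ 3 / z i ^ (c + d))) : RR) =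
      J * (X i * C (z i)) := by
    have e1 : z i ^ (c - 1) * z i ^ (d - 1) * (z i ^ 3 / z i ^ (c + d)) = z i := by
      obtain ⟨c', hc'⟩ : ∃ c', c = c' + 1 := ⟨c - 1, by omega⟩
      obtain ⟨d', hd'⟩ : ∃ d', d = d' + 1 := ⟨d - 1, by omega⟩
      have hzi := hz i
      have hp : z i ^ (c + d) ≠ 0 := pow_ne_zero _ hzi
      rw [hc', hd', Nat.add_sub_cancel, Nat.add_sub_cancel]
      have e2 : z i ^ c' * z i ^ d' * z i ^ 3 = z i * z i ^ (c' + 1 + (d' + 1)) := by ring
      rw [← mul_div_assoc, e2, mul_div_assoc, div_self (by rw [hc', hd'] at hp; exact hp), mul_one]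
    have e3 : (C (z i ^ (c - 1)) * C (z i ^ (d - 1)) * C (z i ^ 3 / z i ^ (c + d)) : RR) =
        C (z i) := by
      rw [← C_mul, ← C_mul, e1]
    linear_combination (J * X i) * e3
  have h5 := congrArg (algebraMap RR O) hfin
  rw [map_mul, map_mul] at h5
  rw [map_mul (algebraMap RR O) J] at h5
  calc algebraMap RR O (C (z i ^ (c - 1))) * algebraMap RR O (C (z i ^ (d - 1))) *
        crossProduct (grad (chartH O i F) (vz O i z)) (grad (chartH O i G) (vz O i z)) j
      = algebraMap RR O J * (algebraMap RR O (X i * C (z i)) * vz O i z j) := h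
    _ = (algebraMap RR O J * algebraMap RR O (X i * C (z i))) * vz O i z j := by ring
    _ = _ := by rw [← h5]; ring

end GP80
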