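import Mathlib
import Pool.Agent.H80.GP.Defs

/-! Definitions for the saturation block (MP_87ed0a_GP). -/

namespace GP80

open MvPolynomial

/-- `(F, G)` is obtained from `(F1, G1)` by a transition of determinant `α` -/
def Trans {O : Type} [CommRing O] (c d : ℕ) (F G F1 G1 : MvPolynomial (Fin 3) O) (α : O) : Prop :=
  (c < d ∧ F = F1 ∧ ∃ H : MvPolynomial (Fin 3) O, H.IsHomogeneous (d - c) ∧ G = C α * G1 + H * F1) ∨
  (c = d ∧ ∃ m11 m12 m21 m22 : O, F = C m11 * F1 + C m12 * G1 ∧ G = C m21 * F1 + C m22 * G1 ∧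
    α = m11 * m22 - m12 * m21)

/-- every form of degree `d` vanishing at the points `v` is `U F + a G` -/
def DegGen {O I : Type} [CommRing O] (v : I → Fin 3 → O) (c d : ℕ) (F G : MvPolynomial (Fin 3) O) : Prop :=
  ∀ H : MvPolynomial (Fin 3) O, H.IsHomogeneous d → (∀ z, eval (v z) H = 0) →
    ∃ (U : MvPolynomial (Fin 3) O) (a : O), U.IsHomogeneous (d - c) ∧ H = U * F + C a * G

end GP80
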