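import Mathlib
import Pool.Agent.H80.GP.GDefs
import Pool.Agent.H80.GP.SDefs

/-! Definitions for the output at a prime of `ℂ[P]` (MP_87ed0a_GP). -/

namespace GP80

open MvPolynomial

/-- numerical output at a prime `π`: `om` = order of the local Jacobians, `jj` = order of the transition determinant -/
structure PrimeOut {I : Type} [Fintype I] (z : I → Fin 4 → ℂ) (c d : ℕ) (J : I → RR) (π : RR)
    (om : I → ℕ) (jj g n : ℕ) (lam : ℕ → ℕ) : Prop where
  mult : ∀ s, multiplicity π (J s) = om s + jj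
  ne : ∀ s, J s ≠ 0
  nv : ∀ s, dz (z s) π ≠ 0 → om s = g
  gn : g ≤ n
  tail : g < n → lam (g + 1) * (c + d - lam (g + 1)) ≤ Nat.card {s : I // dz (z s) π = 0}
  omn : ∀ s, om s ≤ n
  sum : ∑ i ∈ Finset.Icc 1 n, lam i * (c + d - lam i) ≤ ∑ s, om s
  pos : ∀ i, 1 ≤ i → i ≤ n → 1 ≤ lam i
  up : ∀ i, 1 ≤ i → lam i < c
  anti : ∀ i j, 1 ≤ i → i ≤ j → lam j ≤ lam i

/-- the inequality for the big determinant in the chart `i` -/
def DetOut {I : Type} [Fintype I] [DecidableEq I] (z : I → Fin 4 → ℂ) (c d : ℕ) (F G : BB)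
    (i : Fin 4) (π : RR) (jj n : ℕ) (lam : ℕ → ℕ) : Prop :=
  ∀ (e : (Mon (d - 2) ⊕ Mon (c - 2)) ⊕ I ≃ Mon (c + d - 2)) (b : I → BB),
    (∀ r, IsWeightedHomogeneous wx (b r) (c + d - 2) ∧ EE (b r) = 0) →
    Matrix.det (Matrix.of fun r s => atz (z s) (b r)) ≠ 0 →
    bigDet e (chartH RR i F) (chartH RR i G) (fun r => chartH RR i (b r)) ≠ 0 ∧
      multiplicity π (bigDet e (chartH RR i F) (chartH RR i G) (fun r => chartH RR i (b r))) ≤
        multiplicity π (Matrix.det (Matrix.of fun r s => atz (z s) (b r))) +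
          ∑ i ∈ Finset.Icc 1 n, (lam i).choose 2 + jj * c.choose 2

/-- every pair over `OO π` which generates in degree `d` (and has the same `F` if `c < d`) has Jacobians of order `om` -/
def JUniq {I : Type} (z : I → Fin 4 → ℂ) (c d : ℕ) (F : BB) (π : RR) (om : I → ℕ) : Prop :=
  ∀ [hp : (Ideal.span {π} : Ideal RR).IsPrime] (F2 G2 : MvPolynomial (Fin 3) (OO π)),
    F2.IsHomogeneous c → G2.IsHomogeneous d →
    (∀ s, eval (vz (OO π) 0 (z s)) F2 = 0) → (∀ s, eval (vz (OO π) 0 (z s)) G2 = 0) →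
    DegGen (fun s => vz (OO π) 0 (z s)) c d F2 G2 → (c < d → F2 = chartH (OO π) 0 F) →
    ∀ s J2, IsJ3 F2 G2 (vz (OO π) 0 (z s)) J2 →
      multiplicity (algebraMap RR (OO π) π) J2 = om s

/-- the outputs at all homogeneous primes -/
structure GlobOut {I : Type} [Fintype I] [DecidableEq I] (z : I → Fin 4 → ℂ) (c d : ℕ) (F G : BB)
    (J : I → RR) (om : RR → I → ℕ) (jj g n : RR → ℕ) (lam : RR → ℕ → ℕ) : Prop where
  po : ∀ π, Prime π → (∃ δ, π.IsHomogeneous δ) → PrimeOut z c d J π (om π) (jj π) (g π) (n π) (lam π)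
  dt0 : ∀ π, Prime π → (∃ δ, π.IsHomogeneous δ) → ¬ π ∣ X 0 →
    DetOut z c d F G 0 π (jj π) (n π) (lam π)
  dt1 : ∀ π, Prime π → (∃ δ, π.IsHomogeneous δ) → π ∣ X 0 →
    DetOut z c d F G 1 π (jj π) (n π) (lam π)
  uq : ∀ π, Prime π → (∃ δ, π.IsHomogeneous δ) → ¬ π ∣ X 0 → JUniq z c d F π (om π)

end GP80
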