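import Mathlib
import Pool.Agent.H80.GP.GDefs

/-!
# Row Ga3 (MP_87ed0a_GP): localizations of `ℂ[P]`  (about 200 lines)

* `clear_den`: `O` a localization of `RR` at a submonoid `M` (all elements nonzero): every `A ∈ O[X_1,X_2,X_3]` is `A0 / u`, `u ∈ M`, `A0 ∈ RR[X]` (`IsLocalization.exist_integer_multiples_of_finset` on the
  coefficients); if `A` is homogeneous of degree `t`, then so is `A0` (`map (algebraMap RR O)` is injective since `M ≤ nonZeroDivisors`; or replace `A0` by its component of degree `t`).
* `exists_der`: the derivation `P_i ∂/∂P_(s j)` of `RR` extends to any localization `O` of `RR`.  Proof: for a derivation `δ` of `RR` the map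
  `RR → TrivSqZeroExt O O`, `a ↦ (a, δ a)` is a ring hom sending `M` to units (`(a, b)` is a unit iff `a` is), so it lifts to `O` (`IsLocalization.lift`); its first component is the identity
  (`IsLocalization.ringHom_ext`), the second component is the derivation (make it a `Derivation ℤ O O` with `Derivation.mk'` or as structure).
* `OO π` for a prime `π` (with the instance `(Ideal.span {π}).IsPrime` as argument): it is a DVR (Noetherian local domain, not a field, maximal ideal generated by the image of `π`:
  `IsDiscreteValuationRing` TFAE / `IsDiscreteValuationRing.of_ufd...`; maximal ideal of `Localization.AtPrime I` is `I.map`), `algebraMap π` is prime,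
  the residue map is surjective with kernel `(π)`, `r` becomes a unit iff `π ∤ r`, multiplicities of `π` agree (`r = π^m r'`, `π ∤ r'`), the residue field has characteristic zero (it contains `ℂ`).
* `AL_*`: in `AL z z'` (localization at the prime `pL z z'`) `r` is a unit iff `r ∉ pL z z'`; `AL` is a domain, the algebra map is injective.
-/

namespace GP80

open MvPolynomial

theorem clear_den {O : Type} [CommRing O] [Algebra RR O] (M : Submonoid RR) [IsLocalization M O]
    (hM : M ≤ nonZeroDivisors RR) (A : MvPolynomial (Fin 3) O) :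
    ∃ u ∈ M, ∃ A0 : MvPolynomial (Fin 3) RR, C (algebraMap RR O u) * A = map (algebraMap RR O) A0 ∧
      ∀ t, A.IsHomogeneous t → A0.IsHomogeneous t := by
  let _ : Algebra (MvPolynomial (Fin 3) RR) (MvPolynomial (Fin 3) O) :=
    MvPolynomial.algebraMvPolynomial
  have hloc : IsLocalization (Submonoid.map (C : RR →+* MvPolynomial (Fin 3) RR) M)
      (MvPolynomial (Fin 3) O) := MvPolynomial.isLocalization M O
  obtain ⟨⟨A0, ⟨_, ⟨u, hu, rfl⟩⟩⟩, h⟩ := IsLocalization.surj
    (Submonoid.map (C : RR →+* MvPolynomial (Fin 3) RR) M) A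
  have h1 : C (algebraMap RR O u) * A = map (algebraMap RR O) A0 := by
    have h2 : A * algebraMap (MvPolynomial (Fin 3) RR) (MvPolynomial (Fin 3) O) (C u) =
        algebraMap (MvPolynomial (Fin 3) RR) (MvPolynomial (Fin 3) O) A0 := h
    rw [MvPolynomial.algebraMap_def, map_C] at h2
    rw [mul_comm]
    exact h2
  refine ⟨u, hu, A0, h1, fun t hA d hd => ?_⟩
  have hinj : Function.Injective (algebraMap RR O) := IsLocalization.injective O hM
  have h3 : algebraMap RR O (coeff d A0) = algebraMap RR O u * coeff d A := by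
    rw [← coeff_map, ← h1, coeff_C_mul]
  have h4 : coeff d A ≠ 0 := by
    intro h5
    rw [h5, mul_zero] at h3
    exact hd ((_root_.map_eq_zero_iff _ hinj).1 h3)
  exact hA h4

theorem Ga3_ext (O : Type) [CommRing O] [Algebra RR O] (M : Submonoid RR) [IsLocalization M O]
    (δ : RR → RR) (h0 : δ 0 = 0) (h1 : δ 1 = 0) (hadd : ∀ a b, δ (a + b) = δ a + δ b)
    (hmul : ∀ a b, δ (a * b) = a * δ b + b * δ a) :
    ∃ D : Derivation ℤ O O, ∀ r, D (algebraMap RR O r) = algebraMap RR O (δ r) := by
  let φ : RR →+* TrivSqZeroExt O O :=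
    { toFun := fun r => (algebraMap RR O r, algebraMap RR O (δ r))
      map_one' := by
        refine Prod.ext (map_one _) ?_
        show algebraMap RR O (δ 1) = 0
        rw [h1, map_zero]
      map_zero' := by
        refine Prod.ext (map_zero _) ?_
        show algebraMap RR O (δ 0) = 0
        rw [h0, map_zero]
      map_mul' := by
        intro a b
        refine Prod.ext (map_mul _ _ _) ?_
        show algebraMap RR O (δ (a * b)) = algebraMap RR O a • algebraMap RR O (δ b) +
          MulOpposite.op (algebraMap RR O b) • algebraMap RR O (δ a)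
        rw [hmul, map_add, map_mul, map_mul, op_smul_eq_smul, smul_eq_mul, smul_eq_mul]
      map_add' := by
        intro a b
        refine Prod.ext (map_add _ _ _) ?_
        show algebraMap RR O (δ (a + b)) = algebraMap RR O (δ a) + algebraMap RR O (δ b)
        rw [hadd, map_add] }
  have hφ1 : ∀ r, (φ r).fst = algebraMap RR O r := fun r => rfl
  have hφ2 : ∀ r, (φ r).snd = algebraMap RR O (δ r) := fun r => rfl
  have hu : ∀ y : M, IsUnit (φ y) := by
    intro y
    rw [TrivSqZeroExt.isUnit_iff_isUnit_fst, hφ1]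
    exact IsLocalization.map_units O y
  obtain ⟨L, hL⟩ : ∃ L : O →+* TrivSqZeroExt O O, L = IsLocalization.lift hu := ⟨_, rfl⟩
  have hLa : ∀ r, L (algebraMap RR O r) = φ r := by
    intro r
    rw [hL]
    exact IsLocalization.lift_eq hu r
  have hfst : ∀ a : O, (L a).fst = a := by
    have h2 : ((TrivSqZeroExt.fstHom ℤ O O).toRingHom.comp L) = RingHom.id O := by
      refine IsLocalization.ringHom_ext M ?_
      refine RingHom.ext fun r => ?_
      show (L (algebraMap RR O r)).fst = algebraMap RR O r
      rw [hLa, hφ1]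
    intro a
    exact RingHom.congr_fun h2 a
  let D0 : O →+ O :=
    { toFun := fun a => (L a).snd
      map_zero' := by rw [map_zero]; rfl
      map_add' := by
        intro a b
        rw [map_add]
        rfl }
  refine ⟨Derivation.mk' D0.toIntLinearMap ?_, fun r => ?_⟩
  · intro a b
    show (L (a * b)).snd = a • (L b).snd + b • (L a).snd
    rw [map_mul, TrivSqZeroExt.snd_mul, hfst, hfst, op_smul_eq_smul]
  · show (L (algebraMap RR O r)).snd = algebraMap RR O (δ r)
    rw [hLa, hφ2]

theorem exists_der (O : Type) [CommRing O] [Algebra RR O] (M : Submonoid RR) [IsLocalization M O]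
    (i : Fin 4) : ∃ der : Fin 3 → Derivation ℤ O O, IsDer O i der := by
  have h : ∀ j : Fin 3, ∃ D : Derivation ℤ O O, ∀ r, D (algebraMap RR O r) =
      algebraMap RR O (X i * pderiv (i.succAbove j) r) := by
    intro j
    refine Ga3_ext O M (fun r => X i * pderiv (i.succAbove j) r) ?_ ?_ ?_ ?_
    · show X i * pderiv (i.succAbove j) (0 : RR) = 0
      rw [map_zero, mul_zero]
    · show X i * pderiv (i.succAbove j) (1 : RR) = 0
      rw [pderiv_one, mul_zero]
    · intro a b
      show X i * pderiv (i.succAbove j) (a + b) = _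
      rw [map_add, mul_add]
    · intro a b
      show X i * pderiv (i.succAbove j) (a * b) = a * (X i * pderiv (i.succAbove j) b) +
        b * (X i * pderiv (i.succAbove j) a)
      rw [pderiv_mul]
      ring
  choose D hD using h
  exact ⟨D, fun j r => hD j r⟩

theorem OO_domain (π : RR) [hp : (Ideal.span {π} : Ideal RR).IsPrime] : IsDomain (OO π) :=
  IsLocalization.isDomain_localization (Ideal.primeCompl_le_nonZeroDivisors _)

theorem OO_injective (π : RR) [hp : (Ideal.span {π} : Ideal RR).IsPrime] :
    Function.Injective (algebraMap RR (OO π)) :=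
  IsLocalization.injective (OO π) (Ideal.primeCompl_le_nonZeroDivisors (Ideal.span {π} : Ideal RR))

theorem Ga3_max (π : RR) [hp : (Ideal.span {π} : Ideal RR).IsPrime] :
    IsLocalRing.maximalIdeal (OO π) = Ideal.span {algebraMap RR (OO π) π} := by
  have h1 := Localization.AtPrime.map_eq_maximalIdeal (I := (Ideal.span {π} : Ideal RR))
  rw [Ideal.map_span, Set.image_singleton] at h1
  exact h1.symm

theorem Ga3_ne {π : RR} [hp : (Ideal.span {π} : Ideal RR).IsPrime] (hπ : Prime π) :
    algebraMap RR (OO π) π ≠ 0 := by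
  intro h
  exact hπ.ne_zero ((_root_.map_eq_zero_iff _ (OO_injective π)).1 h)

theorem OO_dvr {π : RR} [hp : (Ideal.span {π} : Ideal RR).IsPrime] (hπ : Prime π) :
    ∃ _ : IsDomain (OO π), IsDiscreteValuationRing (OO π) := by
  have hdom : IsDomain (OO π) := OO_domain π
  refine ⟨hdom, ?_⟩
  have hnoeth : IsNoetherianRing (OO π) :=
    IsLocalization.isNoetherianRing (Ideal.primeCompl (Ideal.span {π} : Ideal RR)) (OO π)
      inferInstance
  have hnf : ¬ IsField (OO π) := by
    rw [IsLocalRing.isField_iff_maximalIdeal_eq, Ga3_max, Ideal.span_singleton_eq_bot]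
    exact Ga3_ne hπ
  have h1 := (IsDiscreteValuationRing.TFAE (OO π) hnf).out 4 0
  refine h1.1 ?_
  rw [Ga3_max]
  exact ⟨⟨_, rfl⟩⟩

theorem OO_prime {π : RR} [hp : (Ideal.span {π} : Ideal RR).IsPrime] (hπ : Prime π) :
    Prime (algebraMap RR (OO π) π) := by
  rw [← Ideal.span_singleton_prime (Ga3_ne hπ), ← Ga3_max]
  exact (IsLocalRing.maximalIdeal.isMaximal (OO π)).isPrime

theorem OO_unit {π : RR} [hp : (Ideal.span {π} : Ideal RR).IsPrime] (r : RR) :
    IsUnit (algebraMap RR (OO π) r) ↔ ¬ π ∣ r := by
  rw [IsLocalization.AtPrime.isUnit_to_map_iff (OO π) (Ideal.span {π} : Ideal RR) r,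
    Ideal.mem_primeCompl_iff, Ideal.mem_span_singleton]

theorem OO_dvd {π : RR} [hp : (Ideal.span {π} : Ideal RR).IsPrime] (r : RR) :
    algebraMap RR (OO π) π ∣ algebraMap RR (OO π) r ↔ π ∣ r := by
  refine ⟨fun h => ?_, fun h => map_dvd _ h⟩
  by_contra hcon
  have h1 : IsUnit (algebraMap RR (OO π) r) := (OO_unit r).2 hcon
  have h2 : IsUnit (algebraMap RR (OO π) π) := isUnit_of_dvd_unit h h1
  exact (OO_unit π).1 h2 dvd_rfl

theorem OO_ker {π : RR} [hp : (Ideal.span {π} : Ideal RR).IsPrime] (a : OO π) :
    IsLocalRing.residue (OO π) a = 0 ↔ algebraMap RR (OO π) π ∣ a := by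
  rw [IsLocalRing.residue_eq_zero_iff, Ga3_max, Ideal.mem_span_singleton]

theorem OO_charZero (π : RR) [hp : (Ideal.span {π} : Ideal RR).IsPrime] :
    CharZero (IsLocalRing.ResidueField (OO π)) :=
  charZero_of_injective_ringHom (RingHom.injective
    ((IsLocalRing.residue (OO π)).comp ((algebraMap RR (OO π)).comp (C : ℂ →+* RR))))

theorem OO_mult {π : RR} [hp : (Ideal.span {π} : Ideal RR).IsPrime] (hπ : Prime π) {r : RR} (hr : r ≠ 0) :
    multiplicity (algebraMap RR (OO π) π) (algebraMap RR (OO π) r) = multiplicity π r := by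
  have hdom : IsDomain (OO π) := OO_domain π
  have hfin : FiniteMultiplicity π r := FiniteMultiplicity.of_not_isUnit hπ.not_isUnit hr
  obtain ⟨c, hc, hπc⟩ := hfin.exists_eq_pow_mul_and_not_dvd
  obtain ⟨m, hm⟩ : ∃ m, m = multiplicity π r := ⟨_, rfl⟩
  rw [← hm] at hc ⊢
  refine multiplicity_eq_of_dvd_of_not_dvd ?_ ?_
  · rw [hc, map_mul, map_pow]
    exact dvd_mul_right _ _
  · rw [hc, map_mul, map_pow, pow_succ]
    intro h
    have h1 : (algebraMap RR (OO π) π) ^ m ≠ 0 := pow_ne_zero _ (Ga3_ne hπ)
    exact hπc ((OO_dvd c).1 ((mul_dvd_mul_iff_left h1).1 h))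

theorem AL_unit (z z' : Fin 4 → ℂ) (r : RR) :
    IsUnit (algebraMap RR (AL z z') r) ↔ r ∉ pL z z' := by
  rw [IsLocalization.AtPrime.isUnit_to_map_iff (AL z z') (pL z z') r, Ideal.mem_primeCompl_iff]

theorem AL_domain (z z' : Fin 4 → ℂ) : IsDomain (AL z z') :=
  IsLocalization.isDomain_localization (Ideal.primeCompl_le_nonZeroDivisors _)

theorem AL_injective (z z' : Fin 4 → ℂ) : Function.Injective (algebraMap RR (AL z z')) :=
  IsLocalization.injective (AL z z') (Ideal.primeCompl_le_nonZeroDivisors (pL z z'))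

end GP80
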