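import Mathlib
import Pool.Agent.H80.GP.GDefs
import Pool.Agent.H80.GP.Ga1
import Pool.Agent.H80.GP.Ga2
import Pool.Agent.H80.GP.Ga3

/-!
# Row Geo (MP_87ed0a_GP): the geometric data at a prime  (about 220 lines)

`π` a homogeneous prime of `RR = ℂ[P]` of degree `δ` (so `δ ≥ 1`), `π ∤ P_i`, `O = OO π`, `k` its residue field, `ρ` the residue map, `s = i.succAbove`, `v_z = vz O i z`.
Construct `S : GeoS O k I D0` with `pi = algebraMap π`, `rho = residue`, `der` from `exists_der`, `v s = vz O i (z s)`.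
Basic fact (LIN): a linear form `h = ∑ h_l P_l`, `h_l ∈ ℂ` not all zero, maps to zero in `k` iff `π ∣ h`; two linearly independent linear forms cannot both be divisible by `π` (`π` has degree `≥ 1`, so `h` is a constant
times `π` and `δ = 1`).  Put `p_l = ρ(P_l) ∈ k`, `p_i ≠ 0`; `ρ (v_z)_j = z_(s j)/z_i - p_(s j)/p_i`.
* `prime`, `surj`, `ker`: Ga3.
* `hder`: `der i (v z j) = P_i ∂_(s i) applied to (z_(s j)/z_i - P_(s j)/P_i) = - δ_ij`: multiply by the unit `P_i`: from `P_i * v_j = P_i z_(s j)/z_i - P_(s j)` and `der_i P_i = 0`, `der_i P_(s j) = P_i δ_ij`.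
* `unim`: if no `v_j` is a unit, all `P_i z_(s j) - z_i P_(s j)` are divisible by `π`: three linearly independent linear forms; contradiction by LIN (two are enough).
* `span`: otherwise a nonzero functional `H` on `k^3` kills all `ρ v_z`: `∑ H_j z_(s j) - (∑ H_j p_(s j)/p_i) z_i = 0`: a nonzero linear functional on `k^4` which kills all `z s ∈ ℂ^4`; they span `ℂ^4`, so it
  kills the standard basis: contradiction.
* `dist`: a relation `a ρ v_z + b ρ v_z' = 0`, `(a, b) ≠ 0`: then `(p_l)` is in the `k`-span of `z, z'` if `a/z_i + b/z'_i ≠ 0`; if `a/z_i + b/z'_i = 0` then the relation gives `a z/z_i + b z'/z'_i`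
  has zero `i`-coordinate and zero other coordinates: `z, z'` dependent, contradiction.  So all linear forms vanishing at `z` and `z'` (a 2-dimensional space) map to zero in `k`: contradiction by LIN.
* `hL`: if `ρ (P_i ∂_(s j) π) = 0` for all `j` then `π ∣ ∂_(s j) π` (`π ∤ P_i`), of degree `δ - 1 < δ`, so `∂_(s j) π = 0` for all `j`: `π` is a polynomial in `P_i` only, homogeneous: `π = c P_i^δ`, so `π ∣ P_i`
  (prime), contradiction.
* `hPl`: `H ≠ 0` kills `ρ v_z` for `z ∈ A`, `card A ≥ D0 > m`.  The functional `h(x) = ∑ H_j x_(s j) - (∑ H_j p_(s j)/p_i) x_i` on `k^4` is nonzero, kills `p` and the `z s`, `s ∈ A`.  By `ColB z m` the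
  `z s`, `s ∈ A`, are not in the span of two of them (`A` has at least two elements: `D0 > m ≥ 1`... if `m = 0` or `card A ≤ 1` treat separately: `D0 ≥ 2` is assumed), so they span a subspace `U` of `ℂ^4` of dimension
  `≥ 3`; dimension 4 is impossible (`h` would be 0), so dimension 3: `U = ker ℓ`, `ℓ` a `ℂ`-linear form, and `h` is a `k`-multiple of `ℓ` (both kill `U ⊗ k`): `h = b ℓ`, `b ≠ 0`.  `h(p) = 0` gives `ρ(ℓ(P)) = 0`, `π ∣ ℓ(P)`,
  `π = const ℓ(P)`, and `ρ(der_j π) = p_i ρ(∂_(s j) π) = const p_i ℓ_(s j)`, `H_j = h(e_(s j)) = b ℓ_(s j)`.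
* `Lz_iff`: `ρ(v_z)·ρ(∂π) = 0` iff `dz z π = 0`: `∑_j (z_(s j)/z_i - P_(s j)/P_i) P_i ∂_(s j) π = (P_i/z_i)(dz z π - z_i ∂_i π) - (δ π - P_i ∂_i π) = (P_i/z_i) dz z π - δ π` (Euler), which is
  `(P_i/z_i) dz z π` modulo `π`; and `π ∣ dz z π` iff `dz z π = 0` by degrees.
-/

namespace GP80

open MvPolynomial

noncomputable section

def Geo_cc (π : RR) [hpi : (Ideal.span {π} : Ideal RR).IsPrime] :
    ℂ →+* IsLocalRing.ResidueField (OO π) :=
  (IsLocalRing.residue (OO π)).comp ((algebraMap RR (OO π)).comp (C : ℂ →+* RR))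

def Geo_p (π : RR) [hpi : (Ideal.span {π} : Ideal RR).IsPrime] (l : Fin 4) :
    IsLocalRing.ResidueField (OO π) :=
  IsLocalRing.residue (OO π) (algebraMap RR (OO π) (X l))

def Geo_lin (a : Fin 4 → ℂ) : RR := ∑ l, C (a l) * X l

theorem Geo_cc_def (π : RR) [hpi : (Ideal.span {π} : Ideal RR).IsPrime] (a : ℂ) :
    Geo_cc π a = IsLocalRing.residue (OO π) (algebraMap RR (OO π) (C a)) := rfl

theorem Geo_res_lin (π : RR) [hpi : (Ideal.span {π} : Ideal RR).IsPrime] (a : Fin 4 → ℂ) :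
    ∑ l, Geo_cc π (a l) * Geo_p π l =
      IsLocalRing.residue (OO π) (algebraMap RR (OO π) (Geo_lin a)) := by
  rw [Geo_lin, map_sum, map_sum]
  refine Finset.sum_congr rfl fun l _ => ?_
  rw [map_mul, map_mul]
  rfl

theorem Geo_res_zero (π : RR) [hpi : (Ideal.span {π} : Ideal RR).IsPrime] (r : RR) :
    IsLocalRing.residue (OO π) (algebraMap RR (OO π) r) = 0 ↔ π ∣ r := by
  rw [OO_ker, OO_dvd]

theorem Geo_pos {π : RR} (hπ : Prime π) {δ : ℕ} (hδ : π.IsHomogeneous δ) : 1 ≤ δ := by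
  by_contra h
  have h0 : δ = 0 := by omega
  subst h0
  have h1 : π.totalDegree = 0 := hδ.totalDegree hπ.ne_zero
  rw [totalDegree_eq_zero_iff_eq_C] at h1
  apply hπ.not_isUnit
  rw [h1]
  refine IsUnit.map (C : ℂ →+* RR) ?_
  refine isUnit_iff_ne_zero.2 fun h2 => ?_
  rw [h2, map_zero] at h1
  exact hπ.ne_zero h1

theorem Geo_deg {π : RR} (hπ : Prime π) {δ : ℕ} (hδ : π.IsHomogeneous δ) {q : RR}
    (hq : q.IsHomogeneous (δ - 1)) (h : π ∣ q) : q = 0 := by
  by_contra hne
  obtain ⟨r, hr⟩ := h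
  have hr0 : r ≠ 0 := by
    intro h
    rw [h, mul_zero] at hr
    exact hne hr
  have h1 : q.totalDegree = δ - 1 := hq.totalDegree hne
  have h2 : π.totalDegree = δ := hδ.totalDegree hπ.ne_zero
  have h3 := totalDegree_mul_of_isDomain hπ.ne_zero hr0
  rw [← hr, h1, h2] at h3
  have := Geo_pos hπ hδ
  omega

theorem Geo_pderiv_lin (a : Fin 4 → ℂ) (j : Fin 4) : pderiv j (Geo_lin a) = C (a j) := by
  rw [Geo_lin, map_sum, Finset.sum_eq_single j]
  · rw [pderiv_C_mul, pderiv_X_self, mul_one]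
  · intro b _ hb
    rw [pderiv_C_mul, pderiv_X_of_ne hb, mul_zero]
  · intro h
    exact absurd (Finset.mem_univ j) h

theorem Geo_lin_ne {a : Fin 4 → ℂ} (ha : a ≠ 0) : Geo_lin a ≠ 0 := by
  intro h
  apply ha
  funext j
  have h1 := Geo_pderiv_lin a j
  rw [h, map_zero] at h1
  exact (C_injective _ _ (h1.symm.trans C_0.symm))

theorem Geo_lin_hom (a : Fin 4 → ℂ) : (Geo_lin a).IsHomogeneous 1 := by
  rw [Geo_lin]
  refine IsHomogeneous.sum _ _ _ fun l _ => ?_
  have h := (isHomogeneous_C (Fin 4) (a l)).mul (isHomogeneous_X ℂ l)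
  rwa [zero_add] at h

theorem Geo_LIN1 {π : RR} (hπ : Prime π) {δ : ℕ} (hδ : π.IsHomogeneous δ) {a : Fin 4 → ℂ}
    (ha : a ≠ 0) (h : π ∣ Geo_lin a) : ∃ c : ℂ, c ≠ 0 ∧ Geo_lin a = C c * π := by
  obtain ⟨r, hr⟩ := h
  have hne := Geo_lin_ne ha
  have hr0 : r ≠ 0 := by
    intro h
    rw [h, mul_zero] at hr
    exact hne hr
  have h1 : (Geo_lin a).totalDegree = 1 := (Geo_lin_hom a).totalDegree hne
  have h2 : π.totalDegree = δ := hδ.totalDegree hπ.ne_zero
  have h3 := totalDegree_mul_of_isDomain hπ.ne_zero hr0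
  rw [← hr, h1, h2] at h3
  have h4 := Geo_pos hπ hδ
  have h5 : r.totalDegree = 0 := by omega
  rw [totalDegree_eq_zero_iff_eq_C] at h5
  refine ⟨coeff 0 r, ?_, ?_⟩
  · intro h6
    rw [h6, map_zero] at h5
    exact hr0 h5
  · rw [← h5, mul_comm]
    exact hr

/-- linear forms divisible by `π` -/
def Geo_T (π : RR) : Submodule ℂ (Fin 4 → ℂ) where
  carrier := {a | π ∣ Geo_lin a}
  add_mem' {a b} ha hb := by
    simp only [Set.mem_ofPred_eq] at *
    have : Geo_lin (a + b) = Geo_lin a + Geo_lin b := by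
      simp only [Geo_lin, Pi.add_apply, map_add, add_mul, Finset.sum_add_distrib]
    rw [this]
    exact dvd_add ha hb
  zero_mem' := by
    simp only [Set.mem_ofPred_eq, Geo_lin, Pi.zero_apply, map_zero, zero_mul, Finset.sum_const_zero,
      dvd_zero]
  smul_mem' c a ha := by
    simp only [Set.mem_ofPred_eq] at *
    have : Geo_lin (c • a) = C c * Geo_lin a := by
      simp only [Geo_lin, Pi.smul_apply, smul_eq_mul, map_mul, Finset.mul_sum, mul_assoc]
    rw [this]
    exact Dvd.dvd.mul_left ha _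

theorem Geo_mem_T (π : RR) (a : Fin 4 → ℂ) : a ∈ Geo_T π ↔ π ∣ Geo_lin a := Iff.rfl

theorem Geo_T_rank {π : RR} (hπ : Prime π) {δ : ℕ} (hδ : π.IsHomogeneous δ) :
    Module.finrank ℂ (Geo_T π) ≤ 1 := by
  by_cases h : ∃ a : Fin 4 → ℂ, a ≠ 0 ∧ π ∣ Geo_lin a
  · obtain ⟨a, ha, had⟩ := h
    refine finrank_le_one (⟨a, had⟩ : Geo_T π) ?_
    rintro ⟨b, hb⟩
    obtain ⟨c, hc, hc2⟩ := Geo_LIN1 hπ hδ ha had
    by_cases hb0 : b = 0
    · refine ⟨0, Subtype.ext ?_⟩
      rw [zero_smul]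
      exact hb0.symm
    · obtain ⟨c', hc', hc2'⟩ := Geo_LIN1 hπ hδ hb0 hb
      refine ⟨c' / c, Subtype.ext ?_⟩
      show (c' / c) • a = b
      funext j
      rw [Pi.smul_apply, smul_eq_mul]
      have h1 := Geo_pderiv_lin a j
      have h2 := Geo_pderiv_lin b j
      rw [hc2, pderiv_C_mul] at h1
      rw [hc2', pderiv_C_mul] at h2
      have h3 : (C (c' * a j) : RR) = C (c * b j) := by
        rw [map_mul, map_mul, ← h1, ← h2]
        ring
      have h4 := C_injective _ _ h3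
      field_simp
      linear_combination h4
  · push Not at h
    have : Geo_T π = ⊥ := by
      rw [Submodule.eq_bot_iff]
      intro a ha
      by_contra hne
      exact h a hne ha
    rw [this, finrank_bot]
    exact Nat.zero_le _

theorem Geo_p_ne {π : RR} [hpi : (Ideal.span {π} : Ideal RR).IsPrime] {i : Fin 4} (hi : ¬ π ∣ X i) :
    Geo_p π i ≠ 0 := by
  intro h
  exact hi ((Geo_res_zero π (X i)).1 h)

theorem Geo_cc_ne (π : RR) [hpi : (Ideal.span {π} : Ideal RR).IsPrime] {a : ℂ} (ha : a ≠ 0) :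
    Geo_cc π a ≠ 0 := by
  intro h
  exact ha ((map_eq_zero (Geo_cc π)).1 h)

theorem Geo_vz {π : RR} [hpi : (Ideal.span {π} : Ideal RR).IsPrime] {i : Fin 4} (hi : ¬ π ∣ X i)
    {w : Fin 4 → ℂ} (j : Fin 3) :
    IsLocalRing.residue (OO π) (vz (OO π) i w j) =
      Geo_cc π (w (i.succAbove j)) / Geo_cc π (w i) - Geo_p π (i.succAbove j) / Geo_p π i := by
  have hu : IsUnit (algebraMap RR (OO π) (X i)) := (OO_unit (X i)).2 hi
  have h1 := Ring.mul_inverse_cancel _ hu
  have h2 := congrArg (IsLocalRing.residue (OO π)) h1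
  rw [map_mul, map_one] at h2
  have h3 : IsLocalRing.residue (OO π) (Ring.inverse (algebraMap RR (OO π) (X i))) =
      (Geo_p π i)⁻¹ := by
    refine eq_inv_of_mul_eq_one_left ?_
    rw [mul_comm]
    exact h2
  show IsLocalRing.residue (OO π) (algebraMap RR (OO π) (C (w (i.succAbove j) / w i)) -
    algebraMap RR (OO π) (X (i.succAbove j)) * Ring.inverse (algebraMap RR (OO π) (X i))) = _
  rw [map_sub, map_mul, h3, ← Geo_cc_def, map_div₀, div_eq_mul_inv (Geo_p π (i.succAbove j))]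
  rfl

def Geo_h (π : RR) [hpi : (Ideal.span {π} : Ideal RR).IsPrime] (i : Fin 4)
    (H : Fin 3 → IsLocalRing.ResidueField (OO π)) : Fin 4 → IsLocalRing.ResidueField (OO π) :=
  Fin.insertNth (α := fun _ => IsLocalRing.ResidueField (OO π)) i
    (-(∑ j, H j * Geo_p π (i.succAbove j)) / Geo_p π i) H

theorem Geo_h_self (π : RR) [hpi : (Ideal.span {π} : Ideal RR).IsPrime] (i : Fin 4)
    (H : Fin 3 → IsLocalRing.ResidueField (OO π)) :
    Geo_h π i H i = -(∑ j, H j * Geo_p π (i.succAbove j)) / Geo_p π i := by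
  rw [Geo_h, Fin.insertNth_apply_same]

theorem Geo_h_succ (π : RR) [hpi : (Ideal.span {π} : Ideal RR).IsPrime] (i : Fin 4)
    (H : Fin 3 → IsLocalRing.ResidueField (OO π)) (j : Fin 3) :
    Geo_h π i H (i.succAbove j) = H j := by
  rw [Geo_h, Fin.insertNth_apply_succAbove]

theorem Geo_h_p {π : RR} [hpi : (Ideal.span {π} : Ideal RR).IsPrime] {i : Fin 4} (hi : ¬ π ∣ X i)
    (H : Fin 3 → IsLocalRing.ResidueField (OO π)) :
    ∑ l, Geo_h π i H l * Geo_p π l = 0 := by
  rw [Fin.sum_univ_succAbove _ i, Geo_h_self, div_mul_cancel₀ _ (Geo_p_ne hi)]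
  simp only [Geo_h_succ]
  ring

theorem Geo_h_z {π : RR} [hpi : (Ideal.span {π} : Ideal RR).IsPrime] {i : Fin 4} (hi : ¬ π ∣ X i)
    {w : Fin 4 → ℂ} (hw : w i ≠ 0) (H : Fin 3 → IsLocalRing.ResidueField (OO π)) :
    ∑ l, Geo_h π i H l * Geo_cc π (w l) =
      Geo_cc π (w i) * ∑ j, H j * IsLocalRing.residue (OO π) (vz (OO π) i w j) := by
  rw [Fin.sum_univ_succAbove _ i, Geo_h_self, Finset.mul_sum]
  simp only [Geo_h_succ]
  have h1 : ∀ j : Fin 3, Geo_cc π (w i) * (H j * IsLocalRing.residue (OO π) (vz (OO π) i w j)) =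
      H j * Geo_cc π (w (i.succAbove j)) - H j * Geo_p π (i.succAbove j) * (Geo_cc π (w i) / Geo_p π i) := by
    intro j
    rw [Geo_vz hi]
    have h2 := Geo_cc_ne π hw
    have h3 := Geo_p_ne hi
    field_simp
  rw [Finset.sum_congr rfl fun j _ => h1 j, Finset.sum_sub_distrib, ← Finset.sum_mul]
  ring

theorem Geo_h_ne {π : RR} [hpi : (Ideal.span {π} : Ideal RR).IsPrime] {i : Fin 4}
    {H : Fin 3 → IsLocalRing.ResidueField (OO π)} (hH : H ≠ 0) : Geo_h π i H ≠ 0 := by
  intro h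
  apply hH
  funext j
  have h1 := Geo_h_succ π i H j
  rw [h] at h1
  exact h1.symm

/-- the complex vectors killed by `h` -/
def Geo_K (π : RR) [hpi : (Ideal.span {π} : Ideal RR).IsPrime]
    (h : Fin 4 → IsLocalRing.ResidueField (OO π)) : Submodule ℂ (Fin 4 → ℂ) where
  carrier := {x | ∑ l, h l * Geo_cc π (x l) = 0}
  add_mem' {a b} ha hb := by
    simp only [Set.mem_ofPred_eq] at *
    simp only [Pi.add_apply, map_add, mul_add, Finset.sum_add_distrib]
    rw [ha, hb, add_zero]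
  zero_mem' := by
    simp only [Set.mem_ofPred_eq, Pi.zero_apply, map_zero, mul_zero, Finset.sum_const_zero]
  smul_mem' c a ha := by
    simp only [Set.mem_ofPred_eq] at *
    have h1 : ∀ l, h l * Geo_cc π ((c • a) l) = Geo_cc π c * (h l * Geo_cc π (a l)) := by
      intro l
      rw [Pi.smul_apply, smul_eq_mul, map_mul]
      ring
    rw [Finset.sum_congr rfl fun l _ => h1 l, ← Finset.mul_sum, ha, mul_zero]

theorem Geo_mem_K (π : RR) [hpi : (Ideal.span {π} : Ideal RR).IsPrime]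
    (h : Fin 4 → IsLocalRing.ResidueField (OO π)) (x : Fin 4 → ℂ) :
    x ∈ Geo_K π h ↔ ∑ l, h l * Geo_cc π (x l) = 0 := Iff.rfl

theorem Geo_sum_single (π : RR) [hpi : (Ideal.span {π} : Ideal RR).IsPrime]
    (h : Fin 4 → IsLocalRing.ResidueField (OO π)) (l : Fin 4) :
    ∑ m, h m * Geo_cc π ((Pi.single l 1 : Fin 4 → ℂ) m) = h l := by
  rw [Finset.sum_eq_single l]
  · rw [Pi.single_eq_same, map_one, mul_one]
  · intro b _ hb
    rw [Pi.single_eq_of_ne hb, map_zero, mul_zero]
  · intro h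
    exact absurd (Finset.mem_univ l) h

theorem Geo_K_top (π : RR) [hpi : (Ideal.span {π} : Ideal RR).IsPrime]
    {h : Fin 4 → IsLocalRing.ResidueField (OO π)} (hK : Geo_K π h = ⊤) : h = 0 := by
  funext l
  have h1 : (Pi.single l 1 : Fin 4 → ℂ) ∈ Geo_K π h := by
    rw [hK]
    exact Submodule.mem_top
  rw [Geo_mem_K, Geo_sum_single] at h1
  exact h1

theorem Geo_span {I : Type} [Fintype I] {z : I → Fin 4 → ℂ} (hz : Geom z) {π : RR}
    [hpi : (Ideal.span {π} : Ideal RR).IsPrime] {i : Fin 4} (hi : ¬ π ∣ X i) :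
    Submodule.span (IsLocalRing.ResidueField (OO π))
      (Set.range fun s => (fun j => IsLocalRing.residue (OO π) (vz (OO π) i (z s) j))) = ⊤ := by
  by_contra hne
  obtain ⟨f, hf0, hf⟩ := Submodule.exists_le_ker_of_lt_top _ (lt_top_iff_ne_top.2 hne)
  let H : Fin 3 → IsLocalRing.ResidueField (OO π) := fun j => f (Pi.single j 1)
  have hfH : ∀ x : Fin 3 → IsLocalRing.ResidueField (OO π), f x = ∑ j, H j * x j := by
    intro x
    have h1 : x = ∑ j, x j • (Pi.single j 1 : Fin 3 → IsLocalRing.ResidueField (OO π)) := by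
      funext l
      rw [Finset.sum_apply, Finset.sum_eq_single l]
      · rw [Pi.smul_apply, Pi.single_eq_same, smul_eq_mul, mul_one]
      · intro b _ hb
        rw [Pi.smul_apply, Pi.single_eq_of_ne hb.symm, smul_zero]
      · intro h
        exact absurd (Finset.mem_univ l) h
    conv_lhs => rw [h1]
    rw [map_sum]
    refine Finset.sum_congr rfl fun j _ => ?_
    rw [map_smul, smul_eq_mul, mul_comm]
  have hH : H ≠ 0 := by
    intro h
    apply hf0
    refine LinearMap.ext fun x => ?_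
    rw [hfH x, h]
    simp only [Pi.zero_apply, zero_mul, Finset.sum_const_zero, LinearMap.zero_apply]
  have hK : Geo_K π (Geo_h π i H) = ⊤ := by
    rw [eq_top_iff, ← hz.span, Submodule.span_le]
    rintro _ ⟨s, rfl⟩
    show ∑ l, Geo_h π i H l * Geo_cc π (z s l) = 0
    rw [Geo_h_z hi (hz.co s i) H, ← hfH]
    have h2 : (fun j => IsLocalRing.residue (OO π) (vz (OO π) i (z s) j)) ∈
        LinearMap.ker f := hf (Submodule.subset_span ⟨s, rfl⟩)
    rw [LinearMap.mem_ker] at h2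
    rw [h2, mul_zero]
  exact Geo_h_ne hH (Geo_K_top π hK)

/-- the functional `x ↦ ∑ h_l x_l` on `ℂ^4` -/
def Geo_dot (x : Fin 4 → ℂ) : (Fin 4 → ℂ) →ₗ[ℂ] ℂ where
  toFun h := ∑ l, h l * x l
  map_add' a b := by
    simp only [Pi.add_apply, add_mul, Finset.sum_add_distrib]
  map_smul' c a := by
    simp only [Pi.smul_apply, smul_eq_mul, RingHom.id_apply, Finset.mul_sum, mul_assoc]

theorem Geo_dot_apply (x h : Fin 4 → ℂ) : Geo_dot x h = ∑ l, h l * x l := rfl

theorem Geo_ker2 (x y : Fin 4 → ℂ) :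
    2 ≤ Module.finrank ℂ (LinearMap.ker ((Geo_dot x).prod (Geo_dot y))) := by
  have h1 := LinearMap.finrank_range_add_finrank_ker ((Geo_dot x).prod (Geo_dot y))
  have h2 : Module.finrank ℂ (LinearMap.range ((Geo_dot x).prod (Geo_dot y))) ≤ 2 := by
    refine (Submodule.finrank_le _).trans ?_
    rw [Module.finrank_prod, Module.finrank_self]
  rw [Module.finrank_fin_fun] at h1
  omega

theorem Geo_dist0 {π : RR} [hpi : (Ideal.span {π} : Ideal RR).IsPrime] (hπ : Prime π) {δ : ℕ}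
    (hδ : π.IsHomogeneous δ) {x y : Fin 4 → ℂ} {α β : IsLocalRing.ResidueField (OO π)}
    (h : ∀ l, Geo_p π l = α * Geo_cc π (x l) + β * Geo_cc π (y l)) : False := by
  have h1 := Geo_ker2 x y
  have h2 : LinearMap.ker ((Geo_dot x).prod (Geo_dot y)) ≤ Geo_T π := by
    intro a ha
    rw [LinearMap.mem_ker] at ha
    have ha1 : ∑ l, a l * x l = 0 := congrArg Prod.fst ha
    have ha2 : ∑ l, a l * y l = 0 := congrArg Prod.snd ha
    rw [Geo_mem_T, ← Geo_res_zero, ← Geo_res_lin]
    have h3 : ∀ l, Geo_cc π (a l) * Geo_p π l =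
        α * Geo_cc π (a l * x l) + β * Geo_cc π (a l * y l) := by
      intro l
      rw [h l, map_mul, map_mul]
      ring
    rw [Finset.sum_congr rfl fun l _ => h3 l, Finset.sum_add_distrib, ← Finset.mul_sum,
      ← Finset.mul_sum, ← map_sum, ← map_sum, ha1, ha2, map_zero, mul_zero, mul_zero, add_zero]
  have h3 := (Submodule.finrank_mono h2).trans (Geo_T_rank hπ hδ)
  omega

theorem Geo_indep {x y : Fin 4 → ℂ} (h : LinearIndependent ℂ ![x, y]) {π : RR}
    [hpi : (Ideal.span {π} : Ideal RR).IsPrime] {α β : IsLocalRing.ResidueField (OO π)}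
    (h0 : ∀ l, α * Geo_cc π (x l) + β * Geo_cc π (y l) = 0) : α = 0 ∧ β = 0 := by
  by_cases hD : ∃ l m, x l * y m - x m * y l ≠ 0
  · obtain ⟨l, m, hD⟩ := hD
    have hD' := Geo_cc_ne π hD
    rw [map_sub, map_mul, map_mul] at hD'
    constructor
    · have h1 : α * (Geo_cc π (x l) * Geo_cc π (y m) - Geo_cc π (x m) * Geo_cc π (y l)) = 0 := by
        linear_combination (Geo_cc π (y m)) * h0 l - (Geo_cc π (y l)) * h0 m
      exact (mul_eq_zero.1 h1).resolve_right hD'
    · have h1 : β * (Geo_cc π (x l) * Geo_cc π (y m) - Geo_cc π (x m) * Geo_cc π (y l)) = 0 := by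
        linear_combination (Geo_cc π (x l)) * h0 m - (Geo_cc π (x m)) * h0 l
      exact (mul_eq_zero.1 h1).resolve_right hD'
  · push Not at hD
    exfalso
    rw [LinearIndependent.pair_iff] at h
    by_cases hx : ∃ l, x l ≠ 0
    · obtain ⟨l, hl⟩ := hx
      have h1 := h (y l) (-(x l)) (by
        funext m
        simp only [Pi.add_apply, Pi.smul_apply, smul_eq_mul, Pi.zero_apply]
        linear_combination -(hD l m))
      exact hl (neg_eq_zero.1 h1.2)
    · push Not at hx
      have h1 := h 1 0 (by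
        funext m
        simp only [Pi.add_apply, Pi.smul_apply, smul_eq_mul, Pi.zero_apply, hx m]
        ring)
      exact one_ne_zero h1.1

theorem Geo_dist {I : Type} [Fintype I] {z : I → Fin 4 → ℂ} (hz : Geom z) {π : RR}
    [hpi : (Ideal.span {π} : Ideal RR).IsPrime] (hπ : Prime π) {δ : ℕ} (hδ : π.IsHomogeneous δ)
    {i : Fin 4} (hi : ¬ π ∣ X i) (s s' : I) (hs : s ≠ s') :
    LinearIndependent (IsLocalRing.ResidueField (OO π))
      ![fun j => IsLocalRing.residue (OO π) (vz (OO π) i (z s) j),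
        fun j => IsLocalRing.residue (OO π) (vz (OO π) i (z s') j)] := by
  rw [LinearIndependent.pair_iff]
  intro a b hab
  have hp := Geo_p_ne hi
  have hc1 := Geo_cc_ne π (hz.co s i)
  have hc2 := Geo_cc_ne π (hz.co s' i)
  have h1 : ∀ l, (a / Geo_cc π (z s i)) * Geo_cc π (z s l) + (b / Geo_cc π (z s' i)) * Geo_cc π (z s' l) =
      (a + b) / Geo_p π i * Geo_p π l := by
    intro l
    refine Fin.succAboveCases i ?_ ?_ l
    · field_simp
    · intro j
      have h2 := congrFun hab j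
      simp only [Pi.add_apply, Pi.smul_apply, smul_eq_mul, Pi.zero_apply] at h2
      rw [Geo_vz hi, Geo_vz hi] at h2
      linear_combination h2
  by_cases hab0 : a + b = 0
  · have h2 := Geo_indep (hz.ind s s' hs) (π := π) (α := a / Geo_cc π (z s i))
      (β := b / Geo_cc π (z s' i)) (fun l => by rw [h1 l, hab0, zero_div, zero_mul])
    refine ⟨?_, ?_⟩
    · exact (div_eq_zero_iff.1 h2.1).resolve_right hc1
    · exact (div_eq_zero_iff.1 h2.2).resolve_right hc2
  · exfalso
    refine Geo_dist0 hπ hδ (x := z s) (y := z s') (α := (a / Geo_cc π (z s i)) * (Geo_p π i / (a + b)))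
      (β := (b / Geo_cc π (z s' i)) * (Geo_p π i / (a + b))) ?_
    intro l
    have h2 := h1 l
    have h3 : (a + b) / Geo_p π i * (Geo_p π i / (a + b)) = 1 := by
      field_simp
    linear_combination (-(Geo_p π i / (a + b))) * h2 - (Geo_p π l) * h3

theorem Geo_two {I : Type} [Fintype I] {z : I → Fin 4 → ℂ} (hz : Geom z) (s : I) :
    ∃ s', s ≠ s' := by
  by_contra h
  push Not at h
  have h1 : Set.range z ⊆ {z s} := by
    rintro _ ⟨t, rfl⟩
    rw [← h t]
    exact Set.mem_singleton _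
  have h2 : (⊤ : Submodule ℂ (Fin 4 → ℂ)) ≤ Submodule.span ℂ {z s} := by
    rw [← hz.span]
    exact Submodule.span_mono h1
  have h3 := Submodule.finrank_mono h2
  rw [finrank_top, Module.finrank_fin_fun] at h3
  have h4 := finrank_span_le_card (R := ℂ) ({z s} : Set (Fin 4 → ℂ))
  rw [Set.toFinset_singleton, Finset.card_singleton] at h4
  omega

theorem Geo_unim {I : Type} [Fintype I] {z : I → Fin 4 → ℂ} (hz : Geom z) {π : RR}
    [hpi : (Ideal.span {π} : Ideal RR).IsPrime] (hπ : Prime π) {δ : ℕ} (hδ : π.IsHomogeneous δ)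
    {i : Fin 4} (hi : ¬ π ∣ X i) (s : I) : ∃ j, IsUnit (vz (OO π) i (z s) j) := by
  by_contra hcon
  push Not at hcon
  obtain ⟨s', hs⟩ := Geo_two hz s
  have h1 := (Geo_dist hz hπ hδ hi s s' hs).ne_zero 0
  apply h1
  funext j
  show IsLocalRing.residue (OO π) (vz (OO π) i (z s) j) = 0
  rw [IsLocalRing.residue_eq_zero_iff]
  exact hcon j

theorem Geo_hder {O : Type} [CommRing O] [Algebra RR O] {i : Fin 4}
    (hu : IsUnit (algebraMap RR O (X i)))
    {der : Fin 3 → Derivation ℤ O O} (hder : IsDer O i der) (w : Fin 4 → ℂ)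
    (j' j : Fin 3) : der j' (vz O i w j) = if j' = j then -1 else 0 := by
  have h1 := Ring.mul_inverse_cancel _ hu
  have h2 : algebraMap RR O (X i) * vz O i w j =
      algebraMap RR O (X i * C (w (i.succAbove j) / w i) - X (i.succAbove j)) := by
    show algebraMap RR O (X i) * (algebraMap RR O (C (w (i.succAbove j) / w i)) -
      algebraMap RR O (X (i.succAbove j)) * Ring.inverse (algebraMap RR O (X i))) = _
    rw [map_sub, map_mul]
    linear_combination (-(algebraMap RR O (X (i.succAbove j)))) * h1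
  have h3 := congrArg (der j') h2
  rw [Derivation.leibniz, hder, hder] at h3
  have h4 : (pderiv (i.succAbove j') (X i) : RR) = 0 := pderiv_X_of_ne (Fin.succAbove_ne i j').symm
  have h5 : (pderiv (i.succAbove j') (X i * C (w (i.succAbove j) / w i) - X (i.succAbove j)) : RR) =
      if j' = j then -1 else 0 := by
    rw [map_sub, pderiv_mul, h4, pderiv_C, zero_mul, mul_zero, add_zero, zero_sub]
    by_cases hj : j' = j
    · rw [if_pos hj, hj, pderiv_X_self]
    · rw [if_neg hj, pderiv_X_of_ne, neg_zero]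
      intro h
      exact hj (Fin.succAbove_right_injective h).symm
  rw [h4, h5, mul_zero, map_zero, smul_zero, add_zero, smul_eq_mul] at h3
  refine hu.mul_left_cancel ?_
  rw [h3]
  by_cases hj : j' = j
  · rw [if_pos hj, if_pos hj, map_mul, map_neg, map_one]
  · rw [if_neg hj, if_neg hj, mul_zero, map_zero, mul_zero]

abbrev Geo_Der (O : Type) [CommRing O] : Type := Fin 3 → Derivation ℤ O O

theorem Geo_hL {π : RR} [hpi : (Ideal.span {π} : Ideal RR).IsPrime] (hπ : Prime π) {δ : ℕ}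
    (hδ : π.IsHomogeneous δ) {i : Fin 4} (hi : ¬ π ∣ X i)
    {der : Geo_Der (OO π)} (hder : IsDer (OO π) i der) :
    ∃ j, IsLocalRing.residue (OO π) (der j (algebraMap RR (OO π) π)) ≠ 0 := by
  by_contra hcon
  push Not at hcon
  have h1 : ∀ j : Fin 3, pderiv (i.succAbove j) π = 0 := by
    intro j
    have h2 := hcon j
    rw [hder, Geo_res_zero] at h2
    have h3 := (hπ.dvd_or_dvd h2).resolve_left hi
    exact Geo_deg hπ hδ hδ.pderiv h3
  have h2 := hδ.sum_X_mul_pderiv
  rw [Fin.sum_univ_succAbove _ i] at h2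
  simp only [h1, mul_zero, Finset.sum_const_zero, add_zero] at h2
  have h3 : (X i : RR) ∣ π := by
    have h4 : (X i : RR) ∣ δ • π := ⟨_, h2.symm⟩
    have h5 : (C ((δ : ℂ)⁻¹) : RR) * (δ • π) = π := by
      rw [nsmul_eq_mul, ← mul_assoc, ← map_natCast (C : ℂ →+* RR), ← map_mul, inv_mul_cancel₀, map_one,
        one_mul]
      have := Geo_pos hπ hδ
      exact Nat.cast_ne_zero.2 (by omega)
    rw [← h5]
    exact Dvd.dvd.mul_left h4 _
  have h6 : Prime (X i : RR) := X_prime
  exact hi ((h6.associated_of_dvd hπ h3).symm.dvd)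

theorem Geo_hPl {I : Type} [Fintype I] {z : I → Fin 4 → ℂ} (hz : Geom z) {π : RR}
    [hpi : (Ideal.span {π} : Ideal RR).IsPrime] (hπ : Prime π) {δ : ℕ} (hδ : π.IsHomogeneous δ)
    {i : Fin 4} (hi : ¬ π ∣ X i) {m D0 : ℕ} (hcol : ColB z m) (hm : m < D0) (h2 : 2 ≤ D0)
    {der : Geo_Der (OO π)} (hder : IsDer (OO π) i der)
    (H : Fin 3 → IsLocalRing.ResidueField (OO π)) (hH : H ≠ 0)
    (hc : D0 ≤ Nat.card {s : I // ∑ j, H j * IsLocalRing.residue (OO π) (vz (OO π) i (z s) j) = 0}) :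
    ∃ a : IsLocalRing.ResidueField (OO π),
      ∀ j, H j = a * IsLocalRing.residue (OO π) (der j (algebraMap RR (OO π) π)) := by
  classical
  obtain ⟨h, hh⟩ : ∃ h, h = Geo_h π i H := ⟨_, rfl⟩
  have hh0 : h ≠ 0 := by
    rw [hh]
    exact Geo_h_ne hH
  have hA : ∀ s, ∑ j, H j * IsLocalRing.residue (OO π) (vz (OO π) i (z s) j) = 0 →
      z s ∈ Geo_K π h := by
    intro s hs
    rw [Geo_mem_K, hh, Geo_h_z hi (hz.co s i), hs, mul_zero]
  -- three independent points
  obtain ⟨A, hAd⟩ : ∃ A : Set I, A = {s : I | ∑ j, H j * IsLocalRing.residue (OO π) (vz (OO π) i (z s) j) = 0} :=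
    ⟨_, rfl⟩
  have hcA : D0 ≤ A.ncard := by
    rw [hAd, ← Nat.card_coe_set_eq]
    exact hc
  obtain ⟨s1, hs1, s2, hs2, hs12⟩ : ∃ s1 ∈ A, ∃ s2 ∈ A, s1 ≠ s2 := by
    have := (Set.one_lt_ncard (Set.toFinite A)).1 (by omega)
    obtain ⟨a, ha, b, hb, hab⟩ := this
    exact ⟨a, ha, b, hb, hab⟩
  obtain ⟨s3, hs3, hs3'⟩ : ∃ s3 ∈ A, z s3 ∉ Submodule.span ℂ {z s1, z s2} := by
    by_contra hcon
    push Not at hcon
    have h3 := hcol s1 s2 hs12
    have h4 : A ⊆ {t : I | z t ∈ Submodule.span ℂ {z s1, z s2}} := fun t ht => hcon t ht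
    have h5 := Set.ncard_le_ncard h4 (Set.toFinite _)
    rw [← Nat.card_coe_set_eq {t : I | z t ∈ Submodule.span ℂ {z s1, z s2}}] at h5
    have h6 : A.ncard ≤ m := h5.trans h3
    omega
  have hK1 : z s1 ∈ Geo_K π h := hA s1 (by rw [hAd] at hs1; exact hs1)
  have hK2 : z s2 ∈ Geo_K π h := hA s2 (by rw [hAd] at hs2; exact hs2)
  have hK3 : z s3 ∈ Geo_K π h := hA s3 (by rw [hAd] at hs3; exact hs3)
  have hli : LinearIndependent ℂ ![z s3, z s1, z s2] := by
    refine LinearIndependent.finCons (hz.ind s1 s2 hs12) ?_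
    intro hcon
    apply hs3'
    have h7 : Set.range ![z s1, z s2] = {z s1, z s2} := by
      rw [Matrix.range_cons, Matrix.range_cons, Matrix.range_empty, Set.union_empty]
      rfl
    rwa [h7] at hcon
  obtain ⟨U, hU⟩ : ∃ U, U = Submodule.span ℂ (Set.range ![z s3, z s1, z s2]) := ⟨_, rfl⟩
  have hUr : Module.finrank ℂ U = 3 := by
    rw [hU, finrank_span_eq_card hli, Fintype.card_fin]
  have hUK : U ≤ Geo_K π h := by
    rw [hU, Submodule.span_le]
    rintro _ ⟨t, rfl⟩
    fin_cases t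
    · exact hK3
    · exact hK1
    · exact hK2
  have hUtop : U < ⊤ := by
    rw [lt_top_iff_ne_top]
    intro hcon
    exact hh0 (Geo_K_top π (top_le_iff.1 (hcon ▸ hUK)))
  obtain ⟨f, hf0, hf⟩ := Submodule.exists_le_ker_of_lt_top _ hUtop
  have hfk : U = LinearMap.ker f := by
    refine Submodule.eq_of_le_of_finrank_le hf ?_
    have h8 := LinearMap.finrank_range_add_finrank_ker f
    rw [Module.finrank_fin_fun] at h8
    have h9 : Module.finrank ℂ (LinearMap.range f) ≠ 0 := by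
      intro h10
      apply hf0
      rw [← LinearMap.range_eq_bot]
      exact Submodule.finrank_eq_zero.1 h10
    omega
  obtain ⟨w, hw⟩ : ∃ w, f w ≠ 0 := by
    by_contra hcon
    push Not at hcon
    exact hf0 (LinearMap.ext hcon)
  obtain ⟨a, ha⟩ : ∃ a : Fin 4 → ℂ, a = fun l => f (Pi.single l 1) := ⟨_, rfl⟩
  obtain ⟨b, hb⟩ : ∃ b, b = (∑ l, h l * Geo_cc π (w l)) / Geo_cc π (f w) := ⟨_, rfl⟩
  have hcw := Geo_cc_ne π hw
  have hl : ∀ l, h l = b * Geo_cc π (a l) := by
    intro l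
    have h11 : f w • (Pi.single l 1 : Fin 4 → ℂ) - f (Pi.single l 1) • w ∈ Geo_K π h := by
      apply hUK
      rw [hfk, LinearMap.mem_ker, map_sub, map_smul, map_smul, smul_eq_mul, smul_eq_mul]
      ring
    rw [Geo_mem_K] at h11
    have h12 : ∀ m, h m * Geo_cc π ((f w • (Pi.single l 1 : Fin 4 → ℂ) - f (Pi.single l 1) • w) m) =
        Geo_cc π (f w) * (h m * Geo_cc π ((Pi.single l 1 : Fin 4 → ℂ) m)) -
          Geo_cc π (a l) * (h m * Geo_cc π (w m)) := by
      intro m
      rw [ha]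
      simp only [Pi.sub_apply, Pi.smul_apply, smul_eq_mul, map_sub, map_mul]
      ring
    rw [Finset.sum_congr rfl fun m _ => h12 m, Finset.sum_sub_distrib, ← Finset.mul_sum,
      ← Finset.mul_sum, Geo_sum_single] at h11
    rw [hb]
    field_simp
    linear_combination h11
  have ha0 : a ≠ 0 := by
    intro hcon
    apply hh0
    funext l
    rw [hl l, hcon, Pi.zero_apply, map_zero, mul_zero]
    rfl
  have hb0 : b ≠ 0 := by
    intro hcon
    apply hh0
    funext l
    rw [hl l, hcon, zero_mul]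
    rfl
  have hdiv : π ∣ Geo_lin a := by
    rw [← Geo_res_zero, ← Geo_res_lin]
    have h13 := Geo_h_p hi H
    rw [← hh] at h13
    have h14 : ∀ l, h l * Geo_p π l = b * (Geo_cc π (a l) * Geo_p π l) := by
      intro l
      rw [hl l]
      ring
    rw [Finset.sum_congr rfl fun l _ => h14 l, ← Finset.mul_sum] at h13
    exact (mul_eq_zero.1 h13).resolve_left hb0
  obtain ⟨c, hc0, hcl⟩ := Geo_LIN1 hπ hδ ha0 hdiv
  have hcc := Geo_cc_ne π hc0
  have hpi' := Geo_p_ne hi
  refine ⟨b * Geo_cc π c / Geo_p π i, fun j => ?_⟩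
  have h15 := Geo_pderiv_lin a (i.succAbove j)
  rw [hcl, pderiv_C_mul] at h15
  have h16 : H j = h (i.succAbove j) := by
    rw [hh, Geo_h_succ]
  rw [h16, hl, hder, Geo_cc_def π (a _), ← h15, map_mul, map_mul, map_mul, map_mul, ← Geo_cc_def]
  show _ = b * Geo_cc π c / Geo_p π i * (Geo_p π i * _)
  field_simp

theorem geo_exists {I : Type} [Fintype I] (z : I → Fin 4 → ℂ) (hz : Geom z) {π : RR}
    [hpi : (Ideal.span {π} : Ideal RR).IsPrime] (hπ : Prime π) {δ : ℕ} (hδ : π.IsHomogeneous δ)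
    (i : Fin 4) (hi : ¬ π ∣ X i) {m D0 : ℕ} (hcol : ColB z m) (hm : m < D0) (h2 : 2 ≤ D0) :
    ∃ S : GeoS (OO π) (IsLocalRing.ResidueField (OO π)) I D0,
      S.pi = algebraMap RR (OO π) π ∧ S.rho = IsLocalRing.residue (OO π) ∧ IsDer (OO π) i S.der ∧
      ∀ s, S.v s = vz (OO π) i (z s) := by
  obtain ⟨der, hder⟩ := exists_der (OO π) (Ideal.primeCompl (Ideal.span {π} : Ideal RR)) i
  refine ⟨{ pi := algebraMap RR (OO π) π
            rho := IsLocalRing.residue (OO π)
            der := der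
            v := fun s => vz (OO π) i (z s)
            prime := OO_prime hπ
            surj := IsLocalRing.residue_surjective
            ker := OO_ker
            hder := fun j' s j => Geo_hder ((OO_unit (X i)).2 hi) hder (z s) j' j
            unim := fun s => Geo_unim hz hπ hδ hi s
            span := Geo_span hz hi
            dist := fun s s' hs => Geo_dist hz hπ hδ hi s s' hs
            hL := Geo_hL hπ hδ hi hder
            hPl := fun H hH hc => Geo_hPl hz hπ hδ hi hcol hm h2 hder H hH hc }, rfl, rfl, hder,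
    fun s => rfl⟩

theorem Geo_dz (w : Fin 4 → ℂ) (q : RR) : dz w q = ∑ l, C (w l) * pderiv l q := by
  have h : dz w = ∑ l, (C (w l) : RR) • (pderiv l : Derivation ℂ RR RR) := by
    refine MvPolynomial.derivation_ext fun j => ?_
    rw [dz, mkDerivation_X, ← Derivation.coeFnAddMonoidHom_apply, map_sum, Finset.sum_apply,
      Finset.sum_eq_single j]
    · rw [Derivation.coeFnAddMonoidHom_apply, Derivation.smul_apply, pderiv_X_self, smul_eq_mul,
        mul_one]
    · intro b _ hb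
      rw [Derivation.coeFnAddMonoidHom_apply, Derivation.smul_apply, pderiv_X_of_ne hb.symm,
        smul_zero]
    · intro h
      exact absurd (Finset.mem_univ j) h
  rw [h, ← Derivation.coeFnAddMonoidHom_apply, map_sum, Finset.sum_apply]
  rfl

theorem Geo_dz_hom (w : Fin 4 → ℂ) {q : RR} {δ : ℕ} (hq : q.IsHomogeneous δ) :
    (dz w q).IsHomogeneous (δ - 1) := by
  rw [Geo_dz]
  refine IsHomogeneous.sum _ _ _ fun l _ => ?_
  have h := (isHomogeneous_C (Fin 4) (w l)).mul (hq.pderiv (i := l))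
  rwa [zero_add] at h

theorem Lz_iff {I : Type} [Fintype I] (z : I → Fin 4 → ℂ) {π : RR}
    [hpi : (Ideal.span {π} : Ideal RR).IsPrime] (hπ : Prime π) {δ : ℕ} (hδ : π.IsHomogeneous δ)
    (i : Fin 4) (hi : ¬ π ∣ X i) {D0 : ℕ}
    (S : GeoS (OO π) (IsLocalRing.ResidueField (OO π)) I D0)
    (hS1 : S.pi = algebraMap RR (OO π) π) (hS2 : S.rho = IsLocalRing.residue (OO π))
    (hS3 : IsDer (OO π) i S.der) (hS4 : ∀ s, S.v s = vz (OO π) i (z s)) (s : I) (hzi : z s i ≠ 0) :
    S.Lz s = 0 ↔ dz (z s) π = 0 := by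
  have hp := Geo_p_ne hi
  have hc := Geo_cc_ne π hzi
  have hE : ∑ l, X l * pderiv l π = δ • π := hδ.sum_X_mul_pderiv
  have hE' := congrArg (fun r => IsLocalRing.residue (OO π) (algebraMap RR (OO π) r)) hE
  have hdz' := congrArg (fun r => IsLocalRing.residue (OO π) (algebraMap RR (OO π) r)) (Geo_dz (z s) π)
  have hpi0 : IsLocalRing.residue (OO π) (algebraMap RR (OO π) π) = 0 :=
    (Geo_res_zero π π).2 dvd_rfl
  simp only [map_sum, map_mul, nsmul_eq_mul, hpi0, mul_zero] at hE'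
  simp only [map_sum, map_mul] at hdz'
  rw [Fin.sum_univ_succAbove _ i] at hE' hdz'
  have hL : S.Lz s = Geo_p π i / Geo_cc π (z s i) *
      IsLocalRing.residue (OO π) (algebraMap RR (OO π) (dz (z s) π)) := by
    have h1 : ∀ j : Fin 3, S.rho (S.v s j) * S.rho (S.der j S.pi) =
        Geo_p π i / Geo_cc π (z s i) * (IsLocalRing.residue (OO π) (algebraMap RR (OO π) (C (z s (i.succAbove j)))) *
          IsLocalRing.residue (OO π) (algebraMap RR (OO π) (pderiv (i.succAbove j) π))) -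
        IsLocalRing.residue (OO π) (algebraMap RR (OO π) (X (i.succAbove j))) *
          IsLocalRing.residue (OO π) (algebraMap RR (OO π) (pderiv (i.succAbove j) π)) := by
      intro j
      rw [hS1, hS3, hS2, hS4, Geo_vz hi, map_mul, map_mul, ← Geo_cc_def]
      show (Geo_cc π (z s (i.succAbove j)) / Geo_cc π (z s i) - Geo_p π (i.succAbove j) / Geo_p π i) *
        (Geo_p π i * _) = _ - Geo_p π (i.succAbove j) * _
      field_simp
    rw [GeoS.Lz, Finset.sum_congr rfl fun j _ => h1 j, Finset.sum_sub_distrib, ← Finset.mul_sum, hdz']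
    have h2 : Geo_p π i / Geo_cc π (z s i) * IsLocalRing.residue (OO π) (algebraMap RR (OO π) (C (z s i))) =
        IsLocalRing.residue (OO π) (algebraMap RR (OO π) (X i)) := by
      rw [← Geo_cc_def, div_mul_cancel₀ _ hc]
      rfl
    linear_combination (-(IsLocalRing.residue (OO π) (algebraMap RR (OO π) (pderiv i π)))) * h2 - hE'
  rw [hL, mul_eq_zero, div_eq_zero_iff, or_iff_right (by
    rintro (h | h)
    · exact hp h
    · exact hc h), Geo_res_zero]
  constructor
  · exact fun h => Geo_deg hπ hδ (Geo_dz_hom (z s) hδ) h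
  · intro h
    rw [h]
    exact dvd_zero π


end

end GP80
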