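import Mathlib
import Pool.Agent.H80.GP.Defs2

/-!
# Row Kp1 (MP_87ed0a_GP): bases and dimensions of spaces of forms in 3 variables  (about 150 lines)

* `card_Mon`: the number of monomials of degree `t` is `nn t = (t+2 choose 2)`
  (bijection with pairs, or `Finset.card_finsuppAntidiag...`/`Sym.card_sym_eq_choose`, or induction: `Mon (t+1)` = those with
  `m 0 = 0` (count `t+2`) + shift of `Mon t`).
* `exists_basisMon`: the monomials form a basis of the forms of degree `t` over any commutative ring.
* `finrank_hs`: dimension over a field is `nn t`.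
* `finrank_mul`: the forms of degree `t` divisible by a nonzero form `E` of degree `l` have dimension `nz (t - l)`
  (the map `y ↦ E y` from forms of degree `t - l` is injective with this image: a divisor `y` of a form `x = E y`, `E` a nonzero form,
  is a form: compare homogeneous components, or use Kp2 `homog_of_dvd`-style argument directly; for `t < l` only `0`).
* `dep_mod`: `Δ ∣ Γ` nonzero forms of degrees `dl ≤ dk`.  If `q 0, ..., q m` are forms of degree `s` divisible by `Δ` and
  `nz (s - dl) ≤ m + nz (s - dk)`, then some nontrivial `k`-combination is divisible by `Γ`: quotient space of dimension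
  `nz (s-dl) - nz (s-dk) ≤ m`.
-/

namespace GP80

open MvPolynomial

theorem card_Mon (t : ℕ) : Fintype.card (Mon t) = nn t := by
  rw [Fintype.card_coe, Finset.card_finsuppAntidiag_nat_eq_choose, nn, Finset.card_univ, Fintype.card_fin]
  have h1 : 3 + t - 1 = t + 2 := by omega
  rw [h1]
  exact Nat.choose_symm_of_eq_add rfl

private theorem Kp1_mem_iff {t : ℕ} {d : Fin 3 →₀ ℕ} :
    d ∈ Finset.finsuppAntidiag (Finset.univ : Finset (Fin 3)) t ↔ d.degree = t := by
  rw [Finset.mem_finsuppAntidiag]
  constructor
  · rintro ⟨h, -⟩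
    rw [← h, Finsupp.degree_eq_sum]
  · intro h
    refine ⟨?_, Finset.subset_univ _⟩
    rw [← h, Finsupp.degree_eq_sum]

private theorem Kp1_deg {O : Type} [CommRing O] {t : ℕ} {f : MvPolynomial (Fin 3) O}
    (hf : f.IsHomogeneous t) {d : Fin 3 →₀ ℕ} (hd : coeff d f ≠ 0) : d.degree = t := by
  by_contra h
  exact hd (hf.coeff_eq_zero h)

private theorem Kp1_coeff_sum {O : Type} [CommRing O] {t : ℕ} (c : Mon t → O) (d : Fin 3 →₀ ℕ) :
    coeff d (∑ m : Mon t, C (c m) * monomial m.1 (1 : O)) =
      if h : d ∈ Finset.finsuppAntidiag (Finset.univ : Finset (Fin 3)) t then c ⟨d, h⟩ else 0 := by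
  classical
  rw [coeff_sum]
  simp only [coeff_C_mul, coeff_monomial]
  split_ifs with h
  · rw [Finset.sum_eq_single (⟨d, h⟩ : Mon t)]
    · simp
    · intro b _ hb
      have : b.1 ≠ d := fun h' => hb (Subtype.ext h')
      rw [if_neg this, mul_zero]
    · intro h'
      exact absurd (Finset.mem_univ _) h'
  · refine Finset.sum_eq_zero fun b _ => ?_
    have : b.1 ≠ d := by
      intro h'
      apply h
      rw [← h']
      exact b.2
    rw [if_neg this, mul_zero]

private theorem Kp1_hom_sum {O : Type} [CommRing O] {t : ℕ} (c : Mon t → O) :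
    (∑ m : Mon t, C (c m) * monomial m.1 (1 : O)).IsHomogeneous t := by
  refine MvPolynomial.IsHomogeneous.sum _ _ _ fun m _ => ?_
  exact (isHomogeneous_monomial (1 : O) (Kp1_mem_iff.1 m.2)).C_mul (c m)

theorem exists_basisMon (O : Type) [CommRing O] (t : ℕ) :
    ∃ b : Module.Basis (Mon t) O (HS O t),
      (∀ m, (b m).val = monomial m.1 1) ∧ ∀ f m, b.repr f m = coeff m.1 f.val := by
  have key : ∀ (f : MvPolynomial (Fin 3) O), f.IsHomogeneous t → ∑ m : Mon t, C (coeff m.1 f) * monomial m.1 (1 : O) = f := by
    intro f hf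
    ext d
    rw [Kp1_coeff_sum]
    split_ifs with hd
    · rfl
    · by_contra hne
      exact hd (Kp1_mem_iff.2 (Kp1_deg hf (fun h => hne h.symm)))
  let e : HS O t ≃ₗ[O] (Mon t → O) :=
    { toFun := fun f m => coeff m.1 f.val
      map_add' := fun f g => by
        funext m
        simp
      map_smul' := fun a f => by
        funext m
        simp
      invFun := fun c => HS.mk (∑ m : Mon t, C (c m) * monomial m.1 (1 : O)) (Kp1_hom_sum c)
      left_inv := fun f => by
        apply HS.ext
        rw [HS.val_mk]
        exact key f.val f.prop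
      right_inv := fun c => by
        funext m
        show coeff m.1 (∑ m : Mon t, C (c m) * monomial m.1 (1 : O)) = c m
        rw [Kp1_coeff_sum, dif_pos m.2] }
  refine ⟨Module.Basis.ofEquivFun e, fun m => ?_, fun f m => ?_⟩
  · rw [Module.Basis.coe_ofEquivFun]
    show (∑ m' : Mon t, C (Function.update (0 : Mon t → O) m 1 m') * monomial m'.1 (1 : O)) = _
    rw [Finset.sum_eq_single m]
    · simp
    · intro b _ hb
      simp [Function.update_of_ne hb]
    · intro h
      exact absurd (Finset.mem_univ m) h
  · rfl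

theorem finrank_hs (k : Type) [Field k] (t : ℕ) :
    Module.finrank k (HS k t) = nn t := by
  obtain ⟨b, -, -⟩ := exists_basisMon k t
  rw [Module.finrank_eq_card_basis b, card_Mon]

instance finite_hs (O : Type) [CommRing O] (t : ℕ) : Module.Finite O (HS O t) := by
  obtain ⟨b, -, -⟩ := exists_basisMon O t
  exact Module.Finite.of_basis b

instance free_hs (O : Type) [CommRing O] (t : ℕ) : Module.Free O (HS O t) := by
  obtain ⟨b, -, -⟩ := exists_basisMon O t
  exact Module.Free.of_basis b

/-- the forms of degree `t` divisible by `E` -/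
def mulSub {k : Type} [Field k] (E : MvPolynomial (Fin 3) k) (t : ℕ) : Submodule k (HS k t) where
  carrier := {x | E ∣ x.val}
  add_mem' {x y} hx hy := dvd_add hx hy
  zero_mem' := dvd_zero E
  smul_mem' a x hx := by
    show E ∣ (a • x).val
    rw [HS.val_smul]
    exact Dvd.dvd.mul_left hx _

private theorem Kp1_hom_of_mul {k : Type} [Field k] {E y : MvPolynomial (Fin 3) k} {l t : ℕ}
    (hE : E.IsHomogeneous l) (h0 : E ≠ 0) (hle : l ≤ t) (h : (E * y).IsHomogeneous t) :
    y.IsHomogeneous (t - l) := by
  have h1 : E * y = E * homogeneousComponent (t - l) y := by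
    conv_lhs => rw [← homogeneousComponent_eq_self h]
    conv_lhs => rw [← sum_homogeneousComponent y, Finset.mul_sum, map_sum]
    by_cases hm : t - l ∈ Finset.range (y.totalDegree + 1)
    · rw [Finset.sum_eq_single_of_mem (t - l) hm]
      · apply homogeneousComponent_eq_self
        have h2 := hE.mul (homogeneousComponent_isHomogeneous (t - l) y)
        rwa [Nat.add_sub_cancel' hle] at h2
      · intro b _ hb
        rw [homogeneousComponent_of_mem
          ((mem_homogeneousSubmodule _ _).2 (hE.mul (homogeneousComponent_isHomogeneous b y))),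
          if_neg (by omega)]
    · rw [homogeneousComponent_eq_zero _ _ (by
        have := mt Finset.mem_range.2 hm
        omega), mul_zero]
      refine Finset.sum_eq_zero fun b hb => ?_
      have hb' := Finset.mem_range.1 hb
      have hm' := mt Finset.mem_range.2 hm
      rw [homogeneousComponent_of_mem
          ((mem_homogeneousSubmodule _ _).2 (hE.mul (homogeneousComponent_isHomogeneous b y))),
          if_neg (by omega)]
  rw [mul_left_cancel₀ h0 h1]
  exact homogeneousComponent_isHomogeneous _ _

theorem finrank_mul {k : Type} [Field k] (E : MvPolynomial (Fin 3) k) (l : ℕ) (hE : E.IsHomogeneous l)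
    (h0 : E ≠ 0) (t : ℕ) : Module.finrank k (mulSub E t) = nz ((t : ℤ) - l) := by
  by_cases hlt : t < l
  · have h1 : mulSub E t = ⊥ := by
      rw [eq_bot_iff]
      rintro x ⟨y, hy⟩
      have hx0 : x.val = 0 := by
        by_contra hne
        have hy0 : y ≠ 0 := by
          rintro rfl
          exact hne (by rw [hy, mul_zero])
        have hd := x.prop.totalDegree hne
        rw [hy, totalDegree_mul_of_isDomain h0 hy0, hE.totalDegree h0] at hd
        omega
      exact (Submodule.mem_bot k).2 (HS.ext hx0)
    rw [h1, finrank_bot, nz, if_neg (by omega)]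
  · have hle : l ≤ t := not_lt.1 hlt
    let φ : HS k (t - l) →ₗ[k] HS k t :=
      { toFun := fun y => HS.mk (E * y.val) (by
          have h := hE.mul y.prop
          rwa [Nat.add_sub_cancel' hle] at h)
        map_add' := fun x y => by
          apply HS.ext
          simp [mul_add]
        map_smul' := fun a y => by
          apply HS.ext
          simp only [HS.val_mk, HS.val_smul, RingHom.id_apply]
          ring }
    have hinj : Function.Injective φ := by
      intro x y hxy
      have h2 : E * x.val = E * y.val := congrArg HS.val hxy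
      exact HS.ext (mul_left_cancel₀ h0 h2)
    have hrange : LinearMap.range φ = mulSub E t := by
      ext x
      constructor
      · rintro ⟨y, rfl⟩
        exact Dvd.intro y.val rfl
      · rintro ⟨y, hy⟩
        have hyh : y.IsHomogeneous (t - l) := by
          have hxE : (E * y).IsHomogeneous t := by
            rw [← hy]
            exact x.prop
          exact Kp1_hom_of_mul hE h0 hle hxE
        exact ⟨HS.mk y hyh, HS.ext hy.symm⟩
    rw [← hrange, LinearMap.finrank_range_of_inj hinj, finrank_hs, nz, if_pos (by omega)]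
    congr 1
    omega

theorem dep_mod {k : Type} [Field k] (Δ Γ : MvPolynomial (Fin 3) k) (dl dk : ℕ)
    (hΔ : Δ.IsHomogeneous dl) (hΓ : Γ.IsHomogeneous dk) (hdvd : Δ ∣ Γ) (h0 : Γ ≠ 0) (s m : ℕ)
    (hm : nz ((s : ℤ) - dl) ≤ m + nz ((s : ℤ) - dk))
    (q : Fin (m + 1) → MvPolynomial (Fin 3) k) (hq : ∀ j, (q j).IsHomogeneous s)
    (hd : ∀ j, Δ ∣ q j) : ∃ a : Fin (m + 1) → k, a ≠ 0 ∧ Γ ∣ ∑ j, C (a j) * q j := by
  have hle : mulSub Γ s ≤ mulSub Δ s := fun x hx => dvd_trans hdvd hx
  have hΔ0 : Δ ≠ 0 := by
    rintro rfl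
    exact h0 (zero_dvd_iff.1 hdvd)
  let W : Submodule k (mulSub Δ s) := (mulSub Γ s).comap (mulSub Δ s).subtype
  have hW : Module.finrank k W = nz ((s : ℤ) - dk) := by
    rw [← finrank_mul Γ dk hΓ h0 s]
    exact (Submodule.comapSubtypeEquivOfLe hle).finrank_eq
  have hV := finrank_mul Δ dl hΔ hΔ0 s
  have hQ : Module.finrank k (mulSub Δ s ⧸ W) ≤ m := by
    have h1 := Submodule.finrank_quotient_add_finrank W
    rw [hW, hV] at h1
    omega
  let ψ : (Fin (m + 1) → k) →ₗ[k] (mulSub Δ s ⧸ W) :=
    W.mkQ.comp (Fintype.linearCombination k fun j => (⟨HS.mk (q j) (hq j), hd j⟩ : mulSub Δ s))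
  have hker : LinearMap.ker ψ ≠ ⊥ := by
    apply LinearMap.ker_ne_bot_of_finrank_lt
    rw [Module.finrank_fin_fun]
    omega
  obtain ⟨a, ha, ha0⟩ := Submodule.exists_mem_ne_zero_of_ne_bot hker
  refine ⟨a, ha0, ?_⟩
  have h2 : (Fintype.linearCombination k fun j => (⟨HS.mk (q j) (hq j), hd j⟩ : mulSub Δ s)) a ∈ W := by
    have h3 : W.mkQ ((Fintype.linearCombination k fun j => (⟨HS.mk (q j) (hq j), hd j⟩ : mulSub Δ s)) a) = 0 := ha
    exact (Submodule.Quotient.mk_eq_zero W).1 h3
  have h4 : Γ ∣ ((Fintype.linearCombination k fun j => (⟨HS.mk (q j) (hq j), hd j⟩ : mulSub Δ s)) a).1.val := h2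
  rw [Fintype.linearCombination_apply, Submodule.coe_sum, HS.val_sum] at h4
  simpa using h4

end GP80
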