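import Mathlib
import Pool.Agent.H80.GP.Defs2
import Pool.Agent.H80.GP.Kp1

/-!
# Row Kp3 (MP_87ed0a_GP): distinct points impose independent conditions  (about 90 lines)

`pts_indep`: for `A` a finite set of pairwise non proportional vectors `w z` of `k^3` (`LinearIndependent k ![w z, w z']` for
`z ≠ z'` in `A`) and `t ≥ card A`, the space of forms of degree `t` vanishing at all `w z`, `z ∈ A`, has dimension
`≤ nn t - card A` (stated additively).

Proof.  The evaluation map from forms of degree `t` to `k^A` is surjective: for `z ∈ A` the form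
`y^(t - card A + 1) * ∏_{z' ∈ A, z' ≠ z} l_{z'}`, where `l_{z'}` is a linear form vanishing at `w z'` and not at `w z` and `y` a linear form not vanishing at
`w z`, is nonzero at `z` and zero at the other points.  Rank-nullity with `finrank_hs`.
-/

namespace GP80

open MvPolynomial

/-- forms of degree `t` vanishing at the points `w z`, `z ∈ A` -/
def vanSub {k I : Type} [Field k] (w : I → Fin 3 → k) (A : Finset I) (t : ℕ) :
    Submodule k (HS k t) where
  carrier := {x | ∀ z ∈ A, eval (w z) x.val = 0}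
  add_mem' {x y} hx hy z hz := by simp [hx z hz, hy z hz]
  zero_mem' := by intro z _; simp
  smul_mem' a x hx z hz := by
    show eval (w z) (a • x).val = 0
    rw [HS.val_smul, map_mul, hx z hz, mul_zero]

theorem Kp3_lin {k : Type} [Field k] (φ : (Fin 3 → k) →ₗ[k] k) :
    ∃ l : MvPolynomial (Fin 3) k, l.IsHomogeneous 1 ∧ ∀ v, eval v l = φ v := by
  refine ⟨∑ i, C (φ (Pi.single i 1)) * X i, ?_, fun v => ?_⟩
  · apply IsHomogeneous.sum
    intro i _
    have h := (isHomogeneous_C (Fin 3) (φ (Pi.single i 1))).mul (isHomogeneous_X k i)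
    rwa [zero_add] at h
  · rw [map_sum]
    conv_rhs => rw [← LinearMap.sum_single_apply (fun _ : Fin 3 => k) v, map_sum]
    refine Finset.sum_congr rfl fun i _ => ?_
    rw [map_mul, eval_C, eval_X]
    have e : (Pi.single i (v i) : Fin 3 → k) = v i • (Pi.single i 1 : Fin 3 → k) := by
      rw [← Pi.single_smul, smul_eq_mul, mul_one]
    rw [e, map_smul, smul_eq_mul, mul_comm]

theorem Kp3_sep {k : Type} [Field k] {a b : Fin 3 → k} (h : LinearIndependent k ![a, b]) :
    ∃ l : MvPolynomial (Fin 3) k, l.IsHomogeneous 1 ∧ eval b l = 0 ∧ eval a l ≠ 0 := by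
  have h1 : a ∉ Submodule.span k {b} := by
    intro h2
    obtain ⟨c, hc⟩ := Submodule.mem_span_singleton.1 h2
    have h3 := LinearIndependent.pair_iff.1 h 1 (-c) (by rw [← hc]; simp)
    exact one_ne_zero h3.1
  obtain ⟨φ, h2, h3⟩ := Submodule.exists_le_ker_of_notMem h1
  obtain ⟨l, hl, he⟩ := Kp3_lin φ
  refine ⟨l, hl, ?_, ?_⟩
  · rw [he]
    exact h3 (Submodule.mem_span_singleton_self b)
  · rw [he]
    exact h2

theorem Kp3_nz {k : Type} [Field k] {a : Fin 3 → k} (h : a ≠ 0) :
    ∃ l : MvPolynomial (Fin 3) k, l.IsHomogeneous 1 ∧ eval a l ≠ 0 := by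
  obtain ⟨i, hi⟩ := Function.ne_iff.1 h
  refine ⟨X i, isHomogeneous_X k i, ?_⟩
  rw [eval_X]
  exact hi

theorem Kp3_form {k I : Type} [Field k] (w : I → Fin 3 → k) (A : Finset I)
    (hw : ∀ z ∈ A, ∀ z' ∈ A, z ≠ z' → LinearIndependent k ![w z, w z'])
    (hw0 : ∀ z ∈ A, w z ≠ 0) (t : ℕ) (ht : A.card ≤ t) (z : I) (hz : z ∈ A) :
    ∃ f : HS k t, eval (w z) f.val ≠ 0 ∧ ∀ z' ∈ A, z' ≠ z → eval (w z') f.val = 0 := by
  classical
  have hex : ∀ z' : I, ∃ l : MvPolynomial (Fin 3) k, l.IsHomogeneous 1 ∧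
      (z' ∈ A → z' ≠ z → eval (w z') l = 0 ∧ eval (w z) l ≠ 0) := by
    intro z'
    by_cases h : z' ∈ A ∧ z' ≠ z
    · obtain ⟨l, h1, h2, h3⟩ := Kp3_sep (hw z hz z' h.1 (Ne.symm h.2))
      exact ⟨l, h1, fun _ _ => ⟨h2, h3⟩⟩
    · obtain ⟨l, h1, -⟩ := Kp3_nz (hw0 z hz)
      exact ⟨l, h1, fun h2 h3 => absurd ⟨h2, h3⟩ h⟩
  choose l hl hl2 using hex
  obtain ⟨y, hy, hy0⟩ := Kp3_nz (hw0 z hz)
  have hcard : (A.erase z).card = A.card - 1 := Finset.card_erase_of_mem hz
  have hpos : 0 < A.card := Finset.card_pos.2 ⟨z, hz⟩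
  have hprod : (∏ z' ∈ A.erase z, l z').IsHomogeneous (A.card - 1) := by
    have h1 := IsHomogeneous.prod (A.erase z) l (fun _ => 1) (fun z' _ => hl z')
    rwa [Finset.sum_const, smul_eq_mul, mul_one, hcard] at h1
  have hpow : (y ^ (t - A.card + 1)).IsHomogeneous (t - A.card + 1) := by
    have h1 := hy.pow (t - A.card + 1)
    rwa [one_mul] at h1
  have hf : (y ^ (t - A.card + 1) * ∏ z' ∈ A.erase z, l z').IsHomogeneous t := by
    have h1 := hpow.mul hprod
    have e : t - A.card + 1 + (A.card - 1) = t := by omega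
    rwa [e] at h1
  refine ⟨HS.mk _ hf, ?_, ?_⟩
  · rw [HS.val_mk, map_mul, map_pow, map_prod]
    apply mul_ne_zero (pow_ne_zero _ hy0)
    rw [Finset.prod_ne_zero_iff]
    intro z' hz'
    exact (hl2 z' (Finset.mem_of_mem_erase hz') (Finset.ne_of_mem_erase hz')).2
  · intro z' hz' hne
    rw [HS.val_mk, map_mul, map_prod]
    rw [Finset.prod_eq_zero (Finset.mem_erase.2 ⟨hne, hz'⟩) (hl2 z' hz' hne).1, mul_zero]

theorem pts_indep {k I : Type} [Field k] (w : I → Fin 3 → k) (A : Finset I)
    (hw : ∀ z ∈ A, ∀ z' ∈ A, z ≠ z' → LinearIndependent k ![w z, w z'])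
    (hw0 : ∀ z ∈ A, w z ≠ 0) (t : ℕ) (ht : A.card ≤ t) :
    Module.finrank k (vanSub w A t) + A.card ≤ nn t := by
  classical
  let ev : HS k t →ₗ[k] (A → k) :=
    { toFun := fun f z => eval (w z) f.val
      map_add' := by
        intro f g
        funext z
        simp
      map_smul' := by
        intro a f
        funext z
        show eval (w z) (a • f).val = a * eval (w z) f.val
        rw [HS.val_smul, map_mul, eval_C] }
  have hex := fun z : A => Kp3_form w A hw hw0 t ht z.1 z.2
  choose f hf hf0 using hex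
  have hsurj : LinearMap.range ev = ⊤ := by
    rw [LinearMap.range_eq_top]
    intro g
    refine ⟨∑ z : A, (g z / eval (w z) (f z).val) • f z, ?_⟩
    rw [map_sum]
    funext z'
    rw [Finset.sum_apply, Finset.sum_eq_single z']
    · rw [map_smul]
      show g z' / eval (w z') (f z').val * eval (w z') (f z').val = g z'
      rw [div_mul_cancel₀ _ (hf z')]
    · intro z _ hne
      rw [map_smul]
      show g z / eval (w z) (f z).val * eval (w z') (f z).val = 0
      rw [hf0 z z' z'.2 (fun h => hne (Subtype.ext h.symm)), mul_zero]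
    · intro h
      exact absurd (Finset.mem_univ z') h
  have hker : LinearMap.ker ev = vanSub w A t := by
    ext x
    rw [LinearMap.mem_ker]
    constructor
    · intro h z hz
      exact congrFun h ⟨z, hz⟩
    · intro h
      funext z
      exact h z.1 z.2
  have h1 := LinearMap.finrank_range_add_finrank_ker ev
  rw [hsurj, hker, finrank_top, Module.finrank_fintype_fun_eq_card, Fintype.card_coe, finrank_hs] at h1
  omega

end GP80
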