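import Mathlib
import Pool.Agent.H80.GP.Defs
import Pool.Agent.H80.GP.Defs2
import Pool.Agent.H80.GP.Kp1
import Pool.Agent.H80.GP.Kp2
import Pool.Agent.H80.GP.Kp3

/-!
# Row Kos (MP_87ed0a_GP): two generators of the ideal of finitely many points are coprime; points on a line  (about 160 lines)

`k` a field, `w : I → k^3` finitely many vectors.
* `relPrime_of_gen`: if every form vanishing at all `w z` is in the ideal `(F, G)`, `F, G` forms, `(F, G) ≠ (0, 0)`, then `F, G` are coprime (`IsRelPrime`).
  Proof.  Let `H ∣ F`, `H ∣ G`.  `H ≠ 0`, `H` divides a nonzero form, so `H` is a form of some degree `h` (`homog_of_mul`).  If `h = 0`, `H` is a nonzero constant, a unit.  If `h ≥ 1`: all forms of degree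
  `t = card I` vanishing at the points are multiples of `H`; the space of forms of degree `t` vanishing at the points has dimension `≥ nn t - card I` (kernel of `evHom w t`, whose range is in `k^I`),
  and the space `mulSub H t` has dimension `nz (t - h) ≤ nn (t - 1)`; but `nn t - nn (t-1) = t + 1 > card I`.
* `line_dvd`: a form `F` of degree `m` which vanishes at more than `m` pairwise independent vectors `w z`, `z ∈ A`, on the line `λ = 0` (`λ = ∑ h_i X_i`, `h ≠ 0`) is divisible by `λ`.
  Proof.  A linear change of coordinates (or a direct parametrisation: `{λ = 0}` has a basis `p, q`; `g(s, t) = F(s p + t q)` is a binary form of degree `m` with more than `m` pairwise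
  non proportional zeros, so `g = 0`); and a form vanishing identically on `{λ = 0}` is divisible by `λ` when `k` is infinite: say `h_0 ≠ 0`, `h_0^m F = λ (..) + R(X_1, X_2)` (substitute
  `h_0 X_0 = λ - h_1 X_1 - h_2 X_2`), `R(x_1, x_2) = h_0^m F(x) = 0` for all points of the line, so `R = 0` (infinite field) and `λ ∣ h_0^m F`.
* `gen_line`: if all forms vanishing at the points are in `(F, G)`, `deg F = c ≤ deg G = d`, `1 ≤ c`, then at most `d` of the (pairwise independent) vectors `w z` are on a line: otherwise `λ ∣ F`, `λ ∣ G`,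
  but they are coprime.
-/

namespace GP80

open MvPolynomial

/-- linear form with given coefficients. -/
noncomputable def Kos_L {k : Type} [Field k] (b : Fin 3 → k) : MvPolynomial (Fin 3) k :=
  ∑ i, C (b i) * X i

theorem Kos_L_eval {k : Type} [Field k] (b x : Fin 3 → k) :
    eval x (Kos_L b) = ∑ i, b i * x i := by
  simp [Kos_L]

theorem Kos_L_hom {k : Type} [Field k] (b : Fin 3 → k) : (Kos_L b).IsHomogeneous 1 := by
  rw [Kos_L]
  apply IsHomogeneous.sum
  intro i _
  have h := (isHomogeneous_C (Fin 3) (b i)).mul (isHomogeneous_X k i)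
  rwa [zero_add] at h

theorem Kos_L_coeff {k : Type} [Field k] (b : Fin 3 → k) (i : Fin 3) :
    eval (Pi.single i 1) (Kos_L b) = b i := by
  rw [Kos_L_eval, Finset.sum_eq_single i]
  · rw [Pi.single_eq_same, mul_one]
  · intro j _ hj
    rw [Pi.single_eq_of_ne hj, mul_zero]
  · intro h
    exact absurd (Finset.mem_univ i) h

theorem Kos_L_ne {k : Type} [Field k] {b : Fin 3 → k} (hb : b ≠ 0) : Kos_L b ≠ 0 := by
  intro h
  apply hb
  funext i
  rw [← Kos_L_coeff b i, h, map_zero]
  rfl

/-- a vector orthogonal to `v` and not proportional to `a`. -/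
theorem Kos_choose {k : Type} [Field k] (v a : Fin 3 → k) :
    ∃ b : Fin 3 → k, b ∉ Submodule.span k {a} ∧ ∑ i, b i * v i = 0 := by
  classical
  obtain ⟨φ, hφ⟩ : ∃ φ : (Fin 3 → k) →ₗ[k] k, ∀ b, φ b = ∑ i, b i * v i := by
    refine ⟨{ toFun := fun b => ∑ i, b i * v i, map_add' := ?_, map_smul' := ?_ }, fun b => rfl⟩
    · intro x y
      simp [add_mul, Finset.sum_add_distrib]
    · intro c x
      simp [Finset.mul_sum, mul_assoc]
  have hrank : Module.finrank k (LinearMap.range φ) + Module.finrank k (LinearMap.ker φ)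
      = Module.finrank k (Fin 3 → k) := LinearMap.finrank_range_add_finrank_ker φ
  have h3 : Module.finrank k (Fin 3 → k) = 3 := by simp
  have h1 : Module.finrank k (LinearMap.range φ) ≤ 1 := by
    have := Submodule.finrank_le (LinearMap.range φ)
    rwa [Module.finrank_self] at this
  have h2 : ¬ LinearMap.ker φ ≤ Submodule.span k {a} := by
    intro hle
    have h4 := Submodule.finrank_mono hle
    have h5 : Module.finrank k (Submodule.span k {a}) ≤ 1 := by
      have := finrank_span_le_card (R := k) ({a} : Set (Fin 3 → k))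
      simpa using this
    omega
  obtain ⟨b, hb, hb'⟩ := Set.not_subset.mp h2
  refine ⟨b, hb', ?_⟩
  rw [← hφ]
  exact hb

theorem Kos_const {k : Type} [Field k] {P Q : MvPolynomial (Fin 3) k} (hP0 : P ≠ 0)
    (hPu : ¬ IsUnit P) {b : Fin 3 → k} (hb : b ≠ 0) (h : Kos_L b = P * Q) :
    ∃ c : k, c ≠ 0 ∧ Q = C c := by
  have hQ0 : Q ≠ 0 := by
    rintro rfl
    rw [mul_zero] at h
    exact Kos_L_ne hb h
  have h1 : (Kos_L b).totalDegree ≤ 1 := (Kos_L_hom b).totalDegree_le
  rw [h, totalDegree_mul_of_isDomain hP0 hQ0] at h1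
  have hP1 : P.totalDegree ≠ 0 := by
    intro h0
    apply hPu
    rw [isUnit_iff_totalDegree_of_isReduced]
    refine ⟨?_, h0⟩
    rw [isUnit_iff_ne_zero]
    intro hc
    rw [totalDegree_eq_zero_iff_eq_C.mp h0, hc, C_0] at hP0
    exact hP0 rfl
  have hQ1 : Q.totalDegree = 0 := by omega
  have hQC := totalDegree_eq_zero_iff_eq_C.mp hQ1
  refine ⟨coeff 0 Q, ?_, hQC⟩
  intro hc
  rw [hQC, hc, C_0] at hQ0
  exact hQ0 rfl

theorem relPrime_of_gen {k I : Type} [Field k] [Fintype I] (w : I → Fin 3 → k) {c d : ℕ}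
    {F G : MvPolynomial (Fin 3) k} (hF : F.IsHomogeneous c) (hG : G.IsHomogeneous d)
    (gen : ∀ t f, MvPolynomial.IsHomogeneous f t → (∀ z, eval (w z) f = 0) → f ∈ Ideal.span {F, G}) :
    IsRelPrime F G := by
  classical
  intro H hHF hHG
  by_contra hu
  have hdvd : ∀ b : I → Fin 3 → k, (∀ z, ∑ i, b z i * w z i = 0) → H ∣ ∏ z, Kos_L (b z) := by
    intro b hb
    have hhom : (∏ z, Kos_L (b z)).IsHomogeneous (∑ _z : I, 1) :=
      IsHomogeneous.prod _ _ _ (fun z _ => Kos_L_hom (b z))
    have hm := gen _ _ hhom (by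
      intro z
      rw [map_prod]
      apply Finset.prod_eq_zero (Finset.mem_univ z)
      rw [Kos_L_eval]
      exact hb z)
    obtain ⟨x, y, hxy⟩ := Ideal.mem_span_pair.mp hm
    rw [← hxy]
    exact dvd_add (Dvd.dvd.mul_left hHF x) (Dvd.dvd.mul_left hHG y)
  choose b hb1 hb2 using fun z : I => Kos_choose (w z) 0
  have hb0 : ∀ z, b z ≠ 0 := by
    intro z h
    apply hb1 z
    rw [h]
    exact Submodule.zero_mem _
  have hH0 : H ≠ 0 := by
    rintro rfl
    have h := zero_dvd_iff.mp (hdvd b hb2)
    rw [Finset.prod_eq_zero_iff] at h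
    obtain ⟨z, _, hz⟩ := h
    exact Kos_L_ne (hb0 z) hz
  obtain ⟨P, hP, hPH⟩ := WfDvdMonoid.exists_irreducible_factor hu hH0
  have hPp : Prime P := hP.prime
  obtain ⟨z0, _, hz0⟩ := hPp.exists_mem_finset_dvd (hPH.trans (hdvd b hb2))
  choose b' hb1' hb2' using fun z : I => Kos_choose (w z) (b z0)
  have hb0' : ∀ z, b' z ≠ 0 := by
    intro z h
    apply hb1' z
    rw [h]
    exact Submodule.zero_mem _
  obtain ⟨z1, _, hz1⟩ := hPp.exists_mem_finset_dvd (hPH.trans (hdvd b' hb2'))
  obtain ⟨Q, hQ⟩ := hz0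
  obtain ⟨Q', hQ'⟩ := hz1
  obtain ⟨e, he0, he⟩ := Kos_const hP.ne_zero hP.not_isUnit (hb0 z0) hQ
  obtain ⟨e', he0', he'⟩ := Kos_const hP.ne_zero hP.not_isUnit (hb0' z1) hQ'
  apply hb1' z1
  rw [Submodule.mem_span_singleton]
  refine ⟨e' / e, ?_⟩
  funext i
  have h1 := Kos_L_coeff (b z0) i
  have h2 := Kos_L_coeff (b' z1) i
  rw [hQ, he, map_mul, eval_C] at h1
  rw [hQ', he', map_mul, eval_C] at h2
  rw [Pi.smul_apply, smul_eq_mul, ← h1, ← h2]
  field_simp

theorem Kos_scale {k : Type} [Field k] {m : ℕ} {F : MvPolynomial (Fin 3) k}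
    (hF : F.IsHomogeneous m) (c : k) (v : Fin 3 → k) : eval (c • v) F = c ^ m * eval v F := by
  rw [eval_eq', eval_eq', Finset.mul_sum]
  apply Finset.sum_congr rfl
  intro e he
  have h1 : e.weight 1 = m := hF (mem_support_iff.mp he)
  have h2 : ∑ i, e i = m := by
    rw [← h1]
    simp [Finsupp.weight_apply, Finsupp.sum_fintype]
  have h3 : ∏ i, (c • v) i ^ e i = c ^ m * ∏ i, v i ^ e i := by
    simp only [Pi.smul_apply, smul_eq_mul, mul_pow]
    rw [Finset.prod_mul_distrib, Finset.prod_pow_eq_pow_sum, h2]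
  rw [h3]
  ring

theorem Kos_aeval {k : Type} [Field k] (F : MvPolynomial (Fin 3) k) (f : Fin 3 → Polynomial k)
    (T : k) : (aeval f F).eval T = eval (fun i => (f i).eval T) F := by
  induction F using MvPolynomial.induction_on with
  | C a => simp
  | add p q hp hq => rw [map_add, Polynomial.eval_add, hp, hq, map_add]
  | mul_X p i hp => rw [map_mul, Polynomial.eval_mul, hp, aeval_X, map_mul, eval_X]

/-- three vectors on a line are dependent. -/
theorem Kos_dep {k : Type} [Field k] (h p y x : Fin 3 → k) (hh : h ≠ 0)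
    (hp : ∑ i, h i * p i = 0) (hy : ∑ i, h i * y i = 0) (hx : ∑ i, h i * x i = 0)
    (hind : ∀ a b : k, a • p + b • y = 0 → a = 0 ∧ b = 0) :
    ∃ s t : k, x = s • p + t • y := by
  have hdet : (Matrix.of ![x, p, y] : Matrix (Fin 3) (Fin 3) k).det = 0 := by
    rw [← Matrix.exists_mulVec_eq_zero_iff]
    refine ⟨h, hh, ?_⟩
    funext i
    fin_cases i
    · simp only [Matrix.mulVec, dotProduct, Fin.zero_eta, Matrix.of_apply, Matrix.cons_val_zero,
        Pi.zero_apply]
      rw [← hx]
      exact Finset.sum_congr rfl (fun i _ => mul_comm _ _)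
    · simp only [Matrix.mulVec, dotProduct, Fin.mk_one, Matrix.of_apply, Matrix.cons_val_one,
        Matrix.cons_val_zero, Pi.zero_apply]
      rw [← hp]
      exact Finset.sum_congr rfl (fun i _ => mul_comm _ _)
    · simp only [Matrix.mulVec, dotProduct, Fin.reduceFinMk, Matrix.of_apply, Matrix.cons_val,
        Pi.zero_apply]
      rw [← hy]
      exact Finset.sum_congr rfl (fun i _ => mul_comm _ _)
  rw [← Matrix.exists_vecMul_eq_zero_iff] at hdet
  obtain ⟨v, hv0, hv⟩ := hdet
  have hrel : ∀ i, v 0 * x i + v 1 * p i + v 2 * y i = 0 := by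
    intro i
    have h1 := congrFun hv i
    simpa [Matrix.vecMul, dotProduct, Fin.sum_univ_three] using h1
  by_cases h0 : v 0 = 0
  · exfalso
    apply hv0
    have h1 := hind (v 1) (v 2) (by
      funext i
      have := hrel i
      rw [h0, zero_mul, zero_add] at this
      simpa using this)
    funext i
    fin_cases i
    · exact h0
    · exact h1.1
    · exact h1.2
  · refine ⟨-(v 1 / v 0), -(v 2 / v 0), ?_⟩
    funext i
    have h1 := hrel i
    simp only [Pi.add_apply, Pi.smul_apply, smul_eq_mul]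
    field_simp
    linear_combination h1

theorem Kos_plane {k I : Type} [Field k] [Infinite k] (w : I → Fin 3 → k) (A : Finset I)
    (hw : ∀ z ∈ A, ∀ z' ∈ A, z ≠ z' → LinearIndependent k ![w z, w z']) {m : ℕ}
    {F : MvPolynomial (Fin 3) k} (hF : F.IsHomogeneous m) (h : Fin 3 → k) (hh : h ≠ 0)
    (hA : ∀ z ∈ A, ∑ i, h i * w z i = 0) (hv : ∀ z ∈ A, eval (w z) F = 0) (hm : m < A.card)
    (y : Fin 3 → k) (hy : ∑ i, h i * y i = 0) : eval y F = 0 := by
  classical
  by_cases hcase : ∃ z ∈ A, ∃ c : k, y = c • w z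
  · obtain ⟨z, hz, c, rfl⟩ := hcase
    rw [Kos_scale hF, hv z hz, mul_zero]
  push Not at hcase
  obtain ⟨z0, hz0⟩ : A.Nonempty := Finset.card_pos.mp (by omega)
  rcases Nat.eq_zero_or_pos m with hm0 | hm0
  · subst hm0
    have h1 := Kos_scale hF 0 y
    have h2 := Kos_scale hF 0 (w z0)
    rw [zero_smul, pow_zero, one_mul] at h1 h2
    rw [← h1, h2, hv z0 hz0]
  have hw0 : ∀ z ∈ A, w z ≠ 0 := by
    intro z hz h0
    obtain ⟨z', hz', hne⟩ := Finset.exists_mem_ne (by omega : 1 < A.card) z
    have h1 := hw z hz z' hz' hne.symm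
    exact h1.ne_zero 0 (by simpa using h0)
  have hind : ∀ a b : k, a • w z0 + b • y = 0 → a = 0 ∧ b = 0 := by
    intro a b hab
    have hb : b = 0 := by
      by_contra hb
      apply hcase z0 hz0 (-(a / b))
      funext i
      have h1 := congrFun hab i
      simp only [Pi.add_apply, Pi.smul_apply, smul_eq_mul, Pi.zero_apply] at h1 ⊢
      field_simp
      linear_combination h1
    subst hb
    rw [zero_smul, add_zero] at hab
    rcases smul_eq_zero.mp hab with h1 | h1
    · exact ⟨h1, rfl⟩
    · exact absurd h1 (hw0 z0 hz0)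
  have hst : ∀ z ∈ A, ∃ s t : k, s ≠ 0 ∧ w z = s • w z0 + t • y := by
    intro z hz
    obtain ⟨s, t, hst⟩ := Kos_dep h (w z0) y (w z) hh (hA z0 hz0) hy (hA z hz) hind
    refine ⟨s, t, ?_, hst⟩
    rintro rfl
    rw [zero_smul, zero_add] at hst
    have ht : t ≠ 0 := by
      rintro rfl
      rw [zero_smul] at hst
      exact hw0 z hz hst
    apply hcase z hz t⁻¹
    rw [hst, smul_smul, inv_mul_cancel₀ ht, one_smul]
  choose! s t hs hst using hst
  obtain ⟨G, hG⟩ : ∃ G : Polynomial k, G = aeval (fun i => Polynomial.C (w z0 i) +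
      Polynomial.C (y i) * Polynomial.X) F := ⟨_, rfl⟩
  have hGe : ∀ T : k, G.eval T = eval (w z0 + T • y) F := by
    intro T
    rw [hG, Kos_aeval]
    congr 2
    funext i
    simp
    ring
  have hG0 : G = 0 := by
    apply Polynomial.eq_zero_of_natDegree_lt_card_of_eval_eq_zero' G
      (A.image (fun z => t z / s z))
    · intro T hT
      rw [Finset.mem_image] at hT
      obtain ⟨z, hz, rfl⟩ := hT
      rw [hGe]
      have h1 : w z0 + (t z / s z) • y = (s z)⁻¹ • w z := by
        rw [hst z hz, smul_add, smul_smul, smul_smul, inv_mul_cancel₀ (hs z hz), one_smul]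
        congr 2
        field_simp
      rw [h1, Kos_scale hF, hv z hz, mul_zero]
    · rw [Finset.card_image_of_injOn]
      · have h1 : G.natDegree ≤ m * 1 := by
          rw [hG]
          apply aeval_natDegree_le F hF.totalDegree_le
          intro i
          refine (Polynomial.natDegree_add_le _ _).trans ?_
          rw [Polynomial.natDegree_C]
          exact max_le (by omega) ((Polynomial.natDegree_C_mul_le _ _).trans
            Polynomial.natDegree_X_le)
        omega
      · intro z hz z' hz' hzz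
        by_contra hne
        have h1 := hw z hz z' hz' hne
        rw [LinearIndependent.pair_iff] at h1
        have h2 := h1 (s z') (-(s z)) (by
          have hz1 : t z = (t z / s z) * s z := by
            rw [div_mul_cancel₀ _ (hs z hz)]
          have hz2 : t z' = (t z / s z) * s z' := by
            have : t z / s z = t z' / s z' := hzz
            rw [this, div_mul_cancel₀ _ (hs z' hz')]
          rw [hst z hz, hst z' hz']
          funext i
          simp only [Pi.add_apply, Pi.smul_apply, smul_eq_mul, Pi.zero_apply]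
          rw [hz2]
          field_simp [hs z hz]
          ring)
        exact hs z' hz' h2.1
  obtain ⟨H, hH⟩ : ∃ H : Polynomial k, H = aeval (fun i => Polynomial.C (y i) +
      Polynomial.C (w z0 i) * Polynomial.X) F := ⟨_, rfl⟩
  have hHe : ∀ T : k, H.eval T = eval (y + T • w z0) F := by
    intro T
    rw [hH, Kos_aeval]
    congr 2
    funext i
    simp
    ring
  have hH0 : H = 0 := by
    apply Polynomial.eq_zero_of_infinite_isRoot
    apply ((Set.finite_singleton (0 : k)).infinite_compl).mono
    intro T hT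
    have hT0 : T ≠ 0 := hT
    change H.eval T = 0
    rw [hHe]
    have h1 : y + T • w z0 = T • (w z0 + T⁻¹ • y) := by
      rw [smul_add, smul_smul, mul_inv_cancel₀ hT0, one_smul, add_comm]
    rw [h1, Kos_scale hF, ← hGe, hG0, Polynomial.eval_zero, mul_zero]
  have hfin := hHe 0
  rw [hH0, Polynomial.eval_zero, zero_smul, add_zero] at hfin
  exact hfin.symm

theorem line_dvd {k I : Type} [Field k] [Infinite k] (w : I → Fin 3 → k) (A : Finset I)
    (hw : ∀ z ∈ A, ∀ z' ∈ A, z ≠ z' → LinearIndependent k ![w z, w z']) {m : ℕ}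
    {F : MvPolynomial (Fin 3) k} (hF : F.IsHomogeneous m) (h : Fin 3 → k) (hh : h ≠ 0)
    (hA : ∀ z ∈ A, ∑ i, h i * w z i = 0) (hv : ∀ z ∈ A, eval (w z) F = 0) (hm : m < A.card) :
    (∑ i, C (h i) * X i : MvPolynomial (Fin 3) k) ∣ F := by
  classical
  change Kos_L h ∣ F
  have hpl := Kos_plane w A hw hF h hh hA hv hm
  obtain ⟨j, hj⟩ : ∃ j, h j ≠ 0 := by
    by_contra hcon
    push Not at hcon
    exact hh (funext hcon)
  obtain ⟨g, hg⟩ : ∃ g : Fin 3 → MvPolynomial (Fin 3) k, g = fun i =>
      X i - C (if i = j then (h j)⁻¹ else 0) * Kos_L h := ⟨_, rfl⟩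
  have hdvd : ∀ P : MvPolynomial (Fin 3) k, Kos_L h ∣ P - aeval g P := by
    intro P
    induction P using MvPolynomial.induction_on with
    | C a => simp
    | add p q hp hq =>
      rw [map_add, add_sub_add_comm]
      exact dvd_add hp hq
    | mul_X p i hp =>
      rw [map_mul, aeval_X]
      have h1 : p * X i - aeval g p * g i = (p - aeval g p) * X i + aeval g p * (X i - g i) := by
        ring
      rw [h1]
      apply dvd_add (Dvd.dvd.mul_right hp _)
      apply Dvd.dvd.mul_left
      rw [hg]
      simp only [sub_sub_cancel]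
      exact Dvd.intro_left _ rfl
  have hzero : aeval g F = 0 := by
    apply MvPolynomial.funext
    intro x
    rw [map_zero]
    have h1 : eval x (aeval g F) = eval (fun i => eval x (g i)) F := by
      have hgen : ∀ P : MvPolynomial (Fin 3) k,
          eval x (aeval g P) = eval (fun i => eval x (g i)) P := by
        intro P
        induction P using MvPolynomial.induction_on with
        | C a => simp
        | add p q hp hq => rw [map_add, map_add, hp, hq, map_add]
        | mul_X p i hp => rw [map_mul, map_mul, hp, aeval_X, map_mul, eval_X]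
      exact hgen F
    rw [h1]
    apply hpl
    have h2 : ∀ i, eval x (g i) = x i - (if i = j then (h j)⁻¹ else 0) * eval x (Kos_L h) := by
      intro i
      rw [hg]
      simp
    simp only [h2, Kos_L_eval, mul_sub, Finset.sum_sub_distrib]
    have h3 : ∑ i, h i * ((if i = j then (h j)⁻¹ else 0) * ∑ l, h l * x l)
        = ∑ l, h l * x l := by
      rw [Finset.sum_eq_single j]
      · rw [if_pos rfl, ← mul_assoc, mul_inv_cancel₀ hj, one_mul]
      · intro i _ hi
        rw [if_neg hi, zero_mul, mul_zero]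
      · intro hi
        exact absurd (Finset.mem_univ j) hi
    rw [h3, sub_self]
  have h4 := hdvd F
  rwa [hzero, sub_zero] at h4

theorem gen_line {k I : Type} [Field k] [Infinite k] [Fintype I] (w : I → Fin 3 → k)
    (hw : ∀ z z', z ≠ z' → LinearIndependent k ![w z, w z']) {c d : ℕ} (hcd : c ≤ d)
    {F G : MvPolynomial (Fin 3) k} (hF : F.IsHomogeneous c) (hG : G.IsHomogeneous d)
    (vF : ∀ z, eval (w z) F = 0) (vG : ∀ z, eval (w z) G = 0)
    (gen : ∀ t f, MvPolynomial.IsHomogeneous f t → (∀ z, eval (w z) f = 0) → f ∈ Ideal.span {F, G})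
    (h : Fin 3 → k) (hh : h ≠ 0) : Nat.card {z : I // ∑ i, h i * w z i = 0} ≤ d := by
  classical
  by_contra hcon
  push Not at hcon
  obtain ⟨A, hA⟩ : ∃ A : Finset I, A = Finset.univ.filter (fun z => ∑ i, h i * w z i = 0) :=
    ⟨_, rfl⟩
  have hcard : Nat.card {z : I // ∑ i, h i * w z i = 0} = A.card := by
    rw [Nat.card_eq_fintype_card, Fintype.card_subtype, hA]
  rw [hcard] at hcon
  have hAm : ∀ z ∈ A, ∑ i, h i * w z i = 0 := by
    intro z hz
    rw [hA, Finset.mem_filter] at hz
    exact hz.2
  have h1 := line_dvd w A (fun z _ z' _ hne => hw z z' hne) hF h hh hAm (fun z _ => vF z)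
    (by omega)
  have h2 := line_dvd w A (fun z _ z' _ hne => hw z z' hne) hG h hh hAm (fun z _ => vG z) hcon
  have h3 := relPrime_of_gen w hF hG gen h1 h2
  have h4 := h3.map (eval (0 : Fin 3 → k))
  rw [show (∑ i, C (h i) * X i : MvPolynomial (Fin 3) k) = Kos_L h from rfl, Kos_L_eval] at h4
  simp at h4

end GP80
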