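import Mathlib
import Pool.Agent.H80.GP.GDefs
import Pool.Agent.H80.GP.Ga1
import Pool.Agent.H80.GP.Ga2
import Pool.Agent.H80.GP.Ga3
import Pool.Agent.H80.GP.Kos

/-!
# Row Kgn (MP_87ed0a_GP): generation over localizations, over the fraction field; collinear points  (about 170 lines)

`O` a localization of `RR` at `M ≤ nonZeroDivisors`, `P_i` a unit of `O`, `z_i ≠ 0` for all points.
* `vz_eval_zero`: `chartH O i H` vanishes at `vz O i (z s)` if `EE H = 0`, `H` `x`-homogeneous, `atz (z s) H = 0` (`chart_eval`; `O` a domain or: `C (z_i^t)` maps to a unit).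
* `lift_form`: a form `f` of degree `t` over `O` vanishing at the points: there are `u ∈ M` and an `E`-invariant `H ∈ BB`, `x`-homogeneous of degree `t`, `atz (z s) H = 0` for all `s`,
  with `chartH O i H = C (algebraMap (u X_i^t)) * f`.  Proof: `clear_den` gives `u`, `f0`; `H := hlift i f0`; `atz_hlift`: `atz z H = f0(P_i z' - z_i P')`, whose image in `O` is
  `f0(P_i z_i v) = (P_i z_i)^t f0(v) = 0` (`vz_scale`), and `algebraMap` is injective; `chart_hlift`.
* `gen_O`: with `Glob`, for such `f`: there is `r ∈ RR`, `r ≠ 0`, with `C (algebraMap r) * f ∈ span {chartH O i F, chartH O i G}`: apply `gen` to `H` and then the ring hom `chartH O i`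
  (`chart_inP`; the image of `span {F, G}` is in `span` of the images): `r := r' u X_i^t`.
* `gen_K`: `O = K = FractionRing RR`: every form vanishing at the points is in the ideal, so (`relPrime_of_gen`) the two forms are coprime in `K[X]`.
* `indep_K`: the vectors `vz K i (z s)` are pairwise independent, given `Geom`: a relation `a v + a' v' = 0`, `(a,a') ≠ 0`, multiply by `P_i`, get `P ∈ span_K (z, z')` with `z = z s`, `z' = z s'` in `K^4`,
  so all `3 × 3` minors of `(z, z', P)` vanish; a linear form in `P`: `det` of the `3 × 3` minors is `∑ ± (2 × 2 minor of z, z') P_l`, some `2 × 2` minor is nonzero: contradiction with the independence of the `P_l`.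
* `col_bound`: `ColB z d`.  The points `z t` in the span of `z s, z s'` satisfy `h(v_t) = 0`, `h := v_s × v_s'` (cross product over `K`; `v_t` is in the span of `v_s, v_s'` because the map `z ↦ z_i v_z` is linear in `z`);
  `h ≠ 0` by independence; `gen_line`.
-/

namespace GP80

open MvPolynomial

private theorem Kgn_scale {O : Type} [CommRing O] (c : O) (v : Fin 3 → O) {t : ℕ}
    (f : MvPolynomial (Fin 3) O) (hf : f.IsHomogeneous t) :
    eval (fun j => c * v j) f = c ^ t * eval v f := by
  rw [eval_eq, eval_eq, Finset.mul_sum]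
  refine Finset.sum_congr rfl fun d hd => ?_
  have h1 : d.degree = t := by
    have := hf (mem_support_iff.1 hd)
    rw [Finsupp.degree_eq_weight_one]
    exact this
  have h2 : ∏ i ∈ d.support, (c * v i) ^ d i = c ^ t * ∏ i ∈ d.support, v i ^ d i := by
    simp only [mul_pow]
    rw [Finset.prod_mul_distrib, Finset.prod_pow_eq_pow_sum]
    congr 2
  rw [h2]
  ring

private theorem Kgn_third : ∀ i m : Fin 4, ∃ n : Fin 4, n ≠ i ∧ n ≠ m := by decide

private theorem Kgn_minor {i : Fin 4} {z z' : Fin 4 → ℂ} (h : LinearIndependent ℂ ![z, z'])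
    (hz : z i ≠ 0) : ∃ m, z i * z' m - z m * z' i ≠ 0 := by
  by_contra hcon
  push Not at hcon
  rw [LinearIndependent.pair_iff] at h
  have := h (- z' i) (z i) (by
    funext m
    simp only [Pi.add_apply, Pi.smul_apply, smul_eq_mul, Pi.zero_apply]
    linear_combination hcon m)
  exact hz this.2

theorem vz_eval_zero (O : Type) [CommRing O] [Algebra RR O] (i : Fin 4)
    (hu : IsUnit (algebraMap RR O (X i))) {H : BB} {t : ℕ} (h : IsWeightedHomogeneous wx H t)
    (hE : EE H = 0) {z : Fin 4 → ℂ} (hz : z i ≠ 0) (h0 : atz z H = 0) :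
    eval (vz O i z) (chartH O i H) = 0 := by
  have hc := chart_eval O i hu h hE hz
  rw [h0, map_zero] at hc
  have hun : IsUnit (algebraMap RR O (C (z i ^ t))) := by
    have : IsUnit (C (z i ^ t) : RR) := (isUnit_iff_ne_zero.2 (pow_ne_zero t hz)).map (C : ℂ →+* RR)
    exact this.map (algebraMap RR O)
  have := hc.symm
  exact (hun.mul_right_eq_zero).1 this

theorem lift_form {O I : Type} [CommRing O] [IsDomain O] [Algebra RR O] (M : Submonoid RR)
    [IsLocalization M O] (hM : M ≤ nonZeroDivisors RR) (i : Fin 4) (hu : IsUnit (algebraMap RR O (X i)))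
    (z : I → Fin 4 → ℂ) (hz : ∀ s, z s i ≠ 0) {t : ℕ} {f : MvPolynomial (Fin 3) O}
    (hf : f.IsHomogeneous t) (h0 : ∀ s, eval (vz O i (z s)) f = 0) :
    ∃ u ∈ M, ∃ H : BB, IsWeightedHomogeneous wx H t ∧ EE H = 0 ∧ (∀ s, atz (z s) H = 0) ∧
      chartH O i H = C (algebraMap RR O (u * X i ^ t)) * f := by
  obtain ⟨u, huM, f0, hf0, hhom⟩ := clear_den M hM f
  refine ⟨u, huM, hlift i f0, hlift_wx i (hhom t hf), hlift_EE i f0, ?_, ?_⟩
  · intro s
    apply IsLocalization.injective O hM
    rw [map_zero, atz_hlift, eval₂_comp, ← eval_map, ← hf0]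
    have e1 : (algebraMap RR O ∘ fun j => X i * C (z s (i.succAbove j)) - C (z s i) * X (i.succAbove j)) =
        fun j => algebraMap RR O (X i * C (z s i)) * vz O i (z s) j := by
      funext j
      exact vz_scale O i hu (hz s) j
    rw [e1, hf0, Kgn_scale _ _ _ ((hhom t hf).map _), ← hf0, (eval _).map_mul, h0 s, mul_zero, mul_zero]
  · rw [chart_hlift O i (hhom t hf), ← hf0, map_mul, C_mul]
    ring

theorem gen_O {O I : Type} [CommRing O] [IsDomain O] [Algebra RR O] (M : Submonoid RR)
    [IsLocalization M O] (hM : M ≤ nonZeroDivisors RR) (i : Fin 4) (hu : IsUnit (algebraMap RR O (X i)))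
    [Fintype I] (z : I → Fin 4 → ℂ) (hz : ∀ s, z s i ≠ 0) {c d f f' : ℕ} {F G : BB}
    (h : Glob z c d f f' F G) {t : ℕ} {g : MvPolynomial (Fin 3) O}
    (hg : g.IsHomogeneous t) (h0 : ∀ s, eval (vz O i (z s)) g = 0) :
    ∃ r : RR, r ≠ 0 ∧ C (algebraMap RR O r) * g ∈ Ideal.span {chartH O i F, chartH O i G} := by
  obtain ⟨u, huM, H, hHx, hHE, hHz, hHc⟩ := lift_form M hM i hu z hz hg h0
  obtain ⟨r', hr', hmem⟩ := h.gen t H hHx hHE hHz
  refine ⟨r' * (u * X i ^ t), ?_, ?_⟩
  · have hu0 : u ≠ 0 := nonZeroDivisors.ne_zero (hM huM)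
    exact mul_ne_zero hr' (mul_ne_zero hu0 (pow_ne_zero t (X_ne_zero i)))
  · have h1 := Ideal.mem_map_of_mem (chartH O i) hmem
    rw [Ideal.map_span, Set.image_pair, map_mul, chart_inP, hHc, ← mul_assoc, ← C_mul, ← map_mul] at h1
    exact h1

theorem gen_K {I : Type} [Fintype I] (i : Fin 4) (z : I → Fin 4 → ℂ) (hz : ∀ s, z s i ≠ 0)
    {c d f f' : ℕ} {F G : BB} (h : Glob z c d f f' F G) {t : ℕ}
    {g : MvPolynomial (Fin 3) (FractionRing RR)} (hg : g.IsHomogeneous t)
    (h0 : ∀ s, eval (vz (FractionRing RR) i (z s)) g = 0) :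
    g ∈ Ideal.span {chartH (FractionRing RR) i F, chartH (FractionRing RR) i G} := by
  have hu : IsUnit (algebraMap RR (FractionRing RR) (X i)) := by
    rw [isUnit_iff_ne_zero]
    exact (map_ne_zero_iff _ (IsFractionRing.injective RR (FractionRing RR))).2 (X_ne_zero i)
  obtain ⟨r, hr, hmem⟩ := gen_O (O := FractionRing RR) (nonZeroDivisors RR) le_rfl i hu z hz h hg h0
  have hr2 : IsUnit (C (algebraMap RR (FractionRing RR) r) : MvPolynomial (Fin 3) (FractionRing RR)) := by
    have : IsUnit (algebraMap RR (FractionRing RR) r) := by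
      rw [isUnit_iff_ne_zero]
      exact (map_ne_zero_iff _ (IsFractionRing.injective RR (FractionRing RR))).2 hr
    exact this.map (C : FractionRing RR →+* MvPolynomial (Fin 3) (FractionRing RR))
  exact (Ideal.unit_mul_mem_iff_mem _ hr2).1 hmem

theorem cop_K {I : Type} [Fintype I] (i : Fin 4) (z : I → Fin 4 → ℂ) (hz : ∀ s, z s i ≠ 0)
    {c d f f' : ℕ} {F G : BB} (h : Glob z c d f f' F G) :
    IsRelPrime (chartH (FractionRing RR) i F) (chartH (FractionRing RR) i G) := by
  exact relPrime_of_gen (fun s => vz (FractionRing RR) i (z s)) (chart_homog _ i h.Fx)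
    (chart_homog _ i h.Gx) (fun t f hf h0 => gen_K i z hz h hf h0)

theorem indep_K (i : Fin 4) {z z' : Fin 4 → ℂ} (hz : z i ≠ 0) (hz' : z' i ≠ 0)
    (h : LinearIndependent ℂ ![z, z']) :
    LinearIndependent (FractionRing RR) ![vz (FractionRing RR) i z, vz (FractionRing RR) i z'] := by
  rw [LinearIndependent.pair_iff]
  intro a b hab
  have inj := IsFractionRing.injective RR (FractionRing RR)
  have hX : ∀ l : Fin 4, algebraMap RR (FractionRing RR) (X l) ≠ 0 := fun l =>
    (map_ne_zero_iff _ inj).2 (X_ne_zero l)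
  set φ : ℂ →+* FractionRing RR := (algebraMap RR (FractionRing RR)).comp (C : ℂ →+* RR) with hφ
  have hφi : Function.Injective φ := φ.injective
  -- full coordinates
  have key : ∀ l : Fin 4, a * (φ (z l) / φ (z i)) + b * (φ (z' l) / φ (z' i)) =
      (a + b) * (algebraMap RR (FractionRing RR) (X l) / algebraMap RR (FractionRing RR) (X i)) := by
    intro l
    by_cases hl : l = i
    · subst hl
      rw [div_self ((map_ne_zero_iff _ hφi).2 hz), div_self ((map_ne_zero_iff _ hφi).2 hz'),
        div_self (hX l)]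
      ring
    · obtain ⟨j, rfl⟩ := Fin.exists_succAbove_eq hl
      have h1 := congrFun hab j
      simp only [Pi.add_apply, Pi.smul_apply, smul_eq_mul, Pi.zero_apply, vz] at h1
      rw [Ring.inverse_eq_inv'] at h1
      have e1 : algebraMap RR (FractionRing RR) (C (z (i.succAbove j) / z i)) =
          φ (z (i.succAbove j)) / φ (z i) := by
        rw [← map_div₀]; rfl
      have e2 : algebraMap RR (FractionRing RR) (C (z' (i.succAbove j) / z' i)) =
          φ (z' (i.succAbove j)) / φ (z' i) := by
        rw [← map_div₀]; rfl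
      rw [e1, e2] at h1
      rw [div_eq_mul_inv (algebraMap RR (FractionRing RR) (X (i.succAbove j)))]
      linear_combination h1
  obtain ⟨m, hm⟩ := Kgn_minor h hz
  set D : ℂ := z i * z' m - z m * z' i with hD
  have hmi : m ≠ i := by
    rintro rfl
    apply hm
    rw [hD]; ring
  have hφD : φ D ≠ 0 := (map_ne_zero_iff _ hφi).2 hm
  have hφz : φ (z i) ≠ 0 := (map_ne_zero_iff _ hφi).2 hz
  have hφz' : φ (z' i) ≠ 0 := (map_ne_zero_iff _ hφi).2 hz'
  have hφDe : φ D = φ (z i) * φ (z' m) - φ (z m) * φ (z' i) := by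
    rw [hD, map_sub, map_mul, map_mul]
  by_cases hγ : a + b = 0
  · have hb : b = - a := by linear_combination hγ
    have h1 := key m
    rw [hγ, zero_mul, hb] at h1
    field_simp at h1
    have h2 : a * φ D = 0 := by
      rw [hφDe]
      linear_combination (-1 : FractionRing RR) * h1
    have ha : a = 0 := by
      rcases mul_eq_zero.1 h2 with h3 | h3
      · exact h3
      · exact absurd h3 hφD
    exact ⟨ha, by rw [hb, ha, neg_zero]⟩
  · exfalso
    obtain ⟨n, hni, hnm⟩ : ∃ n : Fin 4, n ≠ i ∧ n ≠ m := Kgn_third i m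
    have k0 := key i
    have k1 := key m
    have k2 := key n
    set x : Fin 4 → FractionRing RR := fun l => algebraMap RR (FractionRing RR) (X l) with hx
    have hxi : x i ≠ 0 := hX i
    have kk : ∀ l, a / φ (z i) * φ (z l) + b / φ (z' i) * φ (z' l) = (a + b) / x i * x l := by
      intro l
      have := key l
      have e : (a + b) / x i * x l = (a + b) * (algebraMap RR (FractionRing RR) (X l) /
        algebraMap RR (FractionRing RR) (X i)) := by
        simp only [hx]
        ring
      rw [e, ← this]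
      ring
    have hdet : (a + b) / x i * (x i * (φ (z m) * φ (z' n) - φ (z n) * φ (z' m)) -
        x m * (φ (z i) * φ (z' n) - φ (z n) * φ (z' i)) +
        x n * (φ (z i) * φ (z' m) - φ (z m) * φ (z' i))) = 0 := by
      have a1 := kk i
      have a2 := kk m
      have a3 := kk n
      linear_combination (-(φ (z m) * φ (z' n) - φ (z n) * φ (z' m))) * a1 +
        (φ (z i) * φ (z' n) - φ (z n) * φ (z' i)) * a2 -
        (φ (z i) * φ (z' m) - φ (z m) * φ (z' i)) * a3
    have hdet2 : x i * (φ (z m) * φ (z' n) - φ (z n) * φ (z' m)) -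
        x m * (φ (z i) * φ (z' n) - φ (z n) * φ (z' i)) +
        x n * (φ (z i) * φ (z' m) - φ (z m) * φ (z' i)) = 0 := by
      rcases mul_eq_zero.1 hdet with h3 | h3
      · exact absurd h3 (div_ne_zero hγ hxi)
      · exact h3
    have hpoly : (X i * C (z m * z' n - z n * z' m) - X m * C (z i * z' n - z n * z' i) +
        X n * C D : RR) = 0 := by
      apply inj
      rw [map_zero, ← hdet2]
      simp only [hx, hφ, hD, map_add, map_sub, map_mul, RingHom.comp_apply]
    have hev := congrArg (eval (Pi.single n (1 : ℂ))) hpoly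
    simp only [map_add, map_sub, map_mul, eval_X, eval_C, map_zero] at hev
    rw [Pi.single_eq_of_ne hni.symm, Pi.single_eq_of_ne hnm.symm, Pi.single_eq_same] at hev
    apply hm
    linear_combination hev

theorem col_bound {I : Type} [Fintype I] (z : I → Fin 4 → ℂ) (hz : Geom z)
    {c d f f' : ℕ} {F G : BB} (h : Glob z c d f f' F G) : ColB z d := by
  intro s s' hss
  set w : I → Fin 3 → FractionRing RR := fun t => vz (FractionRing RR) 0 (z t) with hw
  have hco : ∀ s, z s 0 ≠ 0 := fun s => hz.co s 0
  have hind : ∀ t t', t ≠ t' → LinearIndependent (FractionRing RR) ![w t, w t'] := fun t t' htt =>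
    indep_K 0 (hco t) (hco t') (hz.ind t t' htt)
  have hinf : Infinite (FractionRing RR) :=
    Infinite.of_injective _ (IsFractionRing.injective RR (FractionRing RR))
  have hu : IsUnit (algebraMap RR (FractionRing RR) (X 0)) := by
    rw [isUnit_iff_ne_zero]
    exact (map_ne_zero_iff _ (IsFractionRing.injective RR (FractionRing RR))).2 (X_ne_zero 0)
  have hne : crossProduct (w s) (w s') ≠ 0 :=
    crossProduct_ne_zero_iff_linearIndependent.2 (hind s s' hss)
  have hle := gen_line w hind h.cd (chart_homog (FractionRing RR) 0 h.Fx)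
    (chart_homog (FractionRing RR) 0 h.Gx)
    (fun t => vz_eval_zero _ 0 hu h.Fx h.FE (hco t) (h.Fz t))
    (fun t => vz_eval_zero _ 0 hu h.Gx h.GE (hco t) (h.Gz t))
    (fun t f hf h0 => gen_K 0 z hco h hf h0) (crossProduct (w s) (w s')) hne
  refine le_trans ?_ hle
  have hsub : ∀ t : I, z t ∈ Submodule.span ℂ {z s, z s'} →
      ∑ j, (crossProduct (w s) (w s')) j * w t j = 0 := by
    intro t ht
    obtain ⟨a, b, hab⟩ := Submodule.mem_span_pair.1 ht
    have hs : ∀ (r : I) (j : Fin 3), algebraMap RR (FractionRing RR) (X 0 * C (z r (Fin.succAbove 0 j)) -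
        C (z r 0) * X (Fin.succAbove 0 j)) = algebraMap RR (FractionRing RR) (X 0 * C (z r 0)) * w r j :=
      fun r j => vz_scale _ 0 hu (hco r) j
    set c : I → FractionRing RR := fun r => algebraMap RR (FractionRing RR) (X 0 * C (z r 0)) with hc
    have hc0 : ∀ r, c r ≠ 0 := by
      intro r
      refine (map_ne_zero_iff _ (IsFractionRing.injective RR (FractionRing RR))).2 ?_
      exact mul_ne_zero (X_ne_zero 0) ((map_ne_zero_iff _ (C_injective _ _)).2 (hco r))
    have hlin : ∀ j, c t * w t j = algebraMap RR (FractionRing RR) (C a) * (c s * w s j) +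
        algebraMap RR (FractionRing RR) (C b) * (c s' * w s' j) := by
      intro j
      rw [hc]
      simp only []
      rw [← hs t j, ← hs s j, ← hs s' j, ← map_mul, ← map_mul, ← map_add, ← hab]
      congr 1
      simp only [Pi.add_apply, Pi.smul_apply, smul_eq_mul, map_add, map_mul]
      ring
    have h1 : c t * ∑ j, (crossProduct (w s) (w s')) j * w t j = 0 := by
      have d1 := dot_cross_self (w s) (w s')
      have d2 := dot_self_cross (w s) (w s')
      simp only [dotProduct] at d1 d2
      rw [Finset.mul_sum]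
      calc ∑ j, c t * ((crossProduct (w s) (w s')) j * w t j)
          = algebraMap RR (FractionRing RR) (C a) * c s * ∑ j, w s j * (crossProduct (w s) (w s')) j +
            algebraMap RR (FractionRing RR) (C b) * c s' * ∑ j, w s' j * (crossProduct (w s) (w s')) j := by
            rw [Finset.mul_sum, Finset.mul_sum, ← Finset.sum_add_distrib]
            refine Finset.sum_congr rfl fun j _ => ?_
            linear_combination (crossProduct (w s) (w s')) j * hlin j
        _ = 0 := by rw [d1, d2]; ring
    rcases mul_eq_zero.1 h1 with h2 | h2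
    · exact absurd h2 (hc0 t)
    · exact h2
  exact Nat.card_le_card_of_injective
    (fun t : {t : I // z t ∈ Submodule.span ℂ {z s, z s'}} =>
      (⟨t.1, hsub t.1 t.2⟩ : {t : I // ∑ j, (crossProduct (w s) (w s')) j * w t j = 0}))
    (fun t t' htt => Subtype.ext (congrArg (fun x => x.1) htt))

end GP80
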