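import Mathlib
import Pool.Agent.H80.GP.Defs
import Pool.Agent.H80.GP.Defs2

/-!
# Row Ari (MP_87ed0a_GP): arithmetic of `nn t = (t+2 choose 2)`  (about 100 lines)

`two_nn` : `2 nn t = (t+2)(t+1)`; everything else follows by `zify`/`nlinarith`/`ring` from it.
-/

namespace GP80

theorem two_nn (t : ℕ) : 2 * nn t = (t + 2) * (t + 1) := by
  unfold nn
  induction t with
  | zero => rfl
  | succ t ih =>
    have h : (t + 1 + 2).choose 2 = (t + 2).choose 1 + (t + 2).choose 2 := rfl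
    rw [h, mul_add, ih, Nat.choose_one_right]
    ring

/-- `2 nz x = (x+2)(x+1)` for `x ≥ -2` -/
theorem two_nz (x : ℤ) (hx : -2 ≤ x) : 2 * (nz x : ℤ) = (x + 2) * (x + 1) := by
  by_cases h : 0 ≤ x
  · obtain ⟨t, rfl⟩ := Int.eq_ofNat_of_zero_le h
    unfold nz
    rw [if_pos h, Int.toNat_natCast]
    exact_mod_cast two_nn t
  · unfold nz
    rw [if_neg h]
    have h1 : x = -1 ∨ x = -2 := by omega
    rcases h1 with h1 | h1 <;> subst h1 <;> norm_num

/-- used in 1.4: `t` large -/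
theorem ari_tail (c d K s N m t : ℕ) (hK : K < c) (hcd : c ≤ d) (ht : c + d + N ≤ t)
    (hm : nz ((t : ℤ) - (c + d) + K) = m + nz ((t : ℤ) - (c + d))) (hs : s ≤ N)
    (h : nn t + (N - s) ≤ nz ((t : ℤ) - K) + N + m) : K * (c + d - K) ≤ s := by
  have h1 := two_nn t
  have h2 := two_nz ((t : ℤ) - (c + d) + K) (by omega)
  have h3 := two_nz ((t : ℤ) - (c + d)) (by omega)
  have h4 := two_nz ((t : ℤ) - K) (by omega)
  have hm' : (nz ((t : ℤ) - (c + d) + K) : ℤ) = m + nz ((t : ℤ) - (c + d)) := by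
    exact_mod_cast hm
  have h' : (nn t : ℤ) + ((N : ℤ) - s) ≤ nz ((t : ℤ) - K) + N + m := by
    have := h
    zify [hs] at this
    exact this
  have h1' : 2 * (nn t : ℤ) = ((t : ℤ) + 2) * (t + 1) := by exact_mod_cast h1
  have hK' : K ≤ c + d := by omega
  zify [hK']
  nlinarith

/-- used in 1.6: with `t = c + d - 2`, `1 ≤ l < c ≤ d`:
`nn t - nz (t - l) = l (c+d) - l(l+1)/2` -/
theorem ari_sum (c d l : ℕ) (hl : l < c) (hcd : c ≤ d) :
    nn (c + d - 2) = nz (((c + d - 2 : ℕ) : ℤ) - l) + l * (c + d - l) + l.choose 2 := by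
  obtain ⟨t, ht⟩ : ∃ t, c + d = t + 2 := ⟨c + d - 2, by omega⟩
  have h0 : c + d - 2 = t := by omega
  rw [h0]
  have h1 := two_nn t
  have h2 := two_nz ((t : ℤ) - l) (by omega)
  have h3 : 2 * (l.choose 2 : ℤ) = (l : ℤ) * (l - 1) := by
    rcases l with _ | l
    · norm_num
    · rcases l with _ | l
      · norm_num [Nat.choose]
      · have := two_nn l
        unfold nn at this
        have h5 : 2 * ((l + 2).choose 2 : ℤ) = ((l : ℤ) + 2) * (l + 1) := by exact_mod_cast this
        rw [show l + 1 + 1 = l + 2 from rfl, h5]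
        push_cast
        ring
  have h1' : 2 * (nn t : ℤ) = ((t : ℤ) + 2) * (t + 1) := by exact_mod_cast h1
  have hlt : l ≤ c + d := by omega
  have hgoal : (nn t : ℤ) = nz ((t : ℤ) - l) + l * ((c : ℤ) + d - l) + l.choose 2 := by
    have ht' : (c : ℤ) + d = t + 2 := by exact_mod_cast ht
    rw [ht']
    nlinarith
  zify [hlt]
  exact hgoal

/-- the index sets of the big determinant have the same cardinality -/
theorem ari_card (c d : ℕ) (hc : 2 ≤ c) (hcd : c ≤ d) :
    nn (d - 2) + nn (c - 2) + c * d = nn (c + d - 2) := by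
  obtain ⟨a, rfl⟩ : ∃ a, c = a + 2 := ⟨c - 2, by omega⟩
  obtain ⟨b, rfl⟩ : ∃ b, d = b + 2 := ⟨d - 2, by omega⟩
  have h0 : a + 2 + (b + 2) - 2 = a + b + 2 := by omega
  rw [h0, Nat.add_sub_cancel, Nat.add_sub_cancel]
  have h1 := two_nn a
  have h2 := two_nn b
  have h3 := two_nn (a + b + 2)
  nlinarith

theorem nz_small (l : ℕ) : nz ((l : ℤ) - 2) = l.choose 2 := by
  have h2 := two_nz ((l : ℤ) - 2) (by omega)
  have h3 : 2 * (l.choose 2 : ℤ) = (l : ℤ) * (l - 1) := by
    rcases l with _ | l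
    · norm_num
    · rcases l with _ | l
      · norm_num [Nat.choose]
      · have := two_nn l
        unfold nn at this
        have h5 : 2 * ((l + 2).choose 2 : ℤ) = ((l : ℤ) + 2) * (l + 1) := by exact_mod_cast this
        rw [show l + 1 + 1 = l + 2 from rfl, h5]
        push_cast
        ring
  have h4 : (nz ((l : ℤ) - 2) : ℤ) = l.choose 2 := by nlinarith
  exact_mod_cast h4

end GP80
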