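import Mathlib

/-!
# Row La1 (MP_87ed0a_GP): length of a cokernel over a DVR = order of the determinant  (about 120 lines)

Let `O` be a DVR with prime `ϖ`, `M` free with basis `b : ι → M`, `u : ι → M` vectors whose matrix in the
basis has nonzero determinant.  Then the length of `M / span u` is the multiplicity of `ϖ` in the determinant.

Proof.  Let `N = span u`; `u` is linearly independent (det ≠ 0), so `u` is a basis of `N` and `N` has full rank.
Smith normal form over the PID `O` (Mathlib: `Submodule.smithNormalForm...` /
`Submodule.exists_smith_normal_form_of_le`, `Module.Basis.SmithNormalForm`): there are bases `b'` of `M` and `c'` of `N` with `c' i = a i • b' i`, all `a i ≠ 0`.  Then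
`M/N ≃ ∏ O/(a i)`, whose length is `∑ multiplicity ϖ (a i)` (`length (O/(a)) = multiplicity ϖ a`: induction via
`0 → O/(a) → O/(ϖ a) → O/(ϖ) → 0`, or write `a = ϖ^m * unit`), and `det (b.toMatrix u)` = unit * `∏ a i`
(change of bases have unit determinants).  Alternative proof by strong induction on the
multiplicity: if the determinant is a unit, `span u = ⊤`; otherwise the reduced matrix over `O/(ϖ)` is singular, so some `O`-combination
`∑ a_j u_j = ϖ w` with some `a_j` a unit; replace `u_j` by `w`: the span grows with quotient `O/(ϖ)` (length 1: `N' = N + O w`,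
`ϖ w ∈ N`, `w ∉ N`), the determinant is divided by `ϖ` up to a unit.
-/

namespace GP80

theorem La1_ord_prod {O : Type} [CommRing O] [IsDomain O] {ι : Type}
    (s : Finset ι) (a : ι → O) (ha : ∀ i ∈ s, a i ≠ 0) :
    Ring.ord O (∏ i ∈ s, a i) = ∑ i ∈ s, Ring.ord O (a i) := by
  classical
  induction s using Finset.induction_on with
  | empty => simp
  | insert i s hi ih =>
    have h1 : ∏ j ∈ s, a j ≠ 0 :=
      Finset.prod_ne_zero_iff.2 fun j hj => ha j (Finset.mem_insert_of_mem hj)
    rw [Finset.prod_insert hi, Finset.sum_insert hi,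
      Ring.ord_mul O (mem_nonZeroDivisors_of_ne_zero h1),
      ih fun j hj => ha j (Finset.mem_insert_of_mem hj)]

theorem La1_ord {O : Type} [CommRing O] [IsDomain O] [IsDiscreteValuationRing O]
    {ϖ : O} (hϖ : Prime ϖ) {x : O} (hx : x ≠ 0) :
    Ring.ord O x = ((multiplicity ϖ x : ℕ) : ℕ∞) := by
  obtain ⟨n, hn⟩ := IsDiscreteValuationRing.associated_pow_irreducible hx hϖ.irreducible
  rw [multiplicity_eq_of_associated_right hn, multiplicity_pow_self hϖ.ne_zero hϖ.not_isUnit,
    Ring.ord_eq_of_associated hn, Ring.ord_pow (mem_nonZeroDivisors_of_ne_zero hϖ.ne_zero),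
    Ring.ord_of_irreducible hϖ.irreducible]
  simp

theorem length_mod_det {O : Type} [CommRing O] [IsDomain O] [IsDiscreteValuationRing O]
    {ϖ : O} (hϖ : Prime ϖ) {M : Type} [AddCommGroup M] [Module O M] {ι : Type} [Fintype ι]
    [DecidableEq ι] (b : Module.Basis ι O M) (u : ι → M) (hdet : (b.toMatrix u).det ≠ 0) :
    Module.length O (M ⧸ Submodule.span O (Set.range u)) =
      ((multiplicity ϖ (b.toMatrix u).det : ℕ) : ℕ∞) := by
  have hli : LinearIndependent O u := by
    rw [Fintype.linearIndependent_iff]
    intro g hg
    have h2 : (b.toMatrix u).mulVec g = 0 := by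
      funext i
      have h3 := congrArg (fun m => b.repr m i) hg
      simp only [map_sum, map_smul, Finsupp.coe_finsetSum, Finset.sum_apply, Finsupp.smul_apply,
        smul_eq_mul, map_zero, Finsupp.coe_zero, Pi.zero_apply] at h3
      rw [Matrix.mulVec, dotProduct, Pi.zero_apply, ← h3]
      refine Finset.sum_congr rfl fun j _ => ?_
      rw [Module.Basis.toMatrix_apply, mul_comm]
    have h4 := Matrix.eq_zero_of_mulVec_eq_zero hdet h2
    intro i
    rw [h4]
    rfl
  set N : Submodule O M := Submodule.span O (Set.range u) with hN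
  let cu : Module.Basis ι O N := Module.Basis.span hli
  have hcu : ∀ i, (cu i : M) = u i := fun i =>
    congrArg Subtype.val (Module.Basis.span_apply hli i)
  have hfin : Module.finrank O N = Module.finrank O M := by
    rw [Module.finrank_eq_card_basis cu, Module.finrank_eq_card_basis b]
  let a := Submodule.smithNormalFormCoeffs b hfin
  let b' := Submodule.smithNormalFormTopBasis b hfin
  let ab := Submodule.smithNormalFormBotBasis b hfin
  have hab : ∀ i, (ab i : M) = a i • b' i := Submodule.smithNormalFormBotBasis_def b hfin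
  have ha0 : ∀ i, a i ≠ 0 := Submodule.smithNormalFormCoeffs_ne_zero b hfin
  -- the determinant
  have hmat : b.toMatrix u = b.toMatrix b' * (Matrix.diagonal a * ab.toMatrix cu) := by
    rw [← Module.Basis.toMatrix_mul_toMatrix b b' u]
    congr 1
    ext i j
    rw [Matrix.diagonal_mul, Module.Basis.toMatrix_apply, Module.Basis.toMatrix_apply]
    have h1 : u j = ∑ i, (ab.repr (cu j) i) • (a i • b' i) := by
      have h2 := congrArg (Subtype.val) (ab.sum_repr (cu j))
      rw [← hcu j, ← h2]
      simp only [Submodule.coe_sum, Submodule.coe_smul, hab]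
    rw [h1]
    simp only [smul_smul]
    rw [b'.repr_sum_self, mul_comm]
  have hu1 : IsUnit (b.toMatrix b').det := by
    have := b.isUnit_det b'
    rwa [Module.Basis.det_apply] at this
  have hu2 : IsUnit (ab.toMatrix cu).det := by
    have := ab.isUnit_det cu
    rwa [Module.Basis.det_apply] at this
  have hassoc : Ring.ord O (b.toMatrix u).det = Ring.ord O (∏ i, a i) := by
    rw [hmat, Matrix.det_mul, Matrix.det_mul, Matrix.det_diagonal,
      Ring.ord_mul_of_isUnit_left hu1, Ring.ord_mul_of_isUnit_right hu2]
  rw [(Submodule.quotientEquivPiSpan N b hfin).length_eq, Module.length_pi_of_fintype,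
    ← La1_ord hϖ hdet, hassoc, La1_ord_prod _ _ fun i _ => ha0 i]
  rfl

end GP80
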