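import Mathlib

/-!
# Row La2 (MP_87ed0a_GP): two length estimates by layers  (about 150 lines)

`O` is a DVR (only a commutative ring with a distinguished element `ϖ` is needed), `rho : O → k` surjective with
kernel `(ϖ)`.

`length_chain_le`: `J 0 ≤ J 1 ≤ ... ≤ J n` submodules of `M` with `ϖ J (i+1) ≤ J i`; if any `m i + 1` elements of
`J (i+1)` are dependent modulo `J i` (some coefficient not divisible by `ϖ`), then
`length (J n / J 0) ≤ ∑_{i<n} m i`.
Proof.  Additivity of length (`Module.length_eq_add_of_exact`, quotients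
`0 → J i/J 0 → J (i+1)/J 0 → J (i+1)/J i → 0`), so it is enough that `Q = J (i+1)/J i` has length `≤ m i`.  `Q` is killed by
`ϖ`, hence a `k`-vector space `W` through `rho` (choose preimages; or `Module.IsTorsionBySet.module` over `O ⧸ span {ϖ}` and the
iso `O ⧸ span{ϖ} ≃ k`), any `m i + 1` vectors of which are linearly dependent, so `dim_k W ≤ m i`, and `length_O Q = dim`
(`Module.length_eq_of_surjective`, `Module.length_eq_finrank`).

`length_ge_layers`: `red : M → Mb` semilinear surjective; if `ϖ^i x ∈ L` implies `red x ∈ W i` for all `i < n`, then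
`∑_{i<n} (dim Mb - dim W i) ≤ length (M/L)`.
Proof.  `Q = M/L`, `length Q ≥ ∑_{i<n} length (ϖ^i Q/ϖ^{i+1} Q)` (additivity, induction on `n`), and
`x ↦ red x mod W i` induces a surjection `ϖ^i Q/ϖ^{i+1} Q → Mb/W i`: if `ϖ^i x ∈ L + ϖ^{i+1} M`, then
`ϖ^i (x - ϖ y) ∈ L`, so `red x = red (x - ϖ y) ∈ W i` because `red (ϖ y) = rho ϖ • red y = 0`.
(Convenient: show by induction `∑_{i<n} ... + length (ϖ^n Q) ≤ length Q`; or use the chain of submodules
`L + ϖ^i M` of `M`: the map `M → (L + ϖ^i M)/(L+ϖ^{i+1} M)`, `x ↦ ϖ^i x`.)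
-/

namespace GP80

theorem La2_dim {O k : Type} [CommRing O] [Field k] (rho : O →+* k)
    (hs : Function.Surjective rho) {ϖ : O} (hker : ∀ a, rho a = 0 ↔ ϖ ∣ a)
    {Q : Type} [AddCommGroup Q] [Module O Q] (hϖ : ∀ x : Q, ϖ • x = 0) (m : ℕ)
    (hdep : ∀ x : Fin (m + 1) → Q, ∃ a : Fin (m + 1) → O,
      (∃ j, ¬ ϖ ∣ a j) ∧ ∑ j, a j • x j = 0) :
    Module.length O Q ≤ (m : ℕ∞) := by
  classical
  obtain ⟨I, hIdef⟩ : ∃ I : Ideal O, I = RingHom.ker rho := ⟨_, rfl⟩
  have hmem : ∀ a, a ∈ I ↔ ϖ ∣ a := by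
    intro a
    rw [hIdef, RingHom.mem_ker]
    exact hker a
  have hI : I.IsMaximal := by
    rw [hIdef]
    exact RingHom.ker_isMaximal_of_surjective rho hs
  have htors : Module.IsTorsionBySet O Q (I : Set O) := by
    intro x a
    obtain ⟨b, hb⟩ := (hmem a.1).1 a.2
    rw [hb, mul_smul]
    exact hϖ _
  let : Module (O ⧸ I) Q := htors.module
  have : IsScalarTower O (O ⧸ I) Q := htors.isScalarTower
  rw [Module.length_eq_of_surjective (R := O ⧸ I) (M := Q) Ideal.Quotient.mk_surjective]
  let : Field (O ⧸ I) := Ideal.Quotient.field I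
  have hr : Module.rank (O ⧸ I) Q ≤ (m : Cardinal) := by
    refine rank_le fun s hli => ?_
    by_contra hcon
    have hcard : m + 1 ≤ s.card := by omega
    obtain ⟨e⟩ : Nonempty (Fin (m + 1) ↪ {x // x ∈ s}) := by
      refine Function.Embedding.nonempty_of_card_le ?_
      rw [Fintype.card_fin, Fintype.card_coe]
      exact hcard
    have hli2 := hli.comp e e.injective
    obtain ⟨a, ⟨j, hj⟩, ha⟩ := hdep (fun i => ((e i : {x // x ∈ s}) : Q))
    have h1 := Fintype.linearIndependent_iff.1 hli2 (fun i => Ideal.Quotient.mk I (a i)) (by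
      rw [← ha]
      refine Finset.sum_congr rfl fun i _ => ?_
      rfl) j
    rw [Ideal.Quotient.eq_zero_iff_mem, hmem] at h1
    exact hj h1
  have h2 := Module.length_eq_rank (O ⧸ I) Q
  refine le_trans h2.le ?_
  exact Cardinal.toENat_le_natCast.2 hr

theorem La2_semi {O k : Type} [CommRing O] [Field k] (rho : O →+* k)
    (hs : Function.Surjective rho) {Q V : Type} [AddCommGroup Q] [Module O Q] [AddCommGroup V]
    [Module k V] (G : Q →ₛₗ[rho] V) (hG : Function.Surjective G) :
    Module.length k V ≤ Module.length O Q := by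
  let : Algebra O k := rho.toAlgebra
  let : Module O V := Module.compHom V rho
  have : IsScalarTower O k V := ⟨fun a b v => by
    change (rho a * b) • v = rho a • (b • v)
    rw [mul_smul]⟩
  rw [← Module.length_eq_of_surjective (S := O) (R := k) (M := V) hs]
  let G' : Q →ₗ[O] V :=
    { toFun := G
      map_add' := G.map_add
      map_smul' := fun a x => G.map_smulₛₗ a x }
  exact Module.length_le_of_surjective G' hG

theorem length_chain_le {O k : Type} [CommRing O] [Field k] (rho : O →+* k)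
    (hs : Function.Surjective rho) {ϖ : O} (hker : ∀ a, rho a = 0 ↔ ϖ ∣ a)
    {M : Type} [AddCommGroup M] [Module O M] (J : ℕ → Submodule O M) (hmono : ∀ i, J i ≤ J (i + 1))
    (hp : ∀ i, ∀ x ∈ J (i + 1), ϖ • x ∈ J i) (m : ℕ → ℕ)
    (hdep : ∀ i, ∀ x : Fin (m i + 1) → M, (∀ j, x j ∈ J (i + 1)) →
      ∃ a : Fin (m i + 1) → O, (∃ j, ¬ ϖ ∣ a j) ∧ ∑ j, a j • x j ∈ J i) (n : ℕ) :
    Module.length O (J n ⧸ (J 0).submoduleOf (J n)) ≤ ((∑ i ∈ Finset.range n, m i : ℕ) : ℕ∞) := by
  induction n with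
  | zero =>
    have h1 : Subsingleton (J 0 ⧸ (J 0).submoduleOf (J 0)) := by
      refine ⟨fun a b => ?_⟩
      obtain ⟨x, rfl⟩ := Submodule.mkQ_surjective _ a
      obtain ⟨y, rfl⟩ := Submodule.mkQ_surjective _ b
      rw [Submodule.mkQ_apply, Submodule.mkQ_apply, Submodule.Quotient.eq]
      exact (x - y).2
    rw [Module.length_eq_zero_iff.2 h1]
    exact bot_le
  | succ n ih =>
    let f : (J n ⧸ (J 0).submoduleOf (J n)) →ₗ[O] (J (n + 1) ⧸ (J 0).submoduleOf (J (n + 1))) :=
      Submodule.mapQ ((J 0).submoduleOf (J n)) ((J 0).submoduleOf (J (n + 1)))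
        (Submodule.inclusion (hmono n)) (fun x hx => hx)
    have hf : Function.Injective f := by
      rw [injective_iff_map_eq_zero]
      intro x hx
      obtain ⟨y, rfl⟩ := Submodule.mkQ_surjective _ x
      have h1 : ((J 0).submoduleOf (J (n + 1))).mkQ (Submodule.inclusion (hmono n) y) = 0 := hx
      rw [Submodule.mkQ_apply, Submodule.Quotient.mk_eq_zero] at h1
      rw [Submodule.mkQ_apply, Submodule.Quotient.mk_eq_zero]
      exact h1
    rw [Module.length_eq_add_of_exact f (LinearMap.range f).mkQ hf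
      (Submodule.mkQ_surjective _) (LinearMap.exact_map_mkQ_range f), Finset.sum_range_succ,
      Nat.cast_add]
    refine add_le_add ih ?_
    have hz : ∀ c : J (n + 1), (c : M) ∈ J n →
        (LinearMap.range f).mkQ (((J 0).submoduleOf (J (n + 1))).mkQ c) = 0 := by
      intro c hc
      rw [Submodule.mkQ_apply, Submodule.Quotient.mk_eq_zero]
      exact ⟨((J 0).submoduleOf (J n)).mkQ ⟨c, hc⟩, rfl⟩
    have hsurj : ∀ x : (J (n + 1) ⧸ (J 0).submoduleOf (J (n + 1))) ⧸ LinearMap.range f,
        ∃ c : J (n + 1), (LinearMap.range f).mkQ (((J 0).submoduleOf (J (n + 1))).mkQ c) = x := by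
      intro x
      obtain ⟨y, rfl⟩ := Submodule.mkQ_surjective _ x
      obtain ⟨c, rfl⟩ := Submodule.mkQ_surjective _ y
      exact ⟨c, rfl⟩
    refine La2_dim rho hs hker ?_ (m n) ?_
    · intro x
      obtain ⟨c, rfl⟩ := hsurj x
      rw [← LinearMap.map_smul, ← LinearMap.map_smul]
      exact hz _ (hp n c c.2)
    · intro x
      choose c hc using fun j => hsurj (x j)
      obtain ⟨a, ha1, ha2⟩ := hdep n (fun j => (c j : M)) (fun j => (c j).2)
      refine ⟨a, ha1, ?_⟩
      have h3 : ∑ j, a j • x j =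
          (LinearMap.range f).mkQ (((J 0).submoduleOf (J (n + 1))).mkQ (∑ j, a j • c j)) := by
        rw [map_sum, map_sum]
        refine Finset.sum_congr rfl fun j _ => ?_
        rw [LinearMap.map_smul, LinearMap.map_smul, hc]
      rw [h3]
      refine hz _ ?_
      rw [Submodule.coe_sum]
      exact ha2

theorem length_ge_layers {O k : Type} [CommRing O] [Field k] (rho : O →+* k)
    (hs : Function.Surjective rho) {ϖ : O} (hker : ∀ a, rho a = 0 ↔ ϖ ∣ a)
    {M Mb : Type} [AddCommGroup M] [Module O M] [AddCommGroup Mb] [Module k Mb]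
    [FiniteDimensional k Mb] (red : M →ₛₗ[rho] Mb) (hred : Function.Surjective red)
    (L : Submodule O M) (n : ℕ) (W : ℕ → Submodule k Mb)
    (hW : ∀ i < n, ∀ x : M, ϖ ^ i • x ∈ L → red x ∈ W i) :
    ((∑ i ∈ Finset.range n, (Module.finrank k Mb - Module.finrank k (W i)) : ℕ) : ℕ∞) ≤
      Module.length O (M ⧸ L) := by
  induction n generalizing L W with
  | zero =>
    rw [Finset.sum_range_zero, Nat.cast_zero]
    exact bot_le
  | succ n ih =>
    let φ : M →ₗ[O] M := LinearMap.lsmul O M ϖ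
    let L' : Submodule O M := L.comap φ
    let f : (M ⧸ L') →ₗ[O] (M ⧸ L) := Submodule.mapQ L' L φ le_rfl
    have hf : Function.Injective f := by
      rw [injective_iff_map_eq_zero]
      intro x hx
      obtain ⟨y, rfl⟩ := Submodule.mkQ_surjective _ x
      have h1 : L.mkQ (φ y) = 0 := hx
      rw [Submodule.mkQ_apply, Submodule.Quotient.mk_eq_zero] at h1
      rw [Submodule.mkQ_apply, Submodule.Quotient.mk_eq_zero]
      exact h1
    rw [Module.length_eq_add_of_exact f (LinearMap.range f).mkQ hf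
      (Submodule.mkQ_surjective _) (LinearMap.exact_map_mkQ_range f), Finset.sum_range_succ',
      Nat.cast_add]
    refine add_le_add ?_ ?_
    · refine ih L' (fun i => W (i + 1)) ?_
      intro i hi x hx
      refine hW (i + 1) (by omega) x ?_
      have h1 : ϖ • (ϖ ^ i • x) ∈ L := hx
      rw [pow_succ', mul_smul]
      exact h1
    · let G₀ : M →ₛₗ[rho] (Mb ⧸ W 0) := (W 0).mkQ.comp red
      have hG₀ : L ≤ LinearMap.ker G₀ := by
        intro x hx
        rw [LinearMap.mem_ker]
        change (W 0).mkQ (red x) = 0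
        rw [Submodule.mkQ_apply, Submodule.Quotient.mk_eq_zero]
        refine hW 0 (by omega) x ?_
        rw [pow_zero, one_smul]
        exact hx
      let G₁ : (M ⧸ L) →ₛₗ[rho] (Mb ⧸ W 0) := L.liftQ G₀ hG₀
      have hG₁ : LinearMap.range f ≤ LinearMap.ker G₁ := by
        rintro _ ⟨x, rfl⟩
        obtain ⟨y, rfl⟩ := Submodule.mkQ_surjective _ x
        rw [LinearMap.mem_ker]
        change (W 0).mkQ (red (ϖ • y)) = 0
        have h1 : rho ϖ = 0 := (hker ϖ).2 dvd_rfl
        rw [LinearMap.map_smulₛₗ, h1, zero_smul, map_zero]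
      let G₂ := (LinearMap.range f).liftQ G₁ hG₁
      have hG₂ : Function.Surjective G₂ := by
        intro z
        obtain ⟨w, rfl⟩ := Submodule.mkQ_surjective _ z
        obtain ⟨x, rfl⟩ := hred w
        exact ⟨(LinearMap.range f).mkQ (L.mkQ x), rfl⟩
      have h1 := La2_semi rho hs G₂ hG₂
      rw [Module.length_eq_finrank] at h1
      refine le_trans ?_ h1
      have h2 := Submodule.finrank_quotient_add_finrank (W 0)
      have h3 : Module.finrank k Mb - Module.finrank k (W 0) = Module.finrank k (Mb ⧸ W 0) := by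
        omega
      rw [h3]

end GP80
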