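import Mathlib
import Pool.Agent.H80.GP.La1

/-!
# Row La3 (MP_87ed0a_GP): length splitting along an evaluation map  (about 120 lines)

`O` DVR, `M` a module, `ev : M → O^I` linear, `L0 ≤ ker ev`, `β : I → M` with `det (ev β) ≠ 0`.  Then
`length (M / (L0 + span β)) ≤ multiplicity ϖ (det (ev β)) + length (ker ev / L0)`.

Proof.  Put `L = L0 ⊔ span β`, `K = ker ev`.
(1) `L ⊓ K = L0`: if `x = l + ∑ a_i β_i ∈ K` then `∑ a_i ev β_i = 0`, so `a = 0` (det ≠ 0, `O` domain).
(2) `length (M/L) = length (M/(L ⊔ K)) + length ((L ⊔ K)/L)` and `(L ⊔ K)/L ≃ K/(L ⊓ K) = K/L0`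
(`LinearMap.quotientInfEquivSupQuotient`).
(3) `M/(L ⊔ K)` embeds into `O^I / span (ev β)` through `ev`: kernel of `M → O^I/span(ev β)` is exactly `L ⊔ K`.  The length
of `O^I / span (ev β)` is `multiplicity ϖ (det)` by `length_mod_det` (row La1) with the standard basis
(`Pi.basisFun O I`; `(Pi.basisFun O I).toMatrix w = (Matrix.of w)ᵀ`, `Matrix.det_transpose`).
-/


namespace GP80

/-- `length (M/L) ≤ length (K/L0) + length (M/(L ⊔ K))` for `L0 ≤ L`. -/
theorem La3_sub {O : Type} [CommRing O] {M : Type} [AddCommGroup M] [Module O M]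
    (L0 L K : Submodule O M) (h0 : L0 ≤ L) :
    Module.length O (M ⧸ L) ≤
      Module.length O (K ⧸ L0.submoduleOf K) + Module.length O (M ⧸ (L ⊔ K)) := by
  have hle : L0.submoduleOf K ≤ L.comap K.subtype := fun x hx => h0 hx
  set i : (K ⧸ L0.submoduleOf K) →ₗ[O] (M ⧸ L) :=
    Submodule.mapQ (L0.submoduleOf K) L K.subtype hle with hi
  set q : (M ⧸ L) →ₗ[O] (M ⧸ (L ⊔ K)) := Submodule.factor (le_sup_left : L ≤ L ⊔ K) with hq
  have hex : Function.Exact (LinearMap.range i).subtype q := by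
    intro y
    obtain ⟨m, rfl⟩ := Submodule.mkQ_surjective L y
    have hqm : q (L.mkQ m) = (L ⊔ K).mkQ m := rfl
    constructor
    · intro hy
      rw [hqm, Submodule.mkQ_apply, Submodule.Quotient.mk_eq_zero, Submodule.mem_sup] at hy
      obtain ⟨l, hl, k, hk, rfl⟩ := hy
      refine ⟨⟨L.mkQ (l + k), ?_⟩, rfl⟩
      refine ⟨(L0.submoduleOf K).mkQ ⟨k, hk⟩, ?_⟩
      show L.mkQ k = L.mkQ (l + k)
      rw [map_add]
      have : L.mkQ l = 0 := by
        rw [Submodule.mkQ_apply, Submodule.Quotient.mk_eq_zero]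
        exact hl
      rw [this, zero_add]
    · rintro ⟨⟨z, hz⟩, hz2⟩
      obtain ⟨w, rfl⟩ := hz
      obtain ⟨k, rfl⟩ := Submodule.mkQ_surjective _ w
      have h1 : L.mkQ (k : M) = L.mkQ m := hz2
      rw [← h1]
      show (L ⊔ K).mkQ (k : M) = 0
      rw [Submodule.mkQ_apply, Submodule.Quotient.mk_eq_zero]
      exact (le_sup_right : K ≤ L ⊔ K) k.2
  rw [Module.length_eq_add_of_exact (LinearMap.range i).subtype q
    (Submodule.subtype_injective _) (Submodule.factor_surjective _) hex]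
  refine add_le_add ?_ le_rfl
  exact Module.length_le_of_surjective i.rangeRestrict i.surjective_rangeRestrict

theorem length_split {O : Type} [CommRing O] [IsDomain O] [IsDiscreteValuationRing O]
    {ϖ : O} (hϖ : Prime ϖ) {M : Type} [AddCommGroup M] [Module O M] {I : Type} [Fintype I]
    [DecidableEq I] (ev : M →ₗ[O] (I → O)) (L0 : Submodule O M) (hL0 : L0 ≤ LinearMap.ker ev)
    (β : I → M) (hdet : (Matrix.of fun i => ev (β i)).det ≠ 0) :
    Module.length O (M ⧸ (L0 ⊔ Submodule.span O (Set.range β))) ≤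
      ((multiplicity ϖ (Matrix.of fun i => ev (β i)).det : ℕ) : ℕ∞) +
        Module.length O (LinearMap.ker ev ⧸ L0.submoduleOf (LinearMap.ker ev)) := by
  set K := LinearMap.ker ev with hK
  set S := Submodule.span O (Set.range β) with hS
  have h1 := La3_sub L0 (L0 ⊔ S) K le_sup_left
  refine h1.trans ?_
  rw [add_comm]
  refine add_le_add ?_ le_rfl
  -- the embedding
  have hD : Submodule.span O (Set.range fun i => ev (β i)) = S.map ev := by
    rw [hS, Submodule.map_span, ← Set.range_comp]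
    rfl
  have hker : LinearMap.ker ((S.map ev).mkQ.comp ev) = L0 ⊔ S ⊔ K := by
    rw [LinearMap.ker_comp, Submodule.ker_mkQ, Submodule.comap_map_eq, ← hK]
    apply le_antisymm
    · exact sup_le_sup_right le_sup_right K
    · exact sup_le (sup_le (hL0.trans le_sup_right) le_sup_left) le_sup_right
  have hle : L0 ⊔ S ⊔ K ≤ LinearMap.ker ((S.map ev).mkQ.comp ev) := hker.ge
  have hinj : Function.Injective ((L0 ⊔ S ⊔ K).liftQ ((S.map ev).mkQ.comp ev) hle) := by
    rw [← LinearMap.ker_eq_bot, Submodule.ker_liftQ_eq_bot _ _ _ hker.le]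
  have h2 := Module.length_le_of_injective _ hinj
  refine h2.trans (le_of_eq ?_)
  rw [← hD]
  have hmat : (Pi.basisFun O I).toMatrix (fun i => ev (β i)) =
      (Matrix.of fun i => ev (β i)).transpose := by
    ext a b
    rfl
  have hdet' : ((Pi.basisFun O I).toMatrix (fun i => ev (β i))).det ≠ 0 := by
    rw [hmat, Matrix.det_transpose]
    exact hdet
  have h3 := length_mod_det hϖ (Pi.basisFun O I) (fun i => ev (β i)) hdet'
  rw [hmat, Matrix.det_transpose] at h3
  exact h3

end GP80
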