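import Mathlib
import Pool.Agent.H80.GP.Defs
import Pool.Agent.H80.GP.Kp2

/-!
# Row Rla (MP_87ed0a_GP): calculus of the relation `Rel` (section 1, definition of the layers)  (about 180 lines)

`Rel i h q : pi^i h = A F + B G, rho A = q G', rho B = - q F'`.  `J = (F, G)`.  `h : SatS ...`: `rho F = Γ F'`, `rho G = Γ G'`.
`MvPolynomial.map rho` is surjective (`rho` is), and `map rho A = 0 ↔ C pi ∣ A` (coefficientwise, `S.ker`).

* `kosO` : `A F + B G = 0 → A = r G, B = - r F`.  From `kos`: `pi^m A = r G`, `pi^m B = - r F`; if `m ≥ 1`, reduce: `rho r * Γ G' = 0`, so `rho r = 0`,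
  `r = pi r'`, cancel `pi`; induction on `m`.
* `rel_exists` : `pi^i h = A F + B G`, `i ≥ 1`: reduce: `Γ (A' F' + B' G') = 0`, so `A' F' = - B' G'`; `F', G'` coprime gives `G' ∣ A'`
  (`IsRelPrime.dvd_of_dvd_mul_right...`), `A' = q G'`, and `B' = - q F'`.
* homogeneous version `rel_exists_hom`: for `h` homogeneous of degree `t` one may take `A, B` homogeneous of degrees `t - c`, `t - d` (take
  components: `homogeneousComponent t` of `A F` is `(component t-c of A) F`, and `0` if `t < c`); then `q G' = rho A` gives `q`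
  homogeneous of degree `t - c - (d - kk) = t + kk - (c + d)` (Kp2 `homog_of_mul_left`), and `q = 0` if this is negative.
* `rel_zero_dvd` : `A F + B G = 0`, so `A = r G` (`kosO`), `q G' = rho r * Γ G'`, `q = rho r * Γ`.
* `rel_dvd` : `pi^(i-1) h = A' F + B' G` gives `(A - pi A') F + (B - pi B') G = 0`, so as above `q = rho r * Γ`.
* `rel_down` : `q = Γ q'`; lift `q'` to `r`; `A - r G`, `B + r F` are divisible by `pi`, and
  `pi^i h = (A - r G) F + (B + r F) G`; cancel `pi`.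
* `rel_up`, `rel_add`, `rel_smul`, `rel_syz` : immediate.
-/

set_option linter.unusedSectionVars false

namespace GP80

open MvPolynomial

variable {O k I : Type} [CommRing O] [IsDomain O] [Field k] [Fintype I] {D0 c d kk : ℕ}
  {S : GeoS O k I D0} {F G : MvPolynomial (Fin 3) O} {Γ F' G' : MvPolynomial (Fin 3) k}

theorem map_eq_zero_iff (S : GeoS O k I D0) (A : MvPolynomial (Fin 3) O) :
    map S.rho A = 0 ↔ C S.pi ∣ A := by
  rw [C_dvd_iff_dvd_coeff, MvPolynomial.ext_iff]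
  refine forall_congr' fun m => ?_
  rw [coeff_map, coeff_zero, S.ker]

theorem C_pi_prime (S : GeoS O k I D0) : Prime (C S.pi : MvPolynomial (Fin 3) O) := by
  exact (prime_C_iff _).2 S.prime

theorem kosO (h : SatS S c d F G Γ F' G' kk) (A B : MvPolynomial (Fin 3) O)
    (hAB : A * F + B * G = 0) : ∃ r, A = r * G ∧ B = -(r * F) := by
  have h0 : (C S.pi : MvPolynomial (Fin 3) O) ≠ 0 := (C_pi_prime S).ne_zero
  have key : ∀ (m : ℕ) (r : MvPolynomial (Fin 3) O), C (S.pi ^ m) * A = r * G →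
      C (S.pi ^ m) * B = -(r * F) → ∃ r, A = r * G ∧ B = -(r * F) := by
    intro m
    induction m with
    | zero =>
      intro r h1 h2
      rw [pow_zero, C_1, one_mul] at h1 h2
      exact ⟨r, h1, h2⟩
    | succ m ih =>
      intro r h1 h2
      have h3 : map S.rho r * (Γ * G') = 0 := by
        rw [← h.eG, ← map_mul, ← h1, map_eq_zero_iff]
        exact ⟨C (S.pi ^ m) * A, by rw [pow_succ, C_mul]; ring⟩
      have h4 : map S.rho r = 0 := by
        rcases mul_eq_zero.1 h3 with h5 | h5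
        · exact h5
        · exact absurd h5 (mul_ne_zero h.nzΓ h.nzG)
      obtain ⟨r', rfl⟩ := (map_eq_zero_iff S r).1 h4
      refine ih r' (mul_left_cancel₀ h0 ?_) (mul_left_cancel₀ h0 ?_)
      · rw [← mul_assoc, ← C_mul, ← pow_succ', h1, mul_assoc]
      · rw [← mul_assoc, ← C_mul, ← pow_succ', h2]
        ring
  obtain ⟨m, r, h1, h2⟩ := h.pair.kos A B hAB
  exact key m r h1 h2

theorem rel_add {i : ℕ} {f g : MvPolynomial (Fin 3) O} {q r : MvPolynomial (Fin 3) k}
    (h1 : Rel S F G F' G' i f q) (h2 : Rel S F G F' G' i g r) :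
    Rel S F G F' G' i (f + g) (q + r) := by
  obtain ⟨A, B, a1, a2, a3⟩ := h1
  obtain ⟨A', B', b1, b2, b3⟩ := h2
  refine ⟨A + A', B + B', ?_, ?_, ?_⟩
  · rw [mul_add, a1, b1]; ring
  · rw [map_add, a2, b2]; ring
  · rw [map_add, a3, b3]; ring

theorem rel_smul {i : ℕ} {f : MvPolynomial (Fin 3) O} {q : MvPolynomial (Fin 3) k}
    (h1 : Rel S F G F' G' i f q) (r : MvPolynomial (Fin 3) O) :
    Rel S F G F' G' i (r * f) (map S.rho r * q) := by
  obtain ⟨A, B, a1, a2, a3⟩ := h1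
  refine ⟨r * A, r * B, ?_, ?_, ?_⟩
  · rw [mul_left_comm, a1]; ring
  · rw [map_mul, a2]; ring
  · rw [map_mul, a3]; ring

theorem rel_syz (h : SatS S c d F G Γ F' G' kk) (i : ℕ) (q : MvPolynomial (Fin 3) k) :
    Rel S F G F' G' i 0 (Γ * q) := by
  obtain ⟨r, rfl⟩ := map_surjective S.rho S.surj q
  refine ⟨r * G, -(r * F), by ring, ?_, ?_⟩
  · rw [map_mul, h.eG]; ring
  · rw [map_neg, map_mul, h.eF]; ring

theorem rel_up {i : ℕ} {f : MvPolynomial (Fin 3) O} {q : MvPolynomial (Fin 3) k}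
    (h1 : Rel S F G F' G' (i + 1) f q) : Rel S F G F' G' i (C S.pi * f) q := by
  obtain ⟨A, B, a1, a2, a3⟩ := h1
  refine ⟨A, B, ?_, a2, a3⟩
  rw [← a1, pow_succ, C_mul, mul_assoc]

/-- lowering the level: the first layer contains everything -/
theorem rel_one (h : SatS S c d F G Γ F' G' kk) :
    ∃ f, Rel S F G F' G' 1 f 1 := by
  obtain ⟨A, hA⟩ := map_surjective S.rho S.surj G'
  obtain ⟨B, hB⟩ := map_surjective S.rho S.surj (-F')
  have h1 : map S.rho (A * F + B * G) = 0 := by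
    rw [map_add, map_mul, map_mul, hA, hB, h.eF, h.eG]
    ring
  obtain ⟨f, hf⟩ := (map_eq_zero_iff S _).1 h1
  refine ⟨f, A, B, ?_, ?_, ?_⟩
  · rw [pow_one, ← hf]
  · rw [hA, one_mul]
  · rw [hB, one_mul]

theorem Rla_coprime (h : SatS S c d F G Γ F' G' kk) {i : ℕ} (hi : 1 ≤ i)
    (f A B : MvPolynomial (Fin 3) O) (hAB : A * F + B * G = C (S.pi ^ i) * f) :
    ∃ q, map S.rho A = q * G' ∧ map S.rho B = -(q * F') := by
  have h1 : map S.rho A * (Γ * F') + map S.rho B * (Γ * G') = 0 := by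
    rw [← h.eF, ← h.eG, ← map_mul, ← map_mul, ← map_add, hAB, map_eq_zero_iff]
    obtain ⟨j, rfl⟩ : ∃ j, i = j + 1 := ⟨i - 1, by omega⟩
    exact ⟨C (S.pi ^ j) * f, by rw [pow_succ, C_mul]; ring⟩
  have h2 : map S.rho A * F' + map S.rho B * G' = 0 := by
    refine (mul_eq_zero.1 (?_ : Γ * (map S.rho A * F' + map S.rho B * G') = 0)).resolve_left h.nzΓ
    rw [← h1]
    ring
  have h3 : G' ∣ map S.rho A * F' := ⟨-map S.rho B, by linear_combination h2⟩
  obtain ⟨q, hq⟩ := h.cop.symm.dvd_of_dvd_mul_right h3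
  refine ⟨q, by rw [hq, mul_comm], ?_⟩
  refine mul_right_cancel₀ h.nzG ?_
  rw [hq] at h2
  linear_combination h2

theorem Rla_comp {R : Type*} [CommRing R] {c : ℕ} {A F : MvPolynomial (Fin 3) R}
    (hF : F.IsHomogeneous c) (t : ℕ) :
    ∃ A', homogeneousComponent t (A * F) = A' * F ∧
      (A' = 0 ∨ (c ≤ t ∧ A'.IsHomogeneous (t - c))) := by
  have h1 : homogeneousComponent t (A * F) = ∑ i ∈ Finset.range (A.totalDegree + 1),
      if i + c = t then homogeneousComponent i A * F else 0 := by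
    conv_lhs => rw [← sum_homogeneousComponent A, Finset.sum_mul, map_sum]
    refine Finset.sum_congr rfl fun i _ => ?_
    have h2 : homogeneousComponent i A * F ∈ homogeneousSubmodule (Fin 3) R (i + c) :=
      (homogeneousComponent_isHomogeneous i A).mul hF
    rw [homogeneousComponent_of_mem h2]
    simp only [eq_comm]
  by_cases hc : c ≤ t
  · refine ⟨homogeneousComponent (t - c) A, ?_,
      Or.inr ⟨hc, homogeneousComponent_isHomogeneous _ _⟩⟩
    rw [h1]
    have h3 : ∀ i ∈ Finset.range (A.totalDegree + 1),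
        (if i + c = t then homogeneousComponent i A * F else 0) =
          if i = t - c then homogeneousComponent i A * F else 0 := by
      intro i _
      have : i + c = t ↔ i = t - c := by omega
      simp only [this]
    rw [Finset.sum_congr rfl h3, Finset.sum_ite_eq']
    split_ifs with h4
    · rfl
    · rw [Finset.mem_range, not_lt] at h4
      rw [homogeneousComponent_eq_zero _ _ (by omega), zero_mul]
  · refine ⟨0, ?_, Or.inl rfl⟩
    rw [h1, zero_mul]
    refine Finset.sum_eq_zero fun i _ => ?_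
    rw [if_neg (by omega)]

theorem rel_exists (h : SatS S c d F G Γ F' G' kk) {i : ℕ} (hi : 1 ≤ i)
    {f : MvPolynomial (Fin 3) O} (hf : C (S.pi ^ i) * f ∈ Ideal.span {F, G}) :
    ∃ q, Rel S F G F' G' i f q := by
  rw [Ideal.mem_span_pair] at hf
  obtain ⟨A, B, hAB⟩ := hf
  obtain ⟨q, h1, h2⟩ := Rla_coprime h hi f A B hAB
  exact ⟨q, A, B, hAB.symm, h1, h2⟩

theorem rel_exists_hom (h : SatS S c d F G Γ F' G' kk) {i : ℕ} (hi : 1 ≤ i)
    {f : MvPolynomial (Fin 3) O} {t : ℕ} (ht : f.IsHomogeneous t)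
    (hf : C (S.pi ^ i) * f ∈ Ideal.span {F, G}) :
    ∃ q, Rel S F G F' G' i f q ∧ (c + d ≤ t + kk → q.IsHomogeneous (t + kk - (c + d))) ∧
      (t + kk < c + d → q = 0) := by
  rw [Ideal.mem_span_pair] at hf
  obtain ⟨A₀, B₀, hAB₀⟩ := hf
  obtain ⟨A, hA, hA'⟩ := Rla_comp (A := A₀) h.pair.hF t
  obtain ⟨B, hB, -⟩ := Rla_comp (A := B₀) h.pair.hG t
  have hAB : A * F + B * G = C (S.pi ^ i) * f := by
    rw [← hA, ← hB, ← map_add, hAB₀]
    exact homogeneousComponent_eq_self (ht.C_mul _)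
  obtain ⟨q, h1, h2⟩ := Rla_coprime h hi f A B hAB
  refine ⟨q, ⟨A, B, hAB.symm, h1, h2⟩, ?_⟩
  by_cases hq : q = 0
  · rw [hq]
    exact ⟨fun _ => isHomogeneous_zero _ _ _, fun _ => rfl⟩
  · have h3 : map S.rho A ≠ 0 := by
      rw [h1]
      exact mul_ne_zero hq h.nzG
    have h4 : c ≤ t ∧ A.IsHomogeneous (t - c) := by
      rcases hA' with h5 | h5
      · rw [h5, map_zero] at h3
        exact absurd rfl h3
      · exact h5
    have h5 : (G' * q).IsHomogeneous (t - c) := by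
      rw [mul_comm, ← h1]
      exact h4.2.map _
    have h6 := homog_of_mul_left h5 h.hG' (mul_ne_zero h.nzG hq)
    have h7 : kk ≤ d := by
      have h8 : (Γ * G').IsHomogeneous d := by
        rw [← h.eG]
        exact h.pair.hG.map _
      exact (homog_of_mul_left h8 h.hΓ (mul_ne_zero h.nzΓ h.nzG)).1
    have h8 := h.lt
    refine ⟨fun h9 => ?_, fun h9 => ?_⟩
    · have e : t + kk - (c + d) = t - c - (d - kk) := by omega
      rw [e]
      exact h6.2
    · exfalso
      omega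

theorem rel_zero_dvd (h : SatS S c d F G Γ F' G' kk) {i : ℕ} {q : MvPolynomial (Fin 3) k}
    (h1 : Rel S F G F' G' i 0 q) : Γ ∣ q := by
  obtain ⟨A, B, a1, a2, a3⟩ := h1
  rw [mul_zero] at a1
  obtain ⟨r, hr, -⟩ := kosO h A B a1.symm
  refine ⟨map S.rho r, mul_right_cancel₀ h.nzG ?_⟩
  rw [← a2, hr, map_mul, h.eG]
  ring

theorem rel_uniq (h : SatS S c d F G Γ F' G' kk) {i : ℕ} {f : MvPolynomial (Fin 3) O}
    {q r : MvPolynomial (Fin 3) k} (h1 : Rel S F G F' G' i f q) (h2 : Rel S F G F' G' i f r) :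
    Γ ∣ q - r := by
  obtain ⟨A, B, a1, a2, a3⟩ := h1
  obtain ⟨A', B', b1, b2, b3⟩ := h2
  refine rel_zero_dvd (i := i) h ⟨A - A', B - B', ?_, ?_, ?_⟩
  · linear_combination a1 - b1
  · rw [map_sub, a2, b2]; ring
  · rw [map_sub, a3, b3]; ring

theorem rel_dvd (h : SatS S c d F G Γ F' G' kk) {i : ℕ} {f : MvPolynomial (Fin 3) O}
    {q : MvPolynomial (Fin 3) k} (h1 : Rel S F G F' G' (i + 1) f q)
    (hf : C (S.pi ^ i) * f ∈ Ideal.span {F, G}) : Γ ∣ q := by
  obtain ⟨A, B, a1, a2, a3⟩ := h1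
  rw [Ideal.mem_span_pair] at hf
  obtain ⟨A', B', hAB⟩ := hf
  have hz : map S.rho (C S.pi : MvPolynomial (Fin 3) O) = 0 :=
    (map_eq_zero_iff S _).2 dvd_rfl
  refine rel_zero_dvd (i := 0) h ⟨A - C S.pi * A', B - C S.pi * B', ?_, ?_, ?_⟩
  · rw [pow_succ, C_mul] at a1
    linear_combination a1 + C S.pi * hAB
  · rw [map_sub, map_mul, hz, a2]; ring
  · rw [map_sub, map_mul, hz, a3]; ring

theorem rel_down (h : SatS S c d F G Γ F' G' kk) {i : ℕ} {f : MvPolynomial (Fin 3) O}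
    {q : MvPolynomial (Fin 3) k} (h1 : Rel S F G F' G' (i + 1) f (Γ * q)) :
    C (S.pi ^ i) * f ∈ Ideal.span {F, G} := by
  obtain ⟨A, B, a1, a2, a3⟩ := h1
  obtain ⟨r, rfl⟩ := map_surjective S.rho S.surj q
  have h2 : map S.rho (A - r * G) = 0 := by
    rw [map_sub, map_mul, a2, h.eG]
    ring
  have h3 : map S.rho (B + r * F) = 0 := by
    rw [map_add, map_mul, a3, h.eF]
    ring
  obtain ⟨A', hA'⟩ := (map_eq_zero_iff S _).1 h2
  obtain ⟨B', hB'⟩ := (map_eq_zero_iff S _).1 h3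
  rw [Ideal.mem_span_pair]
  refine ⟨A', B', mul_left_cancel₀ (C_pi_prime S).ne_zero ?_⟩
  rw [pow_succ, C_mul] at a1
  linear_combination (-F) * hA' - G * hB' - a1

end GP80
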