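import Mathlib
import Pool.Agent.H80.GP.Defs
import Pool.Agent.H80.GP.Rla

/-!
# Row Nex (MP_87ed0a_GP): the last layer `n`  (about 90 lines)

`InI h` : some `pi^m h ∈ (F, G)`.
* `exists_last`: there is a smallest `n` with `pi^n h ∈ (F, G)` for all `h` with `InI h`.  Proof: the ideals `J_i = {h : pi^i h ∈ (F,G)}` increase; `O[X]` is
  Noetherian (`O` is a DVR), so they stabilise (`monotone_stabilizes_iff_noetherian`); `Nat.find`.
* `last_rel`: for `1 ≤ i ≤ n` there are `h, q` with `Rel i h q` and `¬ Γ ∣ q`: by minimality there is `f` with `InI f` and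
  `pi^(n-1) f ∉ (F,G)`; put `h = pi^(n-i) f`: `pi^i h = pi^n f ∈ (F,G)`, `pi^(i-1) h = pi^(n-1) f ∉ (F,G)`; `rel_exists` and
  `rel_down` (if `q = Γ q'` then `pi^(i-1) h ∈ (F,G)`).
* `rel_big`: if `i > n` and `Rel i h q`, then `Γ ∣ q`: `InI h`, so `pi^n h ∈ (F,G)`, hence `pi^(i-1) h ∈ (F,G)`, `rel_dvd`.
* `vanish_of_InI`: `InI f → eval (v z) f = 0` (`pi^m f(v) = 0`).
* `InI_of_vanish` : `f` homogeneous vanishing at all points (`gen`).
-/

namespace GP80

set_option linter.unusedSectionVars false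

open MvPolynomial

variable {O k I : Type} [CommRing O] [IsDomain O] [Field k] [Fintype I] {D0 c d kk : ℕ}
  {S : GeoS O k I D0} {F G : MvPolynomial (Fin 3) O} {Γ F' G' : MvPolynomial (Fin 3) k}

/-- `n` is the last layer -/
def IsLast (S : GeoS O k I D0) (F G : MvPolynomial (Fin 3) O) (n : ℕ) : Prop :=
  (∀ f, InI S F G f → C (S.pi ^ n) * f ∈ Ideal.span {F, G}) ∧
    ∀ m < n, ∃ f, InI S F G f ∧ C (S.pi ^ m) * f ∉ Ideal.span {F, G}

omit [IsDomain O] in
theorem Nex_mono (S : GeoS O k I D0) {i j : ℕ} (hij : i ≤ j) {f : MvPolynomial (Fin 3) O}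
    (hf : C (S.pi ^ i) * f ∈ Ideal.span {F, G}) : C (S.pi ^ j) * f ∈ Ideal.span {F, G} := by
  obtain ⟨l, rfl⟩ := Nat.exists_eq_add_of_le hij
  have e : C (S.pi ^ (i + l)) * f = C (S.pi ^ l) * (C (S.pi ^ i) * f) := by
    rw [pow_add, C_mul]
    ring
  rw [e]
  exact Ideal.mul_mem_left _ _ hf

/-- the ideal `{h : pi^i h ∈ (F, G)}` -/
def Nex_J (S : GeoS O k I D0) (F G : MvPolynomial (Fin 3) O) (i : ℕ) :
    Ideal (MvPolynomial (Fin 3) O) where
  carrier := {f | C (S.pi ^ i) * f ∈ Ideal.span {F, G}}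
  add_mem' := by
    intro a b ha hb
    show C (S.pi ^ i) * (a + b) ∈ Ideal.span {F, G}
    rw [mul_add]
    exact Ideal.add_mem _ ha hb
  zero_mem' := by
    show C (S.pi ^ i) * 0 ∈ Ideal.span {F, G}
    rw [mul_zero]
    exact Ideal.zero_mem _
  smul_mem' := by
    intro a b hb
    show C (S.pi ^ i) * (a • b) ∈ Ideal.span {F, G}
    rw [smul_eq_mul, mul_left_comm]
    exact Ideal.mul_mem_left _ _ hb

theorem exists_last [IsNoetherianRing O] (S : GeoS O k I D0) (F G : MvPolynomial (Fin 3) O) :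
    ∃ n, IsLast S F G n := by
  classical
  have h1 : ∃ n, ∀ f, InI S F G f → C (S.pi ^ n) * f ∈ Ideal.span {F, G} := by
    obtain ⟨n, hn⟩ := (monotone_stabilizes_iff_noetherian (R := MvPolynomial (Fin 3) O)
      (M := MvPolynomial (Fin 3) O)).2 inferInstance
      ⟨Nex_J S F G, fun i j hij f hf => Nex_mono S hij hf⟩
    refine ⟨n, fun f hf => ?_⟩
    obtain ⟨m, hm⟩ := hf
    rcases le_total m n with h2 | h2
    · exact Nex_mono S h2 hm
    · have h3 := hn m h2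
      have h4 : f ∈ Nex_J S F G m := hm
      have h5 : Nex_J S F G n = Nex_J S F G m := h3
      rw [← h5] at h4
      exact h4
  refine ⟨Nat.find h1, Nat.find_spec h1, fun m hm => ?_⟩
  have h2 := Nat.find_min h1 hm
  push Not at h2
  exact h2

theorem last_rel (h : SatS S c d F G Γ F' G' kk) {n : ℕ} (hn : IsLast S F G n) {i : ℕ} (h1 : 1 ≤ i)
    (hi : i ≤ n) : ∃ f q, Rel S F G F' G' i f q ∧ ¬ Γ ∣ q := by
  obtain ⟨f, hf1, hf2⟩ := hn.2 (n - 1) (by omega)
  have h2 : C (S.pi ^ i) * (C (S.pi ^ (n - i)) * f) ∈ Ideal.span {F, G} := by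
    rw [← mul_assoc, ← C_mul, ← pow_add, show i + (n - i) = n by omega]
    exact hn.1 f hf1
  obtain ⟨q, hq⟩ := rel_exists h h1 h2
  refine ⟨_, q, hq, ?_⟩
  rintro ⟨q', rfl⟩
  obtain ⟨j, rfl⟩ : ∃ j, i = j + 1 := ⟨i - 1, by omega⟩
  have h3 := rel_down h hq
  rw [← mul_assoc, ← C_mul, ← pow_add, show j + (n - (j + 1)) = n - 1 by omega] at h3
  exact hf2 h3

theorem InI_of_rel {i : ℕ} {f : MvPolynomial (Fin 3) O} {q : MvPolynomial (Fin 3) k}
    (h1 : Rel S F G F' G' i f q) : InI S F G f := by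
  obtain ⟨A, B, a1, _, _⟩ := h1
  exact ⟨i, Ideal.mem_span_pair.2 ⟨A, B, a1.symm⟩⟩

theorem rel_big (h : SatS S c d F G Γ F' G' kk) {n : ℕ} (hn : IsLast S F G n) {i : ℕ} (hi : n < i)
    {f : MvPolynomial (Fin 3) O} {q : MvPolynomial (Fin 3) k} (h1 : Rel S F G F' G' i f q) : Γ ∣ q := by
  have h2 := hn.1 f (InI_of_rel h1)
  obtain ⟨j, rfl⟩ : ∃ j, i = j + 1 := ⟨i - 1, by omega⟩
  exact rel_dvd h h1 (Nex_mono S (by omega) h2)

theorem vanish_of_InI (h : PairS S c d F G) {f : MvPolynomial (Fin 3) O} (hf : InI S F G f) (z : I) :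
    eval (S.v z) f = 0 := by
  obtain ⟨m, hm⟩ := hf
  obtain ⟨A, B, hAB⟩ := Ideal.mem_span_pair.1 hm
  have h1 := congrArg (eval (S.v z)) hAB
  rw [map_add, map_mul, map_mul, map_mul, h.vF, h.vG, mul_zero, mul_zero, add_zero, eval_C] at h1
  rcases mul_eq_zero.1 h1.symm with h2 | h2
  · exact absurd h2 (pow_ne_zero _ S.prime.ne_zero)
  · exact h2

theorem InI_of_vanish (h : PairS S c d F G) {f : MvPolynomial (Fin 3) O} {t : ℕ}
    (ht : f.IsHomogeneous t) (hf : ∀ z, eval (S.v z) f = 0) : InI S F G f := by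
  exact h.gen t f ht hf

end GP80
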