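import Mathlib
import Pool.Agent.H80.GP.Defs
import Pool.Agent.H80.GP.Defs2
import Pool.Agent.H80.GP.La1
import Pool.Agent.H80.GP.La2
import Pool.Agent.H80.GP.La3
import Pool.Agent.H80.GP.Kp1
import Pool.Agent.H80.GP.Rla
import Pool.Agent.H80.GP.Nex
import Pool.Agent.H80.GP.Psi
import Pool.Agent.H80.GP.Ari

/-!
# Row Len (MP_87ed0a_GP): lengths, 1.6 (first half) and 1.7  (about 220 lines)

`t := c + d - 2`, `M := HS O t`, `J0 := JJ S.pi F G t 0` (forms of degree `t` in `(F,G)`).

* `tau_le` : `length (ker ev / J0) ≤ ∑_{1 ≤ i ≤ n} (lam i choose 2)`, `ev = evHom S.v t`.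
  `length_chain_le` (La2) with `J i := JJ S.pi F G t i` and `m i := (lam (i+1)).choose 2`; `JJ .. n = ker ev` (last layer, `gen`, `vanish_of_InI`).
  `hdep`: for `x_j ∈ J (i+1)` choose `q_j` with `Rel (i+1) x_j q_j` homogeneous of degree `t + kk - (c+d) = kk - 2` (zero if `kk < 2`),
  `Δ (i+1) ∣ q_j`.  If all `q_j` are zero take `a = (1,0,..)`; in general `dep_mod` with `Δ (i+1)` and `Γ` and `s = kk - 2`:
  `nz (kk-2 - (kk - lam)) = nz (lam - 2) = (lam).choose 2` (`nz_small`) and `nz(kk-2-kk) = 0`.  Then `Rel (i+1) (∑ a_j x_j) (Γ q')`, `rel_down`.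
* `J0_eq` : every element of `J0` is `A F + B G` with `A, B` homogeneous of degrees `d-2`, `c-2`, so `J0` is the span of `m F` (`m ∈ Mon (d-2)`), `m G` (`m ∈ Mon (c-2)`).
* `bigDet_ne` : if `det (ev β) ≠ 0` then `bigDet e F G β ≠ 0`: a vanishing combination of the rows over `O` is (basis `exists_basisMon`) an identity
  `A F + B G + ∑ a_i β_i = 0`; evaluate: `a = 0`; `kosO`: `A = r G` with `deg A = d - 2 < d`, so `A = 0`, `B = 0`.  (`Matrix.det_ne_zero` iff rows are independent, over a domain: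
  `Matrix.exists_vecMul_eq_zero_iff`.)
* `len_bigDet` : then `length (M / (J0 ⊔ span β)) = multiplicity pi (bigDet e F G β)` by `length_mod_det` (La1) with the monomial basis reindexed by `e`
  (`b.toMatrix u` is the transpose of the matrix in `bigDet`).
* `det_le` (1.7): combine with `length_split` (La3) and `tau_le`.
-/

namespace GP80

open MvPolynomial

variable {O k I : Type} [CommRing O] [IsDomain O] [IsDiscreteValuationRing O] [Field k]
    [Fintype I] [DecidableEq I] {D0 c d kk : ℕ}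

theorem Len_hc_mul {R : Type} [CommRing R] (A : MvPolynomial (Fin 3) R)
    {F : MvPolynomial (Fin 3) R} {a b : ℕ} (hF : F.IsHomogeneous b) :
    homogeneousComponent (a + b) (A * F) = homogeneousComponent a A * F := by
  have h1 : ∀ i, homogeneousComponent (a + b) (homogeneousComponent i A * F) =
      if i = a then homogeneousComponent a A * F else 0 := by
    intro i
    rw [homogeneousComponent_of_mem ((homogeneousComponent_isHomogeneous i A).mul hF)]
    by_cases h : i = a
    · rw [if_pos h, if_pos (by omega), h]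
    · rw [if_neg h, if_neg (by omega)]
  conv_lhs => rw [← sum_homogeneousComponent A]
  rw [Finset.sum_mul, map_sum, Finset.sum_congr rfl fun i _ => h1 i, Finset.sum_ite_eq']
  split_ifs with h
  · rfl
  · rw [Finset.mem_range, not_lt] at h
    rw [homogeneousComponent_eq_zero _ _ (by omega), zero_mul]

theorem Len_deg {t : ℕ} (m : Mon t) : m.1.degree = t := by
  have h := (Finset.mem_finsuppAntidiag.1 m.2).1
  rw [Finsupp.degree_eq_sum]
  exact h

theorem Len_J0 {R : Type} [CommRing R] (pi : R) {F G f : MvPolynomial (Fin 3) R}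
    (hF : F.IsHomogeneous c) (hG : G.IsHomogeneous d) (hc : 2 ≤ c) (hcd : c ≤ d)
    (hf : f.IsHomogeneous (c + d - 2)) (h : C (pi ^ 0) * f ∈ Ideal.span {F, G}) :
    ∃ A B : MvPolynomial (Fin 3) R, A.IsHomogeneous (d - 2) ∧ B.IsHomogeneous (c - 2) ∧
      f = A * F + B * G := by
  rw [pow_zero, C_1, one_mul, Ideal.mem_span_pair] at h
  obtain ⟨A, B, hAB⟩ := h
  refine ⟨homogeneousComponent (d - 2) A, homogeneousComponent (c - 2) B,
    homogeneousComponent_isHomogeneous _ _, homogeneousComponent_isHomogeneous _ _, ?_⟩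
  rw [← Len_hc_mul A hF, ← Len_hc_mul B hG, ← homogeneousComponent_eq_self hf, ← hAB, map_add]
  have e1 : d - 2 + c = c + d - 2 := by omega
  have e2 : c - 2 + d = c + d - 2 := by omega
  rw [e1, e2]

/-- a form is the combination of the monomials -/
theorem Len_exp {R : Type} [CommRing R] {t : ℕ} {A : MvPolynomial (Fin 3) R}
    (hA : A.IsHomogeneous t) : A = ∑ m : Mon t, C (coeff m.1 A) * monomial m.1 1 := by
  obtain ⟨b, hb1, hb2⟩ := exists_basisMon R t
  have h := b.sum_repr (HS.mk A hA)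
  have h2 := congrArg HS.val h
  rw [HS.val_sum] at h2
  rw [HS.val_mk] at h2
  conv_lhs => rw [← h2]
  refine Finset.sum_congr rfl fun m _ => ?_
  rw [HS.val_smul, hb1, hb2, HS.val_mk]

/-- the rows of the big determinant as forms -/
noncomputable def Len_row {R I : Type} [CommRing R] {c d : ℕ} (F G : MvPolynomial (Fin 3) R)
    (β : I → MvPolynomial (Fin 3) R) :
    (Mon (d - 2) ⊕ Mon (c - 2)) ⊕ I → MvPolynomial (Fin 3) R :=
  Sum.elim (Sum.elim (fun m => monomial m.1 (1 : R) * F) (fun m => monomial m.1 (1 : R) * G)) β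

theorem Len_row_hom {R I : Type} [CommRing R] {c d : ℕ} {F G : MvPolynomial (Fin 3) R}
    (hF : F.IsHomogeneous c) (hG : G.IsHomogeneous d) (hc : 2 ≤ c) (hcd : c ≤ d)
    {β : I → MvPolynomial (Fin 3) R} (hβ : ∀ i, (β i).IsHomogeneous (c + d - 2))
    (r : (Mon (d - 2) ⊕ Mon (c - 2)) ⊕ I) : (Len_row F G β r).IsHomogeneous (c + d - 2) := by
  rcases r with (m | m) | i
  · have h := (isHomogeneous_monomial (1 : R) (Len_deg m)).mul hF
    have e1 : d - 2 + c = c + d - 2 := by omega
    rw [e1] at h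
    exact h
  · have h := (isHomogeneous_monomial (1 : R) (Len_deg m)).mul hG
    have e1 : c - 2 + d = c + d - 2 := by omega
    rw [e1] at h
    exact h
  · exact hβ i

/-- the rows of the big determinant in the module of forms -/
noncomputable def Len_u {R I : Type} [CommRing R] {c d : ℕ} {F G : MvPolynomial (Fin 3) R}
    (hF : F.IsHomogeneous c) (hG : G.IsHomogeneous d) (hc : 2 ≤ c) (hcd : c ≤ d)
    {β : I → MvPolynomial (Fin 3) R} (hβ : ∀ i, (β i).IsHomogeneous (c + d - 2))
    (r : (Mon (d - 2) ⊕ Mon (c - 2)) ⊕ I) : HS R (c + d - 2) :=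
  HS.mk (Len_row F G β r) (Len_row_hom hF hG hc hcd hβ r)

theorem Len_mat {R I : Type} [CommRing R] [Fintype I] [DecidableEq I] {c d : ℕ}
    (e : (Mon (d - 2) ⊕ Mon (c - 2)) ⊕ I ≃ Mon (c + d - 2)) {F G : MvPolynomial (Fin 3) R}
    (hF : F.IsHomogeneous c) (hG : G.IsHomogeneous d) (hc : 2 ≤ c) (hcd : c ≤ d)
    {β : I → MvPolynomial (Fin 3) R} (hβ : ∀ i, (β i).IsHomogeneous (c + d - 2)) :
    ∃ b : Module.Basis ((Mon (d - 2) ⊕ Mon (c - 2)) ⊕ I) R (HS R (c + d - 2)),
      (b.toMatrix (Len_u hF hG hc hcd hβ)).det = bigDet e F G β := by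
  obtain ⟨b, hb1, hb2⟩ := exists_basisMon R (c + d - 2)
  refine ⟨b.reindex e.symm, ?_⟩
  unfold bigDet
  rw [← Matrix.det_transpose]
  congr 1
  ext r s
  rw [Matrix.transpose_apply, Module.Basis.toMatrix_apply, Module.Basis.repr_reindex_apply,
    Equiv.symm_symm, hb2]
  rfl

/-- combinations of the rows -/
theorem Len_comb {R I : Type} [CommRing R] [Fintype I] {c d : ℕ} (F G : MvPolynomial (Fin 3) R)
    (β : I → MvPolynomial (Fin 3) R) (v : (Mon (d - 2) ⊕ Mon (c - 2)) ⊕ I → R) :
    ∑ r, C (v r) * Len_row F G β r =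
      (∑ m : Mon (d - 2), C (v (Sum.inl (Sum.inl m))) * monomial m.1 1) * F +
        (∑ m : Mon (c - 2), C (v (Sum.inl (Sum.inr m))) * monomial m.1 1) * G +
        ∑ i, C (v (Sum.inr i)) * β i := by
  rw [Fintype.sum_sum_type, Fintype.sum_sum_type, Finset.sum_mul, Finset.sum_mul]
  unfold Len_row
  simp only [Sum.elim_inl, Sum.elim_inr, mul_assoc]

theorem Len_coeff {R : Type} [CommRing R] {t : ℕ} (w : Mon t → R) (m : Mon t) :
    coeff m.1 (∑ m' : Mon t, C (w m') * monomial m'.1 1) = w m := by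
  rw [coeff_sum, Finset.sum_eq_single m]
  · rw [coeff_C_mul, coeff_monomial, if_pos rfl, mul_one]
  · intro m' _ hm'
    rw [coeff_C_mul, coeff_monomial, if_neg (fun h => hm' (Subtype.ext h)), mul_zero]
  · intro h
    exact absurd (Finset.mem_univ m) h

theorem Len_hom {R : Type} [CommRing R] {t : ℕ} (w : Mon t → R) :
    (∑ m' : Mon t, C (w m') * monomial m'.1 (1 : R)).IsHomogeneous t :=
  IsHomogeneous.sum _ _ _ fun m _ => (isHomogeneous_monomial (1 : R) (Len_deg m)).C_mul _

theorem Len_G_ne (S : GeoS O k I D0) {F G : MvPolynomial (Fin 3) O}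
    {Γ F' G' : MvPolynomial (Fin 3) k} (h : SatS S c d F G Γ F' G' kk) : G ≠ 0 := by
  rintro rfl
  have h1 := h.eG
  rw [map_zero] at h1
  exact mul_ne_zero h.nzΓ h.nzG h1.symm

theorem Len_F_ne (S : GeoS O k I D0) {F G : MvPolynomial (Fin 3) O}
    {Γ F' G' : MvPolynomial (Fin 3) k} (h : SatS S c d F G Γ F' G' kk) : F ≠ 0 := by
  rintro rfl
  have h1 := h.eF
  rw [map_zero] at h1
  exact mul_ne_zero h.nzΓ h.nzF h1.symm

theorem Len_Jn (S : GeoS O k I D0) {F G : MvPolynomial (Fin 3) O}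
    {Γ F' G' : MvPolynomial (Fin 3) k} (h : SatS S c d F G Γ F' G' kk)
    {n : ℕ} (hn : IsLast S F G n) (t : ℕ) :
    JJ S.pi F G t n = LinearMap.ker (evHom S.v t) := by
  ext f
  rw [mem_JJ, LinearMap.mem_ker]
  constructor
  · intro hf
    funext z
    exact vanish_of_InI h.pair ⟨n, hf⟩ z
  · intro hf
    exact hn.1 _ (InI_of_vanish h.pair f.prop fun z => congrFun hf z)

theorem tau_le (S : GeoS O k I D0) {F G : MvPolynomial (Fin 3) O}
    {Γ F' G' : MvPolynomial (Fin 3) k} (h : SatS S c d F G Γ F' G' kk) (hc : 2 ≤ c) (hcd : c ≤ d)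
    {n : ℕ} (hn : IsLast S F G n)
    {Δ E : ℕ → MvPolynomial (Fin 3) k} {lam : ℕ → ℕ} (hp : PsiData S F G Γ F' G' kk n Δ E lam) :
    Module.length O (LinearMap.ker (evHom S.v (c + d - 2)) ⧸
      (JJ S.pi F G (c + d - 2) 0).submoduleOf (LinearMap.ker (evHom S.v (c + d - 2)))) ≤
      ((∑ i ∈ Finset.Icc 1 n, (lam i).choose 2 : ℕ) : ℕ∞) := by
  classical
  rw [← Len_Jn S h hn (c + d - 2)]
  have hsum : ∑ i ∈ Finset.Icc 1 n, (lam i).choose 2 =
      ∑ i ∈ Finset.range n, (lam (i + 1)).choose 2 := by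
    rw [Finset.range_eq_Ico, Finset.sum_Ico_add' (fun i => (lam i).choose 2) 0 n 1]
    rfl
  rw [hsum]
  refine length_chain_le S.rho S.surj S.ker (JJ S.pi F G (c + d - 2)) ?_ ?_
    (fun i => (lam (i + 1)).choose 2) ?_ n
  · intro i f hf
    rw [mem_JJ] at hf ⊢
    rw [pow_succ', C_mul, mul_assoc]
    exact Ideal.mul_mem_left _ _ hf
  · intro i f hf
    rw [mem_JJ] at hf ⊢
    rw [HS.val_smul, ← mul_assoc, ← C_mul, ← pow_succ]
    exact hf
  · intro i x hx
    have hi : 1 ≤ i + 1 := by omega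
    choose q hq1 hq2 hq3 using fun j => rel_exists_hom h hi (x j).prop (hx j)
    rcases Nat.lt_or_ge kk 2 with hk | hk
    · refine ⟨Pi.single 0 1, ⟨0, ?_⟩, ?_⟩
      · rw [Pi.single_eq_same]
        exact fun hd => S.prime.not_isUnit (isUnit_of_dvd_one hd)
      · rw [Finset.sum_eq_single 0]
        · rw [Pi.single_eq_same, one_smul, mem_JJ]
          refine rel_down h (q := 0) ?_
          rw [mul_zero, ← hq3 0 (by omega)]
          exact hq1 0
        · intro j _ hj
          rw [Pi.single_eq_of_ne hj, zero_smul]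
        · intro h0
          exact absurd (Finset.mem_univ _) h0
    · have hs : c + d - 2 + kk - (c + d) = kk - 2 := by omega
      have hqh : ∀ j, (q j).IsHomogeneous (kk - 2) := fun j => hs ▸ hq2 j (by omega)
      have hle := hp.le (i + 1) hi
      have hm : nz (((kk - 2 : ℕ) : ℤ) - ((kk - lam (i + 1) : ℕ) : ℤ)) ≤
          (lam (i + 1)).choose 2 + nz (((kk - 2 : ℕ) : ℤ) - (kk : ℤ)) := by
        have e1 : ((kk - 2 : ℕ) : ℤ) - ((kk - lam (i + 1) : ℕ) : ℤ) = (lam (i + 1) : ℤ) - 2 := by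
          omega
        rw [e1, nz_small]
        exact Nat.le_add_right _ _
      obtain ⟨a', ha', hdv⟩ := dep_mod (Δ (i + 1)) Γ (kk - lam (i + 1)) kk (hp.hΔ _ hi) h.hΓ
        ⟨E (i + 1), hp.fac _ hi⟩ h.nzΓ (kk - 2) ((lam (i + 1)).choose 2) hm q hqh
        fun j => hp.dvd _ hi _ _ (hq1 j)
      choose a ha using fun j => S.surj (a' j)
      obtain ⟨j0, hj0⟩ : ∃ j, a' j ≠ 0 := by
        by_contra hcon
        push Not at hcon
        exact ha' (funext hcon)
      refine ⟨a, ⟨j0, fun hd => hj0 ?_⟩, ?_⟩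
      · rw [← ha j0]
        exact (S.ker _).2 hd
      · rw [mem_JJ]
        obtain ⟨q', hq'⟩ := hdv
        refine rel_down h (q := q') ?_
        rw [← hq', HS.val_sum]
        have key : ∀ s : Finset (Fin ((lam (i + 1)).choose 2 + 1)),
            Rel S F G F' G' (i + 1) (∑ j ∈ s, (a j • x j).val) (∑ j ∈ s, C (a' j) * q j) := by
          intro s
          induction s using Finset.induction_on with
          | empty =>
            have h0 := rel_syz h (i + 1) 0
            rw [mul_zero] at h0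
            rw [Finset.sum_empty, Finset.sum_empty]
            exact h0
          | insert j s hj ih =>
            rw [Finset.sum_insert hj, Finset.sum_insert hj]
            refine rel_add ?_ ih
            have h1 := rel_smul (hq1 j) (C (a j))
            rw [map_C, ha j] at h1
            rw [HS.val_smul]
            exact h1
        exact key Finset.univ

theorem bigDet_ne (S : GeoS O k I D0) {F G : MvPolynomial (Fin 3) O}
    {Γ F' G' : MvPolynomial (Fin 3) k} (h : SatS S c d F G Γ F' G' kk) (hc : 2 ≤ c) (hcd : c ≤ d)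
    (e : (Mon (d - 2) ⊕ Mon (c - 2)) ⊕ I ≃ Mon (c + d - 2)) (β : I → MvPolynomial (Fin 3) O)
    (hβ : ∀ i, (β i).IsHomogeneous (c + d - 2))
    (hdet : Matrix.det (Matrix.of fun i z => eval (S.v z) (β i)) ≠ 0) : bigDet e F G β ≠ 0 := by
  classical
  intro h0
  obtain ⟨w, hw0, hw⟩ := Matrix.exists_vecMul_eq_zero_iff.2 h0
  -- the combination of the rows vanishes
  have hcomb : ∑ r, C (w r) * Len_row F G β r = 0 := by
    have hhom : (∑ r, C (w r) * Len_row F G β r).IsHomogeneous (c + d - 2) :=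
      IsHomogeneous.sum _ _ _ fun r _ =>
        (Len_row_hom h.pair.hF h.pair.hG hc hcd hβ r).C_mul _
    rw [Len_exp hhom]
    refine Finset.sum_eq_zero fun m _ => ?_
    have h1 := congrFun hw (e.symm m)
    rw [Matrix.vecMul, dotProduct] at h1
    have h2 : coeff m.1 (∑ r, C (w r) * Len_row F G β r) = 0 := by
      rw [coeff_sum]
      refine Eq.trans (Finset.sum_congr rfl fun r _ => ?_) h1
      rw [coeff_C_mul]
      show w r * _ = w r * coeff (e (e.symm m)).1 _
      rw [e.apply_symm_apply]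
      rfl
    rw [h2, C_0, zero_mul]
  rw [Len_comb] at hcomb
  -- evaluation
  have hI : (fun i => w (Sum.inr i)) = 0 := by
    refine Matrix.eq_zero_of_vecMul_eq_zero hdet ?_
    funext z
    have h1 := congrArg (eval (S.v z)) hcomb
    rw [map_add, map_add, map_mul, map_mul, h.pair.vF, h.pair.vG, mul_zero, mul_zero, zero_add,
      zero_add, map_sum, map_zero] at h1
    rw [Matrix.vecMul, dotProduct]
    refine Eq.trans (Finset.sum_congr rfl fun i _ => ?_) h1
    rw [map_mul, eval_C]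
    rfl
  have hI' : ∀ i, w (Sum.inr i) = 0 := fun i => congrFun hI i
  have h3 : ∑ i, C (w (Sum.inr i)) * β i = 0 :=
    Finset.sum_eq_zero fun i _ => by rw [hI', C_0, zero_mul]
  rw [h3, add_zero] at hcomb
  obtain ⟨r, hr1, hr2⟩ := kosO h _ _ hcomb
  have hA : ∑ m : Mon (d - 2), C (w (Sum.inl (Sum.inl m))) * monomial m.1 (1 : O) = 0 := by
    by_contra hne
    have h4 := (Len_hom fun m : Mon (d - 2) => w (Sum.inl (Sum.inl m))).totalDegree hne
    have hr0 : r ≠ 0 := by
      rintro rfl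
      rw [zero_mul] at hr1
      exact hne hr1
    rw [hr1, totalDegree_mul_of_isDomain hr0 (Len_G_ne S h),
      h.pair.hG.totalDegree (Len_G_ne S h)] at h4
    omega
  have hr0 : r = 0 := by
    rw [hA] at hr1
    exact (mul_eq_zero.1 hr1.symm).resolve_right (Len_G_ne S h)
  have hB : ∑ m : Mon (c - 2), C (w (Sum.inl (Sum.inr m))) * monomial m.1 (1 : O) = 0 := by
    rw [hr2, hr0, zero_mul, neg_zero]
  apply hw0
  funext r'
  rcases r' with (m | m) | i
  · have h5 := Len_coeff (fun m : Mon (d - 2) => w (Sum.inl (Sum.inl m))) m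
    rw [hA, coeff_zero] at h5
    exact h5.symm
  · have h5 := Len_coeff (fun m : Mon (c - 2) => w (Sum.inl (Sum.inr m))) m
    rw [hB, coeff_zero] at h5
    exact h5.symm
  · exact hI' i

theorem len_bigDet (S : GeoS O k I D0) {F G : MvPolynomial (Fin 3) O}
    {Γ F' G' : MvPolynomial (Fin 3) k} (h : SatS S c d F G Γ F' G' kk) (hc : 2 ≤ c) (hcd : c ≤ d)
    (e : (Mon (d - 2) ⊕ Mon (c - 2)) ⊕ I ≃ Mon (c + d - 2))
    (β : I → HS O (c + d - 2))
    (hb : bigDet e F G (fun i => (β i).val) ≠ 0) :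
    Module.length O (HS O (c + d - 2) ⧸
      (JJ S.pi F G (c + d - 2) 0 ⊔ Submodule.span O (Set.range β))) =
      ((multiplicity S.pi (bigDet e F G (fun i => (β i).val)) : ℕ) : ℕ∞) := by
  classical
  have hβ : ∀ i, ((fun i => (β i).val) i).IsHomogeneous (c + d - 2) := fun i => (β i).prop
  obtain ⟨b, hbm⟩ := Len_mat e h.pair.hF h.pair.hG hc hcd hβ
  have h1 := length_mod_det S.prime b (Len_u h.pair.hF h.pair.hG hc hcd hβ) (by
    rw [hbm]
    exact hb)
  rw [hbm] at h1
  rw [← h1]
  have hspan : JJ S.pi F G (c + d - 2) 0 ⊔ Submodule.span O (Set.range β) =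
      Submodule.span O (Set.range (Len_u h.pair.hF h.pair.hG hc hcd hβ)) := by
    set u := Len_u h.pair.hF h.pair.hG hc hcd hβ with hu
    have huβ : ∀ i, u (Sum.inr i) = β i := fun i => HS.ext rfl
    have hmem : ∀ r, u r ∈ Submodule.span O (Set.range u) := fun r =>
      Submodule.subset_span ⟨r, rfl⟩
    apply le_antisymm
    · apply sup_le
      · intro f hf
        obtain ⟨A, B, hA, hB, hAB⟩ := Len_J0 S.pi h.pair.hF h.pair.hG hc hcd f.prop hf
        have h2 : f = ∑ m : Mon (d - 2), coeff m.1 A • u (Sum.inl (Sum.inl m)) +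
            ∑ m : Mon (c - 2), coeff m.1 B • u (Sum.inl (Sum.inr m)) := by
          apply HS.ext
          rw [HS.val_add, HS.val_sum, HS.val_sum, hAB]
          conv_lhs => rw [Len_exp hA, Len_exp hB]
          rw [Finset.sum_mul, Finset.sum_mul]
          refine congrArg₂ (· + ·) ?_ ?_
          · refine Finset.sum_congr rfl fun m _ => ?_
            rw [HS.val_smul, mul_assoc]
            rfl
          · refine Finset.sum_congr rfl fun m _ => ?_
            rw [HS.val_smul, mul_assoc]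
            rfl
        rw [h2]
        exact Submodule.add_mem _
          (Submodule.sum_mem _ fun m _ => Submodule.smul_mem _ _ (hmem _))
          (Submodule.sum_mem _ fun m _ => Submodule.smul_mem _ _ (hmem _))
      · rw [Submodule.span_le]
        rintro _ ⟨i, rfl⟩
        rw [← huβ i]
        exact hmem _
    · rw [Submodule.span_le]
      rintro _ ⟨r, rfl⟩
      rcases r with (m | m) | i
      · refine Submodule.mem_sup_left ?_
        rw [mem_JJ]
        exact Ideal.mul_mem_left _ _ (Ideal.mul_mem_left _ _ (Ideal.subset_span (by simp)))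
      · refine Submodule.mem_sup_left ?_
        rw [mem_JJ]
        exact Ideal.mul_mem_left _ _ (Ideal.mul_mem_left _ _ (Ideal.subset_span (by simp)))
      · refine Submodule.mem_sup_right ?_
        rw [huβ]
        exact Submodule.subset_span ⟨i, rfl⟩
  rw [hspan]

theorem det_le (S : GeoS O k I D0) {F G : MvPolynomial (Fin 3) O}
    {Γ F' G' : MvPolynomial (Fin 3) k} (h : SatS S c d F G Γ F' G' kk) (hc : 2 ≤ c) (hcd : c ≤ d)
    {n : ℕ} (hn : IsLast S F G n)
    {Δ E : ℕ → MvPolynomial (Fin 3) k} {lam : ℕ → ℕ} (hp : PsiData S F G Γ F' G' kk n Δ E lam)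
    (e : (Mon (d - 2) ⊕ Mon (c - 2)) ⊕ I ≃ Mon (c + d - 2)) (β : I → MvPolynomial (Fin 3) O)
    (hβ : ∀ i, (β i).IsHomogeneous (c + d - 2))
    (hdet : Matrix.det (Matrix.of fun i z => eval (S.v z) (β i)) ≠ 0) :
    bigDet e F G β ≠ 0 ∧ multiplicity S.pi (bigDet e F G β) ≤
      multiplicity S.pi (Matrix.det (Matrix.of fun i z => eval (S.v z) (β i))) +
        ∑ i ∈ Finset.Icc 1 n, (lam i).choose 2 := by
  classical
  have hne := bigDet_ne S h hc hcd e β hβ hdet
  refine ⟨hne, ?_⟩
  have h1 := len_bigDet S h hc hcd e (fun i => HS.mk (β i) (hβ i)) hne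
  have hL0 : JJ S.pi F G (c + d - 2) 0 ≤ LinearMap.ker (evHom S.v (c + d - 2)) := by
    intro f hf
    rw [LinearMap.mem_ker]
    funext z
    exact vanish_of_InI h.pair ⟨0, hf⟩ z
  have h2 := length_split S.prime (evHom S.v (c + d - 2)) (JJ S.pi F G (c + d - 2) 0) hL0
    (fun i => HS.mk (β i) (hβ i)) hdet
  rw [h1] at h2
  have h3 := h2.trans (add_le_add_right (tau_le S h hc hcd hn hp) _)
  exact_mod_cast h3

end GP80
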