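import Mathlib
import Pool.Agent.H80.GP.Defs
import Pool.Agent.H80.GP.Ezr
import Pool.Agent.H80.GP.Nex

/-!
# Row Omg (MP_87ed0a_GP): `J_z` divides `pi^n` (1.5)  (about 130 lines)

* `sep_form`: for `z` there is a form `Q` over `O` vanishing at `v z'` for all `z' ≠ z` and not vanishing modulo `pi` at `v z` (product over
  `z' ≠ z` of linear forms: `S.dist z z'` gives a linear form over `k` vanishing at the reduction of `v z'` and not at that of `v z`; we need a linear form over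
  `O` vanishing exactly at `v z'`: among the three forms `X_i v'_j - X_j v'_i` (`v' = v z'`) one does not vanish at `v z` modulo `pi`, because
  otherwise the reductions of `v z`, `v z'` are proportional).
* `J_dvd` : with the data of `exists_Ez` (`E = F1 G2 - F2 G1`, `rho E ≠ 0`).  `Q u`, `Q w` are forms vanishing at all points, so
  `pi^n Q u = a1 F + b1 G`, `pi^n Q w = a2 F + b2 G`.  Substituting `F = u F1 + w F2`, `G = u G1 + w G2`:
  `(a1 F1 + b1 G1 - pi^n Q) u + (a1 F2 + b1 G2) w = 0`, so `a1 F1 + b1 G1 - pi^n Q = s w`, `a1 F2 + b1 G2 = - s u`; similarly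
  `a2 F1 + b2 G1 = s' w`, `a2 F2 + b2 G2 - pi^n Q = - s' u`.  Taking determinants
  `(a1 b2 - a2 b1) E = (pi^n Q + s w)(pi^n Q - s' u) + s u s' w = pi^n Q (pi^n Q + s w - s' u)`.  `C pi` is prime in `O[X]` (row Rla
  `C_pi_prime`) and does not divide `E` (`rho E ≠ 0`), so `pi^n ∣ a1 b2 - a2 b1 =: pi^n X`, `X E = Q (pi^n Q + s w - s' u)`.  At `v z`:
  `X(v) J = pi^n Q(v)^2`, and `Q(v)` is not divisible by `pi`; as `O` is a DVR (or: `pi` prime and every nonzero element is `unit * pi^m`) `Q(v)` is a unit, so `J ∣ pi^n`.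
* `J_ne_zero` : for ANY `PairS` (no saturation): same computation with some `n` depending on `Q` (from `gen`): `det * E = pi^n Q(pi^n Q + ...)` at `v z`
  gives `det(v) J = (pi^n Q(v))^2 ≠ 0`.  (Use `two_forms` and the division `F = u F1 + w F2` as in `exists_Ez`.)
-/

namespace GP80

open MvPolynomial

variable {O k I : Type} [CommRing O] [IsDomain O] [IsDiscreteValuationRing O] [Field k] [Fintype I]
  {D0 c d kk : ℕ}

theorem Omg_unit (S : GeoS O k I D0) {a : O} (ha : S.rho a ≠ 0) : IsUnit a := by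
  have h1 : ¬ S.pi ∣ a := fun h => ha ((S.ker a).2 h)
  have h2 := S.prime.irreducible.maximalIdeal_eq
  rw [← IsLocalRing.notMem_maximalIdeal, h2, Ideal.mem_span_singleton]
  exact h1

theorem Omg_lin (S : GeoS O k I D0) {z z' : I} (h : z ≠ z') :
    ∃ l : MvPolynomial (Fin 3) O, l.IsHomogeneous 1 ∧ eval (S.v z') l = 0 ∧
      IsUnit (eval (S.v z) l) := by
  have h1 : ∃ i j, S.rho (S.v z i * S.v z' j - S.v z j * S.v z' i) ≠ 0 := by
    by_contra hn
    push Not at hn
    have hli := LinearIndependent.pair_iff.1 (S.dist z z' h)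
    have h2 : ∀ j, S.rho (S.v z' j) = 0 := by
      intro j
      refine (hli (S.rho (S.v z' j)) (-(S.rho (S.v z j))) ?_).1
      funext i
      have h3 := hn i j
      rw [map_sub, map_mul, map_mul] at h3
      simp only [Pi.add_apply, Pi.smul_apply, smul_eq_mul, Pi.zero_apply]
      linear_combination h3
    have h4 := (hli 0 1 (by
      funext i
      simp [h2])).2
    exact one_ne_zero h4
  obtain ⟨i, j, hij⟩ := h1
  refine ⟨X i * C (S.v z' j) - X j * C (S.v z' i), ?_, ?_, ?_⟩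
  · refine IsHomogeneous.sub ?_ ?_
    · have := (isHomogeneous_X O i).mul (isHomogeneous_C (Fin 3) (S.v z' j))
      simpa using this
    · have := (isHomogeneous_X O j).mul (isHomogeneous_C (Fin 3) (S.v z' i))
      simpa using this
  · simp only [map_sub, map_mul, eval_X, eval_C]
    ring
  · have e : eval (S.v z) (X i * C (S.v z' j) - X j * C (S.v z' i)) =
        S.v z i * S.v z' j - S.v z j * S.v z' i := by
      simp only [map_sub, map_mul, eval_X, eval_C]
    rw [e]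
    exact Omg_unit S hij

theorem sep_form (S : GeoS O k I D0) (z : I) : ∃ (Q : MvPolynomial (Fin 3) O) (t : ℕ),
    Q.IsHomogeneous t ∧ (∀ z', z' ≠ z → eval (S.v z') Q = 0) ∧ IsUnit (eval (S.v z) Q) := by
  classical
  have h : ∀ z', ∃ l : MvPolynomial (Fin 3) O, l.IsHomogeneous 1 ∧
      (z' ≠ z → eval (S.v z') l = 0 ∧ IsUnit (eval (S.v z) l)) := by
    intro z'
    by_cases hz : z' = z
    · exact ⟨0, isHomogeneous_zero _ _ _, fun hn => absurd hz hn⟩
    · obtain ⟨l, h1, h2, h3⟩ := Omg_lin S (z := z) (z' := z') fun hn => hz hn.symm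
      exact ⟨l, h1, fun _ => ⟨h2, h3⟩⟩
  choose l hl1 hl2 using h
  refine ⟨∏ z' ∈ Finset.univ.erase z, l z', ∑ z' ∈ Finset.univ.erase z, 1,
    IsHomogeneous.prod _ _ _ fun z' _ => hl1 z', ?_, ?_⟩
  · intro z' hz'
    rw [map_prod]
    exact Finset.prod_eq_zero (Finset.mem_erase.2 ⟨hz', Finset.mem_univ _⟩) (hl2 z' hz').1
  · rw [map_prod]
    refine Finset.prod_induction _ IsUnit (fun _ _ => IsUnit.mul) isUnit_one ?_
    intro z' hz'
    exact (hl2 z' (Finset.mem_erase.1 hz').1).2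

omit [IsDomain O] [IsDiscreteValuationRing O] in
theorem Omg_core {pn F G u w F1 F2 G1 G2 Q : MvPolynomial (Fin 3) O}
    (hF : F = u * F1 + w * F2) (hG : G = u * G1 + w * G2)
    (hk : ∀ A B, A * u + B * w = 0 → ∃ r, A = r * w ∧ B = -(r * u))
    (h1 : pn * (Q * u) ∈ Ideal.span {F, G}) (h2 : pn * (Q * w) ∈ Ideal.span {F, G}) :
    ∃ D s s' : MvPolynomial (Fin 3) O,
      D * (F1 * G2 - F2 * G1) = pn * (Q * (pn * Q + s * w - s' * u)) := by
  obtain ⟨a1, b1, e1⟩ := Ideal.mem_span_pair.1 h1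
  obtain ⟨a2, b2, e2⟩ := Ideal.mem_span_pair.1 h2
  obtain ⟨s, hs1, hs2⟩ := hk (a1 * F1 + b1 * G1 - pn * Q) (a1 * F2 + b1 * G2) (by
    rw [hF, hG] at e1
    linear_combination e1)
  obtain ⟨s', hs3, hs4⟩ := hk (a2 * F1 + b2 * G1) (a2 * F2 + b2 * G2 - pn * Q) (by
    rw [hF, hG] at e2
    linear_combination e2)
  refine ⟨a1 * b2 - a2 * b1, s, s', ?_⟩
  have k1 : a1 * F1 + b1 * G1 = pn * Q + s * w := by linear_combination hs1
  have k2 : a2 * F2 + b2 * G2 = pn * Q - s' * u := by linear_combination hs4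
  calc (a1 * b2 - a2 * b1) * (F1 * G2 - F2 * G1)
      = (a1 * F1 + b1 * G1) * (a2 * F2 + b2 * G2) -
        (a1 * F2 + b1 * G2) * (a2 * F1 + b2 * G1) := by ring
    _ = (pn * Q + s * w) * (pn * Q - s' * u) - (-(s * u)) * (s' * w) := by
        rw [k1, k2, hs2, hs3]
    _ = pn * (Q * (pn * Q + s * w - s' * u)) := by ring

omit [IsDomain O] [IsDiscreteValuationRing O] in
theorem Omg_grad {u w F F1 F2 : MvPolynomial (Fin 3) O} {v : Fin 3 → O} (hu : eval v u = 0)
    (hw : eval v w = 0) (hF : F = u * F1 + w * F2) :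
    grad F v = eval v F1 • grad u v + eval v F2 • grad w v := by
  funext i
  rw [hF]
  simp only [grad, map_add, pderiv_mul, map_mul, hu, hw, Pi.add_apply, Pi.smul_apply, smul_eq_mul]
  ring

omit [IsDomain O] [IsDiscreteValuationRing O] in
theorem Omg_cross (U W : Fin 3 → O) (a b c e : O) :
    crossProduct (a • U + b • W) (c • U + e • W) = (a * e - b * c) • crossProduct U W := by
  rw [cross_apply, cross_apply]
  ext i
  fin_cases i <;> simp <;> ring

omit [IsDomain O] [IsDiscreteValuationRing O] in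
theorem Omg_J {u w F G F1 F2 G1 G2 : MvPolynomial (Fin 3) O} {v : Fin 3 → O} {J : O}
    (hv : ∃ i, IsUnit (v i)) (hu : eval v u = 0) (hw : eval v w = 0)
    (huw : crossProduct (grad u v) (grad w v) = v) (hF : F = u * F1 + w * F2)
    (hG : G = u * G1 + w * G2) (hJ : IsJ3 F G v J) : eval v (F1 * G2 - F2 * G1) = J := by
  unfold IsJ3 at hJ
  rw [Omg_grad hu hw hF, Omg_grad hu hw hG, Omg_cross, huw] at hJ
  obtain ⟨i, hi⟩ := hv
  have h1 := congrFun hJ i
  simp only [Pi.smul_apply, smul_eq_mul] at h1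
  rw [map_sub, map_mul, map_mul]
  exact hi.mul_right_cancel h1

omit [IsDomain O] [IsDiscreteValuationRing O] in
theorem Omg_line {f : MvPolynomial (Fin 3) O} {t : ℕ} (hf : f.IsHomogeneous t) (v : Fin 3 → O) :
    aeval (fun i => (Polynomial.C (v i) * Polynomial.X : Polynomial O)) f =
      Polynomial.C (eval v f) * Polynomial.X ^ t := by
  rw [aeval_def, eval₂_eq', eval_eq', map_sum, Finset.sum_mul]
  refine Finset.sum_congr rfl fun m hm => ?_
  have h1 : ∑ i, m i = t := by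
    have h2 := hf (mem_support_iff.1 hm)
    rw [← h2, Finsupp.weight_apply, Finsupp.sum_fintype _ _ (by simp)]
    simp
  simp only [mul_pow, Finset.prod_mul_distrib, Finset.prod_pow_eq_pow_sum, h1, map_mul, map_prod,
    map_pow, Polynomial.algebraMap_eq]
  ring

theorem J_ne_zero (S : GeoS O k I D0) {F G : MvPolynomial (Fin 3) O} (hp : PairS S c d F G)
    (hc : 1 ≤ c) (hd : 1 ≤ d) (z : I) {J : O} (hJ : IsJ3 F G (S.v z) J) : J ≠ 0 := by
  obtain ⟨u, w, hu1, hw1, hu, hw, huw, hdiv, hk⟩ := two_forms (S.unim z)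
  obtain ⟨F1, F2, hF⟩ := hdiv F (by rw [Omg_line hp.hF, hp.vF z, map_zero, zero_mul])
  obtain ⟨G1, G2, hG⟩ := hdiv G (by rw [Omg_line hp.hG, hp.vG z, map_zero, zero_mul])
  obtain ⟨Q, t, hQ, hQ0, hQu⟩ := sep_form S z
  have hvan : ∀ x : MvPolynomial (Fin 3) O, eval (S.v z) x = 0 → ∀ z', eval (S.v z') (Q * x) = 0 := by
    intro x hx z'
    rw [map_mul]
    by_cases hz : z' = z
    · rw [hz, hx, mul_zero]
    · rw [hQ0 z' hz, zero_mul]
  obtain ⟨m1, hm1⟩ := hp.gen (t + 1) (Q * u) (hQ.mul hu1) (hvan u hu)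
  obtain ⟨m2, hm2⟩ := hp.gen (t + 1) (Q * w) (hQ.mul hw1) (hvan w hw)
  have h1 : C (S.pi ^ (m1 + m2)) * (Q * u) ∈ Ideal.span {F, G} := by
    have : C (S.pi ^ (m1 + m2)) * (Q * u) = C (S.pi ^ m2) * (C (S.pi ^ m1) * (Q * u)) := by
      rw [pow_add, map_mul]
      ring
    rw [this]
    exact Ideal.mul_mem_left _ _ hm1
  have h2 : C (S.pi ^ (m1 + m2)) * (Q * w) ∈ Ideal.span {F, G} := by
    have : C (S.pi ^ (m1 + m2)) * (Q * w) = C (S.pi ^ m1) * (C (S.pi ^ m2) * (Q * w)) := by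
      rw [pow_add, map_mul]
      ring
    rw [this]
    exact Ideal.mul_mem_left _ _ hm2
  obtain ⟨D, s, s', hD⟩ := Omg_core hF hG hk h1 h2
  have hE := Omg_J (S.unim z) hu hw huw hF hG hJ
  have h3 := congrArg (eval (S.v z)) hD
  rw [map_mul, hE] at h3
  simp only [map_mul, map_sub, map_add, hu, hw, mul_zero, add_zero, sub_zero, eval_C] at h3
  rintro rfl
  rw [mul_zero] at h3
  have h4 : S.pi ^ (m1 + m2) ≠ 0 := pow_ne_zero _ S.prime.ne_zero
  have h5 := hQu.ne_zero
  exact (mul_ne_zero h4 (mul_ne_zero h5 (mul_ne_zero h4 h5))) h3.symm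

theorem J_dvd (S : GeoS O k I D0) {F G : MvPolynomial (Fin 3) O} {Γ F' G' : MvPolynomial (Fin 3) k}
    (h : SatS S c d F G Γ F' G' kk) (hc : 2 ≤ c) (hcd : c ≤ d) {n : ℕ} (hn : IsLast S F G n) (z : I)
    {J : O} (hJ : IsJ3 F G (S.v z) J) : J ∣ S.pi ^ n := by
  have hGne : map S.rho G ≠ 0 := by
    rw [h.eG]
    exact mul_ne_zero h.nzΓ h.nzG
  obtain ⟨u, w, F1, F2, G1, G2, hu1, hw1, -, -, -, -, hu, hw, hF, hG, hk, -, hEJ, -, hE0, -⟩ :=
    exists_Ez S h.pair hc (hc.trans hcd) hGne z hJ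
  obtain ⟨Q, t, hQ, hQ0, hQu⟩ := sep_form S z
  have hvan : ∀ x : MvPolynomial (Fin 3) O, eval (S.v z) x = 0 → ∀ z', eval (S.v z') (Q * x) = 0 := by
    intro x hx z'
    rw [map_mul]
    by_cases hz : z' = z
    · rw [hz, hx, mul_zero]
    · rw [hQ0 z' hz, zero_mul]
  obtain ⟨D, s, s', hD⟩ := Omg_core hF hG hk
    (hn.1 _ (InI_of_vanish h.pair (hQ.mul hu1) (hvan u hu)))
    (hn.1 _ (InI_of_vanish h.pair (hQ.mul hw1) (hvan w hw)))
  have hpr := C_pi_prime S
  have hnd : ¬ C S.pi ∣ F1 * G2 - F2 * G1 := fun hd => hE0 ((map_eq_zero_iff S _).2 hd)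
  have h1 : C S.pi ^ n ∣ D * (F1 * G2 - F2 * G1) := by
    rw [hD, map_pow]
    exact dvd_mul_right _ _
  obtain ⟨Y, hY⟩ := hpr.pow_dvd_of_dvd_mul_right n hnd h1
  have h2 : Y * (F1 * G2 - F2 * G1) = Q * (C (S.pi ^ n) * Q + s * w - s' * u) := by
    have h3 : (C S.pi : MvPolynomial (Fin 3) O) ^ n ≠ 0 := pow_ne_zero _ hpr.ne_zero
    apply mul_left_cancel₀ h3
    rw [← mul_assoc, ← hY, hD, map_pow]
  have h4 := congrArg (eval (S.v z)) h2
  rw [map_mul, hEJ] at h4
  simp only [map_mul, map_sub, map_add, hu, hw, mul_zero, add_zero, sub_zero, eval_C] at h4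
  have h5 : J ∣ S.pi ^ n * (eval (S.v z) Q * eval (S.v z) Q) := by
    refine ⟨eval (S.v z) Y, ?_⟩
    linear_combination -h4
  exact ((hQu.mul hQu).dvd_mul_right).1 h5

end GP80
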