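import Mathlib
import Pool.Agent.H80.GP.Defs
import Pool.Agent.H80.GP.Rla
import Pool.Agent.H80.GP.Nex

/-!
# Row Lst (MP_87ed0a_GP): many points on a line annihilating the last layer (1.2)  (about 200 lines)

Let `n ≥ 1` be the last layer and `H` a nonzero linear form over `k` with `Γ ∣ H q` whenever `Rel n h q`.  Then at least
`c + d - 1` of the reduced points `vb z` lie on `H = 0`.  Here `card I = c d`, `k` is infinite.

Proof.  Let `s` be that number, `N = card I`.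
(a) There are `h*, q*` with `Rel n h* q*`, `¬ Γ ∣ q*` (`last_rel`).  `H` is irreducible (linear); if `H ∤ Γ`, then `Γ, H` are coprime and `Γ ∣ H q*` gives `Γ ∣ q*`;
so `Γ = H Γ1` and `Γ1 ∣ q` for all `Rel n h q`; write `q = Γ1 φ`; `Γ ∣ q` iff `H ∣ φ`.
(b) If `Rel n h q`, `Rel n h' q'` then `Rel n (h h') (rho h q')` and `Rel n (h h') (rho h' q)` (`rel_smul`), so `Γ ∣ rho h q' - rho h' q` (`rel_uniq`), i.e.
`H ∣ rho h φ' - rho h' φ`.                                                                    (*)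
(c) Choose a basis `u1, u2` of the plane `{x ∈ k^3 : ∑ H_i x_i = 0}` and let `res : k[X] → k[s,t]` (`MvPolynomial (Fin 2) k`), `f ↦ f(s u1 + t u2)`; `res f = 0` iff
`H ∣ f`.  Choose two non proportional linear forms `l1, l2` of `k[s,t]` (`X 0`, `X 1`).  For every `z` choose linear forms `e1_z, e2_z` over `O` vanishing at
`v z` with: if `vb z` is not on `H=0`: `res (rho ej_z) = lj` (possible: linear forms on `k^3` vanishing at `vb z` restrict isomorphically to
the plane `H=0`; lift the coefficients to `O` and correct so that the form vanishes at `v z` exactly: `v z` has a unit coordinate); if `vb z` is on `H=0`: `res (rho ej_z) = ` the linear form `m_z` on the plane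
vanishing at `vb z` (nonzero), the same for `j = 1, 2` (take `e1_z = e2_z`).
`h_j := ∏_z ej_z`, homogeneous of degree `N`, vanishing at all points, so `InI`, hence `pi^n h_j ∈ (F,G)` and `Rel n h_j q_j` with `q_j`
homogeneous of degree `N + kk - (c+d)` (`rel_exists_hom`; `N = cd ≥ c+d-...`, if the degree is negative `q_j = 0`), `q_j = Γ1 φ_j`,
`φ_j` homogeneous of degree `N - (c+d-1)` (`deg Γ1 = kk - 1`).  `res (rho h_j) = m * l_j^(N-s)` with `m = ∏_{z on H} m_z ≠ 0`.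
(*) for `h_1, h_2`: `m l1^(N-s) res φ2 = m l2^(N-s) res φ1`, so `l1^(N-s) ∣ res φ1`.
(d) If `res φ1 = 0`: by (*) with `h*`: `res (rho h_1) res φ* = 0`, so `res φ* = 0`, `Γ ∣ q*`, contradiction.  So `res φ1 ≠ 0` is
homogeneous of degree `N - (c+d-1)` (in particular `c+d-1 ≤ N`) and divisible by `l1^(N-s)`: `N - s ≤ N - (c+d-1)`, i.e. `s ≥ c+d-1`.
-/

namespace GP80

open MvPolynomial

section Lst_aux

variable {k : Type} [Field k]

theorem Lst_sum3 {M : Type} [AddCommMonoid M] (f : Fin 3 → M) {j0 j1 j2 : Fin 3}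
    (h01 : j0 ≠ j1) (h02 : j0 ≠ j2) (h12 : j1 ≠ j2) : ∑ i, f i = f j0 + (f j1 + f j2) := by
  have huniv : (Finset.univ : Finset (Fin 3)) = {j0, j1, j2} := by
    symm
    apply Finset.eq_univ_of_card
    rw [Finset.card_eq_three.2 ⟨j0, j1, j2, h01, h02, h12, rfl⟩]
    rfl
  rw [huniv, Finset.sum_insert, Finset.sum_insert, Finset.sum_singleton]
  · simpa using h12
  · simp only [Finset.mem_insert, Finset.mem_singleton, not_or]
    exact ⟨h01, h02⟩

/-- the linear form with coefficients `H` -/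
noncomputable def Lst_lin (H : Fin 3 → k) : MvPolynomial (Fin 3) k := ∑ i, C (H i) * X i

/-- restriction to the plane `H = 0`, as an endomorphism -/
noncomputable def Lst_res (H : Fin 3 → k) (j0 : Fin 3) :
    MvPolynomial (Fin 3) k →ₐ[k] MvPolynomial (Fin 3) k :=
  aeval (fun i => X i - C (if i = j0 then (H j0)⁻¹ else 0) * Lst_lin H)

theorem Lst_res_X (H : Fin 3 → k) (j0 i : Fin 3) :
    Lst_res H j0 (X i) = X i - C (if i = j0 then (H j0)⁻¹ else 0) * Lst_lin H := by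
  rw [Lst_res, aeval_X]

theorem Lst_res_X_ne (H : Fin 3 → k) {j0 i : Fin 3} (h : i ≠ j0) :
    Lst_res H j0 (X i) = X i := by
  rw [Lst_res_X, if_neg h, C_0, zero_mul, sub_zero]

theorem Lst_lin_hom {R : Type} [CommRing R] (H : Fin 3 → R) :
    (∑ i, C (H i) * X i : MvPolynomial (Fin 3) R).IsHomogeneous 1 :=
  IsHomogeneous.sum _ _ _ fun i _ => (isHomogeneous_X R i).C_mul (H i)

theorem Lst_res_lin {H : Fin 3 → k} {j0 : Fin 3} (h : H j0 ≠ 0) :
    Lst_res H j0 (Lst_lin H) = 0 := by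
  have h1 : Lst_res H j0 (Lst_lin H) =
      ∑ i, C (H i) * (X i - C (if i = j0 then (H j0)⁻¹ else 0) * Lst_lin H) := by
    conv_lhs => rw [Lst_lin]
    rw [map_sum]
    refine Finset.sum_congr rfl fun i _ => ?_
    rw [map_mul, Lst_res_X]
    congr 1
    exact (Lst_res H j0).commutes (H i)
  rw [h1]
  have h2 : ∀ i, C (H i) * (X i - C (if i = j0 then (H j0)⁻¹ else 0) * Lst_lin H) =
      C (H i) * X i - (if i = j0 then Lst_lin H else 0) := by
    intro i
    rw [mul_sub]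
    congr 1
    by_cases hi : i = j0
    · rw [if_pos hi, if_pos hi, hi, ← mul_assoc, ← C_mul, mul_inv_cancel₀ h, C_1, one_mul]
    · rw [if_neg hi, if_neg hi, C_0, zero_mul, mul_zero]
  rw [Finset.sum_congr rfl fun i _ => h2 i, Finset.sum_sub_distrib, Finset.sum_ite_eq',
    if_pos (Finset.mem_univ _)]
  exact sub_self _

theorem Lst_dvd_sub (H : Fin 3 → k) (j0 : Fin 3) (f : MvPolynomial (Fin 3) k) :
    Lst_lin H ∣ f - Lst_res H j0 f := by
  induction f using MvPolynomial.induction_on with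
  | C a =>
    have : Lst_res H j0 (C a) = C a := (Lst_res H j0).commutes a
    rw [this, sub_self]
    exact dvd_zero _
  | add p q hp hq =>
    rw [map_add, add_sub_add_comm]
    exact dvd_add hp hq
  | mul_X p i hp =>
    rw [map_mul]
    have h1 : p * X i - Lst_res H j0 p * Lst_res H j0 (X i) =
        (p - Lst_res H j0 p) * X i + Lst_res H j0 p * (X i - Lst_res H j0 (X i)) := by ring
    rw [h1]
    refine dvd_add (Dvd.dvd.mul_right hp _) (Dvd.dvd.mul_left ?_ _)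
    rw [Lst_res_X, sub_sub_cancel]
    exact dvd_mul_left _ _

theorem Lst_res_zero {H : Fin 3 → k} {j0 : Fin 3} (h : H j0 ≠ 0) (f : MvPolynomial (Fin 3) k) :
    Lst_res H j0 f = 0 ↔ Lst_lin H ∣ f := by
  constructor
  · intro h1
    have h2 := Lst_dvd_sub H j0 f
    rwa [h1, sub_zero] at h2
  · rintro ⟨g, rfl⟩
    rw [map_mul, Lst_res_lin h, zero_mul]

theorem Lst_lin_ne {H : Fin 3 → k} {j0 : Fin 3} (h : H j0 ≠ 0) : Lst_lin H ≠ 0 := by
  intro h1
  have h2 := congrArg (eval (Pi.single j0 (1 : k))) h1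
  rw [Lst_lin, map_sum, map_zero, Finset.sum_eq_single j0] at h2
  · rw [map_mul, eval_C, eval_X, Pi.single_eq_same, mul_one] at h2
    exact h h2
  · intro i _ hi
    rw [map_mul, eval_X, Pi.single_eq_of_ne hi, mul_zero]
  · intro h3
    exact absurd (Finset.mem_univ _) h3

theorem Lst_prime {H : Fin 3 → k} {j0 : Fin 3} (h : H j0 ≠ 0) : Prime (Lst_lin H) := by
  refine ⟨Lst_lin_ne h, ?_, ?_⟩
  · intro hu
    have h1 := hu.map (Lst_res H j0)
    rw [Lst_res_lin h] at h1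
    exact not_isUnit_zero h1
  · intro a b hab
    rw [← Lst_res_zero h, map_mul] at hab
    rcases mul_eq_zero.1 hab with h1 | h1
    · exact Or.inl ((Lst_res_zero h a).1 h1)
    · exact Or.inr ((Lst_res_zero h b).1 h1)

theorem Lst_res_hom (H : Fin 3 → k) (j0 : Fin 3) {f : MvPolynomial (Fin 3) k} {m : ℕ}
    (hf : f.IsHomogeneous m) : (Lst_res H j0 f).IsHomogeneous m := by
  have h1 : ∀ i, (X i - C (if i = j0 then (H j0)⁻¹ else 0) * Lst_lin H :
      MvPolynomial (Fin 3) k).IsHomogeneous 1 := fun i =>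
    (isHomogeneous_X k i).sub ((Lst_lin_hom H).C_mul _)
  have h2 := hf.aeval _ h1
  rw [one_mul] at h2
  exact h2

theorem Lst_eval_res (H : Fin 3 → k) (j0 : Fin 3) (f : MvPolynomial (Fin 3) k) (y : Fin 3 → k)
    (hy : ∑ i, H i * y i = 0) : eval y (Lst_res H j0 f) = eval y f := by
  obtain ⟨t, ht⟩ := Lst_dvd_sub H j0 f
  have h1 := congrArg (eval y) ht
  rw [map_sub, map_mul] at h1
  have h2 : eval y (Lst_lin H) = 0 := by
    rw [Lst_lin, map_sum, ← hy]
    exact Finset.sum_congr rfl fun i _ => by rw [map_mul, eval_C, eval_X]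
  rw [h2, zero_mul] at h1
  exact (sub_eq_zero.1 h1).symm

end Lst_aux

theorem Lst_unit {O k I : Type} [CommRing O] [IsDomain O] [IsDiscreteValuationRing O] [Field k]
    [Fintype I] {D0 : ℕ} (S : GeoS O k I D0) {x : O} (hx : S.rho x ≠ 0) : IsUnit x := by
  by_contra hu
  have h1 : x ∈ IsLocalRing.maximalIdeal O := (IsLocalRing.mem_maximalIdeal x).2 hu
  rw [S.prime.irreducible.maximalIdeal_eq, Ideal.mem_span_singleton] at h1
  exact hx ((S.ker x).2 h1)

theorem Lst_off {O k I : Type} [CommRing O] [IsDomain O] [IsDiscreteValuationRing O] [Field k]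
    [Fintype I] {D0 : ℕ} (S : GeoS O k I D0) (H : Fin 3 → k) (j0 : Fin 3) (hj0 : H j0 ≠ 0) (z : I)
    (hz : ∑ i, H i * S.rho (S.v z i) ≠ 0) (j1 : Fin 3) (h1 : j1 ≠ j0) :
    ∃ e : MvPolynomial (Fin 3) O, e.IsHomogeneous 1 ∧ eval (S.v z) e = 0 ∧
      Lst_res H j0 (map S.rho e) = X j1 := by
  choose w hw using fun i => S.surj (H i)
  have hu : S.rho (∑ i, w i * S.v z i) = ∑ i, H i * S.rho (S.v z i) := by
    rw [map_sum]
    exact Finset.sum_congr rfl fun i _ => by rw [map_mul, hw]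
  obtain ⟨u, hu'⟩ := Lst_unit S (by rw [hu]; exact hz)
  refine ⟨X j1 - C (S.v z j1 * (↑u⁻¹ : O)) * ∑ i, C (w i) * X i, ?_, ?_, ?_⟩
  · exact (isHomogeneous_X O j1).sub ((Lst_lin_hom w).C_mul _)
  · rw [map_sub, map_mul, eval_X, eval_C, map_sum]
    have h2 : ∑ i, eval (S.v z) (C (w i) * X i) = (u : O) := by
      rw [hu']
      exact Finset.sum_congr rfl fun i _ => by rw [map_mul, eval_C, eval_X]
    rw [h2, mul_assoc, Units.inv_mul, mul_one, sub_self]
  · have h3 : map S.rho (∑ i, C (w i) * X i) = Lst_lin H := by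
      rw [map_sum, Lst_lin]
      exact Finset.sum_congr rfl fun i _ => by rw [map_mul, map_C, map_X, hw]
    rw [map_sub, map_mul, map_C, map_X, h3, map_sub, map_mul, Lst_res_lin hj0, mul_zero, sub_zero,
      Lst_res_X_ne H h1]

theorem Lst_on {O k I : Type} [CommRing O] [IsDomain O] [IsDiscreteValuationRing O] [Field k]
    [Fintype I] {D0 : ℕ} (S : GeoS O k I D0) (H : Fin 3 → k) (j0 j1 j2 : Fin 3) (hj0 : H j0 ≠ 0)
    (h01 : j0 ≠ j1) (h02 : j0 ≠ j2) (h12 : j1 ≠ j2) (z : I) :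
    ∃ e : MvPolynomial (Fin 3) O, e.IsHomogeneous 1 ∧ eval (S.v z) e = 0 ∧
      Lst_res H j0 (map S.rho e) ≠ 0 := by
  obtain ⟨a, ha⟩ := S.unim z
  have hva : S.rho (S.v z a) ≠ 0 := (ha.map S.rho).ne_zero
  -- the two points of the plane
  let y1 : Fin 3 → k := Pi.single j0 (H j1) - Pi.single j1 (H j0)
  let y2 : Fin 3 → k := Pi.single j0 (H j2) - Pi.single j2 (H j0)
  have hy1 : ∑ i, H i * y1 i = 0 := by
    rw [Lst_sum3 _ h01 h02 h12]
    simp [y1, h01, h01.symm, h02.symm, h12.symm, mul_comm]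
  have hy2 : ∑ i, H i * y2 i = 0 := by
    rw [Lst_sum3 _ h01 h02 h12]
    simp [y2, h02, h12, h01.symm, h02.symm, mul_comm]
  have hex : ∃ y : Fin 3 → k, ∑ i, H i * y i = 0 ∧
      ∃ i, S.rho (S.v z a) * y i - S.rho (S.v z i) * y a ≠ 0 := by
    by_contra hcon
    push Not at hcon
    have e1 := hcon y1 hy1
    have e2 := hcon y2 hy2
    have a1 : y1 j2 = 0 := by simp [y1, h02.symm, h12.symm]
    have a2 : y1 j1 = - H j0 := by simp [y1, h01.symm]
    have a3 : y2 j2 = - H j0 := by simp [y2, h02.symm]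
    have b1 := e1 j2
    have b2 := e1 j1
    have b3 := e2 j2
    rw [a1, mul_zero, zero_sub, neg_eq_zero] at b1
    rw [a2] at b2
    rw [a3] at b3
    rcases mul_eq_zero.1 b1 with c1 | c1
    · rw [c1, zero_mul, sub_zero] at b3
      rcases mul_eq_zero.1 b3 with c2 | c2
      · exact hva c2
      · exact hj0 (neg_eq_zero.1 c2)
    · rw [c1, mul_zero, sub_zero] at b2
      rcases mul_eq_zero.1 b2 with c2 | c2
      · exact hva c2
      · exact hj0 (neg_eq_zero.1 c2)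
  obtain ⟨y, hy, i, hi⟩ := hex
  refine ⟨C (S.v z a) * X i - C (S.v z i) * X a, ?_, ?_, ?_⟩
  · exact ((isHomogeneous_X O i).C_mul _).sub ((isHomogeneous_X O a).C_mul _)
  · rw [map_sub, map_mul, map_mul, eval_X, eval_C, eval_X, eval_C]
    ring
  · intro h0
    apply hi
    have h1 := congrArg (eval y) h0
    rw [Lst_eval_res H j0 _ y hy, map_zero] at h1
    rw [← h1, map_sub, map_mul, map_mul, map_C, map_C, map_X, map_X, map_sub, map_mul, map_mul,
      eval_C, eval_C, eval_X, eval_X]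

theorem last_line {O k I : Type} [CommRing O] [IsDomain O] [IsDiscreteValuationRing O] [Field k]
    [CharZero k] [Fintype I] {D0 c d kk : ℕ} (S : GeoS O k I D0) {F G : MvPolynomial (Fin 3) O}
    {Γ F' G' : MvPolynomial (Fin 3) k} (h : SatS S c d F G Γ F' G' kk) (hc : 2 ≤ c) (hcd : c ≤ d)
    (hN : Fintype.card I = c * d) {n : ℕ} (hn : IsLast S F G n) (hn1 : 1 ≤ n)
    (H : Fin 3 → k) (hH : H ≠ 0)
    (hdvd : ∀ f q, Rel S F G F' G' n f q → Γ ∣ (∑ i, C (H i) * X i) * q) :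
    c + d - 1 ≤ Nat.card {z : I // ∑ i, H i * S.rho (S.v z i) = 0} := by
  classical
  obtain ⟨j0, hj0⟩ : ∃ j, H j ≠ 0 := Function.ne_iff.1 hH
  obtain ⟨j1, j2, h01, h02, h12⟩ : ∃ j1 j2 : Fin 3, j0 ≠ j1 ∧ j0 ≠ j2 ∧ j1 ≠ j2 := by
    have : ∀ j0 : Fin 3, ∃ j1 j2 : Fin 3, j0 ≠ j1 ∧ j0 ≠ j2 ∧ j1 ≠ j2 := by decide
    exact this j0
  have hP := Lst_prime hj0
  -- (a)
  obtain ⟨fs, qs, hrs, hqs⟩ := last_rel h hn hn1 le_rfl
  have hlinΓ : Lst_lin H ∣ Γ := by
    by_contra hcon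
    obtain ⟨t, ht⟩ := hdvd fs qs hrs
    have h1 : Lst_lin H ∣ Γ * t := ⟨qs, ht.symm⟩
    rcases hP.dvd_or_dvd h1 with h2 | ⟨t', rfl⟩
    · exact hcon h2
    · apply hqs
      refine ⟨t', mul_left_cancel₀ hP.ne_zero ?_⟩
      calc Lst_lin H * qs = Γ * (Lst_lin H * t') := ht
        _ = Lst_lin H * (Γ * t') := by ring
  obtain ⟨Γ1, hΓ1⟩ := hlinΓ
  have hΓ1ne : Γ1 ≠ 0 := by
    rintro rfl
    exact h.nzΓ (by rw [hΓ1, mul_zero])
  have hfac : ∀ f q, Rel S F G F' G' n f q → ∃ φ, q = Γ1 * φ := by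
    intro f q hr
    obtain ⟨t, ht⟩ := hdvd f q hr
    refine ⟨t, mul_left_cancel₀ hP.ne_zero ?_⟩
    calc Lst_lin H * q = Γ * t := ht
      _ = Lst_lin H * (Γ1 * t) := by rw [hΓ1]; ring
  -- (b)
  have hstar : ∀ f φ f' φ', Rel S F G F' G' n f (Γ1 * φ) → Rel S F G F' G' n f' (Γ1 * φ') →
      Lst_res H j0 (map S.rho f') * Lst_res H j0 φ =
        Lst_res H j0 (map S.rho f) * Lst_res H j0 φ' := by
    intro f φ f' φ' h1 h2
    have h3 := rel_smul h1 f'
    have h4 := rel_smul h2 f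
    rw [mul_comm f f'] at h4
    obtain ⟨t, ht⟩ := rel_uniq h h3 h4
    have h5 : map S.rho f' * φ - map S.rho f * φ' = Lst_lin H * t := by
      apply mul_left_cancel₀ hΓ1ne
      calc Γ1 * (map S.rho f' * φ - map S.rho f * φ') =
          map S.rho f' * (Γ1 * φ) - map S.rho f * (Γ1 * φ') := by ring
        _ = Γ * t := ht
        _ = Γ1 * (Lst_lin H * t) := by rw [hΓ1]; ring
    have h6 := congrArg (Lst_res H j0) h5
    rw [map_sub, map_mul, map_mul, map_mul, Lst_res_lin hj0, zero_mul] at h6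
    exact sub_eq_zero.1 h6
  -- degrees
  have hkk : 1 ≤ kk ∧ Γ1.IsHomogeneous (kk - 1) := by
    have h1 := h.hΓ
    rw [hΓ1] at h1
    exact homog_of_mul_left h1 (Lst_lin_hom H) (by rw [← hΓ1]; exact h.nzΓ)
  -- (c)
  have hch : ∀ z : I, ∃ e1 e2 : MvPolynomial (Fin 3) O, (e1.IsHomogeneous 1 ∧ e2.IsHomogeneous 1 ∧
      eval (S.v z) e1 = 0 ∧ eval (S.v z) e2 = 0) ∧
      (∑ i, H i * S.rho (S.v z i) ≠ 0 → Lst_res H j0 (map S.rho e1) = X j1 ∧
        Lst_res H j0 (map S.rho e2) = X j2) ∧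
      (∑ i, H i * S.rho (S.v z i) = 0 → e1 = e2 ∧ Lst_res H j0 (map S.rho e1) ≠ 0) := by
    intro z
    by_cases hz : ∑ i, H i * S.rho (S.v z i) = 0
    · obtain ⟨e, he1, he2, he3⟩ := Lst_on S H j0 j1 j2 hj0 h01 h02 h12 z
      exact ⟨e, e, ⟨he1, he1, he2, he2⟩, fun h1 => absurd hz h1, fun _ => ⟨rfl, he3⟩⟩
    · obtain ⟨e, he1, he2, he3⟩ := Lst_off S H j0 hj0 z hz j1 h01.symm
      obtain ⟨e', he1', he2', he3'⟩ := Lst_off S H j0 hj0 z hz j2 h02.symm
      exact ⟨e, e', ⟨he1, he1', he2, he2'⟩, fun _ => ⟨he3, he3'⟩, fun h1 => absurd h1 hz⟩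
  choose e1 e2 hA hB hC using hch
  have hNc : c + d ≤ Fintype.card I := by
    rw [hN]
    calc c + d ≤ d + d := by omega
      _ = 2 * d := by ring
      _ ≤ c * d := Nat.mul_le_mul_right d hc
  have hmake : ∀ e : I → MvPolynomial (Fin 3) O, (∀ z, (e z).IsHomogeneous 1) →
      (∀ z, eval (S.v z) (e z) = 0) → ∃ φ, Rel S F G F' G' n (∏ z, e z) (Γ1 * φ) ∧
        (φ ≠ 0 → φ.IsHomogeneous (Fintype.card I + 1 - (c + d))) := by
    intro e he1 he2
    have hh : (∏ z, e z).IsHomogeneous (Fintype.card I) := by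
      have h1 := IsHomogeneous.prod Finset.univ e (fun _ => 1) (fun z _ => he1 z)
      simpa using h1
    have hv : ∀ z, eval (S.v z) (∏ z, e z) = 0 := by
      intro z
      rw [map_prod]
      exact Finset.prod_eq_zero (Finset.mem_univ z) (he2 z)
    have hI := InI_of_vanish h.pair hh hv
    obtain ⟨q, hq1, hq2, -⟩ := rel_exists_hom h hn1 hh (hn.1 _ hI)
    obtain ⟨φ, rfl⟩ := hfac _ _ hq1
    refine ⟨φ, hq1, fun hφ => ?_⟩
    obtain ⟨h3, h4⟩ := homog_of_mul_left (hq2 (by omega)) hkk.2 (mul_ne_zero hΓ1ne hφ)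
    have h5 : Fintype.card I + kk - (c + d) - (kk - 1) = Fintype.card I + 1 - (c + d) := by omega
    rwa [h5] at h4
  obtain ⟨φ1, hR1, hφ1⟩ := hmake e1 (fun z => (hA z).1) (fun z => (hA z).2.2.1)
  obtain ⟨φ2, hR2, -⟩ := hmake e2 (fun z => (hA z).2.1) (fun z => (hA z).2.2.2)
  set P : Finset I := Finset.univ.filter (fun z => ∑ i, H i * S.rho (S.v z i) = 0) with hPdef
  set Q : Finset I := Finset.univ.filter (fun z => ¬ ∑ i, H i * S.rho (S.v z i) = 0) with hQdef
  have hsplit : ∀ (e : I → MvPolynomial (Fin 3) O) (l : MvPolynomial (Fin 3) k),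
      (∀ z ∈ Q, Lst_res H j0 (map S.rho (e z)) = l) →
      Lst_res H j0 (map S.rho (∏ z, e z)) =
        (∏ z ∈ P, Lst_res H j0 (map S.rho (e z))) * l ^ Q.card := by
    intro e l hl
    rw [map_prod, map_prod, ← Finset.prod_filter_mul_prod_filter_not Finset.univ
      (fun z => ∑ i, H i * S.rho (S.v z i) = 0)]
    congr 1
    rw [← Finset.prod_const]
    exact Finset.prod_congr rfl hl
  have hs1 := hsplit e1 (X j1) (fun z hz => ((hB z) (Finset.mem_filter.1 hz).2).1)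
  have hs2 := hsplit e2 (X j2) (fun z hz => ((hB z) (Finset.mem_filter.1 hz).2).2)
  have hPeq : ∏ z ∈ P, Lst_res H j0 (map S.rho (e2 z)) =
      ∏ z ∈ P, Lst_res H j0 (map S.rho (e1 z)) :=
    Finset.prod_congr rfl fun z hz => by rw [((hC z) (Finset.mem_filter.1 hz).2).1]
  have hPne : ∏ z ∈ P, Lst_res H j0 (map S.rho (e1 z)) ≠ 0 :=
    Finset.prod_ne_zero_iff.2 fun z hz => ((hC z) (Finset.mem_filter.1 hz).2).2
  rw [hPeq] at hs2
  -- (d)
  have hres1 : Lst_res H j0 φ1 ≠ 0 := by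
    intro h0
    obtain ⟨φs, rfl⟩ := hfac _ _ hrs
    have h1 := hstar _ _ _ _ hR1 hrs
    rw [h0, mul_zero, hs1] at h1
    have h2 : Lst_res H j0 φs = 0 := by
      rcases mul_eq_zero.1 h1.symm with h3 | h3
      · rcases mul_eq_zero.1 h3 with h4 | h4
        · exact absurd h4 hPne
        · exact absurd h4 (pow_ne_zero _ (X_ne_zero j1))
      · exact h3
    rw [Lst_res_zero hj0] at h2
    obtain ⟨t, rfl⟩ := h2
    apply hqs
    exact ⟨t, by rw [hΓ1]; ring⟩
  have hφ1ne : φ1 ≠ 0 := by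
    rintro rfl
    exact hres1 (map_zero _)
  have hdeg := (Lst_res_hom H j0 (hφ1 hφ1ne)).totalDegree hres1
  have hmain := hstar _ _ _ _ hR1 hR2
  rw [hs1, hs2] at hmain
  have hcan : X j2 ^ Q.card * Lst_res H j0 φ1 = X j1 ^ Q.card * Lst_res H j0 φ2 := by
    apply mul_left_cancel₀ hPne
    rw [← mul_assoc, ← mul_assoc]
    exact hmain
  have hXp : Prime (X j1 : MvPolynomial (Fin 3) k) := MvPolynomial.X_prime
  have hnd : ¬ (X j1 : MvPolynomial (Fin 3) k) ∣ X j2 ^ Q.card := by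
    intro h1
    have h2 := hXp.dvd_of_dvd_pow h1
    rw [MvPolynomial.X_dvd_X] at h2
    rcases h2 with h2
    exact h12 h2
  obtain ⟨g, hg⟩ := hXp.pow_dvd_of_dvd_mul_left Q.card hnd ⟨Lst_res H j0 φ2, hcan⟩
  have hgne : g ≠ 0 := by
    rintro rfl
    exact hres1 (by rw [hg, mul_zero])
  have h7 : Q.card ≤ Fintype.card I + 1 - (c + d) := by
    rw [← hdeg, hg, totalDegree_mul_of_isDomain (pow_ne_zero _ (X_ne_zero j1)) hgne,
      totalDegree_X_pow]
    omega
  have h8 : P.card + Q.card = Fintype.card I := by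
    rw [hPdef, hQdef, Finset.card_filter_add_card_filter_not, Finset.card_univ]
  have h9 : Nat.card {z : I // ∑ i, H i * S.rho (S.v z i) = 0} = P.card := by
    rw [Nat.card_eq_fintype_card, Fintype.card_subtype]
  rw [h9]
  omega

end GP80
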