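import Mathlib
import Pool.Agent.H80.GP.Defs
import Pool.Agent.H80.GP.Cda
import Pool.Agent.H80.GP.Cnx
import Pool.Agent.H80.GP.Rla

/-!
# Row Pol (MP_87ed0a_GP): the connection has at most a simple pole (1.1)  (about 180 lines)

Claim: `pi DF, pi DG ∈ (F,G)`, with homogeneous coefficients; `CharZero k` is assumed.

Proof.  `DF`, `DG` are homogeneous of degrees `c+1`, `d+1` (`DD_homog`) and vanish at the points (`ev_DD` with `F(v)=0`; `der 0 = 0`).  So by `gen` there is `m` with
`pi^m DF, pi^m DG ∈ (F,G)`; take `m` minimal and suppose `m ≥ 2`.  By `rel_exists_hom` there are `q1, q2` with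
`Rel m (DF) q1`, `Rel m (DG) q2`, homogeneous of degrees `1 + kk - d`, `1 + kk - c` resp. (zero if negative).  They are not both divisible by
`Γ` (`rel_down` would lower `m`), in particular not both zero.  `kk < c ≤ d`: if `q2 ≠ 0` then `kk = c - 1` and `q2` is a constant; if `q1 ≠ 0` then
`kk ≥ d - 1`, so `c = d`, `kk = c - 1`, `q1` constant.  Let `M11, .., M22` be the (homogeneous; M11, M22 of degree 1) coefficients of `pi^m DF = M11 F + M12 G`, `pi^m DG = M21 F + M22 G`
with reductions `M11 = q1 G'`, `M12 = - q1 F'`, `M21 = q2 G'`, `M22 = -q2 F'`.  The form `T := rho (M11 + M22) = q1 G' - q2 F'` is not zero: if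
`c < d`, `q1 = 0`, `T = -q2 F' ≠ 0`; if `c = d` and `T = 0`: `q1 G' = q2 F'` with constants, `F', G'` of degree `1` and coprime forces `q1 = q2 = 0`.
By `connection` with `p = pi^m` and `J = J_z = pi^w e` (`w = multiplicity`, `e` unit or just not divisible by `pi`; `J ≠ 0`): `δ J = w pi^(w-1) δ(pi) e + pi^w δ(e)`, so
`(M11+M22)(v) e = pi^(m-1) (w δ(pi) e + pi δ(e)) + pi^m (c+d-1) e` is divisible by `pi` (`m ≥ 2`), i.e. `T(rho v_z) = 0` for every `z`.  The
reduced points span `k^3` (`S.span`), so the linear form `T` is `0`.  Contradiction.  So `m ≤ 1`.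

`theta_z` (second statement): with `m = 1`, dividing by `pi^w`: `(M11 + M22)(v) e = w δ(pi) e + pi (...)`, so
`T(rho v_z) = w * Lz z`, where `Lz z = rho (δ pi)`.
-/

namespace GP80

open MvPolynomial

variable {O k I : Type} [CommRing O] [IsDomain O] [IsDiscreteValuationRing O] [Field k] [CharZero k]
  [Fintype I] {D0 c d kk : ℕ}

section Pol_general
variable {R : Type} [CommRing R]

theorem Pol_comp_mul (A F : MvPolynomial (Fin 3) R) {c : ℕ} (hF : F.IsHomogeneous c) (t : ℕ) :
    homogeneousComponent t (A * F) =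
      if c ≤ t then homogeneousComponent (t - c) A * F else 0 := by
  classical
  conv_lhs => rw [← sum_homogeneousComponent A, Finset.sum_mul, map_sum]
  have h1 : ∀ i, homogeneousComponent t (homogeneousComponent i A * F) =
      if i + c = t then homogeneousComponent i A * F else 0 := by
    intro i
    have h2 : (homogeneousComponent i A * F) ∈ homogeneousSubmodule (Fin 3) R (i + c) :=
      (homogeneousComponent_isHomogeneous i A).mul hF
    rw [homogeneousComponent_of_mem h2]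
    exact if_congr eq_comm rfl rfl
  rw [Finset.sum_congr rfl fun i _ => h1 i]
  split_ifs with hct
  · by_cases hr : t - c ∈ Finset.range (A.totalDegree + 1)
    · rw [Finset.sum_eq_single_of_mem (t - c) hr]
      · rw [if_pos (Nat.sub_add_cancel hct)]
      · intro b _ hb
        rw [if_neg]
        omega
    · have h3 : homogeneousComponent (t - c) A = 0 := by
        apply homogeneousComponent_eq_zero
        rw [Finset.mem_range] at hr
        omega
      rw [h3, zero_mul]
      refine Finset.sum_eq_zero fun i hi => ?_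
      rw [if_neg]
      rintro h4
      apply hr
      have h5 : t - c = i := by omega
      rw [h5]
      exact hi
  · refine Finset.sum_eq_zero fun i _ => ?_
    rw [if_neg]
    omega

/-- homogeneous coefficients -/
theorem Pol_hom {p : R} {h F G A B : MvPolynomial (Fin 3) R} {t c d : ℕ}
    (hh : h.IsHomogeneous t) (hF : F.IsHomogeneous c) (hG : G.IsHomogeneous d)
    (e : C p * h = A * F + B * G) :
    ∃ A' B' : MvPolynomial (Fin 3) R, A'.IsHomogeneous (t - c) ∧ B'.IsHomogeneous (t - d) ∧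
      C p * h = A' * F + B' * G := by
  refine ⟨if c ≤ t then homogeneousComponent (t - c) A else 0,
    if d ≤ t then homogeneousComponent (t - d) B else 0, ?_, ?_, ?_⟩
  · split_ifs
    · exact homogeneousComponent_isHomogeneous _ _
    · exact isHomogeneous_zero _ _ _
  · split_ifs
    · exact homogeneousComponent_isHomogeneous _ _
    · exact isHomogeneous_zero _ _ _
  · have h1 := congrArg (homogeneousComponent t) e
    rw [homogeneousComponent_C_mul, homogeneousComponent_eq_self hh, map_add,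
      Pol_comp_mul A F hF, Pol_comp_mul B G hG] at h1
    rw [h1]
    congr 1
    · split_ifs <;> simp
    · split_ifs <;> simp

end Pol_general

section Pol_field
variable {k : Type} [Field k]

/-- a linear form which vanishes on a spanning set -/
theorem Pol_lin {I : Type} {T : MvPolynomial (Fin 3) k} (hT : T.IsHomogeneous 1)
    (w : I → Fin 3 → k) (hs : Submodule.span k (Set.range w) = ⊤) (h0 : ∀ z, eval (w z) T = 0) :
    T = 0 := by
  have h1 : ∀ i, ∃ a : k, pderiv i T = C a := fun i => by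
    have h2 := hT.pderiv (i := i)
    rw [Nat.sub_self, ← totalDegree_zero_iff_isHomogeneous, totalDegree_eq_zero_iff_eq_C] at h2
    exact ⟨_, h2⟩
  choose a ha using h1
  have hTe : T = ∑ i, X i * C (a i) := by
    have h2 := hT.sum_X_mul_pderiv
    rw [one_smul] at h2
    rw [← h2]
    exact Finset.sum_congr rfl fun i _ => by rw [ha]
  have hev : ∀ u : Fin 3 → k, eval u T = ∑ i, u i * a i := by
    intro u
    rw [hTe, map_sum]
    exact Finset.sum_congr rfl fun i _ => by simp
  let L : (Fin 3 → k) →ₗ[k] k :=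
    { toFun := fun u => ∑ i, u i * a i
      map_add' := fun x y => by simp [add_mul, Finset.sum_add_distrib]
      map_smul' := fun r x => by simp [Finset.mul_sum, mul_assoc] }
  have hL : (⊤ : Submodule k (Fin 3 → k)) ≤ LinearMap.ker L := by
    rw [← hs, Submodule.span_le]
    rintro _ ⟨z, rfl⟩
    rw [SetLike.mem_coe, LinearMap.mem_ker]
    exact (hev (w z)).symm.trans (h0 z)
  have ha0 : ∀ i, a i = 0 := by
    intro i
    have h3 : L (Pi.single i 1) = 0 := hL (Submodule.mem_top)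
    have h4 : L (Pi.single i 1) = a i := by
      change ∑ j, (Pi.single i 1 : Fin 3 → k) j * a j = a i
      rw [Finset.sum_eq_single i]
      · simp
      · intro b _ hb
        simp [hb]
      · intro h
        exact absurd (Finset.mem_univ i) h
    rw [← h4, h3]
  rw [hTe]
  exact Finset.sum_eq_zero fun i _ => by rw [ha0 i, C_0, mul_zero]

/-- the algebra of the reduced relations -/
theorem Pol_alg {F' G' A1 B1 A2 B2 : MvPolynomial (Fin 3) k} {u v : ℕ} (hF' : F'.IsHomogeneous u)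
    (hG' : G'.IsHomogeneous v) (huv : 2 ≤ u + v) (nF : F' ≠ 0) (nG : G' ≠ 0)
    (cop : IsRelPrime F' G') (e1 : A1 * F' + B1 * G' = 0) (e2 : A2 * F' + B2 * G' = 0)
    (hA1 : A1.IsHomogeneous 1) (hT : A1 + B2 = 0) : A1 = 0 ∧ B1 = 0 ∧ A2 = 0 ∧ B2 = 0 := by
  have d1 : G' ∣ A1 := by
    refine IsRelPrime.dvd_of_dvd_mul_right cop.symm ?_
    exact ⟨-B1, by linear_combination e1⟩
  obtain ⟨q1, rfl⟩ := d1
  have d2 : F' ∣ B2 := by
    refine IsRelPrime.dvd_of_dvd_mul_right cop ?_
    exact ⟨-A2, by linear_combination e2⟩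
  obtain ⟨r2, rfl⟩ := d2
  have hB1 : B1 = -(q1 * F') := by
    have h3 : G' * (B1 + q1 * F') = 0 := by linear_combination e1
    rcases mul_eq_zero.1 h3 with h4 | h4
    · exact absurd h4 nG
    · linear_combination h4
  have hA2 : A2 = -(r2 * G') := by
    have h3 : F' * (A2 + r2 * G') = 0 := by linear_combination e2
    rcases mul_eq_zero.1 h3 with h4 | h4
    · exact absurd h4 nF
    · linear_combination h4
  have d3 : F' ∣ q1 := by
    refine IsRelPrime.dvd_of_dvd_mul_left cop ?_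
    exact ⟨-r2, by linear_combination hT⟩
  obtain ⟨s, rfl⟩ := d3
  have hs : s = 0 := by
    by_contra hs
    have hFs : F' * s ≠ 0 := mul_ne_zero nF hs
    have h5 := hA1.totalDegree (mul_ne_zero nG hFs)
    rw [totalDegree_mul_of_isDomain nG hFs, totalDegree_mul_of_isDomain nF hs,
      hF'.totalDegree nF, hG'.totalDegree nG] at h5
    omega
  subst hs
  have hr : F' * r2 = 0 := by linear_combination hT
  have hr2 : r2 = 0 := (mul_eq_zero.1 hr).resolve_left nF
  subst hr2
  refine ⟨by ring, ?_, ?_, by ring⟩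
  · rw [hB1]; ring
  · rw [hA2]; ring

end Pol_field

theorem Pol_eval_map {O k : Type} [CommRing O] [Field k] (ρ : O →+* k) (v : Fin 3 → O)
    (M : MvPolynomial (Fin 3) O) : eval (fun i => ρ (v i)) (map ρ M) = ρ (eval v M) := by
  induction M using MvPolynomial.induction_on with
  | C a => simp
  | add p q hp hq => rw [map_add, map_add, map_add, map_add, hp, hq]
  | mul_X p i hp => rw [map_mul, map_mul, map_mul, map_mul, hp]; simp

section Pol_main
variable {O k I : Type} [CommRing O] [IsDomain O] [IsDiscreteValuationRing O] [Field k]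
  [Fintype I] {D0 c d kk : ℕ}

/-- the connection at a point, reduced -/
theorem Pol_key (S : GeoS O k I D0) {F G : MvPolynomial (Fin 3) O} (h : PairS S c d F G)
    (z : I) {j : O} (hJ : IsJ3 F G (S.v z) j) (hJ0 : j ≠ 0) (m : ℕ)
    {M11 M12 M21 M22 : MvPolynomial (Fin 3) O}
    (h1 : C (S.pi ^ (m + 1)) * DD S.der F = M11 * F + M12 * G)
    (h2 : C (S.pi ^ (m + 1)) * DD S.der G = M21 * F + M22 * G) :
    eval (S.vb z) (map S.rho (M11 + M22)) =
      S.rho (S.pi ^ m) * ((multiplicity S.pi j : k) * S.Lz z) := by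
  have hv0 : ∃ i, S.v z i ≠ 0 := by
    obtain ⟨i, hi⟩ := S.unim z
    exact ⟨i, hi.ne_zero⟩
  have hc := connection S.der (fun i l => S.hder i z l) hv0 h.hF h.hG (h.vF z) (h.vG z) h1 h2 hJ
  have hfin : FiniteMultiplicity S.pi j := FiniteMultiplicity.of_prime_left S.prime hJ0
  obtain ⟨e, he, hne⟩ := hfin.exists_eq_pow_mul_and_not_dvd
  set w := multiplicity S.pi j with hw
  have hρe : S.rho e ≠ 0 := fun h3 => hne ((S.ker e).1 h3)
  have hρpi : S.rho S.pi = 0 := (S.ker S.pi).2 dvd_rfl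
  have hpi0 : S.pi ≠ 0 := S.prime.ne_zero
  -- the derivatives of `j`
  have hder : ∀ i, S.pi * S.der i j = (w : O) * S.pi ^ w * e * S.der i S.pi +
      S.pi ^ (w + 1) * S.der i e := by
    intro i
    rw [he, Derivation.leibniz, Derivation.leibniz_pow]
    simp only [smul_eq_mul, nsmul_eq_mul]
    rcases Nat.eq_zero_or_pos w with h0 | h0
    · rw [h0]
      simp
    · obtain ⟨w', hw'⟩ : ∃ w', w = w' + 1 := ⟨w - 1, by omega⟩
      rw [hw', Nat.add_sub_cancel]
      push_cast
      ring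
  have hsum : S.pi * ∑ i, S.v z i * S.der i j = S.pi ^ w *
      ((w : O) * e * (∑ i, S.v z i * S.der i S.pi) + S.pi * ∑ i, S.v z i * S.der i e) := by
    rw [Finset.mul_sum, Finset.mul_sum, Finset.mul_sum, ← Finset.sum_add_distrib, Finset.mul_sum]
    refine Finset.sum_congr rfl fun i _ => ?_
    have h3 := hder i
    linear_combination (S.v z i) * h3
  have hfact : S.pi * S.pi ^ w * ((eval (S.v z) M11 + eval (S.v z) M22) * e) =
      S.pi * S.pi ^ w * (S.pi ^ m * ((w : O) * e * (∑ i, S.v z i * S.der i S.pi) +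
        S.pi * ∑ i, S.v z i * S.der i e + S.pi * ((c : O) + d - 1) * e)) := by
    have h3 : S.pi * (S.pi ^ (m + 1) * ∑ i, S.v z i * S.der i j) =
        S.pi * ((eval (S.v z) M11 + eval (S.v z) M22) * j -
          S.pi ^ (m + 1) * ((c : O) + d - 1) * j) := by rw [hc]
    have h4 : j = S.pi ^ w * e := he
    rw [h4] at h3
    rw [h4] at hsum
    linear_combination -h3 + S.pi ^ (m + 1) * hsum
  have hcan := mul_left_cancel₀ (mul_ne_zero hpi0 (pow_ne_zero w hpi0)) hfact
  have hρ := congrArg S.rho hcan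
  simp only [map_mul, map_add, map_sum, hρpi, zero_mul, add_zero, map_natCast] at hρ
  have hgoal : eval (S.vb z) (map S.rho (M11 + M22)) =
      S.rho (eval (S.v z) M11) + S.rho (eval (S.v z) M22) := by
    unfold GeoS.vb
    rw [Pol_eval_map, map_add, map_add]
  rw [hgoal]
  apply mul_right_cancel₀ hρe
  rw [hρ]
  unfold GeoS.Lz
  ring

/-- descent -/
theorem Pol_step (S : GeoS O k I D0) {F G : MvPolynomial (Fin 3) O}
    {Γ F' G' : MvPolynomial (Fin 3) k} (h : SatS S c d F G Γ F' G' kk) (hcd : c ≤ d)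
    (J : I → O) (hJ : ∀ z, IsJ3 F G (S.v z) (J z)) (hJ0 : ∀ z, J z ≠ 0) (m : ℕ)
    (h1 : C (S.pi ^ (m + 2)) * DD S.der F ∈ Ideal.span {F, G})
    (h2 : C (S.pi ^ (m + 2)) * DD S.der G ∈ Ideal.span {F, G}) :
    C (S.pi ^ (m + 1)) * DD S.der F ∈ Ideal.span {F, G} ∧
      C (S.pi ^ (m + 1)) * DD S.der G ∈ Ideal.span {F, G} := by
  obtain ⟨a1, b1, e1⟩ := Ideal.mem_span_pair.1 h1
  obtain ⟨a2, b2, e2⟩ := Ideal.mem_span_pair.1 h2
  obtain ⟨A1, B1, hA1, -, E1⟩ := Pol_hom (DD_homog S.der h.pair.hF) h.pair.hF h.pair.hG e1.symm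
  obtain ⟨A2, B2, -, hB2, E2⟩ := Pol_hom (DD_homog S.der h.pair.hG) h.pair.hF h.pair.hG e2.symm
  rw [Nat.add_sub_cancel_left] at hA1 hB2
  have hρpi : S.rho S.pi = 0 := (S.ker S.pi).2 dvd_rfl
  have hT : map S.rho (A1 + B2) = 0 := by
    refine Pol_lin ((hA1.add hB2).map S.rho) (fun z => (fun i => S.rho (S.v z i))) S.span
      fun z => ?_
    have h3 := Pol_key S h.pair z (hJ z) (hJ0 z) (m + 1) E1 E2
    have h4 : S.rho (S.pi ^ (m + 1)) = 0 := by
      rw [map_pow, hρpi, zero_pow (Nat.succ_ne_zero m)]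
    rw [h4, zero_mul] at h3
    exact h3
  have hred : ∀ {f A B : MvPolynomial (Fin 3) O}, C (S.pi ^ (m + 2)) * f = A * F + B * G →
      map S.rho A * F' + map S.rho B * G' = 0 := by
    intro f A B e
    have h3 := congrArg (map S.rho) e
    rw [map_mul, map_C, map_pow, hρpi, zero_pow (Nat.succ_ne_zero _), C_0, zero_mul, map_add,
      map_mul, map_mul, h.eF, h.eG] at h3
    have h4 : Γ * (map S.rho A * F' + map S.rho B * G') = 0 := by linear_combination -h3
    exact (mul_eq_zero.1 h4).resolve_left h.nzΓ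
  have hlt := h.lt
  obtain ⟨z1, z2, z3, z4⟩ := Pol_alg h.hF' h.hG' (by omega) h.nzF h.nzG h.cop (hred E1) (hred E2)
    (hA1.map S.rho) (by rw [← map_add]; exact hT)
  have hpc : (C S.pi : MvPolynomial (Fin 3) O) ≠ 0 := (C_pi_prime S).ne_zero
  have hfin : ∀ {f A B : MvPolynomial (Fin 3) O}, C (S.pi ^ (m + 2)) * f = A * F + B * G →
      map S.rho A = 0 → map S.rho B = 0 → C (S.pi ^ (m + 1)) * f ∈ Ideal.span {F, G} := by
    intro f A B e hA hB
    obtain ⟨x, rfl⟩ := (map_eq_zero_iff S A).1 hA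
    obtain ⟨y, rfl⟩ := (map_eq_zero_iff S B).1 hB
    refine Ideal.mem_span_pair.2 ⟨x, y, ?_⟩
    apply mul_left_cancel₀ hpc
    rw [pow_succ, C_mul] at e
    linear_combination -e
  exact ⟨hfin E1 z1 z2, hfin E2 z3 z4⟩

theorem Pol_sat (S : GeoS O k I D0) {F G : MvPolynomial (Fin 3) O} (h : PairS S c d F G)
    {f : MvPolynomial (Fin 3) O} {t : ℕ} (hf : f.IsHomogeneous t)
    (h0 : ∀ z, eval (S.v z) f = 0) :
    ∃ m : ℕ, C (S.pi ^ m) * DD S.der f ∈ Ideal.span {F, G} := by
  refine h.gen (t + 1) _ (DD_homog S.der hf) fun z => ?_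
  have h1 := ev_DD S.der (S.v z) (fun i l => S.hder i z l) hf
  rw [h0 z] at h1
  simp only [map_zero, mul_zero, Finset.sum_const_zero, sub_zero] at h1
  exact h1.symm

theorem Pol_up (S : GeoS O k I D0) {F G f : MvPolynomial (Fin 3) O} {m n : ℕ} (hmn : m ≤ n)
    (h : C (S.pi ^ m) * f ∈ Ideal.span {F, G}) : C (S.pi ^ n) * f ∈ Ideal.span {F, G} := by
  obtain ⟨l, rfl⟩ := Nat.exists_eq_add_of_le hmn
  rw [pow_add, C_mul, mul_comm (C (S.pi ^ m)), mul_assoc]
  exact Ideal.mul_mem_left _ _ h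

theorem Pol_down (S : GeoS O k I D0) {F G : MvPolynomial (Fin 3) O}
    {Γ F' G' : MvPolynomial (Fin 3) k} (h : SatS S c d F G Γ F' G' kk) (hcd : c ≤ d)
    (J : I → O) (hJ : ∀ z, IsJ3 F G (S.v z) (J z)) (hJ0 : ∀ z, J z ≠ 0) (m : ℕ)
    (h1 : C (S.pi ^ (m + 1)) * DD S.der F ∈ Ideal.span {F, G})
    (h2 : C (S.pi ^ (m + 1)) * DD S.der G ∈ Ideal.span {F, G}) :
    C (S.pi ^ 1) * DD S.der F ∈ Ideal.span {F, G} ∧
      C (S.pi ^ 1) * DD S.der G ∈ Ideal.span {F, G} := by
  induction m with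
  | zero => exact ⟨h1, h2⟩
  | succ m ih =>
    obtain ⟨h3, h4⟩ := Pol_step S h hcd J hJ hJ0 m h1 h2
    exact ih h3 h4

end Pol_main

theorem simple_pole (S : GeoS O k I D0) {F G : MvPolynomial (Fin 3) O}
    {Γ F' G' : MvPolynomial (Fin 3) k} (h : SatS S c d F G Γ F' G' kk) (hc : 2 ≤ c) (hcd : c ≤ d)
    (J : I → O) (hJ : ∀ z, IsJ3 F G (S.v z) (J z)) (hJ0 : ∀ z, J z ≠ 0) :
    ∃ M11 M12 M21 M22 : MvPolynomial (Fin 3) O, M11.IsHomogeneous 1 ∧ M22.IsHomogeneous 1 ∧
      C S.pi * DD S.der F = M11 * F + M12 * G ∧ C S.pi * DD S.der G = M21 * F + M22 * G := by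
  have _ := hc
  obtain ⟨m1, hm1⟩ := Pol_sat S h.pair h.pair.hF h.pair.vF
  obtain ⟨m2, hm2⟩ := Pol_sat S h.pair h.pair.hG h.pair.vG
  obtain ⟨h1, h2⟩ := Pol_down S h hcd J hJ hJ0 (m1 + m2) (Pol_up S (by omega) hm1)
    (Pol_up S (by omega) hm2)
  rw [pow_one] at h1 h2
  obtain ⟨a1, b1, e1⟩ := Ideal.mem_span_pair.1 h1
  obtain ⟨a2, b2, e2⟩ := Ideal.mem_span_pair.1 h2
  obtain ⟨A1, B1, hA1, -, E1⟩ := Pol_hom (DD_homog S.der h.pair.hF) h.pair.hF h.pair.hG e1.symm
  obtain ⟨A2, B2, -, hB2, E2⟩ := Pol_hom (DD_homog S.der h.pair.hG) h.pair.hF h.pair.hG e2.symm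
  rw [Nat.add_sub_cancel_left] at hA1 hB2
  exact ⟨A1, B1, A2, B2, hA1, hB2, E1, E2⟩

theorem theta_z (S : GeoS O k I D0) {F G : MvPolynomial (Fin 3) O}
    {Γ F' G' : MvPolynomial (Fin 3) k} (h : SatS S c d F G Γ F' G' kk)
    (J : I → O) (hJ : ∀ z, IsJ3 F G (S.v z) (J z)) (hJ0 : ∀ z, J z ≠ 0)
    {M11 M12 M21 M22 : MvPolynomial (Fin 3) O}
    (h1 : C S.pi * DD S.der F = M11 * F + M12 * G) (h2 : C S.pi * DD S.der G = M21 * F + M22 * G)
    (z : I) : eval (S.vb z) (map S.rho (M11 + M22)) = (multiplicity S.pi (J z) : k) * S.Lz z := by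
  have h3 := Pol_key S h.pair z (hJ z) (hJ0 z) 0 (by rw [zero_add, pow_one]; exact h1)
    (by rw [zero_add, pow_one]; exact h2)
  rw [h3, pow_zero, map_one, one_mul]

end GP80
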