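import Mathlib
import Pool.Agent.H80.GP.Defs
import Pool.Agent.H80.GP.Cda
import Pool.Agent.H80.GP.Rla

/-!
# Row Tht (MP_87ed0a_GP): D acts on the layers, formula (1) of 1.1  (about 90 lines)

Given `pi DF = M11 F + M12 G`, `pi DG = M21 F + M22 G`, put `Θ = rho (M11 + M22)`.
Then `Rel i h q` (`i ≥ 1`) implies `Rel (i+1) (DD h) ((Θ - i L) q)`.

Proof.  `pi^i h = A F + B G`.  `D` is a derivation (`DD_mul`), `D (C (pi^i)) = i pi^(i-1) D(C pi)`, so
`pi^(i+1) Dh = pi D(pi^i h) - i (D pi) pi^i h = (pi DA + A M11 + B M21 - i (D pi) A) F + (pi DB + A M12 + B M22 - i (D pi) B) G`.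
Reduce the two coefficients: `rho A = q G'`, `rho B = - q F'`, and, reducing `pi DF = ...`, `rho M11 * Γ F' + rho M12 * Γ G' = 0`, so
`rho M11 = r1 G'`, `rho M12 = - r1 F'` and similarly `rho M21 = r2 G'`, `rho M22 = - r2 F'` (as in `rel_exists`).  So
`Θ = r1 G' - r2 F'` and
`rho(first) = q G' r1 G' - q F' r2 G' - i L q G' = (Θ - i L) q G'`,
`rho(second) = - q G' r1 F' + q F' r2 F' + i L q F' = - (Θ - i L) q F'`.
(`rho (D (C pi)) = L = S.LL` by `DD_C`.)
-/

namespace GP80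

open MvPolynomial

private theorem Tht_pow {O : Type} [CommRing O] (der : Fin 3 → Derivation ℤ O O) (a : O) (j : ℕ) :
    DD der (C (a ^ (j + 1)) : MvPolynomial (Fin 3) O) =
      ((j + 1 : ℕ) : MvPolynomial (Fin 3) O) * C (a ^ j) * DD der (C a) := by
  induction j with
  | zero =>
    rw [zero_add, pow_one, pow_zero, C_1, Nat.cast_one, one_mul, one_mul]
  | succ j ih =>
    rw [pow_succ a (j + 1), C_mul, DD_mul, ih, Nat.cast_succ (j + 1)]
    rw [pow_succ a j, C_mul]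
    ring

theorem rel_DD {O k I : Type} [CommRing O] [IsDomain O] [Field k] [Fintype I] {D0 c d kk : ℕ}
    {S : GeoS O k I D0} {F G : MvPolynomial (Fin 3) O}
    {Γ F' G' : MvPolynomial (Fin 3) k} (h : SatS S c d F G Γ F' G' kk)
    {M11 M12 M21 M22 : MvPolynomial (Fin 3) O}
    (h1 : C S.pi * DD S.der F = M11 * F + M12 * G) (h2 : C S.pi * DD S.der G = M21 * F + M22 * G)
    {i : ℕ} (hi : 1 ≤ i) {f : MvPolynomial (Fin 3) O} {q : MvPolynomial (Fin 3) k}
    (hf : Rel S F G F' G' i f q) :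
    Rel S F G F' G' (i + 1) (DD S.der f) ((map S.rho (M11 + M22) - (i : MvPolynomial (Fin 3) k) * S.LL) * q) := by
  obtain ⟨A, B, a1, a2, a3⟩ := hf
  obtain ⟨r1, b1, b2⟩ := Rla_coprime h le_rfl (DD S.der F) M11 M12 (by rw [pow_one, h1])
  obtain ⟨r2, c1, c2⟩ := Rla_coprime h le_rfl (DD S.der G) M21 M22 (by rw [pow_one, h2])
  obtain ⟨j, rfl⟩ : ∃ j, i = j + 1 := ⟨i - 1, by omega⟩
  have hz : map S.rho (C S.pi : MvPolynomial (Fin 3) O) = 0 :=
    (map_eq_zero_iff S _).2 dvd_rfl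
  have hL : map S.rho (DD S.der (C S.pi)) = S.LL := by
    rw [DD_C, map_sum]
    refine Finset.sum_congr rfl fun i _ => ?_
    rw [map_mul, map_X, map_C]
  have e1 : DD S.der (C (S.pi ^ (j + 1)) * f) = DD S.der (A * F + B * G) := by rw [a1]
  rw [DD_mul, DD_add, DD_mul, DD_mul, Tht_pow] at e1
  refine ⟨C S.pi * DD S.der A + A * M11 + B * M21 -
      ((j + 1 : ℕ) : MvPolynomial (Fin 3) O) * DD S.der (C S.pi) * A,
    C S.pi * DD S.der B + A * M12 + B * M22 -
      ((j + 1 : ℕ) : MvPolynomial (Fin 3) O) * DD S.der (C S.pi) * B, ?_, ?_, ?_⟩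
  · rw [pow_succ S.pi (j + 1), C_mul]
    rw [pow_succ S.pi j, C_mul] at a1 e1 ⊢
    linear_combination C S.pi * e1 -
      ((j + 1 : ℕ) : MvPolynomial (Fin 3) O) * DD S.der (C S.pi) * a1 + A * h1 + B * h2
  · rw [map_sub, map_add, map_add, map_mul, map_mul, map_mul, map_mul, map_mul, hz, hL, a2, a3,
      b1, c1, map_add, b1, c2, map_natCast]
    ring
  · rw [map_sub, map_add, map_add, map_mul, map_mul, map_mul, map_mul, map_mul, hz, hL, a2, a3,
      b2, c2, map_add, b1, c2, map_natCast]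
    ring

end GP80
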