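import Mathlib
import Pool.Agent.H80.GP.Defs
import Pool.Agent.H80.GP.Cda
import Pool.Agent.H80.GP.Rla
import Pool.Agent.H80.GP.Nex
import Pool.Agent.H80.GP.Ezr
import Pool.Agent.H80.GP.Omg
import Pool.Agent.H80.GP.Pol
import Pool.Agent.H80.GP.Tht
import Pool.Agent.H80.GP.Lst

/-!
# Row The (MP_87ed0a_GP): `Θ = g L` (end of 1.2)  (about 130 lines)

For `n ≥ 1` the last layer there is `g ≤ n` such that
(1) `Rel i h q → Rel (i+1) (DD h) ((g - i) L q)` for `i ≥ 1`,   (2) `multiplicity pi (J z) = g` whenever `S.Lz z ≠ 0`.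

Proof.  `simple_pole` gives `M11..M22`; `Θ := rho (M11+M22) = ∑ C (θ i) X i`.  `rel_DD` gives (1) with `Θ - i L` in place of `(g-i) L`.
Put `H i = n * rho(der i pi) - θ i`.  For `Rel n h q`: `Rel (n+1) (DD h) ((Θ - n L) q)`, so `Γ ∣ (Θ - nL) q` by `rel_big`; i.e. `Γ ∣ H q`.
If `H = 0`: `Θ = n L`.  If `H ≠ 0`: `last_line` and `S.hPl` (here `D0 = c + d - 1`) give `H = a L`, so `Θ = (n - a) L`.
In both cases `Θ = b L` with `b ∈ k`.  The reduced points span, `L ≠ 0` (`S.hL`), so some `z0` has `Lz z0 ≠ 0`; `theta_z` at `z0`: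
`b = multiplicity pi (J z0) =: g` in `k`.  For any `z` with `Lz z ≠ 0`: `multiplicity (J z) = b = g` in `k`, `CharZero`.
`g ≤ n` by `J_dvd` (`J z0 ∣ pi^n`; `multiplicity`).
-/

namespace GP80

open MvPolynomial

theorem The_lin {k : Type} [CommRing k] {f : MvPolynomial (Fin 3) k} (hf : f.IsHomogeneous 1) :
    f = ∑ i, C (coeff (Finsupp.single i 1) f) * X i := by
  classical
  ext m
  rw [coeff_sum]
  simp only [coeff_C_mul, coeff_X']
  by_cases hm : m.degree = 1
  · obtain ⟨j, hj⟩ : ∃ j, m = Finsupp.single j 1 := (Finsupp.sum_eq_one_iff m).1 hm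
    rw [hj, Finset.sum_eq_single j]
    · simp
    · intro i _ hij
      rw [if_neg, mul_zero]
      intro h
      exact hij (Finsupp.single_left_injective one_ne_zero h)
    · intro h
      exact absurd (Finset.mem_univ j) h
  · have h0 : coeff m f = 0 := hf.coeff_eq_zero hm
    rw [h0]
    symm
    refine Finset.sum_eq_zero fun i _ => ?_
    rw [if_neg, mul_zero]
    intro h
    apply hm
    rw [← h, Finsupp.degree_single]

theorem The_point {O k I : Type} [CommRing O] [Field k] [Fintype I] {D0 : ℕ}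
    (S : GeoS O k I D0) : ∃ z, S.Lz z ≠ 0 := by
  classical
  by_contra hcon
  push Not at hcon
  obtain ⟨i0, hi0⟩ := S.hL
  apply hi0
  let φ : (Fin 3 → k) →ₗ[k] k :=
    { toFun := fun x => ∑ i, x i * S.rho (S.der i S.pi)
      map_add' := fun x y => by
        simp only [Pi.add_apply, add_mul, Finset.sum_add_distrib]
      map_smul' := fun r x => by
        simp only [Pi.smul_apply, smul_eq_mul, Finset.mul_sum, RingHom.id_apply, mul_assoc] }
  have h1 : Submodule.span k (Set.range fun z => (fun i => S.rho (S.v z i))) ≤ LinearMap.ker φ := by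
    rw [Submodule.span_le]
    rintro _ ⟨z, rfl⟩
    rw [SetLike.mem_coe, LinearMap.mem_ker]
    exact hcon z
  rw [S.span] at h1
  have h2 : φ (Pi.single i0 1) = 0 := LinearMap.mem_ker.1 (h1 Submodule.mem_top)
  have h3 : φ (Pi.single i0 1) = S.rho (S.der i0 S.pi) := by
    show ∑ i, (Pi.single i0 (1 : k) : Fin 3 → k) i * S.rho (S.der i S.pi) = _
    rw [Finset.sum_eq_single i0]
    · rw [Pi.single_eq_same, one_mul]
    · intro j _ hj
      rw [Pi.single_eq_of_ne hj, zero_mul]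
    · intro h
      exact absurd (Finset.mem_univ i0) h
  rw [← h3, h2]

theorem theta_eq {O k I : Type} [CommRing O] [IsDomain O] [IsDiscreteValuationRing O] [Field k]
    [CharZero k] [Fintype I] {c d kk : ℕ} (S : GeoS O k I (c + d - 1)) {F G : MvPolynomial (Fin 3) O}
    {Γ F' G' : MvPolynomial (Fin 3) k} (h : SatS S c d F G Γ F' G' kk) (hc : 2 ≤ c) (hcd : c ≤ d)
    (hN : Fintype.card I = c * d) {n : ℕ} (hn : IsLast S F G n) (hn1 : 1 ≤ n)
    (J : I → O) (hJ : ∀ z, IsJ3 F G (S.v z) (J z)) :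
    ∃ g : ℕ, g ≤ n ∧ (∀ z, S.Lz z ≠ 0 → multiplicity S.pi (J z) = g) ∧
      ∀ i f q, 1 ≤ i → Rel S F G F' G' i f q →
        Rel S F G F' G' (i + 1) (DD S.der f)
          ((((g : MvPolynomial (Fin 3) k) - (i : MvPolynomial (Fin 3) k)) * S.LL) * q) := by
  classical
  have hJ0 : ∀ z, J z ≠ 0 := fun z =>
    J_ne_zero S h.pair (by omega) (by omega) z (hJ z)
  obtain ⟨M11, M12, M21, M22, hM1, hM2, e1, e2⟩ := simple_pole S h hc hcd J hJ hJ0
  obtain ⟨Θ, hΘ⟩ : ∃ Θ, Θ = map S.rho (M11 + M22) := ⟨_, rfl⟩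
  have hΘh : Θ.IsHomogeneous 1 := by
    rw [hΘ]
    exact (hM1.add hM2).map S.rho
  obtain ⟨θ, hθ⟩ : ∃ θ : Fin 3 → k, θ = fun i => coeff (Finsupp.single i 1) Θ := ⟨_, rfl⟩
  have hΘs : Θ = ∑ i, C (θ i) * X i := by
    rw [hθ]
    exact The_lin hΘh
  have hrel : ∀ i f q, 1 ≤ i → Rel S F G F' G' i f q →
      Rel S F G F' G' (i + 1) (DD S.der f) ((Θ - (i : MvPolynomial (Fin 3) k) * S.LL) * q) := by
    intro i f q hi hf
    rw [hΘ]
    exact rel_DD h e1 e2 hi hf
  have hLL : S.LL = ∑ i, C (S.rho (S.der i S.pi)) * X i := by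
    rw [GeoS.LL]
    exact Finset.sum_congr rfl fun i _ => mul_comm _ _
  -- the linear form `H`
  obtain ⟨b, hb⟩ : ∃ b : k, ∀ i, θ i = b * S.rho (S.der i S.pi) := by
    obtain ⟨H, hH⟩ : ∃ H : Fin 3 → k, H = fun i => (n : k) * S.rho (S.der i S.pi) - θ i := ⟨_, rfl⟩
    have hHi : ∀ i, H i = (n : k) * S.rho (S.der i S.pi) - θ i := fun i => by rw [hH]
    have hHs : ∑ i, C (H i) * X i = (n : MvPolynomial (Fin 3) k) * S.LL - Θ := by
      rw [hΘs, hLL, Finset.mul_sum, ← Finset.sum_sub_distrib]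
      refine Finset.sum_congr rfl fun i _ => ?_
      rw [hHi, C_sub, C_mul, map_natCast]
      ring
    by_cases hH0 : H = 0
    · refine ⟨n, fun i => ?_⟩
      have h1 := hHi i
      rw [hH0, Pi.zero_apply] at h1
      exact (sub_eq_zero.1 h1.symm).symm
    · have hdvd : ∀ f q, Rel S F G F' G' n f q → Γ ∣ (∑ i, C (H i) * X i) * q := by
        intro f q hf
        have h1 := rel_big h hn (Nat.lt_succ_self n) (hrel n f q hn1 hf)
        rw [hHs]
        have h2 : ((n : MvPolynomial (Fin 3) k) * S.LL - Θ) * q =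
            -((Θ - (n : MvPolynomial (Fin 3) k) * S.LL) * q) := by ring
        rw [h2]
        exact (dvd_neg).2 h1
      obtain ⟨a, ha⟩ := S.hPl H hH0 (last_line S h hc hcd hN hn hn1 H hH0 hdvd)
      refine ⟨n - a, fun i => ?_⟩
      have h1 := hHi i
      rw [ha i] at h1
      linear_combination h1
  have hΘL : Θ = C b * S.LL := by
    rw [hΘs, hLL, Finset.mul_sum]
    refine Finset.sum_congr rfl fun i _ => ?_
    rw [hb i, C_mul, mul_assoc]
  have hval : ∀ z, S.Lz z ≠ 0 → b = (multiplicity S.pi (J z) : k) := by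
    intro z hz
    have h1 := theta_z S h J hJ hJ0 e1 e2 z
    rw [← hΘ, hΘL, map_mul, eval_C] at h1
    have h2 : eval (S.vb z) S.LL = S.Lz z := by
      rw [GeoS.LL, map_sum]
      simp only [map_mul, eval_X, eval_C]
      rfl
    rw [h2] at h1
    exact mul_right_cancel₀ hz h1
  obtain ⟨z0, hz0⟩ := The_point S
  refine ⟨multiplicity S.pi (J z0), ?_, ?_, ?_⟩
  · have h1 : S.pi ^ multiplicity S.pi (J z0) ∣ S.pi ^ n :=
      (pow_multiplicity_dvd _ _).trans (J_dvd S h hc hcd hn z0 (hJ z0))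
    exact (pow_dvd_pow_iff S.prime.ne_zero S.prime.not_isUnit).1 h1
  · intro z hz
    have h1 := hval z hz
    rw [hval z0 hz0] at h1
    exact (Nat.cast_injective h1).symm
  · intro i f q hi hf
    have h1 := hrel i f q hi hf
    have h2 : (Θ - (i : MvPolynomial (Fin 3) k) * S.LL) * q =
        (((multiplicity S.pi (J z0) : MvPolynomial (Fin 3) k) -
          (i : MvPolynomial (Fin 3) k)) * S.LL) * q := by
      rw [hΘL, hval z0 hz0, map_natCast]
      ring
    rw [h2] at h1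
    exact h1

end GP80
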