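import Mathlib

/-!
# Row La4 (MP_87ed0a_GP): dimension of a reduced submodule  (about 150 lines)

`O` DVR with prime `ϖ`, `rho : O → k` the reduction, `M` free of finite rank, `red : M → Mb` semilinear,
surjective, with kernel `ϖ M`.  Let `L ≤ M`, `ev : M → O^I` linear with
`ev x = 0 → ∃ j, ϖ^j x ∈ L`, and suppose that any `m+1` elements `x` of `M` with `ϖ x ∈ L` are dependent modulo `L`.
Then `dim Mb ≤ dim_k span (red L) + card I + m`.

Proof.  `Q = M/L`; `Q/ϖQ ≃ Mb/red(L)` (as `ker red = ϖM`), so we must show `dim_k Q/ϖQ ≤ card I + m`.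
`T` = torsion submodule of `Q` = `{x : ∃ j, ϖ^j x = 0}` (`O` is a DVR: every nonzero element is unit * power of `ϖ`); `T` is finitely generated (Noetherian),
killed by a power of `ϖ`, of finite length.  `Q/T` is finitely generated torsion free, hence free, and its rank is `≤ card I`: `ev` need not vanish
on `L`, so argue with ranks: `rank M - rank L = rank Q = rank (Q/T)`, and `rank (ker ev) ≤ rank L` because
`ϖ^j` maps generators of `ker ev` into `L` (injectively); so `rank (Q/T) ≤ rank M - rank (ker ev) = rank (range ev) ≤ card I`.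
`dim Q/ϖQ ≤ dim T/ϖT + dim (Q/T)/ϖ(Q/T)` (right exactness), the second is `rank (Q/T)` (free).
`dim T/ϖT = dim T[ϖ]` (exact sequence `0 → T[ϖ] → T → T → T/ϖT → 0`, additivity of (finite) length) and
`T[ϖ] = {x : ϖ x ∈ L}/L` has dimension `≤ m` by hypothesis.
-/

namespace GP80

theorem finrank_red_ge {O k : Type} [CommRing O] [IsDomain O] [IsDiscreteValuationRing O] [Field k]
    (rho : O →+* k) (hs : Function.Surjective rho) {ϖ : O} (hϖ : Prime ϖ)
    (hker : ∀ a, rho a = 0 ↔ ϖ ∣ a)
    {M Mb : Type} [AddCommGroup M] [Module O M] [Module.Free O M] [Module.Finite O M]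
    [AddCommGroup Mb] [Module k Mb] [FiniteDimensional k Mb]
    (red : M →ₛₗ[rho] Mb) (hred : Function.Surjective red)
    (hredk : ∀ x, red x = 0 → ∃ y, x = ϖ • y)
    {I : Type} [Fintype I] (ev : M →ₗ[O] (I → O)) (L : Submodule O M)
    (hev : ∀ x, ev x = 0 → ∃ j : ℕ, ϖ ^ j • x ∈ L) (m : ℕ)
    (hdep : ∀ x : Fin (m + 1) → M, (∀ j, ϖ • x j ∈ L) →
      ∃ a : Fin (m + 1) → O, (∃ j, ¬ ϖ ∣ a j) ∧ ∑ j, a j • x j ∈ L) :
    Module.finrank k Mb ≤
      Module.finrank k (Submodule.span k (red '' (L : Set M))) + Fintype.card I + m := by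
  classical
  have hϖ0 : ϖ ≠ 0 := hϖ.ne_zero
  obtain ⟨r, snf⟩ := Submodule.smithNormalForm (Module.Free.chooseBasis O M) L
  obtain ⟨b, hb⟩ : ∃ b, b = snf.bM := ⟨_, rfl⟩
  have F1 : ∀ x ∈ L, ∀ j, j ∉ Set.range snf.f → b.repr x j = 0 := fun x hx j hj => by
    rw [hb]
    exact snf.repr_eq_zero_of_notMem_range ⟨x, hx⟩ hj
  have F2 : ∀ x ∈ L, ∀ i, snf.a i ∣ b.repr x (snf.f i) := fun x hx i => by
    have h1 := snf.repr_apply_embedding_eq_repr_smul ⟨x, hx⟩ (i := i)
    rw [hb]
    refine ⟨snf.bN.repr ⟨x, hx⟩ i, ?_⟩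
    rw [map_smul, Finsupp.smul_apply, smul_eq_mul] at h1
    exact h1
  have F3 : ∀ i, snf.a i • b (snf.f i) ∈ L := fun i => by
    rw [hb, ← snf.snf i]
    exact (snf.bN i).2
  have F4 : ∀ i, snf.a i ≠ 0 := fun i h0 => by
    have h1 := snf.snf i
    rw [h0, zero_smul] at h1
    exact snf.bN.ne_zero i (Subtype.ext h1)
  -- part D
  have hD : Module.finrank k Mb ≤ Fintype.card (Module.Free.ChooseBasisIndex O M) := by
    have h1 : (⊤ : Submodule k Mb) ≤ Submodule.span k (Set.range fun j => red (b j)) := by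
      intro y _
      obtain ⟨x, rfl⟩ := hred y
      rw [← b.sum_repr x, map_sum]
      refine Submodule.sum_mem _ fun j _ => ?_
      rw [map_smulₛₗ]
      exact Submodule.smul_mem _ _ (Submodule.subset_span ⟨j, rfl⟩)
    have h2 := finrank_range_le_card (R := k) (fun j => red (b j))
    rw [Set.finrank, top_le_iff.1 h1, finrank_top] at h2
    exact h2
  -- part A
  have hA : Fintype.card {j // j ∉ Set.range snf.f} ≤ Fintype.card I := by
    have h1 : LinearIndependent O (fun j : {j // j ∉ Set.range snf.f} => ev (b j.1)) := by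
      rw [Fintype.linearIndependent_iff]
      intro g hg i
      have h2 : ev (∑ j, g j • b j.1) = 0 := by
        rw [map_sum, ← hg]
        exact Finset.sum_congr rfl fun j _ => map_smul _ _ _
      obtain ⟨t, ht⟩ := hev _ h2
      have h3 := F1 _ ht i.1 i.2
      rw [map_smul, Finsupp.smul_apply, smul_eq_mul, map_sum, Finsupp.finsetSum_apply] at h3
      have h4 : ∑ j : {j // j ∉ Set.range snf.f}, (b.repr (g j • b j.1)) i.1 = g i := by
        rw [Finset.sum_eq_single i]
        · simp
        · intro j _ hj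
          have : j.1 ≠ i.1 := fun h => hj (Subtype.ext h)
          simp [this]
        · intro h; exact absurd (Finset.mem_univ _) h
      rw [h4] at h3
      exact (mul_eq_zero.1 h3).resolve_left (pow_ne_zero _ hϖ0)
    have h5 := h1.fintype_card_le_finrank
    rwa [Module.finrank_fintype_fun_eq_card] at h5
  have hcard : Fintype.card (Module.Free.ChooseBasisIndex O M) =
      r + Fintype.card {j // j ∉ Set.range snf.f} := by
    have h1 : Fintype.card {j // j ∈ Set.range snf.f} = r := by
      have := Set.card_range_of_injective snf.f.injective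
      rw [Fintype.card_fin] at this
      exact this
    have h2 := Fintype.card_subtype_compl (fun j => j ∈ Set.range snf.f)
    have h3 := Fintype.card_subtype_le (fun j => j ∈ Set.range snf.f)
    omega
  have hr : r = Fintype.card {i : Fin r // ϖ ∣ snf.a i} + Fintype.card {i : Fin r // ¬ ϖ ∣ snf.a i} := by
    have h2 := Fintype.card_subtype_compl (fun i : Fin r => ϖ ∣ snf.a i)
    have h3 := Fintype.card_subtype_le (fun i : Fin r => ϖ ∣ snf.a i)
    rw [Fintype.card_fin] at h2 h3
    omega
  -- part B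
  have hB : Fintype.card {i : Fin r // ϖ ∣ snf.a i} ≤ m := by
    by_contra hcon
    push Not at hcon
    have h1 : Fintype.card (Fin (m + 1)) ≤ Fintype.card {i : Fin r // ϖ ∣ snf.a i} := by
      rw [Fintype.card_fin]
      exact hcon
    obtain ⟨g⟩ := Function.Embedding.nonempty_of_card_le h1
    have h2 : ∀ j, ∃ a' : O, snf.a (g j).1 = ϖ * a' := fun j => (g j).2
    choose a' ha' using h2
    obtain ⟨c, ⟨j, hj⟩, hc⟩ := hdep (fun j => a' j • b (snf.f (g j).1)) (fun j => by
      rw [smul_smul, ← ha' j]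
      exact F3 _)
    have h3 := F2 _ hc (g j).1
    rw [map_sum, Finsupp.finsetSum_apply] at h3
    have h4 : ∑ i, (b.repr (c i • a' i • b (snf.f (g i).1))) (snf.f (g j).1) = c j * a' j := by
      rw [Finset.sum_eq_single j]
      · simp
      · intro i _ hi
        have : snf.f (g i).1 ≠ snf.f (g j).1 := fun h =>
          hi (g.injective (Subtype.ext (snf.f.injective h)))
        simp [this]
      · intro h; exact absurd (Finset.mem_univ _) h
    rw [h4, ha' j] at h3
    have h5 : a' j ≠ 0 := fun h0 => F4 (g j).1 (by rw [ha' j, h0, mul_zero])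
    exact hj ((mul_dvd_mul_iff_right h5).1 h3)
  -- part C
  have hC : Fintype.card {i : Fin r // ¬ ϖ ∣ snf.a i} ≤
      Module.finrank k (Submodule.span k (red '' (L : Set M))) := by
    have h1 : LinearIndependent k
        (fun i : {i : Fin r // ¬ ϖ ∣ snf.a i} => red (b (snf.f i.1))) := by
      rw [Fintype.linearIndependent_iff]
      intro c hc i
      choose e he using fun i => hs (c i)
      have h2 : red (∑ i, e i • b (snf.f i.1)) = 0 := by
        rw [map_sum, ← hc]
        exact Finset.sum_congr rfl fun j _ => by rw [map_smulₛₗ, he]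
      obtain ⟨y, hy⟩ := hredk _ h2
      have h3 : (b.repr (∑ i, e i • b (snf.f i.1))) (snf.f i.1) = e i := by
        rw [map_sum, Finsupp.finsetSum_apply, Finset.sum_eq_single i]
        · simp
        · intro j _ hj
          have : snf.f j.1 ≠ snf.f i.1 := fun h => hj (Subtype.ext (snf.f.injective h))
          simp [this]
        · intro h; exact absurd (Finset.mem_univ _) h
      rw [← he i, hker]
      rw [hy, map_smul, Finsupp.smul_apply, smul_eq_mul] at h3
      exact ⟨_, h3.symm⟩
    rw [← finrank_span_eq_card h1]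
    apply Submodule.finrank_mono
    rw [Submodule.span_le]
    rintro _ ⟨i, rfl⟩
    have h4 : rho (snf.a i.1) ≠ 0 := fun h0 => i.2 ((hker _).1 h0)
    have h5 : red (snf.a i.1 • b (snf.f i.1)) ∈ Submodule.span k (red '' (L : Set M)) :=
      Submodule.subset_span ⟨_, F3 i.1, rfl⟩
    rw [map_smulₛₗ] at h5
    exact (Submodule.smul_mem_iff _ h4).1 h5
  omega

end GP80
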