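import Mathlib
import Pool.Agent.H80.GP.Defs
import Pool.Agent.H80.GP.Defs2
import Pool.Agent.H80.GP.La4
import Pool.Agent.H80.GP.Kp1
import Pool.Agent.H80.GP.Kp2
import Pool.Agent.H80.GP.Kp3
import Pool.Agent.H80.GP.Rla
import Pool.Agent.H80.GP.Nex
import Pool.Agent.H80.GP.Psi
import Pool.Agent.H80.GP.Ari

/-!
# Row Tlb (MP_87ed0a_GP): the tail bound 1.4  (about 220 lines)

`g < n`, `K := lam (g+1)`, `s :=` number of points with `Lz z = 0`.  Claim: `K (c + d - K) ≤ s`.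

Proof.  (a) For `i > g` and `Rel i f q`: `Rel (i+1) (DD f) ((g-i) L q)`, `g - i` is a nonzero constant, so after scaling
(`rel_smul` with a constant lifting `(g-i)⁻¹`) `L q ∈ Ψ_{i+1}` (there is `f'` with `Rel (i+1) f' (L q)`).  Iterating `n - g` times from `i = g+1`:
`L^(n-g) q ∈ Ψ_{n+1}`, so `Γ ∣ L^(n-g) q` for all `Rel (g+1) f q` (`rel_big`), so by `ann` `E (g+1) ∣ L^(n-g)`.  `L` is a nonzero linear form, hence prime, so
`E (g+1) = unit * L^K` (`hE`: its degree is `K`), i.e. `L^K ∣ x ↔ E (g+1) ∣ x`.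
(b) Let `x` be a form with `pi^g x ∈ (F,G)`.  For `Rel (g+1) f q`: `pi^g (x f) ∈ (F,G)` and `Rel (g+1) (x f) (rho x q)`, so `Γ ∣ rho x q` (`rel_dvd`); by `ann`
`E (g+1) ∣ rho x`, `L^K ∣ rho x`.  Also `x(v z) = 0` for all `z` (`vanish_of_InI`), so `rho x (vb z) = 0`, and if `L(vb z) = Lz z ≠ 0`, the form `y = rho x / L^K`
vanishes at `vb z`.
(c) Apply `finrank_red_ge` (La4) with `t := c + d + card I` (any large `t`), `M = HS O t`, `Mb` the same over `k`, `red = redHom`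
(surjective; kernel `pi M`, `map_eq_zero_iff`), `ev = evHom S.v t`, `L = JJ S.pi F G t g`,
`m := nz (t-(c+d)+K) - nz (t-(c+d))`.  `hev`: a form vanishing at all points has `pi^j f ∈ (F,G)` (`gen`), so `pi^j • f ∈ JJ .. g`.
`hdep`: if `pi x_j ∈ JJ g`, i.e. `pi^(g+1) x_j ∈ (F,G)`, choose homogeneous `q_j` of degree `t + kk - (c+d)` with `Rel (g+1) x_j q_j`
(`rel_exists_hom`), `Δ (g+1) ∣ q_j`; `dep_mod` with `Δ = Δ (g+1)` (degree `kk - K`), `Γ` (degree `kk`), `s = t + kk - (c+d)`: some nontrivial combination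
`∑ a_j q_j` is divisible by `Γ`; lift `a_j` to `O`; `Rel (g+1) (∑ a_j x_j) (Γ q')`; `rel_down`: `pi^g ∑ a_j x_j ∈ (F,G)`.
(d) So `nn t ≤ finrank (span red(JJ g)) + card I + m`.  By (b) `span red (JJ g)` is contained in `L^K *` {forms `y` of degree `t - K` vanishing at the `vb z`
with `Lz z ≠ 0`}, of dimension `≤ nn (t-K) - (N - s)` by `pts_indep` (pairwise independent by `S.dist`; `t - K ≥ N`), `N = card I`.
So `nn t + (N - s) ≤ nn (t-K) + N + m`; conclude by `ari_tail`.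
-/

namespace GP80

open MvPolynomial

theorem Tlb_unit {k : Type} [Field k] {p : MvPolynomial (Fin 3) k} (h : p.IsHomogeneous 0) (h0 : p ≠ 0) :
    IsUnit p := by
  have h1 : p = C (coeff 0 p) := by
    rw [← totalDegree_eq_zero_iff_eq_C]
    exact Nat.le_zero.1 h.totalDegree_le
  have h2 : coeff 0 p ≠ 0 := by
    intro h3
    rw [h3, C_0] at h1
    exact h0 h1
  rw [h1]
  exact (isUnit_iff_ne_zero.2 h2).map C

/-- a unit which is a form has degree `0` -/
theorem Tlb_deg {k : Type} [Field k] {p : MvPolynomial (Fin 3) k} {a : ℕ} (h : p.IsHomogeneous a)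
    (hu : IsUnit p) : a = 0 := by
  obtain ⟨q, hq⟩ := hu.exists_right_inv
  have h1 : (p * q).IsHomogeneous 0 := by
    rw [hq]
    exact isHomogeneous_one _ _
  have h2 := (homog_of_mul_left h1 h (by rw [hq]; exact one_ne_zero)).1
  omega

theorem Tlb_LL {O k I : Type} [CommRing O] [Field k] [Fintype I] {D0 : ℕ} (S : GeoS O k I D0) :
    S.LL.IsHomogeneous 1 ∧ S.LL ≠ 0 ∧ ∀ z, eval (S.vb z) S.LL = S.Lz z := by
  refine ⟨?_, ?_, ?_⟩
  · unfold GeoS.LL
    apply IsHomogeneous.sum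
    intro i _
    have h1 := (isHomogeneous_X k i).mul (isHomogeneous_C (Fin 3) (S.rho (S.der i S.pi)))
    simpa using h1
  · intro h0
    obtain ⟨i, hi⟩ := S.hL
    apply hi
    have h1 := congrArg (eval (Pi.single i (1 : k))) h0
    unfold GeoS.LL at h1
    rw [map_sum, map_zero, Finset.sum_eq_single i] at h1
    · simpa using h1
    · intro j _ hj
      simp [hj]
    · intro h
      exact absurd (Finset.mem_univ i) h
  · intro z
    unfold GeoS.LL GeoS.Lz GeoS.vb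
    simp

theorem Tlb_prime {O k I : Type} [CommRing O] [Field k] [Fintype I] {D0 : ℕ} (S : GeoS O k I D0) :
    Prime S.LL := by
  obtain ⟨h1, h0, -⟩ := Tlb_LL S
  rw [← UniqueFactorizationMonoid.irreducible_iff_prime]
  constructor
  · intro hu
    exact one_ne_zero (Tlb_deg h1 hu)
  · intro p q hpq
    have h2 : (p * q).IsHomogeneous 1 := by rw [← hpq]; exact h1
    have h3 : p * q ≠ 0 := by rw [← hpq]; exact h0
    obtain ⟨a, b, hab, ha, hb⟩ := homog_of_mul h2 h3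
    have hp0 : p ≠ 0 := left_ne_zero_of_mul h3
    have hq0 : q ≠ 0 := right_ne_zero_of_mul h3
    rcases Nat.eq_zero_or_pos a with h4 | h4
    · left
      rw [h4] at ha
      exact Tlb_unit ha hp0
    · right
      have h5 : b = 0 := by omega
      rw [h5] at hb
      exact Tlb_unit hb hq0

/-- a form dividing a power of `L` is a power of `L` -/
theorem Tlb_pow {O k I : Type} [CommRing O] [Field k] [Fintype I] {D0 : ℕ} (S : GeoS O k I D0)
    {E : MvPolynomial (Fin 3) k} {K j : ℕ} (hE : E.IsHomogeneous K) (hd : E ∣ S.LL ^ j) :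
    Associated E (S.LL ^ K) := by
  obtain ⟨h1, h0, -⟩ := Tlb_LL S
  obtain ⟨i, -, hi⟩ := (dvd_prime_pow (Tlb_prime S) j).1 hd
  obtain ⟨u, hu⟩ := hi
  have h2 : (E * (u : MvPolynomial (Fin 3) k)).IsHomogeneous i := by
    rw [hu]
    simpa using h1.pow i
  have h3 : E * (u : MvPolynomial (Fin 3) k) ≠ 0 := by
    rw [hu]
    exact pow_ne_zero _ h0
  obtain ⟨h4, h5⟩ := homog_of_mul_left h2 hE h3
  have h6 := Tlb_deg h5 u.isUnit
  have h7 : i = K := by omega
  rw [← h7]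
  exact ⟨u, hu⟩

section
variable {O k I : Type} [CommRing O] [IsDomain O] [Field k]
    [Fintype I] {D0 c d kk : ℕ} {S : GeoS O k I D0} {F G : MvPolynomial (Fin 3) O}
    {Γ F' G' : MvPolynomial (Fin 3) k}

theorem Tlb_step [CharZero k] {g : ℕ}
    (hD : ∀ i f q, 1 ≤ i → Rel S F G F' G' i f q →
        Rel S F G F' G' (i + 1) (DD S.der f)
          ((((g : MvPolynomial (Fin 3) k) - (i : MvPolynomial (Fin 3) k)) * S.LL) * q))
    {i : ℕ} (hi : g < i) {f : MvPolynomial (Fin 3) O} {q : MvPolynomial (Fin 3) k}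
    (h1 : Rel S F G F' G' i f q) : ∃ f', Rel S F G F' G' (i + 1) f' (S.LL * q) := by
  have h2 := hD i f q (by omega) h1
  have h3 : (g : k) - (i : k) ≠ 0 := by
    rw [sub_ne_zero]
    exact_mod_cast hi.ne
  obtain ⟨a, ha⟩ := S.surj ((g : k) - (i : k))⁻¹
  have h4 := rel_smul h2 (C a)
  refine ⟨C a * DD S.der f, ?_⟩
  have h5 : map S.rho (C a) * ((((g : MvPolynomial (Fin 3) k) - (i : MvPolynomial (Fin 3) k)) * S.LL) * q) =
      S.LL * q := by
    rw [map_C, ha]
    have h6 : ((g : MvPolynomial (Fin 3) k) - (i : MvPolynomial (Fin 3) k)) = C ((g : k) - (i : k)) := by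
      rw [C_sub]
      simp
    rw [h6, ← mul_assoc, ← mul_assoc, ← C_mul, inv_mul_cancel₀ h3, C_1, one_mul]
  rw [h5] at h4
  exact h4

theorem Tlb_iter [CharZero k] {g : ℕ}
    (hD : ∀ i f q, 1 ≤ i → Rel S F G F' G' i f q →
        Rel S F G F' G' (i + 1) (DD S.der f)
          ((((g : MvPolynomial (Fin 3) k) - (i : MvPolynomial (Fin 3) k)) * S.LL) * q))
    {f : MvPolynomial (Fin 3) O} {q : MvPolynomial (Fin 3) k}
    (h1 : Rel S F G F' G' (g + 1) f q) (j : ℕ) : ∃ f', Rel S F G F' G' (g + 1 + j) f' (S.LL ^ j * q) := by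
  induction j with
  | zero => exact ⟨f, by simpa using h1⟩
  | succ j ih =>
    obtain ⟨f', hf'⟩ := ih
    obtain ⟨f'', hf''⟩ := Tlb_step hD (by omega) hf'
    refine ⟨f'', ?_⟩
    rw [pow_succ', mul_assoc]
    exact hf''

/-- step (a) -/
theorem Tlb_a [CharZero k] (h : SatS S c d F G Γ F' G' kk) {n : ℕ} (hn : IsLast S F G n)
    {Δ E : ℕ → MvPolynomial (Fin 3) k} {lam : ℕ → ℕ} (hp : PsiData S F G Γ F' G' kk n Δ E lam)
    {g : ℕ} (hg : g < n)
    (hD : ∀ i f q, 1 ≤ i → Rel S F G F' G' i f q →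
        Rel S F G F' G' (i + 1) (DD S.der f)
          ((((g : MvPolynomial (Fin 3) k) - (i : MvPolynomial (Fin 3) k)) * S.LL) * q)) :
    Associated (E (g + 1)) (S.LL ^ lam (g + 1)) := by
  apply Tlb_pow S (hp.hE (g + 1) (by omega)) (j := n - g)
  apply hp.ann (g + 1) (by omega)
  intro f q h1
  obtain ⟨f', hf'⟩ := Tlb_iter hD h1 (n - g)
  exact rel_big h hn (by omega) hf'

/-- step (b) -/
theorem Tlb_b (h : SatS S c d F G Γ F' G' kk) {n : ℕ}
    {Δ E : ℕ → MvPolynomial (Fin 3) k} {lam : ℕ → ℕ} (hp : PsiData S F G Γ F' G' kk n Δ E lam)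
    {g : ℕ} (hA : Associated (E (g + 1)) (S.LL ^ lam (g + 1))) {x : MvPolynomial (Fin 3) O}
    (hx : C (S.pi ^ g) * x ∈ Ideal.span {F, G}) :
    ∃ y, map S.rho x = S.LL ^ lam (g + 1) * y ∧ ∀ z, S.Lz z ≠ 0 → eval (S.vb z) y = 0 := by
  have h1 : E (g + 1) ∣ map S.rho x := by
    apply hp.ann (g + 1) (by omega)
    intro f q h2
    refine rel_dvd h (rel_smul h2 x) ?_
    rw [← mul_assoc]
    exact Ideal.mul_mem_right _ _ hx
  obtain ⟨y, hy⟩ := hA.symm.dvd.trans h1
  refine ⟨y, hy, fun z hz => ?_⟩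
  have h2 : eval (S.v z) x = 0 := vanish_of_InI h.pair ⟨g, hx⟩ z
  have h3 : eval (S.vb z) (map S.rho x) = 0 := by
    rw [eval_map]
    have h4 := congrArg S.rho h2
    rw [map_zero] at h4
    have h5 := eval₂_comp_left S.rho (RingHom.id O) (S.v z) x
    rw [RingHom.comp_id] at h5
    exact h5.symm.trans h4
  rw [hy, map_mul, map_pow, (Tlb_LL S).2.2 z] at h3
  exact (mul_eq_zero.1 h3).resolve_left (pow_ne_zero _ hz)

theorem Tlb_rel_zero (h : SatS S c d F G Γ F' G' kk) (i : ℕ) : Rel S F G F' G' i 0 0 := by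
  have h1 := rel_syz h i 0
  rwa [mul_zero] at h1

theorem Tlb_rel_sum (h : SatS S c d F G Γ F' G' kk) {i m : ℕ} (x : Fin m → MvPolynomial (Fin 3) O)
    (q : Fin m → MvPolynomial (Fin 3) k) (hq : ∀ j, Rel S F G F' G' i (x j) (q j)) (a : Fin m → O) :
    Rel S F G F' G' i (∑ j, C (a j) * x j) (∑ j, C (S.rho (a j)) * q j) := by
  classical
  have key : ∀ T : Finset (Fin m),
      Rel S F G F' G' i (∑ j ∈ T, C (a j) * x j) (∑ j ∈ T, C (S.rho (a j)) * q j) := by
    intro T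
    induction T using Finset.induction_on with
    | empty => simpa using Tlb_rel_zero h i
    | insert j T hj ih =>
      rw [Finset.sum_insert hj, Finset.sum_insert hj]
      refine rel_add ?_ ih
      have h1 := rel_smul (hq j) (C (a j))
      rwa [map_C] at h1
  exact key _

theorem Tlb_nz (a b : ℤ) (h0 : 0 ≤ b) (h : b ≤ a) : nz b ≤ nz a := by
  have h1 := two_nz a (by linarith)
  have h2 := two_nz b (by linarith)
  have h3 : (nz b : ℤ) ≤ nz a := by nlinarith
  exact_mod_cast h3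

/-- step (c), dependence -/
theorem Tlb_dep (h : SatS S c d F G Γ F' G' kk) {n : ℕ}
    {Δ E : ℕ → MvPolynomial (Fin 3) k} {lam : ℕ → ℕ} (hp : PsiData S F G Γ F' G' kk n Δ E lam)
    {g t m : ℕ} (ht : c + d ≤ t)
    (hm : nz ((t : ℤ) - (c + d) + (lam (g + 1) : ℕ)) ≤ m + nz ((t : ℤ) - (c + d)))
    (x : Fin (m + 1) → HS O t) (hx : ∀ j, S.pi • x j ∈ JJ S.pi F G t g) :
    ∃ a : Fin (m + 1) → O, (∃ j, ¬ S.pi ∣ a j) ∧ ∑ j, a j • x j ∈ JJ S.pi F G t g := by
  have h1 : ∀ j, C (S.pi ^ (g + 1)) * (x j).val ∈ Ideal.span {F, G} := by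
    intro j
    have h2 := hx j
    rw [mem_JJ, HS.val_smul, ← mul_assoc, ← C_mul, ← pow_succ] at h2
    exact h2
  have h2 : ∀ j, ∃ q, Rel S F G F' G' (g + 1) (x j).val q ∧ q.IsHomogeneous (t + kk - (c + d)) := by
    intro j
    obtain ⟨q, hq1, hq2, -⟩ := rel_exists_hom h (by omega) (x j).prop (h1 j)
    exact ⟨q, hq1, hq2 (by omega)⟩
  choose q hq1 hq2 using h2
  have hle := hp.le (g + 1) (by omega)
  have hK : ((kk - lam (g + 1) : ℕ) : ℤ) = (kk : ℤ) - lam (g + 1) := by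
    push_cast [Nat.cast_sub hle]
    ring
  have hs : ((t + kk - (c + d) : ℕ) : ℤ) = (t : ℤ) + kk - (c + d) := by
    have h3 : c + d ≤ t + kk := by omega
    push_cast [Nat.cast_sub h3]
    ring
  obtain ⟨a, ha0, ha⟩ := dep_mod (Δ (g + 1)) Γ (kk - lam (g + 1)) kk (hp.hΔ (g + 1) (by omega)) h.hΓ
    ⟨E (g + 1), hp.fac (g + 1) (by omega)⟩ h.nzΓ (t + kk - (c + d)) m (by
      rw [hK, hs]
      have e1 : (t : ℤ) + kk - (c + d) - ((kk : ℤ) - lam (g + 1)) = (t : ℤ) - (c + d) + (lam (g + 1) : ℕ) := by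
        ring
      have e2 : (t : ℤ) + kk - (c + d) - (kk : ℕ) = (t : ℤ) - (c + d) := by ring
      rw [e1, e2]
      exact hm) q hq2 (fun j => hp.dvd (g + 1) (by omega) _ _ (hq1 j))
  choose r hr using S.surj
  refine ⟨fun j => r (a j), ?_, ?_⟩
  · obtain ⟨j, hj⟩ := Function.ne_iff.1 ha0
    refine ⟨j, fun h3 => hj ?_⟩
    rw [← S.ker, hr] at h3
    exact h3
  · obtain ⟨q', hq'⟩ := ha
    have h3 := Tlb_rel_sum h (fun j => (x j).val) q hq1 (fun j => r (a j))
    simp only [hr] at h3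
    rw [hq'] at h3
    have h4 := rel_down h h3
    rw [mem_JJ, HS.val_sum]
    simp only [HS.val_smul]
    exact h4

omit [IsDomain O] in
theorem Tlb_red_surj (S : GeoS O k I D0) (t : ℕ) : Function.Surjective (redHom S.rho t) := by
  classical
  intro y
  choose r hr using S.surj
  obtain ⟨f, hf⟩ : ∃ f : MvPolynomial (Fin 3) O, f = ∑ m ∈ y.val.support, monomial m (r (coeff m y.val)) := ⟨_, rfl⟩
  have hfh : f.IsHomogeneous t := by
    rw [hf]
    apply IsHomogeneous.sum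
    intro m hm
    apply isHomogeneous_monomial
    have h1 := y.prop (mem_support_iff.1 hm)
    have h2 := congrArg (fun (F : (Fin 3 →₀ ℕ) →+ ℕ) => F m) (Finsupp.degree_eq_weight_one (σ := Fin 3) (R := ℕ))
    exact h2.trans h1
  refine ⟨HS.mk f hfh, ?_⟩
  ext1
  rw [redHom_val, HS.val_mk, hf, map_sum]
  simp only [map_monomial, hr]
  exact (y.val.as_sum).symm

theorem Tlb_red_ker (S : GeoS O k I D0) (t : ℕ) (x : HS O t) (hx : redHom S.rho t x = 0) :
    ∃ y, x = S.pi • y := by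
  have h1 : map S.rho x.val = 0 := by
    have h2 := congrArg HS.val hx
    rwa [redHom_val, HS.val_zero] at h2
  obtain ⟨y, hy⟩ := (map_eq_zero_iff S x.val).1 h1
  by_cases h0 : x.val = 0
  · exact ⟨0, by ext1; rw [h0, smul_zero, HS.val_zero]⟩
  · have h2 : (C S.pi * y).IsHomogeneous t := by rw [← hy]; exact x.prop
    have h3 := (homog_of_mul_left h2 (isHomogeneous_C _ S.pi) (by rw [← hy]; exact h0)).2
    rw [Nat.sub_zero] at h3
    exact ⟨HS.mk y h3, by ext1; rw [HS.val_smul, HS.val_mk, hy]⟩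

/-- multiplication by a form -/
noncomputable def Tlb_mul (P : MvPolynomial (Fin 3) k) {K s t : ℕ} (hP : P.IsHomogeneous K) (hst : K + s = t) :
    HS k s →ₗ[k] HS k t where
  toFun y := HS.mk (P * y.val) (by rw [← hst]; exact hP.mul y.prop)
  map_add' y z := by
    ext1
    rw [HS.val_mk, HS.val_add, HS.val_add, HS.val_mk, HS.val_mk, mul_add]
  map_smul' a y := by
    ext1
    rw [HS.val_mk, RingHom.id_apply, HS.val_smul, HS.val_smul, HS.val_mk]
    ring

end

/-- step (d) -/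
theorem Tlb_d {O k I : Type} [CommRing O] [IsDomain O] [Field k]
    [Fintype I] {D0 c d kk : ℕ} {S : GeoS O k I D0} {F G : MvPolynomial (Fin 3) O}
    {Γ F' G' : MvPolynomial (Fin 3) k} (h : SatS S c d F G Γ F' G' kk) {n : ℕ}
    {Δ E : ℕ → MvPolynomial (Fin 3) k} {lam : ℕ → ℕ} (hp : PsiData S F G Γ F' G' kk n Δ E lam)
    {g t : ℕ} (hA : Associated (E (g + 1)) (S.LL ^ lam (g + 1)))
    (ht : lam (g + 1) + Fintype.card I ≤ t) :
    Module.finrank k (Submodule.span k (redHom S.rho t '' (JJ S.pi F G t g : Set (HS O t)))) +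
      (Fintype.card I - Nat.card {z : I // S.Lz z = 0}) ≤ nn (t - lam (g + 1)) := by
  classical
  obtain ⟨K, hK⟩ : ∃ K, K = lam (g + 1) := ⟨_, rfl⟩
  rw [← hK] at hA ht ⊢
  obtain ⟨hL1, hL0, hLe⟩ := Tlb_LL S
  have hP : (S.LL ^ K).IsHomogeneous K := by simpa using hL1.pow K
  have hP0 : S.LL ^ K ≠ 0 := pow_ne_zero _ hL0
  obtain ⟨A, hAd⟩ : ∃ A : Finset I, A = Finset.univ.filter (fun z => ¬ S.Lz z = 0) := ⟨_, rfl⟩
  have hAc : A.card = Fintype.card I - Nat.card {z : I // S.Lz z = 0} := by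
    have h1 : Nat.card {z : I // S.Lz z = 0} = (Finset.univ.filter (fun z => S.Lz z = 0)).card := by
      rw [Nat.card_eq_fintype_card, Fintype.card_subtype]
    have h2 := Finset.card_filter_add_card_filter_not (s := (Finset.univ : Finset I)) (fun z => S.Lz z = 0)
    rw [Finset.card_univ] at h2
    rw [hAd, h1]
    omega
  have hAN : A.card ≤ Fintype.card I := Finset.card_le_univ A
  have hst : K + (t - K) = t := by omega
  have h1 : Submodule.span k (redHom S.rho t '' (JJ S.pi F G t g : Set (HS O t))) ≤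
      (vanSub S.vb A (t - K)).map (Tlb_mul (S.LL ^ K) hP hst) := by
    rw [Submodule.span_le]
    rintro _ ⟨x, hx, rfl⟩
    obtain ⟨y, hy1, hy2⟩ := Tlb_b h hp (g := g) (by rw [← hK]; exact hA) hx
    rw [← hK] at hy1
    have hyh : y.IsHomogeneous (t - K) := by
      by_cases h0 : y = 0
      · rw [h0]
        exact isHomogeneous_zero _ _ _
      · have h3 : (S.LL ^ K * y).IsHomogeneous t := by
          rw [← hy1]
          exact x.prop.map S.rho
        exact (homog_of_mul_left h3 hP (mul_ne_zero hP0 h0)).2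
    refine ⟨HS.mk y hyh, ?_, ?_⟩
    · intro z hz
      rw [hAd, Finset.mem_filter] at hz
      exact hy2 z hz.2
    · ext1
      rw [redHom_val, hy1]
      rfl
  have h2 := pts_indep S.vb A (fun z _ z' _ hne => S.dist z z' hne) (fun z _ h0 => by
    obtain ⟨i, hi⟩ := S.unim z
    have h3 : IsUnit (S.rho (S.v z i)) := hi.map S.rho
    have h4 : S.rho (S.v z i) = 0 := congrFun h0 i
    rw [h4] at h3
    exact not_isUnit_zero h3) (t - K) (by omega)
  have h3 := (Submodule.finrank_mono h1).trans (Submodule.finrank_map_le (Tlb_mul (S.LL ^ K) hP hst)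
    (vanSub S.vb A (t - K)))
  omega

theorem tail_bound {O k I : Type} [CommRing O] [IsDomain O] [IsDiscreteValuationRing O] [Field k]
    [CharZero k] [Fintype I] {D0 c d kk : ℕ} (S : GeoS O k I D0) {F G : MvPolynomial (Fin 3) O}
    {Γ F' G' : MvPolynomial (Fin 3) k} (h : SatS S c d F G Γ F' G' kk) (hc : 2 ≤ c) (hcd : c ≤ d)
    (hN : Fintype.card I = c * d) {n : ℕ} (hn : IsLast S F G n)
    {Δ E : ℕ → MvPolynomial (Fin 3) k} {lam : ℕ → ℕ} (hp : PsiData S F G Γ F' G' kk n Δ E lam)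
    {g : ℕ} (hg : g < n)
    (hD : ∀ i f q, 1 ≤ i → Rel S F G F' G' i f q →
        Rel S F G F' G' (i + 1) (DD S.der f)
          ((((g : MvPolynomial (Fin 3) k) - (i : MvPolynomial (Fin 3) k)) * S.LL) * q)) :
    lam (g + 1) * (c + d - lam (g + 1)) ≤ Nat.card {z : I // S.Lz z = 0} := by
  have hA := Tlb_a h hn hp hg hD
  have hle := hp.le (g + 1) (by omega)
  have hlt := h.lt
  obtain ⟨K, hK⟩ : ∃ K, K = lam (g + 1) := ⟨_, rfl⟩
  obtain ⟨N, hNd⟩ : ∃ N, N = Fintype.card I := ⟨_, rfl⟩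
  obtain ⟨t, ht⟩ : ∃ t, t = c + d + N := ⟨_, rfl⟩
  obtain ⟨m, hm⟩ : ∃ m, m = nz ((t : ℤ) - (c + d) + (K : ℕ)) - nz ((t : ℤ) - (c + d)) := ⟨_, rfl⟩
  have ht0 : (0 : ℤ) ≤ (t : ℤ) - (c + d) := by rw [ht]; push_cast; omega
  have hmono : nz ((t : ℤ) - (c + d)) ≤ nz ((t : ℤ) - (c + d) + (K : ℕ)) := Tlb_nz _ _ ht0 (by omega)
  have hs : Nat.card {z : I // S.Lz z = 0} ≤ N := by
    rw [hNd, ← Nat.card_eq_fintype_card]
    exact Nat.card_le_card_of_injective _ Subtype.val_injective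
  have h1 := finrank_red_ge S.rho S.surj S.prime S.ker (M := HS O t) (Mb := HS k t) (redHom S.rho t)
    (Tlb_red_surj S t) (Tlb_red_ker S t) (evHom S.v t) (JJ S.pi F G t g) (fun x hx => by
      obtain ⟨j, hj⟩ := InI_of_vanish h.pair x.prop (fun z => congrFun hx z)
      refine ⟨j, ?_⟩
      rw [mem_JJ, HS.val_smul]
      exact Ideal.mul_mem_left _ _ hj) m (fun x hx => Tlb_dep h hp (by omega) (by
        rw [← hK]
        omega) x hx)
  have h2 := Tlb_d h hp (t := t) hA (by omega)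
  rw [finrank_hs] at h1
  rw [← hK] at h2 ⊢
  refine ari_tail c d K _ N m t (by omega) hcd (by omega) (by omega) hs ?_
  have h3 : nz ((t : ℤ) - K) = nn (t - K) := by
    have h4 : (0 : ℤ) ≤ (t : ℤ) - K := by omega
    have h5 : ((t : ℤ) - K).toNat = t - K := by omega
    unfold nz
    rw [if_pos h4, h5]
  rw [h3]
  omega

end GP80
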