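import Mathlib
import Pool.Agent.H80.GP.Defs
import Pool.Agent.H80.GP.Defs2
import Pool.Agent.H80.GP.La1
import Pool.Agent.H80.GP.La2
import Pool.Agent.H80.GP.La3
import Pool.Agent.H80.GP.Kp1
import Pool.Agent.H80.GP.Rla
import Pool.Agent.H80.GP.Nex
import Pool.Agent.H80.GP.Psi
import Pool.Agent.H80.GP.Ezr
import Pool.Agent.H80.GP.Omg
import Pool.Agent.H80.GP.Len
import Pool.Agent.H80.GP.Ari

/-!
# Row Wsum (MP_87ed0a_GP): the inequality (W) of 1.6  (about 150 lines)

Claim: `∑_{1≤i≤n} lam i (c + d - lam i) ≤ ∑_z multiplicity pi (J z)`.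

Proof.  `t = c + d - 2`, `E_z` from `exists_Ez` (`E_z(v z) = J z ≠ 0` by `J_ne_zero`, `E_z(v z') = 0` otherwise, `E_z f ∈ (F,G)` for `InI f`).  Put `β z := E_z`.
`ev β` is the diagonal matrix of the `J z`, so its determinant is `∏ J z ≠ 0`, of multiplicity `∑ multiplicity (J z)`.
Upper bound: `length_split` (La3) with `L0 = JJ S.pi F G t 0` and `tau_le`:
`length (M/A) ≤ ∑ multiplicity (J z) + ∑ (lam i).choose 2`, `A := JJ .. 0 ⊔ span β`.
Lower bound: `length_ge_layers` (La2) with `red = redHom`, `W i := mulSub (E (i+1)) t`: if `pi^i x ∈ A`, i.e.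
`pi^i x = j + ∑ a_z E_z` with `j ∈ (F,G)`, then for `Rel (i+1) f q`: `pi^i x f ∈ (F,G)` because `InI f` (`InI_of_rel`), and `Rel (i+1) (x f) (rho x q)`, so
`Γ ∣ rho x * q` (`rel_dvd`), hence `E (i+1) ∣ rho x` (`ann`).  `finrank (W i) = nz (t - lam (i+1))` (`finrank_mul`; `E (i+1) ≠ 0`), `finrank Mb = nn t`.  So
`∑_{i=1}^n (nn t - nz (t - lam i)) ≤ length (M/A)`.
`ari_sum`: `nn t - nz (t - lam i) = lam i (c+d-lam i) + (lam i).choose 2` (`lam i ≤ kk < c`).  Cancel.
-/

namespace GP80

open MvPolynomial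

theorem Wsum_shift (f : ℕ → ℕ) (n : ℕ) :
    ∑ i ∈ Finset.range n, f (i + 1) = ∑ i ∈ Finset.Icc 1 n, f i := by
  induction n with
  | zero => simp
  | succ n ih => rw [Finset.sum_range_succ, ih, Finset.sum_Icc_succ_top (by omega)]

theorem Wsum_surj {O k : Type} [CommRing O] [Field k] (rho : O →+* k)
    (hs : Function.Surjective rho) (t : ℕ) : Function.Surjective (redHom rho t) := by
  intro g
  have hf : (∑ m ∈ g.val.support, monomial m (Function.surjInv hs (coeff m g.val)) :
      MvPolynomial (Fin 3) O).IsHomogeneous t := by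
    refine IsHomogeneous.sum _ _ _ fun m hm => ?_
    refine isHomogeneous_monomial _ ?_
    have h1 := g.prop (mem_support_iff.1 hm)
    rw [Finsupp.degree_eq_weight_one]
    exact h1
  refine ⟨HS.mk _ hf, ?_⟩
  ext1
  rw [redHom_val, HS.val_mk, map_sum]
  have h2 : ∀ m ∈ g.val.support, map rho (monomial m (Function.surjInv hs (coeff m g.val))) =
      monomial m (coeff m g.val) := by
    intro m _
    rw [map_monomial, Function.surjInv_eq hs]
  rw [Finset.sum_congr rfl h2]
  exact support_sum_monomial_coeff g.val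

theorem Wsum_mult {O I : Type} [CommRing O] [IsDomain O] [IsDiscreteValuationRing O]
    {p : O} (hp : Prime p) (J : I → O) (hJ : ∀ z, J z ≠ 0) (s : Finset I) :
    multiplicity p (∏ z ∈ s, J z) = ∑ z ∈ s, multiplicity p (J z) := by
  classical
  induction s using Finset.induction_on with
  | empty =>
    rw [Finset.prod_empty, Finset.sum_empty]
    exact multiplicity_eq_zero.2 fun h => hp.not_isUnit (isUnit_of_dvd_one h)
  | insert a s ha ih =>
    rw [Finset.prod_insert ha, Finset.sum_insert ha, ← ih]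
    refine multiplicity_mul hp ?_
    refine FiniteMultiplicity.of_not_isUnit hp.not_isUnit ?_
    exact mul_ne_zero (hJ a) (Finset.prod_ne_zero_iff.2 fun z _ => hJ z)

theorem w_sum {O k I : Type} [CommRing O] [IsDomain O] [IsDiscreteValuationRing O] [Field k]
    [Fintype I] [DecidableEq I] {D0 c d kk : ℕ} (S : GeoS O k I D0) {F G : MvPolynomial (Fin 3) O}
    {Γ F' G' : MvPolynomial (Fin 3) k} (h : SatS S c d F G Γ F' G' kk) (hc : 2 ≤ c) (hcd : c ≤ d)
    {n : ℕ} (hn : IsLast S F G n)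
    {Δ E : ℕ → MvPolynomial (Fin 3) k} {lam : ℕ → ℕ} (hp : PsiData S F G Γ F' G' kk n Δ E lam)
    (J : I → O) (hJ : ∀ z, IsJ3 F G (S.v z) (J z)) :
    ∑ i ∈ Finset.Icc 1 n, lam i * (c + d - lam i) ≤ ∑ z, multiplicity S.pi (J z) := by
  classical
  obtain ⟨t, ht⟩ : ∃ t, t = c + d - 2 := ⟨_, rfl⟩
  have hGne : map S.rho G ≠ 0 := by
    rw [h.eG]
    exact mul_ne_zero h.nzΓ h.nzG
  have hJne : ∀ z, J z ≠ 0 := fun z => J_ne_zero S h.pair (by omega) (by omega) z (hJ z)
  have hE1 : ∀ z, ∃ Ez : MvPolynomial (Fin 3) O, Ez.IsHomogeneous t ∧ eval (S.v z) Ez = J z ∧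
      (∀ z', z' ≠ z → eval (S.v z') Ez = 0) ∧
      (∀ f, InI S F G f → Ez * f ∈ Ideal.span {F, G}) := by
    intro z
    obtain ⟨u, w, F1, F2, G1, G2, -, -, -, -, -, -, -, -, -, -, -, q1, q2, q3, -, q4⟩ :=
      exists_Ez S h.pair hc (hc.trans hcd) hGne z (hJ z)
    rw [← ht] at q1
    exact ⟨F1 * G2 - F2 * G1, q1, q2, q3, q4⟩
  choose Ez e1 e2 e3 e4 using hE1
  obtain ⟨β, hβ⟩ : ∃ β : I → HS O t, ∀ z, (β z).val = Ez z :=
    ⟨fun z => HS.mk (Ez z) (e1 z), fun z => rfl⟩
  have hmat : (Matrix.of fun i => evHom S.v t (β i)) = Matrix.diagonal J := by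
    ext i j
    rw [Matrix.of_apply, evHom_apply, hβ, Matrix.diagonal_apply]
    by_cases hij : i = j
    · rw [if_pos hij, ← hij, e2]
    · rw [if_neg hij, e3 i j fun h1 => hij h1.symm]
  have hdet : (Matrix.of fun i => evHom S.v t (β i)).det = ∏ z, J z := by
    rw [hmat, Matrix.det_diagonal]
  have hdet0 : (Matrix.of fun i => evHom S.v t (β i)).det ≠ 0 := by
    rw [hdet]
    exact Finset.prod_ne_zero_iff.2 fun z _ => hJne z
  have hL0 : JJ S.pi F G t 0 ≤ LinearMap.ker (evHom S.v t) := by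
    intro f hf
    rw [LinearMap.mem_ker]
    funext z
    rw [evHom_apply]
    exact vanish_of_InI h.pair ⟨0, hf⟩ z
  have hup := length_split S.prime (evHom S.v t) (JJ S.pi F G t 0) hL0 β hdet0
  have htau := tau_le S h hc hcd hn hp
  rw [← ht] at htau
  -- the lower bound
  have hlow := length_ge_layers S.rho S.surj S.ker (redHom S.rho t) (Wsum_surj S.rho S.surj t)
    (JJ S.pi F G t 0 ⊔ Submodule.span O (Set.range β)) n (fun i => mulSub (E (i + 1)) t) (by
      intro i _ x hx
      obtain ⟨y, hy, w, hw, hyw⟩ := Submodule.mem_sup.1 hx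
      obtain ⟨a, ha⟩ := (Submodule.mem_span_range_iff_exists_fun O).1 hw
      show E (i + 1) ∣ (redHom S.rho t x).val
      rw [redHom_val]
      refine hp.ann (i + 1) (by omega) _ fun f q hfq => ?_
      refine rel_dvd h (rel_smul hfq x.val) ?_
      have hI : InI S F G f := InI_of_rel hfq
      have hv : C (S.pi ^ i) * x.val = y.val + ∑ z, C (a z) * Ez z := by
        have h1 := congrArg HS.val hyw
        rw [HS.val_add, ← ha, HS.val_sum, HS.val_smul] at h1
        rw [← h1]
        congr 1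
        refine Finset.sum_congr rfl fun z _ => ?_
        rw [HS.val_smul, hβ]
      rw [← mul_assoc, hv, add_mul, Finset.sum_mul]
      refine Ideal.add_mem _ ?_ (Ideal.sum_mem _ fun z _ => ?_)
      · refine Ideal.mul_mem_right _ _ ?_
        have h2 : C (S.pi ^ 0) * y.val ∈ Ideal.span {F, G} := hy
        rwa [pow_zero, C_1, one_mul] at h2
      · rw [mul_assoc]
        exact Ideal.mul_mem_left _ _ (e4 z f hI))
  have hcomb := hlow.trans (hup.trans (add_le_add le_rfl htau))
  have hnat : ∑ i ∈ Finset.range n, (Module.finrank k (HS k t) -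
      Module.finrank k (mulSub (E (i + 1)) t)) ≤
      multiplicity S.pi (Matrix.of fun i => evHom S.v t (β i)).det +
        ∑ i ∈ Finset.Icc 1 n, (lam i).choose 2 := by
    exact_mod_cast hcomb
  rw [hdet, Wsum_mult S.prime J hJne Finset.univ] at hnat
  have hterm : ∀ i ∈ Finset.range n, Module.finrank k (HS k t) -
      Module.finrank k (mulSub (E (i + 1)) t) =
      lam (i + 1) * (c + d - lam (i + 1)) + (lam (i + 1)).choose 2 := by
    intro i _
    have hne : E (i + 1) ≠ 0 := by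
      intro h0
      have h1 := hp.fac (i + 1) (by omega)
      rw [h0, mul_zero] at h1
      exact h.nzΓ h1
    rw [finrank_hs, finrank_mul (E (i + 1)) (lam (i + 1)) (hp.hE (i + 1) (by omega)) hne t]
    have h2 := ari_sum c d (lam (i + 1)) (lt_of_le_of_lt (hp.le (i + 1) (by omega)) h.lt) hcd
    rw [← ht] at h2
    rw [h2]
    omega
  rw [Finset.sum_congr rfl hterm,
    Wsum_shift (fun i => lam i * (c + d - lam i) + (lam i).choose 2) n,
    Finset.sum_add_distrib] at hnat
  omega

end GP80
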