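import Mathlib
import Pool.Agent.H80.GP.Defs
import Pool.Agent.H80.GP.Nex
import Pool.Agent.H80.GP.Psi
import Pool.Agent.H80.GP.The
import Pool.Agent.H80.GP.Tlb
import Pool.Agent.H80.GP.Len
import Pool.Agent.H80.GP.Wsum
import Pool.Agent.H80.GP.Omg

/-!
# Row Loc (MP_87ed0a_GP): the local theorem, assembly of section 1  (about 60 lines)

`exists_last`, `exists_psi`; if `n ≥ 1`: `theta_eq` gives `g`; `tail` by `tail_bound`, `om` by `J_dvd` (`multiplicity` of a divisor of `pi^n`, `J z ≠ 0`), `sum` by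
`w_sum`, `det` by `det_le`, `up` by `le` and `kk < c`.  If `n = 0`: take `g = 0`; `multiplicity (J z) ≤ 0` by `J_dvd`.
-/

namespace GP80

open MvPolynomial

theorem Loc_mult {O : Type} [CommRing O] [IsDomain O] {p a : O} (hp : Prime p) {n : ℕ}
    (h : a ∣ p ^ n) : multiplicity p a ≤ n := by
  have h1 : p ^ multiplicity p a ∣ p ^ n := (pow_multiplicity_dvd p a).trans h
  exact (pow_dvd_pow_iff hp.ne_zero hp.not_isUnit).mp h1

theorem loc_main {O k I : Type} [CommRing O] [IsDomain O] [IsDiscreteValuationRing O] [Field k]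
    [CharZero k] [Fintype I] [DecidableEq I] {c d kk : ℕ} (S : GeoS O k I (c + d - 1))
    {F G : MvPolynomial (Fin 3) O} {Γ F' G' : MvPolynomial (Fin 3) k}
    (h : SatS S c d F G Γ F' G' kk) (hc : 2 ≤ c) (hcd : c ≤ d) (hN : Fintype.card I = c * d)
    (J : I → O) (hJ : ∀ z, IsJ3 F G (S.v z) (J z)) :
    ∃ (g n : ℕ) (lam : ℕ → ℕ), LocOut S c d F G J g n lam := by
  obtain ⟨n, hn⟩ := exists_last S F G
  obtain ⟨Δ, E, lam, hp⟩ := exists_psi S h hn
  have hom : ∀ z, multiplicity S.pi (J z) ≤ n := fun z =>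
    Loc_mult S.prime (J_dvd S h hc hcd hn z (hJ z))
  have hmain : ∃ g : ℕ, g ≤ n ∧ (∀ z, S.Lz z ≠ 0 → multiplicity S.pi (J z) = g) ∧
      (g < n → lam (g + 1) * (c + d - lam (g + 1)) ≤ Nat.card {z : I // S.Lz z = 0}) := by
    rcases Nat.eq_zero_or_pos n with h0 | h1
    · refine ⟨0, Nat.zero_le _, fun z _ => ?_, fun hlt => ?_⟩
      · have := hom z
        omega
      · omega
    · obtain ⟨g, hg, hnv, hD⟩ := theta_eq S h hc hcd hN hn h1 J hJ
      exact ⟨g, hg, hnv, fun hlt => tail_bound S h hc hcd hN hn hp hlt hD⟩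
  obtain ⟨g, hg, hnv, htail⟩ := hmain
  refine ⟨g, n, lam, hnv, hg, htail, hom, w_sum S h hc hcd hn hp J hJ, hp.pos, ?_, hp.anti, ?_, ?_⟩
  · intro i hi
    exact lt_of_le_of_lt (hp.le i hi) h.lt
  · intro z
    exact J_ne_zero S h.pair (by omega) (by omega) z (hJ z)
  · intro e β hβ hdet
    exact det_le S h hc hcd hn hp e β hβ hdet

end GP80
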