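import Mathlib
import Pool.Agent.H80.GP.GDefs
import Pool.Agent.H80.GP.Ga1
import Pool.Agent.H80.GP.Ga2
import Pool.Agent.H80.GP.Ga3
import Pool.Agent.H80.GP.Kos
import Pool.Agent.H80.GP.Kgn

/-!
# Row Prg (MP_87ed0a_GP): the local pair at a prime  (about 130 lines)

* `pair_of_glob`: `hF, hG` by `chart_homog`; `vF, vG` by `vz_eval_zero` (`P_i` is a unit of `OO π` because `π ∤ P_i`, `OO_unit`).
  `gen`: `gen_O` gives `r ≠ 0` with `C(r) g ∈ span`; in `OO π`, `r = π^m u`, `u` a unit (`r = π^m r'` in `RR`, `π ∤ r'`): multiply by `C (u⁻¹)`.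
  `kos`: let `A F0 + B G0 = 0` in `O[X]`, `F0 = chartH O i F` etc.  Let `K' = FractionRing (OO π)`; the images of `F0, G0` in `K'[X]` are coprime: apply `relPrime_of_gen` over `K'` to the vectors `vz`
  mapped to `K'` (a form over `K'` vanishing at the points, times a common denominator, is a form over `O` vanishing at the points, so is in the ideal after multiplication by a power of `π`).
  `F0 ∣ B G0` in `K'[X]`, so `F0 ∣ B` (`IsRelPrime.dvd_of_dvd_mul_right`), `B = - r F0`, then `A = r G0` (`F0 ≠ 0`: if `F0 = 0`, then `hlift_chart` gives `F = 0`; hence `G0 ∣ 1`.. simpler: `F0 = 0` implies `G0` a unit by coprimality, but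
  `deg G0 = d ≥ 2` and `G0 ≠ 0` homogeneous: contradiction).  `r ∈ K'[X]` has a common denominator `π^m` up to units (a nonzero element of the DVR `OO π`): `π^m r ∈ O[X]` (`O[X] → K'[X]` is injective).
* `red_ne_zero`: for `c < d` the reduction of `chartH (OO π) i F` modulo `π` is nonzero: otherwise all coefficients of `chartH RR i F` are divisible by `π` (`chart_map`, `OO_dvd`, `OO_ker`), so `chartH RR i F = C π * f`,
  `P_i^c F = hlift i (chartH RR i F) = inP π * hlift i f`; `inP π` is prime (`inP_prime`) and does not divide `inP (P_i^c)` (injectivity on `RR`: apply `atz` with any `z`, or the substitution `x = 0`), so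
  `inP π ∣ F`, contradicting `prim`.
-/

namespace GP80

open MvPolynomial

theorem Prg_factor {π : RR} (hπ : Prime π) {r : RR} (hr : r ≠ 0) :
    ∃ (m : ℕ) (r' : RR), ¬ π ∣ r' ∧ r = π ^ m * r' := by
  have hfin : FiniteMultiplicity π r := FiniteMultiplicity.of_not_isUnit hπ.not_isUnit hr
  obtain ⟨c, hc, hnd⟩ := hfin.exists_eq_pow_mul_and_not_dvd
  exact ⟨_, c, hnd, hc⟩

theorem Prg_unit {π : RR} [hpi : (Ideal.span {π} : Ideal RR).IsPrime] (hπ : Prime π) {r : RR}
    (hr : r ≠ 0) : ∃ (m : ℕ) (u : OO π), IsUnit u ∧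
      algebraMap RR (OO π) r = algebraMap RR (OO π) π ^ m * u := by
  obtain ⟨m, r', h1, h2⟩ := Prg_factor hπ hr
  refine ⟨m, algebraMap RR (OO π) r', (OO_unit r').2 h1, ?_⟩
  rw [h2, map_mul, map_pow]

theorem pair_of_glob {I : Type} [Fintype I] (z : I → Fin 4 → ℂ) (hz : Geom z) {c d f f' : ℕ} {F G : BB}
    (h : Glob z c d f f' F G) {π : RR} [hpi : (Ideal.span {π} : Ideal RR).IsPrime] (hπ : Prime π)
    (i : Fin 4) (hi : ¬ π ∣ X i) {D0 : ℕ}
    (S : GeoS (OO π) (IsLocalRing.ResidueField (OO π)) I D0)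
    (hS1 : S.pi = algebraMap RR (OO π) π) (hS4 : ∀ s, S.v s = vz (OO π) i (z s)) :
    PairS S c d (chartH (OO π) i F) (chartH (OO π) i G) := by
  have hdom : IsDomain (OO π) := OO_domain π
  have hM : (Ideal.span {π} : Ideal RR).primeCompl ≤ nonZeroDivisors RR :=
    Ideal.primeCompl_le_nonZeroDivisors _
  have hu : IsUnit (algebraMap RR (OO π) (X i)) := (OO_unit (X i)).2 hi
  refine ⟨chart_homog (OO π) i h.Fx, chart_homog (OO π) i h.Gx, ?_, ?_, ?_, ?_⟩
  · intro s
    rw [hS4]
    exact vz_eval_zero (OO π) i hu h.Fx h.FE (hz.co s i) (h.Fz s)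
  · intro s
    rw [hS4]
    exact vz_eval_zero (OO π) i hu h.Gx h.GE (hz.co s i) (h.Gz s)
  · intro t g hg h0
    obtain ⟨r, hr, hmem⟩ := gen_O (Ideal.span {π} : Ideal RR).primeCompl hM i hu z
      (fun s => hz.co s i) h hg (fun s => by rw [← hS4]; exact h0 s)
    obtain ⟨m, u, hu1, hu2⟩ := Prg_unit hπ hr
    obtain ⟨v, hv⟩ := hu1.exists_left_inv
    refine ⟨m, ?_⟩
    have h1 : C (S.pi ^ m) * g = C v * (C (algebraMap RR (OO π) r) * g) := by
      rw [hS1, hu2, ← mul_assoc, ← C_mul]
      congr 2
      calc algebraMap RR (OO π) π ^ m = (v * u) * algebraMap RR (OO π) π ^ m := by rw [hv, one_mul]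
        _ = v * (algebraMap RR (OO π) π ^ m * u) := by ring
    rw [h1]
    exact Ideal.mul_mem_left _ _ hmem
  · intro A B hAB
    have hunits : ∀ y : (Ideal.span {π} : Ideal RR).primeCompl,
        IsUnit (algebraMap RR (FractionRing RR) y) := by
      intro y
      apply IsUnit.mk0
      intro h0
      have h1 : (y : RR) = 0 := by
        apply IsFractionRing.injective RR (FractionRing RR)
        rw [h0, map_zero]
      exact nonZeroDivisors.ne_zero (hM y.2) h1
    let φ : OO π →+* FractionRing RR :=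
      IsLocalization.lift (M := (Ideal.span {π} : Ideal RR).primeCompl) hunits
    have hφ : ∀ r : RR, φ (algebraMap RR (OO π) r) = algebraMap RR (FractionRing RR) r :=
      fun r => IsLocalization.lift_eq hunits r
    have hφc : φ.comp (algebraMap RR (OO π)) = algebraMap RR (FractionRing RR) :=
      RingHom.ext hφ
    have hφinj : Function.Injective φ := by
      rw [injective_iff_map_eq_zero]
      intro a ha
      obtain ⟨r, s, rfl⟩ := IsLocalization.exists_mk'_eq (Ideal.span {π} : Ideal RR).primeCompl a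
      have h1 : φ (algebraMap RR (OO π) r) = 0 := by
        have h2 := IsLocalization.mk'_spec (OO π) r s
        rw [← h2, map_mul, ha, zero_mul]
      rw [hφ] at h1
      have h3 : r = 0 := by
        apply IsFractionRing.injective RR (FractionRing RR)
        rw [h1, map_zero]
      rw [h3, IsLocalization.mk'_zero]
    have hmapinj : Function.Injective (map φ : MvPolynomial (Fin 3) (OO π) →+* _) :=
      map_injective φ hφinj
    have hchart : ∀ H : BB, map φ (chartH (OO π) i H) = chartH (FractionRing RR) i H := by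
      intro H
      rw [chart_map (OO π) i H, chart_map (FractionRing RR) i H, map_map, hφc]
    have hcop := cop_K i z (fun s => hz.co s i) h
    set FK := chartH (FractionRing RR) i F with hFK
    set GK := chartH (FractionRing RR) i G with hGK
    have hAB' : map φ A * FK + map φ B * GK = 0 := by
      rw [hFK, hGK, ← hchart, ← hchart, ← map_mul, ← map_mul, ← map_add, hAB, map_zero]
    have hFne : FK ≠ 0 := by
      intro h0
      rw [h0, isRelPrime_zero_left] at hcop
      have h1 : IsUnit (constantCoeff GK) := hcop.map constantCoeff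
      have h2 : GK.IsHomogeneous d := chart_homog (FractionRing RR) i h.Gx
      have h3 : constantCoeff GK = 0 := by
        rw [constantCoeff_eq]
        apply h2.coeff_eq_zero
        have hc2 := h.c2
        have hcd := h.cd
        simp only [map_zero]
        omega
      rw [h3] at h1
      exact not_isUnit_zero h1
    have hdvd : FK ∣ map φ B * GK := by
      refine ⟨-(map φ A), ?_⟩
      linear_combination hAB'
    obtain ⟨q, hq⟩ := hcop.dvd_of_dvd_mul_right hdvd
    have hA : map φ A = (-q) * GK := by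
      apply mul_right_cancel₀ hFne
      rw [hq] at hAB'
      linear_combination hAB'
    obtain ⟨s, hs, r0, hr0, -⟩ := clear_den (nonZeroDivisors RR) le_rfl (-q)
    obtain ⟨m, u, hu1, hu2⟩ := Prg_unit hπ (nonZeroDivisors.ne_zero hs)
    obtain ⟨v, hv⟩ := hu1.exists_left_inv
    have hpm : φ v * algebraMap RR (FractionRing RR) s = φ (S.pi ^ m) := by
      rw [← hφ, ← map_mul, hu2, hS1]
      congr 1
      calc v * (algebraMap RR (OO π) π ^ m * u) = (v * u) * algebraMap RR (OO π) π ^ m := by ring
        _ = _ := by rw [hv, one_mul]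
    have hr : map φ (C v * map (algebraMap RR (OO π)) r0) = C (φ (S.pi ^ m)) * (-q) := by
      rw [map_mul, map_C, map_map, hφc, ← hr0, ← mul_assoc, ← C_mul, hpm]
    refine ⟨m, C v * map (algebraMap RR (OO π)) r0, ?_, ?_⟩
    · apply hmapinj
      rw [map_mul, map_C, hA, map_mul, hchart, hr, mul_assoc]
    · apply hmapinj
      rw [map_mul, map_C, hq, map_neg, map_mul, hchart, hr]
      ring

theorem red_ne_zero {I : Type} [Fintype I] (z : I → Fin 4 → ℂ) {c d f f' : ℕ} {F G : BB}
    (h : Glob z c d f f' F G) (hcd : c < d) {π : RR} [hpi : (Ideal.span {π} : Ideal RR).IsPrime]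
    (hπ : Prime π) (i : Fin 4) (hi : ¬ π ∣ X i) :
    map (IsLocalRing.residue (OO π)) (chartH (OO π) i F) ≠ 0 := by
  intro h0
  have h1 : C π ∣ chartH RR i F := by
    rw [C_dvd_iff_dvd_coeff]
    intro e
    rw [← OO_dvd, ← OO_ker]
    have h2 := congrArg (coeff e) h0
    rw [coeff_map, chart_map, coeff_map, coeff_zero] at h2
    exact h2
  obtain ⟨g, hg⟩ := h1
  have h2 := hlift_chart i h.Fx h.FE
  have h3 : hlift i (C π) = inP π := by
    unfold hlift
    rw [coe_eval₂Hom, eval₂_C]
  rw [hg, map_mul, h3] at h2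
  have hp := inP_prime hπ
  have h4 : inP π ∣ inP (X i ^ c) * F := ⟨hlift i g, h2.symm⟩
  rcases hp.dvd_or_dvd h4 with h5 | h5
  · obtain ⟨w, hw⟩ := h5
    have h6 := congrArg (atz 0) hw
    rw [atz_inP, map_mul, atz_inP] at h6
    exact hi (hπ.dvd_of_dvd_pow ⟨_, h6⟩)
  · exact h.prim hcd π hπ h5

end GP80
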