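import Mathlib
import Pool.Agent.H80.GP.Defs
import Pool.Agent.H80.GP.SDefs
import Pool.Agent.H80.GP.Cda
import Pool.Agent.H80.GP.Cnx

/-!
# Row Sa1 (MP_87ed0a_GP): transitions and Jacobians; uniqueness  (about 120 lines)

* `trans_J`: if `(F, G)` comes from `(F1, G1)` by a transition of determinant `α`, all vanish at `v`, and `J1` is the Jacobian of `(F1, G1)` at `v`, then
  `α J1` is the Jacobian of `(F, G)`.  Proof: `grad (A * B) v = eval v A • grad B v + eval v B • grad A v`, so with `F1(v) = G1(v) = 0`: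
  `grad (C a * G1) v = a • grad G1 v`, `grad (H * F1) v = H(v) • grad F1 v`; bilinearity of the cross product, `w × w = 0`, `w × w' = - w' × w`.
* `trans_compose` is not needed.
* `jac_unique`: two pairs `(F1, G1)`, `(F2, G2)` which both satisfy `DegGen` and vanish at the points (with `F1 = F2` if `c < d`) have associated Jacobians at every point
  (`v z ≠ 0` for cancellation; `J1, J2` the Jacobians at `v z`).  Proof.  `c < d`: `G2 = U F1 + a G1`, `G1 = U' F1 + a' G2`, so (as in `trans_J`) `J2 v = a J1 v`, `J1 v = a' J2 v`.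
  `c = d`: `U` is homogeneous of degree 0, a constant `C u` (`isHomogeneous_zero..`/`totalDegree_eq_zero_iff_eq_C`), `F2 = u F1 + a G1`, `G2 = u' F1 + a' G1`, `J2 = (u a' - a u') J1`, and
  conversely.  Two elements dividing each other in a domain are associated, so the multiplicities of the prime `p` agree (`multiplicity_eq_of_associated_right` or via `emultiplicity`).
-/

namespace GP80

open MvPolynomial

theorem Sa1_grad {O : Type} [CommRing O] {F U F1 G1 : MvPolynomial (Fin 3) O} {a : O}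
    (h : F = U * F1 + C a * G1) {v : Fin 3 → O} (h1 : eval v F1 = 0) (h2 : eval v G1 = 0) :
    grad F v = eval v U • grad F1 v + a • grad G1 v := by
  funext i
  simp only [grad, Pi.add_apply, Pi.smul_apply, smul_eq_mul]
  rw [h, map_add, pderiv_mul, pderiv_mul, pderiv_C]
  simp only [map_add, map_mul, eval_C, h1, h2]
  ring

theorem Sa1_cross {O : Type} [CommRing O] (x y : Fin 3 → O) (a b c d : O) :
    crossProduct (a • x + b • y) (c • x + d • y) = (a * d - b * c) • crossProduct x y := by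
  ext i
  fin_cases i <;>
    simp [cross_apply] <;> ring

theorem Sa1_J {O : Type} [CommRing O] {F G F1 G1 : MvPolynomial (Fin 3) O} {v : Fin 3 → O}
    {a b c d : O} (hF : grad F v = a • grad F1 v + b • grad G1 v)
    (hG : grad G v = c • grad F1 v + d • grad G1 v) {J1 : O}
    (hJ : IsJ3 F1 G1 v J1) : IsJ3 F G v ((a * d - b * c) * J1) := by
  unfold IsJ3 at hJ ⊢
  rw [hF, hG, Sa1_cross, hJ, smul_smul]

theorem trans_J {O : Type} [CommRing O] {c d : ℕ} {F G F1 G1 : MvPolynomial (Fin 3) O} {α : O}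
    (ht : Trans c d F G F1 G1 α) {v : Fin 3 → O} (h1 : eval v F1 = 0) (h2 : eval v G1 = 0) {J1 : O}
    (hJ : IsJ3 F1 G1 v J1) : IsJ3 F G v (α * J1) := by
  rcases ht with ⟨_, rfl, H, _, hG⟩ | ⟨_, m11, m12, m21, m22, hF, hG, rfl⟩
  · have e1 : grad F v = (1 : O) • grad F v + (0 : O) • grad G1 v := by simp
    have e2 : grad G v = eval v H • grad F v + α • grad G1 v :=
      Sa1_grad (by rw [hG, add_comm]) h1 h2
    have := Sa1_J e1 e2 hJ
    simpa using this
  · have e1 : grad F v = m11 • grad F1 v + m12 • grad G1 v := by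
      have := Sa1_grad hF h1 h2
      simpa using this
    have e2 : grad G v = m21 • grad F1 v + m22 • grad G1 v := by
      have := Sa1_grad hG h1 h2
      simpa using this
    exact Sa1_J e1 e2 hJ

theorem Sa1_unique {O : Type} [CommRing O] [IsDomain O] {F G : MvPolynomial (Fin 3) O} {v : Fin 3 → O}
    (hv : v ≠ 0) {J J' : O} (h : IsJ3 F G v J) (h' : IsJ3 F G v J') : J = J' := by
  obtain ⟨i, hi⟩ := Function.ne_iff.mp hv
  have e : J • v = J' • v := by rw [← h, ← h']
  have e2 := congrFun e i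
  simp only [Pi.smul_apply, smul_eq_mul] at e2
  exact mul_right_cancel₀ hi e2

theorem Sa1_dvd {O I : Type} [CommRing O] [IsDomain O] {c d : ℕ} (hcd : c ≤ d) (v : I → Fin 3 → O)
    {F1 G1 F2 G2 : MvPolynomial (Fin 3) O}
    (hF2 : F2.IsHomogeneous c) (hG2 : G2.IsHomogeneous d)
    (v1 : ∀ z, eval (v z) F1 = 0) (w1 : ∀ z, eval (v z) G1 = 0)
    (v2 : ∀ z, eval (v z) F2 = 0) (w2 : ∀ z, eval (v z) G2 = 0)
    (g1 : DegGen v c d F1 G1) (heq : c < d → F1 = F2) (z : I)
    (hv : v z ≠ 0) {J1 J2 : O} (hJ1 : IsJ3 F1 G1 (v z) J1) (hJ2 : IsJ3 F2 G2 (v z) J2) :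
    J1 ∣ J2 := by
  obtain ⟨U, a, _, hU⟩ := g1 G2 hG2 w2
  have eG := Sa1_grad hU (v1 z) (w1 z)
  rcases hcd.lt_or_eq with h | h
  · have hF := heq h
    have eF : grad F2 (v z) = (1 : O) • grad F1 (v z) + (0 : O) • grad G1 (v z) := by
      rw [hF]; simp
    have := Sa1_unique hv hJ2 (Sa1_J eF eG hJ1)
    exact ⟨_, by rw [this, mul_comm]⟩
  · subst h
    obtain ⟨U', a', _, hU'⟩ := g1 F2 hF2 v2
    have eF := Sa1_grad hU' (v1 z) (w1 z)
    have := Sa1_unique hv hJ2 (Sa1_J eF eG hJ1)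
    exact ⟨_, by rw [this, mul_comm]⟩

theorem jac_unique {O I : Type} [CommRing O] [IsDomain O] {c d : ℕ} (hcd : c ≤ d) (v : I → Fin 3 → O)
    {F1 G1 F2 G2 : MvPolynomial (Fin 3) O} (hF1 : F1.IsHomogeneous c) (hG1 : G1.IsHomogeneous d)
    (hF2 : F2.IsHomogeneous c) (hG2 : G2.IsHomogeneous d)
    (v1 : ∀ z, eval (v z) F1 = 0) (w1 : ∀ z, eval (v z) G1 = 0)
    (v2 : ∀ z, eval (v z) F2 = 0) (w2 : ∀ z, eval (v z) G2 = 0)
    (g1 : DegGen v c d F1 G1) (g2 : DegGen v c d F2 G2) (heq : c < d → F1 = F2) (z : I)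
    (hv : v z ≠ 0) {J1 J2 : O} (hJ1 : IsJ3 F1 G1 (v z) J1) (hJ2 : IsJ3 F2 G2 (v z) J2) :
    Associated J1 J2 :=
  associated_of_dvd_dvd
    (Sa1_dvd hcd v hF2 hG2 v1 w1 v2 w2 g1 heq z hv hJ1 hJ2)
    (Sa1_dvd hcd v hF1 hG1 v2 w2 v1 w1 g2 (fun h => (heq h).symm) z hv hJ2 hJ1)

theorem unique_J3 {O : Type} [CommRing O] [IsDomain O] {F G : MvPolynomial (Fin 3) O} {v : Fin 3 → O}
    (hv : v ≠ 0) {J J' : O} (h : IsJ3 F G v J) (h' : IsJ3 F G v J') : J = J' :=
  Sa1_unique hv h h'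

end GP80
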