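import Mathlib
import Pool.Agent.H80.GP.Defs
import Pool.Agent.H80.GP.SDefs
import Pool.Agent.H80.GP.Kp1
import Pool.Agent.H80.GP.Kp2
import Pool.Agent.H80.GP.Cnx
import Pool.Agent.H80.GP.Omg
import Pool.Agent.H80.GP.Rla
import Pool.Agent.H80.GP.Sa1

/-!
# Row Sa2 (MP_87ed0a_GP): existence of the saturated pair  (about 220 lines)

Notation `bar A = map S.rho A`; `bar A = 0` iff `C pi ∣ A` (`map_eq_zero_iff` in Rla); forms of `k[X]` of degree `t` lift to forms of `O[X]` of degree `t` (surjectivity of `rho`).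

* `deggen_of_sat`: a saturated pair satisfies `DegGen`.  Proof.  `H` of degree `d` vanishing at the points: by `gen`, `pi^m H = A F + B G`, `A`, `B` may be taken homogeneous of degrees
  `d - c`, `0` (take the component of degree `d`; `B = C b`).  Induction on `m` (over all `A, b`): `m = 0` done.  `m > 0`: reduce: `bar A Γ F' + bar b Γ G' = 0`, cancel `Γ`:
  `bar A F' = - bar b G'`; if `bar b ≠ 0` then `F' ∣ G'` and, being coprime to `G'`, `F'` is a unit, of degree `c - kk ≥ 1`: impossible.  So `bar b = 0`, `bar A = 0` (`F' ≠ 0`),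
  `A = pi A1`, `b = pi b1`, cancel `pi` (a nonzero divisor): `pi^(m-1) H = A1 F + b1 G`.
* `sat_exists`: by strong induction on `multiplicity pi (J z0)` where `z0` is a fixed point and `J z0` the Jacobian of the pair at `v z0` (`exists_J3`, `J_ne_zero` of Omg: it is nonzero).
  Step.  Case `c < d`.  `bar F ≠ 0`.
   (a) If `bar G = Q bar F` for some `Q` (necessarily we may take `Q` homogeneous of degree `d - c`: take the component; also `Q = 0` if `bar G = 0`): lift `Q` to `Q~`, `G - Q~ F = pi G1`.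
   `(F, G1)` is again a `PairS` (`G1` homogeneous, vanishes at the points because `pi ≠ 0`; `(F, G) ⊆ (F, G1)` and `A F + B G1 = 0` gives `(pi A - Q~ B) F + B G = 0`, apply `kos` of the
   old pair: `pi^m B = - r F`, `pi^m (pi A - Q~ B) = r G`, so `pi^(m+1) A = r G - Q~ r F = r pi G1`, `pi^(m+1) B = - pi r F`: take `r pi`).  `G = pi G1 + Q~ F`.  By `trans_J` and
   `unique_J3` the Jacobian of `(F, G)` is `pi` times that of `(F, G1)`: smaller multiplicity; the induction hypothesis gives `(F, G2)`, `G1 = α G2 + H F`, so `G = pi α G2 + (Q~ + pi H) F`.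
   (b) Otherwise `bar G` is not a multiple of `bar F`; `Γ := gcd (bar F, bar G)` (`UniqueFactorizationMonoid`: `exists_reduced_factors` / `extract_gcd`), `bar F = Γ F'`, `bar G = Γ G'`, all homogeneous by
   `homog_of_mul` (Kp2), `kk = deg Γ`; if `kk = c` then `F'` is a nonzero constant and `bar F ∣ bar G`, excluded; so `kk < c` and the pair is saturated.
  Case `c = d`.
   (a) `bar F, bar G` linearly dependent over `k`: `x bar F + y bar G = 0`, `(x, y) ≠ 0`; lift `x, y`; if `y ≠ 0` (lift a unit, since `O` is local: a DVR with `rho` its residue map up to iso; `rho y~ ≠ 0` iff not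
   divisible by `pi` iff unit): `G1 := (x F + y G)/pi`, `F1 := F`, so `G = (pi/y) G1 - (x/y) F`; if `y = 0`, `x ≠ 0`: `bar F = 0`, `F = pi F1`, `G1 := G`.  New `PairS` as before, transition determinant `pi` times a unit.
   (b) Otherwise `Γ` as above, `kk < c` since `kk = c` would make `F', G'` constants and `bar F, bar G` dependent.
  Compose transitions: determinants multiply.
* `α ≠ 0` because `J = α J1` and `J ≠ 0`.
-/

set_option linter.unusedSectionVars false

namespace GP80

open MvPolynomial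

theorem Sa2_C {O : Type} [CommRing O] [IsDomain O] {a : O} (ha : a ≠ 0)
    {A : MvPolynomial (Fin 3) O} {t : ℕ} (h : (C a * A).IsHomogeneous t) : A.IsHomogeneous t := by
  intro m hm
  refine h ?_
  rw [coeff_C_mul]
  exact mul_ne_zero ha hm

theorem Sa2_const {R : Type} [CommRing R] {A : MvPolynomial (Fin 3) R} (h : A.IsHomogeneous 0) :
    A = C (coeff 0 A) := by
  rw [← homogeneousComponent_zero]
  exact (homogeneousComponent_eq_self h).symm

theorem Sa2_lift {O k I : Type} [CommRing O] [Field k] [Fintype I] {D0 : ℕ}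
    (S : GeoS O k I D0) {Q : MvPolynomial (Fin 3) k} {t : ℕ} (hQ : Q.IsHomogeneous t) :
    ∃ Q' : MvPolynomial (Fin 3) O, Q'.IsHomogeneous t ∧ map S.rho Q' = Q := by
  obtain ⟨Q₀, hQ₀⟩ := map_surjective S.rho S.surj Q
  refine ⟨homogeneousComponent t Q₀, homogeneousComponent_isHomogeneous t Q₀, ?_⟩
  have h1 : map S.rho (homogeneousComponent t Q₀) = homogeneousComponent t (map S.rho Q₀) := by
    ext m
    rw [coeff_map, coeff_homogeneousComponent, coeff_homogeneousComponent, coeff_map]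
    split_ifs
    · rfl
    · exact map_zero _
  rw [h1, hQ₀, homogeneousComponent_eq_self hQ]

theorem Sa2_core {O k I : Type} [CommRing O] [IsDomain O] [Field k] [Fintype I] {D0 c d kk : ℕ}
    (S : GeoS O k I D0) {F G : MvPolynomial (Fin 3) O} {Γ F' G' : MvPolynomial (Fin 3) k}
    (h : SatS S c d F G Γ F' G' kk) {H : MvPolynomial (Fin 3) O} (m : ℕ) :
    ∀ (A : MvPolynomial (Fin 3) O) (b : O), A.IsHomogeneous (d - c) →
      C (S.pi ^ m) * H = A * F + C b * G →
      ∃ (U : MvPolynomial (Fin 3) O) (a : O), U.IsHomogeneous (d - c) ∧ H = U * F + C a * G := by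
  induction m with
  | zero =>
    intro A b hA h1
    exact ⟨A, b, hA, by rw [← h1, pow_zero, C_1, one_mul]⟩
  | succ m ih =>
    intro A b hA h1
    have hpi : S.rho S.pi = 0 := (S.ker _).2 dvd_rfl
    have h2 : map S.rho A * F' + C (S.rho b) * G' = 0 := by
      refine (mul_eq_zero.1 (?_ : Γ * (map S.rho A * F' + C (S.rho b) * G') = 0)).resolve_left h.nzΓ
      have h3 := congrArg (map S.rho) h1
      rw [map_mul, map_add, map_mul, map_mul, h.eF, h.eG, map_C, map_C, map_pow, hpi,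
        zero_pow (Nat.succ_ne_zero m), C_0, zero_mul] at h3
      linear_combination -h3
    have hb : S.rho b = 0 := by
      by_contra hb
      have h3 : F' ∣ G' := by
        refine ⟨-(C (S.rho b)⁻¹ * map S.rho A), ?_⟩
        have h4 : C (S.rho b)⁻¹ * C (S.rho b) = (1 : MvPolynomial (Fin 3) k) := by
          rw [← C_mul, inv_mul_cancel₀ hb, C_1]
        linear_combination (C (S.rho b)⁻¹) * h2 - G' * h4
      have h5 : IsUnit F' := h.cop dvd_rfl h3
      have h6 : constantCoeff F' = 0 := by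
        have h7 := h.lt
        rw [constantCoeff_eq]
        refine h.hF'.coeff_eq_zero ?_
        rw [map_zero]
        omega
      have h8 := h5.map (constantCoeff (R := k) (σ := Fin 3))
      rw [h6] at h8
      exact not_isUnit_zero h8
    have hA0 : map S.rho A = 0 := by
      rw [hb, C_0, zero_mul, add_zero] at h2
      exact (mul_eq_zero.1 h2).resolve_right h.nzF
    obtain ⟨A1, rfl⟩ := (map_eq_zero_iff S A).1 hA0
    obtain ⟨b1, rfl⟩ := (S.ker b).1 hb
    refine ih A1 b1 (Sa2_C S.prime.ne_zero hA) (mul_left_cancel₀ (C_pi_prime S).ne_zero ?_)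
    rw [pow_succ, C_mul, C_mul] at h1
    linear_combination h1

theorem deggen_of_sat {O k I : Type} [CommRing O] [IsDomain O] [Field k] [Fintype I] {D0 c d kk : ℕ}
    (S : GeoS O k I D0) {F G : MvPolynomial (Fin 3) O} {Γ F' G' : MvPolynomial (Fin 3) k}
    (h : SatS S c d F G Γ F' G' kk) (hcd : c ≤ d) : DegGen S.v c d F G := by
  intro H hH hv
  obtain ⟨m, hm⟩ := h.pair.gen d H hH hv
  rw [Ideal.mem_span_pair] at hm
  obtain ⟨A₀, B₀, hAB₀⟩ := hm
  obtain ⟨A, hA, hA'⟩ := Rla_comp (A := A₀) h.pair.hF d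
  obtain ⟨B, hB, hB'⟩ := Rla_comp (A := B₀) h.pair.hG d
  have hAB : C (S.pi ^ m) * H = A * F + B * G := by
    rw [← hA, ← hB, ← map_add, hAB₀]
    exact (homogeneousComponent_eq_self (hH.C_mul _)).symm
  have hAh : A.IsHomogeneous (d - c) := by
    rcases hA' with h1 | h1
    · rw [h1]
      exact isHomogeneous_zero _ _ _
    · exact h1.2
  have hBh : B.IsHomogeneous 0 := by
    rcases hB' with h1 | h1
    · rw [h1]
      exact isHomogeneous_zero _ _ _
    · rw [Nat.sub_self] at h1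
      exact h1.2
  rw [Sa2_const hBh] at hAB
  exact Sa2_core S h m A _ hAh hAB

theorem Sa2_sat {O k I : Type} [CommRing O] [IsDomain O] [Field k] [Fintype I] {D0 c d : ℕ}
    (S : GeoS O k I D0) {F G : MvPolynomial (Fin 3) O} (hp : PairS S c d F G)
    (hf : map S.rho F ≠ 0) (hfg : ¬ map S.rho F ∣ map S.rho G) :
    ∃ (Γ F' G' : MvPolynomial (Fin 3) k) (kk : ℕ), SatS S c d F G Γ F' G' kk := by
  obtain ⟨F', G', Γ, hcop, h1, h2⟩ :=
    UniqueFactorizationMonoid.exists_reduced_factors (map S.rho F) hf (map S.rho G)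
  have hΓ : Γ ≠ 0 := by
    rintro rfl
    exact hf (by rw [← h1, zero_mul])
  have hF' : F' ≠ 0 := by
    rintro rfl
    exact hf (by rw [← h1, mul_zero])
  have hG' : G' ≠ 0 := by
    rintro rfl
    exact hfg (by rw [← h2, mul_zero]; exact dvd_zero _)
  have h3 : (Γ * F').IsHomogeneous c := by
    rw [h1]
    exact hp.hF.map _
  have h4 : (Γ * G').IsHomogeneous d := by
    rw [h2]
    exact hp.hG.map _
  obtain ⟨kk, b, hab, h5, h6⟩ := homog_of_mul h3 (mul_ne_zero hΓ hF')
  have h7 := homog_of_mul_left h4 h5 (mul_ne_zero hΓ hG')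
  have hlt : kk < c := by
    by_contra hcon
    have hb : b = 0 := by omega
    subst hb
    have h8 := Sa2_const h6
    have hu : coeff 0 F' ≠ 0 := by
      intro h9
      exact hF' (by rw [h8, h9, C_0])
    refine hfg ?_
    rw [← h1, ← h2, h8]
    exact mul_dvd_mul_left Γ (((isUnit_iff_ne_zero.2 hu).map C).dvd)
  exact ⟨Γ, F', G', kk, hp, h5, by rw [show c - kk = b by omega]; exact h6, h7.2, hΓ, hF', hG',
    hlt, h1.symm, h2.symm, hcop⟩

theorem Sa2_span {R : Type} [CommRing R] {a b a' b' x : R} (h : x ∈ Ideal.span {a, b})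
    (h1 : a ∈ Ideal.span {a', b'}) (h2 : b ∈ Ideal.span {a', b'}) : x ∈ Ideal.span {a', b'} := by
  rw [Ideal.mem_span_pair] at h
  obtain ⟨u, v, rfl⟩ := h
  exact Ideal.add_mem _ (Ideal.mul_mem_left _ _ h1) (Ideal.mul_mem_left _ _ h2)

theorem Sa2_step {O k I : Type} [CommRing O] [IsDomain O] [Field k] [Fintype I] {D0 c d : ℕ}
    (S : GeoS O k I D0) {F G : MvPolynomial (Fin 3) O} (hp : PairS S c d F G) (hcd : c ≤ d)
    (hF : c < d → map S.rho F ≠ 0)
    (hns : ¬ ∃ (Γ F' G' : MvPolynomial (Fin 3) k) (kk : ℕ), SatS S c d F G Γ F' G' kk) :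
    ∃ F1 G1 : MvPolynomial (Fin 3) O, PairS S c d F1 G1 ∧ (c < d → map S.rho F1 ≠ 0) ∧
      Trans c d F G F1 G1 S.pi := by
  have hpi0 : (C S.pi : MvPolynomial (Fin 3) O) ≠ 0 := (C_pi_prime S).ne_zero
  by_cases hf : map S.rho F = 0
  · have hcd' : c = d := by
      by_contra h
      exact hF (lt_of_le_of_ne hcd h) hf
    subst hcd'
    obtain ⟨F1, rfl⟩ := (map_eq_zero_iff S F).1 hf
    refine ⟨F1, G, ⟨Sa2_C S.prime.ne_zero hp.hF, hp.hG, fun z => ?_, hp.vG, fun t f ht hv => ?_,
      fun A B hAB => ?_⟩, fun h => absurd h (lt_irrefl _), Or.inr ⟨rfl, S.pi, 0, 0, 1, ?_, ?_, ?_⟩⟩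
    · have h1 := hp.vF z
      rw [map_mul, eval_C] at h1
      exact (mul_eq_zero.1 h1).resolve_left S.prime.ne_zero
    · obtain ⟨m, hm⟩ := hp.gen t f ht hv
      refine ⟨m, Sa2_span hm ?_ ?_⟩
      · exact Ideal.mul_mem_left _ _ (Ideal.subset_span (by simp))
      · exact Ideal.subset_span (by simp)
    · have h1 : A * (C S.pi * F1) + (C S.pi * B) * G = 0 := by
        linear_combination (C S.pi) * hAB
      obtain ⟨m, r, h2, h3⟩ := hp.kos _ _ h1
      refine ⟨m + 1, r * C S.pi, ?_, ?_⟩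
      · rw [pow_succ, C_mul]
        linear_combination (C S.pi) * h2
      · rw [pow_succ, C_mul]
        linear_combination h3
    · rw [C_0]; ring
    · rw [C_0, C_1]; ring
    · ring
  · by_cases hfg : map S.rho F ∣ map S.rho G
    · obtain ⟨Q, hQ⟩ := hfg
      have hQh : Q.IsHomogeneous (d - c) := by
        by_cases hQ0 : Q = 0
        · rw [hQ0]
          exact isHomogeneous_zero _ _ _
        · have h1 : (map S.rho F * Q).IsHomogeneous d := by
            rw [← hQ]
            exact hp.hG.map _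
          exact (homog_of_mul_left h1 (hp.hF.map _) (mul_ne_zero hf hQ0)).2
      obtain ⟨Q', hQ', hQ''⟩ := Sa2_lift S hQh
      have h1 : map S.rho (G - Q' * F) = 0 := by
        rw [map_sub, map_mul, hQ'', hQ]
        ring
      obtain ⟨G1, hG1⟩ := (map_eq_zero_iff S _).1 h1
      have hGe : G = Q' * F + C S.pi * G1 := by
        rw [← hG1]
        ring
      have hG1h : G1.IsHomogeneous d := by
        refine Sa2_C S.prime.ne_zero ?_
        rw [← hG1]
        refine hp.hG.sub ?_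
        have h2 := hQ'.mul hp.hF
        rwa [Nat.sub_add_cancel hcd] at h2
      refine ⟨F, G1, ⟨hp.hF, hG1h, hp.vF, fun z => ?_, fun t f ht hv => ?_, fun A B hAB => ?_⟩,
        fun _ => hf, ?_⟩
      · have h2 := hp.vG z
        rw [hGe, map_add, map_mul, map_mul, hp.vF z, mul_zero, zero_add, eval_C] at h2
        exact (mul_eq_zero.1 h2).resolve_left S.prime.ne_zero
      · obtain ⟨m, hm⟩ := hp.gen t f ht hv
        refine ⟨m, Sa2_span hm ?_ ?_⟩
        · exact Ideal.subset_span (by simp)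
        · rw [hGe]
          exact Ideal.add_mem _ (Ideal.mul_mem_left _ _ (Ideal.subset_span (by simp)))
            (Ideal.mul_mem_left _ _ (Ideal.subset_span (by simp)))
      · have h2 : (C S.pi * A - Q' * B) * F + B * G = 0 := by
          rw [hGe]
          linear_combination (C S.pi) * hAB
        obtain ⟨m, r, h3, h4⟩ := hp.kos _ _ h2
        refine ⟨m + 1, r * C S.pi, ?_, ?_⟩
        · rw [pow_succ, C_mul]
          rw [hGe] at h3
          linear_combination h3 + Q' * h4
        · rw [pow_succ, C_mul]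
          linear_combination (C S.pi) * h4
      · rcases hcd.lt_or_eq with hlt | heq
        · exact Or.inl ⟨hlt, rfl, Q', hQ', by rw [hGe]; ring⟩
        · have h2 : Q'.IsHomogeneous 0 := by
            rw [heq, Nat.sub_self] at hQ'
            exact hQ'
          refine Or.inr ⟨heq, 1, 0, coeff 0 Q', S.pi, ?_, ?_, ?_⟩
          · rw [C_0, C_1]; ring
          · rw [← Sa2_const h2, ← hGe]
          · ring
    · exact absurd (Sa2_sat S hp hf hfg) hns

theorem Sa2_comp {O : Type} [CommRing O] {c d : ℕ} {F G F1 G1 F2 G2 : MvPolynomial (Fin 3) O}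
    {α β : O} (h1 : Trans c d F G F1 G1 α) (h2 : Trans c d F1 G1 F2 G2 β) :
    Trans c d F G F2 G2 (α * β) := by
  rcases h1 with ⟨hlt, rfl, H, hH, rfl⟩ | ⟨heq, m11, m12, m21, m22, rfl, rfl, rfl⟩
  · rcases h2 with ⟨-, rfl, H', hH', rfl⟩ | ⟨heq, -⟩
    · refine Or.inl ⟨hlt, rfl, C α * H' + H, (hH'.C_mul _).add hH, ?_⟩
      rw [C_mul]
      ring
    · omega
  · rcases h2 with ⟨hlt, -⟩ | ⟨-, n11, n12, n21, n22, rfl, rfl, rfl⟩
    · omega
    · refine Or.inr ⟨heq, m11 * n11 + m12 * n21, m11 * n12 + m12 * n22,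
        m21 * n11 + m22 * n21, m21 * n12 + m22 * n22, ?_, ?_, ?_⟩
      · simp only [C_add, C_mul]
        ring
      · simp only [C_add, C_mul]
        ring
      · ring

theorem Sa2_refl {O : Type} [CommRing O] {c d : ℕ} (hcd : c ≤ d) (F G : MvPolynomial (Fin 3) O) :
    Trans c d F G F G 1 := by
  rcases hcd.lt_or_eq with hlt | heq
  · exact Or.inl ⟨hlt, rfl, 0, isHomogeneous_zero _ _ _, by rw [C_1]; ring⟩
  · exact Or.inr ⟨heq, 1, 0, 0, 1, by rw [C_0, C_1]; ring, by rw [C_0, C_1]; ring, by ring⟩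

theorem Sa2_main {O k I : Type} [CommRing O] [IsDomain O] [Field k]
    [Fintype I] {D0 c d : ℕ} (S : GeoS O k I D0) (hcd : c ≤ d) (z0 : I) (N : ℕ) :
    ∀ (F G : MvPolynomial (Fin 3) O) (J : O), PairS S c d F G → (c < d → map S.rho F ≠ 0) →
      IsJ3 F G (S.v z0) J → ¬ S.pi ^ N ∣ J →
      ∃ (F1 G1 : MvPolynomial (Fin 3) O) (α : O) (Γ F' G' : MvPolynomial (Fin 3) k) (kk : ℕ),
        α ≠ 0 ∧ Trans c d F G F1 G1 α ∧ SatS S c d F1 G1 Γ F' G' kk := by
  have hv : S.v z0 ≠ 0 := by
    obtain ⟨i, hi⟩ := S.unim z0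
    intro h
    rw [h] at hi
    exact not_isUnit_zero hi
  induction N with
  | zero =>
    intro F G J _ _ _ h
    rw [pow_zero] at h
    exact absurd (one_dvd _) h
  | succ N ih =>
    intro F G J hp hF hJ hN
    by_cases hs : ∃ (Γ F' G' : MvPolynomial (Fin 3) k) (kk : ℕ), SatS S c d F G Γ F' G' kk
    · obtain ⟨Γ, F', G', kk, hs⟩ := hs
      exact ⟨F, G, 1, Γ, F', G', kk, one_ne_zero, Sa2_refl hcd F G, hs⟩
    · obtain ⟨F1, G1, hp1, hF1, ht⟩ := Sa2_step S hp hcd hF hs
      obtain ⟨J1, hJ1⟩ := exists_J3 hp1.hF hp1.hG (S.unim z0) (hp1.vF z0) (hp1.vG z0)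
      have h1 : J = S.pi * J1 := unique_J3 hv hJ (trans_J ht (hp1.vF z0) (hp1.vG z0) hJ1)
      have h2 : ¬ S.pi ^ N ∣ J1 := by
        rintro ⟨w, hw⟩
        exact hN ⟨w, by rw [h1, hw]; ring⟩
      obtain ⟨F2, G2, α, Γ, F', G', kk, h3, h4, h5⟩ := ih F1 G1 J1 hp1 hF1 hJ1 h2
      exact ⟨F2, G2, S.pi * α, Γ, F', G', kk, mul_ne_zero S.prime.ne_zero h3,
        Sa2_comp ht h4, h5⟩

theorem sat_exists {O k I : Type} [CommRing O] [IsDomain O] [IsDiscreteValuationRing O] [Field k]
    [Fintype I] [Nonempty I] {D0 c d : ℕ} (S : GeoS O k I D0) {F G : MvPolynomial (Fin 3) O}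
    (h : PairS S c d F G) (hc : 2 ≤ c) (hcd : c ≤ d) (hF : c < d → map S.rho F ≠ 0) :
    ∃ (F1 G1 : MvPolynomial (Fin 3) O) (α : O) (Γ F' G' : MvPolynomial (Fin 3) k) (kk : ℕ),
      α ≠ 0 ∧ Trans c d F G F1 G1 α ∧ SatS S c d F1 G1 Γ F' G' kk := by
  obtain ⟨z0⟩ := ‹Nonempty I›
  obtain ⟨J, hJ⟩ := exists_J3 h.hF h.hG (S.unim z0) (h.vF z0) (h.vG z0)
  have hJ0 : J ≠ 0 := J_ne_zero S h (by omega) (by omega) z0 hJ
  obtain ⟨N, hN⟩ := FiniteMultiplicity.of_not_isUnit S.prime.not_isUnit hJ0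
  exact Sa2_main S hcd z0 (N + 1) F G J h hF hJ hN

end GP80
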