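import Mathlib
import Pool.Agent.H80.GP.Defs
import Pool.Agent.H80.GP.SDefs
import Pool.Agent.H80.GP.Kp1

/-!
# Row Sa3 (MP_87ed0a_GP): the big determinant under a transition  (about 150 lines)

Claim: `bigDet e F G β = α ^ nn (c - 2) * bigDet e F1 G1 β`.

Proof.  Write the matrix of `bigDet e F G β` as `T * (matrix of bigDet e F1 G1 β)`, `T` a square matrix with index set `(Mon (d-2) ⊕ Mon (c-2)) ⊕ I`
(`Matrix.det_mul`; entries are coefficients of the polynomials of the rows, which are linear in the rows).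
Case `c < d`: row `m F = m F1` (`T` = identity there), row `m G = α (m G1) + ∑_{m'} coeff_{m'}(m H) (m' F1)` with `m'` running over `Mon (d-2)` (`m H` is homogeneous of degree
`(c-2) + (d-c) = d-2`, `c ≥ 2`), row `β i` unchanged.  `T` is block lower triangular with diagonal blocks `1`, `α • 1` (of size `card (Mon (c-2)) = nn (c-2)` by `card_Mon`), `1`:
`Matrix.det_fromBlocks_zero₁₂` etc.
Case `c = d` (`subst`): `m F = m11 (m F1) + m12 (m G1)`, `m G = m21 (m F1) + m22 (m G1)`; `T = fromBlocks (fromBlocks (m11 • 1) (m12 • 1) (m21 • 1) (m22 • 1)) 0 0 1`; the determinant of the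
`2 × 2` block matrix of scalar matrices is `(m11 m22 - m12 m21)^card` (`Matrix.det_fromBlocks` needs invertibility; instead: it is the Kronecker product of a `2 × 2` matrix with `1`
after reindexing, `Matrix.det_kronecker`; or `Matrix.det_fromBlocks_of_comm`-type lemma; or: both sides are polynomials in `m11`, reduce to the generic case over the
fraction field of `ℤ[m11, m12, m21, m22]`).
-/

namespace GP80

open MvPolynomial

theorem Sa3_exp {O : Type} [CommRing O] {t : ℕ} {f : MvPolynomial (Fin 3) O}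
    (hf : f.IsHomogeneous t) : ∑ m : Mon t, C (coeff m.1 f) * monomial m.1 (1 : O) = f := by
  obtain ⟨b, hb, hr⟩ := exists_basisMon O t
  have h1 := b.sum_repr (HS.mk f hf)
  have h2 := congrArg HS.val h1
  rw [HS.val_sum] at h2
  rw [HS.val_mk] at h2
  refine Eq.trans ?_ h2
  refine Finset.sum_congr rfl fun m _ => ?_
  rw [HS.val_smul, hb, hr, HS.val_mk]

theorem Sa3_hom {O : Type} [CommRing O] {t : ℕ} (m : Mon t) :
    (monomial m.1 (1 : O)).IsHomogeneous t := by
  obtain ⟨b, hb, -⟩ := exists_basisMon O t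
  rw [← hb m]
  exact (b m).prop

/-- the rows of the big determinant -/
noncomputable def Sa3_row {O I : Type} [CommRing O] {a b : ℕ} (F G : MvPolynomial (Fin 3) O)
    (β : I → MvPolynomial (Fin 3) O) : (Mon a ⊕ Mon b) ⊕ I → MvPolynomial (Fin 3) O :=
  Sum.elim (Sum.elim (fun m => monomial m.1 (1 : O) * F) (fun m => monomial m.1 (1 : O) * G)) β

theorem Sa3_mul {O I : Type} [CommRing O] [Fintype I] [DecidableEq I] {c d : ℕ}
    (e : (Mon (d - 2) ⊕ Mon (c - 2)) ⊕ I ≃ Mon (c + d - 2))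
    {F G F1 G1 : MvPolynomial (Fin 3) O} (β : I → MvPolynomial (Fin 3) O)
    (T : Matrix ((Mon (d - 2) ⊕ Mon (c - 2)) ⊕ I) ((Mon (d - 2) ⊕ Mon (c - 2)) ⊕ I) O)
    (hT : ∀ r, Sa3_row (a := d - 2) (b := c - 2) F G β r = ∑ r', C (T r r') * Sa3_row F1 G1 β r') :
    bigDet e F G β = T.det * bigDet e F1 G1 β := by
  unfold bigDet
  rw [← Matrix.det_mul]
  congr 1
  ext r s
  rw [Matrix.mul_apply]
  show coeff (e s).1 (Sa3_row F G β r) = ∑ r', T r r' * coeff (e s).1 (Sa3_row F1 G1 β r')
  rw [hT r, coeff_sum]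
  exact Finset.sum_congr rfl fun r' _ => coeff_C_mul _ _ _

theorem Sa3_one {O R n : Type} [CommRing O] [CommRing R] [Fintype n] [DecidableEq n] (φ : O →+* R)
    (a : O) (f : n → R) (m : n) :
    ∑ m', φ ((a • (1 : Matrix n n O)) m m') * f m' = φ a * f m := by
  rw [Finset.sum_eq_single m]
  · simp
  · intro m' _ hm
    simp [Matrix.one_apply, Ne.symm hm]
  · intro h
    exact absurd (Finset.mem_univ m) h

theorem Sa3_one' {O R n : Type} [CommRing O] [CommRing R] [Fintype n] [DecidableEq n] (φ : O →+* R)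
    (f : n → R) (m : n) :
    ∑ m', φ ((1 : Matrix n n O) m m') * f m' = f m := by
  have h := Sa3_one φ 1 f m
  rwa [one_smul, map_one, one_mul] at h

theorem Sa3_zero {O R n n' : Type} [CommRing O] [CommRing R] [Fintype n] (φ : O →+* R)
    (f : n → R) (m : n') : ∑ m', φ ((0 : Matrix n' n O) m m') * f m' = 0 :=
  Finset.sum_eq_zero fun m' _ => by rw [Matrix.zero_apply, map_zero, zero_mul]

theorem Sa3_T1 {O R A B I : Type} [CommRing O] [CommRing R] [Fintype A] [DecidableEq A] [Fintype B]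
    [DecidableEq B] [Fintype I] [DecidableEq I] (φ : O →+* R) (f : A → R) (g : B → R) (β : I → R)
    (α : O) (Bm : Matrix B A O) (r : (A ⊕ B) ⊕ I) :
    Sum.elim (Sum.elim f (fun m => φ α * g m + ∑ m', φ (Bm m m') * f m')) β r =
      ∑ r', φ ((Matrix.fromBlocks (Matrix.fromBlocks 1 0 Bm (α • 1)) 0 0 1 :
        Matrix ((A ⊕ B) ⊕ I) ((A ⊕ B) ⊕ I) O) r r') * Sum.elim (Sum.elim f g) β r' := by
  rw [Fintype.sum_sum_type, Fintype.sum_sum_type]
  rcases r with (m | m) | i
  · simp only [Sum.elim_inl, Sum.elim_inr, Matrix.fromBlocks_apply₁₁,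
      Matrix.fromBlocks_apply₂₁, Matrix.fromBlocks_apply₂₂, Matrix.fromBlocks_apply₁₂, Sa3_one,
      Sa3_one', Sa3_zero, add_zero, zero_add]
  · simp only [Sum.elim_inl, Sum.elim_inr, Matrix.fromBlocks_apply₁₁,
      Matrix.fromBlocks_apply₂₁, Matrix.fromBlocks_apply₂₂, Matrix.fromBlocks_apply₁₂, Sa3_one,
      Sa3_one', Sa3_zero, add_zero, zero_add]
    rw [add_comm]
  · simp only [Sum.elim_inl, Sum.elim_inr, Matrix.fromBlocks_apply₁₁,
      Matrix.fromBlocks_apply₂₁, Matrix.fromBlocks_apply₂₂, Matrix.fromBlocks_apply₁₂, Sa3_one,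
      Sa3_one', Matrix.zero_apply, map_zero, zero_mul, Finset.sum_const_zero, add_zero, zero_add]

theorem Sa3_T2 {O R A I : Type} [CommRing O] [CommRing R] [Fintype A] [DecidableEq A]
    [Fintype I] [DecidableEq I] (φ : O →+* R) (f : A → R) (g : A → R) (β : I → R)
    (a b c d : O) (r : (A ⊕ A) ⊕ I) :
    Sum.elim (Sum.elim (fun m => φ a * f m + φ b * g m) (fun m => φ c * f m + φ d * g m)) β r =
      ∑ r', φ ((Matrix.fromBlocks (Matrix.fromBlocks (a • 1) (b • 1) (c • 1) (d • 1)) 0 0 1 :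
        Matrix ((A ⊕ A) ⊕ I) ((A ⊕ A) ⊕ I) O) r r') * Sum.elim (Sum.elim f g) β r' := by
  rw [Fintype.sum_sum_type, Fintype.sum_sum_type]
  rcases r with (m | m) | i
  · simp only [Sum.elim_inl, Sum.elim_inr, Matrix.fromBlocks_apply₁₁,
      Matrix.fromBlocks_apply₂₁, Matrix.fromBlocks_apply₂₂, Matrix.fromBlocks_apply₁₂, Sa3_one,
      Matrix.zero_apply, map_zero, zero_mul, Finset.sum_const_zero, add_zero]
  · simp only [Sum.elim_inl, Sum.elim_inr, Matrix.fromBlocks_apply₁₁,
      Matrix.fromBlocks_apply₂₁, Matrix.fromBlocks_apply₂₂, Matrix.fromBlocks_apply₁₂, Sa3_one,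
      Matrix.zero_apply, map_zero, zero_mul, Finset.sum_const_zero, add_zero]
  · simp only [Sum.elim_inl, Sum.elim_inr, Matrix.fromBlocks_apply₁₁,
      Matrix.fromBlocks_apply₂₁, Matrix.fromBlocks_apply₂₂, Matrix.fromBlocks_apply₁₂,
      Sa3_one', Matrix.zero_apply, map_zero, zero_mul, Finset.sum_const_zero, add_zero, zero_add]

/-- the equivalence of indices -/
def Sa3_e (n : Type) : n ⊕ n ≃ Fin 2 × n where
  toFun := Sum.elim (fun i => (0, i)) (fun i => (1, i))
  invFun := fun p => if p.1 = 0 then Sum.inl p.2 else Sum.inr p.2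
  left_inv := by
    rintro (i | i) <;> simp
  right_inv := by
    rintro ⟨j, i⟩
    fin_cases j <;> simp

open Kronecker in
theorem Sa3_det2 {O n : Type} [CommRing O] [Fintype n] [DecidableEq n] (a b c d : O) :
    (Matrix.fromBlocks (a • (1 : Matrix n n O)) (b • (1 : Matrix n n O)) (c • (1 : Matrix n n O))
      (d • (1 : Matrix n n O))).det = (a * d - b * c) ^ Fintype.card n := by
  have h1 : Matrix.fromBlocks (a • (1 : Matrix n n O)) (b • (1 : Matrix n n O))
      (c • (1 : Matrix n n O)) (d • (1 : Matrix n n O)) =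
      ((!![a, b; c, d] : Matrix (Fin 2) (Fin 2) O) ⊗ₖ (1 : Matrix n n O)).submatrix
        (Sa3_e n) (Sa3_e n) := by
    ext i j
    rcases i with i | i <;> rcases j with j | j <;>
      simp [Sa3_e, Matrix.kroneckerMap_apply]
  rw [h1, Matrix.det_submatrix_equiv_self, Matrix.det_kronecker, Matrix.det_one, one_pow, mul_one,
    Matrix.det_fin_two_of]

theorem trans_bigDet {O I : Type} [CommRing O] [Fintype I] [DecidableEq I] {c d : ℕ} (hc : 2 ≤ c)
    (hcd : c ≤ d) (e : (Mon (d - 2) ⊕ Mon (c - 2)) ⊕ I ≃ Mon (c + d - 2))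
    {F G F1 G1 : MvPolynomial (Fin 3) O} {α : O} (ht : Trans c d F G F1 G1 α)
    (β : I → MvPolynomial (Fin 3) O) :
    bigDet e F G β = α ^ nn (c - 2) * bigDet e F1 G1 β := by
  rcases ht with ⟨hlt, hF, H, hH, hG⟩ | ⟨heq, m11, m12, m21, m22, hF, hG, hα⟩
  · subst hF
    have h1 := Sa3_mul (c := c) (d := d) e (F := F) (G := G) (F1 := F) (G1 := G1) β
      (Matrix.fromBlocks (Matrix.fromBlocks 1 0
        (Matrix.of fun (m : Mon (c - 2)) (m' : Mon (d - 2)) => coeff m'.1 (monomial m.1 (1 : O) * H))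
        (α • 1)) 0 0 1) ?_
    · rw [h1, Matrix.det_fromBlocks_zero₁₂, Matrix.det_fromBlocks_zero₁₂, Matrix.det_one, one_mul,
        Matrix.det_one, mul_one, Matrix.det_smul, Matrix.det_one, mul_one, card_Mon]
    · intro r
      refine Eq.trans ?_ (Sa3_T1 C (fun m : Mon (d - 2) => monomial m.1 (1 : O) * F)
        (fun m : Mon (c - 2) => monomial m.1 (1 : O) * G1) β α _ r)
      unfold Sa3_row
      congr 2
      funext m
      have h2 : (monomial m.1 (1 : O) * H).IsHomogeneous (d - 2) := by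
        have h3 := (Sa3_hom (O := O) m).mul hH
        have h4 : c - 2 + (d - c) = d - 2 := by omega
        rwa [h4] at h3
      have h6 : (∑ m' : Mon (d - 2), C (coeff m'.1 (monomial m.1 (1 : O) * H)) *
          monomial m'.1 (1 : O)) * F = ∑ m' : Mon (d - 2),
          C (coeff m'.1 (monomial m.1 (1 : O) * H)) * (monomial m'.1 (1 : O) * F) := by
        rw [Finset.sum_mul]
        exact Finset.sum_congr rfl fun _ _ => by ring
      rw [Sa3_exp h2] at h6
      refine Eq.trans ?_ (congrArg (fun z => C α * (monomial m.1 (1 : O) * G1) + z) h6)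
      rw [hG]
      ring
  · subst heq
    have h1 := Sa3_mul (c := c) (d := c) e (F := F) (G := G) (F1 := F1) (G1 := G1) β
      (Matrix.fromBlocks (Matrix.fromBlocks (m11 • 1) (m12 • 1) (m21 • 1) (m22 • 1)) 0 0 1) ?_
    · rw [h1, Matrix.det_fromBlocks_zero₁₂, Matrix.det_one, mul_one, Sa3_det2, card_Mon, hα]
    · intro r
      refine Eq.trans ?_ (Sa3_T2 C (fun m : Mon (c - 2) => monomial m.1 (1 : O) * F1)
        (fun m : Mon (c - 2) => monomial m.1 (1 : O) * G1) β m11 m12 m21 m22 r)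
      unfold Sa3_row
      congr 2
      · funext m
        rw [hF]
        ring
      · funext m
        rw [hG]
        ring

end GP80
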