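import Mathlib
import Pool.Agent.H80.GP.GDefs
import Pool.Agent.H80.GP.PDefs
import Pool.Agent.H80.GP.Jac
import Pool.Agent.H80.GP.Prm

/-!
# Row All (MP_87ed0a_GP): outputs at all homogeneous primes  (about 70 lines)

`jac_exists` (chart 0) at every point gives `J`; `jac_one`, `jac_homog`.  For every homogeneous prime `π` apply `prime_out` with `i = 0`, `J` if `π ∤ P_0`, and with `i = 1`, `-J` if `π ∣ P_0` (then `π ∤ P_1`, as
`π` is associated to `P_0`); `multiplicity π (-J s) = multiplicity π (J s)`, `-J s ≠ 0`.  `Classical.choice` to get functions on `RR` (`0` for the other elements of `RR`).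
-/

namespace GP80

open MvPolynomial

theorem All_not_dvd {π : RR} (hπ : Prime π) (h0 : π ∣ X 0) : ¬ π ∣ X 1 := by
  intro h1
  have hX0 : Prime (X 0 : RR) := MvPolynomial.X_prime
  have hass : Associated π (X 0 : RR) := hπ.associated_of_dvd hX0 h0
  have h01 : (X 0 : RR) ∣ X 1 := hass.symm.dvd.trans h1
  obtain ⟨q, hq⟩ := h01
  have := congrArg (MvPolynomial.eval (fun i : Fin 4 => if i = 1 then (1 : ℂ) else 0)) hq
  simp at this

theorem glob_out {I : Type} [Fintype I] [DecidableEq I] (z : I → Fin 4 → ℂ) (hz : Geom z)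
    {c d f f' : ℕ} {F G : BB} (h : Glob z c d f f' F G) :
    ∃ (J : I → RR) (om : RR → I → ℕ) (jj g n : RR → ℕ) (lam : RR → ℕ → ℕ),
      (∀ s, IsJac 0 F G (z s) (J s)) ∧ (∀ s, (J s).IsHomogeneous (f + f' - 1)) ∧
      GlobOut z c d F G J om jj g n lam := by
  classical
  have hJex : ∀ s, ∃ J, IsJac 0 F G (z s) J := fun s =>
    jac_exists 0 h.Fx h.Gx h.FE h.GE (hz.co s) (h.Fz s) (h.Gz s)
  choose J hJ using hJex
  have hJ1 : ∀ s, IsJac 1 F G (z s) (-J s) := fun s =>
    jac_one h.Fx h.Gx h.FE h.GE (hz.co s) (h.Fz s) (h.Gz s) (hJ s)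
  have key : ∀ π : RR, ∃ (om : I → ℕ) (jj g n : ℕ) (lam : ℕ → ℕ),
      Prime π → (∃ δ, π.IsHomogeneous δ) →
        PrimeOut z c d J π om jj g n lam ∧
        (¬ π ∣ X 0 → DetOut z c d F G 0 π jj n lam ∧ JUniq z c d F π om) ∧
        (π ∣ X 0 → DetOut z c d F G 1 π jj n lam) := by
    intro π
    by_cases hπ : Prime π ∧ ∃ δ, π.IsHomogeneous δ
    · obtain ⟨hp, δ, hδ⟩ := hπ
      by_cases h0 : π ∣ X 0
      · obtain ⟨om, jj, g, n, lam, h1, h2, _⟩ :=
          prime_out z hz h hp hδ 1 (All_not_dvd hp h0) (fun s => -J s) hJ1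
        refine ⟨om, jj, g, n, lam, fun _ _ => ⟨?_, fun hn => absurd h0 hn, fun _ => h2⟩⟩
        exact {
          mult := fun s => by rw [← h1.mult s, multiplicity_neg]
          ne := fun s => neg_ne_zero.1 (h1.ne s)
          nv := h1.nv
          gn := h1.gn
          tail := h1.tail
          omn := h1.omn
          sum := h1.sum
          pos := h1.pos
          up := h1.up
          anti := h1.anti }
      · obtain ⟨om, jj, g, n, lam, h1, h2, h3⟩ := prime_out z hz h hp hδ 0 h0 J hJ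
        exact ⟨om, jj, g, n, lam, fun _ _ => ⟨h1, fun _ => ⟨h2, h3 rfl⟩, fun hd => absurd hd h0⟩⟩
    · exact ⟨fun _ => 0, 0, 0, 0, fun _ => 0, fun hp hh => absurd ⟨hp, hh⟩ hπ⟩
  choose om jj g n lam hkey using key
  refine ⟨J, om, jj, g, n, lam, hJ, fun s => jac_homog h.FP h.GP (hz.co s) (hJ s), ?_⟩
  exact {
    po := fun π hp hh => (hkey π hp hh).1
    dt0 := fun π hp hh hn => ((hkey π hp hh).2.1 hn).1
    dt1 := fun π hp hh hd => (hkey π hp hh).2.2 hd
    uq := fun π hp hh hn => ((hkey π hp hh).2.1 hn).2 }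

end GP80
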