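import Mathlib
import Pool.Agent.H80.GP.GDefs
import Pool.Agent.H80.GP.Ga1
import Pool.Agent.H80.GP.Ga2
import Pool.Agent.H80.GP.Kgn
import Pool.Agent.H80.GP.Kp1
import Pool.Agent.H80.GP.Ari

/-!
# Row Bet (MP_87ed0a_GP): the auxiliary forms `b` and degrees of determinants  (about 180 lines)

`t = c + d - 2`.
* `exists_beta`: `K = FractionRing RR`, chart 0.  The evaluation map `ev : HS K t → K^I` (`evHom`) at the points `vz K 0 (z s)` is surjective: its kernel consists of the forms of degree `t` in `(F0, G0)` (`gen_K`), i.e. (take components) of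
  the `A F0 + B G0`, `A ∈ HS (d-2)`, `B ∈ HS (c-2)`: dimension `≤ nn (d-2) + nn (c-2)`, and `nn t = nn (d-2) + nn (c-2) + c d` (`ari_card` in Ari; `finrank_hs` in Kp1), so the rank is `≥ c d = card I`.
  So there are `card I` monomials of degree `t` whose evaluation vectors form a basis of `K^I` (a spanning set contains a basis; `exists_linearIndependent`/`Basis` extraction), i.e. `μ : I → Mon t` with
  `det (μ_r (v_s)) ≠ 0`.  Put `b r := hlift 0 (monomial μ_r 1)`: `E`-invariant, `x`-degree `t`, `wP`-degree `t` (`hlift_wP` with `m = 0`), `atz (z s) (b r) = μ_r(P_0 z' - z_0 P')`, whose image in `K` is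
  `(P_0 z_0)^t μ_r(v_s)` (`vz_scale`): the determinant is nonzero (a column is multiplied by `(P_0 z_0)^t`).
  The bijection `e` exists by the equality of cardinalities (`card_Mon`, `Fintype.equivOfCardEq`).
* `bigDet_homog`: every entry of row `m F` is homogeneous of degree `f` (`chart_coeff_wP`; multiplication by a monomial of `ℂ[X]` permutes coefficients), row `m G`: `f'`, row `b r`: `t`; a determinant whose row `r` consists of homogeneous
  elements of degree `w r` is homogeneous of degree `∑ w r` (`Matrix.det_apply`, `IsHomogeneous.sum`, `IsHomogeneous.prod`).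
* `det_atz_homog`: same with all degrees `t`.
-/

namespace GP80

open MvPolynomial

theorem Bet_comp_mul {O : Type} [CommRing O] {c : ℕ} {u : MvPolynomial (Fin 3) O}
    (hu : u.IsHomogeneous c) (n : ℕ) (A : MvPolynomial (Fin 3) O) :
    homogeneousComponent (n + c) (A * u) = homogeneousComponent n A * u := by
  have h1 : ∀ i, homogeneousComponent (n + c) (homogeneousComponent i A * u) =
      if n = i then homogeneousComponent i A * u else 0 := by
    intro i
    have h2 : (homogeneousComponent i A * u).IsHomogeneous (i + c) :=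
      (homogeneousComponent_isHomogeneous i A).mul hu
    rw [homogeneousComponent_of_mem ((mem_homogeneousSubmodule _ _).2 h2)]
    by_cases h : n = i
    · rw [if_pos h, if_pos (by omega)]
    · rw [if_neg h, if_neg (by omega)]
  conv_lhs => rw [← sum_homogeneousComponent A]
  rw [Finset.sum_mul, map_sum, Finset.sum_congr rfl fun i _ => h1 i, Finset.sum_ite_eq]
  by_cases h : n ∈ Finset.range (A.totalDegree + 1)
  · rw [if_pos h]
  · rw [if_neg h, homogeneousComponent_eq_zero, zero_mul]
    have := mt Finset.mem_range.2 h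
    omega

/-- evaluation is surjective over the fraction field -/
theorem Bet_surj {K I : Type} [Field K] [Fintype I] {c d : ℕ} (hc : 2 ≤ c) (hcd : c ≤ d)
    (hN : Fintype.card I = c * d) (v : I → Fin 3 → K) {F G : MvPolynomial (Fin 3) K}
    (hF : F.IsHomogeneous c) (hG : G.IsHomogeneous d)
    (hgen : ∀ g : MvPolynomial (Fin 3) K, g.IsHomogeneous (c + d - 2) → (∀ s, eval (v s) g = 0) →
      g ∈ Ideal.span {F, G}) : Function.Surjective (evHom v (c + d - 2)) := by
  let φ : (HS K (d - 2) × HS K (c - 2)) →ₗ[K] HS K (c + d - 2) :=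
    { toFun := fun p => HS.mk (p.1.val * F + p.2.val * G) (by
        have h1 := p.1.prop.mul hF
        have h2 := p.2.prop.mul hG
        have e1 : d - 2 + c = c + d - 2 := by omega
        have e2 : c - 2 + d = c + d - 2 := by omega
        rw [e1] at h1
        rw [e2] at h2
        exact h1.add h2)
      map_add' := fun p q => by
        apply HS.ext
        simp only [HS.val_mk, HS.val_add, Prod.fst_add, Prod.snd_add]
        ring
      map_smul' := fun a p => by
        apply HS.ext
        simp only [HS.val_mk, HS.val_smul, Prod.smul_fst, Prod.smul_snd, RingHom.id_apply]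
        ring }
  have hker : LinearMap.ker (evHom v (c + d - 2)) ≤ LinearMap.range φ := by
    intro x hx
    have hx0 : ∀ s, eval (v s) x.val = 0 := fun s => congrFun (LinearMap.mem_ker.1 hx) s
    obtain ⟨A, B, hAB⟩ := Ideal.mem_span_pair.1 (hgen x.val x.prop hx0)
    refine ⟨(HS.mk _ (homogeneousComponent_isHomogeneous (d - 2) A),
      HS.mk _ (homogeneousComponent_isHomogeneous (c - 2) B)), ?_⟩
    apply HS.ext
    change homogeneousComponent (d - 2) A * F + homogeneousComponent (c - 2) B * G = x.val
    rw [← Bet_comp_mul hF, ← Bet_comp_mul hG]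
    have e1 : d - 2 + c = c + d - 2 := by omega
    have e2 : c - 2 + d = c + d - 2 := by omega
    rw [e1, e2, ← map_add, hAB]
    exact homogeneousComponent_eq_self x.prop
  have h1 : Module.finrank K (LinearMap.ker (evHom v (c + d - 2))) ≤ nn (d - 2) + nn (c - 2) := by
    refine le_trans (Submodule.finrank_mono hker) ?_
    refine le_trans (LinearMap.finrank_range_le φ) ?_
    rw [Module.finrank_prod, finrank_hs, finrank_hs]
  have h2 := LinearMap.finrank_range_add_finrank_ker (evHom v (c + d - 2))
  rw [finrank_hs] at h2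
  have h3 := ari_card c d hc hcd
  rw [← LinearMap.range_eq_top]
  apply Submodule.eq_top_of_finrank_eq
  rw [Module.finrank_fintype_fun_eq_card, hN]
  have h4 := Submodule.finrank_le (LinearMap.range (evHom v (c + d - 2)))
  rw [Module.finrank_fintype_fun_eq_card, hN] at h4
  omega

theorem Bet_mu {K I : Type} [Field K] [Fintype I] [DecidableEq I] {t : ℕ} (v : I → Fin 3 → K)
    (hs : Function.Surjective (evHom v t)) :
    ∃ μ : I → Mon t, Matrix.det (Matrix.of fun r s => eval (v s) (monomial (μ r).1 (1 : K))) ≠ 0 := by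
  classical
  obtain ⟨b, hb, -⟩ := exists_basisMon K t
  let w : Mon t → (I → K) := fun m => evHom v t (b m)
  have hspan : Submodule.span K (Set.range w) = ⊤ := by
    have h1 : Set.range w = (evHom v t) '' (Set.range b) := by
      rw [← Set.range_comp]
      rfl
    rw [h1, Submodule.span_image, b.span_eq, Submodule.map_top, LinearMap.range_eq_top]
    exact hs
  obtain ⟨κ, a, ha, hsp, hli⟩ := exists_linearIndependent' K w
  rw [hspan] at hsp
  let B := Module.Basis.mk hli hsp.ge
  have hfin : Finite κ := Module.Finite.finite_basis B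
  have hfint : Fintype κ := Fintype.ofFinite κ
  have hcard : Fintype.card I = Fintype.card κ := by
    rw [← Module.finrank_eq_card_basis B, Module.finrank_fintype_fun_eq_card]
  let e : I ≃ κ := Fintype.equivOfCardEq hcard
  refine ⟨fun r => a (e r), ?_⟩
  have hli2 : LinearIndependent K (fun r : I => (w ∘ a) (e r)) := hli.comp e e.injective
  have hA : LinearIndependent K
      (Matrix.of fun r s => eval (v s) (monomial (a (e r)).1 (1 : K))).row := by
    have h1 : (Matrix.of fun r s => eval (v s) (monomial (a (e r)).1 (1 : K))).row =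
        fun r : I => (w ∘ a) (e r) := by
      funext r s
      change eval (v s) (monomial (a (e r)).1 (1 : K)) = eval (v s) (b (a (e r))).val
      rw [hb]
    rw [h1]
    exact hli2
  have hU := Matrix.linearIndependent_rows_iff_isUnit.1 hA
  exact ((Matrix.isUnit_iff_isUnit_det _).1 hU).ne_zero

theorem exists_beta {I : Type} [Fintype I] [DecidableEq I] (z : I → Fin 4 → ℂ) (hz : Geom z)
    {c d f f' : ℕ} {F G : BB} (h : Glob z c d f f' F G) :
    ∃ (_ : (Mon (d - 2) ⊕ Mon (c - 2)) ⊕ I ≃ Mon (c + d - 2)) (b : I → BB),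
      (∀ r, IsWeightedHomogeneous wx (b r) (c + d - 2)) ∧ (∀ r, EE (b r) = 0) ∧
      (∀ r, IsWeightedHomogeneous wP (b r) (c + d - 2)) ∧
      Matrix.det (Matrix.of fun r s => atz (z s) (b r)) ≠ 0 := by
  classical
  have hz0 : ∀ s, z s 0 ≠ 0 := fun s => hz.co s 0
  have hinj : Function.Injective (algebraMap RR (FractionRing RR)) :=
    IsFractionRing.injective RR (FractionRing RR)
  have hu : IsUnit (algebraMap RR (FractionRing RR) (X 0)) := by
    apply IsUnit.mk0
    intro h0
    rw [← map_zero (algebraMap RR (FractionRing RR))] at h0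
    exact X_ne_zero _ (hinj h0)
  have hsurj := Bet_surj h.c2 h.cd h.N (fun s => vz (FractionRing RR) 0 (z s))
    (chart_homog (FractionRing RR) 0 h.Fx) (chart_homog (FractionRing RR) 0 h.Gx)
    (fun g hg hg0 => gen_K 0 z hz0 h hg hg0)
  obtain ⟨μ, hμ⟩ := Bet_mu _ hsurj
  have hcard : Fintype.card ((Mon (d - 2) ⊕ Mon (c - 2)) ⊕ I) =
      Fintype.card (Mon (c + d - 2)) := by
    rw [Fintype.card_sum, Fintype.card_sum, card_Mon, card_Mon, card_Mon, h.N]
    exact ari_card c d h.c2 h.cd
  have hhom : ∀ r, (monomial (μ r).1 (1 : RR)).IsHomogeneous (c + d - 2) := by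
    intro r
    apply isHomogeneous_monomial
    exact (Finsupp.degree_eq_sum _).trans (Finset.mem_finsuppAntidiag.1 (μ r).2).1
  refine ⟨Fintype.equivOfCardEq hcard, fun r => hlift 0 (monomial (μ r).1 1),
    fun r => hlift_wx 0 (hhom r), fun r => hlift_EE 0 _, fun r => ?_, ?_⟩
  · have h1 := hlift_wP 0 (m := 0) (hhom r) (fun e => by
      rw [coeff_monomial]
      split_ifs
      · exact isHomogeneous_one _ _
      · exact isHomogeneous_zero _ _ _)
    rw [zero_add] at h1
    exact h1
  · intro h0
    apply hμ
    have h1 := congrArg (algebraMap RR (FractionRing RR)) h0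
    rw [map_zero, RingHom.map_det] at h1
    have h2 : (algebraMap RR (FractionRing RR)).mapMatrix
        (Matrix.of fun r s => atz (z s) (hlift 0 (monomial (μ r).1 (1 : RR)))) =
        Matrix.of fun r s => (algebraMap RR (FractionRing RR) (X 0 * C (z s 0))) ^ (c + d - 2) *
          (Matrix.of fun r s => eval (vz (FractionRing RR) 0 (z s))
            (monomial (μ r).1 (1 : FractionRing RR))) r s := by
      ext r s
      change algebraMap RR (FractionRing RR) (atz (z s) (hlift 0 (monomial (μ r).1 (1 : RR)))) =
        (algebraMap RR (FractionRing RR) (X 0 * C (z s 0))) ^ (c + d - 2) *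
          eval (vz (FractionRing RR) 0 (z s)) (monomial (μ r).1 (1 : FractionRing RR))
      rw [atz_hlift, eval_monomial, eval_monomial, one_mul, one_mul,
        Finsupp.prod_fintype _ _ (fun _ => pow_zero _),
        Finsupp.prod_fintype _ _ (fun _ => pow_zero _), map_prod]
      have h3 : ∀ j : Fin 3, algebraMap RR (FractionRing RR)
          ((X 0 * C (z s (Fin.succAbove 0 j)) - C (z s 0) * X (Fin.succAbove 0 j)) ^ (μ r).1 j) =
          (algebraMap RR (FractionRing RR) (X 0 * C (z s 0))) ^ (μ r).1 j *
            (vz (FractionRing RR) 0 (z s) j) ^ (μ r).1 j := by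
        intro j
        rw [map_pow, vz_scale (FractionRing RR) 0 hu (hz0 s), mul_pow]
      rw [Finset.prod_congr rfl fun j _ => h3 j, Finset.prod_mul_distrib, Finset.prod_pow_eq_pow_sum]
      congr 2
      exact (Finset.mem_finsuppAntidiag.1 (μ r).2).1
    rw [h2, Matrix.det_mul_row] at h1
    rcases mul_eq_zero.1 h1 with h3 | h3
    · exfalso
      obtain ⟨s, -, hs⟩ := Finset.prod_eq_zero_iff.1 h3
      have h4 := eq_zero_of_pow_eq_zero hs
      rw [← map_zero (algebraMap RR (FractionRing RR))] at h4
      have h5 := hinj h4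
      rcases mul_eq_zero.1 h5 with h6 | h6
      · exact X_ne_zero _ h6
      · rw [C_eq_zero] at h6
        exact hz0 s h6
    · exact h3

theorem Bet_det {J : Type} [Fintype J] [DecidableEq J] (A : Matrix J J RR) (w : J → ℕ)
    (h : ∀ r s, (A r s).IsHomogeneous (w r)) : A.det.IsHomogeneous (∑ r, w r) := by
  rw [Matrix.det_apply]
  refine IsHomogeneous.sum _ _ _ fun σ _ => ?_
  have h1 : (∏ i, A (σ i) i).IsHomogeneous (∑ r, w r) := by
    rw [← Equiv.sum_comp σ w]
    exact IsHomogeneous.prod _ _ _ fun i _ => h _ _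
  rcases Int.units_eq_one_or (Equiv.Perm.sign σ) with hs | hs
  · rw [hs, one_smul]
    exact h1
  · rw [hs, Units.neg_smul, one_smul]
    exact h1.neg

theorem bigDet_homog {I : Type} [Fintype I] [DecidableEq I] {c d f f' m : ℕ}
    (e : (Mon (d - 2) ⊕ Mon (c - 2)) ⊕ I ≃ Mon (c + d - 2)) {F G : BB} (b : I → BB)
    (hF : IsWeightedHomogeneous wP F f) (hG : IsWeightedHomogeneous wP G f')
    (hb : ∀ r, IsWeightedHomogeneous wP (b r) m) (i : Fin 4) :
    (bigDet e (chartH RR i F) (chartH RR i G) (fun r => chartH RR i (b r))).IsHomogeneous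
      (f * nn (d - 2) + f' * nn (c - 2) + m * Fintype.card I) := by
  classical
  have hmul : ∀ (g : ℕ) (H : BB), IsWeightedHomogeneous wP H g → ∀ (u x : Fin 3 →₀ ℕ),
      (coeff x (monomial u (1 : RR) * chartH RR i H)).IsHomogeneous g := by
    intro g H hH u x
    rw [coeff_monomial_mul']
    split_ifs
    · rw [one_mul]
      exact chart_coeff_wP i hH _
    · exact isHomogeneous_zero _ _ _
  have h1 := Bet_det (Matrix.of fun r s : (Mon (d - 2) ⊕ Mon (c - 2)) ⊕ I =>
    coeff (e s).1
      (Sum.elim (Sum.elim (fun m => monomial m.1 (1 : RR) * chartH RR i F)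
        (fun m => monomial m.1 (1 : RR) * chartH RR i G)) (fun r => chartH RR i (b r)) r))
    (Sum.elim (Sum.elim (fun _ => f) (fun _ => f')) (fun _ => m)) (by
      rintro ((r | r) | r) s
      · exact hmul f F hF _ _
      · exact hmul f' G hG _ _
      · exact chart_coeff_wP i (hb r) _)
  have h2 : ∑ r : (Mon (d - 2) ⊕ Mon (c - 2)) ⊕ I,
      (Sum.elim (Sum.elim (fun _ => f) (fun _ => f')) (fun _ => m) :
        (Mon (d - 2) ⊕ Mon (c - 2)) ⊕ I → ℕ) r =
      f * nn (d - 2) + f' * nn (c - 2) + m * Fintype.card I := by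
    rw [Fintype.sum_sum_type, Fintype.sum_sum_type]
    simp only [Sum.elim_inl, Sum.elim_inr, Finset.sum_const, Finset.card_univ, card_Mon,
      smul_eq_mul]
    ring
  rw [h2] at h1
  exact h1

theorem det_atz_homog {I : Type} [Fintype I] [DecidableEq I] (z : I → Fin 4 → ℂ) {m : ℕ} (b : I → BB)
    (hb : ∀ r, IsWeightedHomogeneous wP (b r) m) :
    (Matrix.det (Matrix.of fun r s => atz (z s) (b r))).IsHomogeneous (m * Fintype.card I) := by
  have h1 := Bet_det (Matrix.of fun r s => atz (z s) (b r)) (fun _ => m)
    (fun r s => atz_wP (hb r) (z s))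
  rw [Finset.sum_const, Finset.card_univ, smul_eq_mul, mul_comm] at h1
  exact h1

end GP80
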