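import Mathlib
import Pool.Agent.H80.GP.GDefs
import Pool.Agent.H80.GP.Ga2
import Pool.Agent.H80.GP.Kp1

/-!
# Row Cch (MP_87ed0a_GP): change of chart for the big determinant  (about 220 lines)

Work over `K = FractionRing RR`.  Chart 0 has variables `X_0, X_1, X_2` = restrictions of `x_1, x_2, x_3`; chart 1 has variables `X_0, X_1, X_2` = restrictions of `x_0, x_2, x_3`.
For an `E`-invariant `x`-homogeneous `H`: `H0 := chartH K 0 H`, `H1 := chartH K 1 H`.  Then `H0 = H1(A X)` with the substitution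
`A : X_0 ↦ - (P_0/P_1) X_0, X_1 ↦ X_1 - (P_2/P_1) X_0, X_2 ↦ X_2 - (P_3/P_1) X_0`:  indeed the point `(0, x_1, x_2, x_3)` of chart 0 and `(- (P_0/P_1) x_1, 0, x_2 - (P_2/P_1) x_1, x_3 - (P_3/P_1) x_1)` differ by
`(x_1/P_1) P`, use `einv` (S = polynomial ring over `K`, `p = P`, `μ = - x_1/P_1`).
Let `t = c + d - 2` and for every degree `l` let `S_l` be the matrix (index set `Mon l`) of the substitution `A` on forms of degree `l`: `m(A X) = ∑_m' S_l(m, m') m'`.
* `det S_l = (-(P_0/P_1))^(binom(l+2, 3))`: `S_l(m, m') ≠ 0` only if `m' 0 ≥ m 0`, and if `m' 0 = m 0` then only for `m' = m`, with value `(-(P_0/P_1))^(m 0)` (expand `(X_1 + a X_0)^(m 1) (X_2 + b X_0)^(m 2)`); so `S_l` is triangular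
  for any linear order refining the order by `m 0` (`Matrix.det_of_upperTriangular`/`BlockTriangular`), and `∑_{m ∈ Mon l} m 0 = binom(l+2, 3)` (there are `l - i + 1` monomials with `m 0 = i`; or by symmetry `3 ∑ m 0 = l * nn l`).
* rows: let `Δ_i` be the matrix of the big determinant in chart `i` over `K`.  Row `m F1 = m(Y) F1(Y)` in chart 1; substituting `Y = A X`: `m(A X) F0(X) = ∑_m' S_(d-2)(m, m') m' F0`.  The coefficient vector of `Q(A X)` is
  (coefficient vector of `Q`) `* S_t`.  So `Δ_1 * S_t = diag(S_(d-2), S_(c-2), 1) * Δ_0` (with the column relabelling `e`), and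
  `det Δ_1 * det S_t = det S_(d-2) * det S_(c-2) * det Δ_0`.  `binom((d-2)+2, 3) = binom(d, 3)`, etc. (`c, d ≥ 2`).
  Hence `det Δ_0 = (-(P_0/P_1))^w det Δ_1`, `w = binom(c+d, 3) - binom(c, 3) - binom(d, 3)` (which is `≥ 0`), so `P_1^w det Δ_0 = ± P_0^w det Δ_1` in `K`, hence in `RR` (`chart_map`, `RingHom.map_det`, injectivity).
-/

namespace GP80

open MvPolynomial

/-! ### the set of monomials -/

private theorem Cch_mem_iff {t : ℕ} {d : Fin 3 →₀ ℕ} :
    d ∈ Finset.finsuppAntidiag (Finset.univ : Finset (Fin 3)) t ↔ d 0 + d 1 + d 2 = t := by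
  rw [Finset.mem_finsuppAntidiag, Fin.sum_univ_three]
  constructor
  · rintro ⟨h, -⟩
    exact h
  · intro h
    exact ⟨h, Finset.subset_univ _⟩

private theorem Cch_deg {t : ℕ} (m : Mon t) : m.1 0 + m.1 1 + m.1 2 = t := Cch_mem_iff.1 m.2

private theorem Cch_ext {m m' : Fin 3 →₀ ℕ} (h0 : m 0 = m' 0) (h1 : m 1 = m' 1) (h2 : m 2 = m' 2) :
    m = m' := by
  ext i
  fin_cases i
  · exact h0
  · exact h1
  · exact h2

private theorem Cch_eqdeg {t : ℕ} {d : Fin 3 →₀ ℕ} (h : d 0 + d 1 + d 2 = t) : d.degree = t := by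
  rw [Finsupp.degree_eq_sum, Fin.sum_univ_three]
  exact h

private def Cch_perm (l : ℕ) (σ : Equiv.Perm (Fin 3)) : Mon l → Mon l := fun m =>
  ⟨m.1.equivMapDomain σ, by
    have h := m.2
    rw [Finset.mem_finsuppAntidiag] at h ⊢
    refine ⟨?_, Finset.subset_univ _⟩
    have h2 : ∑ i, (m.1.equivMapDomain σ) i = ∑ i, m.1 (σ.symm i) :=
      Finset.sum_congr rfl fun i _ => Finsupp.equivMapDomain_apply _ _ _
    rw [h2, Equiv.sum_comp σ.symm (fun i => m.1 i)]
    exact h.1⟩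

private theorem Cch_perm_apply (l : ℕ) (σ : Equiv.Perm (Fin 3)) (m : Mon l) (i : Fin 3) :
    (Cch_perm l σ m).1 i = m.1 (σ.symm i) := Finsupp.equivMapDomain_apply _ _ _

private theorem Cch_perm_perm (l : ℕ) (i : Fin 3) (m : Mon l) :
    Cch_perm l (Equiv.swap 0 i) (Cch_perm l (Equiv.swap 0 i) m) = m := by
  apply Subtype.ext
  ext j
  rw [Cch_perm_apply, Cch_perm_apply, Equiv.symm_swap, Equiv.swap_apply_self]

private theorem Cch_sum_eq (l : ℕ) (i : Fin 3) : ∑ m : Mon l, m.1 i = ∑ m : Mon l, m.1 0 := by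
  refine Fintype.sum_equiv ⟨Cch_perm l (Equiv.swap 0 i), Cch_perm l (Equiv.swap 0 i),
    Cch_perm_perm l i, Cch_perm_perm l i⟩ _ _ fun m => ?_
  show m.1 i = (Cch_perm l (Equiv.swap 0 i) m).1 0
  rw [Cch_perm_apply, Equiv.symm_swap, Equiv.swap_apply_left]

private theorem Cch_sum_deg (l : ℕ) :
    ∑ m : Mon l, m.1 0 + ∑ m : Mon l, (m.1 1 + m.1 2) = l * nn l := by
  rw [← Finset.sum_add_distrib, Finset.sum_congr rfl (fun (m : Mon l) _ =>
    (by have := Cch_deg m; omega : m.1 0 + (m.1 1 + m.1 2) = l)), Finset.sum_const,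
    Finset.card_univ, card_Mon, smul_eq_mul, mul_comm]

private theorem Cch_sum0 (l : ℕ) : ∑ m : Mon l, m.1 0 = (l + 2).choose 3 := by
  have h1 := Cch_sum_deg l
  rw [Finset.sum_add_distrib, Cch_sum_eq l 1, Cch_sum_eq l 2] at h1
  have h2 := Nat.choose_succ_right_eq (l + 2) 2
  have h3 : l + 2 - 2 = l := by omega
  rw [h3] at h2
  unfold nn at h1
  have h4 : l * (l + 2).choose 2 = (l + 2).choose 2 * l := mul_comm _ _
  have h5 : (l + 2).choose (2 + 1) = (l + 2).choose 3 := rfl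
  rw [h5] at h2
  omega

/-! ### the substitution -/

private noncomputable def Cch_A : Fin 3 → MvPolynomial (Fin 3) RR :=
  ![C (-X 0) * X 0, C (X 1) * X 1 - C (X 2) * X 0, C (X 1) * X 2 - C (X 3) * X 0]

private noncomputable def Cch_phi : MvPolynomial (Fin 3) RR →ₐ[RR] MvPolynomial (Fin 3) RR :=
  aeval Cch_A

private theorem Cch_A_hom (i : Fin 3) : (Cch_A i).IsHomogeneous 1 := by
  have h : ∀ (a : RR) (j : Fin 3), (C a * X j : MvPolynomial (Fin 3) RR).IsHomogeneous 1 :=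
    fun a j => (isHomogeneous_X RR j).C_mul a
  fin_cases i
  · exact h _ _
  · exact (h _ _).sub (h _ _)
  · exact (h _ _).sub (h _ _)

private theorem Cch_phi_hom {f : MvPolynomial (Fin 3) RR} {l : ℕ} (hf : f.IsHomogeneous l) :
    (Cch_phi f).IsHomogeneous l := by
  have h := hf.aeval Cch_A (n := 1) Cch_A_hom
  rwa [one_mul] at h

private theorem Cch_expand {f : MvPolynomial (Fin 3) RR} {l : ℕ} (hf : f.IsHomogeneous l) :
    f = ∑ m : Mon l, C (coeff m.1 f) * monomial m.1 (1 : RR) := by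
  obtain ⟨b, hb1, hb2⟩ := exists_basisMon RR l
  have h := b.sum_repr (HS.mk f hf)
  have h2 := congrArg HS.val h
  rw [HS.val_sum, HS.val_mk] at h2
  rw [← h2]
  conv_lhs => rw [h2]
  conv_lhs => rw [← h2]
  refine Finset.sum_congr rfl fun m _ => ?_
  rw [HS.val_smul, hb1, hb2, HS.val_mk, h2]

private noncomputable def Cch_S (l : ℕ) : Matrix (Mon l) (Mon l) RR :=
  fun m m' => coeff m'.1 (Cch_phi (monomial m.1 1))

private theorem Cch_phi_mon {l : ℕ} (m : Mon l) :
    Cch_phi (monomial m.1 1) = ∑ m' : Mon l, C (Cch_S l m m') * monomial m'.1 (1 : RR) :=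
  Cch_expand (Cch_phi_hom (isHomogeneous_monomial (1 : RR) (Cch_eqdeg (Cch_deg m))))

private theorem Cch_phi_coeff {f : MvPolynomial (Fin 3) RR} {l : ℕ} (hf : f.IsHomogeneous l)
    (m' : Mon l) : coeff m'.1 (Cch_phi f) = ∑ m : Mon l, coeff m.1 f * Cch_S l m m' := by
  conv_lhs => rw [Cch_expand hf]
  rw [map_sum, coeff_sum]
  refine Finset.sum_congr rfl fun m _ => ?_
  rw [map_mul, ← algebraMap_eq, AlgHom.commutes, algebraMap_eq, coeff_C_mul]
  rfl

/-! ### the substitution is triangular -/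

private theorem Cch_entry {l : ℕ} (m m' : Mon l) :
    Cch_S l m m' = if m.1 0 ≤ m'.1 0 then
      (-X 0 : RR) ^ m.1 0 * coeff (m'.1 - Finsupp.single 0 (m.1 0))
        (Cch_A 1 ^ m.1 1 * Cch_A 2 ^ m.1 2) else 0 := by
  have h1 : Cch_phi (monomial m.1 1) = monomial (Finsupp.single 0 (m.1 0)) ((-X 0 : RR) ^ m.1 0) *
      (Cch_A 1 ^ m.1 1 * Cch_A 2 ^ m.1 2) := by
    unfold Cch_phi
    rw [aeval_monomial, map_one, one_mul, Finsupp.prod_fintype _ _ (fun i => pow_zero _),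
      Fin.prod_univ_three, mul_assoc]
    congr 1
    show (C (-X 0) * X 0 : MvPolynomial (Fin 3) RR) ^ m.1 0 = _
    rw [mul_pow, ← map_pow, X_pow_eq_monomial, C_mul_monomial, mul_one]
  unfold Cch_S
  rw [h1, coeff_monomial_mul']
  by_cases h : m.1 0 ≤ m'.1 0
  · rw [if_pos h, if_pos]
    rw [Finsupp.single_le_iff]
    exact h
  · rw [if_neg h, if_neg]
    rw [Finsupp.single_le_iff]
    exact h

private theorem Cch_dvd (k k' : ℕ) : (X 0 : MvPolynomial (Fin 3) RR) ∣
    Cch_A 1 ^ k * Cch_A 2 ^ k' - (C (X 1) * X 1) ^ k * (C (X 1) * X 2) ^ k' := by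
  have h1 : (X 0 : MvPolynomial (Fin 3) RR) ∣ Cch_A 1 ^ k - (C (X 1) * X 1) ^ k := by
    refine dvd_trans ?_ (sub_dvd_pow_sub_pow _ _ k)
    refine ⟨-C (X 2), ?_⟩
    show (C (X 1) * X 1 - C (X 2) * X 0 : MvPolynomial (Fin 3) RR) - C (X 1) * X 1 = _
    ring
  have h2 : (X 0 : MvPolynomial (Fin 3) RR) ∣ Cch_A 2 ^ k' - (C (X 1) * X 2) ^ k' := by
    refine dvd_trans ?_ (sub_dvd_pow_sub_pow _ _ k')
    refine ⟨-C (X 3), ?_⟩
    show (C (X 1) * X 2 - C (X 3) * X 0 : MvPolynomial (Fin 3) RR) - C (X 1) * X 2 = _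
    ring
  have h3 : Cch_A 1 ^ k * Cch_A 2 ^ k' - (C (X 1) * X 1) ^ k * (C (X 1) * X 2) ^ k' =
      (Cch_A 1 ^ k - (C (X 1) * X 1) ^ k) * Cch_A 2 ^ k' +
        (C (X 1) * X 1) ^ k * (Cch_A 2 ^ k' - (C (X 1) * X 2) ^ k') := by ring
  rw [h3]
  exact dvd_add (Dvd.dvd.mul_right h1 _) (Dvd.dvd.mul_left h2 _)

private theorem Cch_coeff0 (k k' : ℕ) (d : Fin 3 →₀ ℕ) (hd : d 0 = 0) :
    coeff d (Cch_A 1 ^ k * Cch_A 2 ^ k') =
      if d 1 = k ∧ d 2 = k' then (X 1 : RR) ^ (k + k') else 0 := by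
  obtain ⟨y, hy⟩ := Cch_dvd k k'
  have h1 : Cch_A 1 ^ k * Cch_A 2 ^ k' = (C (X 1) * X 1) ^ k * (C (X 1) * X 2) ^ k' + X 0 * y := by
    rw [← hy]
    ring
  have h2 : ((C (X 1) * X 1) ^ k * (C (X 1) * X 2) ^ k' : MvPolynomial (Fin 3) RR) =
      monomial (Finsupp.single 1 k + Finsupp.single 2 k') ((X 1 : RR) ^ (k + k')) := by
    rw [mul_pow, mul_pow, ← map_pow, ← map_pow, C_mul_X_pow_eq_monomial,
      C_mul_X_pow_eq_monomial, monomial_mul, ← pow_add]
  rw [h1, coeff_add, h2, coeff_X_mul', coeff_monomial, if_neg (c := (0 : Fin 3) ∈ d.support)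
    (by rw [Finsupp.mem_support_iff, not_not]; exact hd), add_zero]
  by_cases h : d 1 = k ∧ d 2 = k'
  · rw [if_pos h, if_pos]
    refine Cch_ext ?_ ?_ ?_
    · simp [hd]
    · simp [h.1]
    · simp [h.2]
  · rw [if_neg h, if_neg]
    intro h3
    apply h
    rw [← h3]
    constructor <;> simp

private theorem Cch_diag {l : ℕ} (m : Mon l) :
    Cch_S l m m = (-X 0 : RR) ^ m.1 0 * (X 1 : RR) ^ (m.1 1 + m.1 2) := by
  rw [Cch_entry, if_pos le_rfl, Cch_coeff0 _ _ _ (by simp), if_pos]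
  constructor <;> simp

private theorem Cch_upper {l : ℕ} (m m' : Mon l) (h : Cch_S l m m' ≠ 0) :
    m.1 0 < m'.1 0 ∨ m = m' := by
  rw [Cch_entry] at h
  by_cases h1 : m.1 0 ≤ m'.1 0
  · rcases lt_or_eq_of_le h1 with h2 | h2
    · exact Or.inl h2
    · right
      rw [if_pos h1, Cch_coeff0 _ _ _ (by simp [h2])] at h
      by_cases h3 : (m'.1 - Finsupp.single 0 (m.1 0) : Fin 3 →₀ ℕ) 1 = m.1 1 ∧
          (m'.1 - Finsupp.single 0 (m.1 0) : Fin 3 →₀ ℕ) 2 = m.1 2
      · apply Subtype.ext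
        refine Cch_ext h2 ?_ ?_
        · rw [← h3.1]
          simp
        · rw [← h3.2]
          simp
      · rw [if_neg h3, mul_zero] at h
        exact absurd rfl h
  · rw [if_neg h1] at h
    exact absurd rfl h

private def Cch_rk (l : ℕ) (m : Mon l) : ℕ := m.1 0 * (l + 1) + m.1 1

private theorem Cch_rk_inj (l : ℕ) : Function.Injective (Cch_rk l) := by
  intro m m' h
  have h1 := Cch_deg m
  have h2 := Cch_deg m'
  unfold Cch_rk at h
  have h3 : m.1 0 = m'.1 0 := by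
    rcases lt_trichotomy (m.1 0) (m'.1 0) with h4 | h4 | h4
    · exfalso
      have h5 : (m.1 0 + 1) * (l + 1) ≤ m'.1 0 * (l + 1) := Nat.mul_le_mul_right _ h4
      rw [add_mul] at h5
      omega
    · exact h4
    · exfalso
      have h5 : (m'.1 0 + 1) * (l + 1) ≤ m.1 0 * (l + 1) := Nat.mul_le_mul_right _ h4
      rw [add_mul] at h5
      omega
  have h4 : m.1 1 = m'.1 1 := by
    rw [h3] at h
    omega
  exact Subtype.ext (Cch_ext h3 h4 (by omega))

private theorem Cch_det (l : ℕ) : (Cch_S l).det =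
    (-X 0 : RR) ^ ((l + 2).choose 3) * (X 1 : RR) ^ (∑ m : Mon l, (m.1 1 + m.1 2)) := by
  have h1 : (Cch_S l).det = ∏ m : Mon l, Cch_S l m m := by
    have h2 : (Cch_S l).BlockTriangular (Cch_rk l) := by
      intro m m' hlt
      by_contra h3
      have h5 := Cch_deg m
      have h6 := Cch_deg m'
      rcases Cch_upper m m' h3 with h7 | h7
      · unfold Cch_rk at hlt
        have h8 : (m.1 0 + 1) * (l + 1) ≤ m'.1 0 * (l + 1) := Nat.mul_le_mul_right _ h7
        rw [add_mul] at h8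
        omega
      · rw [h7] at hlt
        exact lt_irrefl _ hlt
    rw [h2.det, Finset.prod_image (fun x _ y _ h => Cch_rk_inj l h)]
    refine Finset.prod_congr rfl fun m _ => ?_
    letI : Unique {i // Cch_rk l i = Cch_rk l m} :=
      ⟨⟨⟨m, rfl⟩⟩, fun i => Subtype.ext (Cch_rk_inj l i.2)⟩
    rw [Matrix.det_unique]
    rfl
  rw [h1, Finset.prod_congr rfl (fun m _ => Cch_diag m), Finset.prod_mul_distrib,
    Finset.prod_pow_eq_pow_sum, Finset.prod_pow_eq_pow_sum, Cch_sum0]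

/-! ### change of chart -/

private theorem Cch_scale {S : Type} [CommRing S] [Algebra ℂ S] {H : BB} {t : ℕ}
    (h : IsWeightedHomogeneous wx H t) (p y : Fin 4 → S) (a : S) :
    aeval (Sum.elim p (fun i => a * y i)) H = a ^ t * aeval (Sum.elim p y) H := by
  rw [aeval_def, aeval_def, eval₂_eq', eval₂_eq', Finset.mul_sum]
  refine Finset.sum_congr rfl fun d hd => ?_
  have h1 := h (mem_support_iff.1 hd)
  rw [Finsupp.weight_apply, Finsupp.sum_fintype d (fun i c => c • wx i)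
    (fun i => zero_smul ℕ (wx i)), Fintype.sum_sum_type] at h1
  have h2 : ∑ i : Fin 4, d (Sum.inr i) = t := by
    rw [← h1]
    simp [wx]
  rw [Fintype.prod_sum_type, Fintype.prod_sum_type]
  simp only [Sum.elim_inl, Sum.elim_inr, mul_pow]
  rw [Finset.prod_mul_distrib, Finset.prod_pow_eq_pow_sum, h2]
  ring

private theorem Cch_chart (i : Fin 4) (H : BB) : chartH RR i H =
    aeval (Sum.elim (fun j => (C (X j) : MvPolynomial (Fin 3) RR))
      (fun j => Fin.insertNth (α := fun _ => MvPolynomial (Fin 3) RR) i 0 (fun m => X m) j)) H := by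
  rw [aeval_def]
  rfl

private theorem Cch_main {H : BB} {t : ℕ} (h : IsWeightedHomogeneous wx H t) (hE : EE H = 0) :
    Cch_phi (chartH RR 1 H) = C (X 1 ^ t) * chartH RR 0 H := by
  rw [Cch_chart, Cch_chart]
  have h1 : Cch_phi (aeval (Sum.elim (fun j => (C (X j) : MvPolynomial (Fin 3) RR))
      (fun j => Fin.insertNth (α := fun _ => MvPolynomial (Fin 3) RR) 1 0 (fun m => X m) j)) H) =
      aeval (Sum.elim (fun j => (C (X j) : MvPolynomial (Fin 3) RR)) (fun i =>
        C (X 1) * Fin.insertNth (α := fun _ => MvPolynomial (Fin 3) RR) 0 0 (fun m => X m) i +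
          (-X 0) * C (X i))) H := by
    have h2 := comp_aeval_apply (R := ℂ) (Sum.elim (fun j => (C (X j) : MvPolynomial (Fin 3) RR))
      (fun j => Fin.insertNth (α := fun _ => MvPolynomial (Fin 3) RR) 1 0 (fun m => X m) j))
      (Cch_phi.restrictScalars ℂ) H
    refine Eq.trans h2 ?_
    congr 2
    funext j
    rcases j with j | j
    · show Cch_phi (C (X j)) = C (X j)
      rw [← algebraMap_eq, AlgHom.commutes]
    · show Cch_phi (Fin.insertNth (α := fun _ => MvPolynomial (Fin 3) RR) 1 0 (fun m => X m) j) = _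
      have hX : ∀ k : Fin 3, Cch_phi (X k) = Cch_A k := fun k => aeval_X _ _
      fin_cases j
      · show Cch_phi (X 0) = C (X 1) * 0 + (-X 0) * C (X 0)
        rw [hX]
        show C (-X 0) * X 0 = _
        rw [C_neg]
        ring
      · show Cch_phi 0 = C (X 1) * X 0 + (-X 0) * C (X 1)
        rw [map_zero]
        ring
      · show Cch_phi (X 1) = C (X 1) * X 1 + (-X 0) * C (X 2)
        rw [hX]
        show C (X 1) * X 1 - C (X 2) * X 0 = _
        ring
      · show Cch_phi (X 2) = C (X 1) * X 2 + (-X 0) * C (X 3)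
        rw [hX]
        show C (X 1) * X 2 - C (X 3) * X 0 = _
        ring
  rw [h1, einv hE, Cch_scale h, map_pow]

theorem chart_change {I : Type} [Fintype I] [DecidableEq I] {c d : ℕ} (hc : 2 ≤ c) (hd : 2 ≤ d)
    (e : (Mon (d - 2) ⊕ Mon (c - 2)) ⊕ I ≃ Mon (c + d - 2)) {F G : BB} (b : I → BB)
    (hF : IsWeightedHomogeneous wx F c) (hG : IsWeightedHomogeneous wx G d)
    (hb : ∀ r, IsWeightedHomogeneous wx (b r) (c + d - 2)) (eF : EE F = 0) (eG : EE G = 0)
    (eb : ∀ r, EE (b r) = 0) {w : ℕ} (hw : w + c.choose 3 + d.choose 3 = (c + d).choose 3) :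
    Associated
      (X 1 ^ w * bigDet e (chartH RR 0 F) (chartH RR 0 G) (fun r => chartH RR 0 (b r)))
      (X 0 ^ w * bigDet e (chartH RR 1 F) (chartH RR 1 G) (fun r => chartH RR 1 (b r))) := by
  classical
  -- rows of the two matrices
  let row : Fin 4 → (Mon (d - 2) ⊕ Mon (c - 2)) ⊕ I → MvPolynomial (Fin 3) RR := fun i =>
    Sum.elim (Sum.elim (fun m => monomial m.1 (1 : RR) * chartH RR i F)
      (fun m => monomial m.1 (1 : RR) * chartH RR i G)) (fun r => chartH RR i (b r))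
  let M : Fin 4 → Matrix ((Mon (d - 2) ⊕ Mon (c - 2)) ⊕ I) ((Mon (d - 2) ⊕ Mon (c - 2)) ⊕ I) RR :=
    fun i => Matrix.of fun r s => coeff (e s).1 (row i r)
  let L : Matrix ((Mon (d - 2) ⊕ Mon (c - 2)) ⊕ I) ((Mon (d - 2) ⊕ Mon (c - 2)) ⊕ I) RR :=
    Matrix.fromBlocks (Matrix.fromBlocks ((X 1 ^ c : RR) • Cch_S (d - 2)) 0 0
      ((X 1 ^ d : RR) • Cch_S (c - 2))) 0 0 ((X 1 ^ (c + d - 2) : RR) • (1 : Matrix I I RR))
  have hrow : ∀ i r, (row i r).IsHomogeneous (c + d - 2) := by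
    intro i r
    rcases r with (m | m) | r
    · have h1 := (isHomogeneous_monomial (1 : RR) (Cch_eqdeg (Cch_deg m))).mul
        (chart_homog RR i hF)
      have h2 : d - 2 + c = c + d - 2 := by omega
      rwa [h2] at h1
    · have h1 := (isHomogeneous_monomial (1 : RR) (Cch_eqdeg (Cch_deg m))).mul
        (chart_homog RR i hG)
      have h2 : c - 2 + d = c + d - 2 := by omega
      rwa [h2] at h1
    · exact chart_homog RR i (hb r)
  have hM : M 1 * (Cch_S (c + d - 2)).submatrix e e = L * M 0 := by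
    refine Matrix.ext fun r s => ?_
    have h1 : (M 1 * (Cch_S (c + d - 2)).submatrix e e) r s = coeff (e s).1 (Cch_phi (row 1 r)) := by
      rw [Cch_phi_coeff (hrow 1 r), Matrix.mul_apply]
      exact Fintype.sum_equiv e _ _ fun s' => rfl
    rw [h1, Matrix.mul_apply, Fintype.sum_sum_type, Fintype.sum_sum_type]
    rcases r with (m | m) | r
    · have h2 : Cch_phi (row 1 (Sum.inl (Sum.inl m))) =
          ∑ m' : Mon (d - 2), C (X 1 ^ c * Cch_S (d - 2) m m') * row 0 (Sum.inl (Sum.inl m')) := by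
        show Cch_phi (monomial m.1 (1 : RR) * chartH RR 1 F) =
          ∑ m' : Mon (d - 2), C (X 1 ^ c * Cch_S (d - 2) m m') *
            (monomial m'.1 (1 : RR) * chartH RR 0 F)
        rw [map_mul, Cch_main hF eF, Cch_phi_mon, Finset.sum_mul]
        refine Finset.sum_congr rfl fun m' _ => ?_
        rw [C_mul]
        ring
      rw [h2, coeff_sum]
      have h3 : ∑ x : Mon (c - 2), L (Sum.inl (Sum.inl m)) (Sum.inl (Sum.inr x)) *
          M 0 (Sum.inl (Sum.inr x)) s = 0 := by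
        refine Finset.sum_eq_zero fun x _ => ?_
        show (0 : RR) * _ = 0
        rw [zero_mul]
      have h4 : ∑ x : I, L (Sum.inl (Sum.inl m)) (Sum.inr x) * M 0 (Sum.inr x) s = 0 := by
        refine Finset.sum_eq_zero fun x _ => ?_
        show (0 : RR) * _ = 0
        rw [zero_mul]
      rw [h3, h4, add_zero, add_zero]
      refine Finset.sum_congr rfl fun m' _ => ?_
      rw [coeff_C_mul]
      rfl
    · have h2 : Cch_phi (row 1 (Sum.inl (Sum.inr m))) =
          ∑ m' : Mon (c - 2), C (X 1 ^ d * Cch_S (c - 2) m m') * row 0 (Sum.inl (Sum.inr m')) := by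
        show Cch_phi (monomial m.1 (1 : RR) * chartH RR 1 G) =
          ∑ m' : Mon (c - 2), C (X 1 ^ d * Cch_S (c - 2) m m') *
            (monomial m'.1 (1 : RR) * chartH RR 0 G)
        rw [map_mul, Cch_main hG eG, Cch_phi_mon, Finset.sum_mul]
        refine Finset.sum_congr rfl fun m' _ => ?_
        rw [C_mul]
        ring
      rw [h2, coeff_sum]
      have h3 : ∑ x : Mon (d - 2), L (Sum.inl (Sum.inr m)) (Sum.inl (Sum.inl x)) *
          M 0 (Sum.inl (Sum.inl x)) s = 0 := by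
        refine Finset.sum_eq_zero fun x _ => ?_
        show (0 : RR) * _ = 0
        rw [zero_mul]
      have h4 : ∑ x : I, L (Sum.inl (Sum.inr m)) (Sum.inr x) * M 0 (Sum.inr x) s = 0 := by
        refine Finset.sum_eq_zero fun x _ => ?_
        show (0 : RR) * _ = 0
        rw [zero_mul]
      rw [h3, h4, add_zero, zero_add]
      refine Finset.sum_congr rfl fun m' _ => ?_
      rw [coeff_C_mul]
      rfl
    · have h2 : Cch_phi (row 1 (Sum.inr r)) = C (X 1 ^ (c + d - 2)) * row 0 (Sum.inr r) :=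
        Cch_main (hb r) (eb r)
      rw [h2, coeff_C_mul]
      have h3 : ∑ x : Mon (d - 2), L (Sum.inr r) (Sum.inl (Sum.inl x)) *
          M 0 (Sum.inl (Sum.inl x)) s = 0 := by
        refine Finset.sum_eq_zero fun x _ => ?_
        show (0 : RR) * _ = 0
        rw [zero_mul]
      have h4 : ∑ x : Mon (c - 2), L (Sum.inr r) (Sum.inl (Sum.inr x)) *
          M 0 (Sum.inl (Sum.inr x)) s = 0 := by
        refine Finset.sum_eq_zero fun x _ => ?_
        show (0 : RR) * _ = 0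
        rw [zero_mul]
      rw [h3, h4, add_zero, zero_add, Finset.sum_eq_single r]
      · show _ = (X 1 ^ (c + d - 2) * (1 : Matrix I I RR) r r) * coeff (e s).1 (row 0 (Sum.inr r))
        rw [Matrix.one_apply_eq, mul_one]
      · intro x _ hx
        show (X 1 ^ (c + d - 2) * (1 : Matrix I I RR) r x) * _ = 0
        rw [Matrix.one_apply_ne (Ne.symm hx), mul_zero, zero_mul]
      · intro h
        exact absurd (Finset.mem_univ r) h
  have hdet := congrArg Matrix.det hM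
  have hL : L.det = ((X 1 ^ c : RR) ^ nn (d - 2) * (Cch_S (d - 2)).det) *
      ((X 1 ^ d : RR) ^ nn (c - 2) * (Cch_S (c - 2)).det) *
      (X 1 ^ (c + d - 2) : RR) ^ Fintype.card I := by
    show (Matrix.fromBlocks _ _ _ _).det = _
    rw [Matrix.det_fromBlocks_zero₂₁, Matrix.det_fromBlocks_zero₂₁, Matrix.det_smul,
      Matrix.det_smul, Matrix.det_smul, Matrix.det_one, mul_one, card_Mon, card_Mon]
  rw [Matrix.det_mul, Matrix.det_mul, Matrix.det_submatrix_equiv_self, hL, Cch_det, Cch_det,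
    Cch_det] at hdet
  have hcard : nn (d - 2) + nn (c - 2) + Fintype.card I = nn (c + d - 2) := by
    have h1 := Fintype.card_congr e
    rwa [Fintype.card_sum, Fintype.card_sum, card_Mon, card_Mon, card_Mon] at h1
  obtain ⟨u1, hu1⟩ : ∃ u : ℕ, u = ∑ m : Mon (d - 2), (m.1 1 + m.1 2) := ⟨_, rfl⟩
  obtain ⟨u2, hu2⟩ : ∃ u : ℕ, u = ∑ m : Mon (c - 2), (m.1 1 + m.1 2) := ⟨_, rfl⟩
  obtain ⟨u3, hu3⟩ : ∃ u : ℕ, u = ∑ m : Mon (c + d - 2), (m.1 1 + m.1 2) := ⟨_, rfl⟩
  have s1 := Cch_sum_deg (d - 2)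
  have s2 := Cch_sum_deg (c - 2)
  have s3 := Cch_sum_deg (c + d - 2)
  have e1 : d - 2 + 2 = d := by omega
  have e2 : c - 2 + 2 = c := by omega
  have e3 : c + d - 2 + 2 = c + d := by omega
  rw [Cch_sum0, ← hu1, e1] at s1
  rw [Cch_sum0, ← hu2, e2] at s2
  rw [Cch_sum0, ← hu3, e3] at s3
  rw [← hu1, ← hu2, ← hu3, e1, e2, e3] at hdet
  have hexp : c * nn (d - 2) + u1 + (d * nn (c - 2) + u2) + (c + d - 2) * Fintype.card I =
      u3 + w := by
    have h1 : c * nn (d - 2) + (d - 2) * nn (d - 2) + (d * nn (c - 2) + (c - 2) * nn (c - 2)) +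
        (c + d - 2) * Fintype.card I = (c + d - 2) * nn (c + d - 2) := by
      rw [← hcard, ← add_mul, ← add_mul, mul_add, mul_add]
      have h2 : c + (d - 2) = c + d - 2 := by omega
      have h3 : d + (c - 2) = c + d - 2 := by omega
      rw [h2, h3]
    omega
  have h0 : (X 0 : RR) ≠ 0 := X_ne_zero 0
  have h1 : (X 1 : RR) ≠ 0 := X_ne_zero 1
  have hfin : (M 1).det * (-X 0 : RR) ^ w = (X 1 : RR) ^ w * (M 0).det := by
    have hne : (-X 0 : RR) ^ (c.choose 3 + d.choose 3) * (X 1 : RR) ^ u3 ≠ 0 :=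
      mul_ne_zero (pow_ne_zero _ (neg_ne_zero.2 h0)) (pow_ne_zero _ h1)
    apply mul_left_cancel₀ hne
    calc (-X 0 : RR) ^ (c.choose 3 + d.choose 3) * (X 1 : RR) ^ u3 * ((M 1).det * (-X 0 : RR) ^ w)
        = (M 1).det * ((-X 0 : RR) ^ (w + c.choose 3 + d.choose 3) * (X 1 : RR) ^ u3) := by
          rw [add_assoc w, pow_add _ w]
          ring
      _ = (M 1).det * ((-X 0 : RR) ^ (c + d).choose 3 * (X 1 : RR) ^ u3) := by rw [hw]
      _ = _ := hdet
      _ = (-X 0 : RR) ^ (c.choose 3 + d.choose 3) * (X 1 : RR) ^ (c * nn (d - 2) + u1 +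
            (d * nn (c - 2) + u2) + (c + d - 2) * Fintype.card I) * (M 0).det := by
          rw [← pow_mul, ← pow_mul, ← pow_mul]
          ring
      _ = _ := by
          rw [hexp]
          ring
  have hM0 : bigDet e (chartH RR 0 F) (chartH RR 0 G) (fun r => chartH RR 0 (b r)) = (M 0).det := rfl
  have hM1 : bigDet e (chartH RR 1 F) (chartH RR 1 G) (fun r => chartH RR 1 (b r)) = (M 1).det := rfl
  rw [hM0, hM1, ← hfin]
  refine ⟨(-1) ^ w, ?_⟩
  rw [neg_pow (X 0 : RR) w]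
  push_cast
  have h5 : ((-1 : RR) ^ w) * (-1 : RR) ^ w = 1 := by
    rw [← mul_pow]
    simp
  calc (M 1).det * ((-1) ^ w * X 0 ^ w) * (-1) ^ w
      = ((-1 : RR) ^ w * (-1 : RR) ^ w) * (X 0 ^ w * (M 1).det) := by ring
    _ = _ := by rw [h5, one_mul]

end GP80
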