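import Mathlib
import Pool.Agent.H80.GP.GDefs
import Pool.Agent.H80.GP.Kp2

/-!
# Row Fac (MP_87ed0a_GP): factorisations in `RR = ℂ[P]`  (about 150 lines)

* `exists_primes`: for `h ≠ 0` a finite set `T` of pairwise non associated primes dividing `h`, every prime divisor of `h` is associated to one of them
  (`UniqueFactorizationMonoid.factors h`, choose representatives of the classes: e.g. `Associates`, or `normalizedFactors` with
  `letI := UniqueFactorizationMonoid.toNormalizationMonoid`, `toFinset`); moreover one may extend a given such set `T0`.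
* `fac_prod`: `g ≠ 0` all of whose prime divisors are associated to elements of `T`: `g = C u * ∏ π ^ multiplicity π g`.  Proof: by `∏ π^(mult) ∣ g` (pairwise coprime prime powers,
  `Finset.prod_dvd_of_isRelPrime`/`Finset.prod_primes_dvd`-like induction), the quotient has no prime factor (a prime factor `q ~ π` would give `π^(mult+1) ∣ g`), so it is a unit of `RR`, i.e. a nonzero constant
  (`MvPolynomial.isUnit_iff_eq_C_of_isReduced` or totalDegree).
* `homog_of_dvd`: a divisor of a nonzero homogeneous polynomial is homogeneous (`homog_of_mul`).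
* `sum_deg`: degrees: for `g` homogeneous of degree `m`, `g ≠ 0`, covered by `T`, `∑_{π ∈ T} dl π * multiplicity π g = m` (degree of a product; a nonzero polynomial has at most one degree, `IsHomogeneous.inj_right`);
  `sum_deg_le`: without the covering hypothesis `≤ m` (the product divides `g`, the quotient is homogeneous, degrees add).
-/

namespace GP80

open MvPolynomial

/-- a finite set of pairwise non associated primes -/
def PSet (T : Finset RR) : Prop :=
  (∀ π ∈ T, Prime π) ∧ ∀ π ∈ T, ∀ π' ∈ T, Associated π π' → π = π'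

private theorem Fac_ms (T0 : Finset RR) (h0 : PSet T0) (h : RR) (s : Multiset RR)
    (hs : ∀ q ∈ s, Prime q ∧ q ∣ h) :
    ∃ T : Finset RR, T0 ⊆ T ∧ PSet T ∧ (∀ π ∈ T, π ∉ T0 → π ∣ h) ∧
      ∀ q ∈ s, ∃ π ∈ T, Associated q π := by
  classical
  induction s using Multiset.induction_on with
  | empty =>
    exact ⟨T0, Finset.Subset.refl _, h0, fun π h1 h2 => absurd h1 h2,
      fun q hq => absurd hq (Multiset.notMem_zero q)⟩
  | cons a s ih =>
    obtain ⟨T, h1, h2, h3, h4⟩ := ih fun q hq => hs q (Multiset.mem_cons_of_mem hq)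
    obtain ⟨h5, h6⟩ := hs a (Multiset.mem_cons_self a s)
    by_cases h7 : ∃ π ∈ T, Associated a π
    · refine ⟨T, h1, h2, h3, fun q hq => ?_⟩
      rcases Multiset.mem_cons.1 hq with rfl | hq
      · exact h7
      · exact h4 q hq
    · refine ⟨insert a T, h1.trans (Finset.subset_insert _ _), ⟨?_, ?_⟩, ?_, ?_⟩
      · intro π hπ
        rcases Finset.mem_insert.1 hπ with rfl | hπ
        · exact h5
        · exact h2.1 π hπ
      · intro π hπ π' hπ' hass
        rcases Finset.mem_insert.1 hπ with e1 | e1 <;>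
          rcases Finset.mem_insert.1 hπ' with e2 | e2
        · rw [e1, e2]
        · rw [e1] at hass
          exact absurd ⟨π', e2, hass⟩ h7
        · rw [e2] at hass
          exact absurd ⟨π, e1, hass.symm⟩ h7
        · exact h2.2 π e1 π' e2 hass
      · intro π hπ h8
        rcases Finset.mem_insert.1 hπ with rfl | hπ
        · exact h6
        · exact h3 π hπ h8
      · intro q hq
        rcases Multiset.mem_cons.1 hq with rfl | hq
        · exact ⟨q, Finset.mem_insert_self _ _, Associated.refl q⟩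
        · obtain ⟨π, h8, h9⟩ := h4 q hq
          exact ⟨π, Finset.mem_insert_of_mem h8, h9⟩

theorem exists_primes (T0 : Finset RR) (h0 : PSet T0) {h : RR} (hh : h ≠ 0) :
    ∃ T : Finset RR, T0 ⊆ T ∧ PSet T ∧ (∀ π ∈ T, π ∉ T0 → π ∣ h) ∧
      ∀ q, Prime q → q ∣ h → ∃ π ∈ T, Associated q π := by
  obtain ⟨T, h1, h2, h3, h4⟩ := Fac_ms T0 h0 h (UniqueFactorizationMonoid.factors h)
    (fun q hq => ⟨UniqueFactorizationMonoid.prime_of_factor q hq,
      UniqueFactorizationMonoid.dvd_of_mem_factors hq⟩)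
  refine ⟨T, h1, h2, h3, fun q hq hd => ?_⟩
  obtain ⟨p, h5, h6⟩ := UniqueFactorizationMonoid.exists_mem_factors_of_dvd hh hq.irreducible hd
  obtain ⟨π, h7, h8⟩ := h4 p h5
  exact ⟨π, h7, h6.trans h8⟩

private theorem Fac_dvd {T : Finset RR} (hT : PSet T) (g : RR) :
    ∏ π ∈ T, π ^ multiplicity π g ∣ g := by
  refine Finset.prod_dvd_of_isRelPrime ?_ fun π _ => pow_multiplicity_dvd π g
  intro π hπ π' hπ' hne
  have h1 : IsRelPrime π π' := by
    rw [(hT.1 π hπ).irreducible.isRelPrime_iff_not_dvd]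
    intro h2
    exact hne (hT.2 π hπ π' hπ' ((hT.1 π hπ).associated_of_dvd (hT.1 π' hπ') h2))
  exact IsRelPrime.pow h1

private theorem Fac_unit {k : RR} (hk : IsUnit k) : ∃ u : ℂ, u ≠ 0 ∧ k = C u := by
  obtain ⟨u, h1, h2⟩ := MvPolynomial.isUnit_iff_eq_C_of_isReduced.1 hk
  exact ⟨u, h1.ne_zero, h2⟩

theorem fac_prod {T : Finset RR} (hT : PSet T) {g : RR} (hg : g ≠ 0)
    (hc : ∀ q, Prime q → q ∣ g → ∃ π ∈ T, Associated q π) :
    ∃ u : ℂ, u ≠ 0 ∧ g = C u * ∏ π ∈ T, π ^ multiplicity π g := by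
  classical
  obtain ⟨k, hk⟩ := Fac_dvd hT g
  have hk0 : k ≠ 0 := by
    rintro rfl
    rw [mul_zero] at hk
    exact hg hk
  have hu : IsUnit k := by
    by_contra h1
    obtain ⟨q, h2, h3⟩ := WfDvdMonoid.exists_irreducible_factor h1 hk0
    have h4 : Prime q := UniqueFactorizationMonoid.irreducible_iff_prime.1 h2
    obtain ⟨π, h5, h6⟩ := hc q h4 (h3.trans (Dvd.intro_left _ hk.symm))
    have h7 : π ∣ k := (h6.symm.dvd).trans h3
    have h8 : π ^ (multiplicity π g + 1) ∣ g := by
      have h9 : π ^ multiplicity π g ∣ ∏ π ∈ T, π ^ multiplicity π g :=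
        Finset.dvd_prod_of_mem (fun π => π ^ multiplicity π g) h5
      rw [pow_succ]
      exact (mul_dvd_mul h9 h7).trans (dvd_of_eq hk.symm)
    exact (FiniteMultiplicity.of_prime_left (hT.1 π h5) hg).not_pow_dvd_of_multiplicity_lt
      (Nat.lt_succ_self _) h8
  obtain ⟨u, h1, h2⟩ := Fac_unit hu
  refine ⟨u, h1, ?_⟩
  rw [← h2, mul_comm]
  exact hk

theorem homog_of_dvd {p g : RR} {m : ℕ} (hg : g.IsHomogeneous m) (h0 : g ≠ 0) (hd : p ∣ g) :
    ∃ δ, δ ≤ m ∧ p.IsHomogeneous δ := by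
  obtain ⟨k, rfl⟩ := hd
  obtain ⟨a, b, h1, h2, _⟩ := homog_of_mul hg h0
  exact ⟨a, by omega, h2⟩

private theorem Fac_hom {T : Finset RR} (dl : RR → ℕ) (hdl : ∀ π ∈ T, π.IsHomogeneous (dl π))
    (e : RR → ℕ) : (∏ π ∈ T, π ^ e π).IsHomogeneous (∑ π ∈ T, dl π * e π) :=
  MvPolynomial.IsHomogeneous.prod T _ _ fun π hπ => (hdl π hπ).pow (e π)

theorem sum_deg {T : Finset RR} (hT : PSet T) (dl : RR → ℕ) (hdl : ∀ π ∈ T, π.IsHomogeneous (dl π))
    {g : RR} {m : ℕ} (hg : g ≠ 0) (hm : g.IsHomogeneous m)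
    (hc : ∀ q, Prime q → q ∣ g → ∃ π ∈ T, Associated q π) :
    ∑ π ∈ T, dl π * multiplicity π g = m := by
  obtain ⟨u, _, h1⟩ := fac_prod hT hg hc
  have h2 : g.IsHomogeneous (∑ π ∈ T, dl π * multiplicity π g) := by
    have h3 := (Fac_hom dl hdl (fun π => multiplicity π g)).C_mul u
    rwa [← h1] at h3
  exact h2.inj_right hm hg

theorem sum_deg_le {T : Finset RR} (hT : PSet T) (dl : RR → ℕ)
    (hdl : ∀ π ∈ T, π.IsHomogeneous (dl π)) {g : RR} {m : ℕ} (hg : g ≠ 0) (hm : g.IsHomogeneous m) :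
    ∑ π ∈ T, dl π * multiplicity π g ≤ m := by
  obtain ⟨k, hk⟩ := Fac_dvd hT g
  rw [hk] at hm hg
  exact (homog_of_mul_left hm (Fac_hom dl hdl (fun π => multiplicity π g)) hg).1

theorem mult_mul {π g g' : RR} (hπ : Prime π) (hg : g ≠ 0) (hg' : g' ≠ 0) :
    multiplicity π (g * g') = multiplicity π g + multiplicity π g' :=
  multiplicity_mul hπ (FiniteMultiplicity.of_prime_left hπ (mul_ne_zero hg hg'))

theorem mult_zero_iff {π g : RR} (hπ : Prime π) (hg : g ≠ 0) : multiplicity π g = 0 ↔ ¬ π ∣ g :=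
  multiplicity_eq_zero

/-- a homogeneous prime has degree at least one -/
theorem prime_deg {π : RR} (hπ : Prime π) {δ : ℕ} (hδ : π.IsHomogeneous δ) : 1 ≤ δ := by
  by_contra h1
  have h2 : δ = 0 := by omega
  subst h2
  have h3 := (MvPolynomial.totalDegree_zero_iff_isHomogeneous _).2 hδ
  rw [MvPolynomial.totalDegree_eq_zero_iff_eq_C] at h3
  apply hπ.not_isUnit
  rw [h3]
  refine IsUnit.map C (IsUnit.mk0 _ ?_)
  intro h4
  rw [h4, C_0] at h3
  exact hπ.ne_zero h3

end GP80
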