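import Mathlib

/-!
# Row Nak (MP_87ed0a_GP): saturated submodules over a 2-dimensional regular local ring  (about 220 lines)

`A` Noetherian local domain, `l1` prime, maximal ideal `m = (l1, l2)`; `M ≤ A^ι` saturated; any `r + 1` elements of `M` are linearly dependent; `e j ∈ M`, `j ∈ κ`, with linearly independent images in `(A/m)^ι`.
Then `card κ ≤ r` and `M` is generated by the `e j` and `r - card κ` further elements.
Proof.  `B := A ⧸ (l1)`: a Noetherian local domain whose maximal ideal is principal (generated by the image of `l2`), so a principal ideal ring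
(`tfae_of_isNoetherianRing_of_isLocalRing_of_isDomain`).  Let `N ≤ B^ι` be the image of `M` (`Submodule.map` along the reduction, as a `B`-submodule: e.g. the span over `B` of the image, which is the image itself).
`N` is finite free over the PID `B`; let `n_1, .., n_r'` be a basis, `m_j ∈ M` lifts.
(1) `r' ≤ r`: the `m_j` are linearly independent over `A`: if `∑ a_j m_j = 0`, `a ≠ 0`: let `l1^k` be the highest power of `l1` dividing all `a_j` (exists: some `a_j ≠ 0`; `Noetherian` domain, `l1` not a unit: `FiniteMultiplicity`, Krull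
intersection `Ideal.iInf_pow_eq_bot_of_isDomain` or `WfDvdMonoid`), `a_j = l1^k a'_j`, cancel `l1^k`: `∑ a'_j m_j = 0`, reduce modulo `l1`: `∑ a'_j n_j = 0` so all `a'_j ∈ (l1)`, contradiction.
(2) The kernel of `M → N` is `l1 M`: `x ∈ M`, `x ∈ l1 A^ι`, `x = l1 y`, `y ∈ M` by saturation.
(3) The images of the `e j` in `N / l2 N` are linearly independent over the residue field: `N / l2 N` maps to `(A/m)^ι`.  `N / l2 N` has dimension `r'` (`N` free of rank `r'`).  So `card κ ≤ r'`, and there are
`r' - card κ` elements of the basis `n_1, .., n_r'` (or any elements) which together with the `e j` span `N / l2 N` (Steinitz exchange: `exists_linearIndependent_extension`, or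
`Submodule.exists_...`).  Let `g` be the corresponding lifts `m_j` (pad with zeros up to `r - card κ`).
(4) So `M = span (e, g) + l1 M + l2 M = span (e, g) + m M`; Nakayama (`Submodule.le_of_le_smul_of_le_jacobson_bot`, `M` finitely generated since `A` is Noetherian) gives `M ≤ span (e, g)`.
-/

namespace GP80

theorem Nak_stepA {A ι ν : Type} [CommRing A] [IsDomain A] [IsNoetherianRing A] [IsLocalRing A]
    [Fintype ι] [Fintype ν] (l1 l2 : A) (hl1 : Prime l1)
    (hm : IsLocalRing.maximalIdeal A = Ideal.span {l1, l2}) (M : Submodule A (ι → A))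
    (hsat : ∀ (a : A) (x : ι → A), a ≠ 0 → a • x ∈ M → x ∈ M)
    (g : ν → (ι → A)) (hg : ∀ j, g j ∈ M)
    (hind : ∀ b : ν → A, ∑ j, b j • g j ∈ (IsLocalRing.maximalIdeal A) • M →
      ∀ j, b j ∈ IsLocalRing.maximalIdeal A)
    (a : ν → A) (y : ι → A) (h : ∑ j, a j • g j = l1 • y) : ∀ j, l1 ∣ a j := by
  have hl1m : l1 ∈ IsLocalRing.maximalIdeal A := by
    rw [hm]; exact Ideal.subset_span (by simp)
  have hl2m : l2 ∈ IsLocalRing.maximalIdeal A := by
    rw [hm]; exact Ideal.subset_span (by simp)
  have hmM : ∀ (b : ν → A) (z : ι → A), ∑ j, b j • g j = l1 • z →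
      ∑ j, b j • g j ∈ (IsLocalRing.maximalIdeal A) • M := by
    intro b z hz
    have h1 : l1 • z ∈ M := by
      rw [← hz]; exact Submodule.sum_mem _ (fun j _ => M.smul_mem _ (hg j))
    have h2 : z ∈ M := hsat l1 z hl1.ne_zero h1
    rw [hz]
    exact Submodule.smul_mem_smul hl1m h2
  by_cases h12 : l1 ∣ l2
  · intro j
    have h1 := hind a (hmM a y h) j
    rw [hm, Ideal.mem_span_pair] at h1
    obtain ⟨u, v, huv⟩ := h1
    rw [← huv]
    exact dvd_add (Dvd.intro_left u rfl) (Dvd.dvd.mul_left h12 v)
  · have key : ∀ k : ℕ, ∃ b c : ν → A, ∀ j, a j = l1 * c j + l2 ^ k * b j := by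
      intro k
      induction k with
      | zero => exact ⟨a, fun _ => 0, fun j => by simp⟩
      | succ k ih =>
        obtain ⟨b, c, hbc⟩ := ih
        have h3 : ∀ i, l1 ∣ (∑ j, b j • g j) i := by
          intro i
          have h4 := congrFun h i
          simp only [Finset.sum_apply, Pi.smul_apply, smul_eq_mul] at h4 ⊢
          have h5 : ∑ j, a j * g j i = l1 * (∑ j, c j * g j i) + l2 ^ k * ∑ j, b j * g j i := by
            rw [Finset.mul_sum, Finset.mul_sum, ← Finset.sum_add_distrib]
            refine Finset.sum_congr rfl (fun j _ => ?_)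
            rw [hbc j]; ring
          have h6 : l1 ∣ l2 ^ k * ∑ j, b j * g j i := by
            refine ⟨y i - ∑ j, c j * g j i, ?_⟩
            rw [mul_sub, ← h4, h5]; ring
          rcases hl1.dvd_or_dvd h6 with h7 | h7
          · exact absurd (hl1.dvd_of_dvd_pow h7) h12
          · exact h7
        choose z hz using h3
        have h8 := hind b (hmM b z (by
          funext i
          rw [hz i]; simp))
        have h9 : ∀ j, ∃ u v : A, u * l1 + v * l2 = b j := by
          intro j
          have := h8 j
          rw [hm, Ideal.mem_span_pair] at this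
          exact this
        choose u v huv using h9
        refine ⟨v, fun j => c j + l2 ^ k * u j, fun j => ?_⟩
        rw [hbc j, ← huv j]; ring
    intro j
    have hne : Nontrivial (A ⧸ Ideal.span {l1}) := by
      refine Ideal.Quotient.nontrivial_iff.mpr ?_
      intro htop
      rw [Ideal.span_singleton_eq_top] at htop
      exact hl1.not_unit htop
    have hloc : IsLocalRing (A ⧸ Ideal.span {l1}) :=
      IsLocalRing.of_surjective' (Ideal.Quotient.mk (Ideal.span {l1})) Ideal.Quotient.mk_surjective
    have hI : Ideal.span {Ideal.Quotient.mk (Ideal.span {l1}) l2} ≠ ⊤ := by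
      intro htop
      rw [Ideal.span_singleton_eq_top] at htop
      obtain ⟨w, hw⟩ := htop.exists_right_inv
      obtain ⟨w', rfl⟩ := Ideal.Quotient.mk_surjective w
      rw [← map_mul, ← map_one (Ideal.Quotient.mk (Ideal.span {l1})), Ideal.Quotient.eq] at hw
      rw [Ideal.mem_span_singleton] at hw
      obtain ⟨t, ht⟩ := hw
      have : (1 : A) ∈ IsLocalRing.maximalIdeal A := by
        have e1 : (1 : A) = l2 * w' - l1 * t := by rw [← ht]; ring
        rw [e1]
        exact Ideal.sub_mem _ (Ideal.mul_mem_right _ _ hl2m) (Ideal.mul_mem_right _ _ hl1m)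
      exact (Ideal.ne_top_iff_one _).mp (IsLocalRing.maximalIdeal.isMaximal A).ne_top this
    have hk := Ideal.iInf_pow_eq_bot_of_isLocalRing _ hI
    have hmem : Ideal.Quotient.mk (Ideal.span {l1}) (a j) ∈
        ⨅ i : ℕ, Ideal.span {Ideal.Quotient.mk (Ideal.span {l1}) l2} ^ i := by
      rw [Submodule.mem_iInf]
      intro k
      obtain ⟨b, c, hbc⟩ := key k
      rw [hbc j, map_add, map_mul, map_mul, map_pow]
      have e2 : Ideal.Quotient.mk (Ideal.span {l1}) l1 = 0 :=
        Ideal.Quotient.eq_zero_iff_mem.mpr (Ideal.mem_span_singleton_self l1)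
      rw [e2, zero_mul, zero_add]
      exact Ideal.mul_mem_right _ _ (Ideal.pow_mem_pow (Ideal.mem_span_singleton_self _) k)
    rw [hk, Ideal.mem_bot, Ideal.Quotient.eq_zero_iff_mem, Ideal.mem_span_singleton] at hmem
    exact hmem

theorem Nak_stepB {A ι ν : Type} [CommRing A] [IsDomain A] [IsNoetherianRing A] [IsLocalRing A]
    [Fintype ι] [Fintype ν] (l1 l2 : A) (hl1 : Prime l1)
    (hm : IsLocalRing.maximalIdeal A = Ideal.span {l1, l2}) (M : Submodule A (ι → A))
    (hsat : ∀ (a : A) (x : ι → A), a ≠ 0 → a • x ∈ M → x ∈ M)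
    (g : ν → (ι → A)) (hg : ∀ j, g j ∈ M)
    (hind : ∀ b : ν → A, ∑ j, b j • g j ∈ (IsLocalRing.maximalIdeal A) • M →
      ∀ j, b j ∈ IsLocalRing.maximalIdeal A) : LinearIndependent A g := by
  rw [Fintype.linearIndependent_iff]
  intro a ha j
  have key : ∀ k : ℕ, ∃ b : ν → A, (∀ j, a j = l1 ^ k * b j) ∧ ∑ j, b j • g j = 0 := by
    intro k
    induction k with
    | zero => exact ⟨a, fun j => by simp, ha⟩
    | succ k ih =>
      obtain ⟨b, hb, hb0⟩ := ih
      have h1 := Nak_stepA l1 l2 hl1 hm M hsat g hg hind b 0 (by rw [hb0, smul_zero])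
      choose c hc using h1
      refine ⟨c, fun j => ?_, ?_⟩
      · rw [hb j, hc j]; ring
      · have h2 : l1 • ∑ j, c j • g j = 0 := by
          rw [Finset.smul_sum, ← hb0]
          refine Finset.sum_congr rfl (fun j _ => ?_)
          rw [hc j, mul_smul]
        exact (smul_eq_zero.mp h2).resolve_left hl1.ne_zero
  have hI : Ideal.span {l1} ≠ ⊤ := by
    intro htop
    rw [Ideal.span_singleton_eq_top] at htop
    exact hl1.not_unit htop
  have hk := Ideal.iInf_pow_eq_bot_of_isLocalRing _ hI
  have hmem : a j ∈ ⨅ i : ℕ, Ideal.span {l1} ^ i := by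
    rw [Submodule.mem_iInf]
    intro k
    obtain ⟨b, hb, _⟩ := key k
    rw [hb j]
    exact Ideal.mul_mem_right _ _ (Ideal.pow_mem_pow (Ideal.mem_span_singleton_self _) k)
  rw [hk, Ideal.mem_bot] at hmem
  exact hmem

theorem nak {A ι κ : Type} [CommRing A] [IsDomain A] [IsNoetherianRing A] [IsLocalRing A] [Fintype ι]
    [Fintype κ] (l1 l2 : A) (hl1 : Prime l1)
    (hm : IsLocalRing.maximalIdeal A = Ideal.span {l1, l2}) (M : Submodule A (ι → A))
    (hsat : ∀ (a : A) (x : ι → A), a ≠ 0 → a • x ∈ M → x ∈ M) (r : ℕ)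
    (hr : ∀ m : Fin (r + 1) → (ι → A), (∀ j, m j ∈ M) → ¬ LinearIndependent A m)
    (e : κ → (ι → A)) (he : ∀ j, e j ∈ M)
    (hind : LinearIndependent (IsLocalRing.ResidueField A)
      (fun j : κ => (fun i : ι => IsLocalRing.residue A (e j i)))) :
    Fintype.card κ ≤ r ∧ ∃ g : Fin (r - Fintype.card κ) → (ι → A), (∀ j, g j ∈ M) ∧
      ∀ x ∈ M, x ∈ Submodule.span A (Set.range e) ⊔ Submodule.span A (Set.range g) := by
  classical
  have hfg : M.FG := IsNoetherian.noetherian M
  have hJ : IsLocalRing.maximalIdeal A ≤ Ideal.jacobson ⊥ :=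
    IsLocalRing.maximalIdeal_le_jacobson _
  set P : ℕ → Prop := fun n => ∃ g : Fin n → (ι → A), (∀ j, g j ∈ M) ∧
      M ≤ Submodule.span A (Set.range e) ⊔ Submodule.span A (Set.range g) with hP
  have hex : ∃ n, P n := by
    obtain ⟨n, s, hs⟩ := Submodule.fg_iff_exists_fin_generating_family.mp hfg
    refine ⟨n, s, fun j => ?_, ?_⟩
    · rw [← hs]; exact Submodule.subset_span ⟨j, rfl⟩
    · rw [hs]; exact le_sup_right
  obtain ⟨g, hgM, hgen⟩ := Nat.find_spec hex
  have hmin : ∀ m, m < Nat.find hex → ¬ P m := fun m hm' => Nat.find_min hex hm'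
  generalize Nat.find hex = n at g hgM hgen hmin
  have hred : ∀ x ∈ (IsLocalRing.maximalIdeal A) • M, ∀ i, x i ∈ IsLocalRing.maximalIdeal A := by
    intro x hx i
    refine Submodule.smul_induction_on hx ?_ ?_
    · intro a ha y _
      exact Ideal.mul_mem_right _ _ ha
    · intro y z hy hz
      exact Ideal.add_mem _ hy hz
  have hindg : ∀ b : κ ⊕ Fin n → A, ∑ j, b j • (Sum.elim e g) j ∈
      (IsLocalRing.maximalIdeal A) • M → ∀ j, b j ∈ IsLocalRing.maximalIdeal A := by
    intro b hb
    rw [Fintype.sum_sum_type] at hb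
    simp only [Sum.elim_inl, Sum.elim_inr] at hb
    have hc : ∀ i : Fin n, b (Sum.inr i) ∈ IsLocalRing.maximalIdeal A := by
      intro i
      by_contra hcon
      have hu : IsUnit (b (Sum.inr i)) := by
        by_contra hnu
        exact hcon ((IsLocalRing.mem_maximalIdeal _).mpr hnu)
      obtain ⟨w, hw⟩ := hu.exists_left_inv
      cases n with
      | zero => exact i.elim0
      | succ n =>
        refine hmin n (Nat.lt_succ_self n) ⟨fun j => g (i.succAbove j), fun j => hgM _, ?_⟩
        refine Submodule.le_of_le_smul_of_le_jacobson_bot hfg hJ ?_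
        refine hgen.trans ?_
        refine sup_le (le_sup_of_le_left le_sup_left) ?_
        rw [Submodule.span_le]
        rintro _ ⟨j, rfl⟩
        by_cases hji : j = i
        · rw [hji, SetLike.mem_coe]
          have h1 : g i = w • ((∑ j, b (Sum.inl j) • e j + ∑ j, b (Sum.inr j) • g j)
              - ∑ j, b (Sum.inl j) • e j -
              ∑ j : Fin n, b (Sum.inr (i.succAbove j)) • g (i.succAbove j)) := by
            rw [Fin.sum_univ_succAbove (fun j => b (Sum.inr j) • g j) i]
            have h2 : (∑ j, b (Sum.inl j) • e j + (b (Sum.inr i) • g i +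
                ∑ j : Fin n, b (Sum.inr (i.succAbove j)) • g (i.succAbove j)))
              - ∑ j, b (Sum.inl j) • e j -
              ∑ j : Fin n, b (Sum.inr (i.succAbove j)) • g (i.succAbove j) =
              b (Sum.inr i) • g i := by abel
            rw [h2, smul_smul, hw, one_smul]
          rw [h1]
          refine Submodule.smul_mem _ _ (Submodule.sub_mem _ (Submodule.sub_mem _ ?_ ?_) ?_)
          · exact Submodule.mem_sup_right hb
          · refine Submodule.mem_sup_left (Submodule.mem_sup_left ?_)
            exact Submodule.sum_mem _ (fun j _ => Submodule.smul_mem _ _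
              (Submodule.subset_span ⟨j, rfl⟩))
          · refine Submodule.mem_sup_left (Submodule.mem_sup_right ?_)
            exact Submodule.sum_mem _ (fun j _ => Submodule.smul_mem _ _
              (Submodule.subset_span ⟨j, rfl⟩))
        · obtain ⟨j', rfl⟩ := Fin.exists_succAbove_eq hji
          exact Submodule.mem_sup_left (Submodule.mem_sup_right (Submodule.subset_span ⟨j', rfl⟩))
    have he1 : ∑ j, b (Sum.inl j) • e j ∈ (IsLocalRing.maximalIdeal A) • M := by
      have h3 : ∑ j, b (Sum.inr j) • g j ∈ (IsLocalRing.maximalIdeal A) • M :=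
        Submodule.sum_mem _ (fun j _ => Submodule.smul_mem_smul (hc j) (hgM j))
      have h4 := Submodule.sub_mem _ hb h3
      rwa [add_sub_cancel_right] at h4
    have he2 : ∀ j, b (Sum.inl j) ∈ IsLocalRing.maximalIdeal A := by
      intro j
      rw [Fintype.linearIndependent_iff] at hind
      have h5 := hind (fun j => IsLocalRing.residue A (b (Sum.inl j))) (by
        funext i
        have h6 := hred _ he1 i
        rw [← IsLocalRing.residue_eq_zero_iff] at h6
        rw [Finset.sum_apply, map_sum] at h6
        rw [Finset.sum_apply, Pi.zero_apply, ← h6]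
        refine Finset.sum_congr rfl (fun j _ => ?_)
        simp) j
      exact (IsLocalRing.residue_eq_zero_iff _).mp h5
    rintro (j | j)
    · exact he2 j
    · exact hc j
  have hLI : LinearIndependent A (Sum.elim e g) := by
    refine Nak_stepB l1 l2 hl1 hm M hsat _ ?_ hindg
    rintro (j | j)
    · exact he j
    · exact hgM j
  have hcard : Fintype.card κ + n ≤ r := by
    by_contra hcon
    push_neg at hcon
    have h7 : Fintype.card (Fin (r + 1)) ≤ Fintype.card (κ ⊕ Fin n) := by
      rw [Fintype.card_sum, Fintype.card_fin, Fintype.card_fin]; omega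
    obtain ⟨φ⟩ := Function.Embedding.nonempty_of_card_le h7
    refine hr (fun j => Sum.elim e g (φ j)) ?_ (hLI.comp φ φ.injective)
    intro j
    rcases φ j with j' | j'
    · exact he j'
    · exact hgM j'
  refine ⟨by omega, fun j => if h : (j : ℕ) < n then g ⟨j, h⟩ else 0, ?_, ?_⟩
  · intro j
    by_cases h : (j : ℕ) < n
    · simp only [h, dif_pos]; exact hgM _
    · simp only [h, dif_neg, not_false_iff]; exact M.zero_mem
  · intro x hx
    refine (sup_le_sup_left (Submodule.span_le.mpr ?_) (Submodule.span A (Set.range e)) :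
      Submodule.span A (Set.range e) ⊔ Submodule.span A (Set.range g) ≤ _) (hgen hx)
    rintro _ ⟨j, rfl⟩
    refine Submodule.subset_span ⟨⟨j, by omega⟩, ?_⟩
    simp

end GP80
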