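import Mathlib
import Pool.Agent.H80.GP.GDefs
import Pool.Agent.H80.GP.Ga3

/-!
# Row Pli (MP_87ed0a_GP): the local ring of a line  (about 150 lines)

`z, z'` linearly independent.  `pL z z'` is the kernel of `φ : ℂ[P] → ℂ[S, T]`, `P_l ↦ S z_l + T z'_l`.
Choose indices `a ≠ b` with `z_a z'_b - z_b z'_a ≠ 0`, and let `k, k'` be the other two indices.  There are `α, β, α', β' ∈ ℂ` with `z_k = α z_a + β z_b`, `z'_k = α z'_a + β z'_b`, same for `k'`; put
`h1 = P_k - α P_a - β P_b`, `h2 = P_k' - α' P_a - β' P_b`.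
Claim: `pL z z' = span {h1, h2}`.  `⊇` clear.  `⊆`: modulo `(h1, h2)` every polynomial `h` is congruent to `h~(P_a, P_b)`; `φ` restricted to `ℂ[P_a, P_b]` is injective (invertible linear substitution); so `h ∈ pL` gives `h~ = 0`.
`h1` is prime in `ℂ[P]`: the quotient by a linear form is a polynomial ring: e.g. `h1` generates the kernel of the substitution `P_k ↦ α P_a + β P_b` (identity on the other variables) into the domain `ℂ[P]`.
In `AL z z'` (localization at `pL z z'`): the maximal ideal is generated by the images of `h1, h2` (`Localization.AtPrime.map_eq_maximalIdeal`), the image of `h1` is prime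
(`IsLocalization.prime..`: a prime element contained in the prime ideal stays prime; or: the quotient of `AL` by it is a localization of the domain `ℂ[P]/(h1)`), `AL` is Noetherian.
-/

namespace GP80

open MvPolynomial

theorem Pli_data {z z' : Fin 4 → ℂ} (hz : LinearIndependent ℂ ![z, z']) :
    ∃ b c : Fin 4 → Fin 4 → ℂ, b 2 = z ∧ b 3 = z' ∧
      (∀ l l', (if l' = l then (1 : ℂ) else 0) = ∑ m, c m l' * b m l) ∧
      (∀ m m', ∑ l, b m' l * c m l = if m' = m then 1 else 0) := by
  obtain ⟨w, hw⟩ := exists_linearIndependent_cons_of_lt_finrank hz (by simp)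
  obtain ⟨w', hw'⟩ := exists_linearIndependent_cons_of_lt_finrank hw (by simp)
  obtain ⟨B, hB⟩ : ∃ B : Module.Basis (Fin 4) ℂ (Fin 4 → ℂ),
      (B : Fin 4 → Fin 4 → ℂ) = Fin.cons w' (Fin.cons w ![z, z']) :=
    ⟨basisOfLinearIndependentOfCardEqFinrank hw' (by simp), by simp⟩
  refine ⟨B, fun m l => B.coord m (fun j => if l = j then 1 else 0), ?_, ?_, ?_, ?_⟩
  · rw [hB]
    rfl
  · rw [hB]
    rfl
  · intro l l'
    have h1 := B.sum_repr (fun j => if l' = j then (1 : ℂ) else 0)
    have h2 := congrFun h1 l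
    rw [Finset.sum_apply] at h2
    rw [← h2]
    rfl
  · intro m m'
    have h1 := LinearMap.pi_apply_eq_sum_univ (B.coord m) (B m')
    simp only [smul_eq_mul] at h1
    rw [← h1, Module.Basis.coord_apply, Module.Basis.repr_self, Finsupp.single_apply]

/-- the linear form with coefficients `c` -/
noncomputable def Pli_H (c : Fin 4 → ℂ) : RR := ∑ l, C (c l) * X l

theorem Pli_X {b c : Fin 4 → Fin 4 → ℂ}
    (h : ∀ l l', (if l' = l then (1 : ℂ) else 0) = ∑ m, c m l' * b m l) (l : Fin 4) :
    (X l : RR) = ∑ m, C (b m l) * Pli_H (c m) := by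
  unfold Pli_H
  simp only [Finset.mul_sum]
  rw [Finset.sum_comm]
  have h1 : ∀ l' : Fin 4, ∑ m, C (b m l) * (C (c m l') * X l') =
      (C (if l' = l then (1 : ℂ) else 0) * X l' : RR) := by
    intro l'
    rw [h l l', map_sum, Finset.sum_mul]
    refine Finset.sum_congr rfl fun m _ => ?_
    rw [C_mul]
    ring
  rw [Finset.sum_congr rfl fun l' _ => h1 l']
  rw [Finset.sum_eq_single l]
  · rw [if_pos rfl, C_1, one_mul]
  · intro j _ hj
    rw [if_neg hj, C_0, zero_mul]
  · intro hl
    exact absurd (Finset.mem_univ l) hl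

theorem Pli_pL {z z' : Fin 4 → ℂ} {b c : Fin 4 → Fin 4 → ℂ} (h2 : b 2 = z) (h3 : b 3 = z')
    (h : ∀ l l', (if l' = l then (1 : ℂ) else 0) = ∑ m, c m l' * b m l)
    (h' : ∀ m m', ∑ l, b m' l * c m l = if m' = m then 1 else 0) :
    pL z z' = Ideal.span {Pli_H (c 0), Pli_H (c 1)} := by
  obtain ⟨φ, hφ⟩ : ∃ φ : RR →+* MvPolynomial (Fin 2) ℂ, φ =
      (eval₂Hom (C : ℂ →+* MvPolynomial (Fin 2) ℂ) (fun i => X 0 * C (z i) + X 1 * C (z' i)) :
        RR →+* MvPolynomial (Fin 2) ℂ) := ⟨_, rfl⟩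
  have hφC : ∀ a, φ (C a) = C a := fun a => by rw [hφ, eval₂Hom_C]
  have hφX : ∀ l, φ (X l) = X 0 * C (z l) + X 1 * C (z' l) := fun l => by rw [hφ, eval₂Hom_X']
  have hφH : ∀ m, m ≠ 2 → m ≠ 3 → φ (Pli_H (c m)) = 0 := by
    intro m hm2 hm3
    have e1 : φ (Pli_H (c m)) = X 0 * C (∑ l, z l * c m l) + X 1 * C (∑ l, z' l * c m l) := by
      unfold Pli_H
      rw [map_sum, map_sum, map_sum, Finset.mul_sum, Finset.mul_sum, ← Finset.sum_add_distrib]
      refine Finset.sum_congr rfl fun l _ => ?_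
      rw [map_mul, hφC, hφX, C_mul, C_mul]
      ring
    have e2 := h' m 2
    have e3 := h' m 3
    rw [h2, if_neg (Ne.symm hm2)] at e2
    rw [h3, if_neg (Ne.symm hm3)] at e3
    rw [e1, e2, e3, C_0, mul_zero, mul_zero, add_zero]
  have hpL : pL z z' = RingHom.ker φ := by
    rw [hφ]
    rfl
  rw [hpL]
  apply le_antisymm
  · intro x hx
    obtain ⟨ψ, hψ⟩ : ∃ ψ : MvPolynomial (Fin 2) ℂ →+* RR, ψ =
        eval₂Hom (C : ℂ →+* RR) ![Pli_H (c 2), Pli_H (c 3)] := ⟨_, rfl⟩
    have hψC : ∀ a, ψ (C a) = C a := fun a => by rw [hψ, eval₂Hom_C]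
    have hψ0 : ψ (X 0) = Pli_H (c 2) := by rw [hψ, eval₂Hom_X']; rfl
    have hψ1 : ψ (X 1) = Pli_H (c 3) := by rw [hψ, eval₂Hom_X']; rfl
    have hcomp : (Ideal.Quotient.mk (Ideal.span {Pli_H (c 0), Pli_H (c 1)})).comp (ψ.comp φ) =
        Ideal.Quotient.mk (Ideal.span {Pli_H (c 0), Pli_H (c 1)}) := by
      apply MvPolynomial.ringHom_ext
      · intro a
        simp only [RingHom.comp_apply]
        rw [hφC, hψC]
      · intro l
        simp only [RingHom.comp_apply]
        rw [eq_comm, Ideal.Quotient.eq, hφX, map_add, map_mul, map_mul, hψC, hψC, hψ0, hψ1]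
        have e := Pli_X h l
        rw [Fin.sum_univ_four, h2, h3] at e
        have e' : (X l : RR) - (Pli_H (c 2) * C (z l) + Pli_H (c 3) * C (z' l)) =
            C (b 0 l) * Pli_H (c 0) + C (b 1 l) * Pli_H (c 1) := by
          linear_combination e
        rw [e']
        exact Ideal.add_mem _ (Ideal.mul_mem_left _ _ (Ideal.subset_span (by simp)))
          (Ideal.mul_mem_left _ _ (Ideal.subset_span (by simp)))
    have hx' : φ x = 0 := hx
    have h4 := congrArg (fun f : RR →+* _ => f x) hcomp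
    simp only [RingHom.comp_apply] at h4
    rw [hx', map_zero, map_zero] at h4
    exact Ideal.Quotient.eq_zero_iff_mem.1 h4.symm
  · rw [Ideal.span_le]
    rintro x hx
    rcases hx with rfl | hx
    · exact hφH 0 (by decide) (by decide)
    · rw [Set.mem_singleton_iff.1 hx]
      exact hφH 1 (by decide) (by decide)

theorem Pli_prime {b c : Fin 4 → Fin 4 → ℂ}
    (h' : ∀ m m', ∑ l, b m' l * c m l = if m' = m then 1 else 0) : Prime (Pli_H (c 0)) := by
  have hne : Pli_H (c 0) ≠ 0 := by
    intro h0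
    have h1 := congrArg (eval (b 0)) h0
    unfold Pli_H at h1
    rw [map_sum, map_zero] at h1
    simp only [map_mul, eval_C, eval_X] at h1
    have h2 := h' 0 0
    rw [if_pos rfl] at h2
    have h3 : ∑ l, c 0 l * b 0 l = 1 := by
      rw [← h2]
      exact Finset.sum_congr rfl fun l _ => mul_comm _ _
    rw [h3] at h1
    exact one_ne_zero h1
  rw [← Ideal.span_singleton_prime hne]
  obtain ⟨θ, hθ⟩ : ∃ θ : RR →+* RR, θ =
      eval₂Hom (C : ℂ →+* RR) (fun l => X l - C (b 0 l) * Pli_H (c 0)) := ⟨_, rfl⟩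
  have hθC : ∀ a, θ (C a) = C a := fun a => by rw [hθ, eval₂Hom_C]
  have hθX : ∀ l, θ (X l) = X l - C (b 0 l) * Pli_H (c 0) := fun l => by rw [hθ, eval₂Hom_X']
  have hθH : θ (Pli_H (c 0)) = 0 := by
    have h2 := h' 0 0
    rw [if_pos rfl] at h2
    have e1 : θ (Pli_H (c 0)) = Pli_H (c 0) - C (∑ l, b 0 l * c 0 l) * Pli_H (c 0) := by
      conv_lhs => unfold Pli_H
      rw [map_sum, map_sum, Finset.sum_mul]
      conv_rhs => rw [show Pli_H (c 0) - ∑ i, C (b 0 i * c 0 i) * Pli_H (c 0) =
        ∑ i, (C (c 0 i) * X i - C (b 0 i * c 0 i) * Pli_H (c 0)) from by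
          rw [Finset.sum_sub_distrib]
          rfl]
      refine Finset.sum_congr rfl fun l _ => ?_
      rw [map_mul, hθC, hθX, C_mul]
      ring
    rw [e1, h2, C_1, one_mul, sub_self]
  have hker : RingHom.ker θ = Ideal.span {Pli_H (c 0)} := by
    apply le_antisymm
    · intro x hx
      have hcomp : (Ideal.Quotient.mk (Ideal.span {Pli_H (c 0)})).comp θ =
          Ideal.Quotient.mk (Ideal.span {Pli_H (c 0)}) := by
        apply MvPolynomial.ringHom_ext
        · intro a
          simp only [RingHom.comp_apply]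
          rw [hθC]
        · intro l
          simp only [RingHom.comp_apply]
          rw [eq_comm, Ideal.Quotient.eq, hθX]
          have e : (X l : RR) - (X l - C (b 0 l) * Pli_H (c 0)) = C (b 0 l) * Pli_H (c 0) := by ring
          rw [e]
          exact Ideal.mul_mem_left _ _ (Ideal.subset_span rfl)
      have hx' : θ x = 0 := hx
      have h4 := congrArg (fun f : RR →+* _ => f x) hcomp
      simp only [RingHom.comp_apply] at h4
      rw [hx', map_zero] at h4
      exact Ideal.Quotient.eq_zero_iff_mem.1 h4.symm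
    · rw [Ideal.span_le]
      rintro x hx
      rw [Set.mem_singleton_iff.1 hx]
      exact hθH
  rw [← hker]
  exact RingHom.ker_isPrime θ

theorem AL_noetherian (z z' : Fin 4 → ℂ) : IsNoetherianRing (AL z z') :=
  IsLocalization.isNoetherianRing (pL z z').primeCompl (AL z z') inferInstance

theorem AL_max {z z' : Fin 4 → ℂ} (hz : LinearIndependent ℂ ![z, z']) :
    ∃ l1 l2 : AL z z', Prime l1 ∧ IsLocalRing.maximalIdeal (AL z z') = Ideal.span {l1, l2} := by
  obtain ⟨b, c, h2, h3, h, h'⟩ := Pli_data hz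
  have hpL := Pli_pL h2 h3 h h'
  have hpr := Pli_prime h'
  have hinj : Function.Injective (algebraMap RR (AL z z')) :=
    IsLocalization.injective _ (Ideal.primeCompl_le_nonZeroDivisors (pL z z'))
  refine ⟨algebraMap RR (AL z z') (Pli_H (c 0)), algebraMap RR (AL z z') (Pli_H (c 1)), ?_, ?_⟩
  · have hne : algebraMap RR (AL z z') (Pli_H (c 0)) ≠ 0 := by
      intro h0
      exact hpr.ne_zero ((_root_.map_eq_zero_iff _ hinj).1 h0)
    rw [← Ideal.span_singleton_prime hne]
    have h4 : Ideal.span {algebraMap RR (AL z z') (Pli_H (c 0))} =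
        Ideal.map (algebraMap RR (AL z z')) (Ideal.span {Pli_H (c 0)}) := by
      rw [Ideal.map_span, Set.image_singleton]
    rw [h4]
    refine IsLocalization.isPrime_of_isPrime_disjoint (pL z z').primeCompl _ _
      ((Ideal.span_singleton_prime hpr.ne_zero).2 hpr) ?_
    rw [Set.disjoint_left]
    intro x hx hx'
    apply hx
    have h5 : (Ideal.span {Pli_H (c 0)} : Ideal RR) ≤ pL z z' := by
      rw [hpL]
      exact Ideal.span_mono (by simp)
    exact h5 hx'
  · have h6 : Ideal.map (algebraMap RR (AL z z')) (pL z z') =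
        Ideal.span {algebraMap RR (AL z z') (Pli_H (c 0)), algebraMap RR (AL z z') (Pli_H (c 1))} :=
      (congrArg (Ideal.map (algebraMap RR (AL z z'))) hpL).trans
        (by rw [Ideal.map_span, Set.image_pair])
    exact (Localization.AtPrime.map_eq_maximalIdeal).symm.trans h6

/-- an element of `RR` is in the maximal ideal iff it is in `pL` -/
theorem AL_mem_max (z z' : Fin 4 → ℂ) (r : RR) :
    algebraMap RR (AL z z') r ∈ IsLocalRing.maximalIdeal (AL z z') ↔ r ∈ pL z z' :=
  IsLocalization.AtPrime.to_map_mem_maximal_iff (AL z z') (pL z z') r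

/-- an element of `RR` is in the square of the maximal ideal iff a multiple by an element outside `pL` is in `pL^2` -/
theorem AL_mem_sq (z z' : Fin 4 → ℂ) (r : RR)
    (h : algebraMap RR (AL z z') r ∈ IsLocalRing.maximalIdeal (AL z z') ^ 2) :
    ∃ t : RR, t ∉ pL z z' ∧ t * r ∈ pL z z' ^ 2 := by
  have hinj : Function.Injective (algebraMap RR (AL z z')) :=
    IsLocalization.injective _ (Ideal.primeCompl_le_nonZeroDivisors (pL z z'))
  rw [← Localization.AtPrime.map_eq_maximalIdeal, ← Ideal.map_pow,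
    IsLocalization.mem_map_algebraMap_iff (pL z z').primeCompl] at h
  obtain ⟨⟨x, t⟩, hx⟩ := h
  refine ⟨t, t.2, ?_⟩
  have h1 : (t : RR) * r = x := by
    apply hinj
    rw [map_mul, mul_comm]
    exact hx
  rw [h1]
  exact x.2

theorem X0_not_mem {z z' : Fin 4 → ℂ} (hz : z 0 ≠ 0) : (X 0 : RR) ∉ pL z z' := by
  intro h
  have h1 : (eval₂Hom (C : ℂ →+* MvPolynomial (Fin 2) ℂ) (fun i => X 0 * C (z i) + X 1 * C (z' i)) :
      RR →+* MvPolynomial (Fin 2) ℂ) (X 0) = 0 := h
  rw [eval₂Hom_X'] at h1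
  have h2 := congrArg (eval ![(1 : ℂ), 0]) h1
  simp at h2
  exact hz h2

/-- for a prime `π ∈ pL z z'` the localization map `AL z z' → OO π` -/
theorem AL_to_OO (z z' : Fin 4 → ℂ) {π : RR} [hp : (Ideal.span {π} : Ideal RR).IsPrime]
    (hπ : π ∈ pL z z') : ∃ φ : AL z z' →+* OO π, ∀ r : RR, φ (algebraMap RR (AL z z') r) = algebraMap RR (OO π) r := by
  have hg : ∀ y : (pL z z').primeCompl, IsUnit (algebraMap RR (OO π) y) := by
    intro y
    refine (IsLocalization.AtPrime.isUnit_to_map_iff (OO π) (Ideal.span {π} : Ideal RR) (y : RR)).2 ?_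
    intro hy
    apply y.2
    have h1 : (Ideal.span {π} : Ideal RR) ≤ pL z z' := by
      rw [Ideal.span_singleton_le_iff_mem]
      exact hπ
    exact h1 hy
  exact ⟨IsLocalization.lift hg, fun r => IsLocalization.lift_eq hg r⟩

end GP80
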