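import Mathlib
import Pool.Agent.H80.GP.GDefs
import Pool.Agent.H80.GP.SDefs
import Pool.Agent.H80.GP.Ga2
import Pool.Agent.H80.GP.Ga3
import Pool.Agent.H80.GP.Kp1
import Pool.Agent.H80.GP.Kgn
import Pool.Agent.H80.GP.Nak
import Pool.Agent.H80.GP.Pli

/-!
# Row Gpr (MP_87ed0a_GP): the good pair at a chord  (about 200 lines)

`A = AL (z s) (z s')`, a Noetherian local domain (`AL_domain`, `AL_noetherian`, `AL_max`), `P_0` a unit.  `F0 = chartH A 0 F`, `G0 = chartH A 0 G`, `v t = vz A 0 (z t)`.
Identify `A^(Mon d)` with the forms of degree `d` (`x ↦ ∑ x_m X^m`, `exists_basisMon`).  `M` := the `x` whose form vanishes at all `v t`.  Saturated because `A` is a domain.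
Every `H ∈ M` satisfies `a H = U F0 + b G0`, `0 ≠ a ∈ A` , `U` homogeneous of degree `d - c`, `b ∈ A` (`gen_O` with the submonoid `(pL ..).primeCompl`, then the component of degree `d`).
* Case `c < d`: `κ = Mon (d - c)`, `e m = m F0`, `r = nn (d-c) + 1`.  Any `r + 1` elements of `M` are dependent over `A`: over the fraction field `M` is contained in the span of the `m F0` and `G0`, of dimension `≤ r`
  (e.g. `LinearIndependent` over `A` implies over the fraction field, `LinearIndependent.localization`/`IsFractionRing`; then `linearIndependent_le_span`).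
  Independence modulo the maximal ideal: `∑ a_m m F̄0 = 0` with `a_m ∈ κ(A)` gives `(∑ a_m m) F̄0 = 0`, `F̄0 ≠ 0` (hypothesis `hl`), so all `a_m = 0`.
  `nak` gives `g : Fin 1 → ..` (`r - card κ = 1`, `card_Mon`); `G2` := the form of `g 0`, `F2 := F0`.  `DegGen`: `H ∈ M` is `∑ a_m m F0 + a G2`.
* Case `c = d`: `κ = Empty` (or `Fin 0`), `r = 2`: three elements of `M` are dependent (in the span of `F0, G0`; `U` is a constant).  `nak` gives two generators `F2, G2` (homogeneous of degree `c = d`).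
-/

namespace GP80

open MvPolynomial

private theorem Gpr_comp {R σ : Type} [CommRing R] {G : MvPolynomial σ R} {i : ℕ}
    (hG : G.IsHomogeneous i) (n : ℕ) (hin : i ≤ n) (A : MvPolynomial σ R) :
    homogeneousComponent n (A * G) = homogeneousComponent (n - i) A * G := by
  have h1 : ∀ j, homogeneousComponent n (homogeneousComponent j A * G) =
      if n - i = j then homogeneousComponent j A * G else 0 := by
    intro j
    have h2 : (homogeneousComponent j A * G).IsHomogeneous (j + i) :=
      (homogeneousComponent_isHomogeneous j A).mul hG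
    rw [homogeneousComponent_of_mem ((mem_homogeneousSubmodule _ _).2 h2)]
    by_cases h : n - i = j
    · rw [if_pos h, if_pos (by omega)]
    · rw [if_neg h, if_neg (by omega)]
  conv_lhs => rw [← sum_homogeneousComponent A]
  rw [Finset.sum_mul, map_sum, Finset.sum_congr rfl (fun j _ => h1 j), Finset.sum_ite_eq]
  by_cases h : n - i ∈ Finset.range (A.totalDegree + 1)
  · rw [if_pos h]
  · rw [if_neg h, homogeneousComponent_eq_zero, zero_mul]
    rw [Finset.mem_range] at h
    omega

private theorem Gpr_dep {A V τ : Type} [CommRing A] [IsDomain A] [AddCommGroup V] [Module A V]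
    [Fintype τ] (M : Submodule A V) (w : τ → V) (r : ℕ) (hτ : Fintype.card τ ≤ r)
    (hgen : ∀ x ∈ M, ∃ a : A, a ≠ 0 ∧ a • x ∈ Submodule.span A (Set.range w))
    (m : Fin (r + 1) → V) (hm : ∀ j, m j ∈ M) : ¬ LinearIndependent A m := by
  classical
  intro hLI
  choose a ha hspan using fun j => hgen (m j) (hm j)
  have hLI2 : LinearIndependent A (fun j => a j • m j) := by
    rw [Fintype.linearIndependent_iff] at hLI ⊢
    intro g hg j
    have h1 : ∑ i, (g i * a i) • m i = 0 := by
      rw [← hg]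
      exact Finset.sum_congr rfl fun i _ => by rw [mul_smul]
    exact (mul_eq_zero.1 (hLI _ h1 j)).resolve_right (ha j)
  have h2 : Set.range (fun j => a j • m j) ≤ Submodule.span A (Set.range w) := by
    rintro _ ⟨j, rfl⟩
    exact hspan j
  have h3 := linearIndependent_le_span_aux' _ hLI2 (Set.range w) h2
  have h4 : Fintype.card (Set.range w) ≤ Fintype.card τ :=
    Fintype.card_le_of_surjective (Set.rangeFactorization w) Set.rangeFactorization_surjective
  rw [Fintype.card_fin] at h3
  omega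

private theorem Gpr_mem_iff {t : ℕ} {d : Fin 3 →₀ ℕ} :
    d ∈ Finset.finsuppAntidiag (Finset.univ : Finset (Fin 3)) t ↔ d.degree = t := by
  rw [Finset.mem_finsuppAntidiag]
  constructor
  · rintro ⟨h, -⟩
    rw [← h, Finsupp.degree_eq_sum]
  · intro h
    refine ⟨?_, Finset.subset_univ _⟩
    rw [← h, Finsupp.degree_eq_sum]

private theorem Gpr_expand {A : Type} [CommRing A] {t : ℕ} {U : MvPolynomial (Fin 3) A}
    (hU : U.IsHomogeneous t) : ∑ m : Mon t, C (coeff m.1 U) * monomial m.1 (1 : A) = U := by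
  obtain ⟨b, hb1, hb2⟩ := exists_basisMon A t
  have h1 := b.sum_repr (HS.mk U hU)
  have h2 := congrArg HS.val h1
  rw [HS.val_sum, HS.val_mk] at h2
  rw [← h2]
  refine Finset.sum_congr rfl fun m _ => ?_
  rw [HS.val_smul, hb1, hb2, HS.val_mk, h2]

private theorem Gpr_homsum {A : Type} [CommRing A] {t : ℕ} (c : Mon t → A) :
    (∑ m : Mon t, C (c m) * monomial m.1 (1 : A)).IsHomogeneous t :=
  MvPolynomial.IsHomogeneous.sum _ _ _ fun m _ =>
    (isHomogeneous_monomial (1 : A) (Gpr_mem_iff.1 m.2)).C_mul (c m)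

private theorem Gpr_coeff {A : Type} [CommRing A] {t : ℕ} (c : Mon t → A) (j : Mon t) :
    coeff j.1 (∑ m : Mon t, C (c m) * monomial m.1 (1 : A)) = c j := by
  classical
  rw [coeff_sum]
  rw [Finset.sum_eq_single j]
  · rw [coeff_C_mul, coeff_monomial, if_pos rfl, mul_one]
  · intro m _ hm
    rw [coeff_C_mul, coeff_monomial, if_neg (fun h => hm (Subtype.ext h)), mul_zero]
  · intro h
    exact absurd (Finset.mem_univ _) h

private theorem Gpr_core {A I : Type} [CommRing A] [IsDomain A] [IsNoetherianRing A]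
    [IsLocalRing A] (l1 l2 : A) (hl1 : Prime l1)
    (hm : IsLocalRing.maximalIdeal A = Ideal.span {l1, l2}) (v : I → Fin 3 → A) {c d : ℕ}
    (hcd : c ≤ d) (F0 G0 : MvPolynomial (Fin 3) A) (hF : F0.IsHomogeneous c)
    (hG : G0.IsHomogeneous d) (hFv : ∀ t, eval (v t) F0 = 0)
    (hgen : ∀ H : MvPolynomial (Fin 3) A, H.IsHomogeneous d → (∀ t, eval (v t) H = 0) →
      ∃ a : A, a ≠ 0 ∧ C a * H ∈ Ideal.span {F0, G0})
    (hl : c < d → map (IsLocalRing.residue A) F0 ≠ 0) :
    ∃ F2 G2 : MvPolynomial (Fin 3) A, F2.IsHomogeneous c ∧ G2.IsHomogeneous d ∧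
      (∀ t, eval (v t) F2 = 0) ∧ (∀ t, eval (v t) G2 = 0) ∧ DegGen v c d F2 G2 ∧
      (c < d → F2 = F0) := by
  classical
  obtain ⟨b, hb1, hb2⟩ := exists_basisMon A d
  obtain ⟨E, hE⟩ : ∃ E : HS A d ≃ₗ[A] (Mon d → A), ∀ f m, E f m = coeff m.1 f.val := by
    refine ⟨b.equivFun, fun f m => ?_⟩
    rw [Module.Basis.equivFun_apply, hb2]
  obtain ⟨M, hM⟩ : ∃ M : Submodule A (Mon d → A),
      ∀ x, x ∈ M ↔ ∀ t, eval (v t) (E.symm x).val = 0 := by
    refine ⟨(LinearMap.ker (evHom v d)).comap E.symm.toLinearMap, fun x => ?_⟩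
    rw [Submodule.mem_comap, LinearMap.mem_ker]
    constructor
    · intro h t
      exact congrFun h t
    · intro h
      funext t
      exact h t
  have hsat : ∀ (a : A) (x : Mon d → A), a ≠ 0 → a • x ∈ M → x ∈ M := by
    intro a x ha h
    rw [hM] at h ⊢
    intro t
    have h1 := h t
    rw [map_smul, HS.val_smul, map_mul, eval_C] at h1
    exact (mul_eq_zero.1 h1).resolve_left ha
  have hdeg : ∀ m : Mon (d - c), (monomial m.1 (1 : A) * F0).IsHomogeneous d := by
    intro m
    have h1 := (isHomogeneous_monomial (1 : A) (Gpr_mem_iff.1 m.2)).mul hF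
    rwa [Nat.sub_add_cancel hcd] at h1
  obtain ⟨e, he⟩ : ∃ e : Mon (d - c) → (Mon d → A), ∀ m, e m = E (HS.mk _ (hdeg m)) :=
    ⟨fun m => E (HS.mk _ (hdeg m)), fun _ => rfl⟩
  have heval : ∀ m, (E.symm (e m)).val = monomial m.1 (1 : A) * F0 := by
    intro m
    rw [he, LinearEquiv.symm_apply_apply, HS.val_mk]
  have heM : ∀ m, e m ∈ M := by
    intro m
    rw [hM]
    intro t
    rw [heval, map_mul, hFv, mul_zero]
  have hsumval : ∀ {τ : Type} [Fintype τ] (a : τ → A) (x : τ → (Mon d → A)),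
      (E.symm (∑ i, a i • x i)).val = ∑ i, C (a i) * (E.symm (x i)).val := by
    intro τ _ a x
    rw [map_sum, HS.val_sum]
    refine Finset.sum_congr rfl fun i _ => ?_
    rw [map_smul, HS.val_smul]
  have hgen3 : ∀ x ∈ M, ∃ a : A, a ≠ 0 ∧ a • x ∈ Submodule.span A
      (Set.range (fun o : Option (Mon (d - c)) => o.elim (E (HS.mk G0 hG)) e)) := by
    intro x hx
    obtain ⟨a, ha, h⟩ := hgen _ (E.symm x).prop ((hM x).1 hx)
    obtain ⟨P, Q, hPQ⟩ := Ideal.mem_span_pair.1 h
    refine ⟨a, ha, ?_⟩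
    have h1 : homogeneousComponent d (C a * (E.symm x).val) = C a * (E.symm x).val :=
      homogeneousComponent_eq_self ((E.symm x).prop.C_mul a)
    have h2 : C a * (E.symm x).val = homogeneousComponent (d - c) P * F0 + C (coeff 0 Q) * G0 := by
      rw [← h1, ← hPQ, map_add, Gpr_comp hF d hcd, Gpr_comp hG d le_rfl, Nat.sub_self,
        homogeneousComponent_zero]
    have h3 : a • x = ∑ m : Mon (d - c), coeff m.1 (homogeneousComponent (d - c) P) • e m +
        coeff 0 Q • E (HS.mk G0 hG) := by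
      apply E.symm.injective
      apply HS.ext
      rw [map_smul, HS.val_smul, map_add, HS.val_add, hsumval, map_smul, HS.val_smul,
        LinearEquiv.symm_apply_apply, HS.val_mk, h2]
      congr 1
      conv_lhs => rw [← Gpr_expand (homogeneousComponent_isHomogeneous (d - c) P), Finset.sum_mul]
      refine Finset.sum_congr rfl fun m _ => ?_
      rw [heval, mul_assoc]
    rw [h3]
    refine Submodule.add_mem _ (Submodule.sum_mem _ fun m _ => Submodule.smul_mem _ _ ?_)
      (Submodule.smul_mem _ _ ?_)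
    · exact Submodule.subset_span ⟨some m, rfl⟩
    · exact Submodule.subset_span ⟨none, rfl⟩
  have hr := Gpr_dep M _ (nn (d - c) + 1) (by rw [Fintype.card_option, card_Mon]) hgen3
  have hx : ∀ (H : MvPolynomial (Fin 3) A) (hH : H.IsHomogeneous d),
      (∀ t, eval (v t) H = 0) → E (HS.mk H hH) ∈ M := by
    intro H hH h0
    rw [hM]
    intro t
    rw [LinearEquiv.symm_apply_apply, HS.val_mk]
    exact h0 t
  rcases hcd.lt_or_eq with hlt | heq
  · have hFm := hl hlt
    have hind : LinearIndependent (IsLocalRing.ResidueField A)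
        (fun j : Mon (d - c) => (fun i : Mon d => IsLocalRing.residue A (e j i))) := by
      rw [Fintype.linearIndependent_iff]
      intro a ha
      have h1 : (∑ j : Mon (d - c), C (a j) * monomial j.1 (1 : IsLocalRing.ResidueField A)) *
          map (IsLocalRing.residue A) F0 = 0 := by
        have hh : ((∑ j : Mon (d - c), C (a j) * monomial j.1 (1 : IsLocalRing.ResidueField A)) *
            map (IsLocalRing.residue A) F0).IsHomogeneous d := by
          have h2 := (Gpr_homsum a).mul (hF.map (IsLocalRing.residue A))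
          rwa [Nat.sub_add_cancel hcd] at h2
        ext i
        rw [coeff_zero]
        by_cases hi : i.degree = d
        · have h3 := congrFun ha (⟨i, Gpr_mem_iff.2 hi⟩ : Mon d)
          rw [Finset.sum_apply] at h3
          rw [Finset.sum_mul, coeff_sum]
          refine Eq.trans (Finset.sum_congr rfl fun j _ => ?_) h3
          rw [Pi.smul_apply, smul_eq_mul, he, hE, HS.val_mk, mul_assoc, coeff_C_mul, ← coeff_map,
            map_mul, map_monomial, RingHom.map_one]
        · exact hh.coeff_eq_zero hi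
      have h4 := (mul_eq_zero.1 h1).resolve_right hFm
      intro j
      rw [← Gpr_coeff a j, h4, coeff_zero]
    obtain ⟨_, hex⟩ := nak l1 l2 hl1 hm M hsat (nn (d - c) + 1) hr e heM hind
    have h1 : nn (d - c) + 1 - Fintype.card (Mon (d - c)) = 1 := by rw [card_Mon]; omega
    rw [h1] at hex
    obtain ⟨g, hgM, hsp⟩ := hex
    refine ⟨F0, (E.symm (g 0)).val, hF, (E.symm (g 0)).prop, hFv, (hM _).1 (hgM 0), ?_,
      fun _ => rfl⟩
    intro H hH h0
    obtain ⟨y, hy, z', hz', hsum⟩ := Submodule.mem_sup.1 (hsp _ (hx H hH h0))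
    obtain ⟨cy, rfl⟩ := (Submodule.mem_span_range_iff_exists_fun A).1 hy
    obtain ⟨cz, rfl⟩ := (Submodule.mem_span_range_iff_exists_fun A).1 hz'
    refine ⟨∑ m : Mon (d - c), C (cy m) * monomial m.1 (1 : A), cz 0, Gpr_homsum cy, ?_⟩
    have h2 := congrArg (fun x => (E.symm x).val) hsum
    simp only [map_add, HS.val_add, hsumval, LinearEquiv.symm_apply_apply, HS.val_mk] at h2
    rw [← h2, Fin.sum_univ_one, Finset.sum_mul]
    congr 1
    refine Finset.sum_congr rfl fun m _ => ?_
    rw [heval, mul_assoc]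
  · subst heq
    have h5 : nn (c - c) + 1 = 2 := by rw [Nat.sub_self]; rfl
    rw [h5] at hr
    obtain ⟨_, hex⟩ := nak l1 l2 hl1 hm M hsat 2 hr (fun j : Fin 0 => j.elim0)
      (fun j => j.elim0) (linearIndependent_empty_type)
    have h1 : 2 - Fintype.card (Fin 0) = 2 := by rw [Fintype.card_fin]
    rw [h1] at hex
    obtain ⟨g, hgM, hsp⟩ := hex
    refine ⟨(E.symm (g 0)).val, (E.symm (g 1)).val, (E.symm (g 0)).prop, (E.symm (g 1)).prop,
      (hM _).1 (hgM 0), (hM _).1 (hgM 1), ?_, fun h => absurd h (lt_irrefl _)⟩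
    intro H hH h0
    obtain ⟨y, hy, z', hz', hsum⟩ := Submodule.mem_sup.1 (hsp _ (hx H hH h0))
    obtain ⟨cy, rfl⟩ := (Submodule.mem_span_range_iff_exists_fun A).1 hy
    obtain ⟨cz, rfl⟩ := (Submodule.mem_span_range_iff_exists_fun A).1 hz'
    refine ⟨C (cz 0), cz 1, by rw [Nat.sub_self]; exact isHomogeneous_C _ _, ?_⟩
    have h2 := congrArg (fun x => (E.symm x).val) hsum
    simp only [map_add, HS.val_add, hsumval, LinearEquiv.symm_apply_apply, HS.val_mk] at h2
    rw [← h2, Fin.sum_univ_two, Finset.univ_eq_empty, Finset.sum_empty, zero_add]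

theorem good_pair {I : Type} [Fintype I] (z : I → Fin 4 → ℂ) (hz : Geom z) {c d f f' : ℕ} {F G : BB}
    (h : Glob z c d f f' F G) {s s' : I} (hss : s ≠ s')
    (hl : c < d → map (IsLocalRing.residue (AL (z s) (z s'))) (chartH (AL (z s) (z s')) 0 F) ≠ 0) :
    ∃ F2 G2 : MvPolynomial (Fin 3) (AL (z s) (z s')), F2.IsHomogeneous c ∧ G2.IsHomogeneous d ∧
      (∀ t, eval (vz (AL (z s) (z s')) 0 (z t)) F2 = 0) ∧
      (∀ t, eval (vz (AL (z s) (z s')) 0 (z t)) G2 = 0) ∧
      DegGen (fun t => vz (AL (z s) (z s')) 0 (z t)) c d F2 G2 ∧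
      (c < d → F2 = chartH (AL (z s) (z s')) 0 F) := by
  have hdom : IsDomain (AL (z s) (z s')) := AL_domain _ _
  have hnoeth : IsNoetherianRing (AL (z s) (z s')) := AL_noetherian _ _
  obtain ⟨l1, l2, hl1, hm⟩ := AL_max (hz.ind s s' hss)
  have hu : IsUnit (algebraMap RR (AL (z s) (z s')) (X 0)) :=
    (AL_unit _ _ _).2 (X0_not_mem (hz.co s 0))
  refine Gpr_core l1 l2 hl1 hm (fun t => vz (AL (z s) (z s')) 0 (z t)) h.cd _ _
    (chart_homog _ 0 h.Fx) (chart_homog _ 0 h.Gx)
    (fun t => vz_eval_zero _ 0 hu h.Fx h.FE (hz.co t 0) (h.Fz t)) ?_ hl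
  intro H hH h0
  obtain ⟨r, hr, h1⟩ := gen_O (pL (z s) (z s')).primeCompl
    (Ideal.primeCompl_le_nonZeroDivisors _) 0 hu z (fun t => hz.co t 0) h hH h0
  refine ⟨algebraMap RR (AL (z s) (z s')) r, ?_, h1⟩
  intro h2
  exact hr ((_root_.map_eq_zero_iff _ (AL_injective _ _)).1 h2)

end GP80
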