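import Mathlib
import Pool.Agent.H80.GP.GDefs
import Pool.Agent.H80.GP.Cda
import Pool.Agent.H80.GP.Ga3
import Pool.Agent.H80.GP.Pli

/-!
# Row Grd (MP_87ed0a_GP): the gradient lemma on chords 2.4 (i)  (about 170 lines)

`A = AL z z'`, `κ` its residue field, `v = vz A 0 z`, `v' = vz A 0 z'`, `s j = j + 1` (`succAbove 0`).  `P_0` is a unit of `A` (`X0_not_mem`, `AL_unit`).
Let `u_j = z'_(s j)/z'_0 - z_(s j)/z_0 ∈ ℂ`: `v' = v + u` (the terms `P_(s j)/P_0` cancel); `u ≠ 0` because `z, z'` are linearly independent.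
1. In `κ^3`: `v̄ = κ1 u`, `v̄' = (κ1 + 1) u` with `κ1 ≠ 0`, `κ1 + 1 ≠ 0`.  Proof: `P_0 v_j = algebraMap (P_0 z_(s j)/z_0 - P_(s j))`, and at `P = S z + T z'` the polynomial `P_0 z_(s j)/z_0 - P_(s j)` takes the value
   `(S z_0 + T z'_0) z_(s j)/z_0 - S z_(s j) - T z'_(s j) = - T z'_0 u_j`.  So `P_0 (v_j u_l - v_l u_j)` is the image of an element of `pL`, hence `v̄_j u_l = v̄_l u_j`; choose `l` with `u_l ≠ 0`, `κ1 := v̄_l/u_l`; `κ1 ≠ 0`
   because `- T z'_0 u_l ≠ 0` (`z'_0 ≠ 0`).  Similarly `P_0 v'_l` has value `S z_0 u_l ≠ 0`.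
2. Obtain `der` with `obtain ⟨der, hder⟩ := exists_der (AL z z') (pL z z').primeCompl 0` (do not write the type `Derivation ℤ (AL z z') (AL z z')` explicitly: two different `ℤ`-algebra instances; prove the step for a
   generic domain `O` with `[CommRing O] [IsDomain O] [Algebra RR O]` and `IsDer O 0 der`, and apply it).  `der_j (v_i) = - δ_ij` and `der_j (v'_i) = - δ_ij` (from `IsDer`, as in Row Geo: `P_0 v_i = z_(s i)/z_0 P_0 - P_(s i)`, `der_j P_0 = 0`, `der_j P_(s i) = P_0 δ_ij`).  `cder_eval`: `0 = der_j (H(v)) = (cder_j H)(v) - (∂_j H)(v)`,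
   and the same at `v'`.
3. Let `p, q ∈ κ` be the values at `u` of the reductions of `∂_j H` (degree `t - 1`) and `cder_j H` (degree `t`).  For `t ≥ 1`: `κ1^(t-1) p = κ1^t q`, `(κ1+1)^(t-1) p = (κ1+1)^t q` (homogeneity: `eval (a • u) = a^t eval u`), so
   `p = κ1 q = (κ1 + 1) q`, `q = 0`, `p = 0`, and the residue of `(∂_j H)(v)` is `κ1^(t-1) p = 0`.  For `t = 0`, `∂_j H = 0`.
* `jac_sq`: consequently for `F, G` vanishing at both points, a Jacobian `J` at `v` (`∇F × ∇G = J v`) is in `m^2`: the components of the cross product are in `m^2`, and some `v_l` is a unit (`v̄ = κ1 u ≠ 0`).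
-/

namespace GP80

open MvPolynomial

theorem Grd_smul {κ : Type} [Field κ] {P : MvPolynomial (Fin 3) κ} {n : ℕ}
    (hP : P.IsHomogeneous n) (a : κ) (u : Fin 3 → κ) :
    eval (fun i => a * u i) P = a ^ n * eval u P := by
  rw [eval_eq', eval_eq', Finset.mul_sum]
  refine Finset.sum_congr rfl fun d hd => ?_
  have h1 : ∑ i, d i = n := by
    have h2 := hP (mem_support_iff.1 hd)
    rw [Finsupp.weight_apply, Finsupp.sum_fintype _ _ (by simp)] at h2
    simpa using h2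
  simp only [mul_pow, Finset.prod_mul_distrib]
  rw [Finset.prod_pow_eq_pow_sum, h1]
  ring

theorem Grd_field {κ : Type} [Field κ] {P Q : MvPolynomial (Fin 3) κ} {t : ℕ} (ht : 1 ≤ t)
    (hP : P.IsHomogeneous (t - 1)) (hQ : Q.IsHomogeneous t) (a : κ) (u : Fin 3 → κ)
    (ha : a ≠ 0) (hb : a + 1 ≠ 0)
    (h1 : eval (fun i => a * u i) P = eval (fun i => a * u i) Q)
    (h2 : eval (fun i => (a + 1) * u i) P = eval (fun i => (a + 1) * u i) Q) :
    eval (fun i => a * u i) P = 0 := by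
  obtain ⟨n, rfl⟩ : ∃ n, t = n + 1 := ⟨t - 1, by omega⟩
  rw [Nat.add_sub_cancel] at hP
  rw [Grd_smul hP, Grd_smul hQ, pow_succ, mul_assoc] at h1 h2
  have h3 := mul_left_cancel₀ (pow_ne_zero n ha) h1
  have h4 := mul_left_cancel₀ (pow_ne_zero n hb) h2
  rw [h3] at h4
  have h5 : eval u Q = 0 := by
    have : (a + 1) * eval u Q - a * eval u Q = eval u Q := by ring
    rw [← this, h4, sub_self]
  rw [Grd_smul hP, h3, h5, mul_zero, mul_zero]

/-- the linear forms -/
noncomputable def Grd_n (z : Fin 4 → ℂ) (j : Fin 3) : RR :=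
  C (z ((0 : Fin 4).succAbove j) / z 0) * X 0 - X ((0 : Fin 4).succAbove j)

theorem Grd_vz {O : Type} [CommRing O] [Algebra RR O] (z : Fin 4 → ℂ)
    (hX : IsUnit (algebraMap RR O (X 0))) (j : Fin 3) :
    algebraMap RR O (X 0) * vz O 0 z j = algebraMap RR O (Grd_n z j) := by
  rw [vz, Grd_n, map_sub, map_mul, mul_sub]
  rw [mul_left_comm _ (algebraMap RR O (X ((0 : Fin 4).succAbove j))) _, Ring.mul_inverse_cancel _ hX]
  ring

theorem Grd_der {O : Type} [CommRing O] [Algebra RR O] (z : Fin 4 → ℂ)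
    (hX : IsUnit (algebraMap RR O (X 0))) {der : Fin 3 → Derivation ℤ O O} (hder : IsDer O 0 der)
    (j i : Fin 3) : der j (vz O 0 z i) = if i = j then -1 else 0 := by
  have h1 := congrArg (der j) (Grd_vz z hX i)
  rw [Derivation.leibniz, hder, hder, smul_eq_mul, smul_eq_mul] at h1
  have h2 : pderiv ((0 : Fin 4).succAbove j) (X 0 : RR) = 0 :=
    pderiv_X_of_ne (Fin.succAbove_ne 0 j).symm
  have h3 : pderiv ((0 : Fin 4).succAbove j) (Grd_n z i) = if i = j then -1 else 0 := by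
    rw [Grd_n, map_sub, pderiv_C_mul, h2, mul_zero, zero_sub]
    by_cases h : i = j
    · rw [h, pderiv_X_self, if_pos rfl]
    · rw [pderiv_X_of_ne (fun h' => h (Fin.succAbove_right_injective h').symm.symm), if_neg h,
        neg_zero]
  rw [h2, h3, mul_zero, map_zero, mul_zero, add_zero, map_mul] at h1
  have h4 := hX.mul_left_cancel h1
  rw [h4]
  split_ifs
  · rw [map_neg, map_one]
  · rw [map_zero]

theorem Grd_gen {O : Type} [CommRing O] [IsLocalRing O] [Algebra RR O]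
    {der : Fin 3 → Derivation ℤ O O} (hder : IsDer O 0 der)
    (hX : IsUnit (algebraMap RR O (X 0))) (z z' : Fin 4 → ℂ) (u : Fin 3 → ℂ) (l : Fin 3)
    (hul : u l ≠ 0)
    (hu : ∀ j : Fin 3, z' ((0 : Fin 4).succAbove j) / z' 0 = z ((0 : Fin 4).succAbove j) / z 0 + u j)
    (hprop : ∀ j, algebraMap RR O (Grd_n z j * C (u l) - Grd_n z l * C (u j)) ∈
      IsLocalRing.maximalIdeal O)
    (hn : IsUnit (algebraMap RR O (Grd_n z l))) (hn' : IsUnit (algebraMap RR O (Grd_n z' l)))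
    {H : MvPolynomial (Fin 3) O} {t : ℕ} (hH : H.IsHomogeneous t)
    (h1 : eval (vz O 0 z) H = 0) (h2 : eval (vz O 0 z') H = 0) (j : Fin 3) :
    eval (vz O 0 z) (pderiv j H) ∈ IsLocalRing.maximalIdeal O := by
  obtain ⟨ρ, hρ⟩ : ∃ ρ : O →+* IsLocalRing.ResidueField O, ρ = IsLocalRing.residue O := ⟨_, rfl⟩
  have hρ0 : ∀ a : O, ρ a = 0 ↔ a ∈ IsLocalRing.maximalIdeal O := by
    intro a
    rw [hρ]
    exact IsLocalRing.residue_eq_zero_iff a
  have hev : ∀ (v : Fin 3 → O) (P : MvPolynomial (Fin 3) O),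
      ρ (eval v P) = eval (fun i => ρ (v i)) (map ρ P) := by
    intro v P
    rw [eval_map, eval₂_comp]
    rfl
  have hu0 : IsUnit (algebraMap RR O (C (u l))) := by
    have : IsUnit (u l) := isUnit_iff_ne_zero.2 hul
    exact (this.map (C : ℂ →+* RR)).map (algebraMap RR O)
  have hunit : ∀ a : O, IsUnit a → ρ a ≠ 0 := by
    intro a ha h0
    exact (IsLocalRing.mem_maximalIdeal a).1 ((hρ0 a).1 h0) ha
  have hv' : ∀ i, vz O 0 z' i = vz O 0 z i + algebraMap RR O (C (u i)) := by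
    intro i
    rw [vz, vz, hu i, map_add, map_add]
    ring
  obtain ⟨w, hw⟩ : ∃ w : Fin 3 → IsLocalRing.ResidueField O,
    w = fun i => ρ (algebraMap RR O (C (u i))) := ⟨_, rfl⟩
  have hwl : w l ≠ 0 := by
    rw [hw]
    exact hunit _ hu0
  obtain ⟨a, ha⟩ : ∃ a : IsLocalRing.ResidueField O, a = ρ (vz O 0 z l) / w l := ⟨_, rfl⟩
  have hX0 := hunit _ hX
  have hv : ∀ i, ρ (vz O 0 z i) = a * w i := by
    intro i
    have h3 := (hρ0 _).2 (hprop i)
    rw [map_sub, map_mul, map_mul, ← Grd_vz z hX, ← Grd_vz z hX, map_sub, map_mul, map_mul,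
      map_mul, map_mul] at h3
    have h4 : ρ (algebraMap RR O (X 0)) * (ρ (vz O 0 z i) * w l - ρ (vz O 0 z l) * w i) = 0 := by
      rw [hw, ← h3]
      ring
    have h5 := (mul_eq_zero.1 h4).resolve_left hX0
    rw [ha, div_mul_eq_mul_div, eq_div_iff hwl]
    exact sub_eq_zero.1 h5
  have hvv : ∀ i, ρ (vz O 0 z' i) = (a + 1) * w i := by
    intro i
    rw [hv' i, map_add, hv i, hw]
    ring
  have ha0 : a ≠ 0 := by
    intro h0
    have h3 := hunit _ hn
    rw [← Grd_vz z hX, map_mul, hv l, h0, zero_mul, mul_zero] at h3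
    exact h3 rfl
  have hb0 : a + 1 ≠ 0 := by
    intro h0
    have h3 := hunit _ hn'
    rw [← Grd_vz z' hX, map_mul, hvv l, h0, zero_mul, mul_zero] at h3
    exact h3 rfl
  have hc : ∀ y : Fin 4 → ℂ, eval (vz O 0 y) H = 0 →
      eval (vz O 0 y) (pderiv j H) = eval (vz O 0 y) (cder (der j) H) := by
    intro y hy
    have h3 := cder_eval (der j) H (vz O 0 y)
    rw [hy, map_zero] at h3
    have h4 : ∑ i, eval (vz O 0 y) (pderiv i H) * der j (vz O 0 y i) =
        - eval (vz O 0 y) (pderiv j H) := by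
      rw [Finset.sum_eq_single j]
      · rw [Grd_der y hX hder, if_pos rfl]
        ring
      · intro b _ hb
        rw [Grd_der y hX hder, if_neg hb, mul_zero]
      · intro h
        exact absurd (Finset.mem_univ j) h
    rw [h4] at h3
    exact (sub_eq_zero.1 (by rw [sub_eq_add_neg]; exact h3.symm)).symm
  rw [← hρ0]
  rcases Nat.eq_zero_or_pos t with ht | ht
  · subst ht
    have h3 : pderiv j H = 0 := by
      have h4 : H.totalDegree = 0 := Nat.le_zero.1 hH.totalDegree_le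
      rw [totalDegree_eq_zero_iff_eq_C] at h4
      rw [h4]
      exact pderiv_C
    rw [h3, map_zero, map_zero]
  · have e1 := congrArg ρ (hc z h1)
    have e2 := congrArg ρ (hc z' h2)
    rw [hev, hev] at e1 e2
    have f1 : (fun i => ρ (vz O 0 z i)) = fun i => a * w i := funext hv
    have f2 : (fun i => ρ (vz O 0 z' i)) = fun i => (a + 1) * w i := funext hvv
    rw [f1] at e1
    rw [f2] at e2
    have hPh : (map ρ (pderiv j H)).IsHomogeneous (t - 1) := (hH.pderiv).map ρ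
    have hQh : (map ρ (cder (der j) H)).IsHomogeneous t := (cder_homog (der j) hH).map ρ
    rw [hev, f1]
    exact Grd_field ht hPh hQh a w ha0 hb0 e1 e2

theorem Grd_phi (z z' y : Fin 4 → ℂ) (j : Fin 3) :
    eval₂Hom (C : ℂ →+* MvPolynomial (Fin 2) ℂ) (fun i => X 0 * C (z i) + X 1 * C (z' i))
      (Grd_n y j) = X 0 * C (z 0 * (y ((0 : Fin 4).succAbove j) / y 0) - z ((0 : Fin 4).succAbove j))
        + X 1 * C (z' 0 * (y ((0 : Fin 4).succAbove j) / y 0) - z' ((0 : Fin 4).succAbove j)) := by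
  rw [Grd_n, map_sub, map_mul]
  simp only [coe_eval₂Hom, eval₂_C, eval₂_X, map_sub, map_mul]
  ring

theorem Grd_exists {z z' : Fin 4 → ℂ} (hz : ∀ l, z l ≠ 0) (hz' : ∀ l, z' l ≠ 0)
    (hind : LinearIndependent ℂ ![z, z']) :
    ∃ (u : Fin 3 → ℂ) (l : Fin 3), u l ≠ 0 ∧
      (∀ j : Fin 3, z' ((0 : Fin 4).succAbove j) / z' 0 =
        z ((0 : Fin 4).succAbove j) / z 0 + u j) := by
  by_contra hcon
  push Not at hcon
  have h1 : ∀ j : Fin 3, z' ((0 : Fin 4).succAbove j) / z' 0 =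
      z ((0 : Fin 4).succAbove j) / z 0 := by
    intro j
    by_contra hj
    obtain ⟨i, hi⟩ := hcon (fun j => z' ((0 : Fin 4).succAbove j) / z' 0 -
      z ((0 : Fin 4).succAbove j) / z 0) j (sub_ne_zero.2 hj)
    apply hi
    ring
  have h2 : ∀ i : Fin 4, z' 0 * z i + (- z 0) * z' i = 0 := by
    intro i
    rcases Fin.eq_zero_or_eq_succ i with rfl | ⟨j, rfl⟩
    · ring
    · have h3 := h1 j
      rw [Fin.succAbove_zero] at h3
      rw [div_eq_div_iff (hz' 0) (hz 0)] at h3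
      linear_combination -h3
  have h4 := LinearIndependent.pair_iff.1 hind (z' 0) (- z 0) (by
    ext i
    simpa using h2 i)
  exact hz' 0 h4.1

theorem grad_line {z z' : Fin 4 → ℂ} (hz : ∀ l, z l ≠ 0) (hz' : ∀ l, z' l ≠ 0)
    (hind : LinearIndependent ℂ ![z, z']) {H : MvPolynomial (Fin 3) (AL z z')} {t : ℕ}
    (hH : H.IsHomogeneous t) (h1 : eval (vz (AL z z') 0 z) H = 0)
    (h2 : eval (vz (AL z z') 0 z') H = 0) (j : Fin 3) :
    eval (vz (AL z z') 0 z) (pderiv j H) ∈ IsLocalRing.maximalIdeal (AL z z') := by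
  obtain ⟨der, hder⟩ := exists_der (AL z z') (pL z z').primeCompl 0
  obtain ⟨u, l, hul, hu⟩ := Grd_exists hz hz' hind
  have hX : IsUnit (algebraMap RR (AL z z') (X 0)) := (AL_unit z z' _).2 (X0_not_mem (hz 0))
  have e1 : ∀ j, eval₂Hom (C : ℂ →+* MvPolynomial (Fin 2) ℂ)
      (fun i => X 0 * C (z i) + X 1 * C (z' i)) (Grd_n z j) = - (X 1 * C (z' 0 * u j)) := by
    intro j
    have h3 : z 0 * (z ((0 : Fin 4).succAbove j) / z 0) - z ((0 : Fin 4).succAbove j) = 0 := by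
      rw [mul_div_cancel₀ _ (hz 0), sub_self]
    have h4 : z' 0 * (z ((0 : Fin 4).succAbove j) / z 0) - z' ((0 : Fin 4).succAbove j) =
        - (z' 0 * u j) := by
      have h5 := hu j
      rw [div_eq_iff (hz' 0)] at h5
      rw [h5]
      ring
    rw [Grd_phi, h3, h4, map_zero, mul_zero, zero_add, map_neg, mul_neg]
  have e2 : ∀ j, eval₂Hom (C : ℂ →+* MvPolynomial (Fin 2) ℂ)
      (fun i => X 0 * C (z i) + X 1 * C (z' i)) (Grd_n z' j) = X 0 * C (z 0 * u j) := by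
    intro j
    have h3 : z' 0 * (z' ((0 : Fin 4).succAbove j) / z' 0) - z' ((0 : Fin 4).succAbove j) = 0 := by
      rw [mul_div_cancel₀ _ (hz' 0), sub_self]
    have h4 : z 0 * (z' ((0 : Fin 4).succAbove j) / z' 0) - z ((0 : Fin 4).succAbove j) =
        z 0 * u j := by
      rw [hu j, mul_add, mul_div_cancel₀ _ (hz 0)]
      ring
    rw [Grd_phi, h3, h4, map_zero, mul_zero, add_zero]
  refine Grd_gen hder hX z z' u l hul hu ?_ ?_ ?_ hH h1 h2 j
  · intro j
    rw [AL_mem_max, pL, RingHom.mem_ker, map_sub, map_mul, map_mul, e1, e1]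
    simp only [coe_eval₂Hom, eval₂_C, map_mul]
    ring
  · rw [AL_unit, pL, RingHom.mem_ker, e1]
    rw [neg_eq_zero, mul_eq_zero, not_or]
    exact ⟨X_ne_zero 1, C_ne_zero.2 (mul_ne_zero (hz' 0) hul)⟩
  · rw [AL_unit, pL, RingHom.mem_ker, e2]
    rw [mul_eq_zero, not_or]
    exact ⟨X_ne_zero 0, C_ne_zero.2 (mul_ne_zero (hz 0) hul)⟩

theorem jac_sq {z z' : Fin 4 → ℂ} (hz : ∀ l, z l ≠ 0) (hz' : ∀ l, z' l ≠ 0)
    (hind : LinearIndependent ℂ ![z, z']) {F G : MvPolynomial (Fin 3) (AL z z')} {c d : ℕ}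
    (hF : F.IsHomogeneous c) (hG : G.IsHomogeneous d) (h1 : eval (vz (AL z z') 0 z) F = 0)
    (h2 : eval (vz (AL z z') 0 z') F = 0) (h3 : eval (vz (AL z z') 0 z) G = 0)
    (h4 : eval (vz (AL z z') 0 z') G = 0) {J : AL z z'} (hJ : IsJ3 F G (vz (AL z z') 0 z) J) :
    J ∈ IsLocalRing.maximalIdeal (AL z z') ^ 2 := by
  obtain ⟨u, l, hul, hu⟩ := Grd_exists hz hz' hind
  have hX : IsUnit (algebraMap RR (AL z z') (X 0)) := (AL_unit z z' _).2 (X0_not_mem (hz 0))
  have e1 : eval₂Hom (C : ℂ →+* MvPolynomial (Fin 2) ℂ)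
      (fun i => X 0 * C (z i) + X 1 * C (z' i)) (Grd_n z l) = - (X 1 * C (z' 0 * u l)) := by
    have h3 : z 0 * (z ((0 : Fin 4).succAbove l) / z 0) - z ((0 : Fin 4).succAbove l) = 0 := by
      rw [mul_div_cancel₀ _ (hz 0), sub_self]
    have h4 : z' 0 * (z ((0 : Fin 4).succAbove l) / z 0) - z' ((0 : Fin 4).succAbove l) =
        - (z' 0 * u l) := by
      have h5 := hu l
      rw [div_eq_iff (hz' 0)] at h5
      rw [h5]
      ring
    rw [Grd_phi, h3, h4, map_zero, mul_zero, zero_add, map_neg, mul_neg]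
  have hn : IsUnit (algebraMap RR (AL z z') (Grd_n z l)) := by
    rw [AL_unit, pL, RingHom.mem_ker, e1]
    rw [neg_eq_zero, mul_eq_zero, not_or]
    exact ⟨X_ne_zero 1, C_ne_zero.2 (mul_ne_zero (hz' 0) hul)⟩
  have hvl : IsUnit (vz (AL z z') 0 z l) := by
    rw [← Grd_vz z hX l] at hn
    exact isUnit_of_mul_isUnit_right hn
  have gF := fun i => grad_line hz hz' hind hF h1 h2 i
  have gG := fun i => grad_line hz hz' hind hG h3 h4 i
  have hm : ∀ i k, grad F (vz (AL z z') 0 z) i * grad G (vz (AL z z') 0 z) k ∈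
      IsLocalRing.maximalIdeal (AL z z') ^ 2 := by
    intro i k
    rw [pow_two]
    exact Ideal.mul_mem_mul (gF i) (gG k)
  have hcr : crossProduct (grad F (vz (AL z z') 0 z)) (grad G (vz (AL z z') 0 z)) l ∈
      IsLocalRing.maximalIdeal (AL z z') ^ 2 := by
    rw [cross_apply]
    fin_cases l
    · exact sub_mem (hm 1 2) (hm 2 1)
    · exact sub_mem (hm 2 0) (hm 0 2)
    · exact sub_mem (hm 0 1) (hm 1 0)
  rw [hJ, Pi.smul_apply, smul_eq_mul] at hcr
  obtain ⟨w, hw⟩ := hvl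
  rw [← hw] at hcr
  have h5 := Ideal.mul_mem_right ((w⁻¹ : (AL z z')ˣ) : AL z z') _ hcr
  rwa [mul_assoc, Units.mul_inv, mul_one] at h5

end GP80
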