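import Mathlib
import Pool.Agent.H80.GP.GDefs

/-!
# Row Ord (MP_87ed0a_GP): the order of vanishing along a line  (about 200 lines)

`lineH z z' h = h(s z + t z' + ε w)` with variables `s, t` (`X (inl 0)`, `X (inl 1)`), `w_l` (`X (inr l)`), a polynomial in `ε`; `ordL z z' h` its trailing degree.  No hypothesis on `z, z'` unless stated.
* `lineH_injective`: substituting `s = t = 0`, `ε = 1`, `w_l = P_l` gives back `h`.
* `ordL_mul`, `ordL_pow`, `ordL_prod`, `ordL_C`: `Polynomial.natTrailingDegree_mul` (domain), nonzero by injectivity.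
* `pL_iff`: `h ∈ pL z z'` iff `h = 0 ∨ 1 ≤ ordL z z' h`: the coefficient of `ε^0` of `lineH h` is `h(s z + t z')` (as a polynomial in `s, t`; `MvPolynomial (Fin 2)` embedded by `rename inl` in `MvPolynomial (Fin 2 ⊕ Fin 4)`).
* `ordL_sq`: `h ∈ pL^2`, `h ≠ 0` implies `2 ≤ ordL h` (`pL` maps into the ideal `(ε)`, so `pL^2` into `(ε^2)`; `X^2 ∣ p` and `p ≠ 0` gives trailing degree `≥ 2`, `Polynomial.X_pow_dvd_iff`/`le_natTrailingDegree`).
* `ordL_lin`: `z, z'` arbitrary, `h` homogeneous of degree 1, `h ≠ 0`: `lineH h = s h(z) + t h(z') + ε h(w)`; so `ordL h = 1` if `h(z) = h(z') = 0`, and `0` otherwise.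
* `ordL_le`: `h` homogeneous of degree `δ`, `h ≠ 0`: `ordL h ≤ δ` (the degree in `ε` of `lineH h` is `≤ δ`).
* `vertex`: `π` a homogeneous prime of degree `≥ 2`, `z, z'` linearly independent: not both `dz z π = 0` and `dz z' π = 0`.  Proof: otherwise `π(p + a z + b z') = π(p)` for all `p, a, b` (Taylor, characteristic 0: the polynomial
  `a ↦ π(p + a z)` has derivative `(dz z π)(p + a z) = 0`).  Choose a basis `z, z', e, e'` of `ℂ^4` with dual basis `α, α', η, η'` (linear forms); then `π(p) = π(η(p) e + η'(p) e') = q(η(p), η'(p))` with `q` a binary form of degree `δ ≥ 2` over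
  `ℂ`; `q` has a linear factor (algebraically closed: binary forms have zeros `(x0 : y0)`, and then `y0 X - x0 Y ∣ q`), so the nonzero linear form `y0 η - x0 η'` divides `π`, of degree `1 < δ`: contradiction with primality (irreducibility).
-/

namespace GP80

open MvPolynomial

theorem Ord_lineH_C (z z' : Fin 4 → ℂ) (a : ℂ) :
    lineH z z' (C a) = Polynomial.C (C a) := by
  rw [lineH, coe_eval₂Hom, eval₂_C]
  rfl

theorem Ord_lineH_X (z z' : Fin 4 → ℂ) (i : Fin 4) :
    lineH z z' (X i) = Polynomial.C (X (Sum.inl 0) * C (z i) + X (Sum.inl 1) * C (z' i)) +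
      Polynomial.X * Polynomial.C (X (Sum.inr i)) := by
  rw [lineH, coe_eval₂Hom, eval₂_X]

theorem lineH_injective (z z' : Fin 4 → ℂ) : Function.Injective (lineH z z') := by
  obtain ⟨σ, hσ⟩ : ∃ σ : MvPolynomial (Fin 2 ⊕ Fin 4) ℂ →+* RR,
      σ = eval₂Hom (C : ℂ →+* RR) (Sum.elim (fun _ => 0) X) := ⟨_, rfl⟩
  have hσC : ∀ a, σ (C a) = C a := by
    intro a
    rw [hσ, coe_eval₂Hom, eval₂_C]
  have hσl : ∀ j, σ (X (Sum.inl j)) = 0 := by
    intro j
    rw [hσ, coe_eval₂Hom, eval₂_X]
    rfl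
  have hσr : ∀ j, σ (X (Sum.inr j)) = X j := by
    intro j
    rw [hσ, coe_eval₂Hom, eval₂_X]
    rfl
  have h : (Polynomial.eval₂RingHom σ 1).comp (lineH z z') = RingHom.id RR := by
    apply MvPolynomial.ringHom_ext
    · intro a
      rw [RingHom.comp_apply, Ord_lineH_C, Polynomial.coe_eval₂RingHom, Polynomial.eval₂_C, hσC]
      rfl
    · intro i
      rw [RingHom.comp_apply, Ord_lineH_X, Polynomial.coe_eval₂RingHom, Polynomial.eval₂_add,
        Polynomial.eval₂_mul, Polynomial.eval₂_C, Polynomial.eval₂_C, Polynomial.eval₂_X,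
        map_add, map_mul, map_mul, hσl, hσl, hσr]
      simp
  intro a b hab
  have h2 := congrArg (Polynomial.eval₂RingHom σ 1) hab
  have h3 := RingHom.congr_fun h a
  have h4 := RingHom.congr_fun h b
  rw [RingHom.comp_apply] at h3 h4
  rw [h3, h4] at h2
  exact h2

theorem Ord_ne (z z' : Fin 4 → ℂ) {h : RR} (hh : h ≠ 0) : lineH z z' h ≠ 0 := by
  intro h0
  apply hh
  apply lineH_injective z z'
  rw [h0, map_zero]

theorem ordL_mul (z z' : Fin 4 → ℂ) {g h : RR} (hg : g ≠ 0) (hh : h ≠ 0) :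
    ordL z z' (g * h) = ordL z z' g + ordL z z' h := by
  rw [ordL, ordL, ordL, map_mul, Polynomial.natTrailingDegree_mul (Ord_ne z z' hg) (Ord_ne z z' hh)]

theorem Ord_C (z z' : Fin 4 → ℂ) (u : ℂ) : ordL z z' (C u) = 0 := by
  rw [ordL, Ord_lineH_C, Polynomial.natTrailingDegree_C]

theorem Ord_pow (z z' : Fin 4 → ℂ) {g : RR} (hg : g ≠ 0) (n : ℕ) :
    ordL z z' (g ^ n) = n * ordL z z' g := by
  induction n with
  | zero =>
    rw [pow_zero, zero_mul, ← C_1]
    exact Ord_C z z' 1
  | succ n ih =>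
    rw [pow_succ, ordL_mul z z' (pow_ne_zero n hg) hg, ih]
    ring

theorem ordL_prod (z z' : Fin 4 → ℂ) (T : Finset RR) (hT : ∀ π ∈ T, π ≠ 0) (m : RR → ℕ) {u : ℂ}
    (hu : u ≠ 0) : ordL z z' (C u * ∏ π ∈ T, π ^ m π) = ∑ π ∈ T, m π * ordL z z' π := by
  classical
  have hCu : (C u : RR) ≠ 0 := by
    intro h
    exact hu (C_injective (Fin 4) ℂ (by rw [h, C_0]))
  induction T using Finset.induction_on with
  | empty =>
    rw [Finset.prod_empty, mul_one, Finset.sum_empty]
    exact Ord_C z z' u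
  | insert a s ha ih =>
    rw [Finset.prod_insert ha, Finset.sum_insert ha]
    have ha0 : a ≠ 0 := hT a (Finset.mem_insert_self a s)
    have hs : ∀ π ∈ s, π ≠ 0 := fun π hπ => hT π (Finset.mem_insert_of_mem hπ)
    have h1 : C u * (a ^ m a * ∏ π ∈ s, π ^ m π) = a ^ m a * (C u * ∏ π ∈ s, π ^ m π) := by ring
    have h2 : C u * ∏ π ∈ s, π ^ m π ≠ 0 :=
      mul_ne_zero hCu (Finset.prod_ne_zero_iff.mpr (fun π hπ => pow_ne_zero _ (hs π hπ)))
    rw [h1, ordL_mul z z' (pow_ne_zero _ ha0) h2, Ord_pow z z' ha0, ih hs]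

theorem Ord_coeff0 (z z' : Fin 4 → ℂ) (h : RR) :
    (lineH z z' h).coeff 0 = rename (Sum.inl : Fin 2 → Fin 2 ⊕ Fin 4)
      ((eval₂Hom (C : ℂ →+* MvPolynomial (Fin 2) ℂ) (fun i => X 0 * C (z i) + X 1 * C (z' i)) :
        RR →+* MvPolynomial (Fin 2) ℂ) h) := by
  have h1 : (Polynomial.constantCoeff).comp (lineH z z') =
      ((rename (Sum.inl : Fin 2 → Fin 2 ⊕ Fin 4) :
        MvPolynomial (Fin 2) ℂ →ₐ[ℂ] MvPolynomial (Fin 2 ⊕ Fin 4) ℂ).toRingHom).comp
      (eval₂Hom (C : ℂ →+* MvPolynomial (Fin 2) ℂ) (fun i => X 0 * C (z i) + X 1 * C (z' i)) :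
        RR →+* MvPolynomial (Fin 2) ℂ) := by
    apply MvPolynomial.ringHom_ext
    · intro a
      rw [RingHom.comp_apply, RingHom.comp_apply, Ord_lineH_C, coe_eval₂Hom, eval₂_C]
      simp
    · intro i
      rw [RingHom.comp_apply, RingHom.comp_apply, Ord_lineH_X, coe_eval₂Hom, eval₂_X]
      simp
  exact RingHom.congr_fun h1 h

theorem Ord_mem (z z' : Fin 4 → ℂ) (h : RR) : h ∈ pL z z' ↔ (lineH z z' h).coeff 0 = 0 := by
  rw [Ord_coeff0, pL, RingHom.mem_ker]
  constructor
  · intro h1
    rw [h1, map_zero]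
  · intro h1
    apply rename_injective (Sum.inl : Fin 2 → Fin 2 ⊕ Fin 4) Sum.inl_injective
    rw [h1, map_zero]

theorem pL_iff (z z' : Fin 4 → ℂ) (h : RR) : h ∈ pL z z' ↔ h = 0 ∨ 1 ≤ ordL z z' h := by
  rw [Ord_mem]
  by_cases h0 : h = 0
  · subst h0
    simp
  · have hne := Ord_ne z z' h0
    rw [ordL, Nat.one_le_iff_ne_zero, Ne, Polynomial.natTrailingDegree_eq_zero]
    constructor
    · intro h1
      right
      rintro (h2 | h2)
      · exact hne h2
      · exact h2 h1
    · rintro (h1 | h1)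
      · exact absurd h1 h0
      · by_contra h2
        exact h1 (Or.inr h2)

theorem ordL_sq (z z' : Fin 4 → ℂ) {h : RR} (hh : h ∈ pL z z' ^ 2) (h0 : h ≠ 0) :
    2 ≤ ordL z z' h := by
  have h1 : pL z z' ≤ Ideal.comap (lineH z z')
      (Ideal.span {(Polynomial.X : Polynomial (MvPolynomial (Fin 2 ⊕ Fin 4) ℂ))}) := by
    intro g hg
    rw [Ideal.mem_comap, Ideal.mem_span_singleton, Polynomial.X_dvd_iff]
    exact (Ord_mem z z' g).mp hg
  have h2 := Ideal.le_comap_pow (lineH z z') 2 (Ideal.pow_right_mono h1 2 hh)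
  rw [Ideal.mem_comap, Ideal.span_singleton_pow, Ideal.mem_span_singleton,
    Polynomial.X_pow_dvd_iff] at h2
  exact Polynomial.le_natTrailingDegree (Ord_ne z z' h0) h2

theorem ordL_le (z z' : Fin 4 → ℂ) {h : RR} {δ : ℕ} (hh : h.IsHomogeneous δ) (h0 : h ≠ 0) :
    ordL z z' h ≤ δ := by
  refine (Polynomial.natTrailingDegree_le_natDegree _).trans ?_
  rw [lineH, coe_eval₂Hom, eval₂_eq']
  apply Polynomial.natDegree_sum_le_of_forall_le
  intro d hd
  refine (Polynomial.natDegree_C_mul_le _ _).trans ?_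
  refine (Polynomial.natDegree_prod_le _ _).trans ?_
  have h2 : ∑ i, d i = δ := by
    have h1 : d.weight 1 = δ := hh (mem_support_iff.mp hd)
    rw [← h1]
    simp [Finsupp.weight_apply, Finsupp.sum_fintype]
  rw [← h2]
  apply Finset.sum_le_sum
  intro i _
  refine Polynomial.natDegree_pow_le.trans ?_
  have h3 : (Polynomial.C (X (Sum.inl 0) * C (z i) + X (Sum.inl 1) * C (z' i)) +
      Polynomial.X * Polynomial.C (X (Sum.inr i)) :
        Polynomial (MvPolynomial (Fin 2 ⊕ Fin 4) ℂ)).natDegree ≤ 1 := by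
    refine (Polynomial.natDegree_add_le _ _).trans ?_
    rw [Polynomial.natDegree_C]
    apply max_le (by omega)
    rw [mul_comm]
    exact (Polynomial.natDegree_C_mul_le _ _).trans Polynomial.natDegree_X_le
  calc d i * _ ≤ d i * 1 := Nat.mul_le_mul_left _ h3
    _ = d i := mul_one _

theorem Ord_linrep {h : RR} (hh : h.IsHomogeneous 1) : ∃ a : Fin 4 → ℂ, h = ∑ i, C (a i) * X i := by
  have h1 := hh.sum_X_mul_pderiv
  have h2 : ∀ i, ∃ a : ℂ, pderiv i h = C a := by
    intro i
    have h3 : (pderiv i h).IsHomogeneous (1 - 1) := hh.pderiv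
    have h4 : (pderiv i h).totalDegree = 0 := Nat.le_zero.mp h3.totalDegree_le
    exact ⟨_, totalDegree_eq_zero_iff_eq_C.mp h4⟩
  choose a ha using h2
  refine ⟨a, ?_⟩
  rw [one_smul] at h1
  rw [← h1]
  apply Finset.sum_congr rfl
  intro i _
  rw [ha, mul_comm]

theorem ordL_lin (z z' : Fin 4 → ℂ) {h : RR} (hh : h.IsHomogeneous 1) (h0 : h ≠ 0) :
    ordL z z' h = if eval z h = 0 ∧ eval z' h = 0 then 1 else 0 := by
  classical
  have hle := ordL_le z z' hh h0
  have hmem : h ∈ pL z z' ↔ (eval z h = 0 ∧ eval z' h = 0) := by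
    obtain ⟨a, ha⟩ := Ord_linrep hh
    have he : ∀ x : Fin 4 → ℂ, eval x h = ∑ i, a i * x i := by
      intro x
      rw [ha]
      simp
    have hev : (eval₂Hom (C : ℂ →+* MvPolynomial (Fin 2) ℂ) (fun i => X 0 * C (z i) + X 1 * C (z' i)) :
        RR →+* MvPolynomial (Fin 2) ℂ) h = X 0 * C (eval z h) + X 1 * C (eval z' h) := by
      rw [he, he, ha, map_sum, map_sum, map_sum, Finset.mul_sum, Finset.mul_sum,
        ← Finset.sum_add_distrib]
      apply Finset.sum_congr rfl
      intro i _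
      rw [map_mul, coe_eval₂Hom, eval₂_C, eval₂_X, C_mul, C_mul]
      ring
    rw [pL, RingHom.mem_ker, hev]
    constructor
    · intro h1
      constructor
      · have h2 := congrArg (eval (fun i : Fin 2 => if i = 0 then (1 : ℂ) else 0)) h1
        simpa using h2
      · have h2 := congrArg (eval (fun i : Fin 2 => if i = 0 then (0 : ℂ) else 1)) h1
        simpa using h2
    · rintro ⟨h1, h2⟩
      rw [h1, h2]
      simp
  have h5 := pL_iff z z' h
  rw [hmem] at h5
  split_ifs with hc
  · rcases h5.mp hc with h6 | h6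
    · exact absurd h6 h0
    · omega
  · by_contra h6
    exact hc (h5.mpr (Or.inr (by omega)))

theorem Ord_dzC (v : Fin 4 → ℂ) (a : ℂ) : dz v (C a) = 0 := by
  rw [← MvPolynomial.algebraMap_eq]
  exact Derivation.map_algebraMap _ _

theorem dz_lin (z : Fin 4 → ℂ) {h : RR} (hh : h.IsHomogeneous 1) : dz z h = C (eval z h) := by
  obtain ⟨a, ha⟩ := Ord_linrep hh
  have he : eval z h = ∑ i, a i * z i := by
    rw [ha]
    simp
  rw [he, ha, map_sum, map_sum]
  apply Finset.sum_congr rfl
  intro i _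
  rw [Derivation.leibniz, Ord_dzC, smul_zero, add_zero, smul_eq_mul, dz, mkDerivation_X, C_mul]

theorem Ord_scale {m : ℕ} {F : RR} (hF : F.IsHomogeneous m) (c : ℂ) (v : Fin 4 → ℂ) :
    eval (c • v) F = c ^ m * eval v F := by
  rw [eval_eq', eval_eq', Finset.mul_sum]
  apply Finset.sum_congr rfl
  intro e he
  have h1 : e.weight 1 = m := hF (mem_support_iff.mp he)
  have h2 : ∑ i, e i = m := by
    rw [← h1]
    simp [Finsupp.weight_apply, Finsupp.sum_fintype]
  have h3 : ∏ i, (c • v) i ^ e i = c ^ m * ∏ i, v i ^ e i := by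
    simp only [Pi.smul_apply, smul_eq_mul, mul_pow]
    rw [Finset.prod_mul_distrib, Finset.prod_pow_eq_pow_sum, h2]
  rw [h3]
  ring

/-- restriction to the line `p + T v`. -/
noncomputable def Ord_u (p v : Fin 4 → ℂ) : RR →ₐ[ℂ] Polynomial ℂ :=
  aeval (fun i => Polynomial.C (p i) + Polynomial.C (v i) * Polynomial.X)

theorem Ord_u_eval (p v : Fin 4 → ℂ) (F : RR) (T : ℂ) :
    (Ord_u p v F).eval T = eval (p + T • v) F := by
  induction F using MvPolynomial.induction_on with
  | C a => simp [Ord_u]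
  | add f g hf hg => rw [map_add, Polynomial.eval_add, hf, hg, map_add]
  | mul_X f i hf =>
    have h1 : (Polynomial.C (p i) + Polynomial.C (v i) * Polynomial.X).eval T = (p + T • v) i := by
      rw [Polynomial.eval_add, Polynomial.eval_mul, Polynomial.eval_C, Polynomial.eval_C,
        Polynomial.eval_X, Pi.add_apply, Pi.smul_apply, smul_eq_mul, mul_comm T]
    rw [map_mul, Polynomial.eval_mul, hf, map_mul, eval_X, Ord_u, aeval_X, h1]

theorem Ord_u_der (p v : Fin 4 → ℂ) (F : RR) :
    Polynomial.derivative (Ord_u p v F) = Ord_u p v (dz v F) := by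
  induction F using MvPolynomial.induction_on with
  | C a =>
    rw [Ord_dzC, map_zero, Ord_u, aeval_C]
    exact Polynomial.derivative_C
  | add f g hf hg => rw [map_add, map_add, hf, hg, map_add, map_add]
  | mul_X f i hf =>
    have h1 : Polynomial.derivative (Ord_u p v (X i)) = Polynomial.C (v i) := by
      rw [Ord_u, aeval_X]
      simp
    have h2 : dz v (X i) = C (v i) := by rw [dz, mkDerivation_X]
    have h3 : Ord_u p v (C (v i)) = Polynomial.C (v i) := by
      rw [Ord_u, aeval_C]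
      rfl
    rw [map_mul, Polynomial.derivative_mul, hf, h1, Derivation.leibniz, smul_eq_mul, smul_eq_mul,
      map_add, map_mul, map_mul, h2, h3]
    ring

theorem Ord_inv (v : Fin 4 → ℂ) {F : RR} (hF : dz v F = 0) (p : Fin 4 → ℂ) (a : ℂ) :
    eval (p + a • v) F = eval p F := by
  have h1 := Ord_u_der p v F
  rw [hF, map_zero] at h1
  have h2 := Polynomial.natDegree_eq_zero_of_derivative_eq_zero h1
  have h3 := Polynomial.eq_C_of_natDegree_eq_zero h2
  have h4 := Ord_u_eval p v F a
  have h5 := Ord_u_eval p v F 0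
  rw [zero_smul, add_zero] at h5
  rw [← h4, ← h5, h3, Polynomial.eval_C, Polynomial.eval_C]

theorem Ord_hyper (a : Fin 4 → ℂ) (ha : a ≠ 0) {F : RR}
    (hpl : ∀ x : Fin 4 → ℂ, ∑ i, a i * x i = 0 → eval x F = 0) :
    (∑ i, C (a i) * X i : RR) ∣ F := by
  classical
  obtain ⟨L, hL⟩ : ∃ L : RR, L = ∑ i, C (a i) * X i := ⟨_, rfl⟩
  rw [← hL]
  have hLe : ∀ x : Fin 4 → ℂ, eval x L = ∑ i, a i * x i := by
    intro x
    rw [hL]
    simp
  obtain ⟨j, hj⟩ : ∃ j, a j ≠ 0 := by
    by_contra hcon
    push Not at hcon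
    exact ha (funext hcon)
  obtain ⟨g, hg⟩ : ∃ g : Fin 4 → RR, g = fun i =>
      X i - C (if i = j then (a j)⁻¹ else 0) * L := ⟨_, rfl⟩
  have hdvd : ∀ P : RR, L ∣ P - aeval g P := by
    intro P
    induction P using MvPolynomial.induction_on with
    | C a => simp
    | add p q hp hq =>
      rw [map_add, add_sub_add_comm]
      exact dvd_add hp hq
    | mul_X p i hp =>
      rw [map_mul, aeval_X]
      have h1 : p * X i - aeval g p * g i = (p - aeval g p) * X i + aeval g p * (X i - g i) := by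
        ring
      rw [h1]
      apply dvd_add (Dvd.dvd.mul_right hp _)
      apply Dvd.dvd.mul_left
      rw [hg]
      simp only [sub_sub_cancel]
      exact Dvd.intro_left _ rfl
  have hzero : aeval g F = 0 := by
    apply MvPolynomial.funext
    intro x
    rw [map_zero]
    have hgen : ∀ P : RR, eval x (aeval g P) = eval (fun i => eval x (g i)) P := by
      intro P
      induction P using MvPolynomial.induction_on with
      | C a => simp
      | add p q hp hq => rw [map_add, map_add, hp, hq, map_add]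
      | mul_X p i hp => rw [map_mul, map_mul, hp, aeval_X, map_mul, eval_X]
    rw [hgen]
    apply hpl
    have h2 : ∀ i, eval x (g i) = x i - (if i = j then (a j)⁻¹ else 0) * eval x L := by
      intro i
      rw [hg]
      simp
    simp only [h2, hLe, mul_sub, Finset.sum_sub_distrib]
    have h3 : ∑ i, a i * ((if i = j then (a j)⁻¹ else 0) * ∑ l, a l * x l)
        = ∑ l, a l * x l := by
      rw [Finset.sum_eq_single j]
      · rw [if_pos rfl, ← mul_assoc, mul_inv_cancel₀ hj, one_mul]
      · intro i _ hi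
        rw [if_neg hi, zero_mul, mul_zero]
      · intro hi
        exact absurd (Finset.mem_univ j) hi
    rw [h3, sub_self]
  have h4 := hdvd F
  rwa [hzero, sub_zero] at h4

/-- a zero outside the plane spanned by `z`, `z'`. -/
theorem Ord_zero (z z' : Fin 4 → ℂ) {F : RR} {δ : ℕ} (hδ : F.IsHomogeneous δ) (h2 : 1 ≤ δ) :
    ∃ p : Fin 4 → ℂ, p ∉ Submodule.span ℂ {z, z'} ∧ eval p F = 0 := by
  have hsp : ∀ S : Finset (Fin 4 → ℂ), S.card ≤ 3 →
      ∃ e : Fin 4 → ℂ, e ∉ Submodule.span ℂ (S : Set (Fin 4 → ℂ)) := by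
    intro S hS
    by_contra hcon
    push Not at hcon
    have h1 : Submodule.span ℂ (S : Set (Fin 4 → ℂ)) = ⊤ := by
      rw [eq_top_iff]
      intro x _
      exact hcon x
    have h3 := finrank_span_finset_le_card (R := ℂ) S
    rw [Set.finrank, h1, finrank_top, Module.finrank_fin_fun] at h3
    omega
  classical
  obtain ⟨e, he⟩ := hsp {z, z'} (Finset.card_le_two.trans (by norm_num))
  obtain ⟨e', he'⟩ := hsp {z, z', e} (Finset.card_le_three)
  have hset2 : (({z, z'} : Finset (Fin 4 → ℂ)) : Set (Fin 4 → ℂ)) = {z, z'} := by simp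
  have hset3 : (({z, z', e} : Finset (Fin 4 → ℂ)) : Set (Fin 4 → ℂ)) = {z, z', e} := by simp
  rw [hset2] at he
  rw [hset3] at he'
  by_cases hFe : eval e F = 0
  · exact ⟨e, he, hFe⟩
  obtain ⟨T, hT⟩ : ∃ T : ℂ, eval (e' + T • e) F = 0 := by
    by_contra hcon
    push Not at hcon
    have hdeg : (Ord_u e' e F).degree = 0 := by
      by_contra hne
      obtain ⟨T, hT⟩ := IsAlgClosed.exists_root (Ord_u e' e F) hne
      apply hcon T
      rw [← Ord_u_eval]
      exact hT
    have hc := Polynomial.eq_C_of_degree_eq_zero hdeg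
    have hS : Ord_u e e' F = Polynomial.C ((Ord_u e' e F).coeff 0) * Polynomial.X ^ δ := by
      rw [← sub_eq_zero]
      apply Polynomial.eq_zero_of_infinite_isRoot
      apply ((Set.finite_singleton (0 : ℂ)).infinite_compl).mono
      intro S hS
      have hS0 : S ≠ 0 := hS
      change Polynomial.eval S _ = 0
      rw [Polynomial.eval_sub, Ord_u_eval, Polynomial.eval_mul, Polynomial.eval_C,
        Polynomial.eval_pow, Polynomial.eval_X]
      have h1 : e + S • e' = S • (e' + S⁻¹ • e) := by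
        rw [smul_add, smul_smul, mul_inv_cancel₀ hS0, one_smul, add_comm]
      rw [h1, Ord_scale hδ, ← Ord_u_eval, hc, Polynomial.eval_C, Polynomial.coeff_C_zero]
      ring
    have h3 := Ord_u_eval e e' F 0
    rw [hS, zero_smul, add_zero, Polynomial.eval_mul, Polynomial.eval_pow, Polynomial.eval_X,
      zero_pow (by omega), mul_zero] at h3
    exact hFe h3.symm
  refine ⟨e' + T • e, ?_, hT⟩
  intro hmem
  apply he'
  have h1 : Submodule.span ℂ {z, z'} ≤ Submodule.span ℂ ({z, z', e} : Set (Fin 4 → ℂ)) := by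
    apply Submodule.span_mono
    intro x hx
    rcases hx with hx | hx
    · exact Or.inl hx
    · exact Or.inr (Or.inl hx)
  have h3 : e ∈ Submodule.span ℂ ({z, z', e} : Set (Fin 4 → ℂ)) :=
    Submodule.subset_span (Or.inr (Or.inr rfl))
  have h4 := Submodule.sub_mem _ (h1 hmem) (Submodule.smul_mem _ T h3)
  rwa [add_sub_cancel_right] at h4

theorem vertex {z z' : Fin 4 → ℂ} (hz : LinearIndependent ℂ ![z, z']) {π : RR} (hπ : Prime π) {δ : ℕ}
    (hδ : π.IsHomogeneous δ) (h2 : 2 ≤ δ) (h1 : dz z π = 0) (h1' : dz z' π = 0) : False := by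
  obtain ⟨p, hp, hp0⟩ := Ord_zero z z' hδ (by omega)
  have hpi := LinearIndependent.pair_iff.mp hz
  have hdet0 : (Matrix.of ![z, z', p, 0] : Matrix (Fin 4) (Fin 4) ℂ).det = 0 := by
    apply Matrix.det_eq_zero_of_row_eq_zero 3
    intro j
    rfl
  obtain ⟨a, ha0, ha⟩ := Matrix.exists_mulVec_eq_zero_iff.mpr hdet0
  have haz : ∑ i, a i * z i = 0 :=
    (Finset.sum_congr rfl (fun i _ => mul_comm _ _)).trans (congrFun ha 0)
  have haz' : ∑ i, a i * z' i = 0 :=
    (Finset.sum_congr rfl (fun i _ => mul_comm _ _)).trans (congrFun ha 1)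
  have hap : ∑ i, a i * p i = 0 :=
    (Finset.sum_congr rfl (fun i _ => mul_comm _ _)).trans (congrFun ha 2)
  have hvan : ∀ x : Fin 4 → ℂ, ∑ i, a i * x i = 0 → eval x π = 0 := by
    intro x hx
    have hdet : (Matrix.of ![x, z, z', p] : Matrix (Fin 4) (Fin 4) ℂ).det = 0 := by
      rw [← Matrix.exists_mulVec_eq_zero_iff]
      refine ⟨a, ha0, ?_⟩
      funext i
      fin_cases i
      · change ∑ i, x i * a i = 0
        rw [← hx]
        exact Finset.sum_congr rfl (fun i _ => mul_comm _ _)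
      · change ∑ i, z i * a i = 0
        rw [← haz]
        exact Finset.sum_congr rfl (fun i _ => mul_comm _ _)
      · change ∑ i, z' i * a i = 0
        rw [← haz']
        exact Finset.sum_congr rfl (fun i _ => mul_comm _ _)
      · change ∑ i, p i * a i = 0
        rw [← hap]
        exact Finset.sum_congr rfl (fun i _ => mul_comm _ _)
    obtain ⟨v, hv0, hv⟩ := Matrix.exists_vecMul_eq_zero_iff.mpr hdet
    have hrel : ∀ i, v 0 * x i + v 1 * z i + v 2 * z' i + v 3 * p i = 0 := by
      intro i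
      have h3 := congrFun hv i
      simpa [Matrix.vecMul, dotProduct, Fin.sum_univ_four] using h3
    by_cases hv00 : v 0 = 0
    · exfalso
      by_cases hv3 : v 3 = 0
      · have h4 := hpi (v 1) (v 2) (by
          funext i
          have := hrel i
          rw [hv00, hv3, zero_mul, zero_mul, zero_add, add_zero] at this
          simpa using this)
        apply hv0
        funext i
        fin_cases i
        · exact hv00
        · exact h4.1
        · exact h4.2
        · exact hv3
      · apply hp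
        have h5 : p = (-(v 1 / v 3)) • z + (-(v 2 / v 3)) • z' := by
          funext i
          have h6 := hrel i
          rw [hv00] at h6
          simp only [Pi.add_apply, Pi.smul_apply, smul_eq_mul]
          field_simp
          linear_combination h6
        rw [h5]
        apply Submodule.add_mem
        · exact Submodule.smul_mem _ _ (Submodule.subset_span (Or.inl rfl))
        · exact Submodule.smul_mem _ _ (Submodule.subset_span (Or.inr rfl))
    · have h5 : x = ((-(v 3 / v 0)) • p + (-(v 1 / v 0)) • z) + (-(v 2 / v 0)) • z' := by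
        funext i
        have h6 := hrel i
        simp only [Pi.add_apply, Pi.smul_apply, smul_eq_mul]
        field_simp
        linear_combination h6
      rw [h5, Ord_inv z' h1', Ord_inv z h1, Ord_scale hδ, hp0, mul_zero]
  obtain ⟨Q, hQ⟩ := Ord_hyper a ha0 hvan
  have hLu : ¬ IsUnit (∑ i, C (a i) * X i : RR) := by
    intro hu
    have h3 := hu.map (eval (0 : Fin 4 → ℂ))
    simp at h3
  rcases hπ.irreducible.isUnit_or_isUnit hQ with hu | hu
  · exact hLu hu
  · have hQ0 : Q ≠ 0 := hu.ne_zero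
    have hL0 : (∑ i, C (a i) * X i : RR) ≠ 0 := by
      intro h0
      rw [h0, zero_mul] at hQ
      exact hπ.ne_zero hQ
    have hdQ : Q.totalDegree = 0 := (isUnit_iff_totalDegree_of_isReduced.mp hu).2
    have hdL : (∑ i, C (a i) * X i : RR).totalDegree ≤ 1 := by
      have hLh : (∑ i, C (a i) * X i : RR).IsHomogeneous 1 := by
        apply IsHomogeneous.sum
        intro i _
        have h := (isHomogeneous_C (Fin 4) (a i)).mul (isHomogeneous_X ℂ i)
        rwa [zero_add] at h
      exact hLh.totalDegree_le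
    have hdπ := hδ.totalDegree hπ.ne_zero
    rw [hQ, totalDegree_mul_of_isDomain hL0 hQ0, hdQ] at hdπ
    omega

end GP80
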