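import Mathlib
import Pool.Agent.H80.GP.GDefs
import Pool.Agent.H80.GP.PDefs
import Pool.Agent.H80.GP.Ga2
import Pool.Agent.H80.GP.Ga3
import Pool.Agent.H80.GP.Jac
import Pool.Agent.H80.GP.Sa1
import Pool.Agent.H80.GP.Fac
import Pool.Agent.H80.GP.Kgn
import Pool.Agent.H80.GP.Ord
import Pool.Agent.H80.GP.Pli
import Pool.Agent.H80.GP.Grd
import Pool.Agent.H80.GP.Gpr

/-!
# Row Chd (MP_87ed0a_GP): the chord inequalities 2.4  (about 220 lines)

`z = z s`, `z' = z s'`, `A = AL z z'`, `P_0` a unit of `A`.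
* `chord_loss`: `J s ≠ 0` is the Jacobian.  `j3_of_jac` (O = A, i = 0): the Jacobian over `A` of `(chartH A 0 F, chartH A 0 G)` at `v = vz A 0 z` is `algebraMap (J s * X 0 * C κ)`, `κ ≠ 0`; both forms vanish at `v`, `v'` (`vz_eval_zero`), so
  by `jac_sq` it is in `m^2`; `AL_mem_sq`: `t * (J s * X 0 * C κ) ∈ pL^2`, `t ∉ pL`; `ordL_sq`, `ordL_mul`, `ordL t = 0 = ordL (X 0)` (`pL_iff`, `X0_not_mem`): `2 ≤ ordL (J s) = ∑_{π ∈ T} multiplicity π (J s) * ordL π`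
  (`fac_prod`, `ordL_prod`).
* `chord`: let `F2, G2` be the good pair over `A` (hypothesis), `J2 ∈ A` its Jacobian at `v` (`exists_J3`; `v` has a unit component since `v ≠ 0` modulo `m`: see Grd; or take it from `jac_sq`-like arguments: `P_0 v_j` are the images of
  `P_0 z_(j+1)/z_0 - P_(j+1)`, not all in `pL z z'`).  `J2 ∈ m^2` by `jac_sq`.
  By `DegGen`: `chartH A 0 G = U F2 + a G2`; if `c < d`, `F2 = chartH A 0 F`: a transition of determinant `α = a`; if `c = d` also `chartH A 0 F = U' F2 + a' G2` (constants `U, U'`), `α` the `2 × 2` determinant.  `trans_J`, `unique_J3`: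
  `algebraMap (J s * X 0 * C κ) = α * J2`; so `α ≠ 0`, `J2 ≠ 0`.  Write `J2 = algebraMap j2 / algebraMap t2`, `α = algebraMap a0 / algebraMap t0`, `t0, t2 ∉ pL` (`IsLocalization.mk'_surjective`): in `RR`
  `t0 t2 J s X 0 C κ = a0 j2`.  (**)
  `ordL j2 ≥ 2`: `algebraMap j2 = algebraMap t2 * J2 ∈ m^2`, as before.
  Let `T' ⊇ T` be a set of primes covering `j2` (`exists_primes`), `j2 = C u ∏_{T'} π^(mult π j2)`, `ordL j2 = ∑_{T'} mult π j2 * ordL π`.  For `π ∈ T'` with `ordL π ≥ 1`, i.e. `π ∈ pL`: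
   - `π ∈ T`: `mult π j2 = om π s`.  Let `φ : A → OO π` (`AL_to_OO`).  The pair `(map φ F2, map φ G2)` satisfies the hypotheses of `JUniq` (`π ∤ X 0` because `X 0 ∉ pL`): homogeneous, vanish at `vz (OO π) 0 (z t) = φ (vz A 0 (z t))`,
     `map φ (chartH A 0 F) = chartH (OO π) 0 F`; `DegGen`: `H` over `OO π` vanishing at the points: `lift_form` gives `u` with `π ∤ u` and `H1 ∈ BB` with `chartH (OO π) 0 H1 = C (algebraMap (u X_0^d)) H`; `chartH A 0 H1` vanishes at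
     the points (`vz_eval_zero`), so `= U F2 + a G2` by `DegGen` over `A`; apply `map φ` and divide by the unit `algebraMap (u X_0^d)` (`π ∤ u`).
     The Jacobian of this pair is `φ J2`, so `om π s = multiplicity (algebraMap π) (φ J2)`, and `φ J2 * algebraMap t2 = algebraMap j2`, `t2 ∉ pL` so `π ∤ t2`, `algebraMap t2` a unit; `OO_mult`.
   - `π ∉ T`: `π ∣ j2` would give by (**) `π ∣ t0 t2 J s X 0`, so (`t0, t2, X 0 ∉ pL`, `π ∈ pL`) `π ∣ J s`, hence `π` is associated to an element of `T ⊆ T'`, so in `T`: contradiction.  So `mult π j2 = 0`.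
  Therefore `2 ≤ ordL j2 = ∑_{π ∈ T} om π s * ordL π`.
-/

namespace GP80

open MvPolynomial

theorem Chd_C (z z' : Fin 4 → ℂ) {u : ℂ} (hu : u ≠ 0) : ordL z z' (C u) = 0 := by
  have h := ordL_prod z z' ∅ (fun π hπ => absurd hπ (Finset.notMem_empty π)) (fun _ => 0) hu
  rwa [Finset.prod_empty, mul_one, Finset.sum_empty] at h

theorem Chd_zero {z z' : Fin 4 → ℂ} {t : RR} (ht : t ∉ pL z z') : ordL z z' t = 0 := by
  by_contra h
  exact ht ((pL_iff z z' t).2 (Or.inr (by omega)))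

theorem Chd_sq {z z' : Fin 4 → ℂ} {r : RR} (hr : r ≠ 0)
    (h : algebraMap RR (AL z z') r ∈ IsLocalRing.maximalIdeal (AL z z') ^ 2) :
    2 ≤ ordL z z' r := by
  obtain ⟨t, h1, h2⟩ := AL_mem_sq z z' r h
  have ht : t ≠ 0 := by
    rintro rfl
    exact h1 (zero_mem _)
  have h3 := ordL_sq z z' h2 (mul_ne_zero ht hr)
  rwa [ordL_mul z z' ht hr, Chd_zero h1, zero_add] at h3

theorem Chd_eval {A B : Type} [CommRing A] [CommRing B] (φ : A →+* B) (v : Fin 3 → A)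
    (p : MvPolynomial (Fin 3) A) : eval (fun j => φ (v j)) (map φ p) = φ (eval v p) := by
  rw [eval_map, MvPolynomial.eval₂_comp]
  rfl

theorem Chd_chart {A B : Type} [CommRing A] [CommRing B] [Algebra RR A] [Algebra RR B]
    (φ : A →+* B) (hφ : ∀ r, φ (algebraMap RR A r) = algebraMap RR B r) (H : BB) :
    map φ (chartH A 0 H) = chartH B 0 H := by
  rw [chart_map A, chart_map B, MvPolynomial.map_map]
  congr 1
  congr 1
  exact RingHom.ext hφ

theorem Chd_vz {A B : Type} [CommRing A] [CommRing B] [Algebra RR A] [Algebra RR B]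
    (φ : A →+* B) (hφ : ∀ r, φ (algebraMap RR A r) = algebraMap RR B r)
    (hu : IsUnit (algebraMap RR A (X 0))) (z : Fin 4 → ℂ) :
    (fun j => φ (vz A 0 z j)) = vz B 0 z := by
  funext j
  unfold vz
  rw [map_sub, map_mul, hφ, hφ]
  congr 2
  have hB : algebraMap RR B (X 0) = φ (algebraMap RR A (X 0)) := (hφ _).symm
  rw [hB]
  obtain ⟨u, hu⟩ := hu
  rw [← hu, Ring.inverse_unit]
  have h1 : φ (u : A) = ((Units.map (φ : A →* B) u : Bˣ) : B) := rfl
  rw [h1, Ring.inverse_unit]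
  rfl

theorem Chd_J3 {A B : Type} [CommRing A] [CommRing B] (φ : A →+* B) {v : Fin 3 → A}
    {F G : MvPolynomial (Fin 3) A} {J : A} (h : IsJ3 F G v J) :
    IsJ3 (map φ F) (map φ G) (fun j => φ (v j)) (φ J) := by
  unfold IsJ3 at h ⊢
  have hg : ∀ P : MvPolynomial (Fin 3) A, grad (map φ P) (fun j => φ (v j)) =
      fun i => φ (grad P v i) := by
    intro P
    funext i
    unfold grad
    rw [pderiv_map, Chd_eval]
  rw [hg, hg]
  have h0 := fun i => congrFun h i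
  simp only [cross_apply] at h0 ⊢
  funext i
  have h1 := h0 i
  fin_cases i <;>
    simp only [Matrix.cons_val_zero, Matrix.cons_val_one, Matrix.cons_val, Pi.smul_apply,
      smul_eq_mul, Fin.zero_eta, Fin.mk_one, Fin.reduceFinMk, Fin.isValue] at h1 ⊢ <;>
    rw [← map_mul, ← map_mul, ← map_mul, ← map_sub, h1]

theorem Chd_const {R : Type} [CommRing R] {A : MvPolynomial (Fin 3) R} (h : A.IsHomogeneous 0) :
    A = C (coeff 0 A) := by
  have h1 := (MvPolynomial.totalDegree_zero_iff_isHomogeneous _).2 h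
  rw [MvPolynomial.totalDegree_eq_zero_iff_eq_C] at h1
  exact h1

theorem Chd_unit {z z' : Fin 4 → ℂ} (hz : ∀ l, z l ≠ 0) (hz' : ∀ l, z' l ≠ 0)
    (hind : LinearIndependent ℂ ![z, z']) : ∃ l, IsUnit (vz (AL z z') 0 z l) := by
  have hu : IsUnit (algebraMap RR (AL z z') (X 0)) := (AL_unit _ _ _).2 (X0_not_mem (hz 0))
  by_contra hcon
  push Not at hcon
  have h1 : ∀ j : Fin 3, z' 0 * z ((0 : Fin 4).succAbove j) = z 0 * z' ((0 : Fin 4).succAbove j) := by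
    intro j
    by_contra hne
    apply hcon j
    have h2 := vz_scale (AL z z') 0 hu (hz 0) j
    have h3 : (X 0 * C (z ((0 : Fin 4).succAbove j)) - C (z 0) * X ((0 : Fin 4).succAbove j) : RR) ∉
        pL z z' := by
      intro h4
      have h5 : (eval₂Hom (C : ℂ →+* MvPolynomial (Fin 2) ℂ)
          (fun i => X 0 * C (z i) + X 1 * C (z' i)) : RR →+* MvPolynomial (Fin 2) ℂ)
          (X 0 * C (z ((0 : Fin 4).succAbove j)) - C (z 0) * X ((0 : Fin 4).succAbove j)) = 0 := h4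
      have h6 := congrArg (eval ![0, 1]) h5
      simp only [map_sub, map_mul, map_add, eval₂Hom_X', eval₂Hom_C, eval_X, eval_C,
        Matrix.cons_val_zero, Matrix.cons_val_one, Matrix.cons_val_fin_one, zero_mul, one_mul,
        zero_add, map_zero] at h6
      exact hne (sub_eq_zero.1 h6)
    have h4 : IsUnit (algebraMap RR (AL z z')
        (X 0 * C (z ((0 : Fin 4).succAbove j)) - C (z 0) * X ((0 : Fin 4).succAbove j))) :=
      (AL_unit _ _ _).2 h3
    rw [h2] at h4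
    exact isUnit_of_mul_isUnit_right h4
  have h2 : ∀ l : Fin 4, z' l = (z' 0 / z 0) * z l := by
    intro l
    rcases Fin.eq_zero_or_eq_succ l with rfl | ⟨j, rfl⟩
    · rw [div_mul_cancel₀ _ (hz 0)]
    · have h3 := h1 j
      rw [Fin.zero_succAbove] at h3
      rw [div_mul_eq_mul_div, eq_div_iff (hz 0)]
      linear_combination -h3
  have h3 := LinearIndependent.pair_iff.1 hind (z' 0 / z 0) (-1) (by
    funext l
    simp only [Pi.add_apply, Pi.smul_apply, smul_eq_mul, Pi.zero_apply]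
    rw [h2 l]
    ring)
  exact absurd h3.2 (by norm_num)

theorem Chd_deggen {A O I : Type} [CommRing A] [CommRing O] [IsDomain O] [Algebra RR A]
    [Algebra RR O] (M : Submonoid RR) [IsLocalization M O] (hM : M ≤ nonZeroDivisors RR)
    (huA : IsUnit (algebraMap RR A (X 0))) (huO : IsUnit (algebraMap RR O (X 0)))
    (φ : A →+* O) (hφ : ∀ r, φ (algebraMap RR A r) = algebraMap RR O r)
    (z : I → Fin 4 → ℂ) (hz : ∀ s, z s 0 ≠ 0) {c d : ℕ} {F G : MvPolynomial (Fin 3) A}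
    (h : DegGen (fun t => vz A 0 (z t)) c d F G) :
    DegGen (fun t => vz O 0 (z t)) c d (map φ F) (map φ G) := by
  intro H hH h0
  obtain ⟨u, hu, H1, h1, h2, h3, h4⟩ := lift_form M hM 0 huO z hz hH h0
  have hw : IsUnit (algebraMap RR O (u * X 0 ^ d)) := by
    rw [map_mul, map_pow]
    exact (IsLocalization.map_units O (⟨u, hu⟩ : M)).mul (huO.pow d)
  obtain ⟨U, a, hU, hUa⟩ := h (chartH A 0 H1) (chart_homog A 0 h1)
    (fun t => vz_eval_zero A 0 huA h1 h2 (hz t) (h3 t))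
  obtain ⟨w, hw⟩ := hw
  have h5 := congrArg (map φ) hUa
  rw [Chd_chart φ hφ, h4, ← hw, map_add, map_mul, map_mul, map_C] at h5
  refine ⟨C (w⁻¹ : Oˣ).1 * map φ U, (w⁻¹ : Oˣ).1 * φ a, (hU.map φ).C_mul _, ?_⟩
  have h6 : (C (w⁻¹ : Oˣ).1 : MvPolynomial (Fin 3) O) * C (w : O) = 1 := by
    rw [← C_mul, Units.inv_mul, C_1]
  calc H = (C (w⁻¹ : Oˣ).1 * C (w : O)) * H := by rw [h6, one_mul]
    _ = C (w⁻¹ : Oˣ).1 * (C (w : O) * H) := by ring
    _ = C (w⁻¹ : Oˣ).1 * (map φ U * map φ F + C (φ a) * map φ G) := by rw [h5]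
    _ = _ := by
      rw [C_mul]
      ring

/-- a transition between two pairs over a domain -/
theorem Chd_trans {O I : Type} [CommRing O] {c d : ℕ} (hcd : c ≤ d) (v : I → Fin 3 → O)
    {F G F2 G2 : MvPolynomial (Fin 3) O} (hF : F.IsHomogeneous c) (hG : G.IsHomogeneous d)
    (v1 : ∀ z, eval (v z) F = 0) (w1 : ∀ z, eval (v z) G = 0) (g : DegGen v c d F2 G2)
    (heq : c < d → F2 = F) : ∃ α, Trans c d F G F2 G2 α := by
  obtain ⟨U, a, hU, hUa⟩ := g G hG w1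
  rcases hcd.lt_or_eq with h | h
  · exact ⟨a, Or.inl ⟨h, (heq h).symm, U, hU, by rw [hUa]; ring⟩⟩
  · subst h
    obtain ⟨U', a', hU', hUa'⟩ := g F hF v1
    rw [Nat.sub_self] at hU hU'
    rw [Chd_const hU] at hUa
    rw [Chd_const hU'] at hUa'
    exact ⟨_, Or.inr ⟨rfl, _, _, _, _, hUa', hUa, rfl⟩⟩

theorem Chd_j3 {I : Type} [Fintype I] (z : I → Fin 4 → ℂ) (hz : Geom z) {c d f f' : ℕ} {F G : BB}
    (h : Glob z c d f f' F G) (J : I → RR) (hJ : ∀ s, IsJac 0 F G (z s) (J s)) (s s' : I) :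
    IsJ3 (chartH (AL (z s) (z s')) 0 F) (chartH (AL (z s) (z s')) 0 G) (vz (AL (z s) (z s')) 0 (z s))
      (algebraMap RR (AL (z s) (z s')) (J s * X 0 * C (z s 0 ^ 3 / z s 0 ^ (c + d)))) := by
  have hc2 := h.c2
  have hcd := h.cd
  exact j3_of_jac (AL (z s) (z s')) 0 ((AL_unit _ _ _).2 (X0_not_mem (hz.co s 0))) (by omega)
    (by omega) h.Fx h.Gx h.FE h.GE (hz.co s) (hJ s)

theorem Chd_fac {z z' : Fin 4 → ℂ} {T : Finset RR} (hT : PSet T) {g : RR} (hg : g ≠ 0)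
    (hc : ∀ q, Prime q → q ∣ g → ∃ π ∈ T, Associated q π) :
    ordL z z' g = ∑ π ∈ T, multiplicity π g * ordL z z' π := by
  obtain ⟨u, hu, h1⟩ := fac_prod hT hg hc
  have h2 := ordL_prod z z' T (fun π hπ => (hT.1 π hπ).ne_zero) (fun π => multiplicity π g) hu
  rw [← h1] at h2
  exact h2

/-- the multiplicity of `j2` at a prime of `T` -/
theorem Chd_mult {I : Type} [Fintype I] [DecidableEq I] (z : I → Fin 4 → ℂ) (hz : Geom z)
    {c d : ℕ} {F : BB} {om : I → ℕ} {π : RR} (hπ : Prime π) (hX : ¬ π ∣ X 0)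
    (huq : JUniq z c d F π om) {s s' : I} (hm : π ∈ pL (z s) (z s'))
    {F2 G2 : MvPolynomial (Fin 3) (AL (z s) (z s'))} (hF2 : F2.IsHomogeneous c)
    (hG2 : G2.IsHomogeneous d) (vF : ∀ t, eval (vz (AL (z s) (z s')) 0 (z t)) F2 = 0)
    (vG : ∀ t, eval (vz (AL (z s) (z s')) 0 (z t)) G2 = 0)
    (hgen : DegGen (fun t => vz (AL (z s) (z s')) 0 (z t)) c d F2 G2)
    (heq : c < d → F2 = chartH (AL (z s) (z s')) 0 F) {J2 : AL (z s) (z s')}
    (hJ2 : IsJ3 F2 G2 (vz (AL (z s) (z s')) 0 (z s)) J2) {j2 t2 : RR} (hj2 : j2 ≠ 0)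
    (ht2 : t2 ∉ pL (z s) (z s'))
    (he : J2 * algebraMap RR (AL (z s) (z s')) t2 = algebraMap RR (AL (z s) (z s')) j2) :
    multiplicity π j2 = om s := by
  have hp : (Ideal.span {π} : Ideal RR).IsPrime := (Ideal.span_singleton_prime hπ.ne_zero).2 hπ
  have hdom : IsDomain (OO π) := OO_domain π
  have huA : IsUnit (algebraMap RR (AL (z s) (z s')) (X 0)) :=
    (AL_unit _ _ _).2 (X0_not_mem (hz.co s 0))
  have huO : IsUnit (algebraMap RR (OO π) (X 0)) := (OO_unit _).2 hX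
  obtain ⟨φ, hφ⟩ := AL_to_OO (z s) (z s') hm
  have hv : ∀ t, (fun j => φ (vz (AL (z s) (z s')) 0 (z t) j)) = vz (OO π) 0 (z t) :=
    fun t => Chd_vz φ hφ huA (z t)
  have h1 := huq (map φ F2) (map φ G2) (hF2.map φ) (hG2.map φ)
    (fun t => by rw [← hv t, Chd_eval, vF t, map_zero])
    (fun t => by rw [← hv t, Chd_eval, vG t, map_zero])
    (Chd_deggen (O := OO π) (Ideal.primeCompl (Ideal.span {π} : Ideal RR))
      (Ideal.primeCompl_le_nonZeroDivisors _) huA huO φ hφ z (fun t => hz.co t 0) hgen)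
    (fun hlt => by rw [heq hlt, Chd_chart φ hφ]) s (φ J2)
    (by
      rw [← hv s]
      exact Chd_J3 φ hJ2)
  rw [← h1, ← OO_mult hπ hj2]
  refine (multiplicity_eq_of_associated_right ?_).symm
  have ht : IsUnit (algebraMap RR (OO π) t2) := by
    refine (OO_unit _).2 fun hd => ht2 ?_
    exact Ideal.mem_of_dvd _ hd hm
  obtain ⟨w, hw⟩ := ht
  refine ⟨w, ?_⟩
  rw [hw, ← hφ t2, ← map_mul, he, hφ]

theorem chord_loss {I : Type} [Fintype I] (z : I → Fin 4 → ℂ) (hz : Geom z) {c d f f' : ℕ} {F G : BB}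
    (h : Glob z c d f f' F G) (J : I → RR) (hJ : ∀ s, IsJac 0 F G (z s) (J s)) (hJ0 : ∀ s, J s ≠ 0)
    (T : Finset RR) (hT : PSet T) (hcov : ∀ s q, Prime q → q ∣ J s → ∃ π ∈ T, Associated q π)
    {s s' : I} (hss : s ≠ s') :
    2 ≤ ∑ π ∈ T, multiplicity π (J s) * ordL (z s) (z s') π := by
  have h1 := Chd_j3 z hz h J hJ s s'
  have hu : IsUnit (algebraMap RR (AL (z s) (z s')) (X 0)) :=
    (AL_unit _ _ _).2 (X0_not_mem (hz.co s 0))
  have h2 := jac_sq (hz.co s) (hz.co s') (hz.ind s s' hss) (chart_homog _ 0 h.Fx)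
    (chart_homog _ 0 h.Gx)
    (vz_eval_zero _ 0 hu h.Fx h.FE (hz.co s 0) (h.Fz s))
    (vz_eval_zero _ 0 hu h.Fx h.FE (hz.co s' 0) (h.Fz s'))
    (vz_eval_zero _ 0 hu h.Gx h.GE (hz.co s 0) (h.Gz s))
    (vz_eval_zero _ 0 hu h.Gx h.GE (hz.co s' 0) (h.Gz s')) h1
  have hκ : z s 0 ^ 3 / z s 0 ^ (c + d) ≠ 0 :=
    div_ne_zero (pow_ne_zero _ (hz.co s 0)) (pow_ne_zero _ (hz.co s 0))
  have hX : (X 0 : RR) ≠ 0 := X_ne_zero 0
  have hCκ : (C (z s 0 ^ 3 / z s 0 ^ (c + d)) : RR) ≠ 0 := by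
    rw [Ne, MvPolynomial.C_eq_zero]
    exact hκ
  have h3 := Chd_sq (mul_ne_zero (mul_ne_zero (hJ0 s) hX) hCκ) h2
  rw [ordL_mul _ _ (mul_ne_zero (hJ0 s) hX) hCκ, ordL_mul _ _ (hJ0 s) hX, Chd_C _ _ hκ,
    Chd_zero (X0_not_mem (hz.co s 0)), add_zero, add_zero,
    Chd_fac hT (hJ0 s) (hcov s)] at h3
  exact h3

theorem chord {I : Type} [Fintype I] [DecidableEq I] (z : I → Fin 4 → ℂ) (hz : Geom z)
    {c d f f' : ℕ} {F G : BB} (h : Glob z c d f f' F G) (J : I → RR)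
    (hJ : ∀ s, IsJac 0 F G (z s) (J s)) (om : RR → I → ℕ) (jj g n : RR → ℕ) (lam : RR → ℕ → ℕ)
    (ho : GlobOut z c d F G J om jj g n lam)
    (T : Finset RR) (hT : PSet T) (hTh : ∀ π ∈ T, ∃ δ, π.IsHomogeneous δ)
    (hcov : ∀ s q, Prime q → q ∣ J s → ∃ π ∈ T, Associated q π)
    {s s' : I} (hss : s ≠ s')
    (hl : c < d → map (IsLocalRing.residue (AL (z s) (z s'))) (chartH (AL (z s) (z s')) 0 F) ≠ 0) :
    2 ≤ ∑ π ∈ T, om π s * ordL (z s) (z s') π := by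
  obtain ⟨F2, G2, hF2, hG2, vF, vG, hgen, heq⟩ := good_pair z hz h hss hl
  have hdom : IsDomain (AL (z s) (z s')) := AL_domain _ _
  have hinj := AL_injective (z s) (z s')
  have hu : IsUnit (algebraMap RR (AL (z s) (z s')) (X 0)) :=
    (AL_unit _ _ _).2 (X0_not_mem (hz.co s 0))
  have hJ0 : J s ≠ 0 := (ho.po (X 0) MvPolynomial.X_prime ⟨1, isHomogeneous_X ℂ 0⟩).ne s
  have hκ : z s 0 ^ 3 / z s 0 ^ (c + d) ≠ 0 :=
    div_ne_zero (pow_ne_zero _ (hz.co s 0)) (pow_ne_zero _ (hz.co s 0))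
  have hX : (X 0 : RR) ≠ 0 := X_ne_zero 0
  have hCκ : (C (z s 0 ^ 3 / z s 0 ^ (c + d)) : RR) ≠ 0 := by
    rw [Ne, MvPolynomial.C_eq_zero]
    exact hκ
  have hne : J s * X 0 * C (z s 0 ^ 3 / z s 0 ^ (c + d)) ≠ 0 :=
    mul_ne_zero (mul_ne_zero hJ0 hX) hCκ
  have hun := Chd_unit (hz.co s) (hz.co s') (hz.ind s s' hss)
  have hv0 : vz (AL (z s) (z s')) 0 (z s) ≠ 0 := by
    obtain ⟨l, hl⟩ := hun
    intro h0
    rw [h0] at hl
    exact not_isUnit_zero hl
  obtain ⟨J2, hJ2⟩ := exists_J3 hF2 hG2 hun (vF s) (vG s)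
  have hJ2m := jac_sq (hz.co s) (hz.co s') (hz.ind s s' hss) hF2 hG2 (vF s) (vF s') (vG s)
    (vG s') hJ2
  obtain ⟨α, hα⟩ := Chd_trans h.cd (fun t => vz (AL (z s) (z s')) 0 (z t))
    (chart_homog _ 0 h.Fx) (chart_homog _ 0 h.Gx)
    (fun t => vz_eval_zero _ 0 hu h.Fx h.FE (hz.co t 0) (h.Fz t))
    (fun t => vz_eval_zero _ 0 hu h.Gx h.GE (hz.co t 0) (h.Gz t)) hgen heq
  have hJeq := unique_J3 hv0 (Chd_j3 z hz h J hJ s s') (trans_J hα (vF s) (vG s) hJ2)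
  obtain ⟨⟨j2, t2⟩, h2⟩ := IsLocalization.surj (pL (z s) (z s')).primeCompl J2
  obtain ⟨⟨a0, t0⟩, h3⟩ := IsLocalization.surj (pL (z s) (z s')).primeCompl α
  simp only at h2 h3
  have ht2 : (t2 : RR) ∉ pL (z s) (z s') := t2.2
  have ht0 : (t0 : RR) ∉ pL (z s) (z s') := t0.2
  have hss2 : ((t0 : RR) * (t2 : RR)) * (J s * X 0 * C (z s 0 ^ 3 / z s 0 ^ (c + d))) = a0 * j2 := by
    apply hinj
    rw [map_mul, map_mul, hJeq, map_mul, ← h2, ← h3]
    ring
  have ht20 : (t2 : RR) ≠ 0 := by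
    intro h0
    rw [h0] at ht2
    exact ht2 (zero_mem _)
  have ht00 : (t0 : RR) ≠ 0 := by
    intro h0
    rw [h0] at ht0
    exact ht0 (zero_mem _)
  have hj2 : j2 ≠ 0 := by
    rintro rfl
    rw [mul_zero] at hss2
    exact mul_ne_zero (mul_ne_zero ht00 ht20) hne hss2
  have hord : 2 ≤ ordL (z s) (z s') j2 := by
    refine Chd_sq hj2 ?_
    rw [← h2]
    exact Ideal.mul_mem_right _ _ hJ2m
  obtain ⟨T', hTT, hT', hT'd, hT'c⟩ := exists_primes T hT hj2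
  rw [Chd_fac hT' hj2 hT'c] at hord
  have key : ∀ π ∈ T', 1 ≤ ordL (z s) (z s') π → π ∈ T ∧ multiplicity π j2 = om π s := by
    intro π hπ ho1
    have hpr := hT'.1 π hπ
    have hm : π ∈ pL (z s) (z s') := (pL_iff _ _ _).2 (Or.inr ho1)
    have hX0 : ¬ π ∣ X 0 := fun hd => X0_not_mem (hz.co s 0) (Ideal.mem_of_dvd _ hd hm)
    have hT0 : π ∈ T := by
      by_contra hcon
      have hd : π ∣ a0 * j2 := (hT'd π hπ hcon).mul_left a0
      rw [← hss2] at hd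
      rcases hpr.dvd_or_dvd hd with hd | hd
      · rcases hpr.dvd_or_dvd hd with hd | hd
        · exact ht0 (Ideal.mem_of_dvd _ hd hm)
        · exact ht2 (Ideal.mem_of_dvd _ hd hm)
      · rcases hpr.dvd_or_dvd hd with hd | hd
        · rcases hpr.dvd_or_dvd hd with hd | hd
          · obtain ⟨π1, h4, h5⟩ := hcov s π hpr hd
            have h6 := hT'.2 π hπ π1 (hTT h4) h5
            rw [h6] at hcon
            exact hcon h4
          · exact hX0 hd
        · exact hpr.not_isUnit (isUnit_of_dvd_unit hd ((IsUnit.mk0 _ hκ).map C))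
    refine ⟨hT0, ?_⟩
    exact Chd_mult z hz hpr hX0 (ho.uq π hpr (hTh π hT0) hX0) hm hF2 hG2 vF vG hgen heq hJ2 hj2
      ht2 h2
  refine hord.trans (le_of_eq ?_)
  have h4 : ∑ π ∈ T, om π s * ordL (z s) (z s') π =
      ∑ π ∈ T, multiplicity π j2 * ordL (z s) (z s') π := by
    refine Finset.sum_congr rfl fun π hπ => ?_
    rcases Nat.eq_zero_or_pos (ordL (z s) (z s') π) with h0 | h0
    · rw [h0, mul_zero, mul_zero]
    · rw [(key π (hTT hπ) h0).2]
  rw [h4]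
  refine (Finset.sum_subset hTT fun π hπ hπT => ?_).symm
  rcases Nat.eq_zero_or_pos (ordL (z s) (z s') π) with h0 | h0
  · rw [h0, mul_zero]
  · exact absurd (key π hπ h0).1 hπT

end GP80
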