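import Mathlib

/-! Combinatorial data extracted from a geproci set near a grid (MP_87ed0a_GP, COMB block). -/

namespace GP80

open Finset

/-- the data: `P` indexes the prime divisors (surfaces), `dl` degrees, `vt` vertices among the points -/
structure CombD (a b c d : ℕ) {P : Type} [Fintype P] (dl g n jj : P → ℕ) (lam : P → ℕ → ℕ)
    (om : P → Fin a × Fin b → ℕ) (vt : P → Finset (Fin a × Fin b))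
    (oL : P → (Fin a × Fin b) → (Fin a × Fin b) → ℕ) (eF : ℕ) : Prop where
  a2 : 2 ≤ a
  ac : a < c
  cd : c ≤ d
  db : d < b
  N : c * d = a * b
  dl1 : ∀ p, 1 ≤ dl p
  nv : ∀ p s, s ∉ vt p → om p s = g p
  gn : ∀ p, g p ≤ n p
  tail : ∀ p, g p < n p → lam p (g p + 1) * (c + d - lam p (g p + 1)) ≤ (vt p).card
  omn : ∀ p s, om p s ≤ n p
  sum : ∀ p, ∑ i ∈ Icc 1 (n p), lam p i * (c + d - lam p i) ≤ ∑ s, om p s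
  pos : ∀ p i, 1 ≤ i → i ≤ n p → 1 ≤ lam p i
  up : ∀ p i, 1 ≤ i → lam p i < c
  anti : ∀ p i j, 1 ≤ i → i ≤ j → lam p j ≤ lam p i
  G1 : ∀ s, ∑ p, dl p * om p s + 1 = c + d + ∑ p, dl p * g p
  star : c * (c - 1) * ∑ p, dl p * g p + (d - c) * (c + d - 1) * eF ≤
    ∑ p, dl p * ∑ i ∈ Icc 1 (n p), lam p i * (lam p i - 1)
  loss : (∀ p, jj p = 0) ∨ (d = c + 1 ∧ ∑ p, dl p * jj p + 1 + ∑ p, dl p * g p ≤ 2 * eF)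
  chord : ∀ s s', s.1 ≠ s'.1 → s.2 ≠ s'.2 → 2 ≤ ∑ p, (om p s + jj p) * oL p s s'
  surf : ∀ p, ∑ s, ∑ s', (if s.1 ≠ s'.1 ∧ s.2 ≠ s'.2 then oL p s s' else 0) ≤ (a - 1) * (a * b) * dl p
  plane : ∀ p, dl p = 1 → (∃ l j, ∀ s ∈ vt p, s.1 = l ∨ s.2 = j) ∨
    (∀ s ∈ vt p, ∀ s' ∈ vt p, s ≠ s' → s.1 ≠ s'.1 ∧ s.2 ≠ s'.2)
  oLp : ∀ p, dl p = 1 → ∀ s s', s.1 ≠ s'.1 → s.2 ≠ s'.2 →
    oL p s s' = if s ∈ vt p ∧ s' ∈ vt p then 1 else 0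
  nonpl : ∀ p, dl p ≠ 1 → (vt p).card ≤ 1
  two : ∀ p p', dl p = 1 → dl p' = 1 → p ≠ p' → ∀ s s' s'', s.1 ≠ s'.1 → s.2 ≠ s'.2 → s'' ≠ s →
    s'' ≠ s' → ¬ (s ∈ vt p ∧ s' ∈ vt p ∧ s'' ∈ vt p ∧ s ∈ vt p' ∧ s' ∈ vt p' ∧ s'' ∈ vt p')

/-- `H = ∑_{i ≤ g} (c - lam i)(d - lam i)` -/
def HHz (c d g : ℕ) (lam : ℕ → ℕ) : ℤ := ∑ i ∈ Icc 1 g, ((c : ℤ) - lam i) * ((d : ℤ) - lam i)

/-- `X = ∑_{g < i ≤ n} (lam i - 1)(c + d - 1 - lam i)` -/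
def XXz (c d g n : ℕ) (lam : ℕ → ℕ) : ℤ :=
  ∑ i ∈ Ioc g n, ((lam i : ℤ) - 1) * ((c : ℤ) + d - 1 - lam i)

end GP80
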