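import Mathlib
import Pool.Agent.H80.GP.Cmd

/-!
# Row Cm1 (MP_87ed0a_GP): pairs in a plane  (about 130 lines)

`p` a plane (`dl p = 1`), write `o s = om p s ≤ n = n p`, `S = vt p`.  By `oLp` the sum is `∑_{s ∈ S} o s * part(s)`, `part(s)` = number of `s' ∈ S` with `s.1 ≠ s'.1`, `s.2 ≠ s'.2`.
* Second alternative of `plane` (transversal): the first coordinates of the elements of `S` are distinct, so `card S ≤ a`, `part(s) ≤ card S - 1 ≤ a - 1`.  Sum `≤ (a - 1) ∑_{s ∈ S} o s`.
* First alternative with `(l, j)`.  If `s.1 = l`, `s.2 ≠ j`: a partner `s'` has `s'.1 ≠ l`, so `s'.2 = j`: `s' = (k, j)`, `k ≠ l`: `part(s) ≤ a - 1`.  If `s.1 ≠ l`, `s.2 = j`: partners `(l, m)`, `m ≠ j`: `part(s) ≤ b - 1 = (a - 1) + (b - a)`.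
  If `s = (l, j)`: a partner has neither `s'.1 = l` nor `s'.2 = j`: none.  The number of `s ∈ S` with `s.1 ≠ l`, `s.2 = j` is `≤ a - 1` and `o s ≤ n`:
  sum `≤ (a-1) ∑_{s ∈ S} o s + (b - a) (a - 1) n`.
-/

namespace GP80

open Finset

private theorem Cm1_card1 {a b : ℕ} (S : Finset (Fin a × Fin b)) (l : Fin a) (j : Fin b)
    (hS : ∀ s ∈ S, s.1 ≠ l ∧ s.2 = j) : S.card ≤ a - 1 := by
  classical
  have h1 : S.card ≤ ((univ : Finset (Fin a)).erase l).card := by
    refine Finset.card_le_card_of_injOn Prod.fst ?_ ?_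
    · intro s hs
      exact Finset.mem_coe.2 (Finset.mem_erase.2 ⟨(hS s hs).1, Finset.mem_univ _⟩)
    · intro s hs s' hs' h
      exact Prod.ext h ((hS s hs).2.trans (hS s' hs').2.symm)
  rwa [Finset.card_erase_of_mem (Finset.mem_univ _), Finset.card_univ, Fintype.card_fin] at h1

private theorem Cm1_card2 {a b : ℕ} (S : Finset (Fin a × Fin b)) (l : Fin a) (j : Fin b)
    (hS : ∀ s ∈ S, s.1 = l ∧ s.2 ≠ j) : S.card ≤ b - 1 := by
  classical
  have h1 : S.card ≤ ((univ : Finset (Fin b)).erase j).card := by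
    refine Finset.card_le_card_of_injOn Prod.snd ?_ ?_
    · intro s hs
      exact Finset.mem_coe.2 (Finset.mem_erase.2 ⟨(hS s hs).2, Finset.mem_univ _⟩)
    · intro s hs s' hs' h
      exact Prod.ext ((hS s hs).1.trans (hS s' hs').1.symm) h
  rwa [Finset.card_erase_of_mem (Finset.mem_univ _), Finset.card_univ, Fintype.card_fin] at h1

theorem plane_pairs {a b c d : ℕ} {P : Type} [Fintype P] {dl g n jj : P → ℕ} {lam : P → ℕ → ℕ}
    {om : P → Fin a × Fin b → ℕ} {vt : P → Finset (Fin a × Fin b)}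
    {oL : P → (Fin a × Fin b) → (Fin a × Fin b) → ℕ} {eF : ℕ}
    (h : CombD a b c d dl g n jj lam om vt oL eF) (p : P) (hp : dl p = 1) :
    ∑ s, ∑ s', (if s.1 ≠ s'.1 ∧ s.2 ≠ s'.2 then om p s * oL p s s' else 0) ≤
      (a - 1) * (∑ s ∈ vt p, om p s + (b - a) * n p) := by
  classical
  have hab : a < b := lt_trans h.ac (lt_of_le_of_lt h.cd h.db)
  have hin : ∀ s, ∑ s', (if s.1 ≠ s'.1 ∧ s.2 ≠ s'.2 then om p s * oL p s s' else 0) =
      if s ∈ vt p then om p s * ((vt p).filter fun s' => s.1 ≠ s'.1 ∧ s.2 ≠ s'.2).card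
        else 0 := by
    intro s
    have h1 : ∀ s', (if s.1 ≠ s'.1 ∧ s.2 ≠ s'.2 then om p s * oL p s s' else 0) =
        if s ∈ vt p then (if s' ∈ vt p ∧ (s.1 ≠ s'.1 ∧ s.2 ≠ s'.2) then om p s else 0)
          else 0 := by
      intro s'
      by_cases h2 : s.1 ≠ s'.1 ∧ s.2 ≠ s'.2
      · rw [if_pos h2, h.oLp p hp s s' h2.1 h2.2]
        by_cases h3 : s ∈ vt p
        · rw [if_pos h3]
          by_cases h4 : s' ∈ vt p
          · rw [if_pos ⟨h3, h4⟩, if_pos ⟨h4, h2⟩, mul_one]
          · rw [if_neg (fun hh => h4 hh.2), if_neg (fun hh => h4 hh.1), mul_zero]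
        · rw [if_neg h3, if_neg (fun hh => h3 hh.1), mul_zero]
      · rw [if_neg h2]
        by_cases h3 : s ∈ vt p
        · rw [if_pos h3, if_neg (fun hh => h2 hh.2)]
        · rw [if_neg h3]
    rw [Finset.sum_congr rfl (fun s' _ => h1 s')]
    by_cases h3 : s ∈ vt p
    · simp only [if_pos h3]
      rw [← Finset.sum_filter, Finset.sum_const, smul_eq_mul, mul_comm]
      congr 2
      ext s'
      simp only [Finset.mem_filter, Finset.mem_univ, true_and]
    · simp only [if_neg h3, Finset.sum_const_zero]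
  rw [Finset.sum_congr rfl (fun s _ => hin s), ← Finset.sum_filter, Finset.filter_mem_eq_inter,
    Finset.univ_inter]
  rcases h.plane p hp with ⟨l, j, hlj⟩ | htr
  · -- first alternative
    have hpt : ∀ s ∈ vt p, om p s * ((vt p).filter fun s' => s.1 ≠ s'.1 ∧ s.2 ≠ s'.2).card ≤
        (a - 1) * om p s + (b - a) * (if s.1 ≠ l ∧ s.2 = j then n p else 0) := by
      intro s hs
      by_cases h1 : s.1 = l
      · have hcard : ((vt p).filter fun s' => s.1 ≠ s'.1 ∧ s.2 ≠ s'.2).card ≤ a - 1 := by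
          refine Cm1_card1 _ l j ?_
          intro s' hs'
          obtain ⟨h2, h3, h4⟩ := Finset.mem_filter.1 hs'
          have h5 : s'.1 ≠ l := by
            rw [← h1]
            exact Ne.symm h3
          exact ⟨h5, (hlj s' h2).resolve_left h5⟩
        calc om p s * ((vt p).filter fun s' => s.1 ≠ s'.1 ∧ s.2 ≠ s'.2).card
            ≤ om p s * (a - 1) := Nat.mul_le_mul_left _ hcard
          _ = (a - 1) * om p s := mul_comm _ _
          _ ≤ _ := Nat.le_add_right _ _
      · have h2 : s.2 = j := (hlj s hs).resolve_left h1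
        have hcard : ((vt p).filter fun s' => s.1 ≠ s'.1 ∧ s.2 ≠ s'.2).card ≤ b - 1 := by
          refine Cm1_card2 _ l j ?_
          intro s' hs'
          obtain ⟨h3, h4, h5⟩ := Finset.mem_filter.1 hs'
          have h6 : s'.2 ≠ j := by
            rw [← h2]
            exact Ne.symm h5
          exact ⟨(hlj s' h3).resolve_right h6, h6⟩
        rw [if_pos ⟨h1, h2⟩]
        have h3 : b - 1 = (a - 1) + (b - a) := by
          have := h.a2
          omega
        calc om p s * ((vt p).filter fun s' => s.1 ≠ s'.1 ∧ s.2 ≠ s'.2).card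
            ≤ om p s * (b - 1) := Nat.mul_le_mul_left _ hcard
          _ = (a - 1) * om p s + (b - a) * om p s := by
              rw [h3]
              ring
          _ ≤ _ := Nat.add_le_add_left (Nat.mul_le_mul_left _ (h.omn p s)) _
    refine (Finset.sum_le_sum hpt).trans ?_
    rw [Finset.sum_add_distrib, ← Finset.mul_sum, ← Finset.mul_sum, mul_add]
    refine Nat.add_le_add_left ?_ _
    rw [← Finset.sum_filter, Finset.sum_const, smul_eq_mul]
    have hcard : ((vt p).filter fun s => s.1 ≠ l ∧ s.2 = j).card ≤ a - 1 :=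
      Cm1_card1 _ l j fun s hs => (Finset.mem_filter.1 hs).2
    calc (b - a) * (((vt p).filter fun s => s.1 ≠ l ∧ s.2 = j).card * n p)
        ≤ (b - a) * ((a - 1) * n p) := Nat.mul_le_mul_left _ (Nat.mul_le_mul_right _ hcard)
      _ = (a - 1) * ((b - a) * n p) := by ring
  · -- transversal
    have hcS : (vt p).card ≤ a := by
      have h1 : (vt p).card ≤ (univ : Finset (Fin a)).card := by
        refine Finset.card_le_card_of_injOn Prod.fst (fun s _ => Finset.mem_coe.2 (mem_univ _)) ?_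
        intro s hs s' hs' heq
        by_contra hne
        exact (htr s hs s' hs' hne).1 heq
      rwa [Finset.card_univ, Fintype.card_fin] at h1
    have hpt : ∀ s ∈ vt p, om p s * ((vt p).filter fun s' => s.1 ≠ s'.1 ∧ s.2 ≠ s'.2).card ≤
        (a - 1) * om p s := by
      intro s hs
      have h1 : ((vt p).filter fun s' => s.1 ≠ s'.1 ∧ s.2 ≠ s'.2) ⊆ (vt p).erase s := by
        intro s' hs'
        obtain ⟨h2, h3, -⟩ := Finset.mem_filter.1 hs'
        refine Finset.mem_erase.2 ⟨?_, h2⟩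
        rintro rfl
        exact h3 rfl
      have h2 := Finset.card_le_card h1
      rw [Finset.card_erase_of_mem hs] at h2
      rw [mul_comm]
      exact Nat.mul_le_mul_right _ (by omega)
    refine (Finset.sum_le_sum hpt).trans ?_
    rw [← Finset.mul_sum]
    exact Nat.mul_le_mul_left _ (Nat.le_add_right _ _)

end GP80
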