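import Mathlib
import Pool.Agent.H80.GP.Cmd

/-!
# Row Cm2 (MP_87ed0a_GP): weight inequality, nonplanes  (about 120 lines)

* `nonplane_n`: if `dl p ≠ 1` then `n p = g p`: otherwise `tail` gives `m * (c + d - m) ≤ card ≤ 1` with `1 ≤ m = lam p (g p + 1) < c`, but `m (c + d - m) ≥ c + d - 1 ≥ 2` (for `1 ≤ m ≤ c + d - 1`).
* `card_vt`: `card (vt p) ≤ a + b - 1` for planes: first alternative: subset of a row and a column sharing one point (`a + b - 1` points); second: `card ≤ a`.
* `weight_ineq` (all `p`): `∑_s om p s = ∑_{s ∈ vt p} om p s + (a b - card (vt p)) g p` (`nv`), and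
  `∑_{i=1}^n lam i (c + d - lam i) = ∑_{i ≤ g} (c d - (c - lam i)(d - lam i)) + ∑_{g < i ≤ n} ((c + d - 1) + (lam i - 1)(c + d - 1 - lam i))` `= g a b - HH + (n - g)(c + d - 1) + XX`.
-/

namespace GP80

open Finset

theorem nonplane_n {a b c d : ℕ} {P : Type} [Fintype P] {dl g n jj : P → ℕ} {lam : P → ℕ → ℕ}
    {om : P → Fin a × Fin b → ℕ} {vt : P → Finset (Fin a × Fin b)}
    {oL : P → (Fin a × Fin b) → (Fin a × Fin b) → ℕ} {eF : ℕ}
    (h : CombD a b c d dl g n jj lam om vt oL eF) (p : P) (hp : dl p ≠ 1) : n p = g p := by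
  by_contra hne
  have hlt : g p < n p := lt_of_le_of_ne (h.gn p) (fun e => hne e.symm)
  have h1 := h.tail p hlt
  have h2 := h.nonpl p hp
  have h3 := h.pos p (g p + 1) (by omega) (by omega)
  have h4 := h.up p (g p + 1) (by omega)
  have h5 := h.cd
  have h6 := h.a2
  have h7 := h.ac
  have h8 : 2 ≤ c + d - lam p (g p + 1) := by omega
  have h9 : 1 * 2 ≤ lam p (g p + 1) * (c + d - lam p (g p + 1)) := Nat.mul_le_mul h3 h8
  omega

theorem card_vt {a b c d : ℕ} {P : Type} [Fintype P] {dl g n jj : P → ℕ} {lam : P → ℕ → ℕ}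
    {om : P → Fin a × Fin b → ℕ} {vt : P → Finset (Fin a × Fin b)}
    {oL : P → (Fin a × Fin b) → (Fin a × Fin b) → ℕ} {eF : ℕ}
    (h : CombD a b c d dl g n jj lam om vt oL eF) (p : P) (hp : dl p = 1) :
    (vt p).card ≤ a + b - 1 := by
  classical
  have ha := h.a2
  have hac := h.ac
  have hcd := h.cd
  have hdb := h.db
  rcases h.plane p hp with ⟨l, j, hlj⟩ | hinj
  · have hsub : vt p ⊆ (univ : Finset (Fin b)).image (fun y => (l, y)) ∪
        ((univ : Finset (Fin a)).erase l).image (fun x => (x, j)) := by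
      intro s hs
      rw [mem_union, mem_image, mem_image]
      by_cases h1 : s.1 = l
      · left
        exact ⟨s.2, mem_univ _, by rw [← h1]⟩
      · right
        rcases hlj s hs with h2 | h2
        · exact absurd h2 h1
        · exact ⟨s.1, mem_erase.2 ⟨h1, mem_univ _⟩, by rw [← h2]⟩
    have h1 := card_le_card hsub
    have h2 := card_union_le ((univ : Finset (Fin b)).image (fun y => (l, y)))
      (((univ : Finset (Fin a)).erase l).image (fun x => (x, j)))
    have h3 : ((univ : Finset (Fin b)).image (fun y => (l, y))).card ≤ b := by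
      refine le_trans card_image_le ?_
      rw [card_univ, Fintype.card_fin]
    have h4 : (((univ : Finset (Fin a)).erase l).image (fun x => (x, j))).card ≤ a - 1 := by
      refine le_trans card_image_le ?_
      rw [card_erase_of_mem (mem_univ _), card_univ, Fintype.card_fin]
    omega
  · have h1 : (vt p).card ≤ (univ : Finset (Fin a)).card := by
      refine card_le_card_of_injOn Prod.fst (fun _ _ => mem_coe.2 (mem_univ _)) ?_
      intro s hs s' hs' he
      by_contra hne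
      exact (hinj s (mem_coe.1 hs) s' (mem_coe.1 hs') hne).1 he
    rw [card_univ, Fintype.card_fin] at h1
    omega

theorem weight_ineq {a b c d : ℕ} {P : Type} [Fintype P] {dl g n jj : P → ℕ} {lam : P → ℕ → ℕ}
    {om : P → Fin a × Fin b → ℕ} {vt : P → Finset (Fin a × Fin b)}
    {oL : P → (Fin a × Fin b) → (Fin a × Fin b) → ℕ} {eF : ℕ}
    (h : CombD a b c d dl g n jj lam om vt oL eF) (p : P) :
    (g p : ℤ) * (vt p).card - HHz c d (g p) (lam p) + ((n p : ℤ) - g p) * ((c : ℤ) + d - 1) +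
      XXz c d (g p) (n p) (lam p) ≤ ∑ s ∈ vt p, (om p s : ℤ) := by
  classical
  have hgn := h.gn p
  have hsum := h.sum p
  have e0 : ∀ m : ℕ, Icc 1 m = Ioc 0 m := by
    intro m
    ext i
    rw [mem_Icc, mem_Ioc]
    omega
  have hsplit : ∑ s, (om p s : ℤ) = ∑ s ∈ vt p, (om p s : ℤ) +
      ((a : ℤ) * b - (vt p).card) * g p := by
    rw [← sum_add_sum_compl (vt p)]
    congr 1
    rw [sum_congr rfl (fun s hs => by rw [h.nv p s (mem_compl.1 hs)] : ∀ s ∈ (vt p)ᶜ,
      (om p s : ℤ) = (g p : ℤ)), sum_const, card_compl, nsmul_eq_mul, Fintype.card_prod,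
      Fintype.card_fin, Fintype.card_fin, Nat.cast_sub, Nat.cast_mul]
    have h1 := card_le_univ (vt p)
    rw [Fintype.card_prod, Fintype.card_fin, Fintype.card_fin] at h1
    exact h1
  have hcast : ∀ i, 1 ≤ i → ((lam p i * (c + d - lam p i) : ℕ) : ℤ) =
      (lam p i : ℤ) * ((c : ℤ) + d - lam p i) := by
    intro i hi
    have h1 := h.up p i hi
    rw [Nat.cast_mul, Nat.cast_sub (by omega), Nat.cast_add]
  have hs2 : ∑ i ∈ Ioc 0 (n p), (lam p i : ℤ) * ((c : ℤ) + d - lam p i) ≤ ∑ s, (om p s : ℤ) := by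
    have h1 : ((∑ i ∈ Icc 1 (n p), lam p i * (c + d - lam p i) : ℕ) : ℤ) ≤
        ((∑ s, om p s : ℕ) : ℤ) := by exact_mod_cast hsum
    rw [Nat.cast_sum, Nat.cast_sum, e0] at h1
    rw [sum_congr rfl (fun i hi => hcast i (by
      rw [mem_Ioc] at hi
      omega))] at h1
    exact h1
  rw [← sum_Ioc_consecutive _ (Nat.zero_le (g p)) hgn] at hs2
  have hA : ∑ i ∈ Ioc 0 (g p), (lam p i : ℤ) * ((c : ℤ) + d - lam p i) =
      (g p : ℤ) * ((a : ℤ) * b) - HHz c d (g p) (lam p) := by
    have hN : (c : ℤ) * d = (a : ℤ) * b := by exact_mod_cast h.N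
    rw [HHz, e0, ← hN, eq_sub_iff_add_eq, ← sum_add_distrib,
      sum_congr rfl (fun i _ => by ring : ∀ i ∈ Ioc 0 (g p),
        (lam p i : ℤ) * ((c : ℤ) + d - lam p i) + ((c : ℤ) - lam p i) * ((d : ℤ) - lam p i) =
          (c : ℤ) * d), sum_const, Nat.card_Ioc, nsmul_eq_mul, Nat.sub_zero]
  have hB : ∑ i ∈ Ioc (g p) (n p), (lam p i : ℤ) * ((c : ℤ) + d - lam p i) =
      ((n p : ℤ) - g p) * ((c : ℤ) + d - 1) + XXz c d (g p) (n p) (lam p) := by
    rw [XXz, sum_congr rfl (fun i _ => by ring : ∀ i ∈ Ioc (g p) (n p),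
        (lam p i : ℤ) * ((c : ℤ) + d - lam p i) =
          ((c : ℤ) + d - 1) + ((lam p i : ℤ) - 1) * ((c : ℤ) + d - 1 - lam p i)),
      sum_add_distrib, sum_const, Nat.card_Ioc, nsmul_eq_mul, Nat.cast_sub hgn]
  rw [hA, hB, hsplit] at hs2
  linarith

end GP80
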