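import Mathlib
import Pool.Agent.H80.GP.Cmd
import Pool.Agent.H80.GP.Cm1
import Pool.Agent.H80.GP.Cm2

/-!
# Row Cm3 (MP_87ed0a_GP): the inequality (P)  (about 180 lines)

`N = a b`, `D0 = c + d - 1`, `pl` = the planes (`dl p = 1`), `np` = the others.  `T p = ∑_{s ∈ vt p} om p s`.  Work in `ℤ`.
1. Sum `chord` over the ordered generic pairs `(s, s')` (`s.1 ≠ s'.1`, `s.2 ≠ s'.2`; there are `a b (a-1)(b-1)` of them), exchange sums:
   `2 N (a-1)(b-1) ≤ ∑_p ∑_pairs om p s * oL + ∑_p jj p ∑_pairs oL`.  Planes: `plane_pairs`.  Nonplanes: `om p s ≤ n p = g p` (`nonplane_n`), `surf`: `≤ g p (a-1) N dl p`.  `jj`: `surf`.  Divide by `a - 1 ≥ 1`: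
   `2 N (b-1) ≤ ∑_pl (T p + (b-a) n p) + N ∑_np dl p g p + N ∑_p dl p jj p`.
2. Sum `G1` over the `N` points: `∑_p dl p ∑_s om p s = N D0 + N ∑_p dl p g p`.  Planes: `∑_s om p s = T p + (N - card vt) g p`.  Nonplanes: `∑_s om p s ≥ (N - 1) g p` (`nv`, `nonpl`).  Hence
   `∑_pl T p ≤ N D0 + ∑_pl card(vt p) g p + ∑_np dl p g p`.
3. `weight_ineq`: `D0 n p ≤ T p - g p card(vt p) + HH p + g p D0 - XX p`.
4. `D0` times 1., insert 3. multiplied by `(b - a) ≥ 0`, then 2. multiplied by `D0` and by `(b-a)`: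
   `2 N (b-1) D0 ≤ D0 ∑_pl T + (b-a) [∑_pl T - ∑_pl g card + ∑_pl HH + D0 ∑_pl g - ∑_pl XX] + N D0 ∑_np dl g + N D0 ∑ dl jj`
   `≤ D0 (N D0 + ∑_pl card g + ∑_np dl g) + (b-a)(N D0 + ∑_np dl g) + (b-a)(∑_pl HH + D0 ∑_pl g - ∑_pl XX) + N D0 ∑_np dl g + N D0 ∑ dl jj`,
   which is the claim, since `2(b-1) - D0 - (b-a) = a + b - c - d - 1`.
-/

namespace GP80

open Finset

theorem Cm3_count {a b : ℕ} (s : Fin a × Fin b) :
    (univ.filter (fun s' : Fin a × Fin b => s.1 ≠ s'.1 ∧ s.2 ≠ s'.2)).card =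
      (a - 1) * (b - 1) := by
  have h : univ.filter (fun s' : Fin a × Fin b => s.1 ≠ s'.1 ∧ s.2 ≠ s'.2) =
      (univ.erase s.1) ×ˢ (univ.erase s.2) := by
    ext ⟨x, y⟩
    simp only [mem_filter, mem_univ, true_and, mem_product, mem_erase, and_true]
    constructor
    · rintro ⟨h1, h2⟩
      exact ⟨fun e => h1 e.symm, fun e => h2 e.symm⟩
    · rintro ⟨h1, h2⟩
      exact ⟨fun e => h1 e.symm, fun e => h2 e.symm⟩
  rw [h, card_product, card_erase_of_mem (mem_univ _), card_erase_of_mem (mem_univ _),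
    card_univ, card_univ, Fintype.card_fin, Fintype.card_fin]

theorem Cm3_swap {α P : Type} [Fintype α] [Fintype P] (R : α → α → Prop)
    [∀ s s', Decidable (R s s')] (F : P → α → α → ℕ) :
    ∑ s, ∑ s', (if R s s' then ∑ p, F p s s' else 0) =
      ∑ p, ∑ s, ∑ s', (if R s s' then F p s s' else 0) := by
  symm
  rw [Finset.sum_comm]
  refine sum_congr rfl fun s _ => ?_
  rw [Finset.sum_comm]
  refine sum_congr rfl fun s' _ => ?_
  split_ifs with h
  · rfl
  · exact sum_const_zero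

theorem Cm3_split {α : Type} [Fintype α] (R : α → α → Prop)
    [∀ s s', Decidable (R s s')] (o : α → ℕ) (j : ℕ) (F : α → α → ℕ) :
    ∑ s, ∑ s', (if R s s' then (o s + j) * F s s' else 0) =
      ∑ s, ∑ s', (if R s s' then o s * F s s' else 0) +
        j * ∑ s, ∑ s', (if R s s' then F s s' else 0) := by
  rw [mul_sum, ← sum_add_distrib]
  refine sum_congr rfl fun s _ => ?_
  rw [mul_sum, ← sum_add_distrib]
  refine sum_congr rfl fun s' _ => ?_
  split_ifs with h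
  · ring
  · simp

theorem Cm3_bd {α : Type} [Fintype α] (R : α → α → Prop)
    [∀ s s', Decidable (R s s')] (o : α → ℕ) (j : ℕ) (ho : ∀ s, o s ≤ j) (F : α → α → ℕ) :
    ∑ s, ∑ s', (if R s s' then o s * F s s' else 0) ≤
        j * ∑ s, ∑ s', (if R s s' then F s s' else 0) := by
  rw [mul_sum]
  refine sum_le_sum fun s _ => ?_
  rw [mul_sum]
  refine sum_le_sum fun s' _ => ?_
  split_ifs with h
  · exact Nat.mul_le_mul_right _ (ho s)
  · simp

theorem Cm3_one {a b c d : ℕ} {P : Type} [Fintype P] {dl g n jj : P → ℕ} {lam : P → ℕ → ℕ}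
    {om : P → Fin a × Fin b → ℕ} {vt : P → Finset (Fin a × Fin b)}
    {oL : P → (Fin a × Fin b) → (Fin a × Fin b) → ℕ} {eF : ℕ}
    (h : CombD a b c d dl g n jj lam om vt oL eF) :
    2 * (a * b) * (b - 1) ≤
      (∑ p ∈ univ.filter (fun p => dl p = 1), (∑ s ∈ vt p, om p s + (b - a) * n p)) +
      (a * b) * ∑ p ∈ univ.filter (fun p => ¬ dl p = 1), dl p * g p +
      (a * b) * ∑ p, dl p * jj p := by
  have h1 : ∑ s : Fin a × Fin b, ∑ s' : Fin a × Fin b,
      (if s.1 ≠ s'.1 ∧ s.2 ≠ s'.2 then 2 else 0) ≤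
      ∑ s : Fin a × Fin b, ∑ s' : Fin a × Fin b,
        (if s.1 ≠ s'.1 ∧ s.2 ≠ s'.2 then ∑ p, (om p s + jj p) * oL p s s' else 0) := by
    refine sum_le_sum fun s _ => sum_le_sum fun s' _ => ?_
    split_ifs with hh
    · exact h.chord s s' hh.1 hh.2
    · exact le_rfl
  have h2 : ∑ s : Fin a × Fin b, ∑ s' : Fin a × Fin b,
      (if s.1 ≠ s'.1 ∧ s.2 ≠ s'.2 then 2 else 0) = (a - 1) * (2 * (a * b) * (b - 1)) := by
    have h3 : ∀ s : Fin a × Fin b, ∑ s' : Fin a × Fin b,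
      (if s.1 ≠ s'.1 ∧ s.2 ≠ s'.2 then 2 else 0) = ((a - 1) * (b - 1)) * 2 := by
      intro s
      rw [← sum_filter, sum_const, Cm3_count, smul_eq_mul]
    rw [sum_congr rfl fun s _ => h3 s, sum_const, card_univ, Fintype.card_prod, Fintype.card_fin,
      Fintype.card_fin, smul_eq_mul]
    ring
  rw [h2, Cm3_swap (fun s s' : Fin a × Fin b => s.1 ≠ s'.1 ∧ s.2 ≠ s'.2)
    (fun p s s' => (om p s + jj p) * oL p s s')] at h1
  have h4 : ∀ p ∈ (univ : Finset P), ∑ s : Fin a × Fin b, ∑ s' : Fin a × Fin b,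
      (if s.1 ≠ s'.1 ∧ s.2 ≠ s'.2 then (om p s + jj p) * oL p s s' else 0) ≤
      (a - 1) * ((if dl p = 1 then (∑ s ∈ vt p, om p s + (b - a) * n p) else
        (a * b) * (dl p * g p)) + (a * b) * (dl p * jj p)) := by
    intro p _
    rw [Cm3_split (fun s s' : Fin a × Fin b => s.1 ≠ s'.1 ∧ s.2 ≠ s'.2), mul_add]
    refine add_le_add ?_ ?_
    · split_ifs with hp
      · exact plane_pairs h p hp
      · refine (Cm3_bd (fun s s' : Fin a × Fin b => s.1 ≠ s'.1 ∧ s.2 ≠ s'.2) (om p) (g p)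
          (fun s => (h.omn p s).trans (nonplane_n h p hp).le) (oL p)).trans ?_
        calc g p * _ ≤ g p * ((a - 1) * (a * b) * dl p) := Nat.mul_le_mul_left _ (h.surf p)
          _ = _ := by ring
    · calc jj p * _ ≤ jj p * ((a - 1) * (a * b) * dl p) := Nat.mul_le_mul_left _ (h.surf p)
        _ = _ := by ring
  have h5 := h1.trans (sum_le_sum h4)
  rw [← mul_sum] at h5
  have ha := h.a2
  have h6 := Nat.le_of_mul_le_mul_left h5 (by omega)
  rwa [sum_add_distrib, sum_ite, ← mul_sum, ← mul_sum] at h6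

theorem Cm3_two {a b c d : ℕ} {P : Type} [Fintype P] {dl g n jj : P → ℕ} {lam : P → ℕ → ℕ}
    {om : P → Fin a × Fin b → ℕ} {vt : P → Finset (Fin a × Fin b)}
    {oL : P → (Fin a × Fin b) → (Fin a × Fin b) → ℕ} {eF : ℕ}
    (h : CombD a b c d dl g n jj lam om vt oL eF) :
    ∑ p ∈ univ.filter (fun p => dl p = 1), ∑ s ∈ vt p, (om p s : ℤ) ≤
      ((a : ℤ) * b) * (c + d - 1) +
      ∑ p ∈ univ.filter (fun p => dl p = 1), (g p : ℤ) * (vt p).card +
      ∑ p ∈ univ.filter (fun p => ¬ dl p = 1), (dl p : ℤ) * g p := by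
  have h1 : ∑ s : Fin a × Fin b, (∑ p, (dl p : ℤ) * om p s + 1) =
      ∑ s : Fin a × Fin b, ((c : ℤ) + d + ∑ p, (dl p : ℤ) * g p) := by
    refine sum_congr rfl fun s _ => ?_
    have h2 := h.G1 s
    exact_mod_cast h2
  rw [sum_add_distrib, sum_const, sum_const, card_univ, Fintype.card_prod, Fintype.card_fin,
    Fintype.card_fin, Finset.sum_comm] at h1
  have h2 : ∀ p, ∑ s, (om p s : ℤ) =
      ∑ s ∈ vt p, (om p s : ℤ) + ((a : ℤ) * b - (vt p).card) * g p := by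
    intro p
    rw [← Finset.sum_add_sum_compl (vt p)]
    congr 1
    have h3 : ∑ s ∈ (vt p)ᶜ, (om p s : ℤ) = ∑ s ∈ (vt p)ᶜ, (g p : ℤ) := by
      refine sum_congr rfl fun s hs => ?_
      rw [h.nv p s (mem_compl.1 hs)]
    have h4 : (vt p).card ≤ a * b := by
      have h5 := card_le_univ (vt p)
      rwa [Fintype.card_prod, Fintype.card_fin, Fintype.card_fin] at h5
    rw [h3, sum_const, card_compl, Fintype.card_prod, Fintype.card_fin, Fintype.card_fin,
      nsmul_eq_mul, Nat.cast_sub h4, Nat.cast_mul]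
  have h3 : ∀ p ∈ (univ : Finset P),
      (if dl p = 1 then ∑ s ∈ vt p, (om p s : ℤ) - (g p : ℤ) * (vt p).card else
        - ((dl p : ℤ) * g p)) ≤
      ∑ s, (dl p : ℤ) * om p s - ((a : ℤ) * b) * ((dl p : ℤ) * g p) := by
    intro p _
    rw [← mul_sum, h2 p]
    split_ifs with hp
    · rw [hp]
      push_cast
      linarith
    · have h4 : (0 : ℤ) ≤ ∑ s ∈ vt p, (om p s : ℤ) := sum_nonneg fun s _ => Int.natCast_nonneg _
      have h5 : ((vt p).card : ℤ) ≤ 1 := by exact_mod_cast h.nonpl p hp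
      have h6 : (0 : ℤ) ≤ (dl p : ℤ) := Int.natCast_nonneg _
      have h7 : (0 : ℤ) ≤ (g p : ℤ) := Int.natCast_nonneg _
      have h8 := mul_nonneg h6 h4
      have h9 := mul_le_mul_of_nonneg_left h5 (mul_nonneg h6 h7)
      linarith
  have h4 := sum_le_sum h3
  rw [sum_ite, sum_sub_distrib, sum_sub_distrib, ← mul_sum] at h4
  rw [sum_neg_distrib] at h4
  rw [nsmul_eq_mul, nsmul_eq_mul, Nat.cast_mul] at h1
  linarith

theorem P_ineq {a b c d : ℕ} {P : Type} [Fintype P] {dl g n jj : P → ℕ} {lam : P → ℕ → ℕ}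
    {om : P → Fin a × Fin b → ℕ} {vt : P → Finset (Fin a × Fin b)}
    {oL : P → (Fin a × Fin b) → (Fin a × Fin b) → ℕ} {eF : ℕ}
    (h : CombD a b c d dl g n jj lam om vt oL eF) :
    ((c : ℤ) + d - 1) * (a * b) * ((a : ℤ) + b - c - d - 1) +
        ((b : ℤ) - a) * ∑ p ∈ univ.filter (fun p => dl p = 1), XXz c d (g p) (n p) (lam p) ≤
      ((c : ℤ) + d - 1) * (a * b) * ∑ p, (dl p : ℤ) * jj p +
      ((c : ℤ) + d - 1) * ∑ p ∈ univ.filter (fun p => dl p = 1), (g p : ℤ) * ((vt p).card + b - a) +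
      ((b : ℤ) - a) * ∑ p ∈ univ.filter (fun p => dl p = 1), HHz c d (g p) (lam p) +
      ∑ p ∈ univ.filter (fun p => dl p ≠ 1), (dl p : ℤ) * g p *
        (((c : ℤ) + d - 1) * (a * b + 1) + b - a) := by
  have ha := h.ac
  have hc := h.cd
  have hb := h.db
  have h2a := h.a2
  have e1 := Cm3_one h
  have e2 := Cm3_two h
  have e3 : ∀ p ∈ univ.filter (fun p => dl p = 1), ((c : ℤ) + d - 1) * (n p : ℤ) ≤
      (∑ s ∈ vt p, (om p s : ℤ)) - (g p : ℤ) * (vt p).card + HHz c d (g p) (lam p) +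
        ((c : ℤ) + d - 1) * g p - XXz c d (g p) (n p) (lam p) := by
    intro p _
    have h1 := weight_ineq h p
    linarith
  have e4 := sum_le_sum e3
  rw [← mul_sum, sum_sub_distrib, sum_add_distrib, sum_add_distrib, sum_sub_distrib,
    ← mul_sum] at e4
  have e5 : (2 : ℤ) * (a * b) * ((b : ℤ) - 1) ≤
      (∑ p ∈ univ.filter (fun p => dl p = 1), ∑ s ∈ vt p, (om p s : ℤ)) +
        ((b : ℤ) - a) * (∑ p ∈ univ.filter (fun p => dl p = 1), (n p : ℤ)) +
      (a * b) * ∑ p ∈ univ.filter (fun p => ¬ dl p = 1), (dl p : ℤ) * g p +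
      (a * b) * ∑ p, (dl p : ℤ) * jj p := by
    rw [sum_add_distrib, ← mul_sum] at e1
    have h1 : ((b - 1 : ℕ) : ℤ) = (b : ℤ) - 1 := by
      rw [Nat.cast_sub (by omega)]
      rfl
    have h2 : ((b - a : ℕ) : ℤ) = (b : ℤ) - a := Nat.cast_sub (by omega)
    rw [← h1, ← h2]
    exact_mod_cast e1
  have e6 : ∑ p ∈ univ.filter (fun p => dl p = 1), (g p : ℤ) * ((vt p).card + b - a) =
      ∑ p ∈ univ.filter (fun p => dl p = 1), (g p : ℤ) * (vt p).card +
        ((b : ℤ) - a) * ∑ p ∈ univ.filter (fun p => dl p = 1), (g p : ℤ) := by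
    rw [mul_sum, ← sum_add_distrib]
    refine sum_congr rfl fun p _ => ?_
    ring
  have e7 : ∑ p ∈ univ.filter (fun p => dl p ≠ 1), (dl p : ℤ) * g p *
        (((c : ℤ) + d - 1) * (a * b + 1) + b - a) =
      (∑ p ∈ univ.filter (fun p => ¬ dl p = 1), (dl p : ℤ) * g p) *
        (((c : ℤ) + d - 1) * (a * b + 1) + b - a) := by
    rw [sum_mul]
  rw [e6, e7]
  have hD : (0 : ℤ) ≤ (c : ℤ) + d - 1 := by omega
  have hba : (0 : ℤ) ≤ (b : ℤ) - a := by omega
  have f1 := mul_le_mul_of_nonneg_left e5 hD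
  have f2 := mul_le_mul_of_nonneg_left e2 (add_nonneg hD hba)
  have f3 := mul_le_mul_of_nonneg_left e4 hba
  generalize (∑ p ∈ univ.filter (fun p => dl p = 1), ∑ s ∈ vt p, (om p s : ℤ)) = ST at *
  generalize (∑ p ∈ univ.filter (fun p => dl p = 1), (n p : ℤ)) = Sn at *
  generalize (∑ p ∈ univ.filter (fun p => ¬ dl p = 1), (dl p : ℤ) * g p) = G' at *
  generalize (∑ p, (dl p : ℤ) * jj p) = J at *
  generalize (∑ p ∈ univ.filter (fun p => dl p = 1), (g p : ℤ) * (vt p).card) = Scg at *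
  generalize (∑ p ∈ univ.filter (fun p => dl p = 1), (g p : ℤ)) = Sg at *
  generalize (∑ p ∈ univ.filter (fun p => dl p = 1), HHz c d (g p) (lam p)) = SH at *
  generalize (∑ p ∈ univ.filter (fun p => dl p = 1), XXz c d (g p) (n p) (lam p)) = SX at *
  nlinarith [f1, f2, f3]

end GP80
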