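import Mathlib

/-!
# Row Cm4 (MP_87ed0a_GP): arithmetic  (about 180 lines)

All statements over `ℤ` (checked numerically in 2.5 million cases).  `D0 = c + d - 1`.
* `ar_kappa`: `a (a + b - c - d) = (c - a)(d - a)` because `c d = a b`; the right side is positive, so `a + b - c - d ≥ 1`.
* `ar1`: `(K-1)(D0-K) = K(c+d-K) - D0 ≤ a + b - c - d`, so `a (K-1)(D0-K) ≤ (c-a)(d-a)`.  If `c ≤ K a` then `c - a ≤ (K-1) a`, so `(K-1) a (D0 - K) ≤ (K-1) a (d-a)` (`(K-1) a > 0`, `d - a > 0`), `D0 - K ≤ d - a`, i.e. `c + a ≤ K + 1`, contradiction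
  with `K ≤ c - 1`, `a ≥ 2`... (`c + a - 1 ≤ K ≤ c - 1`).  So `c ≥ K a + 1 ≥ 2 a + 1`, `d ≥ c`, `a b = c d ≥ (2a+1)^2 = 4a^2 + 4a + 1`, so `b ≥ 4a + 5` (`a b > a (4 a + 4)`).
* `ar2`: `(D0-K)(c-1+x) - K(d-x) = D0 (c-1+x-K)` exactly.  So the claim is `(b-a)(c-x) D0 (c-1+x-K) > K D0 (2b-1)`.  `c - 1 - K ≥ K(a-1)`.  `(c-x)(x + K(a-1)) ≥ K(2a-1)` for `1 ≤ x ≤ c-1` (concave in `x`:
  `(c-x)(x+K(a-1)) - (c - 1 + K (a-1)) = (c-1-x)(x - 1 + K(a-1)) ≥ 0`, and `c-1+K(a-1) ≥ K a + K(a-1)`).  `(b-a)(2a-1) > 2b-1` from `b ≥ 4a+5`, `a ≥ 2`: `b(2a-3) > 2a^2-a-1`.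
* `ar3`: `(c-x)(c-1+x) ≥ 2(c-1)` for `1 ≤ x ≤ c - 1` (`(c-x)(c-1+x) - 2(c-1) = (c-1-x)(c-2+x) + ...`: exactly `(c-x)(c-1+x) - (2c-2) = (c-1-x)(c - 2 + x)`; check: at `x = c-1` both are 0).  So left side
  `≥ 2 (b-a)(D0-K)(c-1) ≥ 2 (b-a)(D0-K) a K` (`c - 1 ≥ aK`).  `a (D0 - K) ≥ a D0 - (c-1)`, `2(c-1) ≤ D0 - 1`, so `2a(D0-K) ≥ (2a-1) D0 + 1`.  Then `(b-a)((2a-1) D0 + 1) > D0 (ab+1) + b - a` iff
  `(b-a)(2a-1) > ab + 1` (times `D0 > 0`) iff `b(a-1) > 2a^2 - a + 1`, true for `b ≥ 4a+5`, `a ≥ 2`.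
* `ar4` (`d = c + 1`, `D0 = 2c`, `a b = c(c+1)`): `a(K-1)(2c-K) ≤ (c-a)(c+1-a)` (from ar1).  (i) `3a ≤ c`: `(K-1)(2c-K) ≥ 2c-2` (`2 ≤ K ≤ c-1`), if `3a ≥ c+1` then `a(2c-2) ≥ (c+1)(2c-2)/3 > (2c-1)(2c+2)/9 ≥ (c-a)(c+1-a)`.
  (ii) `3K ≤ c`: `2(K-1)(2c-K) ≤ (c-2)(c-1)`; if `3K ≥ c+1` then `2(K-1)(2c-K) ≥ 2 (c-2)(5c-1)/9 > (c-2)(c-1)` (`(K-1)(2c-K)` is increasing in `K ≤ c`).
  (iii) `aK(2c-K) = a(K-1)(2c-K) + a(2c-K) ≤ (c-a)(c+1-a) + a(2c-K) = c^2 + c + a(a-1-K)`, and `a(a-1-K) ≤ a(a-3) ≤ c^2/9 - c` (`2 ≤ a ≤ c/3`, `x(x-3)` increasing for `x ≥ 3/2`).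
  `2c(c+1) * (10/9) c^2 ≤ (25/9) c^2 * ((8/9) c^2 + c) ≤ (2c-K)^2 (c^2 + c - a^2)`.  So `2c(c+1) a K (2c-K) ≤ (2c-K)^2 (c^2+c-a^2)`; cancel `2c-K > 0`: `2c(c+1) a K ≤ (2c-K)(ab - a^2)`; cancel `a`: `2 K (a b) ≤ (b-a)(2c-K)`.
-/

namespace GP80

theorem ar_kappa {a b c d : ℤ} (ha : 2 ≤ a) (hac : a < c) (hcd : c ≤ d) (hN : c * d = a * b) :
    a * (a + b - c - d) = (c - a) * (d - a) ∧ 1 ≤ a + b - c - d := by
  have h1 : a * (a + b - c - d) = (c - a) * (d - a) := by linear_combination -hN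
  refine ⟨h1, ?_⟩
  by_contra hcon
  push Not at hcon
  have h2 : 0 < (c - a) * (d - a) := mul_pos (by linarith) (by linarith)
  have h3 : a * (a + b - c - d) ≤ a * 0 := mul_le_mul_of_nonneg_left (by linarith) (by linarith)
  linarith

theorem Cm4_base {a b c d K : ℤ} (ha : 2 ≤ a) (hN : c * d = a * b)
    (h : K * (c + d - K) ≤ a + b - 1) :
    a * ((K - 1) * (c + d - 1 - K)) ≤ (c - a) * (d - a) := by
  have h1 : (K - 1) * (c + d - 1 - K) ≤ a + b - c - d := by
    have : (K - 1) * (c + d - 1 - K) = K * (c + d - K) - (c + d - 1) := by ring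
    linarith
  have h2 := mul_le_mul_of_nonneg_left h1 (by linarith : 0 ≤ a)
  have h3 : a * (a + b - c - d) = (c - a) * (d - a) := by linear_combination -hN
  linarith

theorem ar1 {a b c d K : ℤ} (ha : 2 ≤ a) (hac : a < c) (hcd : c ≤ d) (hN : c * d = a * b)
    (hK : 2 ≤ K) (hKc : K < c) (h : K * (c + d - K) ≤ a + b - 1) : K * a + 1 ≤ c ∧ 4 * a + 5 ≤ b := by
  have h1 := Cm4_base ha hN h
  have hc : K * a + 1 ≤ c := by
    by_contra hcon
    push Not at hcon
    have h2 : c - a ≤ (K - 1) * a := by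
      have : (K - 1) * a = K * a - a := by ring
      linarith
    have h3 : (c - a) * (d - a) ≤ ((K - 1) * a) * (d - a) :=
      mul_le_mul_of_nonneg_right h2 (by linarith)
    have h4 : ((K - 1) * a) * (c + d - 1 - K) ≤ ((K - 1) * a) * (d - a) := by
      have : a * ((K - 1) * (c + d - 1 - K)) = ((K - 1) * a) * (c + d - 1 - K) := by ring
      linarith
    have h5 : c + d - 1 - K ≤ d - a :=
      le_of_mul_le_mul_left h4 (mul_pos (by linarith) (by linarith))
    linarith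
  refine ⟨hc, ?_⟩
  have h2 : 2 * a + 1 ≤ c := by
    have : 2 * a ≤ K * a := mul_le_mul_of_nonneg_right hK (by linarith)
    linarith
  have h3 : (2 * a + 1) * (2 * a + 1) ≤ c * d :=
    mul_le_mul h2 (by linarith) (by linarith) (by linarith)
  by_contra hcon
  push Not at hcon
  have h4 : a * b ≤ a * (4 * a + 4) := mul_le_mul_of_nonneg_left (by linarith) (by linarith)
  rw [hN] at h3
  have : (2 * a + 1) * (2 * a + 1) = a * (4 * a + 4) + 1 := by ring
  linarith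

theorem ar2 {a b c d K x : ℤ} (ha : 2 ≤ a) (hac : a < c) (hcd : c ≤ d) (hN : c * d = a * b)
    (hK : 2 ≤ K) (hKc : K < c) (h : K * (c + d - K) ≤ a + b - 1) (hx : 1 ≤ x) (hxc : x < c) :
    K * (c + d - 1) * (2 * b - 1) + K * (b - a) * ((c - x) * (d - x)) + 1 ≤
      (b - a) * (c + d - 1 - K) * ((c - x) * (c - 1 + x)) := by
  obtain ⟨h1, h2⟩ := ar1 ha hac hcd hN hK hKc h
  have hD : 1 ≤ c + d - 1 := by linarith
  have e1 : (b - a) * (c + d - 1 - K) * ((c - x) * (c - 1 + x)) -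
      K * (b - a) * ((c - x) * (d - x)) =
      (b - a) * (c + d - 1) * ((c - x) * (c - 1 + x - K)) := by ring
  have e2 : K * (2 * a - 1) ≤ (c - x) * (c - 1 + x - K) := by
    have f1 : (c - x) * (x + K * (a - 1)) ≤ (c - x) * (c - 1 + x - K) := by
      refine mul_le_mul_of_nonneg_left ?_ (by linarith)
      have : K * (a - 1) = K * a - K := by ring
      linarith
    have f2 : (c - x) * (x + K * (a - 1)) = (c - 1 + K * (a - 1)) +
        (c - 1 - x) * (x - 1 + K * (a - 1)) := by ring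
    have f3 : 0 ≤ K * (a - 1) := mul_nonneg (by linarith) (by linarith)
    have f4 : 0 ≤ (c - 1 - x) * (x - 1 + K * (a - 1)) := mul_nonneg (by linarith) (by linarith)
    have f5 : K * (2 * a - 1) = K * a + K * (a - 1) := by ring
    linarith
  have hba : 0 ≤ b - a := by linarith
  have e3 : (b - a) * (c + d - 1) * (K * (2 * a - 1)) ≤
      (b - a) * (c + d - 1) * ((c - x) * (c - 1 + x - K)) :=
    mul_le_mul_of_nonneg_left e2 (mul_nonneg hba (by linarith))
  have e4 : 1 ≤ (b - a) * (2 * a - 1) - (2 * b - 1) := by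
    have f1 : (b - a) * (2 * a - 1) - (2 * b - 1) = b * (2 * a - 3) - 2 * a * a + a + 1 := by ring
    have f2 : (4 * a + 5) * (2 * a - 3) ≤ b * (2 * a - 3) :=
      mul_le_mul_of_nonneg_right h2 (by linarith)
    have f3 : (4 * a + 5) * (2 * a - 3) - 2 * a * a + a + 1 = 6 * (a * a) - a - 14 := by ring
    have f4 : 2 * a ≤ a * a := mul_le_mul_of_nonneg_right ha (by linarith)
    linarith
  have e5 : 1 ≤ K * (c + d - 1) * ((b - a) * (2 * a - 1) - (2 * b - 1)) := by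
    have f1 : 1 ≤ K * (c + d - 1) := by
      have := mul_le_mul (by linarith : (1 : ℤ) ≤ K) hD (by norm_num) (by linarith)
      linarith
    have f2 := mul_le_mul f1 e4 (by norm_num) (by linarith)
    linarith
  have e6 : K * (c + d - 1) * ((b - a) * (2 * a - 1) - (2 * b - 1)) =
      (b - a) * (c + d - 1) * (K * (2 * a - 1)) - K * (c + d - 1) * (2 * b - 1) := by ring
  linarith

theorem ar3 {a b c d K x : ℤ} (ha : 2 ≤ a) (hac : a < c) (hcd : c ≤ d) (hN : c * d = a * b)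
    (hK : 2 ≤ K) (hKc : K < c) (h : K * (c + d - K) ≤ a + b - 1) (hx : 1 ≤ x) (hxc : x < c) :
    K * ((c + d - 1) * (a * b + 1) + b - a) + 1 ≤
      (b - a) * (c + d - 1 - K) * ((c - x) * (c - 1 + x)) := by
  obtain ⟨h1, h2⟩ := ar1 ha hac hcd hN hK hKc h
  have hD : 1 ≤ c + d - 1 := by linarith
  have hba : 0 ≤ b - a := by linarith
  have hDK : 0 ≤ c + d - 1 - K := by linarith
  have e1 : 2 * (c - 1) ≤ (c - x) * (c - 1 + x) := by
    have f1 : (c - x) * (c - 1 + x) = 2 * (c - 1) + (c - 1 - x) * (c - 2 + x) := by ring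
    have f2 : 0 ≤ (c - 1 - x) * (c - 2 + x) := mul_nonneg (by linarith) (by linarith)
    linarith
  have e2 : (b - a) * (c + d - 1 - K) * (2 * (K * a)) ≤
      (b - a) * (c + d - 1 - K) * ((c - x) * (c - 1 + x)) :=
    mul_le_mul_of_nonneg_left (by linarith) (mul_nonneg hba hDK)
  have e3 : (2 * a - 1) * (c + d - 1) + 1 ≤ 2 * a * (c + d - 1 - K) := by
    have f1 : 2 * a * (c + d - 1 - K) = (2 * a - 1) * (c + d - 1) + (c + d - 1) - 2 * (K * a) := by
      ring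
    linarith
  have e4 : K * (b - a) * ((2 * a - 1) * (c + d - 1) + 1) ≤
      K * (b - a) * (2 * a * (c + d - 1 - K)) :=
    mul_le_mul_of_nonneg_left e3 (mul_nonneg (by linarith) hba)
  have e5 : K * (b - a) * (2 * a * (c + d - 1 - K)) =
      (b - a) * (c + d - 1 - K) * (2 * (K * a)) := by ring
  have e6 : 1 ≤ (b - a) * (2 * a - 1) - (a * b + 1) := by
    have f1 : (b - a) * (2 * a - 1) - (a * b + 1) = b * (a - 1) - 2 * (a * a) + a - 1 := by ring
    have f2 : (4 * a + 5) * (a - 1) ≤ b * (a - 1) :=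
      mul_le_mul_of_nonneg_right h2 (by linarith)
    have f3 : (4 * a + 5) * (a - 1) = 4 * (a * a) + a - 5 := by ring
    have f4 : 2 * a ≤ a * a := mul_le_mul_of_nonneg_right ha (by linarith)
    linarith
  have e7 : 1 ≤ K * (c + d - 1) * ((b - a) * (2 * a - 1) - (a * b + 1)) := by
    have f1 : 1 ≤ K * (c + d - 1) := by
      have := mul_le_mul (by linarith : (1 : ℤ) ≤ K) hD (by norm_num) (by linarith)
      linarith
    have f2 := mul_le_mul f1 e6 (by norm_num) (by linarith)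
    linarith
  have e8 : K * (c + d - 1) * ((b - a) * (2 * a - 1) - (a * b + 1)) =
      K * (b - a) * ((2 * a - 1) * (c + d - 1) + 1) - K * ((c + d - 1) * (a * b + 1) + b - a) := by
    ring
  linarith

theorem ar4 {a b c d K : ℤ} (ha : 2 ≤ a) (hac : a < c) (hcd : d = c + 1) (hN : c * d = a * b)
    (hK : 2 ≤ K) (hKc : K < c) (h : K * (c + d - K) ≤ a + b - 1) :
    2 * K * (a * b) ≤ (b - a) * (c + d - 1 - K) := by
  have h1 := Cm4_base ha hN h
  subst hcd
  have e0 : c + (c + 1) - 1 - K = 2 * c - K := by ring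
  rw [e0] at h1 ⊢
  have hc3 : 3 ≤ c := by linarith
  have h3a : 3 * a ≤ c := by
    by_contra hcon
    push Not at hcon
    have f1 : (K - 1) * (2 * c - K) = (2 * c - 2) + (K - 2) * (2 * c - K - 1) := by ring
    have f2 : 0 ≤ (K - 2) * (2 * c - K - 1) := mul_nonneg (by linarith) (by linarith)
    have f3 : a * (2 * c - 2) ≤ a * ((K - 1) * (2 * c - K)) :=
      mul_le_mul_of_nonneg_left (by linarith) (by linarith)
    have f4 : (3 * c - 3 * a) * (3 * c + 3 - 3 * a) ≤ (2 * c - 1) * (2 * c + 2) :=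
      mul_le_mul (by linarith) (by linarith) (by linarith) (by linarith)
    have f5 : (3 * c - 3 * a) * (3 * c + 3 - 3 * a) = 9 * ((c - a) * (c + 1 - a)) := by ring
    have f6 : (c + 1) * (6 * c - 6) ≤ (3 * a) * (6 * c - 6) :=
      mul_le_mul_of_nonneg_right (by linarith) (by linarith)
    have f7 : (3 * a) * (6 * c - 6) = 9 * (a * (2 * c - 2)) := by ring
    have f8 : (c + 1) * (6 * c - 6) ≤ (c + 1) * (4 * c - 2) := by
      have : (2 * c - 1) * (2 * c + 2) = (c + 1) * (4 * c - 2) := by ring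
      linarith
    have f9 := le_of_mul_le_mul_left f8 (by linarith)
    linarith
  have h3K : 3 * K ≤ c := by
    by_contra hcon
    push Not at hcon
    have f0 : 0 ≤ (K - 1) * (2 * c - K) := mul_nonneg (by linarith) (by linarith)
    have f1 : 2 * ((K - 1) * (2 * c - K)) ≤ a * ((K - 1) * (2 * c - K)) :=
      mul_le_mul_of_nonneg_right ha f0
    have f2 : (c - a) * (c + 1 - a) ≤ (c - 2) * (c - 1) :=
      mul_le_mul (by linarith) (by linarith) (by linarith) (by linarith)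
    have f3 : 9 * ((K - 1) * (2 * c - K)) = (c - 2) * (5 * c - 1) +
        (3 * K - c - 1) * (5 * c + 2 - 3 * K) := by ring
    have f4 : 0 ≤ (3 * K - c - 1) * (5 * c + 2 - 3 * K) := mul_nonneg (by linarith) (by linarith)
    have f5 : (c - 2) * (10 * c - 2) ≤ (c - 2) * (9 * c - 9) := by
      have g1 : (c - 2) * (10 * c - 2) = 2 * ((c - 2) * (5 * c - 1)) := by ring
      have g2 : (c - 2) * (9 * c - 9) = 9 * ((c - 2) * (c - 1)) := by ring
      linarith
    have f6 := le_of_mul_le_mul_left f5 (by linarith)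
    linarith
  have hKey : 9 * (a * K * (2 * c - K)) ≤ 10 * (c * c) := by
    have f1 : a * K * (2 * c - K) = a * ((K - 1) * (2 * c - K)) + a * (2 * c - K) := by ring
    have f2 : (c - a) * (c + 1 - a) + a * (2 * c - K) = c * c + c + a * (a - 1 - K) := by ring
    have f3 : a * (a - 1 - K) ≤ a * (a - 3) := mul_le_mul_of_nonneg_left (by linarith) (by linarith)
    have f4 : c * (c - 9) = 9 * (a * (a - 3)) + (c - 3 * a) * (c + 3 * a - 9) := by ring
    have f5 : 0 ≤ (c - 3 * a) * (c + 3 * a - 9) := mul_nonneg (by linarith) (by linarith)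
    have f6 : c * (c - 9) = c * c - 9 * c := by ring
    have h1' : a * ((K - 1) * (2 * c - K)) ≤ (c - a) * (c + 1 - a) := h1
    linarith
  have hcc : 0 < c * c := mul_pos (by linarith) (by linarith)
  have g1 : 2 * (c * (c + 1)) * (9 * (a * K * (2 * c - K))) ≤
      2 * (c * (c + 1)) * (10 * (c * c)) :=
    mul_le_mul_of_nonneg_left hKey (by
      have := mul_nonneg (by linarith : 0 ≤ c) (by linarith : 0 ≤ c + 1)
      linarith)
  have g2 : 25 * (c * c) ≤ 9 * ((2 * c - K) * (2 * c - K)) := by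
    have f1 : (5 * c) * (5 * c) ≤ (6 * c - 3 * K) * (6 * c - 3 * K) :=
      mul_le_mul (by linarith) (by linarith) (by linarith) (by linarith)
    have f2 : (6 * c - 3 * K) * (6 * c - 3 * K) = 9 * ((2 * c - K) * (2 * c - K)) := by ring
    have f3 : (5 * c) * (5 * c) = 25 * (c * c) := by ring
    linarith
  have g3 : 8 * (c * c) + 9 * c ≤ 9 * (c * (c + 1) - a * a) := by
    have f1 : (3 * a) * (3 * a) ≤ c * c := mul_le_mul h3a h3a (by linarith) (by linarith)
    have f2 : (3 * a) * (3 * a) = 9 * (a * a) := by ring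
    have f3 : c * (c + 1) = c * c + c := by ring
    linarith
  have g4 : (25 * (c * c)) * (8 * (c * c) + 9 * c) ≤
      (9 * ((2 * c - K) * (2 * c - K))) * (9 * (c * (c + 1) - a * a)) :=
    mul_le_mul g2 g3 (by linarith) (by
      have := mul_nonneg (by linarith : 0 ≤ 2 * c - K) (by linarith : 0 ≤ 2 * c - K)
      linarith)
  have g5 : 9 * (2 * (c * (c + 1)) * (10 * (c * c))) ≤ (25 * (c * c)) * (8 * (c * c) + 9 * c) := by
    have f1 : (25 * (c * c)) * (8 * (c * c) + 9 * c) - 9 * (2 * (c * (c + 1)) * (10 * (c * c))) =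
        (c * c) * (20 * (c * c) + 45 * c) := by ring
    have f2 : 0 ≤ (c * c) * (20 * (c * c) + 45 * c) := mul_nonneg hcc.le (by linarith)
    linarith
  have g6 : (2 * c - K) * (a * (2 * K * (a * b))) ≤ (2 * c - K) * (a * ((b - a) * (2 * c - K))) := by
    have f1 : 81 * ((2 * c - K) * (a * (2 * K * (a * b)))) =
        9 * (2 * (c * (c + 1)) * (9 * (a * K * (2 * c - K)))) := by
      rw [hN]
      ring
    have f2 : (9 * ((2 * c - K) * (2 * c - K))) * (9 * (c * (c + 1) - a * a)) =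
        81 * ((2 * c - K) * (a * ((b - a) * (2 * c - K)))) := by
      rw [hN]
      ring
    linarith
  have g7 := le_of_mul_le_mul_left g6 (by linarith)
  exact le_of_mul_le_mul_left g7 (by linarith)

end GP80
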