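import Mathlib
import Pool.Agent.H80.GP.Cmd
import Pool.Agent.H80.GP.Cm2
import Pool.Agent.H80.GP.Cm3
import Pool.Agent.H80.GP.Cm4

/-!
# Row Cm5 (MP_87ed0a_GP): `lam ≤ 1` beyond `g`  (about 200 lines)

Claim: `lam p i ≤ 1` for `g p < i ≤ n p`.  Suppose not.  By `nonplane_n` such `p` is a plane, and by `anti`, `2 ≤ lam p (g p + 1)`.  Let `K` be the maximum of `lam p (g p + 1)` over the planes with `g p < n p`
(`Finset.exists_max_image`), attained at `p0`; `K ≥ 2`, `K < c`, `K (c + d - K) ≤ card (vt p0) ≤ a + b - 1` (`tail`, `card_vt`).  Work in `ℤ`, `D0 = c + d - 1`, `N = a b`.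
1. For planes and `g < i ≤ n`: `1 ≤ x = lam i ≤ K`, `K (x-1)(D0-x) ≥ (D0-K) x (x-1)`  (difference `(x-1) D0 (K-x) ≥ 0`), so `K XX p ≥ (D0-K) Y p`, `Y p = ∑_{g < i ≤ n} lam i (lam i - 1)`.
   For `p0`: `XX p0 ≥ (K-1)(D0-K) ≥ 1` (the term `i = g + 1`; the others are `≥ 0`).
2. `star`, splitting `∑_{i=1}^n = ∑_{i ≤ g} + ∑_{g<i≤n}`, `c(c-1) - x(x-1) = (c-x)(c-1+x)`, and `n = g` for nonplanes:
   `∑_pl Y p ≥ ∑_p dl p Z p + (d-c) D0 eF`, `Z p = ∑_{i ≤ g p} (c - lam i)(c - 1 + lam i)`.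
3. `P_ineq` times `K`, dropping the first term (`≥ 0` by `ar_kappa`):
   `(b-a) K ∑_pl XX ≤ K D0 N ∑ dl jj + K D0 ∑_pl g (card + b - a) + K (b-a) ∑_pl HH + K ∑_np dl g (D0 (N+1) + b - a)`.
4. For planes, by `ar2` (with `x = lam i`, `1 ≤ i ≤ g ≤ n`, so `1 ≤ x < c`) and `card + b - a ≤ 2b - 1`, summed over `i ≤ g`: `K D0 g (card + b - a) + K (b-a) HH + g ≤ (b-a)(D0-K) Z p`.
   For nonplanes by `ar3`: `K g (D0(N+1) + b - a) + g ≤ (b-a)(D0-K) Z p`.
5. Case `jj = 0`: combining 3., 4., 2., 1.: `(b-a) K ∑_pl XX + ∑ dl g ≤ (b-a)(D0-K) ∑_p dl Z ≤ (b-a)(D0-K) ∑_pl Y ≤ (b-a) K ∑_pl XX`.  So all `g p = 0`, then `HH = 0`, and 3. gives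
   `(b-a) K ∑_pl XX ≤ 0`, contradicting `XX p0 ≥ 1` (all `XX ≥ 0`).
6. Case `d = c + 1`, `∑ dl jj + 1 + ∑ dl g ≤ 2 eF`: `K D0 N ∑ dl jj ≤ K D0 N (2 eF - 1)`, and by `ar4` `2 K N ≤ (b-a)(D0-K)`, so `K D0 N ∑ dl jj + K D0 N ≤ (b-a)(D0-K) D0 eF = (b-a)(D0-K)(d-c) D0 eF`.  Adding: `(b-a) K ∑_pl XX + K D0 N ≤
   (b-a)(D0-K)(∑ dl Z + (d-c) D0 eF) ≤ (b-a)(D0-K) ∑_pl Y ≤ (b-a) K ∑_pl XX`: contradiction since `K D0 N > 0`.
-/

namespace GP80

open Finset

private theorem Cm5_cast (x : ℕ) : ((x * (x - 1) : ℕ) : ℤ) = (x : ℤ) * ((x : ℤ) - 1) := by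
  rcases Nat.eq_zero_or_pos x with h | h
  · subst h; simp
  · rw [Nat.cast_mul, Nat.cast_sub h, Nat.cast_one]

private theorem Cm5_split {g n : ℕ} (hgn : g ≤ n) (f : ℕ → ℤ) :
    ∑ i ∈ Icc 1 n, f i = ∑ i ∈ Icc 1 g, f i + ∑ i ∈ Ioc g n, f i := by
  have e : ∀ m : ℕ, Icc 1 m = Ioc 0 m := by
    intro m
    ext i
    simp only [mem_Icc, mem_Ioc]
    omega
  rw [e, e, Finset.sum_Ioc_consecutive f (Nat.zero_le _) hgn]

/-- `star` rewritten -/
private theorem Cm5_star {a b c d : ℕ} {P : Type} [Fintype P] {dl g n jj : P → ℕ}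
    {lam : P → ℕ → ℕ}
    {om : P → Fin a × Fin b → ℕ} {vt : P → Finset (Fin a × Fin b)}
    {oL : P → (Fin a × Fin b) → (Fin a × Fin b) → ℕ} {eF : ℕ}
    (h : CombD a b c d dl g n jj lam om vt oL eF) :
    ∑ p, (dl p : ℤ) * ∑ i ∈ Icc 1 (g p), ((c : ℤ) - lam p i) * ((c : ℤ) - 1 + lam p i) +
      ((d : ℤ) - c) * ((c : ℤ) + d - 1) * eF ≤
    ∑ p ∈ univ.filter (fun p => dl p = 1),
      ∑ i ∈ Ioc (g p) (n p), (lam p i : ℤ) * ((lam p i : ℤ) - 1) := by
  have ha2 := h.a2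
  have hac := h.ac
  have hcd := h.cd
  have hs : ((c * (c - 1) * ∑ p, dl p * g p + (d - c) * (c + d - 1) * eF : ℕ) : ℤ) ≤
      ((∑ p, dl p * ∑ i ∈ Icc 1 (n p), lam p i * (lam p i - 1) : ℕ) : ℤ) := by
    exact_mod_cast h.star
  have e1 : ((c * (c - 1) * ∑ p, dl p * g p + (d - c) * (c + d - 1) * eF : ℕ) : ℤ) =
      ((c : ℤ) * (c - 1)) * ∑ p, (dl p : ℤ) * g p + ((d : ℤ) - c) * ((c : ℤ) + d - 1) * eF := by
    rw [Nat.cast_add, Nat.cast_mul, Cm5_cast, Nat.cast_mul, Nat.cast_mul, Nat.cast_sub hcd,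
      Nat.cast_sub (by omega : 1 ≤ c + d), Nat.cast_sum]
    push_cast
    ring
  have e2 : ((∑ p, dl p * ∑ i ∈ Icc 1 (n p), lam p i * (lam p i - 1) : ℕ) : ℤ) =
      ∑ p, (dl p : ℤ) * ∑ i ∈ Icc 1 (n p), (lam p i : ℤ) * ((lam p i : ℤ) - 1) := by
    rw [Nat.cast_sum]
    refine Finset.sum_congr rfl fun p _ => ?_
    rw [Nat.cast_mul, Nat.cast_sum]
    congr 1
    exact Finset.sum_congr rfl fun i _ => Cm5_cast _
  rw [e1, e2] at hs
  have e3 : ∀ p, (dl p : ℤ) * ∑ i ∈ Icc 1 (n p), (lam p i : ℤ) * ((lam p i : ℤ) - 1) =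
      (dl p : ℤ) * ∑ i ∈ Icc 1 (g p), (lam p i : ℤ) * ((lam p i : ℤ) - 1) +
      (if dl p = 1 then ∑ i ∈ Ioc (g p) (n p), (lam p i : ℤ) * ((lam p i : ℤ) - 1) else 0) := by
    intro p
    rw [Cm5_split (h.gn p)]
    by_cases hp : dl p = 1
    · rw [if_pos hp, hp]
      ring
    · rw [if_neg hp, nonplane_n h p hp]
      simp
  have e4 : ∀ p, (dl p : ℤ) * ∑ i ∈ Icc 1 (g p), ((c : ℤ) - lam p i) * ((c : ℤ) - 1 + lam p i) =
      (c : ℤ) * (c - 1) * ((dl p : ℤ) * g p) -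
      (dl p : ℤ) * ∑ i ∈ Icc 1 (g p), (lam p i : ℤ) * ((lam p i : ℤ) - 1) := by
    intro p
    have : ∑ i ∈ Icc 1 (g p), ((c : ℤ) - lam p i) * ((c : ℤ) - 1 + lam p i) =
        ∑ i ∈ Icc 1 (g p), ((c : ℤ) * (c - 1) - (lam p i : ℤ) * ((lam p i : ℤ) - 1)) :=
      Finset.sum_congr rfl fun i _ => by ring
    rw [this, Finset.sum_sub_distrib, Finset.sum_const, Nat.card_Icc]
    simp only [Nat.add_sub_cancel, nsmul_eq_mul]
    ring
  rw [Finset.sum_congr rfl fun p _ => e3 p, Finset.sum_add_distrib, ← Finset.sum_filter] at hs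
  rw [Finset.sum_congr rfl fun p _ => e4 p, Finset.sum_sub_distrib, ← Finset.mul_sum]
  linarith

private theorem Cm5_XX_term {c d K x : ℤ} (hc : 2 ≤ c) (hcd : c ≤ d) (_hK : K < c) (hx : 1 ≤ x)
    (hxK : x ≤ K) :
    (c + d - 1 - K) * (x * (x - 1)) ≤ K * ((x - 1) * (c + d - 1 - x)) := by
  have h1 : 0 ≤ (x - 1) * ((c + d - 1) * (K - x)) :=
    mul_nonneg (by linarith) (mul_nonneg (by linarith) (by linarith))
  linarith

theorem lam_le_one {a b c d : ℕ} {P : Type} [Fintype P] {dl g n jj : P → ℕ} {lam : P → ℕ → ℕ}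
    {om : P → Fin a × Fin b → ℕ} {vt : P → Finset (Fin a × Fin b)}
    {oL : P → (Fin a × Fin b) → (Fin a × Fin b) → ℕ} {eF : ℕ}
    (h : CombD a b c d dl g n jj lam om vt oL eF) (p : P) (i : ℕ) (h1 : g p < i) (h2 : i ≤ n p) :
    lam p i ≤ 1 := by
  by_contra hcon
  push Not at hcon
  have ha2 := h.a2
  have hac := h.ac
  have hcd := h.cd
  have hdb := h.db
  have hN := h.N
  have hdl : dl p = 1 := by
    by_contra hne
    have := nonplane_n h p hne
    omega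
  -- the maximal plane
  obtain ⟨p0, hp0, hmax⟩ := Finset.exists_max_image
    (univ.filter (fun p => dl p = 1 ∧ g p < n p)) (fun p => lam p (g p + 1))
    ⟨p, by simp only [mem_filter, mem_univ, true_and]; exact ⟨hdl, by omega⟩⟩
  simp only [mem_filter, mem_univ, true_and] at hp0 hmax
  obtain ⟨hp0l, hp0n⟩ := hp0
  set K : ℕ := lam p0 (g p0 + 1) with hKdef
  have hK2 : 2 ≤ K := by
    have q1 := hmax p ⟨hdl, by omega⟩
    have q2 := h.anti p (g p + 1) i (by omega) (by omega)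
    omega
  have hKc : K < c := h.up p0 (g p0 + 1) (by omega)
  have hKcd : (K : ℤ) * ((c : ℤ) + d - K) ≤ (a : ℤ) + b - 1 := by
    have q1 := h.tail p0 hp0n
    have q2 := card_vt h p0 hp0l
    have q3 : K * (c + d - K) ≤ a + b - 1 := le_trans q1 q2
    have q4 : ((K * (c + d - K) : ℕ) : ℤ) ≤ ((a + b - 1 : ℕ) : ℤ) := by exact_mod_cast q3
    rw [Nat.cast_mul, Nat.cast_sub (by omega : K ≤ c + d), Nat.cast_sub (by omega : 1 ≤ a + b)] at q4
    push_cast at q4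
    exact q4
  -- integer versions
  have za : (2 : ℤ) ≤ a := by exact_mod_cast ha2
  have zac : (a : ℤ) < c := by exact_mod_cast hac
  have zcd : (c : ℤ) ≤ d := by exact_mod_cast hcd
  have zdb : (d : ℤ) < b := by exact_mod_cast hdb
  have zN : (c : ℤ) * d = a * b := by exact_mod_cast hN
  have zK : (2 : ℤ) ≤ K := by exact_mod_cast hK2
  have zKc : (K : ℤ) < c := by exact_mod_cast hKc
  obtain ⟨D0, hD0⟩ : ∃ D0 : ℤ, D0 = (c : ℤ) + d - 1 := ⟨_, rfl⟩
  have hD0K : 0 < D0 - K := by rw [hD0]; linarith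
  have hD0p : 0 < D0 := by rw [hD0]; linarith
  have hba : (0 : ℤ) < (b : ℤ) - a := by linarith
  have hNp : (0 : ℤ) < (a : ℤ) * b := by nlinarith
  -- abbreviations
  set XX : P → ℤ := fun q => XXz c d (g q) (n q) (lam q) with hXX
  set HH : P → ℤ := fun q => HHz c d (g q) (lam q) with hHH
  set Y : P → ℤ := fun q => ∑ i ∈ Ioc (g q) (n q), (lam q i : ℤ) * ((lam q i : ℤ) - 1) with hY
  set Z : P → ℤ := fun q =>
    ∑ i ∈ Icc 1 (g q), ((c : ℤ) - lam q i) * ((c : ℤ) - 1 + lam q i) with hZ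
  -- bounds on lam beyond g
  have hrange : ∀ q, dl q = 1 → ∀ i ∈ Ioc (g q) (n q), 1 ≤ lam q i ∧ lam q i ≤ K := by
    intro q hq i hi
    rw [mem_Ioc] at hi
    have q1 := h.pos q i (by omega) hi.2
    have q2 := h.anti q (g q + 1) i (by omega) (by omega)
    have q3 := hmax q ⟨hq, by omega⟩
    exact ⟨q1, by omega⟩
  have hXXY : ∀ q, dl q = 1 → (D0 - K) * Y q ≤ K * XX q := by
    intro q hq
    simp only [hXX, hY, XXz]
    rw [Finset.mul_sum, Finset.mul_sum]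
    refine Finset.sum_le_sum fun i hi => ?_
    obtain ⟨r1, r2⟩ := hrange q hq i hi
    have r1' : (1 : ℤ) ≤ (lam q i : ℤ) := by exact_mod_cast r1
    have r2' : (lam q i : ℤ) ≤ K := by exact_mod_cast r2
    rw [hD0]
    exact Cm5_XX_term (by linarith) zcd zKc r1' r2'
  have hXXnn : ∀ q, dl q = 1 → 0 ≤ XX q := by
    intro q hq
    simp only [hXX, XXz]
    refine Finset.sum_nonneg fun i hi => ?_
    obtain ⟨r1, r2⟩ := hrange q hq i hi
    have r1' : (1 : ℤ) ≤ (lam q i : ℤ) := by exact_mod_cast r1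
    have r2' : (lam q i : ℤ) ≤ K := by exact_mod_cast r2
    exact mul_nonneg (by linarith) (by linarith)
  have hXX0 : 1 ≤ XX p0 := by
    have hmem : g p0 + 1 ∈ Ioc (g p0) (n p0) := by rw [mem_Ioc]; omega
    have q1 : ((lam p0 (g p0 + 1) : ℤ) - 1) * ((c : ℤ) + d - 1 - lam p0 (g p0 + 1)) ≤ XX p0 := by
      simp only [hXX, XXz]
      refine Finset.single_le_sum (f := fun i => ((lam p0 i : ℤ) - 1) *
        ((c : ℤ) + d - 1 - lam p0 i)) (fun i hi => ?_) hmem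
      obtain ⟨r1, r2⟩ := hrange p0 hp0l i hi
      have r1' : (1 : ℤ) ≤ (lam p0 i : ℤ) := by exact_mod_cast r1
      have r2' : (lam p0 i : ℤ) ≤ K := by exact_mod_cast r2
      exact mul_nonneg (by linarith) (by linarith)
    rw [← hKdef] at q1
    have q2 : (1 : ℤ) * 1 ≤ ((K : ℤ) - 1) * ((c : ℤ) + d - 1 - K) :=
      mul_le_mul (by linarith) (by linarith) (by norm_num) (by linarith)
    linarith
  set pl := univ.filter (fun q : P => dl q = 1) with hpl
  have hp0pl : p0 ∈ pl := by rw [hpl]; simp [hp0l]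
  have hSXX : 1 ≤ ∑ q ∈ pl, XX q := by
    have : XX p0 ≤ ∑ q ∈ pl, XX q := by
      refine Finset.single_le_sum (f := XX) (fun q hq => ?_) hp0pl
      rw [hpl] at hq
      simp only [mem_filter, mem_univ, true_and] at hq
      exact hXXnn q hq
    linarith
  have hSXY : (D0 - K) * ∑ q ∈ pl, Y q ≤ K * ∑ q ∈ pl, XX q := by
    rw [Finset.mul_sum, Finset.mul_sum]
    refine Finset.sum_le_sum fun q hq => ?_
    rw [hpl] at hq
    simp only [mem_filter, mem_univ, true_and] at hq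
    exact hXXY q hq
  -- star
  have hstar : ∑ q, (dl q : ℤ) * Z q + ((d : ℤ) - c) * D0 * eF ≤ ∑ q ∈ pl, Y q := by
    rw [hD0]
    exact Cm5_star h
  -- (P)
  have hP := P_ineq h
  rw [← hD0] at hP
  -- planes
  have hplane : ∀ q, dl q = 1 → K * (D0 * ((g q : ℤ) * ((vt q).card + b - a))) +
      K * (((b : ℤ) - a) * HH q) + g q ≤ ((b : ℤ) - a) * (D0 - K) * Z q := by
    intro q hq
    have hcard : ((vt q).card : ℤ) ≤ (a : ℤ) + b - 1 := by
      have q1 := card_vt h q hq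
      have q2 : (vt q).card + 1 ≤ a + b := by omega
      have q3 : ((vt q).card : ℤ) + 1 ≤ (a : ℤ) + b := by exact_mod_cast q2
      linarith
    have q1 : (K : ℤ) * (D0 * ((g q : ℤ) * ((vt q).card + b - a))) ≤
        (g q : ℤ) * (K * D0 * (2 * b - 1)) := by
      have q2 : (0 : ℤ) ≤ (g q : ℤ) * (K * D0) :=
        mul_nonneg (by positivity) (mul_nonneg (by positivity) hD0p.le)
      have q3 := mul_le_mul_of_nonneg_left (show ((vt q).card : ℤ) + b - a ≤ 2 * b - 1 by linarith) q2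
      linarith
    have q2 : (g q : ℤ) * (K * D0 * (2 * b - 1)) + K * (((b : ℤ) - a) * HH q) + g q =
        ∑ i ∈ Icc 1 (g q), (K * D0 * (2 * b - 1) +
          K * ((b : ℤ) - a) * (((c : ℤ) - lam q i) * ((d : ℤ) - lam q i)) + 1) := by
      rw [Finset.sum_add_distrib, Finset.sum_add_distrib, Finset.sum_const, Finset.sum_const,
        Nat.card_Icc, ← Finset.mul_sum]
      simp only [hHH, HHz, Nat.add_sub_cancel, nsmul_eq_mul, mul_one]
      ring
    have q3 : ((b : ℤ) - a) * (D0 - K) * Z q = ∑ i ∈ Icc 1 (g q),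
        ((b : ℤ) - a) * (D0 - K) * (((c : ℤ) - lam q i) * ((c : ℤ) - 1 + lam q i)) := by
      simp only [hZ]
      rw [Finset.mul_sum]
    have q4 : ∑ i ∈ Icc 1 (g q), (K * D0 * (2 * b - 1) +
          K * ((b : ℤ) - a) * (((c : ℤ) - lam q i) * ((d : ℤ) - lam q i)) + 1) ≤
        ∑ i ∈ Icc 1 (g q),
        ((b : ℤ) - a) * (D0 - K) * (((c : ℤ) - lam q i) * ((c : ℤ) - 1 + lam q i)) := by
      refine Finset.sum_le_sum fun i hi => ?_
      rw [mem_Icc] at hi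
      have r1 := h.pos q i hi.1 (le_trans hi.2 (h.gn q))
      have r2 := h.up q i hi.1
      rw [hD0]
      exact ar2 za zac zcd zN zK zKc hKcd (by exact_mod_cast r1) (by exact_mod_cast r2)
    rw [q3]
    linarith
  have hnonpl : ∀ q, K * ((g q : ℤ) * (D0 * ((a : ℤ) * b + 1) + b - a)) + g q ≤
      ((b : ℤ) - a) * (D0 - K) * Z q := by
    intro q
    have q2 : K * ((g q : ℤ) * (D0 * ((a : ℤ) * b + 1) + b - a)) + g q =
        ∑ i ∈ Icc 1 (g q), (K * (D0 * ((a : ℤ) * b + 1) + b - a) + 1) := by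
      rw [Finset.sum_const, Nat.card_Icc]
      simp only [Nat.add_sub_cancel, nsmul_eq_mul]
      ring
    have q3 : ((b : ℤ) - a) * (D0 - K) * Z q = ∑ i ∈ Icc 1 (g q),
        ((b : ℤ) - a) * (D0 - K) * (((c : ℤ) - lam q i) * ((c : ℤ) - 1 + lam q i)) := by
      simp only [hZ]
      rw [Finset.mul_sum]
    rw [q2, q3]
    refine Finset.sum_le_sum fun i hi => ?_
    rw [mem_Icc] at hi
    have r1 := h.pos q i hi.1 (le_trans hi.2 (h.gn q))
    have r2 := h.up q i hi.1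
    rw [hD0]
    exact ar3 za zac zcd zN zK zKc hKcd (by exact_mod_cast r1) (by exact_mod_cast r2)
  -- sum over all p
  have hsum : K * (D0 * ∑ q ∈ pl, (g q : ℤ) * ((vt q).card + b - a)) +
      K * (((b : ℤ) - a) * ∑ q ∈ pl, HH q) +
      K * (∑ q ∈ univ.filter (fun q => dl q ≠ 1), (dl q : ℤ) * g q * (D0 * (a * b + 1) + b - a)) +
      ∑ q, (dl q : ℤ) * g q ≤ ((b : ℤ) - a) * (D0 - K) * ∑ q, (dl q : ℤ) * Z q := by
    have s1 : ∑ q, (dl q : ℤ) * g q = ∑ q ∈ pl, (g q : ℤ) +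
        ∑ q ∈ univ.filter (fun q => dl q ≠ 1), (dl q : ℤ) * g q := by
      rw [← Finset.sum_filter_add_sum_filter_not univ (fun q => dl q = 1)]
      congr 1
      refine Finset.sum_congr rfl fun q hq => ?_
      rw [hpl] at hq
      simp only [mem_filter, mem_univ, true_and] at hq
      rw [hq]; push_cast; ring
    have s2 : ∑ q, (dl q : ℤ) * Z q = ∑ q ∈ pl, Z q +
        ∑ q ∈ univ.filter (fun q => dl q ≠ 1), (dl q : ℤ) * Z q := by
      rw [← Finset.sum_filter_add_sum_filter_not univ (fun q => dl q = 1)]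
      congr 1
      refine Finset.sum_congr rfl fun q hq => ?_
      rw [hpl] at hq
      simp only [mem_filter, mem_univ, true_and] at hq
      rw [hq]; push_cast; ring
    have s3 : K * (D0 * ∑ q ∈ pl, (g q : ℤ) * ((vt q).card + b - a)) +
        K * (((b : ℤ) - a) * ∑ q ∈ pl, HH q) + ∑ q ∈ pl, (g q : ℤ) ≤
        ((b : ℤ) - a) * (D0 - K) * ∑ q ∈ pl, Z q := by
      rw [Finset.mul_sum, Finset.mul_sum, Finset.mul_sum, Finset.mul_sum, Finset.mul_sum,
        ← Finset.sum_add_distrib, ← Finset.sum_add_distrib]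
      refine Finset.sum_le_sum fun q hq => ?_
      rw [hpl] at hq
      simp only [mem_filter, mem_univ, true_and] at hq
      exact hplane q hq
    have s4 : K * (∑ q ∈ univ.filter (fun q => dl q ≠ 1),
        (dl q : ℤ) * g q * (D0 * (a * b + 1) + b - a)) +
        ∑ q ∈ univ.filter (fun q => dl q ≠ 1), (dl q : ℤ) * g q ≤
        ((b : ℤ) - a) * (D0 - K) * ∑ q ∈ univ.filter (fun q => dl q ≠ 1), (dl q : ℤ) * Z q := by
      rw [Finset.mul_sum, Finset.mul_sum, ← Finset.sum_add_distrib]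
      refine Finset.sum_le_sum fun q hq => ?_
      have := mul_le_mul_of_nonneg_left (hnonpl q) (show (0 : ℤ) ≤ (dl q : ℤ) by positivity)
      linarith
    rw [s1, s2]
    linarith
  have hkap := (ar_kappa za zac zcd zN).2
  have hfirst : 0 ≤ D0 * ((a : ℤ) * b) * ((a : ℤ) + b - c - d - 1) :=
    mul_nonneg (mul_nonneg hD0p.le hNp.le) (by linarith)
  have hK0 : (0 : ℤ) ≤ K := by positivity
  have hbaK : 0 ≤ ((b : ℤ) - a) * (D0 - K) := mul_nonneg hba.le hD0K.le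
  have hP2 : (K : ℤ) * (((b : ℤ) - a) * ∑ q ∈ pl, XX q) ≤
      K * (D0 * ((a : ℤ) * b) * ∑ q, (dl q : ℤ) * jj q) +
      K * (D0 * ∑ q ∈ pl, (g q : ℤ) * ((vt q).card + b - a)) +
      K * (((b : ℤ) - a) * ∑ q ∈ pl, HH q) +
      K * (∑ q ∈ univ.filter (fun q => dl q ≠ 1), (dl q : ℤ) * g q * (D0 * (a * b + 1) + b - a)) := by
    rw [← mul_add, ← mul_add, ← mul_add]
    exact mul_le_mul_of_nonneg_left (by linarith) hK0
  have hstar2 := mul_le_mul_of_nonneg_left hstar hbaK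
  have hSXY2 := mul_le_mul_of_nonneg_left hSXY hba.le
  have heF : (0 : ℤ) ≤ (eF : ℤ) := by positivity
  rcases h.loss with hj | ⟨hdc, hj⟩
  · have hjj : ∑ q, (dl q : ℤ) * jj q = 0 := by
      refine Finset.sum_eq_zero fun q _ => ?_
      rw [hj q]; simp
    rw [hjj] at hP2
    have t1 : 0 ≤ ((b : ℤ) - a) * (D0 - K) * (((d : ℤ) - c) * D0 * eF) :=
      mul_nonneg hbaK (mul_nonneg (mul_nonneg (by linarith) hD0p.le) heF)
    have t2 : ∑ q, (dl q : ℤ) * g q ≤ 0 := by linarith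
    have t3 : ∀ q, g q = 0 := by
      intro q
      have u1 : (dl q : ℤ) * g q ≤ ∑ q, (dl q : ℤ) * g q :=
        Finset.single_le_sum (f := fun q => (dl q : ℤ) * g q) (fun r _ => by positivity) (mem_univ q)
      have u2 : dl q * g q = 0 := by
        have : ((dl q * g q : ℕ) : ℤ) ≤ 0 := by push_cast; linarith
        omega
      have u3 := h.dl1 q
      rcases Nat.mul_eq_zero.1 u2 with u4 | u4
      · omega
      · exact u4
    have t4 : ∑ q ∈ pl, HH q = 0 := by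
      refine Finset.sum_eq_zero fun q _ => ?_
      simp only [hHH, HHz]
      rw [t3 q]
      simp
    have t5 : ∑ q ∈ pl, (g q : ℤ) * ((vt q).card + b - a) = 0 := by
      refine Finset.sum_eq_zero fun q _ => ?_
      rw [t3 q]
      simp
    have t6 : ∑ q ∈ univ.filter (fun q => dl q ≠ 1),
        (dl q : ℤ) * g q * (D0 * (a * b + 1) + b - a) = 0 := by
      refine Finset.sum_eq_zero fun q _ => ?_
      rw [t3 q]
      simp
    rw [t4, t5, t6] at hP2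
    have t7 : 0 < (K : ℤ) * (((b : ℤ) - a) * ∑ q ∈ pl, XX q) :=
      mul_pos (by linarith) (mul_pos hba (by linarith))
    linarith
  · have zdc : (d : ℤ) = c + 1 := by exact_mod_cast hdc
    have zj : ∑ q, (dl q : ℤ) * jj q + 1 + ∑ q, (dl q : ℤ) * g q ≤ 2 * eF := by exact_mod_cast hj
    have h4 := ar4 za zac zdc zN zK zKc hKcd
    rw [← hD0] at h4
    have w1 : 0 < (K : ℤ) * (D0 * ((a : ℤ) * b)) := mul_pos (by linarith) (mul_pos hD0p hNp)
    have w2 : (0 : ℤ) ≤ ∑ q, (dl q : ℤ) * g q := Finset.sum_nonneg fun q _ => by positivity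
    have w3 : (K : ℤ) * (D0 * ((a : ℤ) * b) * ∑ q, (dl q : ℤ) * jj q) ≤
        K * (D0 * ((a : ℤ) * b)) * (2 * eF - 1) := by
      have := mul_le_mul_of_nonneg_left (show ∑ q, (dl q : ℤ) * jj q ≤ 2 * eF - 1 by linarith) w1.le
      linarith
    have w4 : (K : ℤ) * (D0 * ((a : ℤ) * b)) * (2 * eF) ≤
        ((b : ℤ) - a) * (D0 - K) * (((d : ℤ) - c) * D0 * eF) := by
      have := mul_le_mul_of_nonneg_right h4 (show (0 : ℤ) ≤ D0 * eF from mul_nonneg hD0p.le heF)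
      rw [zdc]
      linarith
    linarith

end GP80
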