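import Mathlib
import Pool.Agent.H80.GP.Cmd
import Pool.Agent.H80.GP.Cm2
import Pool.Agent.H80.GP.Cm3
import Pool.Agent.H80.GP.Cm4
import Pool.Agent.H80.GP.Cm5

/-!
# Row Cm6 (MP_87ed0a_GP): `g = 0`, no loss, `a + b = c + d + 1`  (about 120 lines)

By `lam_le_one` and `pos`, `lam p i = 1` for `g p < i ≤ n p`, so `∑_{i=1}^{n p} lam i (lam i - 1) = ∑_{i ≤ g p} lam i (lam i - 1) ≤ g p (c-1)(c-2)` (`lam i ≤ c - 1`).  `star`:
`c(c-1) ∑ dl g + (d-c)(c+d-1) eF ≤ (c-1)(c-2) ∑ dl g`, so `∑ dl g = 0` (`c(c-1) > (c-1)(c-2)`), all `g p = 0` (`dl p ≥ 1`), and `(d-c)(c+d-1) eF = 0`.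
`loss`: the second alternative would give `d - c = 1`, so `eF = 0`, `.. + 1 ≤ 0`: impossible.  So all `jj p = 0`.
`P_ineq` with `g = 0`, `jj = 0` (`HH = 0`, `XX = 0` since `lam = 1`): `(c+d-1) a b (a+b-c-d-1) ≤ 0`, so `a + b ≤ c + d + 1`; `ar_kappa` gives `a + b ≥ c + d + 1`.
-/

namespace GP80

open Finset

theorem g_zero {a b c d : ℕ} {P : Type} [Fintype P] {dl g n jj : P → ℕ} {lam : P → ℕ → ℕ}
    {om : P → Fin a × Fin b → ℕ} {vt : P → Finset (Fin a × Fin b)}
    {oL : P → (Fin a × Fin b) → (Fin a × Fin b) → ℕ} {eF : ℕ}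
    (h : CombD a b c d dl g n jj lam om vt oL eF) :
    (∀ p, g p = 0) ∧ (∀ p, jj p = 0) ∧ (∀ p i, 1 ≤ i → i ≤ n p → lam p i = 1) ∧
      a + b = c + d + 1 := by
  have ha2 := h.a2
  have hac := h.ac
  have hcd := h.cd
  have hdb := h.db
  have hlam1 : ∀ p i, g p < i → i ≤ n p → lam p i = 1 := by
    intro p i h1 h2
    have h3 := lam_le_one h p i h1 h2
    have h4 := h.pos p i (by omega) h2
    omega
  have hterm : ∀ p, ∑ i ∈ Icc 1 (n p), lam p i * (lam p i - 1) ≤
      g p * ((c - 1) * (c - 2)) := by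
    intro p
    have h1 : ∀ i ∈ Icc 1 (n p), lam p i * (lam p i - 1) ≤
        if i ≤ g p then (c - 1) * (c - 2) else 0 := by
      intro i hi
      rw [mem_Icc] at hi
      split_ifs with h2
      · have h3 := h.up p i hi.1
        exact Nat.mul_le_mul (by omega) (by omega)
      · rw [hlam1 p i (by omega) hi.2]
    refine (sum_le_sum h1).trans ?_
    rw [← sum_filter, sum_const, smul_eq_mul]
    refine Nat.mul_le_mul_right _ ?_
    have h2 : (Icc 1 (n p)).filter (fun i => i ≤ g p) ⊆ Icc 1 (g p) := by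
      intro i hi
      rw [mem_filter, mem_Icc] at hi
      rw [mem_Icc]
      exact ⟨hi.1.1, hi.2⟩
    refine (card_le_card h2).trans ?_
    rw [Nat.card_Icc]
    omega
  have hstar := h.star
  have hsum : ∑ p, dl p * ∑ i ∈ Icc 1 (n p), lam p i * (lam p i - 1) ≤
      (c - 1) * (c - 2) * ∑ p, dl p * g p := by
    rw [mul_sum]
    refine sum_le_sum fun p _ => ?_
    refine (Nat.mul_le_mul_left _ (hterm p)).trans (le_of_eq ?_)
    ring
  obtain ⟨G, hG⟩ : ∃ G, G = ∑ p, dl p * g p := ⟨_, rfl⟩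
  rw [← hG] at hsum hstar
  obtain ⟨c', hc'⟩ : ∃ c', c = c' + 3 := ⟨c - 3, by omega⟩
  have hst2 : c * (c - 1) * G + (d - c) * (c + d - 1) * eF ≤ (c - 1) * (c - 2) * G :=
    hstar.trans hsum
  have hG0 : G = 0 := by
    by_contra hcon
    have h1 : 1 ≤ G := Nat.one_le_iff_ne_zero.2 hcon
    have h2 : c * (c - 1) * G ≤ (c - 1) * (c - 2) * G := le_trans (Nat.le_add_right _ _) hst2
    rw [hc', show c' + 3 - 1 = c' + 2 by omega, show c' + 3 - 2 = c' + 1 by omega] at h2
    have h3 := Nat.le_of_mul_le_mul_right h2 h1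
    nlinarith
  have hE0 : (d - c) * (c + d - 1) * eF = 0 := by
    rw [hG0] at hst2
    simpa using hst2
  have hg : ∀ p, g p = 0 := by
    intro p
    rw [hG0] at hG
    have h1 := (sum_eq_zero_iff.1 hG.symm) p (mem_univ p)
    have h2 := h.dl1 p
    rcases Nat.mul_eq_zero.1 h1 with h3 | h3
    · omega
    · exact h3
  have hj : ∀ p, jj p = 0 := by
    rcases h.loss with h1 | ⟨h1, h2⟩
    · exact h1
    · exfalso
      rw [h1, show c + 1 - c = 1 by omega, one_mul] at hE0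
      rcases Nat.mul_eq_zero.1 hE0 with h3 | h3
      · omega
      · rw [h3] at h2
        omega
  have hl : ∀ p i, 1 ≤ i → i ≤ n p → lam p i = 1 := by
    intro p i h1 h2
    exact hlam1 p i (by rw [hg p]; omega) h2
  refine ⟨hg, hj, hl, ?_⟩
  have hP := P_ineq h
  have e1 : ∑ p ∈ univ.filter (fun p => dl p = 1), XXz c d (g p) (n p) (lam p) = 0 := by
    refine sum_eq_zero fun p _ => ?_
    unfold XXz
    refine sum_eq_zero fun i hi => ?_
    rw [mem_Ioc, hg p] at hi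
    rw [hl p i (by omega) hi.2]
    simp
  have e2 : ∑ p, (dl p : ℤ) * jj p = 0 := sum_eq_zero fun p _ => by rw [hj p]; simp
  have e3 : ∑ p ∈ univ.filter (fun p => dl p = 1), (g p : ℤ) * ((vt p).card + b - a) = 0 :=
    sum_eq_zero fun p _ => by rw [hg p]; simp
  have e4 : ∑ p ∈ univ.filter (fun p => dl p = 1), HHz c d (g p) (lam p) = 0 := by
    refine sum_eq_zero fun p _ => ?_
    unfold HHz
    rw [hg p]
    simp
  have e5 : ∑ p ∈ univ.filter (fun p => dl p ≠ 1), (dl p : ℤ) * g p *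
      (((c : ℤ) + d - 1) * (a * b + 1) + b - a) = 0 :=
    sum_eq_zero fun p _ => by rw [hg p]; simp
  rw [e1, e2, e3, e4, e5] at hP
  simp only [mul_zero, add_zero] at hP
  have hN : (c : ℤ) * d = a * b := by exact_mod_cast h.N
  obtain ⟨_, h2⟩ := ar_kappa (a := (a : ℤ)) (b := b) (c := c) (d := d) (by exact_mod_cast ha2)
    (by exact_mod_cast hac) (by exact_mod_cast hcd) hN
  have h3 : (a : ℤ) + b - c - d - 1 ≤ 0 := by
    by_contra hcon
    push Not at hcon
    have h4 : 0 < ((c : ℤ) + d - 1) * (a * b) := by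
      have h5 : (0 : ℤ) < a := by exact_mod_cast (by omega : 0 < a)
      have h6 : (0 : ℤ) < b := by exact_mod_cast (by omega : 0 < b)
      have h7 : (0 : ℤ) < (c : ℤ) + d - 1 := by
        have h8 : (3 : ℤ) ≤ c := by exact_mod_cast (by omega : 3 ≤ c)
        have h9 : (3 : ℤ) ≤ d := by exact_mod_cast (by omega : 3 ≤ d)
        linarith
      exact mul_pos h7 (mul_pos h5 h6)
    have h5 := mul_pos h4 hcon
    linarith
  omega

end GP80
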