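import Mathlib
import Pool.Agent.H80.GP.Cmd
import Pool.Agent.H80.GP.Cm1
import Pool.Agent.H80.GP.Cm2
import Pool.Agent.H80.GP.Cm3
import Pool.Agent.H80.GP.Cm6

/-!
# Row Cm7 (MP_87ed0a_GP): equality: weights of the planes  (about 200 lines)

By `g_zero`: `g = 0`, `jj = 0`, `lam = 1` on `1..n`, `D0 := c + d - 1 = a + b - 2`.  `N = a b`.  Nonplanes: `n p = 0`, `om p s = 0` (`omn`).  `om p s = 0` for `s ∉ vt p`.  `T p = ∑_{s ∈ vt p} om p s`.
1. `T p ≥ n p * D0` (`sum` with `lam = 1`).  `∑_pl T p = N D0` (sum `G1` over `s`: `∑_p dl p om p s = D0`).  So `∑_pl n p ≤ N`.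
2. Sum of `chord` over generic pairs and `plane_pairs`: `2 N (a-1)(b-1) ≤ ∑_pl PP p ≤ (a-1) ∑_pl (T p + (b-a) n p) ≤ (a-1)(N D0 + (b-a) N) = 2 N (a-1)(b-1)`, where
   `PP p = ∑_pairs om p s * oL p s s'` (nonplanes contribute 0).  So equality everywhere: every chord sum is exactly 2, `PP p = (a-1)(T p + (b-a) n p)`, `∑ n p = N`, `T p = n p D0` (`b > a`, `a ≥ 2`).
3. Let `p` be a plane with `n p ≥ 1`, `n = n p`.  `tail` (`lam 1 = 1`): `card (vt p) ≥ D0 = a + b - 2 > a` (`b ≥ 4`: `b > d ≥ c > a ≥ 2`), so the second alternative of `plane` (`card ≤ a`) is impossible; let `(l, j)` be as in the first alternative.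
   As in Row Cm1: `PP p = ∑_{s ∈ vt p} om p s * part(s)`, `part(l,m) ≤ a-1`, `part(k,j) ≤ b-1`, `part(l,j) = 0`, so with `R = ∑ om` over `(l,m) ∈ vt`, `m ≠ j`, `C = ∑ om` over `(k,j) ∈ vt`, `k ≠ l`, `C ≤ (a-1) n`, `o = om p (l,j)` (0 if not in `vt`), `T p = R + C + o`:
   `PP p ≤ (a-1) R + (b-1) C ≤ (a-1)(T p + (b-a) n) - (a-1) o - (b-a)((a-1) n - C)`.  Equality: `o = 0`, `C = (a-1) n`, so all `(k, j)`, `k ≠ l`, are in `vt p` with `om = n`; also `part(k,j) = b-1` (`om = n > 0`), so all `(l,m)`, `m ≠ j`, are in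
   `vt p`; `T p = n D0 = n (a+b-2)` gives `R = n (b-1)`, so `om p (l,m) = n` for all `m ≠ j`.
Result `plane_struct`: for every plane with `n p ≥ 1` there are `l, j` with: `vt p` contains all `s ≠ (l,j)` with `s.1 = l ∨ s.2 = j`, `om p s = n p` there; `om p (l,j) = 0`; and all `s ∈ vt p` satisfy `s.1 = l ∨ s.2 = j`.
-/

namespace GP80

open Finset

theorem Cm7_cross {a b : ℕ} (F : Fin a × Fin b → ℕ) (l : Fin a) (j : Fin b)
    (h : ∀ x y, x ≠ l → y ≠ j → F (x, y) = 0) :
    ∑ s, F s = F (l, j) + ∑ y ∈ univ.erase j, F (l, y) + ∑ x ∈ univ.erase l, F (x, j) := by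
  rw [Fintype.sum_prod_type, ← add_sum_erase univ _ (mem_univ l),
    ← add_sum_erase univ (fun y => F (l, y)) (mem_univ j)]
  congr 1
  refine sum_congr rfl fun x hx => ?_
  exact Fintype.sum_eq_single j fun y hy => h x y (ne_of_mem_erase hx) hy

theorem Cm7_ar {q r R C n A B : ℕ} (hA : 1 ≤ A) (hB : 1 ≤ B) (hn : 1 ≤ n) (hq : q ≤ A)
    (hr : r ≤ B) (hR : R ≤ n * r) (hC : C ≤ n * q) (h : 2 * n * A * B ≤ q * R + r * C) :
    q = A ∧ r = B ∧ R = n * B ∧ C = n * A := by
  have h1 : q * R + r * C ≤ 2 * n * (q * r) := by nlinarith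
  have h2 : 2 * n * (A * B) ≤ 2 * n * (q * r) := by
    calc 2 * n * (A * B) = 2 * n * A * B := by ring
      _ ≤ _ := h.trans h1
  have h3 : A * B ≤ q * r := Nat.le_of_mul_le_mul_left h2 (by omega)
  have h4 : q = A := by
    by_contra hne
    have hlt : q < A := lt_of_le_of_ne hq hne
    have h5 : q * r ≤ q * B := Nat.mul_le_mul_left _ hr
    have h6 : q * B < A * B := Nat.mul_lt_mul_of_pos_right hlt hB
    omega
  have h5 : r = B := by
    by_contra hne
    have hlt : r < B := lt_of_le_of_ne hr hne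
    have h5 : q * r ≤ A * r := Nat.mul_le_mul_right _ hq
    have h6 : A * r < A * B := Nat.mul_lt_mul_of_pos_left hlt hA
    omega
  subst h4 h5
  refine ⟨rfl, rfl, ?_, ?_⟩
  · by_contra hne
    have hlt : R < n * r := lt_of_le_of_ne hR hne
    have h6 : q * R < q * (n * r) := Nat.mul_lt_mul_of_pos_left hlt hA
    have h7 : r * C ≤ r * (n * q) := Nat.mul_le_mul_left _ hC
    have h8 : 2 * n * q * r = q * (n * r) + r * (n * q) := by ring
    omega
  · by_contra hne
    have hlt : C < n * q := lt_of_le_of_ne hC hne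
    have h6 : r * C < r * (n * q) := Nat.mul_lt_mul_of_pos_left hlt hB
    have h7 : q * R ≤ q * (n * r) := Nat.mul_le_mul_left _ hR
    have h8 : 2 * n * q * r = q * (n * r) + r * (n * q) := by ring
    omega

theorem plane_struct {a b c d : ℕ} {P : Type} [Fintype P] {dl g n jj : P → ℕ} {lam : P → ℕ → ℕ}
    {om : P → Fin a × Fin b → ℕ} {vt : P → Finset (Fin a × Fin b)}
    {oL : P → (Fin a × Fin b) → (Fin a × Fin b) → ℕ} {eF : ℕ}
    (h : CombD a b c d dl g n jj lam om vt oL eF) :
    (∀ s s', s.1 ≠ s'.1 → s.2 ≠ s'.2 → ∑ p, om p s * oL p s s' = 2) ∧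
    (∀ p, dl p ≠ 1 → n p = 0) ∧
    (∀ p, dl p = 1 → 1 ≤ n p → ∃ l j, (∀ s ∈ vt p, s.1 = l ∨ s.2 = j) ∧
      (∀ s, (s.1 = l ∨ s.2 = j) → s ≠ (l, j) → s ∈ vt p ∧ om p s = n p) ∧ om p (l, j) = 0) := by
  classical
  obtain ⟨hg, hjj, hlam, hab⟩ := g_zero h
  have ha := h.a2
  have hac := h.ac
  have hcd := h.cd
  have hdb := h.db
  -- nonplanes
  have hnp : ∀ p, dl p ≠ 1 → n p = 0 := fun p hp => by rw [nonplane_n h p hp, hg p]
  have hom0 : ∀ p, dl p ≠ 1 → ∀ s, om p s = 0 := fun p hp s => by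
    have h1 := h.omn p s
    rw [hnp p hp] at h1
    omega
  have hout : ∀ p s, s ∉ vt p → om p s = 0 := fun p s hs => by rw [h.nv p s hs, hg p]
  have hT : ∀ p, ∑ s, om p s = ∑ s ∈ vt p, om p s := fun p =>
    (sum_subset (subset_univ _) fun s _ hs => hout p s hs).symm
  -- T p ≥ n p * D0
  have hTn : ∀ p, n p * (a + b - 2) ≤ ∑ s, om p s := by
    intro p
    have h1 := h.sum p
    have h2 : ∑ i ∈ Icc 1 (n p), lam p i * (c + d - lam p i) = n p * (a + b - 2) := by
      rw [sum_congr rfl (fun i hi => by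
        rw [mem_Icc] at hi
        rw [hlam p i hi.1 hi.2] : ∀ i ∈ Icc 1 (n p), lam p i * (c + d - lam p i) =
          1 * (c + d - 1)), sum_const, Nat.card_Icc, smul_eq_mul, one_mul]
      congr 1
      omega
    rw [h2] at h1
    exact h1
  -- sum over p of om
  have hG : ∀ s, ∑ p, om p s = a + b - 2 := by
    intro s
    have h1 := h.G1 s
    have h2 : ∑ p, dl p * g p = 0 := by
      refine sum_eq_zero fun p _ => ?_
      rw [hg p, mul_zero]
    have h3 : ∑ p, dl p * om p s = ∑ p, om p s := by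
      refine sum_congr rfl fun p _ => ?_
      by_cases hp : dl p = 1
      · rw [hp, one_mul]
      · rw [hom0 p hp s, mul_zero]
    rw [h2, h3] at h1
    omega
  have hST : ∑ p, ∑ s, om p s = (a * b) * (a + b - 2) := by
    rw [sum_comm, sum_congr rfl fun s _ => hG s, sum_const, card_univ, Fintype.card_prod,
      Fintype.card_fin, Fintype.card_fin, smul_eq_mul]
  have hSn : ∑ p, n p ≤ a * b := by
    have h1 := sum_le_sum (s := univ) fun p _ => hTn p
    rw [hST, ← sum_mul] at h1
    exact Nat.le_of_mul_le_mul_right h1 (by omega)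
  -- the pairs sums
  have hPP : ∀ p ∈ (univ : Finset P), ∑ s : Fin a × Fin b, ∑ s' : Fin a × Fin b,
      (if s.1 ≠ s'.1 ∧ s.2 ≠ s'.2 then om p s * oL p s s' else 0) ≤
      (a - 1) * (∑ s, om p s + (b - a) * n p) := by
    intro p _
    by_cases hp : dl p = 1
    · rw [hT p]
      exact plane_pairs h p hp
    · refine le_trans (le_of_eq ?_) (Nat.zero_le _)
      refine sum_eq_zero fun s _ => sum_eq_zero fun s' _ => ?_
      rw [hom0 p hp s, zero_mul, ite_self]
  have hch : ∀ s s' : Fin a × Fin b, s.1 ≠ s'.1 → s.2 ≠ s'.2 → 2 ≤ ∑ p, om p s * oL p s s' := by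
    intro s s' h1 h2
    have h3 := h.chord s s' h1 h2
    rw [sum_congr rfl (fun p _ => by rw [hjj p, add_zero] : ∀ p ∈ (univ : Finset P),
      (om p s + jj p) * oL p s s' = om p s * oL p s s')] at h3
    exact h3
  have hle1 : ∀ s ∈ (univ : Finset (Fin a × Fin b)), ∑ s' : Fin a × Fin b,
      (if s.1 ≠ s'.1 ∧ s.2 ≠ s'.2 then 2 else 0) ≤
      ∑ s' : Fin a × Fin b, (if s.1 ≠ s'.1 ∧ s.2 ≠ s'.2 then ∑ p, om p s * oL p s s' else 0) := by
    intro s _
    refine sum_le_sum fun s' _ => ?_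
    split_ifs with hh
    · exact hch s s' hh.1 hh.2
    · exact le_rfl
  have hcount : ∑ s : Fin a × Fin b, ∑ s' : Fin a × Fin b,
      (if s.1 ≠ s'.1 ∧ s.2 ≠ s'.2 then 2 else 0) = (a * b) * (((a - 1) * (b - 1)) * 2) := by
    have h3 : ∀ s : Fin a × Fin b, ∑ s' : Fin a × Fin b,
      (if s.1 ≠ s'.1 ∧ s.2 ≠ s'.2 then 2 else 0) = ((a - 1) * (b - 1)) * 2 := by
      intro s
      rw [← sum_filter, sum_const, Cm3_count, smul_eq_mul]
    rw [sum_congr rfl fun s _ => h3 s, sum_const, card_univ, Fintype.card_prod, Fintype.card_fin,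
      Fintype.card_fin, smul_eq_mul]
  have hswap := Cm3_swap (P := P) (fun s s' : Fin a × Fin b => s.1 ≠ s'.1 ∧ s.2 ≠ s'.2)
    (fun p s s' => om p s * oL p s s')
  have hge := sum_le_sum hle1
  have hup := sum_le_sum hPP
  have hupval : ∑ p, (a - 1) * (∑ s, om p s + (b - a) * n p) =
      (a - 1) * ((a * b) * (a + b - 2) + (b - a) * ∑ p, n p) := by
    rw [← mul_sum, sum_add_distrib, hST, ← mul_sum]
  have hba : (b - a) * ∑ p, n p ≤ (b - a) * (a * b) := Nat.mul_le_mul_left _ hSn
  have hid : (a - 1) * ((a * b) * (a + b - 2) + (b - a) * (a * b)) =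
      (a * b) * (((a - 1) * (b - 1)) * 2) := by
    have h1 : (a + b - 2) + (b - a) = (b - 1) * 2 := by omega
    calc (a - 1) * ((a * b) * (a + b - 2) + (b - a) * (a * b)) =
        (a - 1) * (a * b) * ((a + b - 2) + (b - a)) := by ring
      _ = _ := by rw [h1]; ring
  have hupper : (a - 1) * ((a * b) * (a + b - 2) + (b - a) * ∑ p, n p) ≤
      (a * b) * (((a - 1) * (b - 1)) * 2) := by
    rw [← hid]
    exact Nat.mul_le_mul_left _ (Nat.add_le_add_left hba _)
  rw [hcount] at hge
  rw [hupval] at hup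
  have hE1 : ∑ s : Fin a × Fin b, ∑ s' : Fin a × Fin b,
      (if s.1 ≠ s'.1 ∧ s.2 ≠ s'.2 then ∑ p, om p s * oL p s s' else 0) =
      (a * b) * (((a - 1) * (b - 1)) * 2) := by
    refine le_antisymm ?_ hge
    rw [hswap]
    exact hup.trans hupper
  have hE2 : ∑ p, ∑ s : Fin a × Fin b, ∑ s' : Fin a × Fin b,
      (if s.1 ≠ s'.1 ∧ s.2 ≠ s'.2 then om p s * oL p s s' else 0) =
      ∑ p, (a - 1) * (∑ s, om p s + (b - a) * n p) := by
    rw [hupval]
    refine le_antisymm hup ?_
    rw [← hswap, hE1]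
    exact hupper
  have hE3 : ∑ p, n p = a * b := by
    rw [← hswap, hE1, hupval, ← hid] at hE2
    have h1 := Nat.eq_of_mul_eq_mul_left (by omega) hE2
    have h2 := Nat.add_left_cancel h1
    exact (Nat.eq_of_mul_eq_mul_left (by omega) h2).symm
  have hTeq : ∀ p, n p * (a + b - 2) = ∑ s, om p s := by
    have h1 : ∑ p, n p * (a + b - 2) = ∑ p, ∑ s, om p s := by
      rw [← sum_mul, hE3, hST]
    intro p
    exact (sum_eq_sum_iff_of_le fun p _ => hTn p).1 h1 p (mem_univ p)
  have hPPeq : ∀ p, ∑ s : Fin a × Fin b, ∑ s' : Fin a × Fin b,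
      (if s.1 ≠ s'.1 ∧ s.2 ≠ s'.2 then om p s * oL p s s' else 0) =
      (a - 1) * (∑ s, om p s + (b - a) * n p) := fun p =>
    (sum_eq_sum_iff_of_le hPP).1 hE2 p (mem_univ p)
  refine ⟨?_, hnp, ?_⟩
  · intro s s' h1 h2
    have h3 := (sum_eq_sum_iff_of_le hle1).1 (by rw [hcount, hE1]) s (mem_univ s)
    have h4 := (sum_eq_sum_iff_of_le (fun s'' _ => by
      split_ifs with hh
      · exact hch s s'' hh.1 hh.2
      · exact le_rfl : ∀ s'' ∈ (univ : Finset (Fin a × Fin b)),
        (if s.1 ≠ s''.1 ∧ s.2 ≠ s''.2 then 2 else 0) ≤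
        (if s.1 ≠ s''.1 ∧ s.2 ≠ s''.2 then ∑ p, om p s * oL p s s'' else 0))).1 h3 s' (mem_univ s')
    rw [if_pos ⟨h1, h2⟩, if_pos ⟨h1, h2⟩] at h4
    exact h4.symm
  · intro p hp hn
    have hcard : a + b - 2 ≤ (vt p).card := by
      have h1 := h.tail p (by rw [hg p]; omega)
      rw [hg p, zero_add, hlam p 1 le_rfl hn] at h1
      omega
    have hlj : ∃ l j, ∀ s ∈ vt p, s.1 = l ∨ s.2 = j := by
      rcases h.plane p hp with h1 | h1
      · exact h1
      · exfalso
        have h2 : (vt p).card ≤ (univ : Finset (Fin a)).card := by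
          refine card_le_card_of_injOn Prod.fst (fun _ _ => mem_coe.2 (mem_univ _)) ?_
          intro s hs s' hs' he
          by_contra hne
          exact (h1 s (mem_coe.1 hs) s' (mem_coe.1 hs') hne).1 he
        rw [card_univ, Fintype.card_fin] at h2
        omega
    obtain ⟨l, j, hlj⟩ := hlj
    have hnot : ∀ x y, x ≠ l → y ≠ j → (x, y) ∉ vt p := by
      intro x y hx hy hm
      rcases hlj (x, y) hm with h1 | h1
      · exact hx h1
      · exact hy h1
    set q := ∑ x ∈ univ.erase l, (if (x, j) ∈ vt p then 1 else 0) with hq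
    set r := ∑ y ∈ univ.erase j, (if (l, y) ∈ vt p then 1 else 0) with hr
    set R := ∑ y ∈ univ.erase j, om p (l, y) with hR
    set C := ∑ x ∈ univ.erase l, om p (x, j) with hC
    have hqa : q ≤ a - 1 := by
      have h1 : q ≤ ∑ x ∈ (univ : Finset (Fin a)).erase l, 1 := by
        refine sum_le_sum fun x _ => ?_
        split_ifs <;> omega
      rw [sum_const, card_erase_of_mem (mem_univ _), card_univ, Fintype.card_fin, smul_eq_mul,
        mul_one] at h1
      exact h1
    have hrb : r ≤ b - 1 := by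
      have h1 : r ≤ ∑ y ∈ (univ : Finset (Fin b)).erase j, 1 := by
        refine sum_le_sum fun y _ => ?_
        split_ifs <;> omega
      rw [sum_const, card_erase_of_mem (mem_univ _), card_univ, Fintype.card_fin, smul_eq_mul,
        mul_one] at h1
      exact h1
    have hind : ∀ s, om p s ≤ n p * (if s ∈ vt p then 1 else 0) := by
      intro s
      split_ifs with hs
      · rw [mul_one]
        exact h.omn p s
      · rw [hout p s hs, mul_zero]
    have hRr : R ≤ n p * r := by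
      rw [hR, hr, mul_sum]
      exact sum_le_sum fun y _ => hind (l, y)
    have hCq : C ≤ n p * q := by
      rw [hC, hq, mul_sum]
      exact sum_le_sum fun x _ => hind (x, j)
    have hTs : ∑ s, om p s = om p (l, j) + R + C :=
      Cm7_cross (om p) l j fun x y hx hy => hout p _ (hnot x y hx hy)
    -- upper bound for the pair sum
    have hF := Cm7_cross (fun s => ∑ s' : Fin a × Fin b,
      (if s.1 ≠ s'.1 ∧ s.2 ≠ s'.2 then om p s * oL p s s' else 0)) l j (by
        intro x y hx hy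
        refine sum_eq_zero fun s' _ => ?_
        split_ifs with hh
        · rw [hout p _ (hnot x y hx hy), zero_mul]
        · rfl)
    have hF0 : ∑ s' : Fin a × Fin b,
      (if (l, j).1 ≠ s'.1 ∧ (l, j).2 ≠ s'.2 then om p (l, j) * oL p (l, j) s' else 0) = 0 := by
      refine sum_eq_zero fun s' _ => ?_
      split_ifs with hh
      · have h1 : s' ∉ vt p := hnot s'.1 s'.2 (fun e => hh.1 e.symm) (fun e => hh.2 e.symm)
        rw [h.oLp p hp _ _ hh.1 hh.2, if_neg (fun hc => h1 hc.2), mul_zero]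
      · rfl
    have hF1 : ∀ y ∈ univ.erase j, ∑ s' : Fin a × Fin b,
        (if (l, y).1 ≠ s'.1 ∧ (l, y).2 ≠ s'.2 then om p (l, y) * oL p (l, y) s' else 0) ≤
        om p (l, y) * q := by
      intro y hy
      have hyj : y ≠ j := ne_of_mem_erase hy
      rw [Cm7_cross (fun s' : Fin a × Fin b => if (l, y).1 ≠ s'.1 ∧ (l, y).2 ≠ s'.2 then
        om p (l, y) * oL p (l, y) s' else 0) l j]
      · have e1 : (if (l, y).1 ≠ (l, j).1 ∧ (l, y).2 ≠ (l, j).2 then
            om p (l, y) * oL p (l, y) (l, j) else 0) = 0 := by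
          rw [if_neg fun hh => hh.1 rfl]
        have e2 : ∑ y' ∈ univ.erase j, (if (l, y).1 ≠ (l, y').1 ∧ (l, y).2 ≠ (l, y').2 then
            om p (l, y) * oL p (l, y) (l, y') else 0) = 0 := by
          refine sum_eq_zero fun y' _ => ?_
          rw [if_neg fun hh => hh.1 rfl]
        rw [e1, e2, zero_add, zero_add, hq, mul_sum]
        refine sum_le_sum fun x hx => ?_
        split_ifs with h1 h2 h2
        · rw [h.oLp p hp _ _ h1.1 h1.2]
          split_ifs <;> simp
        · rw [h.oLp p hp _ _ h1.1 h1.2, if_neg fun hc => h2 hc.2]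
        · exact Nat.zero_le _
        · exact Nat.zero_le _
      · intro x' y' hx' hy'
        split_ifs with hh
        · rw [h.oLp p hp _ _ hh.1 hh.2, if_neg fun hc => hnot x' y' hx' hy' hc.2, mul_zero]
        · rfl
    have hF2 : ∀ x ∈ univ.erase l, ∑ s' : Fin a × Fin b,
        (if (x, j).1 ≠ s'.1 ∧ (x, j).2 ≠ s'.2 then om p (x, j) * oL p (x, j) s' else 0) ≤
        om p (x, j) * r := by
      intro x hx
      have hxl : x ≠ l := ne_of_mem_erase hx
      rw [Cm7_cross (fun s' : Fin a × Fin b => if (x, j).1 ≠ s'.1 ∧ (x, j).2 ≠ s'.2 then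
        om p (x, j) * oL p (x, j) s' else 0) l j]
      · have e1 : (if (x, j).1 ≠ (l, j).1 ∧ (x, j).2 ≠ (l, j).2 then
            om p (x, j) * oL p (x, j) (l, j) else 0) = 0 := by
          rw [if_neg fun hh => hh.2 rfl]
        have e2 : ∑ x' ∈ univ.erase l, (if (x, j).1 ≠ (x', j).1 ∧ (x, j).2 ≠ (x', j).2 then
            om p (x, j) * oL p (x, j) (x', j) else 0) = 0 := by
          refine sum_eq_zero fun x' _ => ?_
          rw [if_neg fun hh => hh.2 rfl]
        rw [e1, e2, zero_add, add_zero, hr, mul_sum]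
        refine sum_le_sum fun y hy => ?_
        split_ifs with h1 h2 h2
        · rw [h.oLp p hp _ _ h1.1 h1.2]
          split_ifs <;> simp
        · rw [h.oLp p hp _ _ h1.1 h1.2, if_neg fun hc => h2 hc.2]
        · exact Nat.zero_le _
        · exact Nat.zero_le _
      · intro x' y' hx' hy'
        split_ifs with hh
        · rw [h.oLp p hp _ _ hh.1 hh.2, if_neg fun hc => hnot x' y' hx' hy' hc.2, mul_zero]
        · rfl
    have hle : ∑ s : Fin a × Fin b, ∑ s' : Fin a × Fin b,
        (if s.1 ≠ s'.1 ∧ s.2 ≠ s'.2 then om p s * oL p s s' else 0) ≤ q * R + r * C := by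
      rw [hF, hF0, zero_add]
      refine add_le_add ?_ ?_
      · refine (sum_le_sum hF1).trans (le_of_eq ?_)
        rw [← sum_mul, mul_comm]
      · refine (sum_le_sum hF2).trans (le_of_eq ?_)
        rw [← sum_mul, mul_comm]
    rw [hPPeq p, ← hTeq p] at hle
    have hval : (a - 1) * (n p * (a + b - 2) + (b - a) * n p) = 2 * n p * (a - 1) * (b - 1) := by
      have h1 : (a + b - 2) + (b - a) = (b - 1) * 2 := by omega
      calc (a - 1) * (n p * (a + b - 2) + (b - a) * n p) =
          (a - 1) * n p * ((a + b - 2) + (b - a)) := by ring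
        _ = _ := by rw [h1]; ring
    rw [hval] at hle
    obtain ⟨e1, e2, e3, e4⟩ := Cm7_ar (by omega) (by omega) hn hqa hrb hRr hCq hle
    have hRow : ∀ y, y ≠ j → om p (l, y) = n p := by
      have h1 : ∑ y ∈ univ.erase j, om p (l, y) = ∑ y ∈ (univ : Finset (Fin b)).erase j, n p := by
        rw [sum_const, card_erase_of_mem (mem_univ _), card_univ, Fintype.card_fin, smul_eq_mul,
          ← hR, e3, mul_comm]
      intro y hy
      exact (sum_eq_sum_iff_of_le fun y _ => h.omn p (l, y)).1 h1 y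
        (mem_erase.2 ⟨hy, mem_univ _⟩)
    have hCol : ∀ x, x ≠ l → om p (x, j) = n p := by
      have h1 : ∑ x ∈ univ.erase l, om p (x, j) = ∑ x ∈ (univ : Finset (Fin a)).erase l, n p := by
        rw [sum_const, card_erase_of_mem (mem_univ _), card_univ, Fintype.card_fin, smul_eq_mul,
          ← hC, e4, mul_comm]
      intro x hx
      exact (sum_eq_sum_iff_of_le fun x _ => h.omn p (x, j)).1 h1 x
        (mem_erase.2 ⟨hx, mem_univ _⟩)
    have hmem : ∀ s, om p s = n p → s ∈ vt p := by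
      intro s hs
      by_contra hns
      rw [hout p s hns] at hs
      omega
    refine ⟨l, j, hlj, ?_, ?_⟩
    · rintro ⟨x, y⟩ hxy hne
      have hom : om p (x, y) = n p := by
        rcases hxy with hx | hy
        · simp only at hx
          subst hx
          exact hRow y fun e => hne (by rw [e])
        · simp only at hy
          subst hy
          exact hCol x fun e => hne (by rw [e])
      exact ⟨hmem _ hom, hom⟩
    · rw [← hTeq p, e3, e4] at hTs
      have h1 : n p * (a + b - 2) = n p * (b - 1) + n p * (a - 1) := by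
        rw [← mul_add]
        congr 1
        omega
      omega

end GP80
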