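import Mathlib
import Pool.Agent.H80.GP.Cmd
import Pool.Agent.H80.GP.Cm4
import Pool.Agent.H80.GP.Cm6
import Pool.Agent.H80.GP.Cm7

/-!
# Row Cm8 (MP_87ed0a_GP): every (row, column) has its plane  (about 200 lines)

By `g_zero`: `a + b = c + d + 1`, `g = 0`.  `b ≥ 6`: with `x = c - a ≥ 1`, `y = d - a ≥ x`: `x y = a` (`ar_kappa`), `b = a + x + y + 1`, `x y = a ≥ 2` so `x + y ≥ 3`, `b ≥ 6`.
By `plane_struct` every plane `p` with `n p ≥ 1` has a type `(l, j)`.
* The type is unique: if `vt p` contains `(row l ∪ column j) \ (l,j)` and is contained in `row l' ∪ column j'`: row `l` without `(l,j)` has `b - 1 ≥ 2` points, if `l' ≠ l` they are all in column `j'`, impossible; so `l' = l`; a point `(k, j)`, `k ≠ l` (`a ≥ 2`), is in column `j'`: `j' = j`.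
* Two different planes have different types: `two` with `s = (k, j)`, `s' = (l, m)`, `s'' = (l, m')`, `k ≠ l`, `m ≠ m'`, both `≠ j` (`b ≥ 3`).
Let `N(l, j) := ∑` of `n p` over the planes `p` with `n p ≥ 1` of type `(l, j)` (zero or one plane).
* For generic `s = (x, y)`, `s' = (x', y')`: `N(x, y') + N(x', y) = 2`: in `∑_p om p s * oL p s s' = 2` a plane of type `(l, j)` contributes only if `s, s' ∈ vt p` and `om p s > 0`; then `s ≠ (l,j)`; `(x = l or y = j)` and
  `(x' = l or y' = j)` and `x ≠ x'`, `y ≠ y'` give `(l, j) = (x, y')` or `(x', y)`; conversely these contribute `n p * 1` (`s, s'` are in `vt p`, different from the corner).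
* For `s = (x, y)`: `∑_{m ≠ y} N(x, m) + ∑_{k ≠ x} N(k, y) = c + d - 1 = a + b - 2` (`G1`: `∑_p om p s = D0`; `om p (corner) = 0`).
* Fix `x' `; for `y1 ≠ y2` choose `y' ∉ {y1, y2}` (`b ≥ 3`) and `x ≠ x'` (`a ≥ 2`): `N(x', y1) = 2 - N(x, y') = N(x', y2)`; so `N(x', y) = m(x')` for all `y`; `m(x) + m(x') = 2` for `x ≠ x'`.  Point sum:
  `(b-1) m(x) + (a-1)(2 - m(x)) = a + b - 2`, `(b-a) m(x) = b - a`, `m(x) = 1`.
So `N(l, j) = 1` for all `l, j`, and there is a plane of type `(l, j)`.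
-/

namespace GP80

open Finset

theorem Cm8_third {b : ℕ} (hb : 3 ≤ b) (y1 y2 : Fin b) : ∃ y', y' ≠ y1 ∧ y' ≠ y2 := by
  have h : ({y1, y2} : Finset (Fin b)).card < (univ : Finset (Fin b)).card := by
    rw [card_univ, Fintype.card_fin]
    exact lt_of_le_of_lt card_le_two (by omega)
  obtain ⟨y', -, h'⟩ := Finset.exists_mem_notMem_of_card_lt_card h
  rw [mem_insert, mem_singleton, not_or] at h'
  exact ⟨y', h'.1, h'.2⟩

theorem Cm8_other {a : ℕ} (ha : 2 ≤ a) (x : Fin a) : ∃ x', x' ≠ x := by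
  have : Nontrivial (Fin a) := Fin.nontrivial_iff_two_le.2 ha
  exact exists_ne x

theorem Cm8_b {a b c d : ℕ} (ha : 2 ≤ a) (hac : a < c) (hcd : c ≤ d) (hN : c * d = a * b)
    (hs : a + b = c + d + 1) : 6 ≤ b := by
  obtain ⟨x, rfl⟩ : ∃ x, c = a + x := ⟨c - a, by omega⟩
  obtain ⟨y, rfl⟩ : ∃ y, d = a + y := ⟨d - a, by omega⟩
  obtain rfl : b = a + x + y + 1 := by omega
  have hxy : x * y = a := by nlinarith
  have hx : 1 ≤ x := by omega
  by_contra hcon
  have h1 : x + y ≤ 2 := by omega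
  have h2 : x = 1 := by omega
  have h3 : y = 1 := by omega
  rw [h2, h3] at hxy
  omega

/-- the plane `p` has type `(l, j)` -/
def Cm8_Ty {a b : ℕ} {P : Type} (dl n : P → ℕ) (om : P → Fin a × Fin b → ℕ)
    (vt : P → Finset (Fin a × Fin b)) (p : P) (l : Fin a) (j : Fin b) : Prop :=
  dl p = 1 ∧ 1 ≤ n p ∧ (∀ s ∈ vt p, s.1 = l ∨ s.2 = j) ∧
    (∀ s, (s.1 = l ∨ s.2 = j) → s ≠ (l, j) → s ∈ vt p ∧ om p s = n p) ∧ om p (l, j) = 0

theorem Cm8_uniq {a b : ℕ} {P : Type} {dl n : P → ℕ} {om : P → Fin a × Fin b → ℕ}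
    {vt : P → Finset (Fin a × Fin b)} (ha : 2 ≤ a) (hb : 3 ≤ b) {p : P} {l : Fin a} {j : Fin b}
    (h : Cm8_Ty dl n om vt p l j) (l' : Fin a) (j' : Fin b) :
    Cm8_Ty dl n om vt p l' j' ↔ (l' = l ∧ j' = j) := by
  constructor
  · intro h'
    obtain ⟨-, -, h1, h2, -⟩ := h
    obtain ⟨-, -, h3, h4, -⟩ := h'
    obtain ⟨m, hm1, hm2⟩ := Cm8_third hb j j'
    have hl : l = l' := by
      have h5 := (h2 (l, m) (Or.inl rfl) (fun e => hm1 (congrArg Prod.snd e))).1
      rcases h3 _ h5 with h6 | h6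
      · exact h6
      · exact absurd h6 hm2
    obtain ⟨k, hk⟩ := Cm8_other ha l
    have h5 := (h2 (k, j) (Or.inr rfl) (fun e => hk (congrArg Prod.fst e))).1
    rcases h3 _ h5 with h6 | h6
    · exact absurd (h6.trans hl.symm) hk
    · exact ⟨hl.symm, h6.symm⟩
  · rintro ⟨rfl, rfl⟩
    exact h

theorem Cm8_s1 {a b : ℕ} (x l : Fin a) (y j : Fin b) (N : ℕ) :
    ∑ m ∈ univ.erase y, (if x = l ∧ m = j then N else 0) = if x = l ∧ y ≠ j then N else 0 := by
  by_cases h : x = l ∧ y ≠ j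
  · rw [if_pos h, sum_eq_single_of_mem j (mem_erase.2 ⟨Ne.symm h.2, mem_univ _⟩),
      if_pos ⟨h.1, rfl⟩]
    intro m _ hmj
    rw [if_neg (fun e => hmj e.2)]
  · rw [if_neg h]
    refine sum_eq_zero fun m hm => ?_
    rw [if_neg]
    rintro ⟨h1, h2⟩
    refine h ⟨h1, ?_⟩
    rw [← h2]
    exact (mem_erase.1 hm).1.symm

theorem Cm8_s2 {a b : ℕ} (x l : Fin a) (y j : Fin b) (N : ℕ) :
    ∑ k ∈ univ.erase x, (if k = l ∧ y = j then N else 0) = if x ≠ l ∧ y = j then N else 0 := by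
  by_cases h : x ≠ l ∧ y = j
  · rw [if_pos h, sum_eq_single_of_mem l (mem_erase.2 ⟨Ne.symm h.1, mem_univ _⟩),
      if_pos ⟨rfl, h.2⟩]
    intro m _ hmj
    rw [if_neg (fun e => hmj e.1)]
  · rw [if_neg h]
    refine sum_eq_zero fun m hm => ?_
    rw [if_neg]
    rintro ⟨h1, h2⟩
    refine h ⟨?_, h2⟩
    rw [← h1]
    exact (mem_erase.1 hm).1.symm

open Classical in
theorem Cm8_point {a b : ℕ} {P : Type} {dl n : P → ℕ} {om : P → Fin a × Fin b → ℕ}
    {vt : P → Finset (Fin a × Fin b)} (ha : 2 ≤ a) (hb : 3 ≤ b) (p : P)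
    (hom : ∀ s, om p s ≤ n p) (hnv : ∀ s, s ∉ vt p → om p s = 0)
    (hty : n p = 0 ∨ ∃ l j, Cm8_Ty dl n om vt p l j) (x : Fin a) (y : Fin b) :
    om p (x, y) = ∑ m ∈ univ.erase y, (if Cm8_Ty dl n om vt p x m then n p else 0) +
      ∑ k ∈ univ.erase x, (if Cm8_Ty dl n om vt p k y then n p else 0) := by
  rcases hty with h0 | ⟨l, j, h⟩
  · have h1 := hom (x, y)
    rw [h0] at h1 ⊢
    simp only [ite_self, sum_const_zero]
    omega
  · simp only [Cm8_uniq ha hb h]
    rw [Cm8_s1, Cm8_s2]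
    obtain ⟨-, -, h1, h2, h3⟩ := h
    by_cases hx : x = l
    · subst hx
      by_cases hy : y = j
      · subst hy
        rw [h3, if_neg (fun e => e.2 rfl), if_neg (fun e => e.1 rfl)]
      · rw [(h2 (x, y) (Or.inl rfl) (fun e => hy (congrArg Prod.snd e))).2, if_pos ⟨rfl, hy⟩,
          if_neg (fun e => e.1 rfl), add_zero]
    · rw [if_neg (fun e => hx e.1), zero_add]
      by_cases hy : y = j
      · subst hy
        rw [(h2 (x, y) (Or.inr rfl) (fun e => hx (congrArg Prod.fst e))).2, if_pos ⟨hx, rfl⟩]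
      · rw [if_neg (fun e => hy e.2)]
        refine hnv _ fun h4 => ?_
        rcases h1 _ h4 with h5 | h5
        · exact hx h5
        · exact hy h5

open Classical in
theorem Cm8_chord {a b : ℕ} {P : Type} {dl n : P → ℕ} {om : P → Fin a × Fin b → ℕ}
    {vt : P → Finset (Fin a × Fin b)} (ha : 2 ≤ a) (hb : 3 ≤ b) (p : P)
    {oL : P → (Fin a × Fin b) → (Fin a × Fin b) → ℕ}
    (hoL : dl p = 1 → ∀ s s', s.1 ≠ s'.1 → s.2 ≠ s'.2 →
      oL p s s' = if s ∈ vt p ∧ s' ∈ vt p then 1 else 0)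
    (hom : ∀ s, om p s ≤ n p)
    (hty : n p = 0 ∨ ∃ l j, Cm8_Ty dl n om vt p l j) {x x' : Fin a} {y y' : Fin b} (hx : x ≠ x')
    (hy : y ≠ y') :
    om p (x, y) * oL p (x, y) (x', y') = (if Cm8_Ty dl n om vt p x y' then n p else 0) +
      (if Cm8_Ty dl n om vt p x' y then n p else 0) := by
  rcases hty with h0 | ⟨l, j, h⟩
  · have h1 := hom (x, y)
    rw [h0] at h1 ⊢
    simp only [ite_self, add_zero]
    rw [Nat.le_zero.1 h1, zero_mul]
  · simp only [Cm8_uniq ha hb h]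
    obtain ⟨h0, -, h1, h2, h3⟩ := h
    rw [hoL h0 _ _ hx hy]
    by_cases hc1 : x = l ∧ y' = j
    · obtain ⟨rfl, rfl⟩ := hc1
      have a1 := h2 (x, y) (Or.inl rfl) (fun e => hy (congrArg Prod.snd e))
      have a2 := h2 (x', y') (Or.inr rfl) (fun e => hx (congrArg Prod.fst e).symm)
      rw [if_pos (show (x, y) ∈ vt p ∧ (x', y') ∈ vt p from ⟨a1.1, a2.1⟩), a1.2,
        if_pos (show x = x ∧ y' = y' from ⟨rfl, rfl⟩),
        if_neg (fun e : x' = x ∧ y = y' => hx e.1.symm), mul_one, add_zero]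
    · by_cases hc2 : x' = l ∧ y = j
      · obtain ⟨rfl, rfl⟩ := hc2
        have a1 := h2 (x, y) (Or.inr rfl) (fun e => hx (congrArg Prod.fst e))
        have a2 := h2 (x', y') (Or.inl rfl) (fun e => hy (congrArg Prod.snd e).symm)
        rw [if_pos (show (x, y) ∈ vt p ∧ (x', y') ∈ vt p from ⟨a1.1, a2.1⟩), a1.2,
          if_pos (show x' = x' ∧ y = y from ⟨rfl, rfl⟩),
          if_neg (fun e : x = x' ∧ y' = y => hx e.1), mul_one, zero_add]
      · rw [if_neg hc1, if_neg hc2]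
        by_cases hv : (x, y) ∈ vt p ∧ (x', y') ∈ vt p
        · rcases h1 _ hv.1 with h4 | h4
          · rcases h1 _ hv.2 with h5 | h5
            · exact absurd (h4.trans h5.symm) hx
            · exact absurd ⟨h4, h5⟩ hc1
          · rcases h1 _ hv.2 with h5 | h5
            · exact absurd ⟨h5, h4⟩ hc2
            · exact absurd (h4.trans h5.symm) hy
        · rw [if_neg hv, mul_zero, add_zero]

theorem comb_final {a b c d : ℕ} {P : Type} [Fintype P] {dl g n jj : P → ℕ} {lam : P → ℕ → ℕ}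
    {om : P → Fin a × Fin b → ℕ} {vt : P → Finset (Fin a × Fin b)}
    {oL : P → (Fin a × Fin b) → (Fin a × Fin b) → ℕ} {eF : ℕ}
    (h : CombD a b c d dl g n jj lam om vt oL eF) :
    6 ≤ b ∧ ∀ (l : Fin a) (j : Fin b), ∃ p, dl p = 1 ∧
      ∀ s, (s.1 = l ∨ s.2 = j) → s ≠ (l, j) → s ∈ vt p := by
  classical
  obtain ⟨hg, hjj, -, hab⟩ := g_zero h
  obtain ⟨hch, hnp, hpl⟩ := plane_struct h
  have ha := h.a2
  have hb6 : 6 ≤ b := Cm8_b h.a2 h.ac h.cd h.N hab
  have hb3 : 3 ≤ b := by omega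
  have halt : a < b := lt_of_lt_of_le (lt_of_lt_of_le h.ac h.cd) h.db.le
  have hty : ∀ p, n p = 0 ∨ ∃ l j, Cm8_Ty dl n om vt p l j := by
    intro p
    by_cases h0 : n p = 0
    · exact Or.inl h0
    · right
      have h1 : dl p = 1 := by
        by_contra h2
        exact h0 (hnp p h2)
      obtain ⟨l, j, h2, h3, h4⟩ := hpl p h1 (by omega)
      exact ⟨l, j, h1, by omega, h2, h3, h4⟩
  obtain ⟨Nn, hNn⟩ : ∃ Nn : Fin a → Fin b → ℕ, ∀ l j, Nn l j =
      ∑ p, (if Cm8_Ty dl n om vt p l j then n p else 0) := ⟨_, fun _ _ => rfl⟩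
  have hpoint : ∀ x y, ∑ m ∈ univ.erase y, Nn x m + ∑ k ∈ univ.erase x, Nn k y = a + b - 2 := by
    intro x y
    have h1 : ∑ p, om p (x, y) = a + b - 2 := by
      have h2 := h.G1 (x, y)
      have h3 : ∑ p, dl p * g p = 0 := sum_eq_zero fun p _ => by rw [hg, mul_zero]
      have h4 : ∑ p, dl p * om p (x, y) = ∑ p, om p (x, y) := by
        refine sum_congr rfl fun p _ => ?_
        by_cases h5 : dl p = 1
        · rw [h5, one_mul]
        · have h6 := h.omn p (x, y)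
          rw [hnp p h5] at h6
          rw [Nat.le_zero.1 h6, mul_zero]
      rw [h3, h4] at h2
      omega
    rw [← h1, sum_congr rfl (fun p _ => Cm8_point ha hb3 p (h.omn p)
      (fun s hs => by rw [h.nv p s hs, hg]) (hty p) x y), sum_add_distrib]
    congr 1
    · rw [sum_comm]
      exact sum_congr rfl fun m _ => hNn x m
    · rw [sum_comm]
      exact sum_congr rfl fun k _ => hNn k y
  have hchord : ∀ x x' y y', x ≠ x' → y ≠ y' → Nn x y' + Nn x' y = 2 := by
    intro x x' y y' hx hy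
    rw [← hch (x, y) (x', y') hx hy, hNn, hNn, ← sum_add_distrib]
    exact sum_congr rfl fun p _ =>
      (Cm8_chord ha hb3 p (h.oLp p) (h.omn p) (hty p) hx hy).symm
  have hrow : ∀ x y1 y2, Nn x y1 = Nn x y2 := by
    intro x y1 y2
    obtain ⟨y', h1, h2⟩ := Cm8_third hb3 y1 y2
    obtain ⟨x', hx'⟩ := Cm8_other ha x
    have h3 := hchord x' x y1 y' hx' (Ne.symm h1)
    have h4 := hchord x' x y2 y' hx' (Ne.symm h2)
    omega
  have hone : ∀ x y, Nn x y = 1 := by
    intro x y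
    have h1 : ∑ m ∈ univ.erase y, Nn x m = (b - 1) * Nn x y := by
      rw [sum_congr rfl (fun m _ => hrow x m y), sum_const, card_erase_of_mem (mem_univ _),
        card_univ, Fintype.card_fin, smul_eq_mul]
    have hle : Nn x y ≤ 2 := by
      obtain ⟨x', hx'⟩ := Cm8_other ha x
      obtain ⟨y', hy', -⟩ := Cm8_third hb3 y y
      have h3 := hchord x x' y' y (Ne.symm hx') hy'
      omega
    have h2 : ∑ k ∈ univ.erase x, Nn k y = (a - 1) * (2 - Nn x y) := by
      have h3 : ∀ k ∈ univ.erase x, Nn k y = 2 - Nn x y := by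
        intro k hk
        obtain ⟨y', hy', -⟩ := Cm8_third hb3 y y
        have h4 := hchord x k y' y (Ne.symm (mem_erase.1 hk).1) hy'
        have h5 := hrow k y' y
        omega
      rw [sum_congr rfl h3, sum_const, card_erase_of_mem (mem_univ _),
        card_univ, Fintype.card_fin, smul_eq_mul]
    have h3 := hpoint x y
    rw [h1, h2] at h3
    have h4 : Nn x y = 0 ∨ Nn x y = 1 ∨ Nn x y = 2 := by omega
    rcases h4 with h4 | h4 | h4
    · rw [h4] at h3
      omega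
    · exact h4
    · rw [h4] at h3
      omega
  refine ⟨hb6, fun l j => ?_⟩
  have h1 := hone l j
  rw [hNn] at h1
  have h2 : ∃ p, Cm8_Ty dl n om vt p l j := by
    by_contra hcon
    push Not at hcon
    rw [sum_eq_zero (fun p _ => if_neg (hcon p))] at h1
    omega
  obtain ⟨p, h3, -, -, h4, -⟩ := h2
  exact ⟨p, h3, fun s hs hs' => (h4 s hs hs').1⟩

end GP80
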