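import Mathlib
import Pool.Agent.H80.GP.GDefs
import Pool.Agent.H80.GP.Ga1

/-!
# Row Sl2 (MP_87ed0a_GP): E-invariant forms: degree inequality, antisymmetry, commutator  (about 170 lines)

Everything is about `H(P, x) ∈ BB`, bihomogeneous of `P`-degree `f` and `x`-degree `c`; by `MvPolynomial.funext` (`ℂ` infinite) polynomial identities may be checked on values at `(p, y) ∈ ℂ^4 × ℂ^4`.
* Key identity for `EE H = 0`: `H(Q - ν x, Q) = ν^c H(Q - ν x, x)` for all `Q, x ∈ ℂ^4`, `ν ∈ ℂ`: with `p = Q - ν x`: `Q = ν x + 1 * p`, so by `einv` (`y = ν x`, `μ = 1`) `H(p, Q) = H(p, ν x) = ν^c H(p, x)`.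
  For fixed `Q, x` both sides are polynomials in `ν` (take `S = Polynomial ℂ`, `ν = T`, in `einv`): `A(T) := H(Q - T x, Q)` has degree `≤ f` in `T` (`P`-degree `f`), `B(T) := H(Q - T x, x)`, `A = T^c B`.
* `f_ge`: if `f < c`, then `A` has degree `< c` and is divisible by `T^c`, so `A = 0 = B`, and `B(0) = H(Q, x) = 0` for all `Q, x`: `H = 0`.
* `antisym` (`f = c`): the coefficient of `T^c` in `A` is the top coefficient, `H(-x, Q) = (-1)^c H(x, Q)`; in `T^c B` it is `B(0) = H(Q, x)`.  So `H(Q, x) = (-1)^c H(x, Q)`.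
* `EE_DG`: `EE (DG H) + c • H = DG (EE H) + f • H`: `⁅EE, DG⁆` is the derivation with `P_i ↦ P_i`, `x_i ↦ - x_i` (check on generators), which acts on a bihomogeneous polynomial by `f - c` (check on monomials).
* `DG_wx`, `DG_wP`: `DG` raises the `x`-degree by 1 and lowers the `P`-degree by 1 (`f ≥ 1`; for `f = 0`, `DG H = 0`).
-/

namespace GP80

open MvPolynomial

theorem Sl2_T_prod {S ι : Type} [CommRing S] (s : Finset ι) (q : ι → Polynomial S) (n : ι → ℕ)
    (a : ι → S) (h : ∀ i ∈ s, (q i).natDegree ≤ n i ∧ (q i).coeff (n i) = a i) :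
    (∏ i ∈ s, q i).natDegree ≤ ∑ i ∈ s, n i ∧ (∏ i ∈ s, q i).coeff (∑ i ∈ s, n i) = ∏ i ∈ s, a i := by
  classical
  induction s using Finset.induction_on with
  | empty => simp
  | insert b s hb ih =>
    rw [Finset.prod_insert hb, Finset.sum_insert hb, Finset.prod_insert hb]
    obtain ⟨h1, h2⟩ := h b (Finset.mem_insert_self _ _)
    obtain ⟨h3, h4⟩ := ih fun i hi => h i (Finset.mem_insert_of_mem hi)
    refine ⟨(Polynomial.natDegree_mul_le).trans (add_le_add h1 h3), ?_⟩
    rw [Polynomial.coeff_mul_add_eq_of_natDegree_le h1 h3, h2, h4]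

theorem Sl2_T_pow {S : Type} [CommRing S] (q : Polynomial S) (n : ℕ)
    (a : S) (h : q.natDegree ≤ n ∧ q.coeff n = a) (k : ℕ) :
    (q ^ k).natDegree ≤ k * n ∧ (q ^ k).coeff (k * n) = a ^ k := by
  have h1 := Sl2_T_prod (Finset.range k) (fun _ => q) (fun _ => n) (fun _ => a) fun _ _ => h
  simpa using h1

theorem Sl2_lead {S σ : Type} [CommRing S] [Algebra ℂ S] (w : σ → ℕ) (g' : σ → Polynomial S)
    (g : σ → S) (h : ∀ s, (g' s).natDegree ≤ w s ∧ (g' s).coeff (w s) = g s)
    {H : MvPolynomial σ ℂ} {n : ℕ} (hH : IsWeightedHomogeneous w H n) :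
    (aeval g' H).natDegree ≤ n ∧ (aeval g' H).coeff n = aeval g H := by
  have key : ∀ d ∈ H.support, (∏ i ∈ d.support, g' i ^ d i).natDegree ≤ n ∧
      (∏ i ∈ d.support, g' i ^ d i).coeff n = ∏ i ∈ d.support, g i ^ d i := by
    intro d hd
    have h1 := hH (mem_support_iff.1 hd)
    rw [Finsupp.weight_apply, Finsupp.sum] at h1
    have h2 := Sl2_T_prod d.support (fun i => g' i ^ d i) (fun i => d i * w i)
      (fun i => g i ^ d i) fun i _ => Sl2_T_pow (g' i) (w i) (g i) (h i) (d i)
    simp only [smul_eq_mul] at h1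
    rw [h1] at h2
    exact h2
  rw [aeval_def, aeval_def, eval₂_eq, eval₂_eq]
  constructor
  · apply Polynomial.natDegree_sum_le_of_forall_le
    intro d hd
    rw [Polynomial.algebraMap_apply]
    exact (Polynomial.natDegree_C_mul_le _ _).trans (key d hd).1
  · rw [Polynomial.finsetSum_coeff]
    apply Finset.sum_congr rfl
    intro d hd
    rw [Polynomial.algebraMap_apply, Polynomial.coeff_C_mul, (key d hd).2]

theorem Sl2_scale {S σ : Type} [CommRing S] [Algebra ℂ S] (w : σ → ℕ) (g : σ → S) (a : S)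
    {H : MvPolynomial σ ℂ} {n : ℕ} (hH : IsWeightedHomogeneous w H n) :
    aeval (fun s => a ^ w s * g s) H = a ^ n * aeval g H := by
  rw [aeval_def, aeval_def, eval₂_eq, eval₂_eq, Finset.mul_sum]
  apply Finset.sum_congr rfl
  intro d hd
  have h1 := hH (mem_support_iff.1 hd)
  rw [Finsupp.weight_apply, Finsupp.sum] at h1
  have h2 : ∏ i ∈ d.support, (a ^ w i * g i) ^ d i = a ^ n * ∏ i ∈ d.support, g i ^ d i := by
    rw [← h1, ← Finset.prod_pow_eq_pow_sum, ← Finset.prod_mul_distrib]
    apply Finset.prod_congr rfl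
    intro i _
    rw [mul_pow, ← pow_mul, smul_eq_mul, mul_comm (w i)]
  rw [h2]
  ring

theorem Sl2_eval {S σ : Type} [CommRing S] [Algebra ℂ S] (g : σ → Polynomial S) (μ : S)
    (H : MvPolynomial σ ℂ) :
    Polynomial.eval μ (aeval g H) = aeval (fun s => Polynomial.eval μ (g s)) H := by
  induction H using MvPolynomial.induction_on with
  | C a => rw [algHom_C, algHom_C, Polynomial.algebraMap_apply, Polynomial.eval_C]
  | add f g hf hg => rw [map_add, map_add, Polynomial.eval_add, hf, hg]
  | mul_X f i hf => rw [map_mul, map_mul, Polynomial.eval_mul, hf, aeval_X, aeval_X]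

theorem Sl2_scale_x {S : Type} [CommRing S] [Algebra ℂ S] {H : BB} {c : ℕ}
    (hx : IsWeightedHomogeneous wx H c) (p y : Fin 4 → S) (a : S) :
    aeval (Sum.elim p (fun i => a * y i)) H = a ^ c * aeval (Sum.elim p y) H := by
  rw [← Sl2_scale wx (Sum.elim p y) a hx]
  congr 2
  funext s
  rcases s with i | i <;> simp [wx]

theorem Sl2_scale_P {S : Type} [CommRing S] [Algebra ℂ S] {H : BB} {f : ℕ}
    (hP : IsWeightedHomogeneous wP H f) (p y : Fin 4 → S) (a : S) :
    aeval (Sum.elim (fun i => a * p i) y) H = a ^ f * aeval (Sum.elim p y) H := by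
  rw [← Sl2_scale wP (Sum.elim p y) a hP]
  congr 2
  funext s
  rcases s with i | i <;> simp [wP]

theorem Sl2_key {S : Type} [CommRing S] [Algebra ℂ S] {H : BB} {c : ℕ}
    (hx : IsWeightedHomogeneous wx H c) (hE : EE H = 0) (p y : Fin 4 → S) :
    aeval (Sum.elim p y) H =
      (aeval (Sum.elim (fun i => Polynomial.C (p i) + Polynomial.X * Polynomial.C (-y i))
        (fun i => Polynomial.C (p i))) H).coeff c := by
  have h1 := einv hE (fun i => Polynomial.C (p i) + Polynomial.X * Polynomial.C (-y i))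
    (fun i => Polynomial.X * Polynomial.C (y i)) (1 : Polynomial S)
  rw [Sl2_scale_x hx (fun i => Polynomial.C (p i) + Polynomial.X * Polynomial.C (-y i))
    (fun i => Polynomial.C (y i)) Polynomial.X] at h1
  have h2 : (fun i : Fin 4 => (Polynomial.X * Polynomial.C (y i) + 1 *
      (Polynomial.C (p i) + Polynomial.X * Polynomial.C (-y i)) : Polynomial S)) =
      fun i => Polynomial.C (p i) := by
    funext i
    rw [Polynomial.C_neg]
    ring
  rw [h2] at h1
  rw [h1]
  have h3 := Polynomial.coeff_X_pow_mul (aeval (Sum.elim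
    (fun i => Polynomial.C (p i) + Polynomial.X * Polynomial.C (-y i))
    (fun i => Polynomial.C (y i))) H) c 0
  rw [zero_add] at h3
  rw [h3, Polynomial.coeff_zero_eq_eval_zero, Sl2_eval]
  congr 2
  funext s
  rcases s with i | i <;> simp

theorem Sl2_deg {S : Type} [CommRing S] [Algebra ℂ S] {H : BB} {f : ℕ}
    (hP : IsWeightedHomogeneous wP H f) (p y : Fin 4 → S) :
    (aeval (Sum.elim (fun i => Polynomial.C (p i) + Polynomial.X * Polynomial.C (-y i))
        (fun i => Polynomial.C (p i))) H).natDegree ≤ f ∧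
    (aeval (Sum.elim (fun i => Polynomial.C (p i) + Polynomial.X * Polynomial.C (-y i))
        (fun i => Polynomial.C (p i))) H).coeff f = aeval (Sum.elim (fun i => -y i) p) H := by
  apply Sl2_lead wP _ _ _ hP
  intro s
  rcases s with i | i
  · simp only [Sum.elim_inl, wP]
    constructor
    · refine (Polynomial.natDegree_add_le _ _).trans (max_le ?_ ?_)
      · simp
      · rw [mul_comm]
        exact (Polynomial.natDegree_C_mul_le _ _).trans Polynomial.natDegree_X_le
    · rw [Polynomial.coeff_add, Polynomial.coeff_C_succ, Polynomial.coeff_X_mul,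
        Polynomial.coeff_C_zero, zero_add]
  · simp [wP]

theorem f_ge {H : BB} {c f : ℕ} (hx : IsWeightedHomogeneous wx H c) (hP : IsWeightedHomogeneous wP H f)
    (hE : EE H = 0) (h0 : H ≠ 0) : c ≤ f := by
  by_contra hlt
  push Not at hlt
  apply h0
  have h1 := Sl2_key hx hE (fun i => (X (Sum.inl i) : BB)) (fun i => (X (Sum.inr i) : BB))
  have h2 := (Sl2_deg hP (fun i => (X (Sum.inl i) : BB)) (fun i => (X (Sum.inr i) : BB))).1
  rw [Polynomial.coeff_eq_zero_of_natDegree_lt (lt_of_le_of_lt h2 hlt)] at h1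
  have h3 : (Sum.elim (fun i => (X (Sum.inl i) : BB)) (fun i => (X (Sum.inr i) : BB))) = X := by
    funext s
    rcases s with i | i <;> rfl
  rw [h3, aeval_X_left_apply] at h1
  exact h1

theorem antisym {H : BB} {c : ℕ} (hx : IsWeightedHomogeneous wx H c)
    (hP : IsWeightedHomogeneous wP H c) (hE : EE H = 0) {S : Type} [CommRing S] [Algebra ℂ S]
    (p y : Fin 4 → S) :
    aeval (Sum.elim p y) H = (-1) ^ c * aeval (Sum.elim y p) H := by
  rw [Sl2_key hx hE p y, (Sl2_deg hP p y).2, ← Sl2_scale_P hP y p (-1)]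
  congr 2
  funext s
  rcases s with i | i <;> simp

theorem Sl2_DG_eq (H : BB) : DG H = ∑ a, X (Sum.inr a) * pderiv (Sum.inl a) H := by
  induction H using MvPolynomial.induction_on with
  | C c => simp
  | add f g hf hg => simp only [map_add, hf, hg, mul_add, Finset.sum_add_distrib]
  | mul_X f i hf =>
    rw [Derivation.leibniz, hf, smul_eq_mul, smul_eq_mul]
    simp only [Derivation.leibniz, smul_eq_mul, mul_add, Finset.sum_add_distrib]
    congr 1
    · rcases i with i | i
      · rw [Ga1_DG_inl, Finset.sum_eq_single i]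
        · rw [pderiv_X_self]; ring
        · intro b _ hb
          rw [pderiv_X_of_ne (by simpa using hb.symm)]
          simp
        · simp
      · rw [Ga1_DG_inr, mul_zero, Finset.sum_eq_zero]
        intro a _
        rw [pderiv_X_of_ne (by simp)]
        simp
    · rw [Finset.mul_sum]
      exact Finset.sum_congr rfl (fun a _ => by ring)

theorem Sl2_comm (H : BB) : EE (DG H) - DG (EE H) =
    ∑ a, X (Sum.inl a) * pderiv (Sum.inl a) H - ∑ a, X (Sum.inr a) * pderiv (Sum.inr a) H := by
  induction H using MvPolynomial.induction_on with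
  | C c => simp
  | add f g hf hg =>
    simp only [map_add, mul_add, Finset.sum_add_distrib]
    linear_combination hf + hg
  | mul_X f i hf =>
    have e1 : EE (DG (f * X i)) - DG (EE (f * X i)) =
        (EE (DG f) - DG (EE f)) * X i + f * (EE (DG (X i)) - DG (EE (X i))) := by
      simp only [Derivation.leibniz, map_add, smul_eq_mul]
      ring
    have e2 : ∑ a, X (Sum.inl a) * pderiv (Sum.inl a) (f * X i) -
        ∑ a, X (Sum.inr a) * pderiv (Sum.inr a) (f * X i) =
        (∑ a, X (Sum.inl a) * pderiv (Sum.inl a) f -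
          ∑ a, X (Sum.inr a) * pderiv (Sum.inr a) f) * X i +
        f * (∑ a, X (Sum.inl a) * pderiv (Sum.inl a) (X i) -
          ∑ a, X (Sum.inr a) * pderiv (Sum.inr a) (X i)) := by
      simp only [Derivation.leibniz, smul_eq_mul, mul_add, Finset.sum_add_distrib, sub_mul, mul_sub,
        Finset.sum_mul, Finset.mul_sum]
      have t1 : ∀ a : Fin 4, (X (Sum.inl a) : BB) * (f * pderiv (Sum.inl a) (X i)) =
          f * (X (Sum.inl a) * pderiv (Sum.inl a) (X i)) := fun a => by ring
      have t2 : ∀ a : Fin 4, (X (Sum.inr a) : BB) * (f * pderiv (Sum.inr a) (X i)) =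
          f * (X (Sum.inr a) * pderiv (Sum.inr a) (X i)) := fun a => by ring
      have t3 : ∀ a : Fin 4, (X (Sum.inl a) : BB) * (X i * pderiv (Sum.inl a) f) =
          X (Sum.inl a) * pderiv (Sum.inl a) f * X i := fun a => by ring
      have t4 : ∀ a : Fin 4, (X (Sum.inr a) : BB) * (X i * pderiv (Sum.inr a) f) =
          X (Sum.inr a) * pderiv (Sum.inr a) f * X i := fun a => by ring
      simp only [t1, t2, t3, t4]
      ring
    rw [e1, e2, hf]
    congr 2
    rcases i with i | i
    · rw [Ga1_DG_inl, Ga1_EE_inr, Ga1_EE_inl, map_zero, sub_zero, Finset.sum_eq_single i,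
        Finset.sum_eq_zero, pderiv_X_self]
      · ring
      · intro a _
        rw [pderiv_X_of_ne (by simp)]
        simp
      · intro b _ hb
        rw [pderiv_X_of_ne (by simpa using hb.symm)]
        simp
      · simp
    · rw [Ga1_DG_inr, Ga1_EE_inr, Ga1_DG_inl, map_zero, zero_sub, Finset.sum_eq_zero,
        Finset.sum_eq_single i, pderiv_X_self]
      · ring
      · intro b _ hb
        rw [pderiv_X_of_ne (by simpa using hb.symm)]
        simp
      · simp
      · intro a _
        rw [pderiv_X_of_ne (by simp)]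
        simp

theorem EE_DG {H : BB} {c f : ℕ} (hx : IsWeightedHomogeneous wx H c)
    (hP : IsWeightedHomogeneous wP H f) :
    EE (DG H) + (c : BB) * H = DG (EE H) + (f : BB) * H := by
  have h1 := hx.sum_weight_X_mul_pderiv
  have h2 := hP.sum_weight_X_mul_pderiv
  rw [Fintype.sum_sum_type] at h1 h2
  simp only [wx, wP, Sum.elim_inl, Sum.elim_inr, zero_smul, Finset.sum_const_zero, zero_add,
    add_zero, one_smul, nsmul_eq_mul] at h1 h2
  have h3 := Sl2_comm H
  rw [h1, h2] at h3
  linear_combination h3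

theorem DG_wx {H : BB} {c : ℕ} (hx : IsWeightedHomogeneous wx H c) :
    IsWeightedHomogeneous wx (DG H) (c + 1) := by
  rw [Sl2_DG_eq]
  apply IsWeightedHomogeneous.sum
  intro a _
  rw [add_comm c 1]
  refine IsWeightedHomogeneous.mul ?_ ?_
  · have h := isWeightedHomogeneous_X ℂ wx (Sum.inr a)
    simpa [wx] using h
  · exact IsWeightedHomogeneous.pderiv hx (by simp [wx])

theorem DG_wP {H : BB} {f : ℕ} (hP : IsWeightedHomogeneous wP H (f + 1)) :
    IsWeightedHomogeneous wP (DG H) f := by
  rw [Sl2_DG_eq]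
  apply IsWeightedHomogeneous.sum
  intro a _
  rw [← zero_add f]
  refine IsWeightedHomogeneous.mul ?_ ?_
  · have h := isWeightedHomogeneous_X ℂ wP (Sum.inr a)
    simpa [wP] using h
  · exact IsWeightedHomogeneous.pderiv hP (by simp [wP])

end GP80
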