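import Mathlib
import Pool.Agent.H80.GP.GDefs
import Pool.Agent.H80.GP.Ga1
import Pool.Agent.H80.GP.Sl2
import Pool.Agent.H80.GP.Kgn

/-!
# Row Efc (MP_87ed0a_GP): the degree of `F` in `P`  (about 200 lines)

`efc`: for a `Glob` with `c < d`: `f = c`, or `d = c + 1`, `c < f` and `G` may be replaced by a form of `P`-degree `f`.
Proof.  `F ≠ 0` (`prim`: `inP q ∣ 0`; take the prime `X 0`).  `c ≤ f` by `f_ge`.  Let `c < f`.  Put `H2 := X (inl 0) * DG F - C (f - c) * X (inr 0) * F`.
`x`-homogeneous of degree `c + 1` (`DG_wx`), `P`-homogeneous of degree `f` (`DG_wP`, `f ≥ 1`).  `EE H2 = P_0 EE (DG F) - (f - c)(P_0 F + x_0 EE F) = P_0 (f - c) F - (f - c) P_0 F = 0` (`EE_DG`, `EE F = 0`, `EE (X (inl 0)) = 0`,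
`EE (X (inr 0)) = X (inl 0)`).  `atz (z s) H2 = 0` (`dz_atz`: `atz (DG F) = dz (atz F) = 0`).
By `gen`: `r ≠ 0`, `inP r * H2 = A F + B G`.  Take the `x`-homogeneous components of degree `c + 1`: `A` may be taken `x`-homogeneous of degree 1, `B` of `x`-degree `c + 1 - d` (`B = 0` if `c + 1 < d`).
(Components: `weightedHomogeneousComponent wx (c+1)`; product of a homogeneous `F` with `A`: the component of degree `c+1` of `A * F` is (component of degree 1 of `A`) `* F`.)
Claim: `B ≠ 0`.  If `B = 0`: `inP r * X (inl 0) * DG F = (A + C (f-c) * X (inr 0) * inP r) F`.  So `inP (r * X 0) * DG F = A' F`.  Since no `inP q`, `q` prime, divides `F` (`prim`) and `inP q` is prime (`inP_prime`), by induction on the number of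
prime factors of `r * X 0` (UFD induction: `UniqueFactorizationMonoid.induction_on_prime`), `inP (r * X 0) ∣ A'`: `A' = inP (r X 0) M`, `DG F = M F`.  `F ≠ 0` is `wP`-homogeneous of degree `f`, `DG F` of degree `f - 1 < f`: if `M ≠ 0` the product `M F` has
all its monomials of `P`-degree `≥ f` but is nonzero, homogeneous of degree `f - 1`: contradiction.  So `DG F = 0` and by `EE_DG`: `(f - c) F = 0`, contradiction with `f > c`, `F ≠ 0`.
So `B ≠ 0`, hence `d ≤ c + 1`, `d = c + 1`, `B` has `x`-degree 0: `B = inP b` (a polynomial of `x`-degree 0 comes from `RR`), `b ≠ 0`.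
`Glob z c d f f F H2`: the only nontrivial field is `gen`: if `inP r' * H = A1 F + B1 G` then `inP (b r') H = (b A1) F + B1 (inP b G) = (b A1) F + B1 (inP r H2 - A F)`.
-/

namespace GP80

open MvPolynomial

theorem Efc_comp {σ : Type} {R : Type} [CommRing R] (w : σ → ℕ) {F : MvPolynomial σ R} {c : ℕ}
    (hF : IsWeightedHomogeneous w F c) (t : ℕ) (A : MvPolynomial σ R) :
    weightedHomogeneousComponent w t (A * F) =
      (if c ≤ t then weightedHomogeneousComponent w (t - c) A else 0) * F := by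
  induction A using MvPolynomial.induction_on' with
  | monomial u a =>
    have h0 : IsWeightedHomogeneous w (monomial u a) (Finsupp.weight w u) :=
      isWeightedHomogeneous_monomial w u a rfl
    have h1 : IsWeightedHomogeneous w (monomial u a * F) (Finsupp.weight w u + c) := h0.mul hF
    rw [weightedHomogeneousComponent_of_mem h1]
    by_cases hc : c ≤ t
    · rw [if_pos hc, weightedHomogeneousComponent_of_mem h0]
      by_cases h2 : t = Finsupp.weight w u + c
      · rw [if_pos h2, if_pos (by omega)]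
      · rw [if_neg h2, if_neg (by omega), zero_mul]
    · rw [if_neg hc, if_neg (by omega), zero_mul]
  | add p q hp hq =>
    rw [add_mul, map_add, hp, hq, map_add]
    split_ifs <;> ring

theorem Efc_deg0 {B : BB} (hB : IsWeightedHomogeneous wx B 0) : ∃ b : RR, inP b = B := by
  have h := exists_rename_eq_of_vars_subset_range B (Sum.inl : Fin 4 → Fin 4 ⊕ Fin 4)
    Sum.inl_injective ?_
  · obtain ⟨q, hq⟩ := h
    exact ⟨q, hq⟩
  · intro v hv
    rcases v with i | i
    · exact ⟨i, rfl⟩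
    · exfalso
      rw [Finset.mem_coe, mem_vars_iff_mem_support] at hv
      obtain ⟨m, hm, hi⟩ := hv
      have h1 := hB (mem_support_iff.1 hm)
      have h2 := Finsupp.le_weight wx (s := Sum.inr i) (by show (1 : ℕ) ≠ 0; norm_num) m
      rw [h1] at h2
      exact (Finsupp.mem_support_iff.1 hi) (Nat.le_zero.1 h2)

theorem Efc_ufd {F : BB} (hprim : ∀ q : RR, Prime q → ¬ inP q ∣ F) (R0 : RR) :
    R0 ≠ 0 → ∀ A D : BB, inP R0 * D = A * F → inP R0 ∣ A := by
  induction R0 using UniqueFactorizationMonoid.induction_on_prime with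
  | h₁ => exact fun h => absurd rfl h
  | h₂ u hu =>
    intro _ A D _
    exact (hu.map inP).dvd
  | h₃ a p ha hp ih =>
    intro _ A D h
    have h1 : inP p ∣ A * F := ⟨inP a * D, by rw [← h, map_mul, mul_assoc]⟩
    rcases (inP_prime hp).dvd_or_dvd h1 with h2 | h2
    · obtain ⟨A', rfl⟩ := h2
      have h3 : inP a * D = A' * F := by
        refine mul_left_cancel₀ (inP_prime hp).ne_zero ?_
        rw [map_mul] at h
        linear_combination h
      rw [map_mul]
      exact mul_dvd_mul_left _ (ih ha A' D h3)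
    · exact absurd h2 (hprim p hp)

theorem Efc_cast_wh (w : Fin 4 ⊕ Fin 4 → ℕ) (n : ℕ) : IsWeightedHomogeneous w ((n : ℕ) : BB) 0 := by
  have h : ((n : ℕ) : BB) = C ((n : ℕ) : ℂ) := by simp
  rw [h]
  exact isWeightedHomogeneous_C w _

theorem Efc_inP_X (i : Fin 4) : inP (X i) = X (Sum.inl i) := by
  show rename (Sum.inl : Fin 4 → Fin 4 ⊕ Fin 4) (X i) = _
  rw [rename_X]

theorem Efc_EE_inl (i : Fin 4) : EE (X (Sum.inl i)) = 0 := by
  unfold EE
  rw [mkDerivation_X]
  rfl

theorem Efc_EE_inr (i : Fin 4) : EE (X (Sum.inr i)) = X (Sum.inl i) := by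
  unfold EE
  rw [mkDerivation_X]
  rfl

theorem efc {I : Type} [Fintype I] (z : I → Fin 4 → ℂ) {c d f f' : ℕ} {F G : BB}
    (h : Glob z c d f f' F G) (hcd : c < d) :
    f = c ∨ (d = c + 1 ∧ c < f ∧ ∃ G' : BB, Glob z c d f f F G') := by
  classical
  have hF0 : F ≠ 0 := by
    intro h0
    exact h.prim hcd (X 0) (X_prime (R := ℂ)) (by rw [h0]; exact dvd_zero _)
  have hcf := f_ge h.Fx h.FP h.FE hF0
  rcases hcf.eq_or_lt with hfc | hfc
  · exact Or.inl hfc.symm
  right
  obtain ⟨f1, rfl⟩ : ∃ f1, f = f1 + 1 := ⟨f - 1, by omega⟩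
  obtain ⟨e, he⟩ : ∃ e, f1 + 1 = c + e := ⟨f1 + 1 - c, by omega⟩
  have he0 : e ≠ 0 := by omega
  have hEDG : EE (DG F) = (e : BB) * F := by
    have h1 := EE_DG h.Fx h.FP
    rw [h.FE, map_zero, zero_add, he] at h1
    push_cast at h1
    linear_combination h1
  obtain ⟨H2, hH2⟩ : ∃ H2 : BB, H2 = X (Sum.inl 0) * DG F - (e : BB) * X (Sum.inr 0) * F :=
    ⟨_, rfl⟩
  have h2x : IsWeightedHomogeneous wx H2 (c + 1) := by
    rw [hH2]
    have h1 : IsWeightedHomogeneous wx (X (Sum.inl 0) * DG F) (0 + (c + 1)) :=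
      (isWeightedHomogeneous_X ℂ wx (Sum.inl 0)).mul (DG_wx h.Fx)
    have h2 : IsWeightedHomogeneous wx ((e : BB) * X (Sum.inr 0) * F) (0 + 1 + c) :=
      ((Efc_cast_wh wx e).mul (isWeightedHomogeneous_X ℂ wx (Sum.inr 0))).mul h.Fx
    rw [show 0 + (c + 1) = c + 1 by omega] at h1
    rw [show 0 + 1 + c = c + 1 by omega] at h2
    exact h1.sub h2
  have h2P : IsWeightedHomogeneous wP H2 (f1 + 1) := by
    rw [hH2]
    have h1 : IsWeightedHomogeneous wP (X (Sum.inl 0) * DG F) (1 + f1) :=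
      (isWeightedHomogeneous_X ℂ wP (Sum.inl 0)).mul (DG_wP h.FP)
    have h2 : IsWeightedHomogeneous wP ((e : BB) * X (Sum.inr 0) * F) (0 + 0 + (f1 + 1)) :=
      ((Efc_cast_wh wP e).mul (isWeightedHomogeneous_X ℂ wP (Sum.inr 0))).mul h.FP
    rw [show 1 + f1 = f1 + 1 by omega] at h1
    rw [show 0 + 0 + (f1 + 1) = f1 + 1 by omega] at h2
    exact h1.sub h2
  have h2E : EE H2 = 0 := by
    rw [hH2, map_sub, Derivation.leibniz, Derivation.leibniz, Derivation.leibniz,
      Derivation.map_natCast, Efc_EE_inl, Efc_EE_inr, hEDG, h.FE]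
    simp only [smul_eq_mul]
    ring
  have h2z : ∀ s, atz (z s) H2 = 0 := by
    intro s
    rw [hH2, map_sub, map_mul, map_mul, ← dz_atz, h.Fz s, map_zero, mul_zero, mul_zero, sub_zero]
  obtain ⟨r, hr, hrI⟩ := h.gen (c + 1) H2 h2x h2E h2z
  rw [Ideal.mem_span_pair] at hrI
  obtain ⟨A₀, B₀, hAB₀⟩ := hrI
  obtain ⟨A, hA⟩ : ∃ A, A = weightedHomogeneousComponent wx (c + 1 - c) A₀ := ⟨_, rfl⟩
  obtain ⟨B, hB⟩ : ∃ B, B = (if d ≤ c + 1 then weightedHomogeneousComponent wx (c + 1 - d) B₀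
    else 0) := ⟨_, rfl⟩
  have hAB : A * F + B * G = inP r * H2 := by
    have h1 := congrArg (weightedHomogeneousComponent wx (c + 1)) hAB₀
    rw [map_add, Efc_comp wx h.Fx, Efc_comp wx h.Gx, if_pos (Nat.le_succ c), ← hA, ← hB] at h1
    rw [h1]
    refine weightedHomogeneousComponent_eq_self ?_
    have h2 := (inP_wx r).mul h2x
    rwa [zero_add] at h2
  have hB0 : B ≠ 0 := by
    intro hB0
    rw [hB0, zero_mul, add_zero] at hAB
    have hR0 : r * X 0 ≠ 0 := mul_ne_zero hr (X_ne_zero 0)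
    have h1 : inP (r * X 0) * DG F = (A + (e : BB) * X (Sum.inr 0) * inP r) * F := by
      rw [map_mul, Efc_inP_X, add_mul, hAB, hH2]
      ring
    obtain ⟨M, hM⟩ := Efc_ufd (h.prim hcd) _ hR0 _ _ h1
    have h3 : inP (r * X 0) ≠ 0 := by
      intro h4
      exact hR0 (inP_injective (by rw [h4, map_zero]))
    have h4 : DG F = M * F := by
      refine mul_left_cancel₀ h3 ?_
      rw [h1, hM]
      ring
    have h5 : DG F = 0 := by
      have h6 := weightedHomogeneousComponent_eq_self (DG_wP h.FP)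
      rw [← h6]
      rw [h4, Efc_comp wP h.FP, if_neg (by omega), zero_mul]
    rw [h5, map_zero] at hEDG
    have h7 : ((e : ℕ) : BB) ≠ 0 := Nat.cast_ne_zero.2 he0
    exact mul_ne_zero h7 hF0 hEDG.symm
  have hdc : d ≤ c + 1 := by
    by_contra h1
    rw [if_neg h1] at hB
    exact hB0 hB
  have hd : d = c + 1 := by omega
  rw [if_pos hdc] at hB
  have hBh : IsWeightedHomogeneous wx B 0 := by
    rw [hB]
    have h1 := weightedHomogeneousComponent_isWeightedHomogeneous (w := wx) (c + 1 - d) B₀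
    rwa [show c + 1 - d = 0 by omega] at h1 ⊢
  obtain ⟨b, hb⟩ := Efc_deg0 hBh
  have hb0 : b ≠ 0 := by
    intro h1
    rw [h1, map_zero] at hb
    exact hB0 hb.symm
  refine ⟨hd, hfc, H2, ?_⟩
  refine ⟨h.c2, h.cd, h.N, h.Fx, h.FP, by rw [hd]; exact h2x, h2P, h.FE, h2E, h.Fz, h2z, ?_,
    h.prim⟩
  intro t H hH hE hz
  obtain ⟨r', hr', hI⟩ := h.gen t H hH hE hz
  rw [Ideal.mem_span_pair] at hI
  obtain ⟨A1, B1, hAB1⟩ := hI
  refine ⟨b * r', mul_ne_zero hb0 hr', ?_⟩
  rw [Ideal.mem_span_pair]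
  refine ⟨inP b * A1 - B1 * A, B1 * inP r, ?_⟩
  rw [map_mul, hb]
  linear_combination B * hAB1 - B1 * hAB

end GP80
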