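import Mathlib
import Pool.Agent.H80.GP.GDefs
import Pool.Agent.H80.GP.Ga1
import Pool.Agent.H80.GP.Ga2
import Pool.Agent.H80.GP.Ga3
import Pool.Agent.H80.GP.Sl2
import Pool.Agent.H80.GP.Kos
import Pool.Agent.H80.GP.Kgn
import Pool.Agent.H80.GP.Pli

/-!
# Row Fln (MP_87ed0a_GP): `F` is not identically zero on a chord  (about 220 lines)

`c < d`, `f = c`, no third point on the line `z s, z s'`.  Write `z = z s`, `z' = z s'`.  Suppose the reduction of `chartH (AL z z') 0 F` is zero.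
1. All coefficients `a ∈ RR` of `chartH RR 0 F` are in `pL z z'` (`chart_map`, `AL_mem_max`), i.e. `a(σ z + τ z') = 0` for all `σ, τ ∈ ℂ`.  So `F(p, (0, y')) = 0` for `p = σ z + τ z'`, all `y' ∈ ℂ^3`, and by `hlift_chart`
   (`p_0^c F(p, y) = (chart F)(p_0 y' - y_0 p')`) `F(p, y) = 0` for all `y ∈ ℂ^4` when `p_0 ≠ 0`, hence (density, or polynomial identity in `σ, τ`: `(σ z_0 + τ z'_0)^c F(σ z + τ z', y) = 0` and `ℂ[σ, τ]` is a domain) for all `σ, τ`.
2. `antisym` (`f = c`): `F(y, σ z + τ z') = 0` for all `y ∈ ℂ^4`; so the polynomial `F(P, σ z + τ z') ∈ ℂ[P, σ, τ]` is `0` (`funext`).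
3. `K = FractionRing RR`, `v_t = vz K 0 (z t)`, `v = v_s`, `v' = v_s'`, `F0 = chartH K 0 F`, `G0`.  For `α, β ∈ K`: `F0(α v + β v') = F(P, (0, α v + β v')) = F(P, (α/z_0) z + (β/z'_0) z') = 0`
   (`(0, v) = z/z_0 - P/P_0`; `einv` removes the multiple of `P`; then specialise the identity 2. to `σ = α/z_0`, `τ = β/z'_0`).
   `h := v × v' ≠ 0` (`indep_K`), `λ = ∑ h_i X_i`; the vectors `w_k = v + k v'`, `k = 0..c`, are pairwise independent, on `λ = 0`, zeros of `F0`: `line_dvd` (Kos) gives `F0 = λ F1`, `F1` homogeneous of degree `c - 1`, `F1 ≠ 0`.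
4. For `t ≠ s, s'`: `λ(v_t) ≠ 0` since `v_t, v, v'` are linearly independent over `K` (their determinant times `P_0 z_0 z'_0 z''_0` is `± det(P, z, z', z t)`, a nonzero linear form in `P` because `z, z', z t` are independent).  So `F1(v_t) = 0`.
5. Choose linear forms `u, u'` over `K` with `u(v) = 0`, `u'(v') = 0`, not proportional to `λ` (e.g. `u = (v × y) · X` with `y` not in the span of `v, v'`).  `g := F1 u u'` is homogeneous of degree `c + 1` and vanishes at all `v_t`; `gen_K`: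
   `g = A F0 + B G0` with `A` homogeneous of degree 1, `B` of degree `c + 1 - d` (`0` if `c + 1 < d`).
   If `B = 0`: `u u' = A λ`; `λ` is prime (linear), so `λ ∣ u` or `λ ∣ u'`: proportional, contradiction.
   If `B ≠ 0`: `d = c + 1`, `B` a nonzero constant, `F1 (u u' - A λ) = B G0`, so `F1 ∣ G0` and `F1 ∣ F0`: `F1` is a unit by `cop_K`, but it has degree `c - 1 ≥ 1`: contradiction.
-/

namespace GP80

open MvPolynomial

section Fln_sec

attribute [local instance] MvPolynomial.gradedAlgebra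

theorem Fln_hom_right {k : Type} [Field k] {L F1 F0 : MvPolynomial (Fin 3) k} {c : ℕ}
    (hL : L.IsHomogeneous 1) (hL0 : L ≠ 0) (hF : F0.IsHomogeneous c) (hc : 1 ≤ c)
    (h : F0 = L * F1) : F1.IsHomogeneous (c - 1) := by

  have h1 : (↑((DirectSum.decompose (homogeneousSubmodule (Fin 3) k) F0) c) :
      MvPolynomial (Fin 3) k) = F0 :=
    DirectSum.decompose_of_mem_same _ ((mem_homogeneousSubmodule c F0).2 hF)
  have h2 : (↑((DirectSum.decompose (homogeneousSubmodule (Fin 3) k) (L * F1)) c) :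
      MvPolynomial (Fin 3) k) =
      L * ↑((DirectSum.decompose (homogeneousSubmodule (Fin 3) k) F1) (c - 1)) :=
    DirectSum.coe_decompose_mul_of_left_mem_of_le _ ((mem_homogeneousSubmodule 1 L).2 hL) hc
  rw [← h, h1] at h2
  have h3 : L * F1 = L * ↑((DirectSum.decompose (homogeneousSubmodule (Fin 3) k) F1) (c - 1)) := by
    rw [← h]
    exact h2
  have h4 := mul_left_cancel₀ hL0 h3
  rw [h4, ← mem_homogeneousSubmodule]
  exact SetLike.coe_mem _

theorem Fln_core {k I : Type} [Field k] [CharZero k] (w : I → Fin 3 → k) (s s' : I)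
    (hvv : LinearIndependent k ![w s, w s']) {c d : ℕ} {F0 G0 : MvPolynomial (Fin 3) k}
    (hF : F0.IsHomogeneous c) (hG : G0.IsHomogeneous d) (hc : 2 ≤ c) (hd : 3 ≤ d)
    (hline : ∀ α β : k, eval (α • w s + β • w s') F0 = 0)
    (hF0 : ∀ t, eval (w t) F0 = 0) (hcop : IsRelPrime F0 G0)
    (gen : ∀ t g, MvPolynomial.IsHomogeneous g t → (∀ i, eval (w i) g = 0) →
      g ∈ Ideal.span {F0, G0})
    (hne : ∀ t, t ≠ s → t ≠ s' → ∑ i, (crossProduct (w s)) (w s') i * w t i ≠ 0) : False := by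
  obtain ⟨v, hv⟩ : ∃ v, v = w s := ⟨_, rfl⟩
  obtain ⟨v', hv'⟩ : ∃ v', v' = w s' := ⟨_, rfl⟩
  rw [← hv, ← hv'] at hvv hline hne
  obtain ⟨h, hh⟩ : ∃ h, h = (crossProduct v) v' := ⟨_, rfl⟩
  rw [← hh] at hne
  have hh0 : h ≠ 0 := by
    rw [hh]
    exact crossProduct_ne_zero_iff_linearIndependent.2 hvv
  have e0 : h 0 = v 1 * v' 2 - v 2 * v' 1 := by rw [hh, cross_apply]; rfl
  have e1 : h 1 = v 2 * v' 0 - v 0 * v' 2 := by rw [hh, cross_apply]; rfl
  have e2 : h 2 = v 0 * v' 1 - v 1 * v' 0 := by rw [hh, cross_apply]; rfl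
  have hhv : ∑ i, h i * v i = 0 := by
    rw [Fin.sum_univ_three, e0, e1, e2]; ring
  have hhv' : ∑ i, h i * v' i = 0 := by
    rw [Fin.sum_univ_three, e0, e1, e2]; ring
  -- the line divides
  have hdvd : Kos_L h ∣ F0 := by
    refine line_dvd (fun n : ℕ => v + (n : k) • v') (Finset.range (c + 1)) ?_ hF h hh0 ?_ ?_ ?_
    · intro a _ b _ hab
      rw [LinearIndependent.pair_iff] at hvv ⊢
      intro x y hxy
      have h1 : (x + y) • v + (x * a + y * b) • v' = 0 := by
        rw [← hxy]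
        module
      obtain ⟨h2, h3⟩ := hvv _ _ h1
      have h4 : x * ((a : k) - b) = 0 := by linear_combination h3 - (b : k) * h2
      have h5 : (a : k) - b ≠ 0 := sub_ne_zero.2 (by exact_mod_cast hab)
      have h6 : x = 0 := (mul_eq_zero.1 h4).resolve_right h5
      refine ⟨h6, ?_⟩
      rw [h6, zero_add] at h2
      exact h2
    · intro a _
      have h1 : ∑ i, h i * (v + (a : k) • v') i = ∑ i, h i * v i + (a : k) * ∑ i, h i * v' i := by
        rw [Finset.mul_sum, ← Finset.sum_add_distrib]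
        refine Finset.sum_congr rfl fun i _ => ?_
        rw [Pi.add_apply, Pi.smul_apply, smul_eq_mul]
        ring
      rw [h1, hhv, hhv', mul_zero, add_zero]
    · intro a _
      have h1 := hline 1 a
      rw [one_smul] at h1
      exact h1
    · rw [Finset.card_range]
      exact Nat.lt_succ_self c
  obtain ⟨F1, hF1⟩ := hdvd
  have hL0 : Kos_L h ≠ 0 := Kos_L_ne hh0
  have hF1h := Fln_hom_right (Kos_L_hom h) hL0 hF (by omega) hF1
  -- the linear forms
  obtain ⟨i0, hi0⟩ : ∃ i, h i ≠ 0 := by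
    by_contra hcon
    push Not at hcon
    exact hh0 (funext hcon)
  obtain ⟨y, hy⟩ : ∃ y : Fin 3 → k, y = Pi.single i0 1 := ⟨_, rfl⟩
  have hhy : ∑ i, h i * y i ≠ 0 := by
    rw [hy]
    simpa [Pi.single_apply] using hi0
  obtain ⟨b, hb⟩ : ∃ b, b = (crossProduct v) y := ⟨_, rfl⟩
  obtain ⟨b', hb'⟩ : ∃ b', b' = (crossProduct v') y := ⟨_, rfl⟩
  have f0 : b 0 = v 1 * y 2 - v 2 * y 1 := by rw [hb, cross_apply]; rfl
  have f1 : b 1 = v 2 * y 0 - v 0 * y 2 := by rw [hb, cross_apply]; rfl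
  have f2 : b 2 = v 0 * y 1 - v 1 * y 0 := by rw [hb, cross_apply]; rfl
  have g0 : b' 0 = v' 1 * y 2 - v' 2 * y 1 := by rw [hb', cross_apply]; rfl
  have g1 : b' 1 = v' 2 * y 0 - v' 0 * y 2 := by rw [hb', cross_apply]; rfl
  have g2 : b' 2 = v' 0 * y 1 - v' 1 * y 0 := by rw [hb', cross_apply]; rfl
  have hbv : ∑ i, b i * v i = 0 := by
    rw [Fin.sum_univ_three, f0, f1, f2]; ring
  have hb'v' : ∑ i, b' i * v' i = 0 := by
    rw [Fin.sum_univ_three, g0, g1, g2]; ring
  have hx1 : ∑ i, b i * (v + v') i = - ∑ i, h i * y i := by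
    rw [Fin.sum_univ_three, Fin.sum_univ_three, f0, f1, f2, e0, e1, e2]
    simp only [Pi.add_apply]
    ring
  have hx2 : ∑ i, b' i * (v + v') i = ∑ i, h i * y i := by
    rw [Fin.sum_univ_three, Fin.sum_univ_three, g0, g1, g2, e0, e1, e2]
    simp only [Pi.add_apply]
    ring
  have hx3 : ∑ i, h i * (v + v') i = 0 := by
    rw [Fin.sum_univ_three, e0, e1, e2]
    simp only [Pi.add_apply]
    ring
  -- the form g
  have hguu : (Kos_L b * Kos_L b').IsHomogeneous 2 := (Kos_L_hom b).mul (Kos_L_hom b')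
  have hgh : (F1 * (Kos_L b * Kos_L b')).IsHomogeneous (c - 1 + 2) := hF1h.mul hguu
  have hg0 : ∀ t, eval (w t) (F1 * (Kos_L b * Kos_L b')) = 0 := by
    intro t
    rw [map_mul, map_mul, Kos_L_eval, Kos_L_eval]
    by_cases hts : t = s
    · rw [hts, ← hv, hbv, zero_mul, mul_zero]
    · by_cases hts' : t = s'
      · rw [hts', ← hv', hb'v', mul_zero, mul_zero]
      · have h1 := hF0 t
        rw [hF1, map_mul, Kos_L_eval] at h1
        rw [(mul_eq_zero.1 h1).resolve_left (hne t hts hts'), zero_mul]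
  obtain ⟨A, B, hAB⟩ := Ideal.mem_span_pair.1 (gen _ _ hgh hg0)
  have hF1F0 : F1 ∣ F0 := by
    rw [hF1]
    exact dvd_mul_left _ _
  have hG0u : ¬ IsUnit G0 := by
    intro hu
    obtain ⟨r, hr, hGr⟩ := isUnit_iff_eq_C_of_isReduced.1 hu
    have h1 : coeff 0 G0 ≠ 0 := by
      rw [hGr, coeff_C, if_pos rfl]
      exact hr.ne_zero
    have h2 := hG h1
    rw [map_zero] at h2
    omega
  have hF10 : F1 ≠ 0 := by
    rintro rfl
    rw [mul_zero] at hF1
    rw [hF1] at hcop
    exact hG0u (hcop (dvd_zero _) dvd_rfl)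
  have hrel : IsRelPrime F1 G0 := hcop.of_dvd_left hF1F0
  have hdB : F1 ∣ B := by
    refine hrel.dvd_of_dvd_mul_right (z := G0) ⟨Kos_L b * Kos_L b' - A * Kos_L h, ?_⟩
    rw [hF1] at hAB
    linear_combination hAB
  obtain ⟨B', hB'⟩ := hdB
  have hkey : Kos_L b * Kos_L b' - A * Kos_L h = B' * G0 := by
    apply mul_left_cancel₀ hF10
    rw [hF1, hB'] at hAB
    linear_combination -hAB
  have hkey2 : Kos_L b * Kos_L b' =
      ↑((DirectSum.decompose (homogeneousSubmodule (Fin 3) k) A) 1) * Kos_L h := by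

    have h1 : (↑((DirectSum.decompose (homogeneousSubmodule (Fin 3) k) (Kos_L b * Kos_L b')) 2) :
        MvPolynomial (Fin 3) k) = Kos_L b * Kos_L b' :=
      DirectSum.decompose_of_mem_same _ ((mem_homogeneousSubmodule 2 _).2 hguu)
    have h2 : (↑((DirectSum.decompose (homogeneousSubmodule (Fin 3) k) (A * Kos_L h)) 2) :
        MvPolynomial (Fin 3) k) =
        ↑((DirectSum.decompose (homogeneousSubmodule (Fin 3) k) A) (2 - 1)) * Kos_L h :=
      DirectSum.coe_decompose_mul_of_right_mem_of_le _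
        ((mem_homogeneousSubmodule 1 _).2 (Kos_L_hom h)) (by norm_num)
    have h3 : (↑((DirectSum.decompose (homogeneousSubmodule (Fin 3) k) (B' * G0)) 2) :
        MvPolynomial (Fin 3) k) = 0 :=
      DirectSum.coe_decompose_mul_of_right_mem_of_not_le _
        ((mem_homogeneousSubmodule d _).2 hG) (by omega)
    have h4 : Kos_L b * Kos_L b' = A * Kos_L h + B' * G0 := by
      rw [← hkey]
      ring
    rw [h4, DirectSum.decompose_add, DirectSum.add_apply, Submodule.coe_add, h2, h3, add_zero,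
      ← h4] at h1
    exact h1.symm
  have hfin := congrArg (eval (v + v')) hkey2
  rw [map_mul, map_mul, Kos_L_eval, Kos_L_eval, Kos_L_eval, hx1, hx2, hx3, mul_zero] at hfin
  rcases mul_eq_zero.1 hfin with h1 | h1
  · exact hhy (neg_eq_zero.1 h1)
  · exact hhy h1

end Fln_sec

theorem Fln_coef (z z' : Fin 4 → ℂ) {Q : Type} [CommRing Q] [Algebra ℂ Q] (σ τ : Q) {r : RR}
    (hr : r ∈ pL z z') :
    aeval (fun i => σ * algebraMap ℂ Q (z i) + τ * algebraMap ℂ Q (z' i)) r = 0 := by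
  have h1 : (eval₂Hom (C : ℂ →+* MvPolynomial (Fin 2) ℂ)
      (fun i => X 0 * C (z i) + X 1 * C (z' i)) : RR →+* MvPolynomial (Fin 2) ℂ) r = 0 :=
    RingHom.mem_ker.1 hr
  have h2 : ∀ r : RR, aeval (fun i => σ * algebraMap ℂ Q (z i) + τ * algebraMap ℂ Q (z' i)) r =
      aeval ![σ, τ] ((eval₂Hom (C : ℂ →+* MvPolynomial (Fin 2) ℂ)
      (fun i => X 0 * C (z i) + X 1 * C (z' i)) : RR →+* MvPolynomial (Fin 2) ℂ) r) := by
    intro r
    induction r using MvPolynomial.induction_on with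
    | C a => simp
    | add p q hp hq => rw [map_add, map_add, map_add, hp, hq]
    | mul_X p i hp =>
      rw [map_mul, map_mul, map_mul, hp]
      congr 1
      simp
  rw [h2, h1, map_zero]

theorem Fln_hlift (z z' : Fin 4 → ℂ) {Q : Type} [CommRing Q] [Algebra ℂ Q] (σ τ : Q)
    (y : Fin 4 → Q) {f : MvPolynomial (Fin 3) RR} (hf : ∀ e, coeff e f ∈ pL z z') :
    aeval (Sum.elim (fun i => σ * algebraMap ℂ Q (z i) + τ * algebraMap ℂ Q (z' i)) y)
      (hlift 0 f) = 0 := by
  have h1 : hlift 0 f = ∑ e ∈ f.support, inP (coeff e f) *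
      ∏ j ∈ e.support, (X (Sum.inl 0) * X (Sum.inr (Fin.succAbove (0 : Fin 4) j)) -
        X (Sum.inr 0) * X (Sum.inl (Fin.succAbove (0 : Fin 4) j)) : BB) ^ e j := by
    unfold hlift
    rw [coe_eval₂Hom, eval₂_eq]
  rw [h1, map_sum]
  refine Finset.sum_eq_zero fun e _ => ?_
  rw [map_mul]
  have h2 : aeval (Sum.elim (fun i => σ * algebraMap ℂ Q (z i) + τ * algebraMap ℂ Q (z' i)) y)
      (inP (coeff e f)) = 0 := by
    have h3 : (inP (coeff e f) : BB) = rename Sum.inl (coeff e f) := rfl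
    rw [h3, aeval_rename]
    exact Fln_coef z z' σ τ (hf e)
  rw [h2, zero_mul]

theorem Fln_id (z z' : Fin 4 → ℂ) (hz : z 0 ≠ 0) {F : BB} {c : ℕ}
    (hx : IsWeightedHomogeneous wx F c) (hE : EE F = 0)
    (hf : ∀ e, coeff e (chartH RR 0 F) ∈ pL z z') {S : Type} [CommRing S] [Algebra ℂ S] (σ τ : S)
    (y : Fin 4 → S) :
    aeval (Sum.elim (fun i => σ * algebraMap ℂ S (z i) + τ * algebraMap ℂ S (z' i)) y) F = 0 := by
  obtain ⟨S0, hS0⟩ : ∃ a : MvPolynomial (Fin 2 ⊕ Fin 4) ℂ, a = X (Sum.inl 0) := ⟨_, rfl⟩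
  obtain ⟨T0, hT⟩ : ∃ a : MvPolynomial (Fin 2 ⊕ Fin 4) ℂ, a = X (Sum.inl 1) := ⟨_, rfl⟩
  have h1 : aeval (Sum.elim (fun i => S0 * algebraMap ℂ (MvPolynomial (Fin 2 ⊕ Fin 4) ℂ) (z i) +
      T0 * algebraMap ℂ (MvPolynomial (Fin 2 ⊕ Fin 4) ℂ) (z' i))
      (fun i => (X (Sum.inr i) : MvPolynomial (Fin 2 ⊕ Fin 4) ℂ))) F = 0 := by
    have h2 := Fln_hlift z z' S0 T0 (fun i => (X (Sum.inr i) : MvPolynomial (Fin 2 ⊕ Fin 4) ℂ)) hf
    rw [hlift_chart 0 hx hE, map_mul] at h2
    refine (mul_eq_zero.1 h2).resolve_left ?_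
    have h3 : (inP (X 0 ^ c) : BB) = X (Sum.inl 0) ^ c := by
      have h4 : (inP (X 0 ^ c) : BB) = rename Sum.inl (X 0 ^ c) := rfl
      rw [h4, map_pow, rename_X]
    rw [h3, map_pow, aeval_X]
    apply pow_ne_zero
    intro h5
    have h6 := congrArg (eval (Sum.elim ![1, 0] (fun _ => (0 : ℂ)))) h5
    rw [hS0, hT] at h6
    simp at h6
    exact hz h6
  have h2 : ∀ H : BB, aeval (Sum.elim (fun i => σ * algebraMap ℂ S (z i) +
      τ * algebraMap ℂ S (z' i)) y) H = aeval (Sum.elim ![σ, τ] y)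
      (aeval (Sum.elim (fun i => S0 * algebraMap ℂ (MvPolynomial (Fin 2 ⊕ Fin 4) ℂ) (z i) +
      T0 * algebraMap ℂ (MvPolynomial (Fin 2 ⊕ Fin 4) ℂ) (z' i))
      (fun i => (X (Sum.inr i) : MvPolynomial (Fin 2 ⊕ Fin 4) ℂ))) H) := by
    intro H
    rw [hS0, hT]
    induction H using MvPolynomial.induction_on with
    | C a => simp
    | add p q hp hq => rw [map_add, map_add, map_add, hp, hq]
    | mul_X p i hp =>
      rw [map_mul, map_mul, map_mul, hp]
      congr 1
      rcases i with i | i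
      · simp
      · simp
  rw [h2, h1, map_zero]

theorem Fln_eval (x : Fin 3 → FractionRing RR) (H : BB) :
    eval x (chartH (FractionRing RR) 0 H) =
      aeval (Sum.elim (fun i => algebraMap RR (FractionRing RR) (X i))
        (Fin.insertNth (α := fun _ => FractionRing RR) 0 0 x)) H := by
  induction H using MvPolynomial.induction_on with
  | C a =>
    have h1 : chartH (FractionRing RR) 0 (C a) = C (algebraMap RR (FractionRing RR) (C a)) := by
      unfold chartH
      rw [coe_eval₂Hom, eval₂_C]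
      rfl
    rw [h1, eval_C, aeval_C]
    rfl
  | add p q hp hq => rw [map_add, map_add, map_add, hp, hq]
  | mul_X p i hp =>
    rw [map_mul, map_mul, map_mul, hp, aeval_X]
    congr 1
    rcases i with i | i
    · have h1 : chartH (FractionRing RR) 0 (X (Sum.inl i)) =
          C (algebraMap RR (FractionRing RR) (X i)) := by
        unfold chartH
        rw [coe_eval₂Hom, eval₂_X]
        rfl
      rw [h1, eval_C]
      rfl
    · have h1 : chartH (FractionRing RR) 0 (X (Sum.inr i)) =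
          Fin.insertNth (α := fun _ => MvPolynomial (Fin 3) (FractionRing RR)) 0 0
            (fun m => X m) i := by
        unfold chartH
        rw [coe_eval₂Hom, eval₂_X]
        rfl
      rw [h1, Sum.elim_inr]
      refine Fin.cases ?_ (fun m => ?_) i
      · rw [Fin.insertNth_apply_same, Fin.insertNth_apply_same, map_zero]
      · have h2 : m.succ = Fin.succAbove 0 m := (Fin.succAbove_zero_apply m).symm
        rw [h2, Fin.insertNth_apply_succAbove, Fin.insertNth_apply_succAbove, eval_X]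

theorem Fln_vz (z : Fin 4 → ℂ) (j : Fin 3) :
    vz (FractionRing RR) 0 z j = algebraMap ℂ (FractionRing RR) (z j.succ) /
      algebraMap ℂ (FractionRing RR) (z 0) - algebraMap RR (FractionRing RR) (X j.succ) /
      algebraMap RR (FractionRing RR) (X 0) := by
  unfold vz
  rw [Fin.succAbove_zero_apply, Ring.inverse_eq_inv', div_eq_mul_inv (algebraMap RR _ _)]
  congr 1
  rw [← map_div₀]
  rfl

theorem Fln_X0 : algebraMap RR (FractionRing RR) (X 0) ≠ 0 := by
  intro h
  have h1 : (X 0 : RR) = 0 := (_root_.map_eq_zero_iff _ (IsFractionRing.injective RR (FractionRing RR))).1 h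
  exact X_ne_zero 0 h1

theorem Fln_line (z z' : Fin 4 → ℂ) (hz : z 0 ≠ 0) (hz' : z' 0 ≠ 0) {F : BB} {c : ℕ}
    (hx : IsWeightedHomogeneous wx F c) (hP : IsWeightedHomogeneous wP F c) (hE : EE F = 0)
    (hf : ∀ e, coeff e (chartH RR 0 F) ∈ pL z z') (α β : FractionRing RR) :
    eval (α • vz (FractionRing RR) 0 z + β • vz (FractionRing RR) 0 z')
      (chartH (FractionRing RR) 0 F) = 0 := by
  have hX0 := Fln_X0
  have hz0 : algebraMap ℂ (FractionRing RR) (z 0) ≠ 0 := by
    intro h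
    exact hz ((map_eq_zero _).1 h)
  have hz0' : algebraMap ℂ (FractionRing RR) (z' 0) ≠ 0 := by
    intro h
    exact hz' ((map_eq_zero _).1 h)
  obtain ⟨P, hPd⟩ : ∃ P : Fin 4 → FractionRing RR,
    P = fun i => algebraMap RR (FractionRing RR) (X i) := ⟨_, rfl⟩
  obtain ⟨Y, hY⟩ : ∃ Y : Fin 4 → FractionRing RR, Y = fun i =>
    (α / algebraMap ℂ (FractionRing RR) (z 0)) * algebraMap ℂ (FractionRing RR) (z i) +
      (β / algebraMap ℂ (FractionRing RR) (z' 0)) * algebraMap ℂ (FractionRing RR) (z' i) :=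
    ⟨_, rfl⟩
  obtain ⟨μ, hμ⟩ : ∃ μ : FractionRing RR, μ = -(α + β) / P 0 := ⟨_, rfl⟩
  have hP0 : P 0 ≠ 0 := by
    rw [hPd]
    exact hX0
  rw [Fln_eval, ← hPd]
  have h1 : Fin.insertNth (α := fun _ => FractionRing RR) 0 0
      (α • vz (FractionRing RR) 0 z + β • vz (FractionRing RR) 0 z') =
      fun i => Y i + μ * P i := by
    funext i
    refine Fin.cases ?_ (fun m => ?_) i
    · rw [Fin.insertNth_apply_same, hμ, hY]
      have h2 : -(α + β) / P 0 * P 0 = -(α + β) := div_mul_cancel₀ _ hP0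
      rw [h2]
      have h3 : α / algebraMap ℂ (FractionRing RR) (z 0) * algebraMap ℂ (FractionRing RR) (z 0) = α :=
        div_mul_cancel₀ _ hz0
      have h4 : β / algebraMap ℂ (FractionRing RR) (z' 0) *
        algebraMap ℂ (FractionRing RR) (z' 0) = β := div_mul_cancel₀ _ hz0'
      show 0 = α / algebraMap ℂ (FractionRing RR) (z 0) * algebraMap ℂ (FractionRing RR) (z 0) +
        β / algebraMap ℂ (FractionRing RR) (z' 0) * algebraMap ℂ (FractionRing RR) (z' 0) +
        -(α + β)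
      rw [h3, h4]
      ring
    · have h2 : m.succ = Fin.succAbove 0 m := (Fin.succAbove_zero_apply m).symm
      have h3 : Fin.insertNth (α := fun _ => FractionRing RR) 0 0
        (α • vz (FractionRing RR) 0 z + β • vz (FractionRing RR) 0 z') m.succ =
        (α • vz (FractionRing RR) 0 z + β • vz (FractionRing RR) 0 z') m := by
        rw [h2, Fin.insertNth_apply_succAbove]
      rw [h3, Pi.add_apply, Pi.smul_apply, Pi.smul_apply, Fln_vz, Fln_vz, hμ, hY, smul_eq_mul,
        smul_eq_mul]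
      have h4 : algebraMap RR (FractionRing RR) (X m.succ) = P m.succ := by rw [hPd]
      have h5 : algebraMap RR (FractionRing RR) (X 0) = P 0 := by rw [hPd]
      rw [h4, h5]
      ring
  rw [h1, einv hE P Y μ, antisym hx hP hE P Y, hY, Fln_id z z' hz hx hE hf, mul_zero]

theorem Fln_rel (z z' z'' : Fin 4 → ℂ) (h0 : z 0 ≠ 0) (h0' : z' 0 ≠ 0) (h0'' : z'' 0 ≠ 0)
    (a b : FractionRing RR)
    (hab : vz (FractionRing RR) 0 z'' = a • vz (FractionRing RR) 0 z + b • vz (FractionRing RR) 0 z')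
    (ℓ : (Fin 4 → ℂ) →ₗ[ℂ] ℂ) :
    algebraMap ℂ (FractionRing RR) (ℓ z'') / algebraMap ℂ (FractionRing RR) (z'' 0) -
      a / algebraMap ℂ (FractionRing RR) (z 0) * algebraMap ℂ (FractionRing RR) (ℓ z) -
      b / algebraMap ℂ (FractionRing RR) (z' 0) * algebraMap ℂ (FractionRing RR) (ℓ z') =
    (1 - a - b) / algebraMap RR (FractionRing RR) (X 0) *
      algebraMap RR (FractionRing RR) (∑ i, C (ℓ (Pi.single i 1)) * X i) := by
  have hX0 := Fln_X0
  have hz0 : algebraMap ℂ (FractionRing RR) (z 0) ≠ 0 := fun h => h0 ((map_eq_zero _).1 h)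
  have hz0' : algebraMap ℂ (FractionRing RR) (z' 0) ≠ 0 := fun h => h0' ((map_eq_zero _).1 h)
  have hz0'' : algebraMap ℂ (FractionRing RR) (z'' 0) ≠ 0 := fun h => h0'' ((map_eq_zero _).1 h)
  have hrel : ∀ i : Fin 4, algebraMap ℂ (FractionRing RR) (z'' i) /
      algebraMap ℂ (FractionRing RR) (z'' 0) -
      a / algebraMap ℂ (FractionRing RR) (z 0) * algebraMap ℂ (FractionRing RR) (z i) -
      b / algebraMap ℂ (FractionRing RR) (z' 0) * algebraMap ℂ (FractionRing RR) (z' i) =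
      (1 - a - b) / algebraMap RR (FractionRing RR) (X 0) *
        algebraMap RR (FractionRing RR) (X i) := by
    intro i
    refine Fin.cases ?_ (fun m => ?_) i
    · rw [div_self hz0'', div_mul_cancel₀ _ hz0, div_mul_cancel₀ _ hz0', div_mul_cancel₀ _ hX0]
    · have h1 := congrFun hab m
      rw [Pi.add_apply, Pi.smul_apply, Pi.smul_apply, Fln_vz, Fln_vz, Fln_vz, smul_eq_mul,
        smul_eq_mul] at h1
      linear_combination h1
  have hsum : ∀ x : Fin 4 → ℂ, algebraMap ℂ (FractionRing RR) (ℓ x) =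
      ∑ i, algebraMap ℂ (FractionRing RR) (ℓ (Pi.single i 1)) *
        algebraMap ℂ (FractionRing RR) (x i) := by
    intro x
    have h1 : ℓ x = ∑ i, ℓ (Pi.single i 1) * x i := by
      conv_lhs => rw [pi_eq_sum_univ' x]
      rw [map_sum]
      refine Finset.sum_congr rfl fun i _ => ?_
      rw [map_smul, smul_eq_mul, mul_comm]
    rw [h1, map_sum]
    exact Finset.sum_congr rfl fun i _ => by rw [map_mul]
  have hC : ∀ t : ℂ, algebraMap RR (FractionRing RR) (C t) = algebraMap ℂ (FractionRing RR) t :=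
    fun t => rfl
  rw [hsum z, hsum z', hsum z'', map_sum, Finset.sum_div, Finset.mul_sum, Finset.mul_sum,
    Finset.mul_sum, ← Finset.sum_sub_distrib, ← Finset.sum_sub_distrib]
  refine Finset.sum_congr rfl fun i _ => ?_
  rw [map_mul, hC]
  linear_combination algebraMap ℂ (FractionRing RR) (ℓ (Pi.single i 1)) * hrel i

theorem Fln_indep (z z' z'' : Fin 4 → ℂ) (h0 : z 0 ≠ 0) (h0' : z' 0 ≠ 0) (h0'' : z'' 0 ≠ 0)
    (hli : LinearIndependent ℂ ![z, z', z'']) (a b : FractionRing RR) :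
    vz (FractionRing RR) 0 z'' ≠
      a • vz (FractionRing RR) 0 z + b • vz (FractionRing RR) 0 z' := by
  intro hab
  have hX0 := Fln_X0
  have hz0'' : algebraMap ℂ (FractionRing RR) (z'' 0) ≠ 0 := fun h => h0'' ((map_eq_zero _).1 h)
  -- a functional vanishing on all three
  have hlt : Submodule.span ℂ (Set.range ![z, z', z'']) < ⊤ := by
    rw [lt_top_iff_ne_top]
    intro htop
    have h1 := finrank_range_le_card (R := ℂ) ![z, z', z'']
    have h2 : Set.finrank ℂ (Set.range ![z, z', z'']) = 4 := by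
      unfold Set.finrank
      rw [htop, finrank_top, Module.finrank_fin_fun]
    rw [h2, Fintype.card_fin] at h1
    omega
  obtain ⟨ℓ', hℓ'0, hℓ'⟩ := Submodule.exists_le_ker_of_lt_top _ hlt
  have k1 : ∀ i : Fin 3, ℓ' (![z, z', z''] i) = 0 := fun i =>
    LinearMap.mem_ker.1 (hℓ' (Submodule.subset_span ⟨i, rfl⟩))
  have hr1 := Fln_rel z z' z'' h0 h0' h0'' a b hab ℓ'
  have k2 : ℓ' z = 0 := k1 0
  have k3 : ℓ' z' = 0 := k1 1
  have k4 : ℓ' z'' = 0 := k1 2
  rw [k2, k3, k4, map_zero, zero_div, mul_zero, mul_zero, sub_zero, sub_zero] at hr1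
  have hne : (∑ i, C (ℓ' (Pi.single i 1)) * X i : RR) ≠ 0 := by
    intro h1
    apply hℓ'0
    refine LinearMap.pi_ext' fun i => LinearMap.ext_ring ?_
    have h2 := congrArg (eval (Pi.single i 1)) h1
    rw [map_sum, map_zero] at h2
    simp only [map_mul, eval_C, eval_X] at h2
    rw [Finset.sum_eq_single i] at h2
    · rw [Pi.single_eq_same, mul_one] at h2
      exact h2
    · intro j _ hj
      rw [Pi.single_eq_of_ne hj, mul_zero]
    · intro h3
      exact absurd (Finset.mem_univ i) h3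
  have hne2 : algebraMap RR (FractionRing RR) (∑ i, C (ℓ' (Pi.single i 1)) * X i) ≠ 0 := by
    intro h1
    exact hne ((_root_.map_eq_zero_iff _ (IsFractionRing.injective RR (FractionRing RR))).1 h1)
  have hab1 : 1 - a - b = 0 := by
    rcases mul_eq_zero.1 hr1.symm with h1 | h1
    · exact (div_eq_zero_iff.1 h1).resolve_right hX0
    · exact absurd h1 hne2
  -- a functional vanishing on the first two only
  have hnot : z'' ∉ Submodule.span ℂ {z, z'} := by
    intro hmem
    obtain ⟨x, y, hxy⟩ := Submodule.mem_span_pair.1 hmem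
    rw [Fintype.linearIndependent_iff] at hli
    have h1 := hli ![x, y, -1] (by
      rw [Fin.sum_univ_three]
      show x • z + y • z' + (-1 : ℂ) • z'' = 0
      rw [hxy]
      module) 2
    have h2 : (-1 : ℂ) = 0 := h1
    norm_num at h2
  obtain ⟨ℓ, hℓ0, hℓ⟩ := Submodule.exists_le_ker_of_notMem hnot
  have hr2 := Fln_rel z z' z'' h0 h0' h0'' a b hab ℓ
  have m2 : ℓ z = 0 := LinearMap.mem_ker.1 (hℓ (Submodule.subset_span (by simp)))
  have m3 : ℓ z' = 0 := LinearMap.mem_ker.1 (hℓ (Submodule.subset_span (by simp)))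
  rw [m2, m3, map_zero, mul_zero, mul_zero, sub_zero, sub_zero, hab1, zero_div, zero_mul] at hr2
  rcases div_eq_zero_iff.1 hr2 with h1 | h1
  · exact hℓ0 ((map_eq_zero _).1 h1)
  · exact hz0'' h1

theorem F_line_ne {I : Type} [Fintype I] (z : I → Fin 4 → ℂ) (hz : Geom z) {c d f' : ℕ} {F G : BB}
    (h : Glob z c d c f' F G) (hcd : c < d) {s s' : I} (hss : s ≠ s')
    (hnt : ∀ t, t ≠ s → t ≠ s' → LinearIndependent ℂ ![z s, z s', z t]) :
    map (IsLocalRing.residue (AL (z s) (z s'))) (chartH (AL (z s) (z s')) 0 F) ≠ 0 := by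
  intro hcon
  have hf : ∀ e, coeff e (chartH RR 0 F) ∈ pL (z s) (z s') := by
    intro e
    rw [← AL_mem_max, ← IsLocalRing.residue_eq_zero_iff, ← coeff_map, ← chart_map, ← coeff_map,
      hcon, coeff_zero]
  have hli := indep_K 0 (hz.co s 0) (hz.co s' 0) (hz.ind s s' hss)
  have hcpos := h.c2
  refine Fln_core (fun t => vz (FractionRing RR) 0 (z t)) s s' hli
    (chart_homog (FractionRing RR) 0 h.Fx) (chart_homog (FractionRing RR) 0 h.Gx) hcpos (by omega)
    (fun α β => Fln_line (z s) (z s') (hz.co s 0) (hz.co s' 0) h.Fx h.FP h.FE hf α β)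
    (fun t => vz_eval_zero (FractionRing RR) 0 (isUnit_iff_ne_zero.2 Fln_X0) h.Fx h.FE
      (hz.co t 0) (h.Fz t))
    (cop_K 0 z (fun t => hz.co t 0) h)
    (fun t g hg hg0 => gen_K 0 z (fun t => hz.co t 0) h hg hg0) ?_
  intro t hts hts' hzero
  have hh0 : (crossProduct (vz (FractionRing RR) 0 (z s))) (vz (FractionRing RR) 0 (z s')) ≠ 0 :=
    crossProduct_ne_zero_iff_linearIndependent.2 hli
  obtain ⟨a, b, hab⟩ := Kos_dep _ (vz (FractionRing RR) 0 (z s)) (vz (FractionRing RR) 0 (z s'))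
    (vz (FractionRing RR) 0 (z t)) hh0
    (by rw [Fin.sum_univ_three, cross_apply]
        simp only [Matrix.cons_val_zero, Matrix.cons_val_one, Matrix.cons_val]
        ring)
    (by rw [Fin.sum_univ_three, cross_apply]
        simp only [Matrix.cons_val_zero, Matrix.cons_val_one, Matrix.cons_val]
        ring) hzero
    (fun x y hxy => LinearIndependent.pair_iff.1 hli x y hxy)
  exact Fln_indep (z s) (z s') (z t) (hz.co s 0) (hz.co s' 0) (hz.co t 0) (hnt t hts hts') a b hab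

end GP80
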