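import Mathlib
import Pool.Agent.H80.GP.GDefs
import Pool.Agent.H80.GP.PDefs
import Pool.Agent.H80.GP.Fac
import Pool.Agent.H80.GP.Cch
import Pool.Agent.H80.GP.Bet

/-!
# Row Str (MP_87ed0a_GP): the inequality (star) 2.3  (about 180 lines)

`t = c + d - 2`, `N = card I = c d`, `nn (d-2) = d.choose 2`, `nn (c-2) = c.choose 2`.
Let `e, b` be as in `exists_beta`, `Δ2 := det (atz (z s) (b r)) ≠ 0`, `Δ1 := bigDet e (chartH RR 0 F) ..` (nonzero: take the prime `X 1`, `¬ X 1 ∣ X 0`, and `dt0`).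
`Δ1` is homogeneous of degree `f nn(d-2) + f' nn(c-2) + t N`, `Δ2` of degree `t N`.
Let `T'` be a set of primes extending `T` (`exists_primes`) which covers `Δ1 * Δ2 * X 0` (so also the `J s`, covered by `T`).  All `π ∈ T'` are homogeneous (`homog_of_dvd`), put `dl' π` = degree
(`= dl π` on `T`: a nonzero polynomial has one degree).
For `π ∈ T'`, `π ∉ T`: `π` divides no `J s` (else it would be associated to an element of `T`, hence equal), so by `mult` `om π s = 0 = jj π`, then `sum` and `pos` (`lam i * (c + d - lam i) ≥ 1`) give `n π = 0`.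
For every `π ∈ T'`: `mult π Δ1 ≤ mult π Δ2 + τ π + jj π * c.choose 2 + w * mult π (X 0)`, where `τ π = ∑_{i ∈ Icc 1 (n π)} (lam π i).choose 2`: if `π ∤ X 0` this is `dt0`; if `π ∣ X 0` (`mult π (X 0) = 1`, `π ~ X 0`, `π ∤ X 1`) it is `dt1` and
`chart_change`: `mult π (X 1^w Δ1) = mult π Δ1`, `mult π (X 0^w Δ1') = w + mult π Δ1'`.
Multiply by `dl' π`, sum over `T'` and use `sum_deg` (for `Δ1`) and `sum_deg` for `Δ2` and `X 0` (degrees `t N` and `1`):
`f nn(d-2) + f' nn(c-2) + t N ≤ t N + ∑_{T'} dl' π (τ π + jj π * c.choose 2) + w`, and only `π ∈ T` contribute.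
-/

namespace GP80

open MvPolynomial

theorem Str_X0_not (i : Fin 4) (hi : i ≠ 0) : ¬ (X i : RR) ∣ X 0 := by
  rw [X_dvd_X]
  push Not
  exact fun h => hi h

theorem Str_mult_dvd {π g : RR} (hπ : Prime π) (hg : g ≠ 0) (h : π ∣ g) : 1 ≤ multiplicity π g := by
  by_contra h1
  have h2 : multiplicity π g = 0 := by omega
  exact (mult_zero_iff hπ hg).1 h2 h

theorem star_ineq {I : Type} [Fintype I] [DecidableEq I] (z : I → Fin 4 → ℂ) (hz : Geom z)
    {c d f f' : ℕ} {F G : BB} (h : Glob z c d f f' F G) (J : I → RR) (om : RR → I → ℕ)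
    (jj g n : RR → ℕ) (lam : RR → ℕ → ℕ) (ho : GlobOut z c d F G J om jj g n lam)
    (T : Finset RR) (hT : PSet T) (dl : RR → ℕ) (hdl : ∀ π ∈ T, π.IsHomogeneous (dl π))
    (hcov : ∀ s q, Prime q → q ∣ J s → ∃ π ∈ T, Associated q π)
    {w : ℕ} (hw : w + c.choose 3 + d.choose 3 = (c + d).choose 3) :
    f * d.choose 2 + f' * c.choose 2 ≤
      w + ∑ π ∈ T, dl π * (∑ i ∈ Finset.Icc 1 (n π), (lam π i).choose 2 + jj π * c.choose 2) := by
  classical
  have hc2 := h.c2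
  have hcd := h.cd
  have hd2 : 2 ≤ d := hc2.trans hcd
  obtain ⟨e, b, hbx, hbE, hbP, hΔ2⟩ := exists_beta z hz h
  obtain ⟨Δ2, hΔ2d⟩ : ∃ x : RR, x = Matrix.det (Matrix.of fun r s => atz (z s) (b r)) := ⟨_, rfl⟩
  obtain ⟨Δ1, hΔ1d⟩ : ∃ x : RR, x = bigDet e (chartH RR 0 F) (chartH RR 0 G)
    (fun r => chartH RR 0 (b r)) := ⟨_, rfl⟩
  obtain ⟨Δ1', hΔ1'd⟩ : ∃ x : RR, x = bigDet e (chartH RR 1 F) (chartH RR 1 G)
    (fun r => chartH RR 1 (b r)) := ⟨_, rfl⟩
  have hX0 : (X 0 : RR) ≠ 0 := X_ne_zero 0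
  have hX1 : (X 1 : RR) ≠ 0 := X_ne_zero 1
  have hX0p : Prime (X 0 : RR) := X_prime
  have hX1p : Prime (X 1 : RR) := X_prime
  have hΔ1 : Δ1 ≠ 0 := by
    have h1 := ho.dt0 (X 1) hX1p ⟨1, isHomogeneous_X _ _⟩ (Str_X0_not 1 (by decide)) e b
      (fun r => ⟨hbx r, hbE r⟩) hΔ2
    rw [hΔ1d]
    exact h1.1
  have hΔ2' : Δ2 ≠ 0 := by
    rw [hΔ2d]
    exact hΔ2
  have hom1 : Δ1.IsHomogeneous (f * nn (d - 2) + f' * nn (c - 2) + (c + d - 2) * Fintype.card I) := by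
    rw [hΔ1d]
    exact bigDet_homog e b h.FP h.GP hbP 0
  have hom2 : Δ2.IsHomogeneous ((c + d - 2) * Fintype.card I) := by
    rw [hΔ2d]
    exact det_atz_homog z b hbP
  have hne : Δ1 * Δ2 * X 0 ≠ 0 := mul_ne_zero (mul_ne_zero hΔ1 hΔ2') hX0
  obtain ⟨T', hTT, hT', hdiv, hcov'⟩ := exists_primes T hT hne
  have hhomall : ∀ π ∈ T', ∃ δ, π.IsHomogeneous δ := by
    intro π hπ
    by_cases hπT : π ∈ T
    · exact ⟨_, hdl π hπT⟩
    · obtain ⟨δ, -, h1⟩ := homog_of_dvd ((hom1.mul hom2).mul (isHomogeneous_X _ 0)) hne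
        (hdiv π hπ hπT)
      exact ⟨δ, h1⟩
  obtain ⟨dl', hdl'd⟩ : ∃ D : RR → ℕ, D = fun π => if π ∈ T then dl π else π.totalDegree := ⟨_, rfl⟩
  have hdlT : ∀ π ∈ T, dl' π = dl π := by
    intro π hπ
    rw [hdl'd]
    exact if_pos hπ
  have hdl' : ∀ π ∈ T', π.IsHomogeneous (dl' π) := by
    intro π hπ
    by_cases hπT : π ∈ T
    · rw [hdlT π hπT]
      exact hdl π hπT
    · have h1 : dl' π = π.totalDegree := by
        rw [hdl'd]
        exact if_neg hπT
      obtain ⟨δ, hδ⟩ := hhomall π hπ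
      rw [h1, hδ.totalDegree (hT'.1 π hπ).ne_zero]
      exact hδ
  have hI : 0 < Fintype.card I := by
    rw [h.N]
    positivity
  obtain ⟨s0⟩ : Nonempty I := Fintype.card_pos_iff.1 hI
  have hvan : ∀ π ∈ T', π ∉ T → jj π = 0 ∧ n π = 0 := by
    intro π hπ hπT
    have hp := ho.po π (hT'.1 π hπ) (hhomall π hπ)
    have h0 : ∀ s, om π s + jj π = 0 := by
      intro s
      rw [← hp.mult s, mult_zero_iff (hT'.1 π hπ) (hp.ne s)]
      intro h1
      obtain ⟨π0, h2, h3⟩ := hcov s π (hT'.1 π hπ) h1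
      have h4 := hT'.2 π hπ π0 (hTT h2) h3
      exact hπT (h4 ▸ h2)
    refine ⟨by have := h0 s0; omega, ?_⟩
    by_contra hn
    have h5 : ∑ s, om π s = 0 := Finset.sum_eq_zero fun s _ => by have := h0 s; omega
    have h6 := hp.sum
    rw [h5] at h6
    have h7 : lam π 1 * (c + d - lam π 1) ≤
        ∑ i ∈ Finset.Icc 1 (n π), lam π i * (c + d - lam π i) :=
      Finset.single_le_sum (f := fun i => lam π i * (c + d - lam π i))
        (fun i _ => Nat.zero_le _) (Finset.mem_Icc.2 ⟨le_refl 1, by omega⟩)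
    have h8 := hp.pos 1 le_rfl (by omega)
    have h9 := hp.up 1 le_rfl
    have h10 : 0 < lam π 1 * (c + d - lam π 1) := Nat.mul_pos (by omega) (by omega)
    omega
  obtain ⟨τ, hτ⟩ : ∃ τ : RR → ℕ, τ = fun π =>
    ∑ i ∈ Finset.Icc 1 (n π), (lam π i).choose 2 + jj π * c.choose 2 := ⟨_, rfl⟩
  have hloc : ∀ π ∈ T', multiplicity π Δ1 ≤
      multiplicity π Δ2 + τ π + w * multiplicity π (X 0 : RR) := by
    intro π hπ
    have hpr := hT'.1 π hπ
    by_cases hdvd : π ∣ X 0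
    · have h1 := ho.dt1 π hpr (hhomall π hπ) hdvd e b (fun r => ⟨hbx r, hbE r⟩) hΔ2
      rw [← hΔ1'd, ← hΔ2d] at h1
      obtain ⟨h2, h3⟩ := h1
      have h4 := chart_change hc2 hd2 e b h.Fx h.Gx hbx h.FE h.GE hbE hw
      rw [← hΔ1d, ← hΔ1'd] at h4
      have h5 : multiplicity π (X 1 ^ w * Δ1) = multiplicity π (X 0 ^ w * Δ1') :=
        multiplicity_eq_of_associated_right h4
      have h6 : ¬ π ∣ X 1 := by
        intro h7
        have h8 : Associated π (X 0 : RR) := hpr.associated_of_dvd hX0p hdvd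
        have h9 : (X 0 : RR) ∣ X 1 := h8.symm.dvd.trans h7
        rw [X_dvd_X] at h9
        rcases h9 with h9
        exact absurd h9 (by decide)
      rw [mult_mul hpr (pow_ne_zero _ hX1) hΔ1, mult_mul hpr (pow_ne_zero _ hX0) h2,
        (mult_zero_iff hpr (pow_ne_zero _ hX1)).2 (fun h7 => h6 (hpr.dvd_of_dvd_pow h7)),
        (FiniteMultiplicity.of_prime_left hpr hX0).multiplicity_pow hpr, zero_add] at h5
      rw [h5, hτ]
      have h10 : multiplicity π Δ1' ≤ multiplicity π Δ2 +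
        (∑ i ∈ Finset.Icc 1 (n π), (lam π i).choose 2 + jj π * c.choose 2) := by
        rw [← add_assoc]
        exact h3
      show w * multiplicity π (X 0 : RR) + multiplicity π Δ1' ≤ multiplicity π Δ2 +
        (∑ i ∈ Finset.Icc 1 (n π), (lam π i).choose 2 + jj π * c.choose 2) +
          w * multiplicity π (X 0 : RR)
      omega
    · have h1 := ho.dt0 π hpr (hhomall π hπ) hdvd e b (fun r => ⟨hbx r, hbE r⟩) hΔ2
      rw [← hΔ1d, ← hΔ2d] at h1
      obtain ⟨-, h3⟩ := h1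
      rw [hτ]
      have h10 : multiplicity π Δ1 ≤ multiplicity π Δ2 +
        (∑ i ∈ Finset.Icc 1 (n π), (lam π i).choose 2 + jj π * c.choose 2) := by
        rw [← add_assoc]
        exact h3
      exact h10.trans (Nat.le_add_right _ _)
  have S1 := sum_deg hT' dl' hdl' hΔ1 hom1 (fun q hq hqd => hcov' q hq
    (hqd.trans ((Dvd.intro _ rfl : Δ1 ∣ Δ1 * Δ2).trans (Dvd.intro _ rfl))))
  have S2 := sum_deg hT' dl' hdl' hΔ2' hom2 (fun q hq hqd => hcov' q hq
    (hqd.trans ((Dvd.intro_left _ rfl : Δ2 ∣ Δ1 * Δ2).trans (Dvd.intro _ rfl))))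
  have S3 := sum_deg hT' dl' hdl' hX0 (isHomogeneous_X _ 0) (fun q hq hqd => hcov' q hq
    (hqd.trans (Dvd.intro_left _ rfl)))
  have S4 : ∑ π ∈ T', dl' π * multiplicity π Δ1 ≤ ∑ π ∈ T', dl' π * multiplicity π Δ2 +
      ∑ π ∈ T', dl' π * τ π + w * ∑ π ∈ T', dl' π * multiplicity π (X 0 : RR) := by
    rw [Finset.mul_sum, ← Finset.sum_add_distrib, ← Finset.sum_add_distrib]
    refine Finset.sum_le_sum fun π hπ => ?_
    have h1 := Nat.mul_le_mul_left (dl' π) (hloc π hπ)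
    refine h1.trans (le_of_eq ?_)
    ring
  have S5 : ∑ π ∈ T', dl' π * τ π = ∑ π ∈ T, dl π * τ π := by
    rw [← Finset.sum_subset hTT (f := fun π => dl' π * τ π)]
    · exact Finset.sum_congr rfl fun π hπ => by rw [hdlT π hπ]
    · intro π hπ hπT
      obtain ⟨h1, h2⟩ := hvan π hπ hπT
      have h3 : τ π = 0 := by
        rw [hτ]
        show ∑ i ∈ Finset.Icc 1 (n π), (lam π i).choose 2 + jj π * c.choose 2 = 0
        rw [h1, h2]
        simp
      rw [h3, mul_zero]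
  rw [S1, S2, S3, S5, mul_one] at S4
  have e1 : nn (d - 2) = d.choose 2 := by
    unfold nn
    congr 1
    omega
  have e2 : nn (c - 2) = c.choose 2 := by
    unfold nn
    congr 1
    omega
  rw [e1, e2] at S4
  have S6 : ∑ π ∈ T, dl π * τ π = ∑ π ∈ T, dl π * (∑ i ∈ Finset.Icc 1 (n π), (lam π i).choose 2 +
      jj π * c.choose 2) := by
    rw [hτ]
  rw [S6] at S4
  omega

end GP80
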