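import Mathlib
import Pool.Agent.H80.GP.GDefs
import Pool.Agent.H80.GP.Ga1
import Pool.Agent.H80.GP.Ga2
import Pool.Agent.H80.GP.Ga3
import Pool.Agent.H80.GP.Cda
import Pool.Agent.H80.GP.Cnx
import Pool.Agent.H80.GP.Kgn
import Pool.Agent.H80.GP.Jac

/-!
# Row Trc (MP_87ed0a_GP): the trace identity 2.2  (about 220 lines)

`K = FractionRing RR`, chart `0`, `s = succAbove 0` (so `s j = j + 1`), `v_z = vz K 0 z`, `F0 = chartH K 0 F`, `G0`; `der` from `exists_der K (nonZeroDivisors RR) 0`.
`der_i (v_z j) = - δ_ij` (as in Row Geo: multiply by `P_0`, `der_i P_0 = 0`).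
1. `DD der F0` is homogeneous of degree `c + 1` and vanishes at the `v_z`: `ev_DD` with `eval v F0 = 0`.  So by `gen_K` it is in the ideal; take the component of degree `c + 1`:
   `DD der F0 = M11 F0 + M12 G0` with `M11` homogeneous of degree `1` (write the element of the ideal as `A F0 + B G0`, take components: `M11` = component of degree 1 of `A`, `M12` = component of degree `c + 1 - d` of `B`,
   or `0` if `c + 1 < d`).  Similarly `DD der G0 = M21 F0 + M22 G0`, `M22` homogeneous of degree 1.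
2. `J_K := algebraMap (J s * X 0 * C κ)`, `κ = z_0^3 / z_0^(c+d)`, is the Jacobian at `v = v_(z s)` (`j3_of_jac`), so `connection` with `p = 1`:
   `∑ v_i der_i J_K = (M11(v) + M22(v)) J_K - (c + d - 1) J_K`.
3. For `r ∈ RR` homogeneous of degree `m`: `∑_j v_j der_j (algebraMap r) = algebraMap ((P_0/z_0) dz z r - m r)`, i.e. `∑_j (z_(s j)/z_0 - P_(s j)/P_0) P_0 ∂_(s j) r = (P_0/z_0)(dz z r - z_0 ∂_0 r) - (m r - P_0 ∂_0 r)` (Euler).
   With `r = J s * P_0` (homogeneous of degree `f + f'`): `dz z (J s P_0) = P_0 dz z (J s) + z_0 J s`.  Dividing 2. by `J_K ≠ 0`: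
   `(P_0/z_0) (dz z (J s)/J s) + 1 - (f + f') = M11(v) + M22(v) - (c + d - 1)`.
4. `dz z (J s)/J s = ∑_π mm π s * dz z π / π` (from the product; `dz z` kills the constant `u s`), and `= U(z) := ∑_π m π * dz z π / π` because for `dz z π ≠ 0` the multiplicities agree.  So with `z = z s`
   `P_0 U(z) - (f + f' - c - d) z_0 = z_0 (M11(v_z) + M22(v_z))` in `K`.  (*)
5. Both sides of (*) are `K`-linear in `z ∈ K^4`: `dz z π = ∑ z_l ∂_l π`; `z_0 v_z = (z_(s j) - z_0 P_(s j)/P_0)_j`, and a linear form `M = M11 + M22` satisfies `z_0 M(v) = M(z_0 v)` (it is `∑ m_j X_j`).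
   They agree on the `z s`, which span `ℂ^4` hence `K^4`; so they agree for `z = P`: left side `P_0 ∑_π m π * dl π - (f + f' - c - d) P_0` (Euler: `∑ P_l ∂_l π = dl π * π`), right side `M(0) = 0`.
   So `∑ dl π * m π = f + f' - c - d` in `K`, of characteristic zero: as naturals `∑ dl π * m π + c + d = f + f'`.
-/

namespace GP80

open MvPolynomial

theorem Trc_comp {K : Type} [CommRing K] (A P : MvPolynomial (Fin 3) K) (c m : ℕ)
    (hP : P.IsHomogeneous c) :
    ∃ A' : MvPolynomial (Fin 3) K, (∀ n, n + c = m → A'.IsHomogeneous n) ∧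
      homogeneousComponent m (A * P) = A' * P := by
  classical
  refine ⟨∑ i ∈ Finset.range (A.totalDegree + 1),
    (if i + c = m then homogeneousComponent i A else 0), fun n hn => ?_, ?_⟩
  · refine IsHomogeneous.sum _ _ _ fun i _ => ?_
    split_ifs with h
    · have h1 : i = n := by omega
      subst h1
      exact homogeneousComponent_isHomogeneous i A
    · exact isHomogeneous_zero _ _ _
  · conv_lhs => rw [← sum_homogeneousComponent A]
    rw [Finset.sum_mul, map_sum, Finset.sum_mul]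
    refine Finset.sum_congr rfl fun i _ => ?_
    have h1 : (homogeneousComponent i A * P).IsHomogeneous (i + c) :=
      (homogeneousComponent_isHomogeneous i A).mul hP
    rw [homogeneousComponent_of_mem h1]
    by_cases h : i + c = m
    · rw [if_pos h.symm, if_pos h]
    · rw [if_neg (Ne.symm h), if_neg h, zero_mul]

theorem Trc_lin {K : Type} [CommRing K] {M : MvPolynomial (Fin 3) K} (hM : M.IsHomogeneous 1) :
    ∃ μ : Fin 3 → K, ∀ v : Fin 3 → K, eval v M = ∑ j, v j * μ j := by
  refine ⟨fun j => coeff 0 (pderiv j M), fun v => ?_⟩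
  have h1 := euler3 hM v
  rw [Nat.cast_one, one_mul] at h1
  rw [← h1]
  refine Finset.sum_congr rfl fun j _ => ?_
  have h2 : pderiv j M = C (coeff 0 (pderiv j M)) := by
    rw [← totalDegree_eq_zero_iff_eq_C]
    exact (totalDegree_zero_iff_isHomogeneous _).2 hM.pderiv
  have h3 : eval v (pderiv j M) = coeff 0 (pderiv j M) := by
    conv_lhs => rw [h2, eval_C]
  rw [h3]

theorem Trc_dz (z : Fin 4 → ℂ) (r : RR) : dz z r = ∑ l, C (z l) * pderiv l r := by
  induction r using MvPolynomial.induction_on with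
  | C a =>
    have h1 : dz z (C a) = 0 := (dz z).map_algebraMap a
    rw [h1]
    simp
  | add p q hp hq =>
    rw [map_add, hp, hq, ← Finset.sum_add_distrib]
    refine Finset.sum_congr rfl fun l _ => ?_
    rw [map_add, mul_add]
  | mul_X p j hp =>
    rw [Derivation.leibniz, hp, smul_eq_mul, smul_eq_mul, dz, mkDerivation_X]
    have h1 : ∀ l, C (z l) * pderiv l (p * X j) =
        X j * (C (z l) * pderiv l p) + (if l = j then p * C (z l) else 0) := by
      intro l
      rw [pderiv_mul]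
      split_ifs with h
      · subst h
        rw [pderiv_X_self]
        ring
      · rw [pderiv_X_of_ne (Ne.symm h)]
        ring
    rw [Finset.sum_congr rfl fun l _ => h1 l, Finset.sum_add_distrib, ← Finset.mul_sum,
      Finset.sum_ite_eq' Finset.univ j, if_pos (Finset.mem_univ _)]
    ring

theorem Trc_p0 {K : Type} [Field K] [Algebra RR K] (hinj : Function.Injective (algebraMap RR K)) :
    algebraMap RR K (X 0) ≠ 0 := by
  intro h
  rw [_root_.map_eq_zero_iff _ hinj] at h
  exact X_ne_zero 0 h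

theorem Trc_hv {K : Type} [Field K] [Algebra RR K] (hinj : Function.Injective (algebraMap RR K))
    {der : Fin 3 → Derivation ℤ K K} (hder : IsDer K 0 der) (z : Fin 4 → ℂ) (i j : Fin 3) :
    der i (vz K 0 z j) = if i = j then -1 else 0 := by
  have hp0 := Trc_p0 hinj
  unfold vz
  rw [map_sub, hder i (C _), Ring.inverse_eq_inv, pderiv_C, mul_zero, map_zero, zero_sub]
  have h0 : der i (algebraMap RR K (X 0)) = 0 := by
    rw [hder i (X 0), pderiv_X_of_ne (Fin.succAbove_ne 0 i).symm, mul_zero, map_zero]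
  have h1 : der i (algebraMap RR K (X ((0 : Fin 4).succAbove j))) =
      if i = j then algebraMap RR K (X 0) else 0 := by
    rw [hder i (X _)]
    split_ifs with h
    · subst h
      rw [pderiv_X_self, mul_one]
    · rw [pderiv_X_of_ne (fun h2 => h (Fin.succAbove_right_injective h2).symm), mul_zero, map_zero]
  have h2 : der i (algebraMap RR K (X ((0 : Fin 4).succAbove j)) * (algebraMap RR K (X 0))⁻¹ *
      algebraMap RR K (X 0)) = der i (algebraMap RR K (X ((0 : Fin 4).succAbove j))) := by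
    rw [inv_mul_cancel_right₀ hp0]
  rw [Derivation.leibniz, h0, smul_zero, zero_add, smul_eq_mul, h1] at h2
  split_ifs at h2 ⊢ with h
  · have h3 : der i (algebraMap RR K (X ((0 : Fin 4).succAbove j)) *
        (algebraMap RR K (X 0))⁻¹) = 1 := by
      refine mul_left_cancel₀ hp0 ?_
      rw [h2, mul_one]
    rw [h3]
  · rcases mul_eq_zero.1 h2 with h3 | h3
    · exact absurd h3 hp0
    · rw [h3, neg_zero]

theorem Trc_iota {K : Type} [Field K] [Algebra RR K] {a : ℂ} (ha : a ≠ 0) :
    algebraMap RR K (C a⁻¹) * algebraMap RR K (C a) = 1 := by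
  rw [← map_mul, ← C_mul, inv_mul_cancel₀ ha, C_1, map_one]

theorem Trc_vz {K : Type} [Field K] [Algebra RR K] (z : Fin 4 → ℂ) (j : Fin 3) :
    vz K 0 z j = algebraMap RR K (C (z j.succ)) * algebraMap RR K (C (z 0)⁻¹) -
      algebraMap RR K (X j.succ) * (algebraMap RR K (X 0))⁻¹ := by
  unfold vz
  rw [Ring.inverse_eq_inv, Fin.zero_succAbove, div_eq_mul_inv, C_mul, map_mul]

theorem Trc_vd {K : Type} [Field K] [Algebra RR K] (hinj : Function.Injective (algebraMap RR K))
    {der : Fin 3 → Derivation ℤ K K} (hder : IsDer K 0 der) {z : Fin 4 → ℂ} (hz : z 0 ≠ 0)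
    {r : RR} {m : ℕ} (hr : r.IsHomogeneous m) :
    ∑ j, vz K 0 z j * der j (algebraMap RR K r) =
      algebraMap RR K (C (z 0)⁻¹) * algebraMap RR K (X 0) * algebraMap RR K (dz z r) -
        (m : K) * algebraMap RR K r := by
  have hp0 := Trc_p0 hinj
  have hE := congrArg (algebraMap RR K) hr.sum_X_mul_pderiv
  rw [map_sum, Fin.sum_univ_succ, nsmul_eq_mul] at hE
  have hD := congrArg (algebraMap RR K) (Trc_dz z r)
  rw [map_sum, Fin.sum_univ_succ] at hD
  simp only [map_mul, map_natCast] at hE hD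
  have hi := Trc_iota (K := K) hz
  have h1 : ∀ j : Fin 3, vz K 0 z j * der j (algebraMap RR K r) =
      algebraMap RR K (C (z 0)⁻¹) * algebraMap RR K (X 0) *
        (algebraMap RR K (C (z j.succ)) * algebraMap RR K (pderiv j.succ r)) -
      algebraMap RR K (X j.succ) * algebraMap RR K (pderiv j.succ r) := by
    intro j
    rw [Trc_vz, hder j r, Fin.zero_succAbove, map_mul]
    field_simp
  rw [Finset.sum_congr rfl fun j _ => h1 j, Finset.sum_sub_distrib, ← Finset.mul_sum, hD]
  linear_combination (-algebraMap RR K (X 0) * algebraMap RR K (pderiv 0 r)) * hi - hE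

theorem Trc_log {K : Type} [Field K] [Algebra RR K] (hinj : Function.Injective (algebraMap RR K))
    (D : Derivation ℂ RR RR) (T : Finset RR) (hT0 : ∀ π ∈ T, π ≠ 0) (k : RR → ℕ) :
    algebraMap RR K (D (∏ π ∈ T, π ^ k π)) = algebraMap RR K (∏ π ∈ T, π ^ k π) *
      ∑ π ∈ T, (k π : K) * (algebraMap RR K (D π) / algebraMap RR K π) := by
  classical
  induction T using Finset.induction_on with
  | empty => simp
  | insert a T ha ih =>
    have ha0 : algebraMap RR K a ≠ 0 := by
      intro h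
      rw [_root_.map_eq_zero_iff _ hinj] at h
      exact hT0 a (Finset.mem_insert_self a T) h
    have h1 : algebraMap RR K (D (a ^ k a)) =
        algebraMap RR K (a ^ k a) * ((k a : K) * (algebraMap RR K (D a) / algebraMap RR K a)) := by
      rw [Derivation.leibniz_pow, nsmul_eq_mul, smul_eq_mul, map_mul, map_natCast, map_mul, map_pow,
        map_pow]
      rcases Nat.eq_zero_or_pos (k a) with h2 | h2
      · rw [h2]
        simp
      · obtain ⟨n, hn⟩ : ∃ n, k a = n + 1 := ⟨k a - 1, by omega⟩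
        rw [hn, Nat.add_sub_cancel, pow_succ]
        field_simp
    rw [Finset.prod_insert ha, Finset.sum_insert ha, Derivation.leibniz, smul_eq_mul, smul_eq_mul,
      map_add, map_mul, map_mul, map_mul, ih (fun π hπ => hT0 π (Finset.mem_insert_of_mem hπ)), h1]
    ring

/-- algebra of step 2 and 3 -/
theorem Trc_alg {K : Type} [Field K] {p ζ ι κ J dJ MV S N : K} (hp : p ≠ 0) (hκ : κ ≠ 0)
    (hι : ι * ζ = 1) (hJ : J ≠ 0) {U : K} (hU : dJ = J * U)
    (h : ι * p * (κ * (p * dJ + J * ζ)) - S * (J * p * κ) =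
      MV * (J * p * κ) - 1 * (N - 1) * (J * p * κ)) :
    p * U = ζ * (MV + (S - N)) := by
  subst hU
  have h1 : (ι * p * U + ι * ζ - S) * (J * p * κ) = (MV - (N - 1)) * (J * p * κ) := by
    linear_combination h
  have h2 := mul_right_cancel₀ (mul_ne_zero (mul_ne_zero hJ hp) hκ) h1
  rw [hι] at h2
  have h3 : ζ * (ι * p * U) = ζ * (MV + (S - N)) := by
    rw [show ι * p * U = MV + (S - N) by linear_combination h2]
  have h4 : ζ * (ι * p * U) = p * U := by
    linear_combination (p * U) * hι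
  rw [← h4, h3]

theorem Trc_pos {F G : BB} {f f' : ℕ} (hF : IsWeightedHomogeneous wP F f)
    (hG : IsWeightedHomogeneous wP G f') {z : Fin 4 → ℂ} (hz : ∀ l, z l ≠ 0) {J : RR}
    (hJ : IsJac 0 F G z J) (hJ0 : J ≠ 0) (hJh : J.IsHomogeneous (f + f' - 1)) : 1 ≤ f + f' := by
  by_contra hcon
  have hff : f + f' = 0 := by omega
  have h0 := congrFun hJ 0
  rw [cross_apply] at h0
  have h1 : (J * (X 0 * C (z ((0 : Fin 4).succAbove 0)) -
      C (z 0) * X ((0 : Fin 4).succAbove 0))).IsHomogeneous (f + f') := by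
    have h2 : J * (X 0 * C (z ((0 : Fin 4).succAbove 0)) - C (z 0) * X ((0 : Fin 4).succAbove 0)) =
        atz z (pderiv (Sum.inr ((0 : Fin 4).succAbove 1)) F) *
          atz z (pderiv (Sum.inr ((0 : Fin 4).succAbove 2)) G) -
        atz z (pderiv (Sum.inr ((0 : Fin 4).succAbove 2)) F) *
          atz z (pderiv (Sum.inr ((0 : Fin 4).succAbove 1)) G) := by
      rw [← h0]
      rfl
    rw [h2]
    exact ((atz_wP (pderiv_wP hF _) z).mul (atz_wP (pderiv_wP hG _) z)).sub
      ((atz_wP (pderiv_wP hF _) z).mul (atz_wP (pderiv_wP hG _) z))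
  have hq : (X 0 * C (z ((0 : Fin 4).succAbove 0)) -
      C (z 0) * X ((0 : Fin 4).succAbove 0) : RR).IsHomogeneous 1 := by
    have e1 : (X 0 * C (z ((0 : Fin 4).succAbove 0)) : RR).IsHomogeneous (1 + 0) :=
      (isHomogeneous_X ℂ _).mul (isHomogeneous_C _ _)
    have e2 : (C (z 0) * X ((0 : Fin 4).succAbove 0) : RR).IsHomogeneous (0 + 1) :=
      (isHomogeneous_C _ _).mul (isHomogeneous_X ℂ _)
    exact e1.sub e2
  have hq0 : (X 0 * C (z ((0 : Fin 4).succAbove 0)) -
      C (z 0) * X ((0 : Fin 4).succAbove 0) : RR) ≠ 0 := by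
    intro hq1
    have h3 := congrArg (eval (fun l : Fin 4 => if l = 0 then (1 : ℂ) else 0)) hq1
    rw [map_sub, map_mul, map_mul, eval_X, eval_C, eval_C, eval_X, map_zero,
      if_pos rfl, if_neg (Fin.succAbove_ne 0 0), mul_zero, sub_zero, one_mul] at h3
    exact hz _ h3
  have h4 : (J * (X 0 * C (z ((0 : Fin 4).succAbove 0)) -
      C (z 0) * X ((0 : Fin 4).succAbove 0))).IsHomogeneous (f + f' - 1 + 1) := hJh.mul hq
  have h5 := h1.inj_right h4 (mul_ne_zero hJ0 hq0)
  omega

/-- step 5: linearity -/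
theorem Trc_linear {I K : Type} [Field K] [Algebra RR K] (z : I → Fin 4 → ℂ)
    (hspan : Submodule.span ℂ (Set.range z) = ⊤) (Φ : (Fin 4 → K) →ₗ[K] K)
    (h0 : ∀ s, Φ (fun l => algebraMap RR K (C (z s l))) = 0) (y : Fin 4 → K) : Φ y = 0 := by
  have key : ∀ x : Fin 4 → ℂ, Φ (fun l => algebraMap RR K (C (x l))) = 0 := by
    intro x
    have hx : x ∈ Submodule.span ℂ (Set.range z) := by
      rw [hspan]
      exact Submodule.mem_top
    induction hx using Submodule.span_induction with
    | mem x hx =>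
      obtain ⟨s, rfl⟩ := hx
      exact h0 s
    | zero =>
      have h1 : (fun l : Fin 4 => algebraMap RR K (C ((0 : Fin 4 → ℂ) l))) = 0 := by
        funext l
        rw [Pi.zero_apply, Pi.zero_apply, C_0, map_zero]
      rw [h1, map_zero]
    | add x y _ _ hx hy =>
      have h1 : (fun l : Fin 4 => algebraMap RR K (C ((x + y) l))) =
          (fun l => algebraMap RR K (C (x l))) + fun l => algebraMap RR K (C (y l)) := by
        funext l
        rw [Pi.add_apply, Pi.add_apply, C_add, map_add]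
      rw [h1, map_add, hx, hy, add_zero]
    | smul a x _ hx =>
      have h1 : (fun l : Fin 4 => algebraMap RR K (C ((a • x) l))) =
          algebraMap RR K (C a) • fun l => algebraMap RR K (C (x l)) := by
        funext l
        rw [Pi.smul_apply, Pi.smul_apply, smul_eq_mul, smul_eq_mul, C_mul, map_mul]
      rw [h1, map_smul, hx, smul_zero]
  rw [LinearMap.pi_apply_eq_sum_univ Φ y]
  refine Finset.sum_eq_zero fun i _ => ?_
  have h1 : (fun j : Fin 4 => if i = j then (1 : K) else 0) =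
      fun l => algebraMap RR K (C ((fun j : Fin 4 => if i = j then (1 : ℂ) else 0) l)) := by
    funext l
    beta_reduce
    split_ifs
    · rw [C_1, map_one]
    · rw [C_0, map_zero]
  rw [h1, key, smul_zero]

/-- the linear functional of step 5 -/
noncomputable def Trc_phi {K : Type} [Field K] [Algebra RR K] (T : Finset RR) (m : RR → ℕ)
    (Q : K) (μ : Fin 3 → K) : (Fin 4 → K) →ₗ[K] K where
  toFun y := algebraMap RR K (X 0) * (∑ π ∈ T, (m π : K) *
      ((∑ l, y l * algebraMap RR K (pderiv l π)) / algebraMap RR K π)) - Q * y 0 -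
    ∑ j : Fin 3, (y j.succ - y 0 * (algebraMap RR K (X j.succ) * (algebraMap RR K (X 0))⁻¹)) * μ j
  map_add' x y := by
    have h1 : (∑ π ∈ T, (m π : K) *
        ((∑ l, (x + y) l * algebraMap RR K (pderiv l π)) / algebraMap RR K π)) =
        (∑ π ∈ T, (m π : K) *
        ((∑ l, x l * algebraMap RR K (pderiv l π)) / algebraMap RR K π)) +
        ∑ π ∈ T, (m π : K) *
        ((∑ l, y l * algebraMap RR K (pderiv l π)) / algebraMap RR K π) := by
      rw [← Finset.sum_add_distrib]
      refine Finset.sum_congr rfl fun π _ => ?_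
      rw [← mul_add, ← add_div, ← Finset.sum_add_distrib]
      simp only [Pi.add_apply, add_mul]
    have h2 : (∑ j : Fin 3, ((x + y) j.succ - (x + y) 0 *
        (algebraMap RR K (X j.succ) * (algebraMap RR K (X 0))⁻¹)) * μ j) =
        (∑ j : Fin 3, (x j.succ - x 0 *
        (algebraMap RR K (X j.succ) * (algebraMap RR K (X 0))⁻¹)) * μ j) +
        ∑ j : Fin 3, (y j.succ - y 0 *
        (algebraMap RR K (X j.succ) * (algebraMap RR K (X 0))⁻¹)) * μ j := by
      rw [← Finset.sum_add_distrib]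
      refine Finset.sum_congr rfl fun j _ => ?_
      rw [Pi.add_apply, Pi.add_apply]
      ring
    rw [h1, h2, Pi.add_apply]
    ring
  map_smul' a x := by
    have h1 : (∑ π ∈ T, (m π : K) *
        ((∑ l, (a • x) l * algebraMap RR K (pderiv l π)) / algebraMap RR K π)) =
        a * ∑ π ∈ T, (m π : K) *
        ((∑ l, x l * algebraMap RR K (pderiv l π)) / algebraMap RR K π) := by
      rw [Finset.mul_sum]
      refine Finset.sum_congr rfl fun π _ => ?_
      simp only [Pi.smul_apply, smul_eq_mul, mul_assoc]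
      rw [← Finset.mul_sum, mul_div_assoc]
      ring
    have h2 : (∑ j : Fin 3, ((a • x) j.succ - (a • x) 0 *
        (algebraMap RR K (X j.succ) * (algebraMap RR K (X 0))⁻¹)) * μ j) =
        a * ∑ j : Fin 3, (x j.succ - x 0 *
        (algebraMap RR K (X j.succ) * (algebraMap RR K (X 0))⁻¹)) * μ j := by
      rw [Finset.mul_sum]
      refine Finset.sum_congr rfl fun j _ => ?_
      rw [Pi.smul_apply, Pi.smul_apply, smul_eq_mul, smul_eq_mul]
      ring
    rw [h1, h2, Pi.smul_apply, smul_eq_mul, smul_eq_mul, RingHom.id_apply]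
    ring

theorem Trc_phi_apply {K : Type} [Field K] [Algebra RR K] (T : Finset RR) (m : RR → ℕ)
    (Q : K) (μ : Fin 3 → K) (y : Fin 4 → K) :
    Trc_phi T m Q μ y = algebraMap RR K (X 0) * (∑ π ∈ T, (m π : K) *
      ((∑ l, y l * algebraMap RR K (pderiv l π)) / algebraMap RR K π)) - Q * y 0 -
    ∑ j : Fin 3, (y j.succ - y 0 * (algebraMap RR K (X j.succ) * (algebraMap RR K (X 0))⁻¹)) * μ j :=
  rfl

/-- step 1 -/
theorem Trc_DD {K I : Type} [Field K] [Algebra RR K] {der : Fin 3 → Derivation ℤ K K}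
    (v : I → Fin 3 → K) (hv : ∀ s i j, der i (v s j) = if i = j then -1 else 0)
    {F G H : MvPolynomial (Fin 3) K} {c d e : ℕ} (hF : F.IsHomogeneous c) (hG : G.IsHomogeneous d)
    (hH : H.IsHomogeneous e) (vH : ∀ s, eval (v s) H = 0)
    (hgen : ∀ t (g : MvPolynomial (Fin 3) K), g.IsHomogeneous t → (∀ s, eval (v s) g = 0) →
      g ∈ Ideal.span {F, G}) :
    ∃ M N : MvPolynomial (Fin 3) K, C 1 * DD der H = M * F + N * G ∧
      (c = e → M.IsHomogeneous 1) ∧ (d = e → N.IsHomogeneous 1) := by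
  have h1 : ∀ s, eval (v s) (DD der H) = 0 := by
    intro s
    have h2 := ev_DD der (v s) (hv s) hH
    rw [vH s, mul_zero, sub_zero] at h2
    rw [← h2]
    refine Finset.sum_eq_zero fun i _ => ?_
    rw [map_zero, mul_zero]
  have hDh := DD_homog der hH
  obtain ⟨A, B, hAB⟩ := Ideal.mem_span_pair.1 (hgen (e + 1) (DD der H) hDh h1)
  obtain ⟨A', hA1, hA2⟩ := Trc_comp A F c (e + 1) hF
  obtain ⟨B', hB1, hB2⟩ := Trc_comp B G d (e + 1) hG
  refine ⟨A', B', ?_, fun h => hA1 1 (by omega), fun h => hB1 1 (by omega)⟩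
  rw [C_1, one_mul, ← hA2, ← hB2, ← map_add, hAB, homogeneousComponent_of_mem hDh, if_pos rfl]

theorem Trc_core {I : Type} [Fintype I] (K : Type) [Field K] [Algebra RR K]
    (hinj : Function.Injective (algebraMap RR K)) (der : Fin 3 → Derivation ℤ K K)
    (hder : IsDer K 0 der) (z : I → Fin 4 → ℂ) (hz : Geom z)
    {c d f f' : ℕ} {F G : BB} (h : Glob z c d f f' F G)
    (hgen : ∀ t (g : MvPolynomial (Fin 3) K), g.IsHomogeneous t →
      (∀ s, eval (vz K 0 (z s)) g = 0) → g ∈ Ideal.span {chartH K 0 F, chartH K 0 G})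
    (J : I → RR)
    (hJ : ∀ s, IsJac 0 F G (z s) (J s)) (hJ0 : ∀ s, J s ≠ 0)
    (hJh : ∀ s, (J s).IsHomogeneous (f + f' - 1)) (T : Finset RR) (dl : RR → ℕ)
    (hdl : ∀ π ∈ T, π.IsHomogeneous (dl π)) (hT0 : ∀ π ∈ T, π ≠ 0) (u : I → ℂ)
    (m : RR → ℕ) (mm : RR → I → ℕ) (hprod : ∀ s, J s = C (u s) * ∏ π ∈ T, π ^ mm π s)
    (hm : ∀ π ∈ T, ∀ s, dz (z s) π ≠ 0 → mm π s = m π) :
    ∑ π ∈ T, dl π * m π + c + d = f + f' := by
  have hp0 := Trc_p0 hinj
  have hu : IsUnit (algebraMap RR K (X 0)) := hp0.isUnit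
  have hv : ∀ s i j, der i (vz K 0 (z s) j) = if i = j then -1 else 0 := fun s =>
    Trc_hv hinj hder (z s)
  have hF := chart_homog K 0 h.Fx
  have hG := chart_homog K 0 h.Gx
  have vF : ∀ s, eval (vz K 0 (z s)) (chartH K 0 F) = 0 := fun s =>
    vz_eval_zero K 0 hu h.Fx h.FE (hz.co s 0) (h.Fz s)
  have vG : ∀ s, eval (vz K 0 (z s)) (chartH K 0 G) = 0 := fun s =>
    vz_eval_zero K 0 hu h.Gx h.GE (hz.co s 0) (h.Gz s)
  obtain ⟨M11, M12, e1, g1, -⟩ := Trc_DD (fun s => vz K 0 (z s)) hv hF hG hF vF hgen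
  obtain ⟨M21, M22, e2, -, g2⟩ := Trc_DD (fun s => vz K 0 (z s)) hv hF hG hG vG hgen
  obtain ⟨μ, hμ⟩ := Trc_lin ((g1 rfl).add (g2 rfl))
  have hne : Nonempty I := by
    rw [← Fintype.card_pos_iff, h.N]
    have h1 := h.c2
    have h2 := h.cd
    exact Nat.mul_pos (by omega) (by omega)
  obtain ⟨s0⟩ := hne
  have hpos : 1 ≤ f + f' := Trc_pos h.FP h.GP (hz.co s0) (hJ s0) (hJ0 s0) (hJh s0)
  have hK : CharZero K := charZero_of_injective_algebraMap hinj
  set Q : K := ((f + f' : ℕ) : K) - ((c : K) + (d : K)) with hQ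
  have hΦ : ∀ s, Trc_phi T m Q μ (fun l => algebraMap RR K (C (z s l))) = 0 := by
    intro s
    have hzs := hz.co s
    have hκ : z s 0 ^ 3 / z s 0 ^ (c + d) ≠ 0 :=
      div_ne_zero (pow_ne_zero _ (hzs 0)) (pow_ne_zero _ (hzs 0))
    have hJ3 := j3_of_jac K 0 hu (by have := h.c2; omega) (by have := h.c2; have := h.cd; omega)
      h.Fx h.Gx h.FE h.GE hzs (hJ s)
    have hcon := connection der (hv s) ⟨0, fun h0 => by
      have h1 := hv s 0 0
      rw [h0, map_zero, if_pos rfl] at h1
      exact one_ne_zero (neg_eq_zero.1 h1.symm)⟩ hF hG (vF s) (vG s) e1 e2 hJ3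
    have hr : (J s * X 0 * C (z s 0 ^ 3 / z s 0 ^ (c + d)) : RR).IsHomogeneous (f + f') := by
      have h1 := ((hJh s).mul (isHomogeneous_X ℂ (0 : Fin 4))).mul
        (isHomogeneous_C (Fin 4) (z s 0 ^ 3 / z s 0 ^ (c + d)))
      have h2 : f + f' - 1 + 1 + 0 = f + f' := by omega
      rwa [h2] at h1
    rw [Trc_vd hinj hder (hzs 0) hr, one_mul] at hcon
    have hdz : dz (z s) (J s * X 0 * C (z s 0 ^ 3 / z s 0 ^ (c + d))) =
        C (z s 0 ^ 3 / z s 0 ^ (c + d)) * (X 0 * dz (z s) (J s) + J s * C (z s 0)) := by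
      have h1 : dz (z s) (C (z s 0 ^ 3 / z s 0 ^ (c + d))) = 0 := (dz (z s)).map_algebraMap _
      have h2 : dz (z s) (X 0) = C (z s 0) := by
        rw [dz, mkDerivation_X]
      rw [Derivation.leibniz, Derivation.leibniz, h1, h2, smul_zero, zero_add, smul_eq_mul,
        smul_eq_mul, smul_eq_mul]
      ring
    have hU : algebraMap RR K (dz (z s) (J s)) = algebraMap RR K (J s) *
        ∑ π ∈ T, (m π : K) * (algebraMap RR K (dz (z s) π) / algebraMap RR K π) := by
      have h1 : dz (z s) (J s) = C (u s) * dz (z s) (∏ π ∈ T, π ^ mm π s) := by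
        rw [hprod s, Derivation.leibniz]
        have h2 : dz (z s) (C (u s)) = 0 := (dz (z s)).map_algebraMap _
        rw [h2, smul_zero, add_zero, smul_eq_mul]
      rw [h1, map_mul, Trc_log hinj (dz (z s)) T hT0 (fun π => mm π s), hprod s, map_mul, mul_assoc]
      refine congrArg _ (congrArg _ (Finset.sum_congr rfl fun π hπ => ?_))
      by_cases h3 : dz (z s) π = 0
      · rw [h3, map_zero, zero_div, mul_zero, mul_zero]
      · rw [hm π hπ s h3]
    have hJK : algebraMap RR K (J s) ≠ 0 := by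
      intro h1
      rw [_root_.map_eq_zero_iff _ hinj] at h1
      exact hJ0 s h1
    have hκK : algebraMap RR K (C (z s 0 ^ 3 / z s 0 ^ (c + d))) ≠ 0 := by
      intro h1
      rw [_root_.map_eq_zero_iff _ hinj, C_eq_zero] at h1
      exact hκ h1
    have hstar := Trc_alg (p := algebraMap RR K (X 0)) (ζ := algebraMap RR K (C (z s 0)))
      (ι := algebraMap RR K (C (z s 0)⁻¹)) (κ := algebraMap RR K (C (z s 0 ^ 3 / z s 0 ^ (c + d))))
      (J := algebraMap RR K (J s)) (dJ := algebraMap RR K (dz (z s) (J s)))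
      (MV := eval (vz K 0 (z s)) M11 + eval (vz K 0 (z s)) M22) (S := ((f + f' : ℕ) : K))
      (N := (c : K) + (d : K)) hp0 hκK (Trc_iota (hzs 0)) hJK hU (by
        rw [hdz] at hcon
        simp only [map_mul, map_add] at hcon
        exact hcon)
    rw [Trc_phi_apply]
    have hU2 : ∀ π ∈ T, (m π : K) * ((∑ l, algebraMap RR K (C (z s l)) *
        algebraMap RR K (pderiv l π)) / algebraMap RR K π) =
        (m π : K) * (algebraMap RR K (dz (z s) π) / algebraMap RR K π) := by
      intro π _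
      rw [Trc_dz, map_sum]
      simp only [map_mul]
    rw [Finset.sum_congr rfl hU2, hstar]
    have hmu : eval (vz K 0 (z s)) M11 + eval (vz K 0 (z s)) M22 =
        ∑ j, vz K 0 (z s) j * μ j := by
      rw [← hμ, map_add]
    have hi := Trc_iota (K := K) (hzs 0)
    have hw : ∀ j : Fin 3, (algebraMap RR K (C (z s j.succ)) - algebraMap RR K (C (z s 0)) *
        (algebraMap RR K (X j.succ) * (algebraMap RR K (X 0))⁻¹)) * μ j =
        algebraMap RR K (C (z s 0)) * (vz K 0 (z s) j * μ j) := by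
      intro j
      rw [Trc_vz]
      linear_combination (-algebraMap RR K (C (z s j.succ)) * μ j) * hi
    rw [hmu, Finset.sum_congr rfl fun j _ => hw j, ← Finset.mul_sum]
    ring
  have hfin := Trc_linear z hz.span (Trc_phi T m Q μ) hΦ (fun l => algebraMap RR K (X l))
  rw [Trc_phi_apply] at hfin
  have hE : ∀ π ∈ T, (m π : K) * ((∑ l, algebraMap RR K (X l) * algebraMap RR K (pderiv l π)) /
      algebraMap RR K π) = (dl π : K) * (m π : K) := by
    intro π hπ
    have hπ0 : algebraMap RR K π ≠ 0 := by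
      intro h1
      rw [_root_.map_eq_zero_iff _ hinj] at h1
      exact hT0 π hπ h1
    have h1 := congrArg (algebraMap RR K) (hdl π hπ).sum_X_mul_pderiv
    rw [map_sum, nsmul_eq_mul] at h1
    simp only [map_mul, map_natCast] at h1
    rw [h1, mul_div_assoc, div_self hπ0, mul_one, mul_comm]
  have hw : ∀ j : Fin 3, (algebraMap RR K (X j.succ) - algebraMap RR K (X 0) *
      (algebraMap RR K (X j.succ) * (algebraMap RR K (X 0))⁻¹)) * μ j = 0 := by
    intro j
    have h1 : algebraMap RR K (X 0) * (algebraMap RR K (X j.succ) * (algebraMap RR K (X 0))⁻¹) =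
        algebraMap RR K (X j.succ) := by
      field_simp
    rw [h1, sub_self, zero_mul]
  rw [Finset.sum_congr rfl hE, Finset.sum_congr rfl fun j _ => hw j, Finset.sum_const_zero,
    sub_zero] at hfin
  have h1 : algebraMap RR K (X 0) * (∑ π ∈ T, (dl π : K) * (m π : K) - Q) = 0 := by
    linear_combination hfin
  have h2 : ∑ π ∈ T, (dl π : K) * (m π : K) - Q = 0 := by
    rcases mul_eq_zero.1 h1 with h3 | h3
    · exact absurd h3 hp0
    · exact h3
  have h3 : ((∑ π ∈ T, dl π * m π + c + d : ℕ) : K) = ((f + f' : ℕ) : K) := by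
    rw [hQ] at h2
    push_cast at h2 ⊢
    linear_combination h2
  exact_mod_cast h3

theorem trace_id {I : Type} [Fintype I] (z : I → Fin 4 → ℂ) (hz : Geom z)
    {c d f f' : ℕ} {F G : BB} (h : Glob z c d f f' F G) (J : I → RR)
    (hJ : ∀ s, IsJac 0 F G (z s) (J s)) (hJ0 : ∀ s, J s ≠ 0)
    (hJh : ∀ s, (J s).IsHomogeneous (f + f' - 1)) (T : Finset RR) (dl : RR → ℕ)
    (hdl : ∀ π ∈ T, π.IsHomogeneous (dl π)) (hT0 : ∀ π ∈ T, π ≠ 0) (u : I → ℂ) (hu : ∀ s, u s ≠ 0)
    (m : RR → ℕ) (mm : RR → I → ℕ) (hprod : ∀ s, J s = C (u s) * ∏ π ∈ T, π ^ mm π s)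
    (hm : ∀ π ∈ T, ∀ s, dz (z s) π ≠ 0 → mm π s = m π) :
    ∑ π ∈ T, dl π * m π + c + d = f + f' := by
  have _ := hu
  obtain ⟨der, hder⟩ := exists_der (FractionRing RR) (nonZeroDivisors RR) 0
  exact Trc_core (FractionRing RR) (IsFractionRing.injective RR (FractionRing RR)) der hder z hz h
    (fun t g hg h0 => gen_K 0 z (fun s => hz.co s 0) h hg h0) J hJ hJ0 hJh T dl hdl hT0 u m mm
    hprod hm

end GP80
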