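import Mathlib
import Pool.Agent.H80.GP.GDefs
import Pool.Agent.H80.GP.PDefs
import Pool.Agent.H80.GP.Jac
import Pool.Agent.H80.GP.All
import Pool.Agent.H80.GP.Fac
import Pool.Agent.H80.GP.Trc
import Pool.Agent.H80.GP.Str
import Pool.Agent.H80.GP.Sl2
import Pool.Agent.H80.GP.Chd

/-!
# Row Gsm (MP_87ed0a_GP): summary of the global theory  (about 170 lines)

`glob_out` gives `J, om, jj, g, n, lam`.  All `J s ≠ 0` (`PrimeOut.ne` for the prime `X 0`).  `T`: `exists_primes ∅` for `∏ s, J s`; its elements divide `∏ J s`, hence (prime) some `J s`, homogeneous of degree `≤ f + f' - 1` (`homog_of_dvd`); `dl π` := that degree (`1 ≤ dl π` by `prime_deg`).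
`PrimeOut` for every `π ∈ T` gives the numerical fields.
* first sum: `sum_deg` for `J s`: `∑ dl π * (om π s + jj π) = f + f' - 1` (`mult`), and `trace_id` with `m π = g π + jj π`, `mm π s = om π s + jj π` (`fac_prod` gives the product formula), so `∑ dl π (g π + jj π) + c + d = f + f'`.  (`f + f' ≥ 1`: `c + d ≤ f + f'`, `c ≥ 2`.)  Subtract: `∑ dl om + 1 = c + d + ∑ dl g`.
* star: `star_ineq` with `w = c * d.choose 2 + d * c.choose 2` (`w + c.choose 3 + d.choose 3 = (c+d).choose 3`, Vandermonde `Nat.add_choose_eq` or induction).  Multiply by 2 (`2 * m.choose 2 = m (m-1)`), in `ℤ`: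
  `f d(d-1) + f' c(c-1) ≤ c d(d-1) + d c(c-1) + ∑ dl ∑ lam(lam-1) + c(c-1) ∑ dl jj`, and `f' = c + d + ∑ dl g + ∑ dl jj - f`: so
  `c(c-1) ∑ dl g + (f - c)(d(d-1) - c(c-1)) ≤ ∑ dl ∑ lam (lam-1)`, `d(d-1) - c(c-1) = (d-c)(c+d-1)`; `f ≥ c` by `f_ge` (`F ≠ 0` since the Jacobian is nonzero).
* chords: `chord_loss` (with `mult`) and `chord`.
-/

namespace GP80

open MvPolynomial

theorem Gsm_choose (m : ℕ) : 2 * m.choose 2 = m * (m - 1) := by
  rw [Nat.choose_two_right, mul_comm]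
  exact Nat.div_two_mul_two_of_even (Nat.even_mul_pred_self m)

theorem Gsm_vand (c d : ℕ) :
    c * d.choose 2 + d * c.choose 2 + c.choose 3 + d.choose 3 = (c + d).choose 3 := by
  rw [Nat.add_choose_eq]
  simp only [Finset.Nat.antidiagonal_succ, Finset.Nat.antidiagonal_zero, Finset.map_singleton,
    Finset.sum_cons, Finset.sum_singleton, Finset.map_cons, Function.Embedding.prodMap,
    Function.Embedding.coeFn_mk, Prod.map, Nat.choose_zero_right, Nat.choose_one_right]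
  simp
  ring

theorem Gsm_num {c d f f' Sg Sjj S2 L C2 D2 : ℕ} (hc : 2 ≤ c) (hcd : c ≤ d) (hf : c ≤ f)
    (h2c : 2 * C2 = c * (c - 1)) (h2d : 2 * D2 = d * (d - 1)) (hL : 2 * S2 = L)
    (hI : f * D2 + f' * C2 ≤ c * D2 + d * C2 + (S2 + Sjj * C2))
    (hE : Sjj + c + d + Sg = f + f') :
    c * (c - 1) * Sg + (d - c) * (c + d - 1) * (f - c) ≤ L := by
  obtain ⟨φ, rfl⟩ := Nat.exists_eq_add_of_le hf
  obtain ⟨e, rfl⟩ := Nat.exists_eq_add_of_le hcd
  obtain ⟨k, rfl⟩ : ∃ k, c = k + 1 := ⟨c - 1, by omega⟩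
  have e1 : k + 1 - 1 = k := by omega
  have e2 : k + 1 + e - (k + 1) = e := by omega
  have e3 : k + 1 + (k + 1 + e) - 1 = 2 * k + 1 + e := by omega
  have e4 : k + 1 + φ - (k + 1) = φ := by omega
  have e5 : k + 1 + e - 1 = k + e := by omega
  rw [e1] at h2c ⊢
  rw [e5] at h2d
  rw [e2, e3, e4]
  have h1 : (Sjj + (k + 1) + (k + 1 + e) + Sg) * C2 = (k + 1 + φ + f') * C2 := by rw [hE]
  have h2 : φ * D2 + Sg * C2 ≤ S2 + φ * C2 := by nlinarith
  have h3 : 2 * D2 = 2 * C2 + e * (2 * k + 1 + e) := by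
    rw [h2c, h2d]
    ring
  have h4 : φ * (2 * D2) + Sg * (2 * C2) ≤ L + φ * (2 * C2) := by
    rw [← hL]
    nlinarith
  rw [h3] at h4
  have h5 : Sg * (2 * C2) = (k + 1) * k * Sg := by rw [h2c]; ring
  nlinarith

theorem glob_sum {I : Type} [Fintype I] [DecidableEq I] [Nonempty I] (z : I → Fin 4 → ℂ)
    (hz : Geom z) {c d f f' : ℕ} {F G : BB} (h : Glob z c d f f' F G) :
    ∃ (T : Finset RR) (dl : RR → ℕ) (om : RR → I → ℕ) (jj g n : RR → ℕ) (lam : RR → ℕ → ℕ),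
      c ≤ f ∧
      (∀ π ∈ T, Prime π ∧ π.IsHomogeneous (dl π) ∧ 1 ≤ dl π ∧ dl π ≤ f + f') ∧
      (∀ π ∈ T, ∀ π' ∈ T, Associated π π' → π = π') ∧
      (∀ π ∈ T, (∀ s, dz (z s) π ≠ 0 → om π s = g π) ∧ g π ≤ n π ∧
        (g π < n π → lam π (g π + 1) * (c + d - lam π (g π + 1)) ≤ Nat.card {s : I // dz (z s) π = 0}) ∧
        (∀ s, om π s ≤ n π) ∧
        (∑ i ∈ Finset.Icc 1 (n π), lam π i * (c + d - lam π i) ≤ ∑ s, om π s) ∧
        (∀ i, 1 ≤ i → i ≤ n π → 1 ≤ lam π i) ∧ (∀ i, 1 ≤ i → lam π i < c) ∧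
        (∀ i j, 1 ≤ i → i ≤ j → lam π j ≤ lam π i)) ∧
      (∀ s, ∑ π ∈ T, dl π * om π s + 1 = c + d + ∑ π ∈ T, dl π * g π) ∧
      (∑ π ∈ T, dl π * jj π + c + d + ∑ π ∈ T, dl π * g π = f + f') ∧
      (c * (c - 1) * ∑ π ∈ T, dl π * g π + (d - c) * (c + d - 1) * (f - c) ≤
        ∑ π ∈ T, dl π * ∑ i ∈ Finset.Icc 1 (n π), lam π i * (lam π i - 1)) ∧
      (∀ s s', s ≠ s' → 2 ≤ ∑ π ∈ T, (om π s + jj π) * ordL (z s) (z s') π) ∧
      (∀ s s', s ≠ s' →
        (c < d → map (IsLocalRing.residue (AL (z s) (z s'))) (chartH (AL (z s) (z s')) 0 F) ≠ 0) →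
        2 ≤ ∑ π ∈ T, om π s * ordL (z s) (z s') π) := by
  classical
  obtain ⟨J, om, jj, g, n, lam, hJ, hJh, ho⟩ := glob_out z hz h
  have hc2 := h.c2
  have hJ0 : ∀ s, J s ≠ 0 := (ho.po (X 0) MvPolynomial.X_prime ⟨1, isHomogeneous_X ℂ 0⟩).ne
  have hP : ∏ s, J s ≠ 0 := Finset.prod_ne_zero_iff.2 fun s _ => hJ0 s
  obtain ⟨T, -, hT, hTd, hTc⟩ := exists_primes ∅
    ⟨fun π hπ => absurd hπ (Finset.notMem_empty π), fun π hπ => absurd hπ (Finset.notMem_empty π)⟩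
    hP
  have hdl0 : ∀ π ∈ T, ∃ δ, δ ≤ f + f' - 1 ∧ π.IsHomogeneous δ := by
    intro π hπ
    obtain ⟨s, -, hs⟩ := (Prime.dvd_finsetProd_iff (hT.1 π hπ) _).1
      (hTd π hπ (Finset.notMem_empty π))
    exact homog_of_dvd (hJh s) (hJ0 s) hs
  choose! dl hdl using hdl0
  have hdl2 : ∀ π ∈ T, π.IsHomogeneous (dl π) := fun π hπ => (hdl π hπ).2
  have hpo := fun π hπ => ho.po π (hT.1 π hπ) ⟨dl π, hdl2 π hπ⟩
  have hcov : ∀ s q, Prime q → q ∣ J s → ∃ π ∈ T, Associated q π := fun s q hq hd =>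
    hTc q hq (hd.trans (Finset.dvd_prod_of_mem J (Finset.mem_univ s)))
  have E1 : ∀ s, ∑ π ∈ T, dl π * om π s + ∑ π ∈ T, dl π * jj π = f + f' - 1 := by
    intro s
    rw [← sum_deg hT dl hdl2 (hJ0 s) (hJh s) (hcov s), ← Finset.sum_add_distrib]
    refine Finset.sum_congr rfl fun π hπ => ?_
    rw [(hpo π hπ).mult s]
    ring
  have E2 : ∑ π ∈ T, dl π * jj π + c + d + ∑ π ∈ T, dl π * g π = f + f' := by
    have h1 := fun s => fac_prod hT (hJ0 s) (hcov s)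
    choose u hu hprod using h1
    have h2 := trace_id z hz h J hJ hJ0 hJh T dl hdl2 (fun π hπ => (hT.1 π hπ).ne_zero) u hu
      (fun π => g π + jj π) (fun π s => om π s + jj π)
      (fun s => by
        rw [hprod s]
        congr 1
        refine Finset.prod_congr rfl fun π hπ => ?_
        rw [(hpo π hπ).mult s])
      (fun π hπ s hs => by
        show om π s + jj π = g π + jj π
        rw [(hpo π hπ).nv s hs])
    have h3 : ∑ π ∈ T, dl π * (g π + jj π) = ∑ π ∈ T, dl π * g π + ∑ π ∈ T, dl π * jj π := by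
      rw [← Finset.sum_add_distrib]
      exact Finset.sum_congr rfl fun π _ => mul_add _ _ _
    rw [h3] at h2
    omega
  have hF0 : F ≠ 0 := by
    intro hF
    obtain ⟨s⟩ := ‹Nonempty I›
    have h1 := Jac_apply (hJ s)
    rw [hF, map_zero, map_zero, map_zero, map_zero, zero_mul, zero_mul, sub_zero] at h1
    rcases mul_eq_zero.1 h1.symm with h2 | h2
    · exact hJ0 s h2
    · exact Jac_q_ne (hz.co s 0) (by decide) h2
  have hf : c ≤ f := f_ge h.Fx h.FP h.FE hF0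
  have hstar := star_ineq z hz h J om jj g n lam ho T hT dl hdl2 hcov (Gsm_vand c d)
  have hstar2 : ∑ π ∈ T, dl π * (∑ i ∈ Finset.Icc 1 (n π), (lam π i).choose 2 +
      jj π * c.choose 2) = ∑ π ∈ T, dl π * ∑ i ∈ Finset.Icc 1 (n π), (lam π i).choose 2 +
      (∑ π ∈ T, dl π * jj π) * c.choose 2 := by
    rw [Finset.sum_mul, ← Finset.sum_add_distrib]
    exact Finset.sum_congr rfl fun π _ => by ring
  rw [hstar2] at hstar
  have hL : 2 * ∑ π ∈ T, dl π * ∑ i ∈ Finset.Icc 1 (n π), (lam π i).choose 2 =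
      ∑ π ∈ T, dl π * ∑ i ∈ Finset.Icc 1 (n π), lam π i * (lam π i - 1) := by
    rw [Finset.mul_sum]
    refine Finset.sum_congr rfl fun π _ => ?_
    rw [mul_left_comm, Finset.mul_sum]
    congr 1
    exact Finset.sum_congr rfl fun i _ => Gsm_choose _
  refine ⟨T, dl, om, jj, g, n, lam, hf, fun π hπ => ?_, hT.2, fun π hπ => ?_, fun s => ?_, E2,
    Gsm_num hc2 h.cd hf (Gsm_choose c) (Gsm_choose d) hL hstar E2, fun s s' hss => ?_,
    fun s s' hss hl => ?_⟩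
  · refine ⟨hT.1 π hπ, hdl2 π hπ, prime_deg (hT.1 π hπ) (hdl2 π hπ), ?_⟩
    have := (hdl π hπ).1
    omega
  · have hq := hpo π hπ
    exact ⟨hq.nv, hq.gn, hq.tail, hq.omn, hq.sum, hq.pos, hq.up, hq.anti⟩
  · have := E1 s
    omega
  · have h1 := chord_loss z hz h J hJ hJ0 T hT hcov hss
    have h2 : ∑ π ∈ T, multiplicity π (J s) * ordL (z s) (z s') π =
        ∑ π ∈ T, (om π s + jj π) * ordL (z s) (z s') π :=
      Finset.sum_congr rfl fun π hπ => by rw [(hpo π hπ).mult s]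
    rw [h2] at h1
    exact h1
  · exact chord z hz h J hJ om jj g n lam ho T hT (fun π hπ => ⟨dl π, hdl2 π hπ⟩) hcov hss hl

end GP80
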