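import Mathlib
import Pool.Agent.H80.GP.GDefs

/-! Conditions on `a b` vectors near a grid (MP_87ed0a_GP, NEAR block). -/

namespace GP80

open MvPolynomial

/-- the sum of the orders of `π` along the chords joining points in different rows and different columns -/
noncomputable def surfSum {a b : ℕ} (x : Fin a → Fin b → Fin 4 → ℂ) (π : RR) : ℕ :=
  ∑ s : Fin a × Fin b, ∑ s' : Fin a × Fin b,
    (if s.1 ≠ s'.1 ∧ s.2 ≠ s'.2 then ordL (x s.1 s.2) (x s'.1 s'.2) π else 0)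

/-- conditions satisfied near a grid (with nonzero coordinates) -/
structure NearOK (a b : ℕ) (x : Fin a → Fin b → Fin 4 → ℂ) (Bd : ℕ) : Prop where
  co : ∀ k m i, x k m i ≠ 0
  ind : ∀ k k' j j', k ≠ k' → j ≠ j' → LinearIndependent ℂ ![x k j, x k j', x k' j, x k' j']
  pl : ∀ h : Fin 4 → ℂ, h ≠ 0 → (∃ l j, ∀ k m, ∑ i, h i * x k m i = 0 → k = l ∨ m = j) ∨
    (∀ k m k' m', ∑ i, h i * x k m i = 0 → ∑ i, h i * x k' m' i = 0 → (k, m) ≠ (k', m') →
      k ≠ k' ∧ m ≠ m')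
  ch : ∀ k m k' m' p q, k ≠ k' → m ≠ m' → (p, q) ≠ (k, m) → (p, q) ≠ (k', m') →
    LinearIndependent ℂ ![x k m, x k' m', x p q]
  sf : ∀ δ, δ ≤ Bd → ∀ π : RR, π.IsHomogeneous δ → π ≠ 0 → surfSum x π ≤ (a - 1) * (a * b) * δ

end GP80
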