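import Mathlib
import Pool.Agent.H3.GP.Defs
import Pool.Agent.H3.GP.OPN

/-!
# Row Nr1 (MP_87ed0a_GP): planes near a grid  (about 180 lines)

`GridVec a b x0` (structure in Pool/Agent/H3/GP/Defs.lean): `ind` four vectors of two rows and two columns are independent, `col`/`row`: vectors of a row (column) are in the span of any two of the row (column).
Exact grid: for `h ≠ 0` let `W = {y | ∑ h_i y_i = 0}`, of dimension 3.  (i) If `W` contains `x0 k j0, x0 k j1`, `j0 ≠ j1`, it contains the whole row `k` (`col`).  Let `(k', m)`, `k' ≠ k`, be in `W`: then (`row`, with `x0 k m ∈ W`) the whole column `m` is in `W`.  If also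
`(k'', m') ∈ W`, `k'' ≠ k`, `m' ≠ m`, then the column `m'` is in `W` too, so `x0 k m, x0 k m', x0 k' m, x0 k' m' ∈ W`: four independent vectors, contradiction.  So everything in `W` is in row `k` or in one column: first alternative.
(ii) Symmetric if `W` contains two points of a column.  (iii) Otherwise second alternative.
Openness: call a set `S` of indices bad if neither alternative holds for `S` (`¬ ∃ l j, ∀ s ∈ S, s.1 = l ∨ s.2 = j` and `¬` pairwise different rows and columns); subsets of non-bad sets are non-bad.  For bad `S` the set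
`C_S = {x | ∃ h, ‖h‖ = 1 ∧ ∀ s ∈ S, ∑ h_i x_s_i = 0}` is closed (projection along the compact sphere: `IsClosed` of the projection of a closed subset of `(compact) × X`, `isClosedMap_snd_of_compactSpace`, or sequences) and does not contain `x0`.
There are finitely many `S`.  For `x` in the intersection of the complements and `h ≠ 0` (normalise `h`) the set of `s` with `∑ h_i x_s_i = 0` is not bad.
-/

open Filter Topology Pool.Agent.H3.GP

namespace GP80

theorem Nr1_four {h : Fin 4 → ℂ} {v : Fin 4 → Fin 4 → ℂ} (hv : LinearIndependent ℂ v)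
    (h0 : ∀ t, ∑ i, h i * v t i = 0) : h = 0 := by
  have h1 : LinearIndependent ℂ (Matrix.of v).row := hv
  rw [Matrix.linearIndependent_rows_iff_isUnit] at h1
  have h2 := Matrix.mulVec_injective_of_isUnit h1
  apply h2
  rw [Matrix.mulVec_zero]
  funext t
  have h3 := h0 t
  simp only [Matrix.mulVec, dotProduct, Matrix.of_apply, Pi.zero_apply]
  rw [← h3]
  exact Finset.sum_congr rfl fun i _ => mul_comm _ _

theorem Nr1_span {h u v w : Fin 4 → ℂ} (hw : w ∈ Submodule.span ℂ {u, v})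
    (hu : ∑ i, h i * u i = 0) (hv : ∑ i, h i * v i = 0) : ∑ i, h i * w i = 0 := by
  obtain ⟨r, t, rfl⟩ := Submodule.mem_span_pair.1 hw
  have h1 : ∑ i, h i * (r • u + t • v) i = r * ∑ i, h i * u i + t * ∑ i, h i * v i := by
    rw [Finset.mul_sum, Finset.mul_sum, ← Finset.sum_add_distrib]
    refine Finset.sum_congr rfl fun i _ => ?_
    simp only [Pi.add_apply, Pi.smul_apply, smul_eq_mul]
    ring
  rw [h1, hu, hv, mul_zero, mul_zero, add_zero]

/-- the two alternatives -/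
def Nr1_ok {a b : ℕ} (S : Fin a → Fin b → Prop) : Prop :=
  (∃ l j, ∀ k m, S k m → k = l ∨ m = j) ∨
    (∀ k m k' m', S k m → S k' m' → (k, m) ≠ (k', m') → k ≠ k' ∧ m ≠ m')

theorem Nr1_mono {a b : ℕ} {S T : Fin a → Fin b → Prop} (h : ∀ k m, S k m → T k m)
    (hT : Nr1_ok T) : Nr1_ok S := by
  rcases hT with ⟨l, j, h1⟩ | h1
  · exact Or.inl ⟨l, j, fun k m hS => h1 k m (h k m hS)⟩
  · exact Or.inr fun k m k' m' h2 h3 => h1 k m k' m' (h k m h2) (h k' m' h3)

theorem Nr1_exact {a b : ℕ} (x0 : Fin a → Fin b → Fin 4 → ℂ) (h0 : GridVec a b x0)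
    {h : Fin 4 → ℂ} (hh : h ≠ 0) :
    Nr1_ok (fun k m => ∑ i, h i * x0 k m i = 0) := by
  have four : ∀ k k' m m', k ≠ k' → m ≠ m' → ∑ i, h i * x0 k m i = 0 → ∑ i, h i * x0 k m' i = 0 →
      ∑ i, h i * x0 k' m i = 0 → ∑ i, h i * x0 k' m' i = 0 → False := by
    intro k k' m m' hk hm h1 h2 h3 h4
    refine hh (Nr1_four (h0.ind k k' m m' hk hm) fun t => ?_)
    fin_cases t
    · exact h1
    · exact h2
    · exact h3
    · exact h4
  by_cases hrow : ∃ k j0 j1, j0 ≠ j1 ∧ ∑ i, h i * x0 k j0 i = 0 ∧ ∑ i, h i * x0 k j1 i = 0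
  · obtain ⟨k, j0, j1, hj, h1, h2⟩ := hrow
    have h3 : ∀ j, ∑ i, h i * x0 k j i = 0 := fun j => Nr1_span (h0.col k j0 j1 j hj) h1 h2
    by_cases hall : ∀ k' m, ∑ i, h i * x0 k' m i = 0 → k' = k
    · exact Or.inl ⟨k, j0, fun k' m hz => Or.inl (hall k' m hz)⟩
    · push Not at hall
      obtain ⟨k', m, h4, h5⟩ := hall
      refine Or.inl ⟨k, m, fun k2 m2 hz => ?_⟩
      by_contra hcon
      push Not at hcon
      have h6 : ∑ i, h i * x0 k2 m i = 0 := Nr1_span (h0.row m k k' k2 h5.symm) (h3 m) h4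
      exact four k k2 m m2 hcon.1.symm hcon.2.symm (h3 m) (h3 m2) h6 hz
  · by_cases hcol : ∃ m k0 k1, k0 ≠ k1 ∧ ∑ i, h i * x0 k0 m i = 0 ∧ ∑ i, h i * x0 k1 m i = 0
    · obtain ⟨m, k0, k1, hk, h1, h2⟩ := hcol
      have h3 : ∀ k, ∑ i, h i * x0 k m i = 0 := fun k => Nr1_span (h0.row m k0 k1 k hk) h1 h2
      by_cases hall : ∀ k m', ∑ i, h i * x0 k m' i = 0 → m' = m
      · exact Or.inl ⟨k0, m, fun k m' hz => Or.inr (hall k m' hz)⟩
      · push Not at hall
        obtain ⟨k', m', h4, h5⟩ := hall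
        refine Or.inl ⟨k', m, fun k2 m2 hz => ?_⟩
        by_contra hcon
        push Not at hcon
        have h6 : ∑ i, h i * x0 k' m2 i = 0 := Nr1_span (h0.col k' m m' m2 h5.symm) (h3 k') h4
        exact four k' k2 m m2 hcon.1.symm hcon.2.symm (h3 k') h6 (h3 k2) hz
    · refine Or.inr fun k m k' m' h1 h2 hne => ⟨fun hk => ?_, fun hm => ?_⟩
      · subst hk
        exact hrow ⟨k, m, m', fun e => hne (by rw [e]), h1, h2⟩
      · subst hm
        exact hcol ⟨m, k, k', fun e => hne (by rw [e]), h1, h2⟩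

theorem near_planes {a b : ℕ} (ha : 2 ≤ a) (hb : 2 ≤ b) (x0 : Fin a → Fin b → Fin 4 → ℂ)
    (h0 : GridVec a b x0) : ∀ᶠ x in 𝓝 x0, ∀ h : Fin 4 → ℂ, h ≠ 0 →
      (∃ l j, ∀ k m, ∑ i, h i * x k m i = 0 → k = l ∨ m = j) ∨
      (∀ k m k' m', ∑ i, h i * x k m i = 0 → ∑ i, h i * x k' m' i = 0 → (k, m) ≠ (k', m') →
        k ≠ k' ∧ m ≠ m') := by
  have hK : IsCompact (Metric.sphere (0 : Fin 4 → ℂ) 1) := isCompact_sphere _ _
  have h1 : ∀ᶠ x in 𝓝 x0, ∀ h ∈ Metric.sphere (0 : Fin 4 → ℂ) 1,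
      Nr1_ok (fun k m => ∑ i, h i * x k m i = 0) := by
    refine hK.eventually_forall_of_forall_eventually fun h hh => ?_
    have hne : h ≠ 0 := by
      rintro rfl
      simp at hh
    have h2 : ∀ᶠ z : (Fin a → Fin b → Fin 4 → ℂ) × (Fin 4 → ℂ) in 𝓝 (x0, h), ∀ k m,
        ∑ i, h i * x0 k m i ≠ 0 → ∑ i, z.2 i * z.1 k m i ≠ 0 := by
      rw [Filter.eventually_all]
      intro k
      rw [Filter.eventually_all]
      intro m
      by_cases h3 : ∑ i, h i * x0 k m i = 0
      · exact Filter.Eventually.of_forall fun z h4 => absurd h3 h4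
      · have hc : Continuous (fun z : (Fin a → Fin b → Fin 4 → ℂ) × (Fin 4 → ℂ) =>
            ∑ i, z.2 i * z.1 k m i) := by fun_prop
        have h4 := hc.continuousAt.eventually_ne (x := (x0, h)) h3
        exact h4.mono fun z hz _ => hz
    refine h2.mono fun z hz => ?_
    refine Nr1_mono (fun k m h3 => ?_) (Nr1_exact x0 h0 hne)
    by_contra h4
    exact hz k m h4 h3
  refine h1.mono fun x hx h hh => ?_
  have h2 : ‖(‖h‖⁻¹ : ℂ) • h‖ = 1 := norm_smul_inv_norm hh
  have h3 := hx ((‖h‖⁻¹ : ℂ) • h) (by rw [mem_sphere_zero_iff_norm, h2])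
  refine Nr1_mono (S := fun k m => ∑ i, h i * x k m i = 0) (fun k m h4 => ?_) h3
  have h5 : ∑ i, ((‖h‖⁻¹ : ℂ) • h) i * x k m i = (‖h‖⁻¹ : ℂ) * ∑ i, h i * x k m i := by
    rw [Finset.mul_sum]
    refine Finset.sum_congr rfl fun i _ => ?_
    simp only [Pi.smul_apply, smul_eq_mul]
    ring
  show ∑ i, ((‖h‖⁻¹ : ℂ) • h) i * x k m i = 0
  rw [h5]
  rw [show ∑ i, h i * x k m i = 0 from h4, mul_zero]

end GP80
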