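import Mathlib
import Pool.Agent.H3.GP.Defs
import Pool.Agent.H3.GP.OPN

/-!
# Row Nr2 (MP_87ed0a_GP): no third point on a chord, near a grid  (about 140 lines)

Exact grid: let `k ≠ k'`, `m ≠ m'`, `(p, q) ≠ (k, m), (k', m')`, and suppose `x0 k m, x0 k' m', x0 p q` dependent.  `x0 k m, x0 k' m'` are independent (`ind`), so `x0 p q ∈ span {x0 k m, x0 k' m'}`.
Claim 1: `p = k` or `q = m'`.  Otherwise `ind k p m' q` says that `x0 k m', x0 k q, x0 p m', x0 p q` are independent; but all four are in `W = span {x0 k m, x0 k m', x0 k' m'}` (dimension 3): `x0 k q` by `col`, `x0 p m'` by `row`.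
Claim 2 (symmetric, exchanging the roles): `p = k'` or `q = m`.  Together: `p = k` and `p = k'` impossible; `p = k`, `q = m` excluded; `q = m'`, `p = k'` excluded; `q = m' = m` impossible.
Openness of linear independence (as in the proof of `OPN`, Pool/Agent/H3/GP/OPN.lean: `isOpen_setOfPred_linearIndependent`), finitely many conditions.
-/

open Filter Topology Pool.Agent.H3.GP

namespace GP80

theorem Nr2_four {e1 e2 e3 e4 : Fin 4 → ℂ} (h : LinearIndependent ℂ ![e1, e2, e3, e4])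
    {a b c d : ℂ} (h0 : a • e1 + b • e2 + c • e3 + d • e4 = 0) :
    a = 0 ∧ b = 0 ∧ c = 0 ∧ d = 0 := by
  rw [Fintype.linearIndependent_iff] at h
  have h1 := h ![a, b, c, d] (by
    simp only [Fin.sum_univ_four]
    exact h0)
  exact ⟨h1 0, h1 1, h1 2, h1 3⟩

theorem Nr2_mk {u v w : Fin 4 → ℂ}
    (h : ∀ a b c : ℂ, a • u + b • v + c • w = 0 → a = 0 ∧ b = 0 ∧ c = 0) :
    LinearIndependent ℂ ![u, v, w] := by
  rw [Fintype.linearIndependent_iff]
  intro g hg
  simp only [Fin.sum_univ_three] at hg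
  obtain ⟨h1, h2, h3⟩ := h (g 0) (g 1) (g 2) hg
  intro i
  fin_cases i
  · exact h1
  · exact h2
  · exact h3

/-- `e1, e2` and a nonzero vector of the span of `e3, e4` -/
theorem Nr2_core {e1 e2 e3 e4 v : Fin 4 → ℂ} (h : LinearIndependent ℂ ![e1, e2, e3, e4])
    (hv : v ∈ Submodule.span ℂ {e3, e4}) (hv0 : v ≠ 0) {a b c : ℂ}
    (h0 : a • e1 + b • e2 + c • v = 0) : a = 0 ∧ b = 0 ∧ c = 0 := by
  obtain ⟨s, t, rfl⟩ := Submodule.mem_span_pair.1 hv
  have h1 := Nr2_four h (a := a) (b := b) (c := c * s) (d := c * t) (by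
    rw [← h0, smul_add, smul_smul, smul_smul]
    abel)
  obtain ⟨ha, hb, hs, ht⟩ := h1
  refine ⟨ha, hb, ?_⟩
  by_contra hc
  apply hv0
  have hs' : s = 0 := (mul_eq_zero.1 hs).resolve_left hc
  have ht' : t = 0 := (mul_eq_zero.1 ht).resolve_left hc
  rw [hs', ht', zero_smul, zero_smul, add_zero]

theorem Nr2_ne {a b : ℕ} (ha : 2 ≤ a) (hb : 2 ≤ b) {x : Fin a → Fin b → Fin 4 → ℂ}
    (h : GridVec a b x) (k : Fin a) (j : Fin b) : x k j ≠ 0 := by
  have : Nontrivial (Fin a) := Fin.nontrivial_iff_two_le.2 ha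
  have : Nontrivial (Fin b) := Fin.nontrivial_iff_two_le.2 hb
  obtain ⟨k2, hk2⟩ := exists_ne k
  obtain ⟨j2, hj2⟩ := exists_ne j
  exact (h.ind k k2 j j2 hk2.symm hj2.symm).ne_zero 0

theorem Nr2_exact {a b : ℕ} (ha : 2 ≤ a) (hb : 2 ≤ b) {x : Fin a → Fin b → Fin 4 → ℂ}
    (h : GridVec a b x) {k k' p : Fin a} {m m' q : Fin b} (hk : k ≠ k') (hm : m ≠ m')
    (h1 : (p, q) ≠ (k, m)) (h2 : (p, q) ≠ (k', m')) :
    LinearIndependent ℂ ![x k m, x k' m', x p q] := by
  have hne := Nr2_ne ha hb h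
  by_cases hpk : p = k
  · subst hpk
    have hq : m ≠ q := fun h3 => h1 (by rw [h3])
    refine Nr2_mk fun c1 c2 c3 h0 => ?_
    have h3 := Nr2_core (h.ind p k' m q hk hq) (h.col k' m q m' hq) (hne k' m')
      (a := c1) (b := c3) (c := c2) (by rw [← h0]; abel)
    exact ⟨h3.1, h3.2.2, h3.2.1⟩
  by_cases hpk' : p = k'
  · subst hpk'
    have hq : m' ≠ q := fun h3 => h2 (by rw [h3])
    refine Nr2_mk fun c1 c2 c3 h0 => ?_
    have h3 := Nr2_core (h.ind p k m' q hk.symm hq) (h.col k m' q m hq) (hne k m)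
      (a := c2) (b := c3) (c := c1) (by rw [← h0]; abel)
    exact ⟨h3.2.2, h3.1, h3.2.1⟩
  have swap : ∀ {e1 e2 e3 e4 : Fin 4 → ℂ}, LinearIndependent ℂ ![e1, e2, e3, e4] →
      LinearIndependent ℂ ![e1, e3, e2, e4] := by
    intro e1 e2 e3 e4 h3
    have h4 := h3.comp ![0, 2, 1, 3] (by decide)
    convert h4 using 1
    ext i
    fin_cases i <;> rfl
  by_cases hqm : q = m
  · subst hqm
    refine Nr2_mk fun c1 c2 c3 h0 => ?_
    have h3 := Nr2_core (swap (h.ind k p q m' (Ne.symm hpk) hm))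
      (h.row m' k p k' (Ne.symm hpk)) (hne k' m')
      (a := c1) (b := c3) (c := c2) (by rw [← h0]; abel)
    exact ⟨h3.1, h3.2.2, h3.2.1⟩
  by_cases hqm' : q = m'
  · subst hqm'
    refine Nr2_mk fun c1 c2 c3 h0 => ?_
    have h3 := Nr2_core (swap (h.ind k' p q m (Ne.symm hpk') hm.symm))
      (h.row m k' p k (Ne.symm hpk')) (hne k m)
      (a := c2) (b := c3) (c := c1) (by rw [← h0]; abel)
    exact ⟨h3.2.2, h3.1, h3.2.1⟩
  -- the general case
  obtain ⟨α, β, e1⟩ := Submodule.mem_span_pair.1 (h.row m k k' p hk)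
  obtain ⟨γ, δ, e2⟩ := Submodule.mem_span_pair.1 (h.row m' k k' p hk)
  obtain ⟨s, t, e3⟩ := Submodule.mem_span_pair.1 (h.col p m m' q hm)
  have hs : s ≠ 0 := by
    rintro rfl
    have h3 := Nr2_core (h.ind p k m' q hpk (Ne.symm hqm')) (v := x k m')
      (Submodule.subset_span (by simp)) (hne k m')
      (a := t) (b := -1) (c := 0) (by rw [← e3]; simp)
    exact one_ne_zero (neg_eq_zero.1 h3.2.1)
  have hβ : β ≠ 0 := by
    rintro rfl
    have h3 := Nr2_core (swap (h.ind k p m m' (Ne.symm hpk) hm)) (v := x k m')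
      (Submodule.subset_span (by simp)) (hne k m')
      (a := α) (b := -1) (c := 0) (by rw [← e1]; simp)
    exact one_ne_zero (neg_eq_zero.1 h3.2.1)
  refine Nr2_mk fun c1 c2 c3 h0 => ?_
  have h3 := Nr2_four (h.ind k k' m m' hk hm) (a := c1 + c3 * s * α) (b := c3 * t * γ)
    (c := c3 * s * β) (d := c2 + c3 * t * δ) (by
      rw [← h0, ← e3, ← e1, ← e2]
      module)
  obtain ⟨f1, f2, f3, f4⟩ := h3
  have hc3 : c3 = 0 := by
    rcases mul_eq_zero.1 f3 with h4 | h4
    · exact (mul_eq_zero.1 h4).resolve_right hs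
    · exact absurd h4 hβ
  subst hc3
  simp only [zero_mul, add_zero] at f1 f4
  exact ⟨f1, f4, rfl⟩

theorem near_chords {a b : ℕ} (ha : 2 ≤ a) (hb : 2 ≤ b) (x0 : Fin a → Fin b → Fin 4 → ℂ)
    (h0 : GridVec a b x0) : ∀ᶠ x in 𝓝 x0, ∀ k m k' m' p q, k ≠ k' → m ≠ m' → (p, q) ≠ (k, m) →
      (p, q) ≠ (k', m') → LinearIndependent ℂ ![x k m, x k' m', x p q] := by
  rw [Filter.eventually_all]; intro k
  rw [Filter.eventually_all]; intro m
  rw [Filter.eventually_all]; intro k'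
  rw [Filter.eventually_all]; intro m'
  rw [Filter.eventually_all]; intro p
  rw [Filter.eventually_all]; intro q
  by_cases hk : k = k'
  · exact Filter.Eventually.of_forall fun x h1 => absurd hk h1
  by_cases hm : m = m'
  · exact Filter.Eventually.of_forall fun x _ h1 => absurd hm h1
  by_cases h1 : (p, q) = (k, m)
  · exact Filter.Eventually.of_forall fun x _ _ h2 => absurd h1 h2
  by_cases h2 : (p, q) = (k', m')
  · exact Filter.Eventually.of_forall fun x _ _ _ h3 => absurd h2 h3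
  have hopen : IsOpen {v : Fin 3 → Fin 4 → ℂ | LinearIndependent ℂ v} :=
    isOpen_setOfPred_linearIndependent
  have hcont : Tendsto (fun x : Fin a → Fin b → Fin 4 → ℂ =>
      ![x k m, x k' m', x p q]) (𝓝 x0)
      (𝓝 ![x0 k m, x0 k' m', x0 p q]) := by
    have h3 : ∀ (k : Fin a) (j : Fin b), Tendsto (fun x : Fin a → Fin b → Fin 4 → ℂ => x k j)
        (𝓝 x0) (𝓝 (x0 k j)) := fun k j =>
      ((continuous_apply j).comp (continuous_apply k)).tendsto x0
    rw [tendsto_pi_nhds]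
    intro i
    fin_cases i
    · exact h3 k m
    · exact h3 k' m'
    · exact h3 p q
  have h3 := hcont.eventually (hopen.mem_nhds (Nr2_exact ha hb h0 hk hm h1 h2))
  exact h3.mono fun x hx _ _ _ _ => hx

end GP80
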