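import Mathlib
import Pool.Agent.H80.GP.Kp2

/-!
# Row Sf1 (MP_87ed0a_GP): multiplicities of a bihomogeneous polynomial on a product of two sets of points  (about 200 lines)

`Q2 = ℂ[u_0, u_1, u'_0, u'_1]` (`inl` = `u`, `inr` = `u'`).  `mlt y y' c` = order in `ε` of `c(y + ε w, y' + ε w')`, `w, w'` variables.
For finite sets of pairwise independent vectors `y j`, `j ∈ Jx`, and `y' m`, `m ∈ Mx`, of `ℂ^2` and `c ≠ 0` homogeneous of degree `i` in `u` and `e` in `u'`: `∑_{j, m} mlt (y j) (y' m) c ≤ card Mx * i + card Jx * e`.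
Facts: `c ↦ c(y + ε w, y' + ε w')` is an injective ring hom (set `y`-part: substitute `w = u - y`, `ε = 1`), so `mlt` is additive on products of nonzero polynomials.
Let `l_j(u) = y_j1 u_0 - y_j0 u_1` (a nonzero linear form vanishing exactly on `ℂ y_j`).  `mlt (y j) (y' m) l_j = 1`, and `mlt (y j') (y' m) l_j = 0` for `j' ≠ j`.
Induction on `i`.  If some `l_j ∣ c`, `c = l_j c1` (`c1` is bihomogeneous of degrees `i - 1, e`: weighted versions of `homog_of_mul_left`, or take the bihomogeneous component): the sum for `c` is `card Mx +` the sum for `c1`.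
If no `l_j ∣ c`: `q_j(u') := c(y_j, u') ≠ 0` (if `c(y_j, u') = 0` then `l_j ∣ c`: say `y_j0 ≠ 0`, `y_j0^i c(u, u') ≡ c(y_j0 u_0, y_j0 u_1, u') ≡ c(u_0 y_j, u') = u_0^i c(y_j, u') = 0` modulo `l_j`).  Specialising `w = 0` gives
`mlt (y j) (y' m) c ≤ ord_ε q_j(y'_m + ε w')` (the specialised polynomial is nonzero and divisible by the same power of `ε`), and `∑_m ord_ε q(y'_m + ε w') ≤ e` for a nonzero binary form `q` of degree `e` (same induction on `e`, dividing by `l'_m`; if `l'_m ∤ q` then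
`q(y'_m) ≠ 0` and the order is 0).  So the sum is `≤ card Jx * e`.
-/

namespace GP80

open MvPolynomial

/-- substitution `u = y + ε w`, `u' = y' + ε w'` -/
noncomputable def mltH (y y' : Fin 2 → ℂ) :
    MvPolynomial (Fin 2 ⊕ Fin 2) ℂ →+* Polynomial (MvPolynomial (Fin 2 ⊕ Fin 2) ℂ) :=
  eval₂Hom ((Polynomial.C).comp (C : ℂ →+* MvPolynomial (Fin 2 ⊕ Fin 2) ℂ))
    (Sum.elim (fun k => Polynomial.C (C (y k)) + Polynomial.X * Polynomial.C (X (Sum.inl k)))
      (fun k => Polynomial.C (C (y' k)) + Polynomial.X * Polynomial.C (X (Sum.inr k))))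

/-- multiplicity at `(y, y')` -/
noncomputable def mlt (y y' : Fin 2 → ℂ) (c : MvPolynomial (Fin 2 ⊕ Fin 2) ℂ) : ℕ :=
  (mltH y y' c).natTrailingDegree

theorem mltH_injective (y y' : Fin 2 → ℂ) : Function.Injective (mltH y y') := by
  let ψ : MvPolynomial (Fin 2 ⊕ Fin 2) ℂ →+* MvPolynomial (Fin 2 ⊕ Fin 2) ℂ :=
    eval₂Hom C (Sum.elim (fun k => X (Sum.inl k) - C (y k)) (fun k => X (Sum.inr k) - C (y' k)))
  have h : (ψ.comp (Polynomial.evalRingHom 1)).comp (mltH y y') = RingHom.id _ := by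
    apply ringHom_ext
    · intro r
      simp [mltH, ψ]
    · intro x
      rcases x with k | k
      · simp [mltH, ψ]
      · simp [mltH, ψ]
  refine Function.LeftInverse.injective (g := fun q => ψ (Polynomial.evalRingHom 1 q)) fun c => ?_
  exact RingHom.congr_fun h c

private theorem Sf1_wleft {σ : Type} (w : σ → ℕ) {l c : MvPolynomial σ ℂ} {a n : ℕ}
    (hl : IsWeightedHomogeneous w l a) (h : IsWeightedHomogeneous w (l * c) n) (h0 : l * c ≠ 0) :
    a ≤ n ∧ IsWeightedHomogeneous w c (n - a) := by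
  classical
  let _ := weightedGradedAlgebra ℂ w
  have hl' : l ∈ weightedHomogeneousSubmodule ℂ w a := hl
  have e1 : (DirectSum.decompose (weightedHomogeneousSubmodule ℂ w) (l * c) n :
      MvPolynomial σ ℂ) = l * c :=
    DirectSum.decompose_of_mem_same (weightedHomogeneousSubmodule ℂ w) h
  by_cases han : a ≤ n
  · refine ⟨han, ?_⟩
    rw [DirectSum.coe_decompose_mul_of_left_mem_of_le _ hl' han] at e1
    have e2 := mul_left_cancel₀ (left_ne_zero_of_mul h0) e1
    rw [← e2]
    exact (DirectSum.decompose (weightedHomogeneousSubmodule ℂ w) c (n - a)).2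
  · exfalso
    rw [DirectSum.coe_decompose_mul_of_left_mem_of_not_le _ hl' han] at e1
    exact h0 e1.symm

private theorem Sf1_wt {σ : Type} [Fintype σ] (w : σ → ℕ) {c : MvPolynomial σ ℂ} {n : ℕ}
    (h : IsWeightedHomogeneous w c n) {d : σ →₀ ℕ} (hd : d ∈ c.support) :
    ∑ x, w x * d x = n := by
  have h1 := h (mem_support_iff.1 hd)
  rw [Finsupp.weight_apply, Finsupp.sum_fintype d _ (fun x => zero_smul ℕ (w x))] at h1
  rw [← h1]
  refine Finset.sum_congr rfl fun x _ => ?_
  rw [smul_eq_mul, mul_comm]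

private theorem Sf1_scale {σ S : Type} [Fintype σ] [CommRing S] [Algebra ℂ S] (w : σ → ℕ)
    {c : MvPolynomial σ ℂ} {n : ℕ} (h : IsWeightedHomogeneous w c n) (t : S) (f : σ → S) :
    aeval (fun x => t ^ w x * f x) c = t ^ n * aeval f c := by
  rw [aeval_def, aeval_def, eval₂_eq', eval₂_eq', Finset.mul_sum]
  refine Finset.sum_congr rfl fun d hd => ?_
  rw [← Sf1_wt w h hd, ← Finset.prod_pow_eq_pow_sum]
  have h1 : ∀ x ∈ (Finset.univ : Finset σ), (t ^ w x * f x) ^ d x = t ^ (w x * d x) * f x ^ d x := by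
    intro x _
    rw [mul_pow, pow_mul]
  rw [Finset.prod_congr rfl h1, Finset.prod_mul_distrib]
  ring

private theorem Sf1_aevalw {σ τ : Type} [Fintype σ] (w : σ → ℕ) (w' : τ → ℕ)
    {c : MvPolynomial σ ℂ} {n : ℕ} (h : IsWeightedHomogeneous w c n) (f : σ → MvPolynomial τ ℂ)
    (hf : ∀ x, IsWeightedHomogeneous w' (f x) (w x)) :
    IsWeightedHomogeneous w' (aeval f c) n := by
  rw [aeval_def, eval₂_eq']
  refine IsWeightedHomogeneous.sum _ _ _ fun d hd => ?_
  rw [algebraMap_eq]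
  refine IsWeightedHomogeneous.C_mul ?_ _
  rw [← Sf1_wt w h hd]
  refine IsWeightedHomogeneous.prod _ _ _ fun x _ => ?_
  have h1 := (hf x).pow (d x)
  rw [smul_eq_mul, mul_comm] at h1
  exact h1

private theorem Sf1_cong {σ S : Type} [CommRing S] [Algebra ℂ S] (l : S) (f g : σ → S)
    (h : ∀ x, l ∣ f x - g x) (c : MvPolynomial σ ℂ) : l ∣ aeval f c - aeval g c := by
  have h1 : (Ideal.Quotient.mkₐ ℂ (Ideal.span {l})).comp (aeval f) =
      (Ideal.Quotient.mkₐ ℂ (Ideal.span {l})).comp (aeval g) := by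
    apply algHom_ext
    intro x
    rw [AlgHom.comp_apply, AlgHom.comp_apply, aeval_X, aeval_X]
    exact Ideal.Quotient.eq.2 (Ideal.mem_span_singleton.2 (h x))
  have h2 := AlgHom.congr_fun h1 c
  exact Ideal.mem_span_singleton.1 (Ideal.Quotient.eq.1 h2)

/-- the linear form vanishing at `y` -/
private noncomputable def Sf1_l {σ : Type} (e : Fin 2 → σ) (y : Fin 2 → ℂ) : MvPolynomial σ ℂ :=
  C (y 1) * X (e 0) - C (y 0) * X (e 1)

private theorem Sf1_dvd {σ : Type} [Fintype σ] (e : Fin 2 → σ) (w : σ → ℕ) (y : Fin 2 → ℂ)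
    (s : σ → MvPolynomial σ ℂ)
    (hs : ∀ x, (∃ k, x = e k ∧ w x = 1 ∧ s x = C (y k)) ∨ (w x = 0 ∧ s x = X x)) (hy : y ≠ 0)
    {c : MvPolynomial σ ℂ} {i : ℕ} (h : IsWeightedHomogeneous w c i) (h0 : aeval s c = 0) :
    Sf1_l e y ∣ c := by
  obtain ⟨k0, hk0⟩ : ∃ k, y k ≠ 0 := by
    by_contra hne
    push Not at hne
    exact hy (funext hne)
  have hl : ∀ k k' : Fin 2, Sf1_l e y ∣ C (y k) * X (e k') - X (e k) * C (y k') := by
    intro k k'
    fin_cases k <;> fin_cases k'
    · exact ⟨0, by simp; ring⟩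
    · exact ⟨-1, by simp [Sf1_l]; ring⟩
    · exact ⟨1, by simp [Sf1_l]; ring⟩
    · exact ⟨0, by simp; ring⟩
  have h1 := Sf1_cong (Sf1_l e y) (fun x => (C (y k0) : MvPolynomial σ ℂ) ^ w x * X x)
    (fun x => (X (e k0) : MvPolynomial σ ℂ) ^ w x * s x) (fun x => by
      rcases hs x with ⟨k, hk, hw, hsx⟩ | ⟨hw, hsx⟩
      · rw [hw, hsx, pow_one, pow_one, hk]
        exact hl k0 k
      · rw [hw, hsx, pow_zero, pow_zero, sub_self]
        exact dvd_zero _) c
  rw [Sf1_scale w h, Sf1_scale w h, h0, mul_zero, sub_zero] at h1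
  have h2 : aeval (fun x => (X x : MvPolynomial σ ℂ)) c = c := by
    have h3 := AlgHom.congr_fun (aeval_X_left (R := ℂ) (σ := σ)) c
    exact h3
  rw [h2] at h1
  have h4 : IsUnit ((C (y k0) : MvPolynomial σ ℂ) ^ i) :=
    ((IsUnit.mk0 _ hk0).map (C : ℂ →+* MvPolynomial σ ℂ)).pow i
  exact h4.dvd_mul_left.1 h1

private theorem Sf1_det {u v : Fin 2 → ℂ} (h : LinearIndependent ℂ ![u, v]) :
    u 1 * v 0 - u 0 * v 1 ≠ 0 := by
  intro h0
  rw [LinearIndependent.pair_iff] at h
  have h1 := h (v 0) (-u 0) (by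
    funext k
    fin_cases k
    · simp
      ring
    · simp
      linear_combination h0)
  have h2 := h (v 1) (-u 1) (by
    funext k
    fin_cases k
    · simp
      linear_combination -h0
    · simp
      ring)
  have h3 := h 1 1 (by
    funext k
    fin_cases k
    · simp [h1.1, neg_eq_zero.1 h1.2]
    · simp [h2.1, neg_eq_zero.1 h2.2])
  exact one_ne_zero h3.1

private theorem Sf1_mul (y y' : Fin 2 → ℂ) {a b : MvPolynomial (Fin 2 ⊕ Fin 2) ℂ} (h : a * b ≠ 0) :
    mlt y y' (a * b) = mlt y y' a + mlt y y' b := by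
  have ha : mltH y y' a ≠ 0 := by
    rw [← map_zero (mltH y y')]
    exact fun e => left_ne_zero_of_mul h (mltH_injective y y' e)
  have hb : mltH y y' b ≠ 0 := by
    rw [← map_zero (mltH y y')]
    exact fun e => right_ne_zero_of_mul h (mltH_injective y y' e)
  rw [mlt, mlt, mlt, map_mul, Polynomial.natTrailingDegree_mul ha hb]

private theorem Sf1_coeff0 (y y' : Fin 2 → ℂ) (c : MvPolynomial (Fin 2 ⊕ Fin 2) ℂ) :
    (mltH y y' c).coeff 0 = C (eval (Sum.elim y y') c) := by
  have h : (Polynomial.constantCoeff).comp (mltH y y') =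
      (C : ℂ →+* MvPolynomial (Fin 2 ⊕ Fin 2) ℂ).comp (eval (Sum.elim y y')) := by
    apply ringHom_ext
    · intro r
      simp [mltH]
    · intro x
      rcases x with k | k
      · simp [mltH]
      · simp [mltH]
  exact RingHom.congr_fun h c

private theorem Sf1_zero (y y' : Fin 2 → ℂ) {c : MvPolynomial (Fin 2 ⊕ Fin 2) ℂ}
    (h : eval (Sum.elim y y') c ≠ 0) : mlt y y' c = 0 := by
  rw [mlt]
  apply Nat.le_zero.1
  apply Polynomial.natTrailingDegree_le_of_ne_zero
  rw [Sf1_coeff0]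
  intro h0
  rw [C_eq_zero] at h0
  exact h h0

private theorem Sf1_lne (e : Fin 2 → Fin 2 ⊕ Fin 2) (he : ∀ a : Fin 2 → ℂ, ∀ k,
    Sum.elim a a (e k) = a k) {y : Fin 2 → ℂ} (hy : y ≠ 0) : Sf1_l e y ≠ 0 := by
  intro h0
  apply hy
  have h1 : ∀ a : Fin 2 → ℂ, y 1 * a 0 - y 0 * a 1 = 0 := by
    intro a
    have h2 := congrArg (eval (Sum.elim a a)) h0
    rw [Sf1_l, map_sub, map_mul, map_mul, eval_C, eval_C, eval_X, eval_X, he, he, map_zero] at h2
    exact h2
  have h3 := h1 ![1, 0]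
  have h4 := h1 ![0, 1]
  simp at h3 h4
  funext k
  fin_cases k
  · exact h4
  · exact h3

private theorem Sf1_one_l (y y' z : Fin 2 → ℂ) (hz : z ≠ 0) :
    mlt y y' (Sf1_l Sum.inl z) ≤ if z 1 * y 0 - z 0 * y 1 = 0 then 1 else 0 := by
  have h1 : mltH y y' (Sf1_l Sum.inl z) = Polynomial.C (C (z 1 * y 0 - z 0 * y 1)) +
      Polynomial.X * Polynomial.C (Sf1_l Sum.inl z) := by
    simp [mltH, Sf1_l]
    ring
  split_ifs with h
  · rw [mlt]
    apply Polynomial.natTrailingDegree_le_of_ne_zero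
    rw [h1, h, map_zero, map_zero, zero_add, Polynomial.coeff_X_mul, Polynomial.coeff_C_zero]
    exact Sf1_lne Sum.inl (fun _ _ => rfl) hz
  · apply le_of_eq
    apply Sf1_zero
    rw [Sf1_l, map_sub, map_mul, map_mul, eval_C, eval_C, eval_X, eval_X]
    exact h

private theorem Sf1_one_r (y y' z : Fin 2 → ℂ) (hz : z ≠ 0) :
    mlt y y' (Sf1_l Sum.inr z) ≤ if z 1 * y' 0 - z 0 * y' 1 = 0 then 1 else 0 := by
  have h1 : mltH y y' (Sf1_l Sum.inr z) = Polynomial.C (C (z 1 * y' 0 - z 0 * y' 1)) +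
      Polynomial.X * Polynomial.C (Sf1_l Sum.inr z) := by
    simp [mltH, Sf1_l]
    ring
  split_ifs with h
  · rw [mlt]
    apply Polynomial.natTrailingDegree_le_of_ne_zero
    rw [h1, h, map_zero, map_zero, zero_add, Polynomial.coeff_X_mul, Polynomial.coeff_C_zero]
    exact Sf1_lne Sum.inr (fun _ _ => rfl) hz
  · apply le_of_eq
    apply Sf1_zero
    rw [Sf1_l, map_sub, map_mul, map_mul, eval_C, eval_C, eval_X, eval_X]
    exact h

private theorem Sf1_lw {σ : Type} (w : σ → ℕ) (e : Fin 2 → σ) (n : ℕ) (h : ∀ k, w (e k) = n)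
    (z : Fin 2 → ℂ) : IsWeightedHomogeneous w (Sf1_l e z) n := by
  rw [Sf1_l]
  refine IsWeightedHomogeneous.sub (IsWeightedHomogeneous.C_mul ?_ _)
    (IsWeightedHomogeneous.C_mul ?_ _)
  · have h1 := isWeightedHomogeneous_X ℂ w (e 0)
    rw [h] at h1
    exact h1
  · have h1 := isWeightedHomogeneous_X ℂ w (e 1)
    rw [h] at h1
    exact h1

private theorem Sf1_indep {S : Type} [CommRing S] [Algebra ℂ S]
    {q : MvPolynomial (Fin 2 ⊕ Fin 2) ℂ}
    (h : IsWeightedHomogeneous (Sum.elim (fun _ => 1) (fun _ => 0) : Fin 2 ⊕ Fin 2 → ℕ) q 0)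
    (a a' b : Fin 2 → S) : aeval (Sum.elim a b) q = aeval (Sum.elim a' b) q := by
  have h1 := Sf1_scale _ h 0 (Sum.elim a b)
  have h2 := Sf1_scale _ h 0 (Sum.elim a' b)
  rw [pow_zero, one_mul] at h1 h2
  rw [← h1, ← h2]
  have h3 : (fun x => (0 : S) ^ (Sum.elim (fun _ => 1) (fun _ => 0) : Fin 2 ⊕ Fin 2 → ℕ) x *
      Sum.elim a b x) = (fun x => (0 : S) ^
        (Sum.elim (fun _ => 1) (fun _ => 0) : Fin 2 ⊕ Fin 2 → ℕ) x * Sum.elim a' b x) := by
    funext x
    rcases x with k | k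
    · simp
    · simp
  rw [h3]

private theorem Sf1_binary {M : Type} [Fintype M] (y : Fin 2 → ℂ) (y' : M → Fin 2 → ℂ)
    (hy' : ∀ m m', m ≠ m' → LinearIndependent ℂ ![y' m, y' m']) (hy0' : ∀ m, y' m ≠ 0) (e : ℕ) :
    ∀ q : MvPolynomial (Fin 2 ⊕ Fin 2) ℂ,
    IsWeightedHomogeneous (Sum.elim (fun _ => 1) (fun _ => 0) : Fin 2 ⊕ Fin 2 → ℕ) q 0 →
    IsWeightedHomogeneous (Sum.elim (fun _ => 0) (fun _ => 1) : Fin 2 ⊕ Fin 2 → ℕ) q e →
    q ≠ 0 → ∑ m, mlt y (y' m) q ≤ e := by
  classical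
  induction e using Nat.strong_induction_on with
  | _ e ih =>
    intro q h1 h2 h0
    by_cases hd : ∃ m, Sf1_l Sum.inr (y' m) ∣ q
    · obtain ⟨m, q1, hq⟩ := hd
      rw [hq] at h1 h2 h0 ⊢
      have h3 := Sf1_wleft _ (Sf1_lw _ Sum.inr 0 (fun _ => rfl) (y' m)) h1 h0
      have h4 := Sf1_wleft _ (Sf1_lw _ Sum.inr 1 (fun _ => rfl) (y' m)) h2 h0
      have h5 := ih (e - 1) (by omega) q1 h3.2 h4.2 (right_ne_zero_of_mul h0)
      rw [Finset.sum_congr rfl fun m' _ => Sf1_mul y (y' m') h0, Finset.sum_add_distrib]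
      have h6 : ∑ m', mlt y (y' m') (Sf1_l Sum.inr (y' m)) ≤ ∑ m', if m' = m then 1 else 0 := by
        refine Finset.sum_le_sum fun m' _ => ?_
        refine (Sf1_one_r y (y' m') (y' m) (hy0' m)).trans ?_
        by_cases hm : m' = m
        · rw [if_pos hm]
          split_ifs <;> omega
        · rw [if_neg (Sf1_det (hy' m m' (Ne.symm hm)))]
          exact Nat.zero_le _
      rw [Finset.sum_ite_eq' Finset.univ m, if_pos (Finset.mem_univ m)] at h6
      omega
    · push Not at hd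
      have h3 : ∀ m, mlt y (y' m) q = 0 := by
        intro m
        apply Sf1_zero
        intro h4
        apply hd m
        refine Sf1_dvd Sum.inr _ (y' m) (Sum.elim (fun k => X (Sum.inl k)) (fun k => C (y' m k)))
          ?_ (hy0' m) h2 ?_
        · rintro (k | k)
          · right
            exact ⟨rfl, rfl⟩
          · left
            exact ⟨k, rfl, rfl, rfl⟩
        · rw [Sf1_indep h1 (fun k => X (Sum.inl k)) (fun k => C (y k)) (fun k => C (y' m k))]
          have h8 : ((aeval (Sum.elim (fun k => C (y k)) (fun k => C (y' m k)) :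
              Fin 2 ⊕ Fin 2 → MvPolynomial (Fin 2 ⊕ Fin 2) ℂ)).toRingHom :
              MvPolynomial (Fin 2 ⊕ Fin 2) ℂ →+* MvPolynomial (Fin 2 ⊕ Fin 2) ℂ) =
              (C : ℂ →+* MvPolynomial (Fin 2 ⊕ Fin 2) ℂ).comp (eval (Sum.elim y (y' m))) := by
            apply ringHom_ext
            · intro r
              simp [algebraMap_eq]
            · intro x
              rcases x with k | k
              · simp
              · simp
          have h9 := RingHom.congr_fun h8 q
          rw [RingHom.comp_apply, h4, map_zero] at h9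
          exact h9
      rw [Finset.sum_congr rfl fun m _ => h3 m, Finset.sum_const_zero]
      exact Nat.zero_le _

theorem mlt_sum {J M : Type} [Fintype J] [Fintype M] (y : J → Fin 2 → ℂ) (y' : M → Fin 2 → ℂ)
    (hy : ∀ j j', j ≠ j' → LinearIndependent ℂ ![y j, y j']) (hy0 : ∀ j, y j ≠ 0)
    (hy' : ∀ m m', m ≠ m' → LinearIndependent ℂ ![y' m, y' m']) (hy0' : ∀ m, y' m ≠ 0)
    (i e : ℕ) (c : MvPolynomial (Fin 2 ⊕ Fin 2) ℂ)
    (h1 : IsWeightedHomogeneous (Sum.elim (fun _ => 1) (fun _ => 0) : Fin 2 ⊕ Fin 2 → ℕ) c i)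
    (h2 : IsWeightedHomogeneous (Sum.elim (fun _ => 0) (fun _ => 1) : Fin 2 ⊕ Fin 2 → ℕ) c e)
    (h0 : c ≠ 0) :
    ∑ j, ∑ m, mlt (y j) (y' m) c ≤ Fintype.card M * i + Fintype.card J * e := by
  classical
  revert c
  induction i using Nat.strong_induction_on with
  | _ i ih =>
    intro c h1 h2 h0
    by_cases hd : ∃ j, Sf1_l Sum.inl (y j) ∣ c
    · obtain ⟨j, c1, hc⟩ := hd
      rw [hc] at h1 h2 h0 ⊢
      have h3 := Sf1_wleft _ (Sf1_lw _ Sum.inl 1 (fun _ => rfl) (y j)) h1 h0
      have h4 := Sf1_wleft _ (Sf1_lw _ Sum.inl 0 (fun _ => rfl) (y j)) h2 h0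
      have h5 := ih (i - 1) (by omega) c1 h3.2 h4.2 (right_ne_zero_of_mul h0)
      have h6 : ∑ j', ∑ m, mlt (y j') (y' m) (Sf1_l Sum.inl (y j)) ≤
          ∑ j', if j' = j then Fintype.card M else 0 := by
        refine Finset.sum_le_sum fun j' _ => ?_
        by_cases hj : j' = j
        · rw [if_pos hj]
          have h7 : ∑ m, mlt (y j') (y' m) (Sf1_l Sum.inl (y j)) ≤ ∑ _m : M, 1 := by
            refine Finset.sum_le_sum fun m _ => ?_
            refine (Sf1_one_l (y j') (y' m) (y j) (hy0 j)).trans ?_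
            split_ifs <;> omega
          rw [Finset.sum_const, Finset.card_univ, smul_eq_mul, mul_one] at h7
          exact h7
        · rw [if_neg hj]
          apply le_of_eq
          apply Finset.sum_eq_zero
          intro m _
          have h7 := Sf1_one_l (y j') (y' m) (y j) (hy0 j)
          rw [if_neg (Sf1_det (hy j j' (Ne.symm hj)))] at h7
          omega
      rw [Finset.sum_ite_eq' Finset.univ j, if_pos (Finset.mem_univ j)] at h6
      have h8 : ∑ j', ∑ m, mlt (y j') (y' m) (Sf1_l Sum.inl (y j) * c1) =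
          ∑ j', ∑ m, mlt (y j') (y' m) (Sf1_l Sum.inl (y j)) +
            ∑ j', ∑ m, mlt (y j') (y' m) c1 := by
        rw [← Finset.sum_add_distrib]
        refine Finset.sum_congr rfl fun j' _ => ?_
        rw [← Finset.sum_add_distrib]
        exact Finset.sum_congr rfl fun m _ => Sf1_mul _ _ h0
      rw [h8]
      obtain ⟨i', rfl⟩ : ∃ i', i = i' + 1 := ⟨i - 1, by omega⟩
      rw [Nat.add_sub_cancel] at h5
      rw [Nat.mul_succ]
      omega
    · push Not at hd
      have h3 : ∀ j, ∑ m, mlt (y j) (y' m) c ≤ e := by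
        intro j
        let q : MvPolynomial (Fin 2 ⊕ Fin 2) ℂ :=
          aeval (Sum.elim (fun k => C (y j k)) (fun k => X (Sum.inr k)) :
            Fin 2 ⊕ Fin 2 → MvPolynomial (Fin 2 ⊕ Fin 2) ℂ) c
        have hq0 : q ≠ 0 := by
          intro h4
          apply hd j
          refine Sf1_dvd Sum.inl _ (y j) _ ?_ (hy0 j) h1 h4
          rintro (k | k)
          · left
            exact ⟨k, rfl, rfl, rfl⟩
          · right
            exact ⟨rfl, rfl⟩
        have hq1 : IsWeightedHomogeneous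
            (Sum.elim (fun _ => 1) (fun _ => 0) : Fin 2 ⊕ Fin 2 → ℕ) q 0 := by
          have hz : IsWeightedHomogeneous (fun _ => 0 : Fin 2 ⊕ Fin 2 → ℕ) c 0 := by
            intro d _
            rw [Finsupp.weight_apply]
            simp
          refine Sf1_aevalw _ _ hz _ ?_
          rintro (k | k)
          · exact isWeightedHomogeneous_C _ _
          · exact isWeightedHomogeneous_X ℂ
              (Sum.elim (fun _ => 1) (fun _ => 0) : Fin 2 ⊕ Fin 2 → ℕ) (Sum.inr k)
        have hq2 : IsWeightedHomogeneous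
            (Sum.elim (fun _ => 0) (fun _ => 1) : Fin 2 ⊕ Fin 2 → ℕ) q e := by
          refine Sf1_aevalw _ _ h2 _ ?_
          rintro (k | k)
          · exact isWeightedHomogeneous_C _ _
          · exact isWeightedHomogeneous_X ℂ
              (Sum.elim (fun _ => 0) (fun _ => 1) : Fin 2 ⊕ Fin 2 → ℕ) (Sum.inr k)
        refine le_trans (Finset.sum_le_sum fun m _ => ?_)
          (Sf1_binary (y j) y' hy' hy0' e q hq1 hq2 hq0)
        let σ0 : MvPolynomial (Fin 2 ⊕ Fin 2) ℂ →+* MvPolynomial (Fin 2 ⊕ Fin 2) ℂ :=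
          eval₂Hom C (Sum.elim (fun _ => 0) (fun k => X (Sum.inr k)))
        have h4 : (Polynomial.mapRingHom σ0).comp (mltH (y j) (y' m)) =
            (mltH (y j) (y' m)).comp (aeval (Sum.elim (fun k => C (y j k))
              (fun k => X (Sum.inr k)) :
            Fin 2 ⊕ Fin 2 → MvPolynomial (Fin 2 ⊕ Fin 2) ℂ)).toRingHom := by
          apply ringHom_ext
          · intro r
            simp [mltH, σ0, algebraMap_eq]
          · intro x
            rcases x with k | k
            · simp [mltH, σ0]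
            · simp [mltH, σ0]
        have h5 : (mltH (y j) (y' m) c).map σ0 = mltH (y j) (y' m) q := RingHom.congr_fun h4 c
        rw [mlt, mlt]
        apply Polynomial.natTrailingDegree_le_of_ne_zero
        intro h6
        have h7 : (mltH (y j) (y' m) q).coeff (mltH (y j) (y' m) q).natTrailingDegree = 0 := by
          rw [← h5] at h6 ⊢
          rw [Polynomial.coeff_map, h6, map_zero]
        have h8 : mltH (y j) (y' m) q ≠ 0 := by
          rw [← map_zero (mltH (y j) (y' m))]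
          exact fun e => hq0 (mltH_injective _ _ e)
        exact Polynomial.trailingCoeff_nonzero_iff_nonzero.2 h8 h7
      have h4 : ∑ j, ∑ m, mlt (y j) (y' m) c ≤ ∑ _j : J, e :=
        Finset.sum_le_sum fun j _ => h3 j
      rw [Finset.sum_const, Finset.card_univ, smul_eq_mul] at h4
      omega

end GP80
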