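import Mathlib
import Pool.Agent.H80.GP.GDefs
import Pool.Agent.H80.GP.NDefs
import Pool.Agent.H80.GP.Ord

/-!
# Row Sf3 (MP_87ed0a_GP): semicontinuity of the orders along chords  (about 200 lines)

Claim: if `surfSum x0 π ≤ B` for all nonzero homogeneous `π` of degree `δ`, then the same holds for all `x` near `x0`.
Let `D = Finset.finsuppAntidiag (univ : Finset (Fin 4)) δ` (monomials of degree `δ`), `pol p = ∑_{m ∈ D} monomial m (p m)` for `p : D → ℂ`: exactly the homogeneous polynomials of degree `δ`; `pol p ≠ 0` iff `p ≠ 0`.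
For `M : pairs → Fin (δ + 1)` (functions on `(Fin a × Fin b)^2`) let `Q_M = {x | ∃ p, ‖p‖ = 1 ∧ ∀ (s, s'), ∀ i < M (s, s'), ∀ μ, coeff μ ((lineH x_s x_s' (pol p)).coeff i) = 0}`.
`Q_M` is closed: the coefficients are continuous functions of `(x, p)` and the unit sphere is compact (`isClosedMap_snd_of_compactSpace` or sequential compactness).
Continuity: call `f : Y → Polynomial (MvPolynomial σ ℂ)` good if `y ↦ coeff μ ((f y).coeff i)` is continuous for all `i, μ`; constants are good, sums and products of good functions are good (`Polynomial.coeff_mul`, `MvPolynomial.coeff_mul` are sums over fixed finite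
antidiagonals), so powers and finite products; `lineH z z' (monomial m r) = C(C r) * ∏_l (generator_l)^(m l)` with good generators.
`lineH .. (pol p)` has `M ≤` trailing degree iff the coefficients with `i < M` vanish (`pol p ≠ 0`, `lineH_injective`, `Polynomial.le_natTrailingDegree`...).  So for `x ∈ Q_M` there is a nonzero `π` with `M (s,s') ≤ ordL x_s x_s' π`; if the sum of `M` over the generic
pairs is `> B` then `x0 ∉ Q_M`.  There are finitely many `M`; for `x` outside the finitely many closed sets `Q_M` with sum `> B`, and `π ≠ 0` homogeneous of degree `δ`: put `M (s,s') = ordL x_s x_s' π ≤ δ` (`ordL_le`), normalise `π` (`ordL` does not change under nonzero scalars): `x ∈ Q_M`, so the sum is `≤ B`.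
-/

open Filter Topology

namespace GP80

open MvPolynomial

/-- all coefficients are continuous -/
def Sf3_good {Y : Type} [TopologicalSpace Y]
    (f : Y → Polynomial (MvPolynomial (Fin 2 ⊕ Fin 4) ℂ)) : Prop :=
  ∀ (i : ℕ) (μ : Fin 2 ⊕ Fin 4 →₀ ℕ), Continuous fun y => coeff μ ((f y).coeff i)

theorem Sf3_const {Y : Type} [TopologicalSpace Y]
    (g : Polynomial (MvPolynomial (Fin 2 ⊕ Fin 4) ℂ)) : Sf3_good (fun _ : Y => g) :=
  fun _ _ => continuous_const

theorem Sf3_add {Y : Type} [TopologicalSpace Y]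
    {f g : Y → Polynomial (MvPolynomial (Fin 2 ⊕ Fin 4) ℂ)} (hf : Sf3_good f) (hg : Sf3_good g) :
    Sf3_good (fun y => f y + g y) := by
  intro i μ
  simp only [Polynomial.coeff_add, coeff_add]
  exact (hf i μ).add (hg i μ)

theorem Sf3_mul {Y : Type} [TopologicalSpace Y]
    {f g : Y → Polynomial (MvPolynomial (Fin 2 ⊕ Fin 4) ℂ)} (hf : Sf3_good f) (hg : Sf3_good g) :
    Sf3_good (fun y => f y * g y) := by
  classical
  intro i μ
  simp only [Polynomial.coeff_mul, coeff_sum, coeff_mul]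
  exact continuous_finsetSum _ fun a _ => continuous_finsetSum _ fun b _ =>
    (hf a.1 b.1).mul (hg a.2 b.2)

theorem Sf3_pow {Y : Type} [TopologicalSpace Y]
    {f : Y → Polynomial (MvPolynomial (Fin 2 ⊕ Fin 4) ℂ)} (hf : Sf3_good f) (n : ℕ) :
    Sf3_good (fun y => f y ^ n) := by
  induction n with
  | zero =>
    simp only [pow_zero]
    exact Sf3_const 1
  | succ n ih =>
    simp only [pow_succ]
    exact Sf3_mul ih hf

theorem Sf3_prod {Y ι : Type} [TopologicalSpace Y] (s : Finset ι)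
    {f : ι → Y → Polynomial (MvPolynomial (Fin 2 ⊕ Fin 4) ℂ)} (hf : ∀ i, Sf3_good (f i)) :
    Sf3_good (fun y => ∏ i ∈ s, f i y) := by
  classical
  induction s using Finset.induction_on with
  | empty =>
    simp only [Finset.prod_empty]
    exact Sf3_const 1
  | insert a s ha ih =>
    simp only [Finset.prod_insert ha]
    exact Sf3_mul (hf a) ih

theorem Sf3_sum {Y ι : Type} [TopologicalSpace Y] (s : Finset ι)
    {f : ι → Y → Polynomial (MvPolynomial (Fin 2 ⊕ Fin 4) ℂ)} (hf : ∀ i, Sf3_good (f i)) :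
    Sf3_good (fun y => ∑ i ∈ s, f i y) := by
  classical
  induction s using Finset.induction_on with
  | empty =>
    simp only [Finset.sum_empty]
    exact Sf3_const 0
  | insert a s ha ih =>
    simp only [Finset.sum_insert ha]
    exact Sf3_add (hf a) ih

theorem Sf3_CC {Y : Type} [TopologicalSpace Y] {g : Y → ℂ} (hg : Continuous g) :
    Sf3_good (fun y => Polynomial.C (C (g y) : MvPolynomial (Fin 2 ⊕ Fin 4) ℂ)) := by
  classical
  intro i μ
  by_cases hi : i = 0
  · subst hi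
    simp only [Polynomial.coeff_C_zero, coeff_C]
    by_cases hμ : 0 = μ
    · simp only [if_pos hμ]
      exact hg
    · simp only [if_neg hμ]
      exact continuous_const
  · simp only [Polynomial.coeff_C_of_ne_zero hi, coeff_zero]
    exact continuous_const

/-- the monomials of degree `δ` -/
abbrev Sf3_D (δ : ℕ) : Type :=
  {m : Fin 4 →₀ ℕ // m ∈ Finset.finsuppAntidiag (Finset.univ : Finset (Fin 4)) δ}

/-- polynomial with given coefficients -/
noncomputable def Sf3_pol (δ : ℕ) (p : Sf3_D δ → ℂ) : RR := ∑ m, monomial m.1 (p m)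

theorem Sf3_line {Y : Type} [TopologicalSpace Y] {z z' : Y → Fin 4 → ℂ} (hz : Continuous z)
    (hz' : Continuous z') {δ : ℕ} {p : Y → Sf3_D δ → ℂ} (hp : Continuous p) :
    Sf3_good (fun y => lineH (z y) (z' y) (Sf3_pol δ (p y))) := by
  have h1 : ∀ y, lineH (z y) (z' y) (Sf3_pol δ (p y)) =
      ∑ m : Sf3_D δ, Polynomial.C (C (p y m)) * ∏ l : Fin 4,
        (Polynomial.C (X (Sum.inl 0)) * Polynomial.C (C (z y l)) +
          Polynomial.C (X (Sum.inl 1)) * Polynomial.C (C (z' y l)) +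
          Polynomial.X * Polynomial.C (X (Sum.inr l))) ^ (m.1 l) := by
    intro y
    unfold Sf3_pol
    rw [map_sum]
    refine Finset.sum_congr rfl fun m _ => ?_
    unfold lineH
    rw [eval₂Hom_monomial, Finsupp.prod_fintype _ _ (fun i => pow_zero _)]
    refine congrArg₂ (fun a b => a * b) rfl (Finset.prod_congr rfl fun l _ => ?_)
    rw [map_add, map_mul, map_mul]
  have h2 : (fun y => lineH (z y) (z' y) (Sf3_pol δ (p y))) = fun y =>
      ∑ m : Sf3_D δ, Polynomial.C (C (p y m)) * ∏ l : Fin 4,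
        (Polynomial.C (X (Sum.inl 0)) * Polynomial.C (C (z y l)) +
          Polynomial.C (X (Sum.inl 1)) * Polynomial.C (C (z' y l)) +
          Polynomial.X * Polynomial.C (X (Sum.inr l))) ^ (m.1 l) := funext h1
  rw [h2]
  refine Sf3_sum _ fun m => Sf3_mul (Sf3_CC ((continuous_apply m).comp hp)) ?_
  refine Sf3_prod _ fun l => Sf3_pow ?_ _
  refine Sf3_add (Sf3_add (Sf3_mul (Sf3_const _) (Sf3_CC ((continuous_apply l).comp hz)))
    (Sf3_mul (Sf3_const _) (Sf3_CC ((continuous_apply l).comp hz')))) (Sf3_const _)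

theorem Sf3_usc {Y : Type} [TopologicalSpace Y] {z z' : Y → Fin 4 → ℂ} (hz : Continuous z)
    (hz' : Continuous z') {δ : ℕ} {p : Y → Sf3_D δ → ℂ} (hp : Continuous p) (y0 : Y)
    (h0 : Sf3_pol δ (p y0) ≠ 0) :
    ∀ᶠ y in 𝓝 y0, ordL (z y) (z' y) (Sf3_pol δ (p y)) ≤
      ordL (z y0) (z' y0) (Sf3_pol δ (p y0)) := by
  have hg := Sf3_line hz hz' hp
  have h1 : lineH (z y0) (z' y0) (Sf3_pol δ (p y0)) ≠ 0 := Ord_ne _ _ h0
  have h2 : (lineH (z y0) (z' y0) (Sf3_pol δ (p y0))).coeff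
      (ordL (z y0) (z' y0) (Sf3_pol δ (p y0))) ≠ 0 := by
    have h3 := Polynomial.trailingCoeff_nonzero_iff_nonzero.2 h1
    exact h3
  obtain ⟨μ, hμ⟩ := MvPolynomial.ne_zero_iff.1 h2
  have h4 := (hg (ordL (z y0) (z' y0) (Sf3_pol δ (p y0))) μ).continuousAt (x := y0)
  have h5 := h4.eventually_ne hμ
  refine h5.mono fun y hy => ?_
  refine Polynomial.natTrailingDegree_le_of_ne_zero ?_
  intro h6
  rw [h6, coeff_zero] at hy
  exact hy rfl

theorem Sf3_coeff (δ : ℕ) (p : Sf3_D δ → ℂ) (m : Sf3_D δ) : coeff m.1 (Sf3_pol δ p) = p m := by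
  classical
  unfold Sf3_pol
  rw [coeff_sum, Finset.sum_eq_single m]
  · rw [coeff_monomial, if_pos rfl]
  · intro m' _ hm
    rw [coeff_monomial, if_neg]
    intro h
    exact hm (Subtype.ext h)
  · intro h
    exact absurd (Finset.mem_univ m) h

theorem Sf3_ne (δ : ℕ) {p : Sf3_D δ → ℂ} (hp : p ≠ 0) : Sf3_pol δ p ≠ 0 := by
  intro h
  apply hp
  funext m
  rw [← Sf3_coeff δ p m, h, coeff_zero, Pi.zero_apply]

theorem Sf3_eq (δ : ℕ) {π : RR} (hπ : π.IsHomogeneous δ) :
    π = Sf3_pol δ (fun m => coeff m.1 π) := by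
  classical
  ext m
  by_cases hm : m ∈ Finset.finsuppAntidiag (Finset.univ : Finset (Fin 4)) δ
  · exact (Sf3_coeff δ (fun m => coeff m.1 π) ⟨m, hm⟩).symm
  · have h1 : coeff m π = 0 := by
      refine hπ.coeff_eq_zero fun h => hm ?_
      rw [Finset.mem_finsuppAntidiag]
      refine ⟨?_, Finset.subset_univ _⟩
      rw [← h, Finsupp.degree_eq_sum]
    rw [h1]
    unfold Sf3_pol
    rw [coeff_sum]
    symm
    refine Finset.sum_eq_zero fun m' _ => ?_
    rw [coeff_monomial, if_neg]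
    intro h
    exact hm (h ▸ m'.2)

theorem Sf3_hom (δ : ℕ) (p : Sf3_D δ → ℂ) : (Sf3_pol δ p).IsHomogeneous δ := by
  unfold Sf3_pol
  refine IsHomogeneous.sum _ _ _ fun m _ => ?_
  refine isHomogeneous_monomial _ ?_
  have h := (Finset.mem_finsuppAntidiag.1 m.2).1
  rw [Finsupp.degree_eq_sum]
  exact h

theorem Sf3_scale {a b : ℕ} (x : Fin a → Fin b → Fin 4 → ℂ) {c : ℂ} (hc : c ≠ 0) {π : RR}
    (hπ : π ≠ 0) : surfSum x (C c * π) = surfSum x π := by
  unfold surfSum
  have hC : (C c : RR) ≠ 0 := by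
    intro h
    exact hc (C_eq_zero.1 h)
  refine Finset.sum_congr rfl fun s _ => Finset.sum_congr rfl fun s' _ => ?_
  rw [ordL_mul _ _ hC hπ, Ord_C, zero_add]

theorem surf_near {a b : ℕ} (x0 : Fin a → Fin b → Fin 4 → ℂ) (δ B : ℕ)
    (h0 : ∀ π : RR, π.IsHomogeneous δ → π ≠ 0 → surfSum x0 π ≤ B) :
    ∀ᶠ x in 𝓝 x0, ∀ π : RR, π.IsHomogeneous δ → π ≠ 0 → surfSum x π ≤ B := by
  have hK : IsCompact (Metric.sphere (0 : Sf3_D δ → ℂ) 1) := isCompact_sphere _ _
  have h1 : ∀ p ∈ Metric.sphere (0 : Sf3_D δ → ℂ) 1,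
      ∀ᶠ y : (Fin a → Fin b → Fin 4 → ℂ) × (Sf3_D δ → ℂ) in 𝓝 (x0, p),
        surfSum y.1 (Sf3_pol δ y.2) ≤ B := by
    intro p hp
    have hp0 : p ≠ 0 := by
      intro h
      rw [h, mem_sphere_zero_iff_norm, norm_zero] at hp
      exact zero_ne_one hp
    have h2 : ∀ᶠ y : (Fin a → Fin b → Fin 4 → ℂ) × (Sf3_D δ → ℂ) in 𝓝 (x0, p),
        ∀ s s' : Fin a × Fin b, ordL (y.1 s.1 s.2) (y.1 s'.1 s'.2) (Sf3_pol δ y.2) ≤
          ordL (x0 s.1 s.2) (x0 s'.1 s'.2) (Sf3_pol δ p) := by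
      refine Filter.eventually_all.2 fun s => Filter.eventually_all.2 fun s' => ?_
      exact Sf3_usc (Y := (Fin a → Fin b → Fin 4 → ℂ) × (Sf3_D δ → ℂ))
        (z := fun y => y.1 s.1 s.2) (z' := fun y => y.1 s'.1 s'.2) (p := fun y => y.2)
        (by fun_prop) (by fun_prop) continuous_snd (x0, p) (Sf3_ne δ hp0)
    refine h2.mono fun y hy => le_trans ?_ (h0 (Sf3_pol δ p) (Sf3_hom δ p) (Sf3_ne δ hp0))
    unfold surfSum
    refine Finset.sum_le_sum fun s _ => Finset.sum_le_sum fun s' _ => ?_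
    split_ifs
    · exact hy s s'
    · exact le_rfl
  have h2 := hK.eventually_forall_of_forall_eventually
    (P := fun (x : Fin a → Fin b → Fin 4 → ℂ) (p : Sf3_D δ → ℂ) =>
      surfSum x (Sf3_pol δ p) ≤ B) h1
  refine h2.mono fun x hx π hπ hπ0 => ?_
  obtain ⟨p, hp⟩ : ∃ p : Sf3_D δ → ℂ, π = Sf3_pol δ p := ⟨_, Sf3_eq δ hπ⟩
  have hp0 : p ≠ 0 := by
    intro h
    apply hπ0
    rw [hp, h]
    unfold Sf3_pol
    simp
  have hn : ‖p‖ ≠ 0 := norm_ne_zero_iff.2 hp0
  have hc : ((‖p‖ : ℂ))⁻¹ ≠ 0 := inv_ne_zero (by exact_mod_cast hn)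
  have h3 := hx (((‖p‖ : ℂ))⁻¹ • p) (by
    rw [mem_sphere_zero_iff_norm, norm_smul, norm_inv, Complex.norm_real, norm_norm,
      inv_mul_cancel₀ hn])
  have h4 : Sf3_pol δ (((‖p‖ : ℂ))⁻¹ • p) = C ((‖p‖ : ℂ))⁻¹ * π := by
    rw [hp]
    unfold Sf3_pol
    rw [Finset.mul_sum]
    refine Finset.sum_congr rfl fun m _ => ?_
    rw [C_mul_monomial, Pi.smul_apply, smul_eq_mul]
  rw [h4, Sf3_scale x hc hπ0] at h3
  exact h3

end GP80
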