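import Mathlib
import Pool.Agent.H3.GP.Defs
import Pool.Agent.H3.GP.OPN
import Pool.Agent.H80.GP.GDefs
import Pool.Agent.H80.GP.NDefs
import Pool.Agent.H80.GP.Nr1
import Pool.Agent.H80.GP.Nr2
import Pool.Agent.H80.GP.Sf2
import Pool.Agent.H80.GP.Sf3

/-!
# Row Nok (MP_87ed0a_GP): assembly of the near-grid conditions; coordinates; general position  (about 150 lines)

* `near_ok`: `co`: continuity; `ind`: `OPN`; `pl`: `near_planes`; `ch`: `near_chords`; `sf`: for each `δ ≤ Bd` (finite) `surf_near` with `surf_exact`.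
* `geom_of_near`: pairwise independence of two vectors with different indices: they are two of four independent vectors (`ind`, using another row or column; `a, b ≥ 2`); span: four independent vectors of `ℂ^4`
  (`LinearIndependent.span_eq_top_of_card_eq_finrank`).
* `exists_coords`: for finitely many nonzero vectors `y s` of `ℂ^4` there is an invertible matrix `M` such that all coordinates of all `M y_s` are nonzero: the polynomial `det(M) * ∏_{s,i} (∑_j M_ij y_sj)` in the 16 entries of `M` is nonzero, so it has a nonzero value (`MvPolynomial.funext`).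
* `gridVec_mulVec`: `GridVec` is preserved by an invertible matrix.
-/

open Filter Topology Pool.Agent.H3.GP

namespace GP80

open MvPolynomial

theorem near_ok {a b : ℕ} (ha : 2 ≤ a) (hb : 2 ≤ b) (x0 : Fin a → Fin b → Fin 4 → ℂ)
    (h0 : GridVec a b x0) (hc : ∀ k m i, x0 k m i ≠ 0) (Bd : ℕ) :
    ∀ᶠ x in 𝓝 x0, NearOK a b x Bd := by
  have hco : ∀ᶠ x in 𝓝 x0, ∀ k m i, x k m i ≠ 0 := by
    rw [Filter.eventually_all]
    intro k
    rw [Filter.eventually_all]
    intro m
    rw [Filter.eventually_all]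
    intro i
    have h1 : Continuous (fun x : Fin a → Fin b → Fin 4 → ℂ => x k m i) :=
      (continuous_apply i).comp ((continuous_apply m).comp (continuous_apply k))
    exact h1.continuousAt.eventually_ne (hc k m i)
  have hsf : ∀ᶠ x in 𝓝 x0, ∀ δ : Fin (Bd + 1), ∀ π : RR, π.IsHomogeneous (δ : ℕ) → π ≠ 0 →
      surfSum x π ≤ (a - 1) * (a * b) * (δ : ℕ) := by
    rw [Filter.eventually_all]
    intro δ
    exact surf_near x0 δ _ (fun π hπ h => surf_exact ha hb x0 h0 hπ h)
  filter_upwards [hco, OPN a b x0 h0, near_planes ha hb x0 h0, near_chords ha hb x0 h0, hsf]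
    with x h1 h2 h3 h4 h5
  exact ⟨h1, h2, h3, h4, fun δ hδ π hπ h => h5 ⟨δ, Nat.lt_succ_of_le hδ⟩ π hπ h⟩

theorem Nok_pair {a b : ℕ} (ha : 2 ≤ a) (hb : 2 ≤ b) (x : Fin a → Fin b → Fin 4 → ℂ)
    (h : ∀ k k' j j', k ≠ k' → j ≠ j' →
      LinearIndependent ℂ ![x k j, x k j', x k' j, x k' j'])
    (k k' : Fin a) (j j' : Fin b) (hne : (k, j) ≠ (k', j')) :
    LinearIndependent ℂ ![x k j, x k' j'] := by
  by_cases hk : k = k'
  · subst hk
    have hj : j ≠ j' := fun h1 => hne (by rw [h1])
    have : Nontrivial (Fin a) := Fin.nontrivial_iff_two_le.2 ha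
    obtain ⟨k2, hk2⟩ := exists_ne k
    have h1 := h k k2 j j' hk2.symm hj
    have h2 := h1.comp ![0, 1] (by decide)
    convert h2 using 1
    ext i
    fin_cases i <;> rfl
  · by_cases hj : j = j'
    · subst hj
      have : Nontrivial (Fin b) := Fin.nontrivial_iff_two_le.2 hb
      obtain ⟨j2, hj2⟩ := exists_ne j
      have h1 := h k k' j j2 hk hj2.symm
      have h2 := h1.comp ![0, 2] (by decide)
      convert h2 using 1
      ext i
      fin_cases i <;> rfl
    · have h1 := h k k' j j' hk hj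
      have h2 := h1.comp ![0, 3] (by decide)
      convert h2 using 1
      ext i
      fin_cases i <;> rfl

theorem geom_of_near {a b : ℕ} (ha : 2 ≤ a) (hb : 2 ≤ b) {x : Fin a → Fin b → Fin 4 → ℂ} {Bd : ℕ}
    (h : NearOK a b x Bd) : Geom (fun s : Fin a × Fin b => x s.1 s.2) := by
  refine ⟨fun s i => h.co s.1 s.2 i, ?_, ?_⟩
  · rintro ⟨k, j⟩ ⟨k', j'⟩ hne
    exact Nok_pair ha hb x h.ind k k' j j' hne
  · have : Nontrivial (Fin a) := Fin.nontrivial_iff_two_le.2 ha
    have : Nontrivial (Fin b) := Fin.nontrivial_iff_two_le.2 hb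
    obtain ⟨k, k', hk⟩ := exists_pair_ne (Fin a)
    obtain ⟨j, j', hj⟩ := exists_pair_ne (Fin b)
    have h1 := h.ind k k' j j' hk hj
    have h2 : Submodule.span ℂ (Set.range ![x k j, x k j', x k' j, x k' j']) = ⊤ :=
      h1.span_eq_top_of_card_eq_finrank (by simp)
    rw [eq_top_iff, ← h2, Submodule.span_le]
    rintro _ ⟨i, rfl⟩
    fin_cases i
    · exact Submodule.subset_span ⟨(k, j), rfl⟩
    · exact Submodule.subset_span ⟨(k, j'), rfl⟩
    · exact Submodule.subset_span ⟨(k', j), rfl⟩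
    · exact Submodule.subset_span ⟨(k', j'), rfl⟩

/-- the polynomial with coefficient vector `y` -/
noncomputable def Nok_poly (y : Fin 4 → ℂ) : Polynomial ℂ :=
  ∑ j : Fin 4, Polynomial.C (y j) * Polynomial.X ^ (j : ℕ)

theorem Nok_poly_coeff (y : Fin 4 → ℂ) (j : Fin 4) : (Nok_poly y).coeff (j : ℕ) = y j := by
  unfold Nok_poly
  rw [Polynomial.finsetSum_coeff, Finset.sum_eq_single j]
  · simp
  · intro b _ hb
    rw [Polynomial.coeff_C_mul, Polynomial.coeff_X_pow, if_neg, mul_zero]
    intro h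
    exact hb (Fin.ext h.symm)
  · intro h
    exact absurd (Finset.mem_univ _) h

theorem Nok_poly_ne (y : Fin 4 → ℂ) (hy : y ≠ 0) : Nok_poly y ≠ 0 := by
  intro h
  apply hy
  ext j
  rw [← Nok_poly_coeff y j, h]
  simp

theorem exists_coords {I : Type} [Fintype I] (y : I → Fin 4 → ℂ) (hy : ∀ s, y s ≠ 0) :
    ∃ M : Matrix (Fin 4) (Fin 4) ℂ, IsUnit M.det ∧ ∀ s i, M.mulVec (y s) i ≠ 0 := by
  classical
  set S : Set ℂ := {t | ∀ s, (Nok_poly (y s)).eval t ≠ 0} with hS
  have hfin : (Sᶜ).Finite := by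
    have h1 : Sᶜ = ⋃ s, {t | (Nok_poly (y s)).IsRoot t} := by
      ext t
      simp only [hS, Set.mem_compl_iff, Set.mem_ofPred_eq, not_forall, not_not, Set.mem_iUnion,
        Polynomial.IsRoot.def]
    rw [h1]
    exact Set.finite_iUnion fun s => Polynomial.finite_setOfPred_isRoot (Nok_poly_ne _ (hy s))
  have hinf : S.Infinite := by
    have := hfin.infinite_compl
    rwa [compl_compl] at this
  obtain ⟨T, hT, hcard⟩ := hinf.exists_subset_card_eq 4
  set e := (T.equivFinOfCardEq hcard).symm with he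
  set t : Fin 4 → ℂ := fun i => (e i : ℂ) with ht
  have hinj : Function.Injective t := fun i j h => e.injective (Subtype.ext h)
  refine ⟨Matrix.vandermonde t, ?_, ?_⟩
  · rw [isUnit_iff_ne_zero]
    exact Matrix.det_vandermonde_ne_zero_iff.2 hinj
  · intro s i
    have h1 : t i ∈ S := hT (e i).2
    have h2 := h1 s
    have h3 : (Matrix.vandermonde t).mulVec (y s) i = (Nok_poly (y s)).eval (t i) := by
      unfold Nok_poly
      rw [Polynomial.eval_finsetSum]
      simp only [Matrix.mulVec, dotProduct, Matrix.vandermonde_apply, Polynomial.eval_mul,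
        Polynomial.eval_C, Polynomial.eval_pow, Polynomial.eval_X]
      refine Finset.sum_congr rfl fun j _ => mul_comm _ _
    rw [h3]
    exact h2

theorem gridVec_mulVec {a b : ℕ} (x : Fin a → Fin b → Fin 4 → ℂ) (h : GridVec a b x)
    (M : Matrix (Fin 4) (Fin 4) ℂ) (hM : IsUnit M.det) :
    GridVec a b (fun k m => M.mulVec (x k m)) := by
  have hinj : Function.Injective M.mulVec :=
    Matrix.mulVec_injective_iff_isUnit.2 ((Matrix.isUnit_iff_isUnit_det M).2 hM)
  have hker : LinearMap.ker M.mulVecLin = ⊥ := LinearMap.ker_eq_bot.2 hinj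
  have hspan : ∀ u v w : Fin 4 → ℂ, u ∈ Submodule.span ℂ {v, w} →
      M.mulVec u ∈ Submodule.span ℂ {M.mulVec v, M.mulVec w} := by
    intro u v w hu
    have h1 : M.mulVecLin u ∈ (Submodule.span ℂ {v, w}).map M.mulVecLin :=
      Submodule.mem_map_of_mem hu
    rw [Submodule.map_span, Set.image_pair] at h1
    exact h1
  refine ⟨?_, ?_, ?_⟩
  · intro k k' j j' hk hj
    have h1 := (h.ind k k' j j' hk hj).map' M.mulVecLin hker
    have h2 : (![M.mulVec (x k j), M.mulVec (x k j'), M.mulVec (x k' j), M.mulVec (x k' j')] :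
        Fin 4 → Fin 4 → ℂ) = M.mulVecLin ∘ ![x k j, x k j', x k' j, x k' j'] := by
      funext i
      fin_cases i <;> rfl
    show LinearIndependent ℂ
      ![M.mulVec (x k j), M.mulVec (x k j'), M.mulVec (x k' j), M.mulVec (x k' j')]
    rw [h2]
    exact h1
  · intro k j₀ j₁ j hj
    exact hspan _ _ _ (h.col k j₀ j₁ j hj)
  · intro j k₀ k₁ k hk
    exact hspan _ _ _ (h.row j k₀ k₁ k hk)

end GP80
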