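import Mathlib
import Pool.Agent.H80.GP.GDefs
import Pool.Agent.H80.GP.NDefs
import Pool.Agent.H80.GP.Cmd
import Pool.Agent.H80.GP.Ord
import Pool.Agent.H80.GP.Efc
import Pool.Agent.H80.GP.Fln
import Pool.Agent.H80.GP.Gsm
import Pool.Agent.H80.GP.Nok

/-!
# Row Dat (MP_87ed0a_GP): the combinatorial data of a geproci set near a grid  (about 220 lines)

`z s = x s.1 s.2`, `Geom z` by `geom_of_near`.
Lemma `cdata_aux`: for a `Glob` with `f + f' ≤ Bd` let `T, dl, om, ..` be as in `glob_sum`, `P := {π // π ∈ T}` (all data restricted to `P`; sums over `T` = sums over `P`, `Finset.sum_coe_sort`/`Finset.sum_attach`), `vt π := univ.filter (dz (z s) π = 0)` (classical), `oL π s s' := ordL (z s) (z s') π`, `hh π := ` the coefficients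
`fun i => coeff (Finsupp.single i 1) π`.  Then all fields of `CombD` hold for `jj' ∈ {jj, 0}` and `eF`, provided the fields `star`, `loss`, `chord` hold (take them as hypotheses of the lemma):
 - `tail`: `Nat.card {s // ..} = (vt π).card`.
 - `surf`: `hx.sf (dl π)`, `surfSum` unfolds to the double sum.
 - `plane`: `dl π = 1`: `π = ∑ h_i X_i` with `h = hh π ≠ 0`, `dz (z s) π = C (eval (z s) π)` (`dz_lin`), `eval (z s) π = ∑ h_i z_i`; so `s ∈ vt π` iff `∑ h_i x s.1 s.2 i = 0`; `hx.pl`.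
 - `oLp`: `ordL_lin`.   - `nonpl`: `vertex` (two different vertices are independent, `Geom.ind`; `dl π ≥ 2`).
 - `two`: three points `s, s', s''` with `s, s'` generic are independent (`hx.ch`); two linear forms vanishing on the same 3-dimensional space are proportional, so the elements of `T` are associated, hence equal.
Main theorem, three cases.
 (A) `c = d`: `jj' = 0`, `eF = f - c`; `chord`: the last item of `glob_sum` (the hypothesis `c < d → ..` is void).
 (B) `c < d`, `f = c` (`efc`): `jj' = 0`, `eF = 0 = f - c`; `chord`: last item with `F_line_ne` (`hx.ch` gives that there is no third point, for a generic pair).  (`subst`.)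
 (C) `c < d`, `d = c + 1`, `c < f`, and a new `Glob z c d f f F G'` (`efc`): apply `glob_sum` to it (`f + f ≤ Bd`), `jj' = jj`, `eF = f - c`: `∑ dl jj + c + d + ∑ dl g = 2 f` gives `∑ dl jj + 1 + ∑ dl g = 2 f - 2 c = 2 eF`; `chord`: item `chord_loss`.
-/

namespace GP80

open MvPolynomial

theorem Dat_prop {z1 z2 z3 : Fin 4 → ℂ} (hli : LinearIndependent ℂ ![z1, z2, z3])
    {h h' : Fin 4 → ℂ} (hh : h ≠ 0) (h1 : ∑ i, h i * z1 i = 0) (h2 : ∑ i, h i * z2 i = 0)
    (h3 : ∑ i, h i * z3 i = 0) (h1' : ∑ i, h' i * z1 i = 0) (h2' : ∑ i, h' i * z2 i = 0)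
    (h3' : ∑ i, h' i * z3 i = 0) : ∃ r : ℂ, ∀ i, h' i = r * h i := by
  have hlt : Submodule.span ℂ (Set.range ![z1, z2, z3]) ≠ ⊤ := by
    intro h4
    have h5 := finrank_span_eq_card hli
    rw [h4, finrank_top] at h5
    simp at h5
  obtain ⟨v, hv⟩ : ∃ v, v ∉ Submodule.span ℂ (Set.range ![z1, z2, z3]) := by
    by_contra hcon
    push Not at hcon
    exact hlt ((Submodule.eq_top_iff').2 hcon)
  have hli4 : LinearIndependent ℂ (Fin.cons v ![z1, z2, z3] : Fin 4 → Fin 4 → ℂ) :=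
    linearIndependent_finCons.2 ⟨hli, hv⟩
  have hsp := hli4.span_eq_top_of_card_eq_finrank (by simp)
  -- a functional vanishing at the four vectors is zero
  have key : ∀ g : Fin 4 → ℂ, ∑ i, g i * v i = 0 → ∑ i, g i * z1 i = 0 → ∑ i, g i * z2 i = 0 →
      ∑ i, g i * z3 i = 0 → ∀ i, g i = 0 := by
    intro g g0 g1 g2 g3 i
    obtain ⟨ℓ, hℓ⟩ : ∃ ℓ : (Fin 4 → ℂ) →ₗ[ℂ] ℂ, ∀ w, ℓ w = ∑ i, g i * w i := by
      refine ⟨∑ i, g i • LinearMap.proj i, fun w => ?_⟩
      rw [LinearMap.sum_apply]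
      exact Finset.sum_congr rfl fun i _ => rfl
    have h0 : ℓ = 0 := by
      refine LinearMap.ext_on_range hsp fun j => ?_
      rw [hℓ, LinearMap.zero_apply]
      refine Fin.cases ?_ (fun j => ?_) j
      · exact g0
      · fin_cases j
        · exact g1
        · exact g2
        · exact g3
    have h4 := hℓ (Pi.single i 1)
    rw [h0, LinearMap.zero_apply, Finset.sum_eq_single i] at h4
    · rw [Pi.single_eq_same, mul_one] at h4
      exact h4.symm
    · intro j _ hj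
      rw [Pi.single_eq_of_ne hj, mul_zero]
    · intro h5
      exact absurd (Finset.mem_univ i) h5
  have hv0 : ∑ i, h i * v i ≠ 0 := by
    intro h0
    exact hh (funext (key h h0 h1 h2 h3))
  refine ⟨(∑ i, h' i * v i) / ∑ i, h i * v i, fun i => ?_⟩
  obtain ⟨r, hr⟩ : ∃ r, r = (∑ i, h' i * v i) / ∑ i, h i * v i := ⟨_, rfl⟩
  rw [← hr]
  have hlin : ∀ w : Fin 4 → ℂ, ∑ i, (h' i - r * h i) * w i =
      ∑ i, h' i * w i - r * ∑ i, h i * w i := by
    intro w
    rw [Finset.mul_sum, ← Finset.sum_sub_distrib]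
    exact Finset.sum_congr rfl fun i _ => by ring
  have h5 := key (fun i => h' i - r * h i) (by
      show ∑ i, (h' i - r * h i) * v i = 0
      rw [hlin, hr, div_mul_cancel₀ _ hv0, sub_self]) (by
      show ∑ i, (h' i - r * h i) * z1 i = 0
      rw [hlin, h1, h1', mul_zero, sub_zero]) (by
      show ∑ i, (h' i - r * h i) * z2 i = 0
      rw [hlin, h2, h2', mul_zero, sub_zero]) (by
      show ∑ i, (h' i - r * h i) * z3 i = 0
      rw [hlin, h3, h3', mul_zero, sub_zero]) i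
  exact sub_eq_zero.1 h5

theorem Dat_aux {a b Bd : ℕ} {x : Fin a → Fin b → Fin 4 → ℂ} (hx : NearOK a b x Bd) (ha : 2 ≤ a)
    {c d : ℕ} (hac : a < c) (hcd : c ≤ d) (hdb : d < b) (hN : c * d = a * b) {f f' : ℕ}
    (hB : f + f' ≤ Bd) (T : Finset RR) (dl : RR → ℕ) (om : RR → Fin a × Fin b → ℕ)
    (jj g n : RR → ℕ) (lam : RR → ℕ → ℕ) (eF : ℕ)
    (h1 : ∀ π ∈ T, Prime π ∧ π.IsHomogeneous (dl π) ∧ 1 ≤ dl π ∧ dl π ≤ f + f')
    (h2 : ∀ π ∈ T, ∀ π' ∈ T, Associated π π' → π = π')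
    (h3 : ∀ π ∈ T, (∀ s : Fin a × Fin b, dz (x s.1 s.2) π ≠ 0 → om π s = g π) ∧ g π ≤ n π ∧
      (g π < n π → lam π (g π + 1) * (c + d - lam π (g π + 1)) ≤
        Nat.card {s : Fin a × Fin b // dz (x s.1 s.2) π = 0}) ∧
      (∀ s, om π s ≤ n π) ∧
      (∑ i ∈ Finset.Icc 1 (n π), lam π i * (c + d - lam π i) ≤ ∑ s, om π s) ∧
      (∀ i, 1 ≤ i → i ≤ n π → 1 ≤ lam π i) ∧ (∀ i, 1 ≤ i → lam π i < c) ∧
      (∀ i j, 1 ≤ i → i ≤ j → lam π j ≤ lam π i))
    (h4 : ∀ s, ∑ π ∈ T, dl π * om π s + 1 = c + d + ∑ π ∈ T, dl π * g π)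
    (hstar : c * (c - 1) * ∑ π ∈ T, dl π * g π + (d - c) * (c + d - 1) * eF ≤
      ∑ π ∈ T, dl π * ∑ i ∈ Finset.Icc 1 (n π), lam π i * (lam π i - 1))
    (hloss : (∀ π ∈ T, jj π = 0) ∨
      (d = c + 1 ∧ ∑ π ∈ T, dl π * jj π + 1 + ∑ π ∈ T, dl π * g π ≤ 2 * eF))
    (hchord : ∀ s s' : Fin a × Fin b, s.1 ≠ s'.1 → s.2 ≠ s'.2 →
      2 ≤ ∑ π ∈ T, (om π s + jj π) * ordL (x s.1 s.2) (x s'.1 s'.2) π) :
    ∃ (P : Type) (_ : Fintype P) (dl g n jj : P → ℕ) (lam : P → ℕ → ℕ)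
      (om : P → Fin a × Fin b → ℕ) (vt : P → Finset (Fin a × Fin b))
      (oL : P → (Fin a × Fin b) → (Fin a × Fin b) → ℕ) (eF : ℕ) (hh : P → Fin 4 → ℂ),
      CombD a b c d dl g n jj lam om vt oL eF ∧
      ∀ p, dl p = 1 → hh p ≠ 0 ∧ ∀ s ∈ vt p, ∑ i, hh p i * x s.1 s.2 i = 0 := by
  classical
  have hgeom := geom_of_near ha (by omega) hx
  have hrep : ∀ p : {π // π ∈ T}, ∃ α : Fin 4 → ℂ, dl p.1 = 1 →
      p.1 = ∑ i, C (α i) * X i := by
    intro p
    by_cases h5 : dl p.1 = 1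
    · have h6 := (h1 p.1 p.2).2.1
      rw [h5] at h6
      obtain ⟨α, hα⟩ := Ord_linrep h6
      exact ⟨α, fun _ => hα⟩
    · exact ⟨0, fun h => absurd h h5⟩
  choose hh hhh using hrep
  have hne : ∀ p : {π // π ∈ T}, dl p.1 = 1 → hh p ≠ 0 := by
    intro p hp h0
    apply (h1 p.1 p.2).1.ne_zero
    rw [hhh p hp, h0]
    simp
  have hev : ∀ p : {π // π ∈ T}, dl p.1 = 1 → ∀ w : Fin 4 → ℂ,
      eval w p.1 = ∑ i, hh p i * w i := by
    intro p hp w
    conv_lhs => rw [hhh p hp]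
    simp
  have hdz : ∀ p : {π // π ∈ T}, dl p.1 = 1 → ∀ w : Fin 4 → ℂ,
      dz w p.1 = 0 ↔ ∑ i, hh p i * w i = 0 := by
    intro p hp w
    have h6 := (h1 p.1 p.2).2.1
    rw [hp] at h6
    rw [dz_lin w h6, hev p hp w]
    constructor
    · intro h7
      exact C_injective (Fin 4) ℂ (by rw [h7, C_0])
    · intro h7
      rw [h7, C_0]
  have hmem : ∀ (p : {π // π ∈ T}) (s : Fin a × Fin b),
      s ∈ Finset.univ.filter (fun s : Fin a × Fin b => dz (x s.1 s.2) p.1 = 0) ↔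
        dz (x s.1 s.2) p.1 = 0 := by
    intro p s
    simp
  refine ⟨{π // π ∈ T}, inferInstance, fun p => dl p.1, fun p => g p.1, fun p => n p.1,
    fun p => jj p.1, fun p => lam p.1, fun p => om p.1,
    fun p => Finset.univ.filter (fun s : Fin a × Fin b => dz (x s.1 s.2) p.1 = 0),
    fun p s s' => ordL (x s.1 s.2) (x s'.1 s'.2) p.1, eF, hh, ?_, ?_⟩
  · refine
      { a2 := ha
        ac := hac
        cd := hcd
        db := hdb
        N := hN
        dl1 := fun p => (h1 p.1 p.2).2.2.1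
        nv := ?_
        gn := fun p => (h3 p.1 p.2).2.1
        tail := ?_
        omn := fun p => (h3 p.1 p.2).2.2.2.1
        sum := fun p => (h3 p.1 p.2).2.2.2.2.1
        pos := fun p => (h3 p.1 p.2).2.2.2.2.2.1
        up := fun p => (h3 p.1 p.2).2.2.2.2.2.2.1
        anti := fun p => (h3 p.1 p.2).2.2.2.2.2.2.2
        G1 := ?_
        star := ?_
        loss := ?_
        chord := ?_
        surf := ?_
        plane := ?_
        oLp := ?_
        nonpl := ?_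
        two := ?_ }
    · intro p s hs
      rw [hmem] at hs
      exact (h3 p.1 p.2).1 s hs
    · intro p hp
      have h5 := (h3 p.1 p.2).2.2.1 hp
      rwa [Nat.card_eq_fintype_card, Fintype.card_subtype] at h5
    · intro s
      have h5 := h4 s
      rw [← Finset.sum_coe_sort T (fun π => dl π * om π s),
        ← Finset.sum_coe_sort T (fun π => dl π * g π)] at h5
      exact h5
    · have h5 := hstar
      rw [← Finset.sum_coe_sort T (fun π => dl π * g π),
        ← Finset.sum_coe_sort T (fun π => dl π * ∑ i ∈ Finset.Icc 1 (n π),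
          lam π i * (lam π i - 1))] at h5
      exact h5
    · rcases hloss with h5 | ⟨h5, h6⟩
      · exact Or.inl fun p => h5 p.1 p.2
      · right
        refine ⟨h5, ?_⟩
        rw [← Finset.sum_coe_sort T (fun π => dl π * jj π),
          ← Finset.sum_coe_sort T (fun π => dl π * g π)] at h6
        exact h6
    · intro s s' hs hs'
      have h5 := hchord s s' hs hs'
      rw [← Finset.sum_coe_sort T
        (fun π => (om π s + jj π) * ordL (x s.1 s.2) (x s'.1 s'.2) π)] at h5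
      exact h5
    · intro p
      exact hx.sf (dl p.1) ((h1 p.1 p.2).2.2.2.trans hB) p.1 (h1 p.1 p.2).2.1
        (h1 p.1 p.2).1.ne_zero
    · intro p hp
      rcases hx.pl (hh p) (hne p hp) with ⟨l, j, h5⟩ | h5
      · left
        refine ⟨l, j, fun s hs => ?_⟩
        rw [hmem, hdz p hp] at hs
        exact h5 s.1 s.2 hs
      · right
        intro s hs s' hs' hss
        rw [hmem, hdz p hp] at hs hs'
        exact h5 s.1 s.2 s'.1 s'.2 hs hs' hss
    · intro p hp s s' _ _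
      have h6 := (h1 p.1 p.2).2.1
      have hp' : dl p.1 = 1 := hp
      rw [hp'] at h6
      show ordL (x s.1 s.2) (x s'.1 s'.2) p.1 = _
      rw [ordL_lin _ _ h6 (h1 p.1 p.2).1.ne_zero]
      have h7 : (eval (x s.1 s.2) p.1 = 0 ∧ eval (x s'.1 s'.2) p.1 = 0) ↔
          (s ∈ Finset.univ.filter (fun s : Fin a × Fin b => dz (x s.1 s.2) p.1 = 0) ∧
          s' ∈ Finset.univ.filter (fun s : Fin a × Fin b => dz (x s.1 s.2) p.1 = 0)) := by
        rw [hmem, hmem, hdz p hp', hdz p hp', hev p hp', hev p hp']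
      exact if_congr h7 rfl rfl
    · intro p hp
      rw [Finset.card_le_one]
      intro s hs s' hs'
      rw [hmem] at hs hs'
      by_contra hcon
      have h5 := (h1 p.1 p.2).2.2.1
      have hp' : dl p.1 ≠ 1 := hp
      exact vertex (hgeom.ind s s' hcon) (h1 p.1 p.2).1 (h1 p.1 p.2).2.1 (by omega) hs hs'
    · rintro p p' hp hp' hpp s s' s'' hs1 hs2 h5 h6 ⟨m1, m2, m3, m1', m2', m3'⟩
      have hp0 : dl p.1 = 1 := hp
      have hp0' : dl p'.1 = 1 := hp'
      rw [hmem, hdz p hp0] at m1 m2 m3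
      rw [hmem, hdz p' hp0'] at m1' m2' m3'
      have hli := hx.ch s.1 s.2 s'.1 s'.2 s''.1 s''.2 hs1 hs2 h5 h6
      obtain ⟨r, hr⟩ := Dat_prop hli (hne p hp0) m1 m2 m3 m1' m2' m3'
      have h7 : p'.1 = C r * p.1 := by
        conv_lhs => rw [hhh p' hp0']
        conv_rhs => rw [hhh p hp0]
        rw [Finset.mul_sum]
        refine Finset.sum_congr rfl fun i _ => ?_
        rw [hr i, C_mul, mul_assoc]
      have hr0 : r ≠ 0 := by
        intro h8
        apply (h1 p'.1 p'.2).1.ne_zero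
        rw [h7, h8, C_0, zero_mul]
      obtain ⟨u, hu⟩ := (IsUnit.mk0 r hr0).map (C : ℂ →+* RR)
      have h8 : Associated p.1 p'.1 := ⟨u, by rw [hu, h7, mul_comm]⟩
      exact hpp (Subtype.ext (h2 p.1 p.2 p'.1 p'.2 h8))
  · intro p hp
    refine ⟨hne p hp, fun s hs => ?_⟩
    rw [hmem, hdz p hp] at hs
    exact hs

theorem cdata {a b Bd : ℕ} {x : Fin a → Fin b → Fin 4 → ℂ} (hx : NearOK a b x Bd) (ha : 2 ≤ a)
    {c d : ℕ} (hac : a < c) (hcd : c ≤ d) (hdb : d < b) (hN : c * d = a * b) {f f' : ℕ} {F G : BB}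
    (h : Glob (fun s : Fin a × Fin b => x s.1 s.2) c d f f' F G) (hB : f + f' ≤ Bd)
    (hB2 : f + f ≤ Bd) :
    ∃ (P : Type) (_ : Fintype P) (dl g n jj : P → ℕ) (lam : P → ℕ → ℕ)
      (om : P → Fin a × Fin b → ℕ) (vt : P → Finset (Fin a × Fin b))
      (oL : P → (Fin a × Fin b) → (Fin a × Fin b) → ℕ) (eF : ℕ) (hh : P → Fin 4 → ℂ),
      CombD a b c d dl g n jj lam om vt oL eF ∧
      ∀ p, dl p = 1 → hh p ≠ 0 ∧ ∀ s ∈ vt p, ∑ i, hh p i * x s.1 s.2 i = 0 := by
  classical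
  have hgeom := geom_of_near ha (by omega) hx
  have hnon : Nonempty (Fin a × Fin b) := ⟨(⟨0, by omega⟩, ⟨0, by omega⟩)⟩
  have hpair : ∀ s s' : Fin a × Fin b, s.1 ≠ s'.1 → s ≠ s' := by
    intro s s' h1 h2
    exact h1 (by rw [h2])
  rcases hcd.eq_or_lt with hcd' | hcd'
  · obtain ⟨T, dl, om, jj, g, n, lam, _, h1, h2, h3, h4, _, h6, _, h8⟩ :=
      glob_sum (fun s : Fin a × Fin b => x s.1 s.2) hgeom h
    refine Dat_aux hx ha hac hcd hdb hN hB T dl om (fun _ => 0) g n lam (f - c) h1 h2 h3 h4 h6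
      (Or.inl fun _ _ => rfl) ?_
    intro s s' hs hs'
    have h9 := h8 s s' (hpair s s' hs) (fun h10 => absurd hcd' (Nat.ne_of_lt h10))
    simpa using h9
  · rcases efc (fun s : Fin a × Fin b => x s.1 s.2) h hcd' with hf | ⟨hd, hf, G', h'⟩
    · subst hf
      obtain ⟨T, dl, om, jj, g, n, lam, _, h1, h2, h3, h4, _, h6, _, h8⟩ :=
        glob_sum (fun s : Fin a × Fin b => x s.1 s.2) hgeom h
      refine Dat_aux hx ha hac hcd hdb hN hB T dl om (fun _ => 0) g n lam _ h1 h2 h3 h4 h6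
        (Or.inl fun _ _ => rfl) ?_
      intro s s' hs hs'
      have h9 := h8 s s' (hpair s s' hs) (fun _ =>
        F_line_ne (fun s : Fin a × Fin b => x s.1 s.2) hgeom h hcd' (hpair s s' hs)
          (fun t ht ht' => hx.ch s.1 s.2 s'.1 s'.2 t.1 t.2 hs hs' ht ht'))
      simpa using h9
    · obtain ⟨T, dl, om, jj, g, n, lam, _, h1, h2, h3, h4, h5, h6, h7, _⟩ :=
        glob_sum (fun s : Fin a × Fin b => x s.1 s.2) hgeom h'
      refine Dat_aux hx ha hac hcd hdb hN hB2 T dl om jj g n lam (f - c) h1 h2 h3 h4 h6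
        (Or.inr ⟨hd, by omega⟩) ?_
      intro s s' hs hs'
      exact h7 s s' (hpair s s' hs)

end GP80
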