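import Mathlib

/-! The definition of a family of finite sets of points (MP_87ed0a_ag). -/

open Filter Topology

namespace GP80

/-- A continuous family of sets of `N` points of projective 3-space parametrised by a topological
space: every member has exactly `N` points, and for every open set `W` of vectors the set of
parameters `t` such that `Z t` has a point with a representative in `W` is open. -/
def IsFamily {T : Type*} [TopologicalSpace T] (N : ℕ)
    (Z : T → Set (Projectivization ℂ (Fin 4 → ℂ))) : Prop :=
  (∀ t, (Z t).Finite ∧ (Z t).ncard = N) ∧
    ∀ W : Set (Fin 4 → ℂ), IsOpen W →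
      IsOpen {t | ∃ v ∈ W, ∃ hv : v ≠ 0, Projectivization.mk ℂ v hv ∈ Z t}

end GP80
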