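import Mathlib
import Pool.Agent.H80.GP.GDefs
import Pool.Agent.H80.GP.NDefs

/-!
# Row Gct (MP_87ed0a_GP): the planes of type (l, j) without the corner give a contradiction  (about 150 lines)

For all `(l, j)` there is a plane `h ≠ 0` containing all points of row `l` and column `j` except possibly the corner `(l, j)`.  `b ≥ 5`, and every line contains at most `m < b` points.  Contradiction:
Fix a row `l` (`a ≥ 2`), `l' ≠ l`; let `h_j` be the plane for `(l, j)`.
1. For `j ≠ j'` the planes `h_j`, `h_j'` are not proportional: otherwise `h_j` vanishes on the whole row `l` (row `l` minus `(l,j)` and row `l` minus `(l,j')`), and at `(l', j)`, `(l', j')`.  By `pl`: the second alternative is impossible (two points of row `l`); first alternative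
   with `(l0, j0)`: if `l0 ≠ l` then all points of row `l` are in column `j0`, impossible (`b ≥ 2`); so `l0 = l`, and `(l', j)`, `(l', j')` are in column `j0`: `j = j'`.
2. So `W = {h_j = 0} ∩ {h_j' = 0}` has dimension 2, and contains `x l m` for `m ≠ j, j'`.
3. Let `m` be any column, choose two different `j, j'` not in `{0, 1, m}` (`b ≥ 5`): `x l 0, x l 1, x l m ∈ W`, and `x l 0, x l 1` are independent, so they span `W` and `x l m ∈ span {x l 0, x l 1}`.
4. So all `b` points of row `l` are in the span of `x l 0, x l 1`: `b ≤ m` by `ColB`, contradiction.  (`0, 1 : Fin b` exist as `b ≥ 5`; use `⟨0, _⟩`, `⟨1, _⟩`.)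
-/

namespace GP80

theorem Gct_span {u v : Fin 4 → ℂ} (huv : LinearIndependent ℂ ![u, v]) {p q w : Fin 4 → ℂ}
    (hpq : LinearIndependent ℂ ![p, q]) (hup : ∑ i, u i * p i = 0) (huq : ∑ i, u i * q i = 0)
    (huw : ∑ i, u i * w i = 0) (hvp : ∑ i, v i * p i = 0) (hvq : ∑ i, v i * q i = 0)
    (hvw : ∑ i, v i * w i = 0) : w ∈ Submodule.span ℂ {p, q} := by
  obtain ⟨M, hM⟩ : ∃ M : Matrix (Fin 2) (Fin 4) ℂ, M = Matrix.of ![u, v] := ⟨_, rfl⟩
  have hker : ∀ y : Fin 4 → ℂ, ∑ i, u i * y i = 0 → ∑ i, v i * y i = 0 →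
      y ∈ LinearMap.ker M.mulVecLin := by
    intro y h1 h2
    rw [LinearMap.mem_ker, Matrix.mulVecLin_apply, hM]
    funext i
    fin_cases i
    · exact h1
    · exact h2
  have hrank : M.rank = 2 := by
    have h1 := LinearIndependent.rank_matrix (M := M) (by rw [hM]; exact huv)
    rw [h1, Fintype.card_fin]
  have hfk : Module.finrank ℂ (LinearMap.ker M.mulVecLin) = 2 := by
    have h1 := LinearMap.finrank_range_add_finrank_ker M.mulVecLin
    have h2 : Module.finrank ℂ (LinearMap.range M.mulVecLin) = 2 := hrank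
    rw [h2, Module.finrank_fin_fun] at h1
    omega
  have hfs : Module.finrank ℂ (Submodule.span ℂ ({p, q} : Set (Fin 4 → ℂ))) = 2 := by
    have h1 := finrank_span_eq_card hpq
    rwa [Matrix.range_cons_cons_empty, Fintype.card_fin] at h1
  have hle : Submodule.span ℂ ({p, q} : Set (Fin 4 → ℂ)) ≤ LinearMap.ker M.mulVecLin := by
    rw [Submodule.span_le]
    rintro y (rfl | rfl)
    · exact hker _ hup hvp
    · exact hker _ huq hvq
  have heq := Submodule.eq_of_le_of_finrank_eq hle (by rw [hfs, hfk])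
  rw [heq]
  exact hker _ huw hvw

theorem Gct_two {b : ℕ} (hb : 5 ≤ b) (s : Finset (Fin b)) (hs : s.card ≤ 3) :
    ∃ j j', j ≠ j' ∧ j ∉ s ∧ j' ∉ s := by
  have h1 : s.card < (Finset.univ : Finset (Fin b)).card := by
    rw [Finset.card_univ, Fintype.card_fin]
    omega
  obtain ⟨j, -, hj⟩ := Finset.exists_mem_notMem_of_card_lt_card h1
  have h2 : (insert j s).card < (Finset.univ : Finset (Fin b)).card := by
    rw [Finset.card_univ, Fintype.card_fin]
    exact lt_of_le_of_lt (Finset.card_insert_le _ _) (by omega)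
  obtain ⟨j', -, hj'⟩ := Finset.exists_mem_notMem_of_card_lt_card h2
  rw [Finset.mem_insert, not_or] at hj'
  exact ⟨j, j', Ne.symm hj'.1, hj, hj'.2⟩

theorem grid_contra {a b Bd m : ℕ} (ha : 2 ≤ a) (hb : 5 ≤ b) (hm : m < b)
    {x : Fin a → Fin b → Fin 4 → ℂ} (hx : NearOK a b x Bd)
    (hcol : ColB (fun s : Fin a × Fin b => x s.1 s.2) m)
    (hW : ∀ (l : Fin a) (j : Fin b), ∃ h : Fin 4 → ℂ, h ≠ 0 ∧
      ∀ s : Fin a × Fin b, (s.1 = l ∨ s.2 = j) → s ≠ (l, j) → ∑ i, h i * x s.1 s.2 i = 0) :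
    False := by
  classical
  obtain ⟨l, hl⟩ : ∃ l : Fin a, l = ⟨0, by omega⟩ := ⟨_, rfl⟩
  obtain ⟨l', hl'⟩ : ∃ l' : Fin a, l' = ⟨1, by omega⟩ := ⟨_, rfl⟩
  have hll : l' ≠ l := by
    rw [hl, hl']
    intro h
    have := congrArg Fin.val h
    simp at this
  obtain ⟨c0, hc0⟩ : ∃ c0 : Fin b, c0 = ⟨0, by omega⟩ := ⟨_, rfl⟩
  obtain ⟨c1, hc1⟩ : ∃ c1 : Fin b, c1 = ⟨1, by omega⟩ := ⟨_, rfl⟩
  have hcc : c0 ≠ c1 := by
    rw [hc0, hc1]
    intro h
    have := congrArg Fin.val h
    simp at this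
  choose h hh0 hh using fun j => hW l j
  have hli : ∀ j j', j ≠ j' → LinearIndependent ℂ ![h j, h j'] := by
    intro j j' hjj
    rw [linearIndependent_fin2]
    refine ⟨hh0 j', fun t ht => ?_⟩
    have ht' : t • h j' = h j := ht
    have hz : ∀ y : Fin 4 → ℂ, ∑ i, h j' i * y i = 0 → ∑ i, h j i * y i = 0 := by
      intro y hy
      rw [← ht']
      have h1 : ∑ i, (t • h j') i * y i = t * ∑ i, h j' i * y i := by
        rw [Finset.mul_sum]
        refine Finset.sum_congr rfl fun i _ => ?_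
        rw [Pi.smul_apply, smul_eq_mul, mul_assoc]
      rw [h1, hy, mul_zero]
    have hrow : ∀ q, ∑ i, h j i * x l q i = 0 := by
      intro q
      by_cases hq : q = j
      · subst hq
        exact hz _ (hh j' (l, q) (Or.inl rfl) (fun e => hjj (congrArg Prod.snd e)))
      · exact hh j (l, q) (Or.inl rfl) (fun e => hq (congrArg Prod.snd e))
    have hp1 : ∑ i, h j i * x l' j i = 0 :=
      hh j (l', j) (Or.inr rfl) (fun e => hll (congrArg Prod.fst e))
    have hp2 : ∑ i, h j i * x l' j' i = 0 :=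
      hz _ (hh j' (l', j') (Or.inr rfl) (fun e => hll (congrArg Prod.fst e)))
    rcases hx.pl (h j) (hh0 j) with ⟨l0, j0, h1⟩ | h1
    · have hl0 : l = l0 := by
        by_contra hne
        have h2 := (h1 l j (hrow j)).resolve_left hne
        have h3 := (h1 l j' (hrow j')).resolve_left hne
        exact hjj (h2.trans h3.symm)
      have h2 := (h1 l' j hp1).resolve_left (fun e => hll (e.trans hl0.symm))
      have h3 := (h1 l' j' hp2).resolve_left (fun e => hll (e.trans hl0.symm))
      exact hjj (h2.trans h3.symm)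
    · exact (h1 l j l j' (hrow j) (hrow j') (fun e => hjj (congrArg Prod.snd e))).1 rfl
  have hpq : LinearIndependent ℂ ![x l c0, x l c1] := by
    have h1 := hx.ind l l' c0 c1 (Ne.symm hll) hcc
    have h2 := h1.comp ![(0 : Fin 4), 1] (by
      intro i j hij
      fin_cases i <;> fin_cases j <;> simp_all)
    convert h2 using 1
    funext i
    fin_cases i <;> rfl
  have hspan : ∀ q, x l q ∈ Submodule.span ℂ {x l c0, x l c1} := by
    intro q
    obtain ⟨j, j', hjj, hj, hj'⟩ := Gct_two hb {c0, c1, q} Finset.card_le_three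
    simp only [Finset.mem_insert, Finset.mem_singleton, not_or] at hj hj'
    have hz : ∀ j q', q' ≠ j → ∑ i, h j i * x l q' i = 0 := fun j q' hne =>
      hh j (l, q') (Or.inl rfl) (fun e => hne (congrArg Prod.snd e))
    exact Gct_span (hli j j' hjj) hpq (hz j c0 (Ne.symm hj.1)) (hz j c1 (Ne.symm hj.2.1))
      (hz j q (Ne.symm hj.2.2)) (hz j' c0 (Ne.symm hj'.1)) (hz j' c1 (Ne.symm hj'.2.1))
      (hz j' q (Ne.symm hj'.2.2))
  have hcard := hcol (l, c0) (l, c1) (fun e => hcc (congrArg Prod.snd e))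
  have hge : Nat.card (Fin b) ≤ Nat.card {t : Fin a × Fin b //
      (fun s : Fin a × Fin b => x s.1 s.2) t ∈ Submodule.span ℂ
        {(fun s : Fin a × Fin b => x s.1 s.2) (l, c0),
          (fun s : Fin a × Fin b => x s.1 s.2) (l, c1)}} := by
    refine Nat.card_le_card_of_injective (fun q => ⟨(l, q), hspan q⟩) ?_
    intro q q' hqq
    exact congrArg (fun t => t.1.2) hqq
  rw [Nat.card_eq_fintype_card, Fintype.card_fin] at hge
  omega

end GP80
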