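import Mathlib
import Pool.Agent.H80.GP.GDefs

/-!
# Row Sp1 (MP_87ed0a_GP): specialisation of ranks and kernels of matrices over `ℂ[P]`  (about 150 lines)

`K = FractionRing RR`.
* `rank_spec`: `rank A(P) ≤ rank_K A`.  Proof: let `r = rank A(P)`; choose `r` rows of `A(P)` which are linearly independent over `ℂ` (index injection `f : Fin r → m`), let `A' = A.submatrix f id`; `A'(P)` has a right inverse `B` over `ℂ` (rows independent:
  `Matrix` of full row rank), so `det (A' * B.map C)` has value `det 1 = 1` at `P`, hence is nonzero in `RR` and in `K`; so the rows of `A'` are independent over `K` and `rank_K A ≥ r`.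
* `lift_kernel`: let `r = rank_K A`.  Choose row indices `f : Fin r → m` whose rows form a basis of the row space over `K` and column indices `g : Fin r → n` with `Δ = det (A.submatrix f g) ≠ 0`
  (a matrix of rank `r` has a nonzero `r × r` minor: first choose rows, then columns of the full-row-rank submatrix).  `A0 := A.submatrix f g`.
  For `P` with `Δ(P) ≠ 0` and `v ∈ ker A(P)`: define `w : n → RR` by
  `w_l = (1/Δ(P)) * (Δ * C v_l)` for `l ∉ range g`, and `w_(g i) = (1/Δ(P)) * (- ∑_{l ∉ range g} (adjugate A0 * A.submatrix f id)_(i, l) * C v_l)`.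
  Then rows `f` of `A w` vanish: `A0 w_g + ∑_{l ∉ range g} A_(f, l) w_l = (1/Δ(P)) (- A0 adj(A0) .. + Δ ..) = 0`; all other rows of `A` are `K`-combinations of the rows `f`, so `A w = 0`.
  `w(P) = v`: outside `range g` clear; both `w(P)` and `v` are in `ker A(P)`, so `A0(P) (w(P) - v)_g = 0`, `A0(P)` invertible.
  Degrees: entries of `A` are homogeneous of degree `t`: `Δ` homogeneous of degree `r t`, entries of `adj(A0)` of degree `(r-1) t`, times `A`: `r t` (for `r = 0`: `w_l = C v_l`).  `r ≤ card m`.
-/

namespace GP80

open MvPolynomial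

theorem Sp1_rows {F m n : Type} [Field F] [Fintype m] [Fintype n] (A : Matrix m n F) :
    ∃ f : Fin A.rank → m, LinearIndependent F (fun i => A.row (f i)) ∧
      Submodule.span F (Set.range (fun i => A.row (f i))) = Submodule.span F (Set.range A.row) := by
  have hr : A.rank = Module.finrank F (Submodule.span F (Set.range A.row)) :=
    A.rank_eq_finrank_span_row
  have hfin : Module.Finite F (Submodule.span F (Set.range A.row)) :=
    Module.Finite.span_of_finite F (Set.finite_range A.row)
  rw [hr]
  obtain ⟨v, hv1, hv2, hv3⟩ := Submodule.exists_fun_fin_finrank_span_eq F (Set.range A.row)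
  choose f hf using hv1
  refine ⟨f, ?_, ?_⟩
  · have : (fun i => A.row (f i)) = v := funext hf
    rw [this]
    exact hv3
  · have : (fun i => A.row (f i)) = v := funext hf
    rw [this]
    exact hv2

theorem Sp1_det {F : Type} [Field F] {r : ℕ} (M : Matrix (Fin r) (Fin r) F)
    (h : LinearIndependent F M.row) : M.det ≠ 0 := by
  have h1 : IsUnit M := Matrix.linearIndependent_rows_iff_isUnit.1 h
  exact ((Matrix.isUnit_iff_isUnit_det M).1 h1).ne_zero

theorem Sp1_minor {F m n : Type} [Field F] [Fintype m] [Fintype n] (A : Matrix m n F) :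
    ∃ (f : Fin A.rank → m) (g : Fin A.rank → n), (A.submatrix f g).det ≠ 0 ∧
      Submodule.span F (Set.range (fun i => A.row (f i))) = Submodule.span F (Set.range A.row) := by
  obtain ⟨f, hf1, hf2⟩ := Sp1_rows A
  have hrk : (A.submatrix f id).rank = A.rank := by
    have h1 : LinearIndependent F (A.submatrix f id).row := hf1
    rw [h1.rank_matrix, Fintype.card_fin]
  have hrk2 : ((A.submatrix f id).transpose).rank = A.rank := by
    rw [Matrix.rank_transpose, hrk]
  obtain ⟨g, hg1, -⟩ := Sp1_rows ((A.submatrix f id).transpose)
  set e : Fin A.rank ≃ Fin ((A.submatrix f id).transpose).rank := finCongr hrk2.symm with he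
  refine ⟨f, g ∘ e, ?_, hf2⟩
  rw [← Matrix.det_transpose]
  apply Sp1_det
  have h2 := hg1.comp e e.injective
  exact h2

theorem rank_spec {m n : Type} [Fintype m] [Fintype n] [DecidableEq m] [DecidableEq n]
    (A : Matrix m n RR) (P : Fin 4 → ℂ) :
    (A.map (eval P)).rank ≤ (A.map (algebraMap RR (FractionRing RR))).rank := by
  obtain ⟨f, g, h, -⟩ := Sp1_minor (A.map (eval P))
  have h1 : (A.submatrix f g).det ≠ 0 := by
    intro h0
    apply h
    have h2 : (A.map (eval P)).submatrix f g = (A.submatrix f g).map (eval P) := rfl
    rw [h2]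
    have h3 := (eval P).map_det (A.submatrix f g)
    rw [h0, map_zero] at h3
    exact h3.symm
  set K := FractionRing RR
  have h4 : ((A.map (algebraMap RR K)).submatrix f g).det ≠ 0 := by
    have h2 : (A.map (algebraMap RR K)).submatrix f g = (A.submatrix f g).map (algebraMap RR K) :=
      rfl
    rw [h2]
    have h3 := (algebraMap RR K).map_det (A.submatrix f g)
    intro h5
    apply h1
    have h6 : algebraMap RR K (A.submatrix f g).det = 0 := h3.trans h5
    exact (IsFractionRing.injective RR K) (h6.trans (map_zero _).symm)
  have h5 : IsUnit ((A.map (algebraMap RR K)).submatrix f g) :=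
    (Matrix.isUnit_iff_isUnit_det _).2 (isUnit_iff_ne_zero.2 h4)
  have h6 := Matrix.rank_of_isUnit _ h5
  rw [Fintype.card_fin] at h6
  rw [← h6]
  exact Matrix.rank_submatrix_le _ _ _

theorem Sp1_det_hom {r t : ℕ} (M : Matrix (Fin r) (Fin r) RR)
    (h : ∀ i j, (M i j).IsHomogeneous t) : M.det.IsHomogeneous (r * t) := by
  rw [Matrix.det_apply]
  apply MvPolynomial.IsHomogeneous.sum
  intro σ _
  have h1 : (∏ i, M (σ i) i).IsHomogeneous (r * t) := by
    have h2 := MvPolynomial.IsHomogeneous.prod Finset.univ (fun i : Fin r => M (σ i) i)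
      (fun _ => t) (fun i _ => h (σ i) i)
    simpa using h2
  rcases Int.units_eq_one_or (Equiv.Perm.sign σ) with hs | hs
  · rw [hs, one_smul]
    exact h1
  · rw [hs]
    have h3 : ((-1 : ℤˣ) • ∏ i, M (σ i) i) = - ∏ i, M (σ i) i := by
      rw [Units.neg_smul, one_smul]
    rw [h3]
    exact h1.neg

theorem lift_kernel {m n : Type} [Fintype m] [Fintype n] [DecidableEq m] [DecidableEq n]
    (A : Matrix m n RR) (t : ℕ) (hA : ∀ i j, (A i j).IsHomogeneous t) :
    ∃ (Δ : RR) (r : ℕ), Δ ≠ 0 ∧ r ≤ Fintype.card m ∧ ∀ P : Fin 4 → ℂ, eval P Δ ≠ 0 →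
      ∀ v : n → ℂ, (A.map (eval P)).mulVec v = 0 →
        ∃ w : n → RR, A.mulVec w = 0 ∧ (∀ j, (w j).IsHomogeneous (r * t)) ∧
          ∀ j, eval P (w j) = v j := by
  set K := FractionRing RR
  set AK : Matrix m n K := A.map (algebraMap RR K) with hAK
  obtain ⟨f, g, hdet, hspan⟩ := Sp1_minor AK
  set A0 : Matrix (Fin AK.rank) (Fin AK.rank) RR := A.submatrix f g with hA0
  refine ⟨A0.det, AK.rank, ?_, Matrix.rank_le_card_height _, ?_⟩
  · intro h0
    apply hdet
    have h2 : AK.submatrix f g = A0.map (algebraMap RR K) := rfl
    rw [h2]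
    have h3 := (algebraMap RR K).map_det A0
    rw [h0, map_zero] at h3
    exact h3.symm
  · intro P hP v hv
    set b : Fin AK.rank → RR := fun i => ∑ j, A (f i) j * C (v j) with hb
    set s : Fin AK.rank → RR := A0.cramer b with hs
    set w : n → RR := fun j => C (eval P A0.det)⁻¹ *
      (A0.det * C (v j) - ∑ i, if g i = j then s i else 0) with hw
    have hbhom : ∀ i, (b i).IsHomogeneous t := by
      intro i
      apply MvPolynomial.IsHomogeneous.sum
      intro j _
      have := (hA (f i) j).mul (isHomogeneous_C (Fin 4) (v j))
      simpa using this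
    have hshom : ∀ i, (s i).IsHomogeneous (AK.rank * t) := by
      intro i
      rw [hs, Matrix.cramer_apply]
      apply Sp1_det_hom
      intro k l
      rw [Matrix.updateCol_apply]
      split_ifs
      · exact hbhom k
      · exact hA _ _
    have hrow : ∀ i, ∑ j, A (f i) j * w j = 0 := by
      intro i
      have h1 : ∑ j, A (f i) j * w j = C (eval P A0.det)⁻¹ *
          (A0.det * b i - ∑ j, A (f i) j * ∑ k, if g k = j then s k else 0) := by
        rw [hb]
        simp only [Finset.mul_sum, mul_sub]
        rw [← Finset.sum_sub_distrib]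
        refine Finset.sum_congr rfl fun j _ => ?_
        rw [hw]
        simp only [Finset.mul_sum, mul_sub]
        refine congrArg₂ (fun x y : RR => x - y) ?_ ?_
        · ring
        · refine Finset.sum_congr rfl fun k _ => ?_
          ring
      have h2 : ∑ j, A (f i) j * ∑ k, (if g k = j then s k else 0) = (A0.mulVec s) i := by
        simp only [Finset.mul_sum]
        rw [Finset.sum_comm]
        simp only [Matrix.mulVec, dotProduct]
        refine Finset.sum_congr rfl fun k _ => ?_
        rw [Finset.sum_eq_single (g k)]
        · rw [if_pos rfl]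
          rfl
        · intro j _ hj
          rw [if_neg (Ne.symm hj), mul_zero]
        · intro h
          exact absurd (Finset.mem_univ _) h
      rw [h1, h2, hs, Matrix.mulVec_cramer]
      simp
    refine ⟨w, ?_, ?_, ?_⟩
    · clear_value w
      funext i
      have hmem : AK.row i ∈ Submodule.span K (Set.range (fun i => AK.row (f i))) := by
        rw [hspan]
        exact Submodule.subset_span ⟨i, rfl⟩
      have hall : ∀ u ∈ Submodule.span K (Set.range (fun i => AK.row (f i))),
          ∑ j, u j * algebraMap RR K (w j) = 0 := by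
        intro u hu
        induction hu using Submodule.span_induction with
        | mem x hx =>
          obtain ⟨k, rfl⟩ := hx
          have h1 := congrArg (algebraMap RR K) (hrow k)
          rw [map_sum, map_zero] at h1
          rw [← h1]
          refine Finset.sum_congr rfl fun j _ => ?_
          exact ((algebraMap RR K).map_mul (A (f k) j) (w j)).symm
        | zero => simp
        | add x y _ _ hx hy =>
          simp only [Pi.add_apply, add_mul, Finset.sum_add_distrib, hx, hy, add_zero]
        | smul a x _ hx =>
          simp only [Pi.smul_apply, smul_eq_mul, mul_assoc]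
          rw [← Finset.mul_sum, hx, mul_zero]
      have h2 := hall _ hmem
      have h3 : algebraMap RR K (A.mulVec w i) = 0 := by
        rw [← h2]
        simp only [Matrix.mulVec, dotProduct, map_sum, map_mul]
        rfl
      exact (IsFractionRing.injective RR K) (h3.trans (map_zero _).symm)
    · intro j
      rw [hw]
      have h1 : (A0.det * C (v j)).IsHomogeneous (AK.rank * t) := by
        have := (Sp1_det_hom A0 (fun i k => hA _ _)).mul (isHomogeneous_C (Fin 4) (v j))
        simpa using this
      have h2 : (∑ i, if g i = j then s i else 0).IsHomogeneous (AK.rank * t) := by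
        apply MvPolynomial.IsHomogeneous.sum
        intro i _
        split_ifs
        · exact hshom i
        · exact isHomogeneous_zero _ _ _
      have h3 := (isHomogeneous_C (Fin 4) (eval P A0.det)⁻¹).mul (h1.sub h2)
      simpa using h3
    · intro j
      rw [hw]
      have hbP : ∀ i, eval P (b i) = 0 := by
        intro i
        have h1 := congrFun hv (f i)
        rw [hb]
        simp only [map_sum, map_mul, eval_C]
        exact h1
      have hsP : ∀ i, eval P (s i) = 0 := by
        intro i
        rw [hs, Matrix.cramer_eq_adjugate_mulVec]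
        simp only [Matrix.mulVec, dotProduct, map_sum, map_mul, hbP, mul_zero,
          Finset.sum_const_zero]
      simp only [map_mul, map_sub, map_sum, eval_C]
      have h2 : ∑ i, eval P (if g i = j then s i else 0) = 0 := by
        apply Finset.sum_eq_zero
        intro i _
        split_ifs
        · exact hsP i
        · exact map_zero _
      rw [h2, sub_zero, ← mul_assoc, inv_mul_cancel₀ hP, one_mul]

end GP80
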