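import Mathlib
import Pool.Agent.H80.GP.Defs
import Pool.Agent.H80.GP.Defs2
import Pool.Agent.H80.GP.Kp1
import Pool.Agent.H80.GP.Kp2
import Pool.Agent.H80.GP.Kp3
import Pool.Agent.H80.GP.Ari

/-!
# Row Sp2 (MP_87ed0a_GP): a set-theoretic complete intersection of `c d` points is ideal-theoretic  (about 230 lines)

`y s ∈ ℂ^3`, `s ∈ I`, nonzero, pairwise independent, `card I = c d`, exactly the common zeros of the forms `F, G` of degrees `c, d ≥ 1`.  Claim: every form vanishing at all `y s` is in `(F, G)`.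
1. (ZERO) A form `q` of degree `n ≥ 1` in `ℂ[X_0,X_1,X_2]` has a nonzero zero on every 2-dimensional subspace: for a basis `v, w` the polynomial `q(v + T w)` has degree `≤ n` with top coefficient `q(w)`; if `q(w) ≠ 0` it has degree `n ≥ 1` and a root.  Hence `q` has infinitely
   many pairwise non proportional zeros (one on each plane `{X_1 = a X_0}`.. ; or: for `card I + 1` planes through a fixed vector which is not a zero).  If the fixed vector `e` is chosen with `q(e) ≠ 0` and the planes are `span (e, e_t)`, `t ∈ ℂ`, with pairwise intersections `ℂ e`, the zeros are pairwise non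
   proportional.
2. `F, G` are coprime (`IsRelPrime`): a common divisor `q` of `F` and `G` is a form (`F ≠ 0`, `G ≠ 0`: otherwise there would be infinitely many common zeros by 1.; `homog_of_mul`), if its degree is `≥ 1` its zeros are common zeros: infinitely many; contradiction.
3. Let `t ≥ c + d`, `t ≥ card I`.  `(F, G)_t` = image of `HS (t-c) × HS (t-d) → HS t`, `(A, B) ↦ A F + B G`, with kernel `{(r G, - r F)}`, `r ∈ HS (t-c-d)` (coprimality): dimension `nn(t-c) + nn(t-d) - nn(t-c-d) = nn t - c d`.  It is contained in the space `I_t` of the forms vanishing at the `y s`, of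
   dimension `≤ nn t - card I = nn t - c d` by `pts_indep`.  So `I_t = (F, G)_t`.
4. Choose a linear form `l` with `l(y s) ≠ 0` for all `s` (product of finitely many nonzero linear conditions on the coefficients of `l`).  Claim: `l f ∈ (F, G)` implies `f ∈ (F, G)`.  Let `l f = A F + B G`, `l = ∑ l_i X_i`, `l_i ≠ 0`, `ψ` the substitution
   `X_i ↦ - (1/l_i) ∑_{j ≠ i} l_j X_j` (identity on the others): `ψ h = 0` iff `l ∣ h` (`h - ψ h` is always divisible by `l`).  `ψ F, ψ G` are coprime: a common divisor `q` of them: both are nonzero (`ψ F = 0` would give `l ∣ F`, then a zero of `G` on `l = 0` (by 1., `d ≥ 1`) is a common zero on `l = 0`, contradiction) forms, so `q` is a form; if it has degree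
   `≥ 1` it has a zero `v` on the plane `l = 0` (1.); on this plane `ψ F (v) = F(v)`, so `v` is a common zero of `F, G` with `l(v) = 0`: contradiction.  From `ψA ψF + ψB ψG = 0`: `ψ A = r ψ G`, `ψ B = - r ψ F`; so `A = r G + l A'`, `B = - r F + l B'` (since `ψ(A - r G) = ψ(ψ A - r ψ G).. `: replace `r` by `ψ r`; `ψ ψ = ψ`),
   and `l f = l (A' F + B' G)`.
5. For a form `f` of any degree `t` vanishing at the points, `l^m f ∈ (F, G)` for large `m` by 3., hence `f ∈ (F, G)` by 4.
-/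

namespace GP80

open MvPolynomial

/-- homogeneity of evaluation -/
private theorem Sp2_eval_smul {q : MvPolynomial (Fin 3) ℂ} {n : ℕ} (hq : q.IsHomogeneous n) (s : ℂ)
    (v : Fin 3 → ℂ) : eval (fun i => s * v i) q = s ^ n * eval v q := by
  rw [eval_eq, eval_eq, Finset.mul_sum]
  refine Finset.sum_congr rfl fun m hm => ?_
  have h1 : m.degree = n := by
    have h := hq (mem_support_iff.1 hm)
    have h' := DFunLike.congr_fun (Finsupp.degree_eq_weight_one (σ := Fin 3) (R := ℕ)) m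
    exact h'.trans h
  have h2 : ∏ i ∈ m.support, (s * v i) ^ m i = s ^ n * ∏ i ∈ m.support, v i ^ m i := by
    simp_rw [mul_pow]
    rw [Finset.prod_mul_distrib, Finset.prod_pow_eq_pow_sum]
    rw [← h1, Finsupp.degree_apply]
  rw [h2]
  ring

private theorem Sp2_hev (q : MvPolynomial (Fin 3) ℂ) (u w : Fin 3 → ℂ) (s : ℂ) :
    (MvPolynomial.aeval (fun i => Polynomial.C (u i) +
        Polynomial.X * Polynomial.C (w i)) q : Polynomial ℂ).eval s =
      eval (fun i => u i + s * w i) q := by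
  have h1 : ((Polynomial.aeval s : Polynomial ℂ →ₐ[ℂ] ℂ).comp
      (MvPolynomial.aeval (fun i => Polynomial.C (u i) + Polynomial.X * Polynomial.C (w i)))) =
      (MvPolynomial.aeval (fun i => u i + s * w i) : MvPolynomial (Fin 3) ℂ →ₐ[ℂ] ℂ) := by
    apply MvPolynomial.algHom_ext
    intro i
    simp
    ring
  have h2 := congrArg (fun f => f q) h1
  simp only [AlgHom.comp_apply, Polynomial.coe_aeval_eq_eval] at h2
  exact h2

/-- a form of positive degree has a zero on the span of `a` and `b` -/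
private theorem Sp2_zero {q : MvPolynomial (Fin 3) ℂ} {n : ℕ} (hq : q.IsHomogeneous n) (hn : 1 ≤ n)
    (a b : Fin 3 → ℂ) :
    (∃ s : ℂ, eval (fun i => a i + s * b i) q = 0) ∨ eval b q = 0 := by
  by_cases h : ∃ s : ℂ, eval (fun i => a i + s * b i) q = 0
  · exact Or.inl h
  · right
    push Not at h
    set p : Polynomial ℂ := MvPolynomial.aeval (fun i => Polynomial.C (a i) +
        Polynomial.X * Polynomial.C (b i)) q with hp
    have h1 : ∀ s, p.eval s ≠ 0 := fun s => by
      rw [hp, Sp2_hev]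
      exact h s
    have h2 : p.degree = 0 := by
      by_contra h3
      obtain ⟨s, hs⟩ := IsAlgClosed.exists_root p h3
      exact h1 s hs
    obtain ⟨c0, hc0⟩ : ∃ c0, p = Polynomial.C c0 := ⟨_, Polynomial.eq_C_of_degree_eq_zero h2⟩
    have h3 : ∀ s : ℂ, eval (fun i => a i + s * b i) q = c0 := fun s => by
      rw [← Sp2_hev, ← hp, hc0, Polynomial.eval_C]
    set p2 : Polynomial ℂ := MvPolynomial.aeval (fun i => Polynomial.C (b i) +
        Polynomial.X * Polynomial.C (a i)) q with hp2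
    have h4 : p2 = Polynomial.C c0 * Polynomial.X ^ n := by
      apply Polynomial.eq_of_infinite_eval_eq
      apply Set.Infinite.mono (s := {s : ℂ | s ≠ 0})
      · intro s hs
        have hs' : s ≠ 0 := hs
        show p2.eval s = (Polynomial.C c0 * Polynomial.X ^ n).eval s
        rw [hp2, Sp2_hev]
        have h5 : (fun i => b i + s * a i) = fun i => s * (a i + s⁻¹ * b i) := by
          funext i
          field_simp
          ring
        rw [h5, Sp2_eval_smul hq, h3, Polynomial.eval_mul, Polynomial.eval_C, Polynomial.eval_pow,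
          Polynomial.eval_X, mul_comm]
      · exact (Set.finite_singleton (0 : ℂ)).infinite_compl
    have h5 : p2.eval 0 = eval b q := by
      rw [hp2, Sp2_hev]
      simp
    rw [← h5, h4]
    simp
    right
    omega

/-- a linear form not vanishing at the points, with nonzero coefficients -/
private theorem Sp2_lam {I : Type} [Fintype I] (y : I → Fin 3 → ℂ) (hy0 : ∀ s, y s ≠ 0) :
    ∃ l : Fin 3 → ℂ, (∀ i, l i ≠ 0) ∧ ∀ s, ∑ i, l i * y s i ≠ 0 := by
  classical
  set P : MvPolynomial (Fin 3) ℂ := (∏ i, X i) * ∏ s, ∑ i, X i * C (y s i) with hP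
  have h0 : P ≠ 0 := by
    rw [hP]
    apply mul_ne_zero
    · exact Finset.prod_ne_zero_iff.2 fun i _ => X_ne_zero i
    · apply Finset.prod_ne_zero_iff.2
      intro s _ hs
      apply hy0 s
      funext j
      have h1 := congrArg (eval (Pi.single j (1 : ℂ))) hs
      simpa [Pi.single_apply] using h1
  obtain ⟨l, hl⟩ : ∃ l : Fin 3 → ℂ, eval l P ≠ 0 := by
    by_contra h
    push Not at h
    exact h0 (MvPolynomial.funext fun l => by rw [h l, map_zero])
  rw [hP, map_mul, map_prod, map_prod] at hl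
  refine ⟨l, fun i => ?_, fun s => ?_⟩
  · have := Finset.prod_ne_zero_iff.1 (left_ne_zero_of_mul hl) i (Finset.mem_univ i)
    simpa using this
  · have := Finset.prod_ne_zero_iff.1 (right_ne_zero_of_mul hl) s (Finset.mem_univ s)
    simpa using this

/-- zeros of forms on the plane `l = 0` -/
private theorem Sp2_plane {q : MvPolynomial (Fin 3) ℂ} {n : ℕ} (hq : q.IsHomogeneous n) (hn : 1 ≤ n)
    (l : Fin 3 → ℂ) (hl : ∀ i, l i ≠ 0) :
    ∃ v : Fin 3 → ℂ, v ≠ 0 ∧ ∑ i, l i * v i = 0 ∧ eval v q = 0 := by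
  rcases Sp2_zero hq hn ![l 1, -l 0, 0] ![0, l 2, -l 1] with ⟨s, hs⟩ | hs
  · refine ⟨_, ?_, ?_, hs⟩
    · intro h
      have h1 := congrFun h 0
      simp at h1
      exact hl 1 h1
    · simp [Fin.sum_univ_three]
      ring
  · refine ⟨_, ?_, ?_, hs⟩
    · intro h
      have h1 := congrFun h 1
      simp at h1
      exact hl 2 h1
    · simp [Fin.sum_univ_three]
      ring

/-- forms without common zero on the plane `l = 0` are coprime -/
private theorem Sp2_cop {P Q : MvPolynomial (Fin 3) ℂ} {n : ℕ} (hP : P.IsHomogeneous n)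
    (hP0 : P ≠ 0) (l : Fin 3 → ℂ) (hl : ∀ i, l i ≠ 0)
    (h : ∀ v : Fin 3 → ℂ, v ≠ 0 → ∑ i, l i * v i = 0 → eval v P = 0 → eval v Q ≠ 0) :
    IsRelPrime P Q := by
  rintro q ⟨r, hr⟩ ⟨r', hr'⟩
  obtain ⟨a, b, -, ha, -⟩ := homog_of_mul (f := q) (g := r) (hr ▸ hP) (hr ▸ hP0)
  rcases Nat.eq_zero_or_pos a with h0 | h0
  · subst h0
    have h1 : q = C (coeff 0 q) := (totalDegree_eq_zero_iff_eq_C).1 (by
      have := ha.totalDegree_le
      omega)
    have h2 : coeff 0 q ≠ 0 := by
      intro h3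
      rw [h3, C_0] at h1
      rw [h1, zero_mul] at hr
      exact hP0 hr
    rw [h1]
    exact (isUnit_iff_ne_zero.2 h2).map C
  · exfalso
    obtain ⟨v, hv0, hlv, hqv⟩ := Sp2_plane ha h0 l hl
    refine h v hv0 hlv ?_ ?_
    · rw [hr, map_mul, hqv, zero_mul]
    · rw [hr', map_mul, hqv, zero_mul]

/-- the dimension count -/
private theorem Sp2_large {I : Type} [Fintype I] (y : I → Fin 3 → ℂ)
    (hy : ∀ s s', s ≠ s' → LinearIndependent ℂ ![y s, y s']) (hy0 : ∀ s, y s ≠ 0) {c d : ℕ}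
    (hN : Fintype.card I = c * d) {F G : MvPolynomial (Fin 3) ℂ}
    (hF : F.IsHomogeneous c) (hG : G.IsHomogeneous d) (hF0 : F ≠ 0) (hG0 : G ≠ 0)
    (hcop : IsRelPrime F G) (vF : ∀ s, eval (y s) F = 0) (vG : ∀ s, eval (y s) G = 0)
    (t : ℕ) (ht : c + d ≤ t) (ht' : Fintype.card I ≤ t) (f : MvPolynomial (Fin 3) ℂ)
    (hf : f.IsHomogeneous t) (hv : ∀ s, eval (y s) f = 0) : f ∈ Ideal.span {F, G} := by
  classical
  have h1 := finrank_mul F c hF hF0 t
  have h2 := finrank_mul G d hG hG0 t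
  have h3 := finrank_mul (F * G) (c + d) (hF.mul hG) (mul_ne_zero hF0 hG0) t
  have h4 : mulSub F t ⊓ mulSub G t = mulSub (F * G) t := by
    ext x
    constructor
    · rintro ⟨hx1, hx2⟩
      exact hcop.mul_dvd hx1 hx2
    · intro hx
      exact ⟨(dvd_mul_right F G).trans hx, (dvd_mul_left G F).trans hx⟩
  have h5 := Submodule.finrank_sup_add_finrank_inf_eq (mulSub F t) (mulSub G t)
  rw [h4, h1, h2, h3] at h5
  have h6 := pts_indep y Finset.univ (fun z _ z' _ h => hy z z' h) (fun z _ => hy0 z) t (by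
    rw [Finset.card_univ]; exact ht')
  rw [Finset.card_univ, hN] at h6
  have h7 : mulSub F t ⊔ mulSub G t ≤ vanSub y Finset.univ t := by
    apply sup_le
    · rintro x ⟨r, hr⟩ z _
      rw [hr, map_mul, vF, zero_mul]
    · rintro x ⟨r, hr⟩ z _
      rw [hr, map_mul, vG, zero_mul]
  have h8 : Module.finrank ℂ (vanSub y Finset.univ t) ≤
      Module.finrank ℂ (mulSub F t ⊔ mulSub G t : Submodule ℂ (HS ℂ t)) := by
    have e1 := two_nn t
    have e2 := two_nz ((t : ℤ) - c) (by omega)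
    have e3 := two_nz ((t : ℤ) - d) (by omega)
    have e4 := two_nz ((t : ℤ) - (c + d : ℕ)) (by omega)
    have e5 : ((Module.finrank ℂ (mulSub F t ⊔ mulSub G t : Submodule ℂ (HS ℂ t)) : ℕ) : ℤ) +
      nz ((t : ℤ) - (c + d : ℕ)) = nz ((t : ℤ) - c) + nz ((t : ℤ) - d) := by exact_mod_cast h5
    have e6 : ((Module.finrank ℂ (vanSub y Finset.univ t) : ℕ) : ℤ) + c * d ≤ nn t := by
      exact_mod_cast h6
    have e7 : 2 * (nn t : ℤ) = (t + 2) * (t + 1) := by exact_mod_cast e1
    push_cast at e4 e5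
    have e8 : 2 * ((Module.finrank ℂ (mulSub F t ⊔ mulSub G t : Submodule ℂ (HS ℂ t)) : ℕ) : ℤ) =
        2 * (nn t : ℤ) - 2 * (c * d) := by
      linear_combination 2 * e5 + e2 + e3 - e4 - e7
    have e9 : ((Module.finrank ℂ (vanSub y Finset.univ t) : ℕ) : ℤ) ≤
      ((Module.finrank ℂ (mulSub F t ⊔ mulSub G t : Submodule ℂ (HS ℂ t)) : ℕ) : ℤ) := by
      linarith
    exact_mod_cast e9
  have h9 := Submodule.eq_of_le_of_finrank_le h7 h8
  have h10 : HS.mk f hf ∈ mulSub F t ⊔ mulSub G t := by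
    rw [h9]
    intro z _
    exact hv z
  obtain ⟨x, ⟨r, hr⟩, x', ⟨r', hr'⟩, hxx⟩ := Submodule.mem_sup.1 h10
  have h11 : f = r * F + r' * G := by
    have := congrArg HS.val hxx
    rw [HS.val_add, HS.val_mk, hr, hr'] at this
    rw [← this]
    ring
  rw [h11]
  exact Ideal.mem_span_pair.2 ⟨r, r', rfl⟩

/-- the linear form -/
private noncomputable def Sp2_L (l : Fin 3 → ℂ) : MvPolynomial (Fin 3) ℂ := ∑ i, C (l i) * X i

private theorem Sp2_L_eval (l v : Fin 3 → ℂ) : eval v (Sp2_L l) = ∑ i, l i * v i := by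
  simp [Sp2_L]

private theorem Sp2_L_hom (l : Fin 3 → ℂ) : (Sp2_L l).IsHomogeneous 1 := by
  apply IsHomogeneous.sum
  intro i _
  have h := (isHomogeneous_C (Fin 3) (l i)).mul (isHomogeneous_X ℂ i)
  rwa [zero_add] at h

private noncomputable def Sp2_psi (l e : Fin 3 → ℂ) : MvPolynomial (Fin 3) ℂ →ₐ[ℂ] MvPolynomial (Fin 3) ℂ :=
  aeval (fun i => X i - C (e i) * Sp2_L l)

private theorem Sp2_psi_hom (l e : Fin 3 → ℂ) {h : MvPolynomial (Fin 3) ℂ} {n : ℕ}
    (hh : h.IsHomogeneous n) : (Sp2_psi l e h).IsHomogeneous n := by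
  have h1 := hh.aeval (fun i => X i - C (e i) * Sp2_L l) (n := 1) (fun i => by
    apply (isHomogeneous_X ℂ i).sub
    have h := (isHomogeneous_C (Fin 3) (e i)).mul (Sp2_L_hom l)
    rwa [zero_add] at h)
  rwa [one_mul] at h1

private theorem Sp2_psi_L (l e : Fin 3 → ℂ) (he : ∑ i, l i * e i = 1) : Sp2_psi l e (Sp2_L l) = 0 := by
  have h1 : Sp2_psi l e (Sp2_L l) = Sp2_L l - C (∑ i, l i * e i) * Sp2_L l := by
    conv_lhs => rw [Sp2_L]
    rw [map_sum]
    simp only [map_mul, Sp2_psi, aeval_C, aeval_X, algebraMap_eq]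
    simp only [Fin.sum_univ_three, map_add, map_mul]
    have : Sp2_L l = C (l 0) * X 0 + C (l 1) * X 1 + C (l 2) * X 2 := by
      rw [Sp2_L, Fin.sum_univ_three]
    rw [this]
    ring
  rw [h1, he, C_1, one_mul, sub_self]

private theorem Sp2_psi_sub (l e : Fin 3 → ℂ) (h : MvPolynomial (Fin 3) ℂ) :
    Sp2_L l ∣ h - Sp2_psi l e h := by
  induction h using MvPolynomial.induction_on with
  | C a => simp [Sp2_psi]
  | add p q hp hq =>
    rw [map_add]
    have : p + q - (Sp2_psi l e p + Sp2_psi l e q) = (p - Sp2_psi l e p) + (q - Sp2_psi l e q) := by ring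
    rw [this]
    exact dvd_add hp hq
  | mul_X p i hp =>
    rw [map_mul]
    have h1 : Sp2_psi l e (X i) = X i - C (e i) * Sp2_L l := by simp [Sp2_psi]
    rw [h1]
    have : p * X i - Sp2_psi l e p * (X i - C (e i) * Sp2_L l) =
      (p - Sp2_psi l e p) * X i + Sp2_L l * (Sp2_psi l e p * C (e i)) := by ring
    rw [this]
    exact dvd_add (hp.mul_right _) (dvd_mul_right _ _)

private theorem Sp2_psi_psi (l e : Fin 3 → ℂ) (he : ∑ i, l i * e i = 1) (h : MvPolynomial (Fin 3) ℂ) :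
    Sp2_psi l e (Sp2_psi l e h) = Sp2_psi l e h := by
  obtain ⟨r, hr⟩ := Sp2_psi_sub l e h
  have h1 : Sp2_psi l e h = h - Sp2_L l * r := by rw [← hr]; ring
  conv_lhs => rw [h1]
  rw [map_sub, map_mul, Sp2_psi_L l e he, zero_mul, sub_zero]

private theorem Sp2_psi_zero (l e : Fin 3 → ℂ) {h : MvPolynomial (Fin 3) ℂ}
    (hh : Sp2_psi l e h = 0) : Sp2_L l ∣ h := by
  have h1 := Sp2_psi_sub l e h
  rwa [hh, sub_zero] at h1

private theorem Sp2_psi_eval (l e : Fin 3 → ℂ) (h : MvPolynomial (Fin 3) ℂ) (v : Fin 3 → ℂ)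
    (hv : ∑ i, l i * v i = 0) : eval v (Sp2_psi l e h) = eval v h := by
  obtain ⟨r, hr⟩ := Sp2_psi_sub l e h
  have h1 := congrArg (eval v) hr
  rw [map_sub, map_mul, Sp2_L_eval, hv, zero_mul] at h1
  exact (sub_eq_zero.1 h1).symm

/-- cancelling the linear form -/
private theorem Sp2_cancel (l e : Fin 3 → ℂ) (he : ∑ i, l i * e i = 1) {F G f : MvPolynomial (Fin 3) ℂ}
    (hcop : IsRelPrime (Sp2_psi l e F) (Sp2_psi l e G)) (hG0 : Sp2_psi l e G ≠ 0)
    (hL0 : Sp2_L l ≠ 0) (h : Sp2_L l * f ∈ Ideal.span {F, G}) : f ∈ Ideal.span {F, G} := by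
  obtain ⟨A, B, hAB⟩ := Ideal.mem_span_pair.1 h
  have h1 : Sp2_psi l e A * Sp2_psi l e F + Sp2_psi l e B * Sp2_psi l e G = 0 := by
    rw [← map_mul, ← map_mul, ← map_add, hAB, map_mul, Sp2_psi_L l e he, zero_mul]
  have h2 : Sp2_psi l e G ∣ Sp2_psi l e A := by
    apply hcop.symm.dvd_of_dvd_mul_right
    exact ⟨-Sp2_psi l e B, by linear_combination h1⟩
  obtain ⟨r, hr⟩ := h2
  have h3 : Sp2_psi l e B = -(r * Sp2_psi l e F) := by
    apply mul_right_cancel₀ hG0
    rw [hr] at h1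
    linear_combination h1
  have h4 : Sp2_L l ∣ A - r * G := by
    apply Sp2_psi_zero l e
    have h5 := Sp2_psi_psi l e he A
    rw [hr, map_mul, Sp2_psi_psi l e he] at h5
    rw [map_sub, map_mul, hr]
    linear_combination -h5
  have h4' : Sp2_L l ∣ B + r * F := by
    apply Sp2_psi_zero l e
    have h5 := Sp2_psi_psi l e he B
    rw [h3, map_neg, map_mul, Sp2_psi_psi l e he] at h5
    rw [map_add, map_mul, h3]
    linear_combination -h5
  obtain ⟨A', hA'⟩ := h4
  obtain ⟨B', hB'⟩ := h4'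
  refine Ideal.mem_span_pair.2 ⟨A', B', ?_⟩
  apply mul_left_cancel₀ hL0
  rw [← hAB]
  linear_combination -F * hA' - G * hB'

theorem ci_ideal {I : Type} [Fintype I] (y : I → Fin 3 → ℂ)
    (hy : ∀ s s', s ≠ s' → LinearIndependent ℂ ![y s, y s']) (hy0 : ∀ s, y s ≠ 0) {c d : ℕ}
    (hc : 1 ≤ c) (hd : 1 ≤ d) (hN : Fintype.card I = c * d) {F G : MvPolynomial (Fin 3) ℂ}
    (hF : F.IsHomogeneous c) (hG : G.IsHomogeneous d)
    (hv : ∀ v : Fin 3 → ℂ, v ≠ 0 → ((eval v F = 0 ∧ eval v G = 0) ↔ ∃ s, ∃ r : ℂ, v = r • y s)) :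
    ∀ t f, MvPolynomial.IsHomogeneous f t → (∀ s, eval (y s) f = 0) → f ∈ Ideal.span {F, G} := by
  classical
  obtain ⟨l, hl0, hly⟩ := Sp2_lam y hy0
  have hno : ∀ v : Fin 3 → ℂ, v ≠ 0 → ∑ i, l i * v i = 0 → eval v F = 0 → eval v G ≠ 0 := by
    intro v hv0 hlv h1 h2
    obtain ⟨s, r, hr⟩ := (hv v hv0).1 ⟨h1, h2⟩
    have h3 : r * ∑ i, l i * y s i = 0 := by
      rw [← hlv, hr, Finset.mul_sum]
      refine Finset.sum_congr rfl fun i _ => ?_
      rw [Pi.smul_apply, smul_eq_mul]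
      ring
    rcases mul_eq_zero.1 h3 with h4 | h4
    · apply hv0
      rw [hr, h4, zero_smul]
    · exact hly s h4
  set e : Fin 3 → ℂ := ![(l 0)⁻¹, 0, 0] with he'
  have he : ∑ i, l i * e i = 1 := by
    rw [Fin.sum_univ_three]
    simp [he', hl0 0]
  have hL0 : Sp2_L l ≠ 0 := by
    intro h
    have h1 := Sp2_L_eval l e
    rw [h, map_zero, he] at h1
    exact zero_ne_one h1
  have hF0 : F ≠ 0 := by
    intro h
    obtain ⟨v, h1, h2, h3⟩ := Sp2_plane hG hd l hl0
    exact hno v h1 h2 (by rw [h, map_zero]) h3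
  have hG0 : G ≠ 0 := by
    intro h
    obtain ⟨v, h1, h2, h3⟩ := Sp2_plane hF hc l hl0
    exact hno v h1 h2 h3 (by rw [h, map_zero])
  have hpF0 : Sp2_psi l e F ≠ 0 := by
    intro h
    obtain ⟨v, h1, h2, h3⟩ := Sp2_plane hG hd l hl0
    exact hno v h1 h2 (by rw [← Sp2_psi_eval l e F v h2, h, map_zero]) h3
  have hpG0 : Sp2_psi l e G ≠ 0 := by
    intro h
    obtain ⟨v, h1, h2, h3⟩ := Sp2_plane hF hc l hl0
    exact hno v h1 h2 h3 (by rw [← Sp2_psi_eval l e G v h2, h, map_zero])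
  have hcop : IsRelPrime F G := Sp2_cop hF hF0 l hl0 hno
  have hpcop : IsRelPrime (Sp2_psi l e F) (Sp2_psi l e G) := by
    refine Sp2_cop (Sp2_psi_hom l e hF) hpF0 l hl0 fun v h1 h2 h3 h4 => ?_
    rw [Sp2_psi_eval l e _ v h2] at h3 h4
    exact hno v h1 h2 h3 h4
  have vFG : ∀ s, eval (y s) F = 0 ∧ eval (y s) G = 0 := fun s =>
    (hv (y s) (hy0 s)).2 ⟨s, 1, (one_smul ℂ _).symm⟩
  intro t f hf hfv
  have key : ∀ m : ℕ, Sp2_L l ^ m * f ∈ Ideal.span {F, G} → f ∈ Ideal.span {F, G} := by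
    intro m
    induction m with
    | zero => intro h; rwa [pow_zero, one_mul] at h
    | succ m ih =>
      intro h
      apply ih
      apply Sp2_cancel l e he hpcop hpG0 hL0
      rwa [← mul_assoc, ← pow_succ']
  apply key (c + d + Fintype.card I)
  refine Sp2_large y hy hy0 hN hF hG hF0 hG0 hcop (fun s => (vFG s).1) (fun s => (vFG s).2)
    (c + d + Fintype.card I + t) (by omega) (by omega) _ ?_ ?_
  · have h1 := ((Sp2_L_hom l).pow (c + d + Fintype.card I)).mul hf
    rwa [one_mul] at h1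
  · intro s
    rw [map_mul, hfv, mul_zero]

end GP80
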