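import Mathlib
import Pool.Agent.H3.GP.Defs
import Pool.Agent.H80.GP.GDefs
import Pool.Agent.H80.GP.Sp2

/-!
# Row Sp3 (MP_87ed0a_GP): a geproci set at a general centre  (about 180 lines)

`x : I → ℂ^4` with `Geom x` (nonzero coordinates, pairwise independent), `IsGeproci c d (pts x)` (definitions in Pool/Agent/H3/GP/Defs.lean: `1 ≤ c ≤ d`, `pts x` has `c d` points, and for all `P` with `D(P) ≠ 0` and all `π : ℂ^4 → ℂ^3` with kernel `span {P}` the image `projImage π (pts x)` is the set of common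
zeros of forms of degrees `c, d` and has `c d` points).  `card I = c d`: `s ↦ mk (x s)` is injective onto `pts x`.
Let `yP P z = (P_0 z_(j+1) - z_0 P_(j+1))_j`, linear in `z`, as a linear map `π_P : ℂ^4 → ℂ^3`, for `P_0 ≠ 0` with kernel `span {P}`.
`D' := D * X 0 * ∏_{s ≠ s'} (some nonzero polynomial in P which vanishes when P ∈ span (x s, x s'))`: for independent `z, z'` there is a nonzero linear form vanishing on their span; take it as factor.  If `D'(P) ≠ 0`, `y s := yP P (x s)` are pairwise independent (a relation `α y s + β y s' = 0`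
means `α x s + β x s' ∈ span {P}`, so (`x s, x s'` independent) `P ∈ span (x s, x s')` unless `α = β = 0`) and nonzero (same argument, or from the pairwise condition with another point; if `card I = 1` use also a linear form vanishing at `x s`).
`IsCI c d (projImage π_P (pts x))` gives `F, G` of degrees `c, d`; a vector `v ≠ 0` is a common zero iff `mk v ∈ projImage` (homogeneity: `rep` is a unit multiple of `v`) iff `v = r • y s` for some `s, r` (`p.rep` is a unit multiple of `x s`).  `ci_ideal`.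
-/

open Pool.Agent.H3.GP

namespace GP80

open MvPolynomial

/-- projection from `P` in the chart `0`, scaled by `P_0` -/
def yP (P z : Fin 4 → ℂ) : Fin 3 → ℂ :=
  fun j => P 0 * z ((0 : Fin 4).succAbove j) - z 0 * P ((0 : Fin 4).succAbove j)

/-- the projection as a linear map -/
def Sp3_pi (P : Fin 4 → ℂ) : (Fin 4 → ℂ) →ₗ[ℂ] (Fin 3 → ℂ) where
  toFun z := yP P z
  map_add' z z' := by
    funext j
    simp only [yP, Pi.add_apply]
    ring
  map_smul' c z := by
    funext j
    simp only [yP, Pi.smul_apply, smul_eq_mul, RingHom.id_apply]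
    ring

theorem Sp3_pi_apply (P z : Fin 4 → ℂ) : Sp3_pi P z = yP P z := rfl

theorem Sp3_ker {P z : Fin 4 → ℂ} (hP : P 0 ≠ 0) (h : yP P z = 0) : z = (z 0 / P 0) • P := by
  funext l
  rw [Pi.smul_apply, smul_eq_mul]
  refine Fin.cases ?_ (fun j => ?_) l
  · field_simp
  · have h1 := congrFun h j
    have h2 : P 0 * z j.succ - z 0 * P j.succ = 0 := h1
    field_simp
    linear_combination h2

theorem Sp3_kerspan {P : Fin 4 → ℂ} (hP : P 0 ≠ 0) :
    LinearMap.ker (Sp3_pi P) = Submodule.span ℂ {P} := by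
  ext z
  rw [LinearMap.mem_ker, Submodule.mem_span_singleton, Sp3_pi_apply]
  constructor
  · intro h
    exact ⟨z 0 / P 0, (Sp3_ker hP h).symm⟩
  · rintro ⟨c, rfl⟩
    funext j
    simp only [yP, Pi.smul_apply, smul_eq_mul, Pi.zero_apply]
    ring

theorem Sp3_scale {m : ℕ} {F : MvPolynomial (Fin 3) ℂ} (hF : F.IsHomogeneous m) (c : ℂ)
    (v : Fin 3 → ℂ) : eval (c • v) F = c ^ m * eval v F := by
  rw [eval_eq', eval_eq', Finset.mul_sum]
  apply Finset.sum_congr rfl
  intro e he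
  have h1 : e.weight 1 = m := hF (mem_support_iff.mp he)
  have h2 : ∑ i, e i = m := by
    rw [← h1, Finsupp.weight_apply, Finsupp.sum_fintype]
    · exact Finset.sum_congr rfl fun i _ => by simp
    · intro i
      simp
  simp only [Pi.smul_apply, smul_eq_mul, mul_pow]
  rw [Finset.prod_mul_distrib, Finset.prod_pow_eq_pow_sum, h2]
  ring

theorem Sp3_form (z z' : Fin 4 → ℂ) :
    ∃ a : Fin 4 → ℂ, a ≠ 0 ∧ ∑ i, a i * z i = 0 ∧ ∑ i, a i * z' i = 0 := by
  have hdet : (Matrix.of ![z, z', 0, 0] : Matrix (Fin 4) (Fin 4) ℂ).det = 0 := by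
    apply Matrix.det_eq_zero_of_row_eq_zero 3
    intro j
    rfl
  obtain ⟨v, hv, h⟩ := Matrix.exists_mulVec_eq_zero_iff.2 hdet
  refine ⟨v, hv, ?_, ?_⟩
  · have h0 := congrFun h 0
    have h1 : ∑ i, z i * v i = 0 := h0
    rw [← h1]
    exact Finset.sum_congr rfl fun i _ => mul_comm _ _
  · have h0 := congrFun h 1
    have h1 : ∑ i, z' i * v i = 0 := h0
    rw [← h1]
    exact Finset.sum_congr rfl fun i _ => mul_comm _ _

theorem Sp3_ne {a : Fin 4 → ℂ} (ha : a ≠ 0) : (∑ i, C (a i) * X i : RR) ≠ 0 := by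
  intro h
  apply ha
  funext l
  have h1 := congrArg (eval (fun j : Fin 4 => if j = l then (1 : ℂ) else 0)) h
  rw [map_sum, map_zero] at h1
  simp only [map_mul, eval_C, eval_X] at h1
  rw [Finset.sum_eq_single l] at h1
  · rw [if_pos rfl, mul_one] at h1
    exact h1
  · intro j _ hj
    rw [if_neg hj, mul_zero]
  · intro h2
    exact absurd (Finset.mem_univ l) h2

theorem Sp3_card {I : Type} [Fintype I] (x : I → Fin 4 → ℂ) (hx : Geom x) {c d : ℕ}
    (hg : IsGeproci c d (pts x)) : Fintype.card I = c * d := by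
  obtain ⟨_, _, _, hN, _⟩ := hg
  have hx0 : ∀ s, x s ≠ 0 := fun s h => hx.co s 0 (by rw [h]; rfl)
  have hinj : Function.Injective (fun s => Projectivization.mk ℂ (x s) (hx0 s)) := by
    intro s s' h
    by_contra hne
    obtain ⟨a, ha⟩ := (Projectivization.mk_eq_mk_iff' ℂ (x s) (x s') (hx0 s) (hx0 s')).1 h
    have h1 := LinearIndependent.pair_iff.1 (hx.ind s s' hne) 1 (-a) (by
      rw [one_smul, neg_smul, ha, add_neg_cancel])
    exact one_ne_zero h1.1
  have hr : pts x = (fun s => Projectivization.mk ℂ (x s) (hx0 s)) '' Set.univ := by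
    ext p
    constructor
    · rintro ⟨s, h, rfl⟩
      exact ⟨s, Set.mem_univ s, rfl⟩
    · rintro ⟨s, _, rfl⟩
      exact ⟨s, hx0 s, rfl⟩
  rw [hr, Set.ncard_image_of_injective _ hinj, Set.ncard_univ, Nat.card_eq_fintype_card] at hN
  exact hN

theorem spec_at {I : Type} [Fintype I] (x : I → Fin 4 → ℂ) (hx : Geom x) {c d : ℕ}
    (hg : IsGeproci c d (pts x)) :
    Fintype.card I = c * d ∧ ∃ D : RR, D ≠ 0 ∧ ∀ P : Fin 4 → ℂ, eval P D ≠ 0 →
      ∃ F G : MvPolynomial (Fin 3) ℂ, F.IsHomogeneous c ∧ G.IsHomogeneous d ∧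
        (∀ s, eval (yP P (x s)) F = 0) ∧ (∀ s, eval (yP P (x s)) G = 0) ∧
        ∀ t f, MvPolynomial.IsHomogeneous f t → (∀ s, eval (yP P (x s)) f = 0) →
          f ∈ Ideal.span {F, G} := by
  have hcard := Sp3_card x hx hg
  have hx0 : ∀ s, x s ≠ 0 := fun s h => hx.co s 0 (by rw [h]; rfl)
  refine ⟨hcard, ?_⟩
  obtain ⟨hc1, hcd, _, _, D0, hD0, hD⟩ := hg
  choose a ha0 ha1 ha2 using fun p : I × I => Sp3_form (x p.1) (x p.2)
  refine ⟨D0 * X 0 * ∏ p : I × I, (∑ i, C (a p i) * X i : RR), ?_, fun P hP => ?_⟩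
  · refine mul_ne_zero (mul_ne_zero hD0 (X_ne_zero 0)) ?_
    exact Finset.prod_ne_zero_iff.2 fun p _ => Sp3_ne (ha0 p)
  rw [map_mul, map_mul, eval_X, map_prod] at hP
  have hP0 : P 0 ≠ 0 := fun h => hP (by rw [h, mul_zero, zero_mul])
  have hPD : eval P D0 ≠ 0 := fun h => hP (by rw [h, zero_mul, zero_mul])
  have hPa : ∀ p : I × I, ∑ i, a p i * P i ≠ 0 := by
    intro p h
    have h1 := Finset.prod_ne_zero_iff.1 (right_ne_zero_of_mul hP) p (Finset.mem_univ p)
    apply h1
    rw [map_sum]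
    simp only [map_mul, eval_C, eval_X]
    exact h
  have hlin : ∀ (p : I × I) (α β : ℂ), ∑ i, a p i * (α • x p.1 + β • x p.2) i = 0 := by
    intro p α β
    have h1 : ∑ i, a p i * (α • x p.1 + β • x p.2) i =
        α * (∑ i, a p i * x p.1 i) + β * ∑ i, a p i * x p.2 i := by
      rw [Finset.mul_sum, Finset.mul_sum, ← Finset.sum_add_distrib]
      refine Finset.sum_congr rfl fun i _ => ?_
      simp only [Pi.add_apply, Pi.smul_apply, smul_eq_mul]
      ring
    rw [h1, ha1, ha2, mul_zero, mul_zero, add_zero]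
  have hkey : ∀ (p : I × I) (α β : ℂ), yP P (α • x p.1 + β • x p.2) = 0 →
      α • x p.1 + β • x p.2 = 0 := by
    intro p α β h
    have h1 := Sp3_ker hP0 h
    have h2 := hlin p α β
    rw [h1] at h2
    have h3 : ∑ i, a p i * (((α • x p.1 + β • x p.2) 0 / P 0) • P) i =
        ((α • x p.1 + β • x p.2) 0 / P 0) * ∑ i, a p i * P i := by
      rw [Finset.mul_sum]
      refine Finset.sum_congr rfl fun i _ => ?_
      rw [Pi.smul_apply, smul_eq_mul]
      ring
    rw [h3] at h2
    rcases mul_eq_zero.1 h2 with h4 | h4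
    · rw [h1, h4, zero_smul]
    · exact absurd h4 (hPa p)
  have hy0 : ∀ s, yP P (x s) ≠ 0 := by
    intro s h
    have h1 := hkey (s, s) 1 0 (by rw [one_smul, zero_smul, add_zero]; exact h)
    rw [one_smul, zero_smul, add_zero] at h1
    exact hx0 s h1
  have hy : ∀ s s', s ≠ s' → LinearIndependent ℂ ![yP P (x s), yP P (x s')] := by
    intro s s' hne
    rw [LinearIndependent.pair_iff]
    intro α β h
    have h1 : yP P (α • x s + β • x s') = 0 := by
      rw [← Sp3_pi_apply, map_add, map_smul, map_smul]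
      exact h
    exact LinearIndependent.pair_iff.1 (hx.ind s s' hne) α β (hkey (s, s') α β h1)
  obtain ⟨_, _, F, G, hF, hG, hFG⟩ := hD P hPD (Sp3_pi P) (Sp3_kerspan hP0)
  have hv : ∀ v : Fin 3 → ℂ, v ≠ 0 →
      ((eval v F = 0 ∧ eval v G = 0) ↔ ∃ s, ∃ r : ℂ, v = r • yP P (x s)) := by
    intro v hv0
    obtain ⟨b, hb⟩ := Projectivization.exists_smul_eq_mk_rep ℂ v hv0
    have hb' : (Projectivization.mk ℂ v hv0).rep = (b : ℂ) • v := hb.symm
    have hb0 : (b : ℂ) ≠ 0 := b.ne_zero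
    have h1 : (eval v F = 0 ∧ eval v G = 0) ↔
        (eval (Projectivization.mk ℂ v hv0).rep F = 0 ∧
          eval (Projectivization.mk ℂ v hv0).rep G = 0) := by
      rw [hb', Sp3_scale hF, Sp3_scale hG, mul_eq_zero, mul_eq_zero]
      constructor
      · rintro ⟨h2, h3⟩
        exact ⟨Or.inr h2, Or.inr h3⟩
      · rintro ⟨h2, h3⟩
        exact ⟨h2.resolve_left (pow_ne_zero _ hb0), h3.resolve_left (pow_ne_zero _ hb0)⟩
    rw [h1, ← hFG]
    constructor
    · rintro ⟨p, ⟨s, hs0, rfl⟩, h2, h3⟩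
      obtain ⟨e, he⟩ := Projectivization.exists_smul_eq_mk_rep ℂ (x s) hs0
      obtain ⟨g, hg⟩ := (Projectivization.mk_eq_mk_iff' ℂ v _ hv0 h2).1 h3
      refine ⟨s, g * (e : ℂ), ?_⟩
      rw [← hg, ← he, mul_smul]
      refine congrArg (fun w => g • w) ?_
      have h4 : (e • x s : Fin 4 → ℂ) = (e : ℂ) • x s := rfl
      rw [h4, map_smul, Sp3_pi_apply]
    · rintro ⟨s, r, rfl⟩
      have hr0 : r ≠ 0 := by
        intro h
        apply hv0
        rw [h, zero_smul]
      obtain ⟨e, he⟩ := Projectivization.exists_smul_eq_mk_rep ℂ (x s) (hx0 s)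
      have h4 : (Projectivization.mk ℂ (x s) (hx0 s)).rep = (e : ℂ) • x s := he.symm
      have h5 : Sp3_pi P (Projectivization.mk ℂ (x s) (hx0 s)).rep = (e : ℂ) • yP P (x s) := by
        rw [h4, map_smul, Sp3_pi_apply]
      have h6 : Sp3_pi P (Projectivization.mk ℂ (x s) (hx0 s)).rep ≠ 0 := by
        rw [h5]
        exact smul_ne_zero e.ne_zero (hy0 s)
      refine ⟨Projectivization.mk ℂ (x s) (hx0 s), ⟨s, hx0 s, rfl⟩, h6, ?_⟩
      rw [Projectivization.mk_eq_mk_iff']
      refine ⟨r * (e : ℂ)⁻¹, ?_⟩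
      rw [h5, smul_smul, mul_assoc, inv_mul_cancel₀ e.ne_zero, mul_one]
  refine ⟨F, G, hF, hG, fun s => ?_, fun s => ?_,
    ci_ideal (fun s => yP P (x s)) hy hy0 hc1 (hc1.trans hcd) hcard hF hG hv⟩
  · exact ((hv (yP P (x s)) (hy0 s)).2 ⟨s, 1, (one_smul ℂ _).symm⟩).1
  · exact ((hv (yP P (x s)) (hy0 s)).2 ⟨s, 1, (one_smul ℂ _).symm⟩).2

end GP80
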