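import Mathlib
import Pool.Agent.H80.GP.GDefs
import Pool.Agent.H80.GP.Kp1
import Pool.Agent.H80.GP.Ga3
import Pool.Agent.H80.GP.Sp1

/-!
# Row Sp4 (MP_87ed0a_GP): generation over the fraction field by specialisation  (about 200 lines)

`K = FractionRing RR`.  `y s ∈ RR^3` arbitrary vectors, `F1, G1 ∈ RR[X_1,X_2,X_3]` forms of degrees `c, d` vanishing at them; `P ∈ ℂ^4` such that at `P` the specialised forms `F1(P), G1(P)` generate the ideal of the specialised vectors `y s (P)` (in every degree).
Claim: over `K`, every form `f` of degree `t` vanishing at the vectors is in the ideal `(F1, G1)`.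
Proof.  Let `E_t : Matrix I (Mon t) RR` be the evaluation matrix, `E_t (s, m) = m(y s)`, and `R_t : Matrix (A ⊕ B) (Mon t) RR` the matrix whose rows are the coefficient vectors of `m F1`, `m ∈ A = Mon (t - c)` (empty if `t < c`), and `m G1`, `m ∈ B = Mon (t - d)` (empty if `t < d`).
The row space of `R_t` over `K` is `(F1, G1)_t`, over `ℂ` at `P` it is `(F1(P), G1(P))_t` (an element of degree `t` of the ideal is `A F1 + B G1` with `A, B` forms of degrees `t - c`, `t - d`, or zero: take components).  Kernel of `E_t` = forms of degree `t` vanishing at the points.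
`rank_K R_t ≥ rank R_t(P) = dim (F1(P), G1(P))_t = dim ker E_t(P) = nn t - rank E_t(P) ≥ nn t - rank_K E_t = dim ker_K E_t`, by `rank_spec` twice and the hypothesis; and `(F1, G1)_t ⊆ ker_K E_t`.  So they are equal.
-/

namespace GP80

open MvPolynomial

private theorem Sp4_deg_iff {t : ℕ} {d : Fin 3 →₀ ℕ} :
    d ∈ Finset.finsuppAntidiag (Finset.univ : Finset (Fin 3)) t ↔ d.degree = t := by
  rw [Finset.mem_finsuppAntidiag]
  constructor
  · rintro ⟨h, -⟩
    rw [← h, Finsupp.degree_eq_sum]
  · intro h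
    refine ⟨?_, Finset.subset_univ _⟩
    rw [← h, Finsupp.degree_eq_sum]

private noncomputable def Sp4_MA (c t : ℕ) : Finset (Fin 3 →₀ ℕ) :=
  if c ≤ t then Finset.finsuppAntidiag Finset.univ (t - c) else ∅

private theorem Sp4_mem_MA {c t : ℕ} {m : Fin 3 →₀ ℕ} : m ∈ Sp4_MA c t ↔ m.degree + c = t := by
  rw [Sp4_MA]
  split_ifs with h
  · rw [Sp4_deg_iff]
    omega
  · simp only [Finset.notMem_empty, false_iff]
    omega

private noncomputable def Sp4_N {O : Type} [CommRing O] (c d t : ℕ)
    (F G : MvPolynomial (Fin 3) O) : Matrix (Mon t) (Sp4_MA c t ⊕ Sp4_MA d t) O :=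
  Matrix.of fun m => Sum.elim (fun a => coeff m.1 (monomial a.1 (1 : O) * F))
    (fun b => coeff m.1 (monomial b.1 (1 : O) * G))

private noncomputable def Sp4_E {O I : Type} [CommRing O] (t : ℕ) (y : I → Fin 3 → O) :
    Matrix I (Mon t) O :=
  Matrix.of fun s m => eval (y s) (monomial m.1 (1 : O))

private def Sp4_v {O : Type} [CommRing O] (t : ℕ) (f : MvPolynomial (Fin 3) O) : Mon t → O :=
  fun m => coeff m.1 f

private theorem Sp4_N_map {O O' : Type} [CommRing O] [CommRing O'] (φ : O →+* O') {c d t : ℕ}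
    (F G : MvPolynomial (Fin 3) O) :
    (Sp4_N c d t F G).map φ = Sp4_N c d t (map φ F) (map φ G) := by
  ext m a
  rcases a with a | a
  · show φ (coeff m.1 (monomial a.1 (1 : O) * F)) = coeff m.1 (monomial a.1 (1 : O') * map φ F)
    rw [← coeff_map, map_mul, map_monomial, map_one]
  · show φ (coeff m.1 (monomial a.1 (1 : O) * G)) = coeff m.1 (monomial a.1 (1 : O') * map φ G)
    rw [← coeff_map, map_mul, map_monomial, map_one]

private theorem Sp4_eval_map {O O' : Type} [CommRing O] [CommRing O'] (φ : O →+* O')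
    (y : Fin 3 → O) (F : MvPolynomial (Fin 3) O) :
    eval (fun j => φ (y j)) (map φ F) = φ (eval y F) := by
  rw [eval_map]
  exact (eval₂_comp_left φ (RingHom.id O) y F).symm

private theorem Sp4_E_map {O O' I : Type} [CommRing O] [CommRing O'] (φ : O →+* O') {t : ℕ}
    (y : I → Fin 3 → O) :
    (Sp4_E t y).map φ = Sp4_E t (fun s j => φ (y s j)) := by
  ext s m
  show φ (eval (y s) (monomial m.1 (1 : O))) = eval (fun j => φ (y s j)) (monomial m.1 (1 : O'))
  rw [← Sp4_eval_map, map_monomial, map_one]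

private theorem Sp4_expand {O : Type} [CommRing O] {t : ℕ} {f : MvPolynomial (Fin 3) O}
    (hf : f.IsHomogeneous t) :
    f = ∑ m : Mon t, C (coeff m.1 f) * monomial m.1 (1 : O) := by
  obtain ⟨b, hb1, hb2⟩ := exists_basisMon O t
  have h := b.sum_repr (HS.mk f hf)
  have h2 := congrArg HS.val h
  rw [HS.val_sum, HS.val_mk] at h2
  conv_lhs => rw [← h2]
  refine Finset.sum_congr rfl fun m _ => ?_
  rw [HS.val_smul, hb1, hb2, HS.val_mk]

private theorem Sp4_eval {O I : Type} [CommRing O] {t : ℕ} {f : MvPolynomial (Fin 3) O}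
    (hf : f.IsHomogeneous t) (y : I → Fin 3 → O) (s : I) :
    (Sp4_E t y).mulVec (Sp4_v t f) s = eval (y s) f := by
  conv_rhs => rw [Sp4_expand hf]
  rw [map_sum]
  refine Finset.sum_congr rfl fun m _ => ?_
  rw [map_mul, eval_C, mul_comm]
  rfl

private theorem Sp4_exists_form {O : Type} [CommRing O] {t : ℕ} (v : Mon t → O) :
    ∃ f : MvPolynomial (Fin 3) O, f.IsHomogeneous t ∧ Sp4_v t f = v := by
  classical
  obtain ⟨b, hb1, hb2⟩ := exists_basisMon O t
  refine ⟨(∑ m, v m • b m).val, (∑ m, v m • b m).prop, ?_⟩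
  funext m
  show coeff m.1 (∑ m, v m • b m).val = v m
  rw [← hb2, map_sum, Finsupp.finsetSum_apply, Finset.sum_eq_single m]
  · simp
  · intro m' _ hm'
    rw [map_smul, Module.Basis.repr_self, Finsupp.smul_apply, Finsupp.single_apply, if_neg hm',
      smul_zero]
  · intro h
    exact absurd (Finset.mem_univ m) h

private theorem Sp4_coeff_mul {O : Type} [CommRing O] {c t : ℕ} {F : MvPolynomial (Fin 3) O}
    (hF : F.IsHomogeneous c) (a : MvPolynomial (Fin 3) O) {m : Fin 3 →₀ ℕ} (hm : m.degree = t) :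
    coeff m (a * F) = ∑ p : Sp4_MA c t, coeff m (monomial p.1 (1 : O) * F) * coeff p.1 a := by
  classical
  have h0 : ∀ p : Fin 3 →₀ ℕ, p.degree + c ≠ t → coeff m (monomial p (1 : O) * F) = 0 := by
    intro p hp
    have h1 : (monomial p (1 : O) * F).IsHomogeneous (p.degree + c) :=
      (isHomogeneous_monomial (1 : O) rfl).mul hF
    exact h1.coeff_eq_zero (by rw [hm]; exact hp.symm)
  have h2 : a * F = ∑ p ∈ a.support, C (coeff p a) * (monomial p (1 : O) * F) := by
    conv_lhs => rw [a.as_sum, Finset.sum_mul]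
    refine Finset.sum_congr rfl fun p _ => ?_
    rw [← mul_assoc, C_mul_monomial, mul_one]
  rw [h2, coeff_sum]
  simp only [coeff_C_mul]
  rw [Finset.sum_coe_sort (Sp4_MA c t) (fun p => coeff m (monomial p (1 : O) * F) * coeff p a)]
  have h3 : ∑ p ∈ a.support, coeff p a * coeff m (monomial p (1 : O) * F) =
      ∑ p ∈ a.support ∪ Sp4_MA c t, coeff p a * coeff m (monomial p (1 : O) * F) := by
    refine Finset.sum_subset Finset.subset_union_left fun p _ hp => ?_
    rw [notMem_support_iff.1 hp, zero_mul]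
  rw [h3]
  symm
  have h4 : ∑ p ∈ Sp4_MA c t, coeff p a * coeff m (monomial p (1 : O) * F) =
      ∑ p ∈ a.support ∪ Sp4_MA c t, coeff p a * coeff m (monomial p (1 : O) * F) := by
    refine Finset.sum_subset Finset.subset_union_right fun p _ hp => ?_
    rw [h0 p (fun h => hp (Sp4_mem_MA.2 h)), mul_zero]
  rw [← h4]
  exact Finset.sum_congr rfl fun p _ => mul_comm _ _

private theorem Sp4_mulVec {O : Type} [CommRing O] {c d t : ℕ} {F G : MvPolynomial (Fin 3) O}
    (hF : F.IsHomogeneous c) (hG : G.IsHomogeneous d) (a b : MvPolynomial (Fin 3) O) :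
    (Sp4_N c d t F G).mulVec (Sum.elim (fun p => coeff p.1 a) (fun p => coeff p.1 b)) =
      Sp4_v t (a * F + b * G) := by
  funext m
  show ∑ j, Sp4_N c d t F G m j * _ = coeff m.1 (a * F + b * G)
  rw [Fintype.sum_sum_type, coeff_add, Sp4_coeff_mul hF a (Sp4_deg_iff.1 m.2),
    Sp4_coeff_mul hG b (Sp4_deg_iff.1 m.2)]
  rfl

private theorem Sp4_mem {O : Type} [CommRing O] {c d t : ℕ} {F G f : MvPolynomial (Fin 3) O}
    (hF : F.IsHomogeneous c) (hG : G.IsHomogeneous d) (hf : f.IsHomogeneous t) :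
    f ∈ Ideal.span {F, G} ↔ ∃ w, (Sp4_N c d t F G).mulVec w = Sp4_v t f := by
  classical
  constructor
  · intro h
    obtain ⟨a, b, rfl⟩ := Ideal.mem_span_pair.1 h
    exact ⟨_, Sp4_mulVec hF hG a b⟩
  · rintro ⟨w, hw⟩
    let a : MvPolynomial (Fin 3) O := ∑ p : Sp4_MA c t, monomial p.1 (w (Sum.inl p))
    let b : MvPolynomial (Fin 3) O := ∑ p : Sp4_MA d t, monomial p.1 (w (Sum.inr p))
    have ha : ∀ p : Sp4_MA c t, coeff p.1 a = w (Sum.inl p) := by
      intro p
      show coeff p.1 (∑ p : Sp4_MA c t, monomial p.1 (w (Sum.inl p))) = _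
      rw [coeff_sum, Finset.sum_eq_single p]
      · rw [coeff_monomial, if_pos rfl]
      · intro q _ hq
        rw [coeff_monomial, if_neg fun h => hq (Subtype.ext h)]
      · intro h
        exact absurd (Finset.mem_univ p) h
    have hb : ∀ p : Sp4_MA d t, coeff p.1 b = w (Sum.inr p) := by
      intro p
      show coeff p.1 (∑ p : Sp4_MA d t, monomial p.1 (w (Sum.inr p))) = _
      rw [coeff_sum, Finset.sum_eq_single p]
      · rw [coeff_monomial, if_pos rfl]
      · intro q _ hq
        rw [coeff_monomial, if_neg fun h => hq (Subtype.ext h)]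
      · intro h
        exact absurd (Finset.mem_univ p) h
    have hahom : (a * F).IsHomogeneous t := by
      show ((∑ p : Sp4_MA c t, monomial p.1 (w (Sum.inl p))) * F).IsHomogeneous t
      rw [Finset.sum_mul]
      refine MvPolynomial.IsHomogeneous.sum _ _ _ fun p _ => ?_
      have := (isHomogeneous_monomial (w (Sum.inl p)) (rfl : p.1.degree = p.1.degree)).mul hF
      rwa [Sp4_mem_MA.1 p.2] at this
    have hbhom : (b * G).IsHomogeneous t := by
      show ((∑ p : Sp4_MA d t, monomial p.1 (w (Sum.inr p))) * G).IsHomogeneous t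
      rw [Finset.sum_mul]
      refine MvPolynomial.IsHomogeneous.sum _ _ _ fun p _ => ?_
      have := (isHomogeneous_monomial (w (Sum.inr p)) (rfl : p.1.degree = p.1.degree)).mul hG
      rwa [Sp4_mem_MA.1 p.2] at this
    have hw' : w = Sum.elim (fun p => coeff p.1 a) (fun p => coeff p.1 b) := by
      funext j
      rcases j with j | j
      · exact (ha j).symm
      · exact (hb j).symm
    rw [hw', Sp4_mulVec hF hG a b] at hw
    have hfab : f = a * F + b * G := by
      rw [Sp4_expand hf, Sp4_expand (hahom.add hbhom)]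
      refine Finset.sum_congr rfl fun m _ => ?_
      have := congrFun hw m
      show C (coeff m.1 f) * _ = C (coeff m.1 (a * F + b * G)) * _
      rw [show coeff m.1 (a * F + b * G) = coeff m.1 f from this]
    rw [hfab]
    exact Ideal.mem_span_pair.2 ⟨a, b, rfl⟩

theorem gen_of_spec {I : Type} [Fintype I] [DecidableEq I] (y : I → Fin 3 → RR) {c d : ℕ}
    {F1 G1 : MvPolynomial (Fin 3) RR} (hF : F1.IsHomogeneous c) (hG : G1.IsHomogeneous d)
    (vF : ∀ s, eval (y s) F1 = 0) (vG : ∀ s, eval (y s) G1 = 0) (P : Fin 4 → ℂ)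
    (hgen : ∀ t f, MvPolynomial.IsHomogeneous f t →
      (∀ s, eval (fun j => eval P (y s j)) f = 0) →
      f ∈ Ideal.span {map (eval P) F1, map (eval P) G1})
    {t : ℕ} {f : MvPolynomial (Fin 3) (FractionRing RR)} (hf : f.IsHomogeneous t)
    (hv : ∀ s, eval (fun j => algebraMap RR (FractionRing RR) (y s j)) f = 0) :
    f ∈ Ideal.span {map (algebraMap RR (FractionRing RR)) F1,
      map (algebraMap RR (FractionRing RR)) G1} := by
  classical
  have hinj : Function.Injective (algebraMap RR (FractionRing RR)) :=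
    IsFractionRing.injective RR (FractionRing RR)
  -- matrices
  have eN1 : (Sp4_N c d t F1 G1).map (eval P) = Sp4_N c d t (map (eval P) F1) (map (eval P) G1) :=
    Sp4_N_map (eval P) F1 G1
  have eN2 : (Sp4_N c d t F1 G1).map (algebraMap RR (FractionRing RR)) =
      Sp4_N c d t (map (algebraMap RR (FractionRing RR)) F1)
        (map (algebraMap RR (FractionRing RR)) G1) := Sp4_N_map _ F1 G1
  have eE1 : (Sp4_E t y).map (eval P) = Sp4_E t (fun s j => eval P (y s j)) := Sp4_E_map (eval P) y
  have eE2 : (Sp4_E t y).map (algebraMap RR (FractionRing RR)) =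
      Sp4_E t (fun s j => algebraMap RR (FractionRing RR) (y s j)) := Sp4_E_map _ y
  have r1 := rank_spec (Sp4_N c d t F1 G1) P
  have r2 := rank_spec (Sp4_E t y) P
  rw [eN1, eN2] at r1
  rw [eE1, eE2] at r2
  have hFP : (map (eval P) F1).IsHomogeneous c := hF.map _
  have hGP : (map (eval P) G1).IsHomogeneous d := hG.map _
  have hFK : (map (algebraMap RR (FractionRing RR)) F1).IsHomogeneous c := hF.map _
  have hGK : (map (algebraMap RR (FractionRing RR)) G1).IsHomogeneous d := hG.map _
  -- at P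
  have h1 : LinearMap.ker (Sp4_E t (fun s j => eval P (y s j))).mulVecLin ≤
      LinearMap.range (Sp4_N c d t (map (eval P) F1) (map (eval P) G1)).mulVecLin := by
    intro v hv'
    rw [LinearMap.mem_ker, Matrix.mulVecLin_apply] at hv'
    obtain ⟨g, hg, rfl⟩ := Sp4_exists_form v
    have hgv : ∀ s, eval (fun j => eval P (y s j)) g = 0 := by
      intro s
      rw [← Sp4_eval hg (fun s j => eval P (y s j)) s, hv']
      rfl
    obtain ⟨w, hw⟩ := (Sp4_mem hFP hGP hg).1 (hgen t g hg hgv)
    exact ⟨w, hw⟩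
  have h2 : LinearMap.range (Sp4_N c d t (map (algebraMap RR (FractionRing RR)) F1)
      (map (algebraMap RR (FractionRing RR)) G1)).mulVecLin ≤
      LinearMap.ker (Sp4_E t (fun s j => algebraMap RR (FractionRing RR) (y s j))).mulVecLin := by
    rintro v ⟨w, hw⟩
    rw [Matrix.mulVecLin_apply] at hw
    obtain ⟨g, hg, rfl⟩ := Sp4_exists_form v
    rw [LinearMap.mem_ker, Matrix.mulVecLin_apply]
    funext s
    rw [Sp4_eval hg]
    have hmem := (Sp4_mem hFK hGK hg).2 ⟨w, hw⟩
    obtain ⟨a, b, hab⟩ := Ideal.mem_span_pair.1 hmem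
    rw [← hab, map_add, map_mul, map_mul, Sp4_eval_map, Sp4_eval_map, vF, vG]
    simp
  have d1 := LinearMap.finrank_range_add_finrank_ker (Sp4_E t (fun s j => eval P (y s j))).mulVecLin
  have d2 := LinearMap.finrank_range_add_finrank_ker
    (Sp4_E t (fun s j => algebraMap RR (FractionRing RR) (y s j))).mulVecLin
  have d3 := Submodule.finrank_mono h1
  rw [Module.finrank_fintype_fun_eq_card] at d1 d2
  have h3 : LinearMap.range (Sp4_N c d t (map (algebraMap RR (FractionRing RR)) F1)
      (map (algebraMap RR (FractionRing RR)) G1)).mulVecLin =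
      LinearMap.ker (Sp4_E t (fun s j => algebraMap RR (FractionRing RR) (y s j))).mulVecLin := by
    apply Submodule.eq_of_le_of_finrank_le h2
    rw [Matrix.rank, Matrix.rank] at r1 r2
    omega
  refine (Sp4_mem hFK hGK hf).2 ?_
  have h4 : Sp4_v t f ∈ LinearMap.ker
      (Sp4_E t (fun s j => algebraMap RR (FractionRing RR) (y s j))).mulVecLin := by
    rw [LinearMap.mem_ker, Matrix.mulVecLin_apply]
    funext s
    rw [Sp4_eval hf, hv s]
    rfl
  rw [← h3] at h4
  obtain ⟨w, hw⟩ := h4
  exact ⟨w, hw⟩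

end GP80
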