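import Mathlib
import Pool.Agent.H3.GP.Defs
import Pool.Agent.H80.GP.GDefs
import Pool.Agent.H80.GP.Ga1
import Pool.Agent.H80.GP.Ga2
import Pool.Agent.H80.GP.Ga3
import Pool.Agent.H80.GP.Kp1
import Pool.Agent.H80.GP.Kp2
import Pool.Agent.H80.GP.Sp1
import Pool.Agent.H80.GP.Sp3
import Pool.Agent.H80.GP.Sp4

/-!
# Row Sp5 (MP_87ed0a_GP): the global pair of a geproci set  (about 230 lines)

`y s := fun j => X 0 * C (x s (j+1)) - C (x s 0) * X (j+1) ∈ RR^3` (`succAbove 0 j = j+1`); `eval P (y s j) = yP P (x s) j`.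
1. For `t ∈ {c, d}` the evaluation matrix `E_t (s, m) = ∏_j (y s j)^(m j) = m(y s)` has entries homogeneous of degree `t`; `lift_kernel` gives `Δ_t, r_t ≤ card I`.  Choose `P` with `(D Δ_c Δ_d)(P) ≠ 0` (`spec_at`, `MvPolynomial.funext`), get `F*, G*`; their coefficient vectors are in the kernels of `E_c(P)`, `E_d(P)`, so lift:
   `F1, G1 ∈ RR[X]` forms of degrees `c, d` with coefficients homogeneous of degrees `r_c c`, `r_d d`, vanishing at all `y s`, `map (eval P) F1 = F*`, `map (eval P) G1 = G*`.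
2. `F := hlift 0 F1`, `G := hlift 0 G1`: `x`-degrees `c, d`; `P`-degrees `f0 = r_c c + c ≤ (card I + 1) c`, `f' = r_d d + d ≤ (card I + 1) d`; `EE = 0`; `atz (x s) = eval (y s) = 0` (`atz_hlift`).
3. `gen`: let `H` be `E`-invariant, `x`-homogeneous of degree `t`, `atz (x s) H = 0`.  `H1 := chartH RR 0 H ∈ RR[X]`, form of degree `t`; `hlift_chart`: `hlift 0 H1 = inP (X 0 ^ t) * H`, so (`atz_hlift`) `eval (y s) H1 = 0`.  By `gen_of_spec` `map H1 = A map F1 + B map G1` over `K`; clear denominators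
   (`clear_den` with `M = nonZeroDivisors`): `C r * H1 = A1 F1 + B1 G1` in `RR[X]`, `r ≠ 0` (injectivity of `RR[X] → K[X]`).  Apply `hlift 0` (`hlift 0 (C r) = inP r`): `inP (r X_0^t) * H ∈ span {F, G}`.
4. `prim`: let `c < d`.  `F ≠ 0` (`F1 ≠ 0` since `F* ≠ 0`: if `F* = 0` all forms vanishing at the points would be multiples of `G*`, of degree `≥ d`; but the forms of degree `t` vanishing at `card I` points have dimension `≥ nn t - card I`, and `nn t - card I > nn (t - d)` for `t = card I`, `d ≥ 1`).  Among all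
   `Fm ∈ BB`, nonzero, `x`-homogeneous of degree `c`, `wP`-homogeneous of some degree `fm`, `EE Fm = 0`, with `inP r * Fm = inP r' * F` for some nonzero `r, r' ∈ RR`, choose one with `fm` minimal.  If `inP q ∣ Fm`, `q` prime: `Fm = inP q * F2`; `q` and `F2` are homogeneous: factors of the bihomogeneous `Fm`: `F2` is `x`-homogeneous of degree `c`
   (`inP q` has `x`-degree 0) and `wP`-homogeneous of degree `fm - deg q` (weighted version of `homog_of_mul`; `q` homogeneous of degree `δ ≥ 1` because it is a nonunit); `EE F2 = 0` (`EE` is a derivation, `EE (inP q) = 0`, `BB` a domain): contradicts minimality.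
   `atz (x s) Fm = 0` since `r * atz Fm = r' * atz F = 0`.  `gen` for `(Fm, G)`: `inP r' * F = inP r * Fm ∈ (Fm)`, so multiply the relation by `inP r'`.  `fm ≤ f0`.  Take `Fm` as the new `F`.
   For `c = d` nothing to do.
-/

open Pool.Agent.H3.GP

namespace GP80

open MvPolynomial

theorem Sp5_mem_iff {t : ℕ} {d : Fin 3 →₀ ℕ} :
    d ∈ Finset.finsuppAntidiag (Finset.univ : Finset (Fin 3)) t ↔ d.degree = t := by
  rw [Finset.mem_finsuppAntidiag]
  constructor
  · rintro ⟨h, -⟩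
    rw [← h, Finsupp.degree_eq_sum]
  · intro h
    refine ⟨?_, Finset.subset_univ _⟩
    rw [← h, Finsupp.degree_eq_sum]

theorem Sp5_coeff_sum {O : Type} [CommRing O] {t : ℕ} (c : Mon t → O) (d : Fin 3 →₀ ℕ) :
    coeff d (∑ m : Mon t, C (c m) * monomial m.1 (1 : O)) =
      if h : d ∈ Finset.finsuppAntidiag (Finset.univ : Finset (Fin 3)) t then c ⟨d, h⟩ else 0 := by
  classical
  rw [coeff_sum]
  simp only [coeff_C_mul, coeff_monomial]
  split_ifs with h
  · rw [Finset.sum_eq_single (⟨d, h⟩ : Mon t)]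
    · simp
    · intro b _ hb
      have : b.1 ≠ d := fun h' => hb (Subtype.ext h')
      rw [if_neg this, mul_zero]
    · intro h'
      exact absurd (Finset.mem_univ _) h'
  · refine Finset.sum_eq_zero fun b _ => ?_
    have : b.1 ≠ d := by
      intro h'
      apply h
      rw [← h']
      exact b.2
    rw [if_neg this, mul_zero]

theorem Sp5_hom_sum {O : Type} [CommRing O] {t : ℕ} (c : Mon t → O) :
    (∑ m : Mon t, C (c m) * monomial m.1 (1 : O)).IsHomogeneous t := by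
  refine MvPolynomial.IsHomogeneous.sum _ _ _ fun m _ => ?_
  exact (isHomogeneous_monomial (1 : O) (Sp5_mem_iff.1 m.2)).C_mul (c m)

theorem Sp5_key {O : Type} [CommRing O] {t : ℕ} (f : MvPolynomial (Fin 3) O)
    (hf : f.IsHomogeneous t) : ∑ m : Mon t, C (coeff m.1 f) * monomial m.1 (1 : O) = f := by
  ext d
  rw [Sp5_coeff_sum]
  split_ifs with hd
  · rfl
  · by_contra hne
    refine hd (Sp5_mem_iff.2 ?_)
    by_contra h
    exact hne (hf.coeff_eq_zero h).symm

/-- the projected points, as polynomials in the centre of projection -/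
noncomputable def Sp5_y (z : Fin 4 → ℂ) : Fin 3 → RR :=
  fun j => X 0 * C (z ((0 : Fin 4).succAbove j)) - C (z 0) * X ((0 : Fin 4).succAbove j)

theorem Sp5_y_hom (z : Fin 4 → ℂ) (j : Fin 3) : (Sp5_y z j).IsHomogeneous 1 := by
  unfold Sp5_y
  refine MvPolynomial.IsHomogeneous.sub ?_ ?_
  · rw [mul_comm]
    exact (isHomogeneous_X ℂ _).C_mul _
  · exact (isHomogeneous_X ℂ _).C_mul _

theorem Sp5_y_eval (z P : Fin 4 → ℂ) : (fun j => eval P (Sp5_y z j)) = yP P z := by
  funext j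
  unfold Sp5_y yP
  simp

theorem Sp5_lift {I : Type} [Fintype I] [DecidableEq I] (x : I → Fin 4 → ℂ) (t : ℕ) :
    ∃ (Δ : RR) (r : ℕ), Δ ≠ 0 ∧ r ≤ Fintype.card I ∧ ∀ P : Fin 4 → ℂ, eval P Δ ≠ 0 →
      ∀ f : MvPolynomial (Fin 3) ℂ, f.IsHomogeneous t → (∀ s, eval (yP P (x s)) f = 0) →
        ∃ F1 : MvPolynomial (Fin 3) RR, F1.IsHomogeneous t ∧
          (∀ e, (coeff e F1).IsHomogeneous (r * t)) ∧ (∀ s, eval (Sp5_y (x s)) F1 = 0) ∧
          map (eval P) F1 = f := by
  classical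
  obtain ⟨E, hE⟩ : ∃ E : Matrix I (Mon t) RR, E = Matrix.of fun s m =>
      ∏ j, (Sp5_y (x s) j) ^ (m.1 j) := ⟨_, rfl⟩
  have hEa : ∀ s m, E s m = ∏ j, (Sp5_y (x s) j) ^ (m.1 j) := fun s m => by rw [hE]; rfl
  have hEh : ∀ s m, (E s m).IsHomogeneous t := by
    intro s m
    rw [hEa]
    have h1 := MvPolynomial.IsHomogeneous.prod Finset.univ (fun j => (Sp5_y (x s) j) ^ (m.1 j))
      (fun j => 1 * m.1 j) (fun j _ => (Sp5_y_hom (x s) j).pow (m.1 j))
    have h2 : ∑ j, 1 * m.1 j = t := by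
      have h3 := Sp5_mem_iff.1 m.2
      rw [Finsupp.degree_eq_sum] at h3
      simpa using h3
    rwa [h2] at h1
  obtain ⟨Δ, r, hΔ, hr, hl⟩ := lift_kernel E t hEh
  refine ⟨Δ, r, hΔ, hr, fun P hP f hf hv => ?_⟩
  obtain ⟨w, hw, hwh, hwP⟩ := hl P hP (fun m => coeff m.1 f) (by
    funext s
    rw [Matrix.mulVec, dotProduct, Pi.zero_apply]
    have h1 := hv s
    rw [← Sp5_key f hf, map_sum] at h1
    rw [← h1]
    refine Finset.sum_congr rfl fun m _ => ?_
    rw [Matrix.map_apply, hEa, map_prod, map_mul, eval_C, eval_monomial, one_mul,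
      Finsupp.prod_fintype _ _ (fun j => pow_zero _), mul_comm]
    congr 1
    refine Finset.prod_congr rfl fun j _ => ?_
    rw [map_pow, ← Sp5_y_eval])
  refine ⟨∑ m : Mon t, C (w m) * monomial m.1 (1 : RR), Sp5_hom_sum w, ?_, ?_, ?_⟩
  · intro e
    rw [Sp5_coeff_sum]
    split_ifs with h
    · exact hwh _
    · exact isHomogeneous_zero _ _ _
  · intro s
    have h1 := congrFun hw s
    rw [Matrix.mulVec, dotProduct, Pi.zero_apply] at h1
    rw [map_sum, ← h1]
    refine Finset.sum_congr rfl fun m _ => ?_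
    rw [hEa, map_mul, eval_C, eval_monomial, one_mul,
      Finsupp.prod_fintype _ _ (fun j => pow_zero _), mul_comm]
  · rw [map_sum]
    conv_rhs => rw [← Sp5_key f hf]
    refine Finset.sum_congr rfl fun m _ => ?_
    rw [map_mul, map_C, map_monomial, hwP, map_one]

theorem Sp5_gen {I : Type} [Fintype I] [DecidableEq I] (x : I → Fin 4 → ℂ) {c d : ℕ}
    {F1 G1 : MvPolynomial (Fin 3) RR} (hF : F1.IsHomogeneous c) (hG : G1.IsHomogeneous d)
    (vF : ∀ s, eval (Sp5_y (x s)) F1 = 0) (vG : ∀ s, eval (Sp5_y (x s)) G1 = 0) (P : Fin 4 → ℂ)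
    (hgen : ∀ t f, MvPolynomial.IsHomogeneous f t → (∀ s, eval (yP P (x s)) f = 0) →
      f ∈ Ideal.span {map (eval P) F1, map (eval P) G1})
    (t : ℕ) (H : BB) (hH : IsWeightedHomogeneous wx H t) (hE : EE H = 0)
    (hz : ∀ s, atz (x s) H = 0) :
    ∃ r : RR, r ≠ 0 ∧ inP r * H ∈ Ideal.span {hlift 0 F1, hlift 0 G1} := by
  classical
  obtain ⟨H1, hH1⟩ : ∃ H1, H1 = chartH RR 0 H := ⟨_, rfl⟩
  have h1 : H1.IsHomogeneous t := by
    rw [hH1]
    exact chart_homog RR 0 hH
  have h2 : hlift 0 H1 = inP (X 0 ^ t) * H := by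
    rw [hH1]
    exact hlift_chart 0 hH hE
  have h3 : ∀ s, eval (Sp5_y (x s)) H1 = 0 := by
    intro s
    have h4 := atz_hlift 0 (x s) H1
    rw [h2, map_mul, hz s, mul_zero] at h4
    exact h4.symm
  have h5 := gen_of_spec (fun s => Sp5_y (x s)) hF hG vF vG P (by
    intro t' f hf hv
    refine hgen t' f hf fun s => ?_
    have h6 := hv s
    rwa [Sp5_y_eval] at h6) (h1.map (algebraMap RR (FractionRing RR))) (by
    intro s
    have h6 := h3 s
    rw [eval_map]
    have h7 := eval₂_comp_left (algebraMap RR (FractionRing RR)) (RingHom.id RR)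
      (Sp5_y (x s)) H1
    rw [RingHom.comp_id] at h7
    have h8 : eval₂ (RingHom.id RR) (Sp5_y (x s)) H1 = 0 := h6
    rw [h8, map_zero] at h7
    exact h7.symm)
  rw [Ideal.mem_span_pair] at h5
  obtain ⟨A, B, hAB⟩ := h5
  obtain ⟨u, hu, A0, hA0, -⟩ := clear_den (O := FractionRing RR) (nonZeroDivisors RR) le_rfl A
  obtain ⟨v, hv, B0, hB0, -⟩ := clear_den (O := FractionRing RR) (nonZeroDivisors RR) le_rfl B
  have hinj : Function.Injective (map (algebraMap RR (FractionRing RR)) :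
      MvPolynomial (Fin 3) RR → MvPolynomial (Fin 3) (FractionRing RR)) :=
    map_injective _ (IsFractionRing.injective RR (FractionRing RR))
  have h9 : C (u * v) * H1 = C v * A0 * F1 + C u * B0 * G1 := by
    apply hinj
    simp only [map_mul, map_add, map_C, ← hA0, ← hB0, ← hAB]
    ring
  have hu0 : u ≠ 0 := nonZeroDivisors.ne_zero hu
  have hv0 : v ≠ 0 := nonZeroDivisors.ne_zero hv
  refine ⟨u * v * X 0 ^ t, mul_ne_zero (mul_ne_zero hu0 hv0) (pow_ne_zero _ (X_ne_zero 0)), ?_⟩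
  rw [Ideal.mem_span_pair]
  refine ⟨hlift 0 (C v * A0), hlift 0 (C u * B0), ?_⟩
  have h10 := congrArg (hlift 0) h9
  rw [map_mul, Ga2_hlift_C, h2, map_add, map_mul (hlift 0) (C v * A0),
    map_mul (hlift 0) (C u * B0)] at h10
  rw [← h10, map_mul inP (u * v)]
  ring

theorem Sp5_ne {I : Type} [Fintype I] (y : I → Fin 3 → ℂ) {d : ℕ} (hd : 1 ≤ d)
    {G : MvPolynomial (Fin 3) ℂ} (hG : G.IsHomogeneous d) (hN : d ≤ Fintype.card I)
    (hgen : ∀ t f, MvPolynomial.IsHomogeneous f t → (∀ s, eval (y s) f = 0) →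
      f ∈ Ideal.span {(0 : MvPolynomial (Fin 3) ℂ), G}) : False := by
  classical
  obtain ⟨E, hE, hE0, hEd⟩ : ∃ E : MvPolynomial (Fin 3) ℂ, E.IsHomogeneous d ∧ E ≠ 0 ∧
      ∀ x, G ∣ x → E ∣ x := by
    by_cases hG0 : G = 0
    · refine ⟨X 0 ^ d, isHomogeneous_X_pow 0 d, pow_ne_zero _ (X_ne_zero 0), fun x hx => ?_⟩
      rw [hG0, zero_dvd_iff] at hx
      rw [hx]
      exact dvd_zero _
    · exact ⟨G, hG, hG0, fun x hx => hx⟩
  obtain ⟨N, hNe⟩ : ∃ N, N = Fintype.card I := ⟨_, rfl⟩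
  have h1 := LinearMap.finrank_range_add_finrank_ker (evHom y N)
  rw [finrank_hs] at h1
  have h2 : Module.finrank ℂ (LinearMap.range (evHom y N)) ≤ N := by
    refine (Submodule.finrank_le _).trans ?_
    rw [Module.finrank_fintype_fun_eq_card, hNe]
  have h3 : LinearMap.ker (evHom y N) ≤ mulSub E N := by
    intro f hf
    rw [LinearMap.mem_ker] at hf
    have h4 : f.val ∈ Ideal.span {(0 : MvPolynomial (Fin 3) ℂ), G} := by
      refine hgen N f.val f.prop fun s => ?_
      have h5 := congrFun hf s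
      rwa [evHom_apply] at h5
    rw [Ideal.mem_span_pair] at h4
    obtain ⟨a, b, hab⟩ := h4
    refine hEd _ ⟨b, ?_⟩
    rw [← hab]
    ring
  have h4 := Submodule.finrank_mono h3
  rw [finrank_mul E d hE hE0 N] at h4
  have h5 : nz ((N : ℤ) - d) = nn (N - d) := by
    rw [nz, if_pos (by omega)]
    congr 1
    omega
  rw [h5] at h4
  have h6 : nn (N - d) + N + 1 ≤ nn N := by
    have h7 := two_nn (N - d)
    have h8 := two_nn N
    obtain ⟨M, hM⟩ : ∃ M, N = M + 1 := ⟨N - 1, by omega⟩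
    have h9 : N - d ≤ M := by omega
    have h10 : (N - d + 2) * (N - d + 1) ≤ (M + 2) * (M + 1) := Nat.mul_le_mul (by omega) (by omega)
    subst hM
    nlinarith
  omega

/-- substitute `X_i ↦ T ^ (w i) X_i` -/
noncomputable def Sp5_phi (σ K : Type) [CommRing K] (w : σ → ℕ) :
    MvPolynomial σ K →+* Polynomial (MvPolynomial σ K) :=
  eval₂Hom (Polynomial.C.comp C) (fun i => Polynomial.X ^ (w i) * Polynomial.C (X i))

theorem Sp5_mono {σ K : Type} [CommRing K] (w : σ → ℕ) (d : σ →₀ ℕ) (r : K) :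
    Sp5_phi σ K w (monomial d r) =
      Polynomial.C (monomial d r) * Polynomial.X ^ (Finsupp.weight w d) := by
  unfold Sp5_phi
  rw [eval₂Hom_monomial, monomial_eq, map_mul, Finsupp.prod, Finsupp.prod]
  simp only [mul_pow, Finset.prod_mul_distrib, RingHom.comp_apply, ← pow_mul]
  rw [map_prod, Finset.prod_pow_eq_pow_sum, Finsupp.weight_apply, Finsupp.sum]
  simp only [map_pow, smul_eq_mul, mul_comm (w _)]
  ring

theorem Sp5_coeff {σ K : Type} [CommRing K] (w : σ → ℕ) (f : MvPolynomial σ K) (m : ℕ) :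
    (Sp5_phi σ K w f).coeff m = weightedHomogeneousComponent w m f := by
  classical
  induction f using MvPolynomial.induction_on' with
  | monomial d r =>
    have h0 : IsWeightedHomogeneous w (monomial d r) (Finsupp.weight w d) :=
      isWeightedHomogeneous_monomial w d r rfl
    rw [Sp5_mono, Polynomial.coeff_C_mul, Polynomial.coeff_X_pow,
      weightedHomogeneousComponent_of_mem h0]
    split_ifs with h
    · rw [mul_one]
    · rw [mul_zero]
  | add p q hp hq => rw [map_add, Polynomial.coeff_add, hp, hq, map_add]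

theorem Sp5_hom {σ K : Type} [CommRing K] {w : σ → ℕ} {f : MvPolynomial σ K} {a : ℕ}
    (h : ∀ m, m ≠ a → weightedHomogeneousComponent w m f = 0) : IsWeightedHomogeneous w f a := by
  classical
  have h1 : f = weightedHomogeneousComponent w a f := by
    ext d
    rw [coeff_weightedHomogeneousComponent]
    split_ifs with h2
    · rfl
    · have h3 := congrArg (coeff d) (h _ h2)
      rw [coeff_weightedHomogeneousComponent, if_pos rfl, coeff_zero] at h3
      exact h3
  rw [h1]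
  exact weightedHomogeneousComponent_isWeightedHomogeneous a f

theorem Sp5_of_mul {σ K : Type} [CommRing K] [IsDomain K] {w : σ → ℕ} {f g : MvPolynomial σ K}
    {n : ℕ} (h : IsWeightedHomogeneous w (f * g) n) (h0 : f * g ≠ 0) :
    ∃ a b : ℕ, a + b = n ∧ IsWeightedHomogeneous w f a ∧ IsWeightedHomogeneous w g b := by
  classical
  have h1 : Sp5_phi σ K w (f * g) = Polynomial.monomial n (f * g) := by
    ext1 m
    rw [Sp5_coeff, Polynomial.coeff_monomial, weightedHomogeneousComponent_of_mem h]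
    by_cases h1 : m = n
    · rw [if_pos h1, if_pos h1.symm]
    · rw [if_neg h1, if_neg (Ne.symm h1)]
  rw [map_mul] at h1
  have hne : Sp5_phi σ K w f * Sp5_phi σ K w g ≠ 0 := by
    rw [h1]
    exact (Polynomial.monomial_eq_zero_iff _ _).not.2 h0
  have hF := left_ne_zero_of_mul hne
  have hG := right_ne_zero_of_mul hne
  have h2 := Polynomial.natDegree_mul hF hG
  rw [h1, Polynomial.natDegree_monomial, if_neg h0] at h2
  have h3 := Polynomial.natTrailingDegree_mul hF hG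
  rw [h1, Polynomial.natTrailingDegree_monomial h0] at h3
  have h4 := Polynomial.natTrailingDegree_le_natDegree (Sp5_phi σ K w f)
  have h5 := Polynomial.natTrailingDegree_le_natDegree (Sp5_phi σ K w g)
  refine ⟨(Sp5_phi σ K w f).natDegree, (Sp5_phi σ K w g).natDegree, h2.symm, ?_, ?_⟩
  · refine Sp5_hom fun m hm => ?_
    rw [← Sp5_coeff]
    rcases lt_or_gt_of_ne hm with h6 | h6
    · exact Polynomial.coeff_eq_zero_of_lt_natTrailingDegree (by omega)
    · exact Polynomial.coeff_eq_zero_of_natDegree_lt h6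
  · refine Sp5_hom fun m hm => ?_
    rw [← Sp5_coeff]
    rcases lt_or_gt_of_ne hm with h6 | h6
    · exact Polynomial.coeff_eq_zero_of_lt_natTrailingDegree (by omega)
    · exact Polynomial.coeff_eq_zero_of_natDegree_lt h6

theorem Sp5_prim {c f0 : ℕ} {F : BB} (hF0 : F ≠ 0) (hx : IsWeightedHomogeneous wx F c)
    (hP : IsWeightedHomogeneous wP F f0) (hE : EE F = 0) :
    ∃ (fm : ℕ) (Fm : BB) (r r' : RR), fm ≤ f0 ∧ IsWeightedHomogeneous wx Fm c ∧
      IsWeightedHomogeneous wP Fm fm ∧ EE Fm = 0 ∧ r ≠ 0 ∧ r' ≠ 0 ∧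
      inP r * Fm = inP r' * F ∧ ∀ q : RR, Prime q → ¬ inP q ∣ Fm := by
  classical
  have hex : ∃ n : ℕ, ∃ (Fm : BB) (r r' : RR), IsWeightedHomogeneous wx Fm c ∧
      IsWeightedHomogeneous wP Fm n ∧ EE Fm = 0 ∧ r ≠ 0 ∧ r' ≠ 0 ∧ inP r * Fm = inP r' * F :=
    ⟨f0, F, 1, 1, hx, hP, hE, one_ne_zero, one_ne_zero, rfl⟩
  obtain ⟨Fm, r, r', h1, h2, h3, h4, h5, h6⟩ := Nat.find_spec hex
  refine ⟨Nat.find hex, Fm, r, r', Nat.find_min' hex
    ⟨F, 1, 1, hx, hP, hE, one_ne_zero, one_ne_zero, rfl⟩, h1, h2, h3, h4, h5, h6, ?_⟩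
  rintro q hq ⟨F2, hF2⟩
  have hinj : ∀ a : RR, a ≠ 0 → inP a ≠ 0 := fun a ha h => ha (inP_injective (by rw [h, map_zero]))
  have hFm0 : Fm ≠ 0 := by
    intro h7
    rw [h7, mul_zero] at h6
    exact mul_ne_zero (hinj r' h5) hF0 h6.symm
  have h7 : inP q * F2 ≠ 0 := by rw [← hF2]; exact hFm0
  have hx2 : IsWeightedHomogeneous wx F2 c := by
    have h8 := h1
    rw [hF2] at h8
    obtain ⟨a, b, hab, ha, hb⟩ := Sp5_of_mul h8 h7
    have h9 : a = 0 := ha.inj_right (left_ne_zero_of_mul h7) (inP_wx q)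
    have h10 : b = c := by omega
    rwa [h10] at hb
  obtain ⟨a, b, hab, ha, hb⟩ := Sp5_of_mul (w := wP) (by rw [← hF2]; exact h2) h7
  have ha0 : a ≠ 0 := by
    intro ha0
    rw [ha0] at ha
    have h8 := atz_wP ha (fun _ => 0)
    rw [atz_inP] at h8
    have h9 := (totalDegree_zero_iff_isHomogeneous (p := q)).2 h8
    rw [totalDegree_eq_zero_iff_eq_C] at h9
    rw [h9] at hq
    have h10 : coeff 0 q ≠ 0 := by
      intro h11
      rw [h11, C_0] at hq
      exact hq.ne_zero rfl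
    exact hq.not_isUnit ((isUnit_iff_ne_zero.2 h10).map C)
  have hE2 : EE F2 = 0 := by
    rw [hF2, Derivation.leibniz, EE_inP, smul_zero, add_zero, smul_eq_mul] at h3
    exact (mul_eq_zero.1 h3).resolve_left (left_ne_zero_of_mul h7)
  exact Nat.find_min hex (m := b) (by omega) ⟨F2, r * q, r', hx2, hb, hE2,
    mul_ne_zero h4 hq.ne_zero, h5, by rw [map_mul, mul_assoc, ← hF2, h6]⟩

theorem glob_of_geproci {I : Type} [Fintype I] [DecidableEq I] (x : I → Fin 4 → ℂ) (hx : Geom x)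
    {c d : ℕ} (hc : 2 ≤ c) (hg : IsGeproci c d (pts x)) :
    ∃ (f f' : ℕ) (F G : BB), Glob x c d f f' F G ∧ f ≤ (Fintype.card I + 1) * c ∧
      f' ≤ (Fintype.card I + 1) * d := by
  classical
  obtain ⟨hN, D, hD0, hD⟩ := spec_at x hx hg
  obtain ⟨Δc, rc, hΔc, hrc, hlc⟩ := Sp5_lift x c
  obtain ⟨Δd, rd, hΔd, hrd, hld⟩ := Sp5_lift x d
  have hcd : c ≤ d := hg.2.1
  obtain ⟨P, hP⟩ : ∃ P : Fin 4 → ℂ, eval P (D * Δc * Δd) ≠ 0 := by
    by_contra hno
    push Not at hno
    exact mul_ne_zero (mul_ne_zero hD0 hΔc) hΔd (MvPolynomial.funext fun P => by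
      rw [hno P, map_zero])
  rw [map_mul, map_mul] at hP
  obtain ⟨Fs, Gs, hFs, hGs, vFs, vGs, hgen⟩ := hD P (left_ne_zero_of_mul (left_ne_zero_of_mul hP))
  obtain ⟨F1, hF1, cF1, vF1, mF1⟩ := hlc P (right_ne_zero_of_mul (left_ne_zero_of_mul hP)) Fs hFs vFs
  obtain ⟨G1, hG1, cG1, vG1, mG1⟩ := hld P (right_ne_zero_of_mul hP) Gs hGs vGs
  rw [← mF1, ← mG1] at hgen
  have gen := Sp5_gen x hF1 hG1 vF1 vG1 P hgen
  have hFx := hlift_wx 0 hF1
  have hGx := hlift_wx 0 hG1
  have hFP := hlift_wP 0 hF1 cF1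
  have hGP := hlift_wP 0 hG1 cG1
  have hFE := hlift_EE 0 F1
  have hGE := hlift_EE 0 G1
  have hFz : ∀ s, atz (x s) (hlift 0 F1) = 0 := fun s => (atz_hlift 0 (x s) F1).trans (vF1 s)
  have hGz : ∀ s, atz (x s) (hlift 0 G1) = 0 := fun s => (atz_hlift 0 (x s) G1).trans (vG1 s)
  have hle : rc * c + c ≤ (Fintype.card I + 1) * c := by
    rw [add_mul, one_mul]
    exact Nat.add_le_add_right (Nat.mul_le_mul_right _ hrc) _
  have hle' : rd * d + d ≤ (Fintype.card I + 1) * d := by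
    rw [add_mul, one_mul]
    exact Nat.add_le_add_right (Nat.mul_le_mul_right _ hrd) _
  obtain ⟨F, hFe⟩ : ∃ F, F = hlift 0 F1 := ⟨_, rfl⟩
  obtain ⟨G, hGe⟩ : ∃ G, G = hlift 0 G1 := ⟨_, rfl⟩
  rw [← hFe] at hFx hFP hFE hFz
  rw [← hGe] at hGx hGP hGE hGz
  rw [← hFe, ← hGe] at gen
  rcases hcd.eq_or_lt with hcd' | hcd'
  · refine ⟨rc * c + c, rd * d + d, F, G, ⟨hc, hcd, hN, hFx, hFP, hGx, hGP, hFE, hGE, hFz, hGz, gen,
      fun h => absurd h (by omega)⟩, hle, hle'⟩
  have hF0 : F ≠ 0 := by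
    intro h0
    have h1 : F1 = 0 := by
      have h2 := chart_hlift RR 0 hF1
      rw [← hFe, h0, map_zero] at h2
      have h3 : map (algebraMap RR RR) F1 = F1 := by
        rw [Algebra.algebraMap_self, map_id]
      rw [h3] at h2
      refine (mul_eq_zero.1 h2.symm).resolve_left ?_
      intro h4
      rw [Algebra.algebraMap_self, RingHom.id_apply, C_eq_zero] at h4
      exact pow_ne_zero _ (X_ne_zero 0) h4
    rw [h1, map_zero, mG1] at hgen
    refine Sp5_ne (fun s => yP P (x s)) (by omega) hGs ?_ hgen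
    rw [hN]
    exact Nat.le_mul_of_pos_left _ (by omega)
  obtain ⟨fm, Fm, r, r', hfm, hmx, hmP, hmE, hr, hr', hrr, hprim⟩ := Sp5_prim hF0 hFx hFP hFE
  refine ⟨fm, rd * d + d, Fm, G, ⟨hc, hcd, hN, hmx, hmP, hGx, hGP, hmE, hGE, ?_, hGz, ?_,
      fun _ => hprim⟩, hfm.trans hle, hle'⟩
  · intro s
    have h1 := congrArg (atz (x s)) hrr
    rw [map_mul, map_mul, atz_inP, atz_inP, hFz s, mul_zero] at h1
    exact (mul_eq_zero.1 h1).resolve_left hr
  · intro t H hH hE hz
    obtain ⟨u, hu, hI⟩ := gen t H hH hE hz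
    rw [Ideal.mem_span_pair] at hI
    obtain ⟨A, B, hAB⟩ := hI
    refine ⟨r' * u, mul_ne_zero hr' hu, ?_⟩
    rw [Ideal.mem_span_pair]
    refine ⟨A * inP r, B * inP r', ?_⟩
    rw [map_mul]
    linear_combination A * hrr + inP r' * hAB

end GP80
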