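import Mathlib
import Pool.Agent.H3.GP.Defs
import Pool.Agent.H80.GP.GDefs
import Pool.Agent.H80.GP.NDefs
import Pool.Agent.H80.GP.Cm8
import Pool.Agent.H80.GP.Dat
import Pool.Agent.H80.GP.Gct
import Pool.Agent.H80.GP.Kgn
import Pool.Agent.H80.GP.Nok
import Pool.Agent.H80.GP.Sp5

/-!
# Row Fn1 (MP_87ed0a_GP): near an (a,b)-grid there is no (c,d)-geproci set with a < c ≤ d < b  (about 150 lines)

* `no_geproci`: `NearOK a b x Bd` with `Bd = 2 * ((a*b + 1) * (a*b))`, `2 ≤ a < c ≤ d < b`, `c d = a b`: `pts (fun s => x s.1 s.2)` is not `(c,d)`-geproci.  Proof: `glob_of_geproci` (`geom_of_near`) gives `f ≤ (ab+1) c ≤ (ab+1) ab`, `f' ≤ (ab+1) d ≤ (ab+1) ab`; `cdata`; `comb_final` gives `6 ≤ b` and the planes;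
  `grid_contra` with `m = d` (`col_bound`).
* `geproci_mulVec`: invariance of `IsGeproci` under an invertible matrix, as in Pool/Agent/H3/GP/INV.lean: `D' = bind₁ (∑_j C (M⁻¹_ij) X_j) D` so `D'(P) = D(M⁻¹ P)`; for `π` with kernel `span {P}`, `π' = π ∘ M` has kernel `span {M⁻¹ P}`, and `projImage π (pts (M x)) = projImage π' (pts x)` (points: `rep` of `mk (M x s)` is a unit multiple of `M x s`);
  `pts (M x)` is finite with the same number of points (bijection induced by `M`).
* `near_contra`: choose `M` by `exists_coords` for the vectors of `x0` (nonzero by `ind`); `x0' = M x0` is a `GridVec` (`gridVec_mulVec`) with nonzero coordinates; `near_ok` for `x0'`; `x ↦ M x` is continuous at `x0`; apply `no_geproci` to `M x` and `geproci_mulVec`.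
-/

open Filter Topology Pool.Agent.H3.GP

namespace GP80

theorem no_geproci {a b : ℕ} (ha : 2 ≤ a) {x : Fin a → Fin b → Fin 4 → ℂ}
    (hx : NearOK a b x (2 * ((a * b + 1) * (a * b)))) {c d : ℕ} (hac : a < c) (hcd : c ≤ d)
    (hdb : d < b) (hN : c * d = a * b) :
    ¬ IsGeproci c d (pts (fun s : Fin a × Fin b => x s.1 s.2)) := by
  intro hg
  have hb2 : 2 ≤ b := by omega
  have hgeom := geom_of_near ha hb2 hx
  obtain ⟨f, f', F, G, hGl, hf, hf'⟩ :=
    glob_of_geproci (fun s : Fin a × Fin b => x s.1 s.2) hgeom (by omega) hg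
  have hcard : Fintype.card (Fin a × Fin b) = a * b := by
    rw [Fintype.card_prod, Fintype.card_fin, Fintype.card_fin]
  rw [hcard] at hf hf'
  have hbab : b ≤ a * b := Nat.le_mul_of_pos_left b (by omega)
  have hf2 : f ≤ (a * b + 1) * (a * b) := hf.trans (Nat.mul_le_mul_left _ (by omega))
  have hf2' : f' ≤ (a * b + 1) * (a * b) := hf'.trans (Nat.mul_le_mul_left _ (by omega))
  obtain ⟨P, hP, dl, g, n, jj, lam, om, vt, oL, eF, hh, hD, hpl⟩ :=
    cdata hx ha hac hcd hdb hN hGl (by omega) (by omega)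
  obtain ⟨hb6, hpl2⟩ := comb_final hD
  refine grid_contra (m := d) ha (by omega) hdb hx (col_bound _ hgeom hGl) ?_
  intro l j
  obtain ⟨p, hp, hp2⟩ := hpl2 l j
  exact ⟨hh p, (hpl p hp).1, fun s hs hne => (hpl p hp).2 s (hp2 s hs hne)⟩

theorem Fn1_proj (π : (Fin 4 → ℂ) →ₗ[ℂ] (Fin 3 → ℂ)) (M : (Fin 4 → ℂ) →ₗ[ℂ] (Fin 4 → ℂ))
    (hM : Function.Injective M) (Z : Set (Projectivization ℂ (Fin 4 → ℂ))) :
    projImage π (Projectivization.map M hM '' Z) = projImage (π ∘ₗ M) Z := by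
  have key : ∀ p : Projectivization ℂ (Fin 4 → ℂ), ∃ u : ℂˣ,
      u • M p.rep = (Projectivization.map M hM p).rep := by
    intro p
    have h1 : Projectivization.map M hM p =
        Projectivization.mk ℂ (M p.rep) (by
          rw [← M.map_zero]; exact hM.ne p.rep_nonzero) := by
      conv_lhs => rw [← Projectivization.mk_rep p]
      rw [Projectivization.map_mk]
    rw [h1]
    exact Projectivization.exists_smul_eq_mk_rep ℂ _ _
  ext q
  constructor
  · rintro ⟨_, ⟨p, hp, rfl⟩, h, rfl⟩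
    obtain ⟨u, hu⟩ := key p
    have h2 : π (Projectivization.map M hM p).rep = u • (π ∘ₗ M) p.rep := by
      rw [← hu, Units.smul_def, Units.smul_def, map_smul]; rfl
    have h3 : (π ∘ₗ M) p.rep ≠ 0 := by
      intro h0
      apply h
      rw [h2, h0, smul_zero]
    refine ⟨p, hp, h3, ?_⟩
    rw [Projectivization.mk_eq_mk_iff]
    exact ⟨u, h2.symm⟩
  · rintro ⟨p, hp, h, rfl⟩
    obtain ⟨u, hu⟩ := key p
    have h2 : π (Projectivization.map M hM p).rep = u • (π ∘ₗ M) p.rep := by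
      rw [← hu, Units.smul_def, Units.smul_def, map_smul]; rfl
    have h3 : π (Projectivization.map M hM p).rep ≠ 0 := by
      rw [h2, Units.smul_def]
      exact smul_ne_zero u.ne_zero h
    refine ⟨_, ⟨p, hp, rfl⟩, h3, ?_⟩
    symm
    rw [Projectivization.mk_eq_mk_iff]
    exact ⟨u, h2.symm⟩

theorem Fn1_pts {I : Type} (x : I → Fin 4 → ℂ) (M : (Fin 4 → ℂ) →ₗ[ℂ] (Fin 4 → ℂ))
    (hM : Function.Injective M) :
    pts (fun s => M (x s)) = Projectivization.map M hM '' pts x := by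
  ext p
  constructor
  · rintro ⟨i, h, rfl⟩
    have h1 : x i ≠ 0 := by
      intro h0
      apply h
      change M (x i) = 0
      rw [h0, map_zero]
    refine ⟨Projectivization.mk ℂ (x i) h1, ⟨i, h1, rfl⟩, ?_⟩
    rw [Projectivization.map_mk]
  · rintro ⟨_, ⟨i, h, rfl⟩, rfl⟩
    rw [Projectivization.map_mk]
    exact ⟨i, _, rfl⟩

theorem geproci_mulVec {I : Type} [Fintype I] (x : I → Fin 4 → ℂ) (M : Matrix (Fin 4) (Fin 4) ℂ)
    (hM : IsUnit M.det) {c d : ℕ} (h : IsGeproci c d (pts x)) :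
    IsGeproci c d (pts (fun s => M.mulVec (x s))) := by
  have hinj : Function.Injective M.mulVecLin :=
    Matrix.mulVec_injective_iff_isUnit.2 ((Matrix.isUnit_iff_isUnit_det M).2 hM)
  have hinv : M⁻¹ * M = 1 := Matrix.nonsing_inv_mul M hM
  have hinv' : M * M⁻¹ = 1 := Matrix.mul_nonsing_inv M hM
  have hpts : pts (fun s => M.mulVec (x s)) = Projectivization.map M.mulVecLin hinj '' pts x :=
    Fn1_pts x M.mulVecLin hinj
  obtain ⟨h1, h2, h3, h4, D, hD, h5⟩ := h
  rw [hpts]
  refine ⟨h1, h2, h3.image _, ?_, ?_⟩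
  · rw [Set.ncard_image_of_injective _ (Projectivization.map_injective M.mulVecLin hinj), h4]
  set D' : MvPolynomial (Fin 4) ℂ :=
    MvPolynomial.bind₁ (fun i => ∑ j, MvPolynomial.C (M⁻¹ i j) * MvPolynomial.X j) D with hD'
  have heval : ∀ P : Fin 4 → ℂ, MvPolynomial.eval P D' = MvPolynomial.eval (M⁻¹.mulVec P) D := by
    intro P
    have h1 : MvPolynomial.eval P D' = MvPolynomial.eval
        (fun i => MvPolynomial.eval P (∑ j, MvPolynomial.C (M⁻¹ i j) * MvPolynomial.X j)) D := by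
      rw [hD']
      exact MvPolynomial.eval₂Hom_bind₁ (RingHom.id ℂ) P
        (fun i => ∑ j, MvPolynomial.C (M⁻¹ i j) * MvPolynomial.X j) D
    rw [h1]
    congr 1
    congr 1
    ext i
    simp [Matrix.mulVec, dotProduct]
  refine ⟨D', ?_, ?_⟩
  · intro h0
    apply hD
    apply MvPolynomial.funext
    intro y
    have h1 := heval (M.mulVec y)
    rw [Matrix.mulVec_mulVec, hinv, Matrix.one_mulVec, h0, map_zero] at h1
    rw [← h1, map_zero]
  · intro P hP π hπ
    rw [Fn1_proj]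
    refine h5 (M⁻¹.mulVec P) (by rw [← heval]; exact hP) _ ?_
    ext v
    rw [LinearMap.mem_ker, LinearMap.comp_apply, Matrix.mulVecLin_apply, ← LinearMap.mem_ker, hπ,
      Submodule.mem_span_singleton, Submodule.mem_span_singleton]
    constructor
    · rintro ⟨a, ha⟩
      refine ⟨a, ?_⟩
      rw [← Matrix.mulVec_smul, ha, Matrix.mulVec_mulVec, hinv, Matrix.one_mulVec]
    · rintro ⟨a, ha⟩
      refine ⟨a, ?_⟩
      rw [← ha, Matrix.mulVec_smul, Matrix.mulVec_mulVec, hinv', Matrix.one_mulVec]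

theorem near_contra {a b : ℕ} (ha : 2 ≤ a) (hb : 2 ≤ b) (x0 : Fin a → Fin b → Fin 4 → ℂ)
    (h0 : GridVec a b x0) : ∀ᶠ x in 𝓝 x0, ∀ c d, a < c → c ≤ d → d < b → c * d = a * b →
      ¬ IsGeproci c d (pts (fun s : Fin a × Fin b => x s.1 s.2)) := by
  have hnz : ∀ s : Fin a × Fin b, x0 s.1 s.2 ≠ 0 := by
    rintro ⟨k, j⟩
    have : Nontrivial (Fin a) := Fin.nontrivial_iff_two_le.2 ha
    have : Nontrivial (Fin b) := Fin.nontrivial_iff_two_le.2 hb
    obtain ⟨k2, hk2⟩ := exists_ne k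
    obtain ⟨j2, hj2⟩ := exists_ne j
    exact (h0.ind k k2 j j2 hk2.symm hj2.symm).ne_zero 0
  obtain ⟨M, hM, hMc⟩ := exists_coords (fun s : Fin a × Fin b => x0 s.1 s.2) hnz
  have h2 := near_ok ha hb _ (gridVec_mulVec x0 h0 M hM) (fun k m i => hMc (k, m) i)
    (2 * ((a * b + 1) * (a * b)))
  have hcont : Continuous (fun (x : Fin a → Fin b → Fin 4 → ℂ) (k : Fin a) (m : Fin b) =>
      M.mulVec (x k m)) := by
    refine continuous_pi fun k => continuous_pi fun m => ?_
    exact Continuous.matrix_mulVec continuous_const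
      ((continuous_apply m).comp (continuous_apply k))
  have h3 := hcont.continuousAt.eventually h2
  filter_upwards [h3] with x hx c d hac hcd hdb hN hg
  exact no_geproci ha hx hac hcd hdb hN
    (geproci_mulVec (fun s : Fin a × Fin b => x s.1 s.2) M hM hg)

end GP80
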