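import Mathlib
import Pool.Agent.H3.GP.Defs
import Pool.Agent.H3.GP.UNP
import Pool.Agent.H3.GP.OPN
import Pool.Agent.H3.GP.FIN
import Pool.Agent.H80.GP.Fn1
import Pool.Agent.H80.GP.FDefs

/-!
# Row Fam (MP_87ed0a_GP): all geproci sets near a grid are grids; families  (about 170 lines)

* `near_grid`: combine `FIN` (Pool/Agent/H3/GP/FIN.lean) and `near_contra`: `UNP` gives the labelling `e : Fin a × Fin b ≃ Fin (a * b)` with `GridVec`; `z ↦ (k, j) ↦ z (e (k, j))` is continuous; `pts z = pts (fun s => z (e s))` (see the proof of `FIN`).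
* `near_family`: `IsFamily N Z`, `Z t0` an `(a,b)`-grid.  `Z t0 = pts z0` for some `z0 : Fin (a * b) → Fin 4 → ℂ` (grid: `a b` distinct points: `p.submodule = A k ⊓ B j` is a line through the vector spanning `A k ⊓ B j`; choose the vectors; `Z t0` has exactly `a * b` elements: for `(k,j) ≠ (k',j')`
  the lines `A k ⊓ B j` differ because `A k ⊓ A k' = ⊥` or `B j ⊓ B j' = ⊥`), with `LinearIndependent ℂ ![z0 i, z0 j]` for `i ≠ j`, `N = a * b`.
  The set of `z` with the property of `near_grid` and with all pairs `z i, z j`, `i ≠ j`, independent (open condition, as in `OPN`) is a neighbourhood of `z0`, so it contains a product `∏ W_i` of open sets `W_i ∋ z0 i`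
  (`set_pi_mem_nhds_iff` / `mem_nhds_pi`...).  For `t` in the finite intersection of the open sets `{t | ∃ v ∈ W_i, ∃ hv, mk v hv ∈ Z t}` (they contain `t0`) choose `z i ∈ W_i` with `mk (z i) ∈ Z t`: `a b = N` different points of `Z t`, which has `N` elements, so `Z t = pts z`.
-/

open Filter Topology Pool.Agent.H3.GP

namespace GP80

theorem Fam_mk_eq {v w : Fin 4 → ℂ} (hv : v ≠ 0) (hw : w ≠ 0)
    (h : LinearIndependent ℂ ![v, w]) :
    Projectivization.mk ℂ v hv ≠ Projectivization.mk ℂ w hw := by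
  intro h2
  rw [Projectivization.mk_eq_mk_iff'] at h2
  obtain ⟨c, hc⟩ := h2
  rw [LinearIndependent.pair_iff] at h
  have h3 := h 1 (-c) (by rw [one_smul, neg_smul, hc, add_neg_cancel])
  exact one_ne_zero h3.1

theorem Fam_indep {v w : Fin 4 → ℂ} (hv : v ≠ 0) (hw : w ≠ 0)
    (h : Projectivization.mk ℂ v hv ≠ Projectivization.mk ℂ w hw) :
    LinearIndependent ℂ ![v, w] := by
  rw [LinearIndependent.pair_iff]
  intro s t hst
  by_cases hs : s = 0
  · subst hs
    rw [zero_smul, zero_add] at hst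
    exact ⟨rfl, (smul_eq_zero.1 hst).resolve_right hw⟩
  · exfalso
    apply h
    rw [Projectivization.mk_eq_mk_iff']
    refine ⟨-(t / s), ?_⟩
    have h1 : s • v = -(t • w) := eq_neg_of_add_eq_zero_left hst
    have h2 : v = s⁻¹ • (s • v) := by rw [smul_smul, inv_mul_cancel₀ hs, one_smul]
    rw [h2, h1, smul_neg, smul_smul, ← neg_smul]
    congr 1
    rw [div_eq_inv_mul]

theorem Fam_ncard {N : ℕ} (z : Fin N → Fin 4 → ℂ) (hne : ∀ i, z i ≠ 0)
    (hi : ∀ i j, i ≠ j → LinearIndependent ℂ ![z i, z j]) : (pts z).ncard = N := by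
  have hset : pts z = Set.range (fun i => Projectivization.mk ℂ (z i) (hne i)) := by
    ext p
    constructor
    · rintro ⟨i, hi, rfl⟩
      exact ⟨i, rfl⟩
    · rintro ⟨i, rfl⟩
      exact ⟨i, hne i, rfl⟩
  have hinj : Function.Injective (fun i => Projectivization.mk ℂ (z i) (hne i)) := by
    intro i j hij
    by_contra hne2
    exact Fam_mk_eq (hne i) (hne j) (hi i j hne2) hij
  rw [hset, ← Set.image_univ, Set.ncard_image_of_injective _ hinj, Set.ncard_univ, Nat.card_fin]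

theorem Fam_open {N : ℕ} (z₀ : Fin N → Fin 4 → ℂ)
    (hi : ∀ i j, i ≠ j → LinearIndependent ℂ ![z₀ i, z₀ j]) :
    ∀ᶠ z in 𝓝 z₀, ∀ i j, i ≠ j → LinearIndependent ℂ ![z i, z j] := by
  rw [Filter.eventually_all]
  intro i
  rw [Filter.eventually_all]
  intro j
  by_cases hij : i = j
  · exact Filter.Eventually.of_forall fun x h1 => absurd hij h1
  have hopen : IsOpen {v : Fin 2 → Fin 4 → ℂ | LinearIndependent ℂ v} :=
    isOpen_setOfPred_linearIndependent
  have hcont : Tendsto (fun z : Fin N → Fin 4 → ℂ => ![z i, z j]) (𝓝 z₀)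
      (𝓝 ![z₀ i, z₀ j]) := by
    rw [tendsto_pi_nhds]
    intro l
    fin_cases l
    · exact (continuous_apply i).tendsto z₀
    · exact (continuous_apply j).tendsto z₀
  have h2 := hcont.eventually (hopen.mem_nhds (hi i j hij))
  exact h2.mono fun x hx _ => hx

/-- vectors of a grid -/
theorem Fam_vec {a b : ℕ} {Z : Set (Projectivization ℂ (Fin 4 → ℂ))} (h : IsGrid a b Z) :
    ∃ z₀ : Fin (a * b) → Fin 4 → ℂ, (∀ i, z₀ i ≠ 0) ∧ pts z₀ = Z ∧
      ∀ i j, i ≠ j → LinearIndependent ℂ ![z₀ i, z₀ j] := by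
  obtain ⟨ha, hab, A, B, hA, hB, sA, sB, hAB, hZ⟩ := h
  set f : Fin a × Fin b → Projectivization ℂ (Fin 4 → ℂ) := fun kj =>
    Projectivization.mk'' (A kj.1 ⊓ B kj.2) (hAB kj.1 kj.2) with hf
  have hfs : ∀ kj, (f kj).submodule = A kj.1 ⊓ B kj.2 := fun kj =>
    Projectivization.submodule_mk'' _ _
  have hmem : ∀ kj, (f kj).rep ∈ A kj.1 ⊓ B kj.2 := by
    intro kj
    rw [← hfs kj, Projectivization.submodule_eq]
    exact Submodule.mem_span_singleton_self _
  have hinj : Function.Injective f := by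
    intro x y hxy
    have h1 : x.1 = y.1 := by
      by_contra hne
      have h2 : (f x).rep ∈ A x.1 ⊓ A y.1 := ⟨(hmem x).1, by rw [hxy]; exact (hmem y).1⟩
      rw [sA _ _ hne, Submodule.mem_bot] at h2
      exact (f x).rep_nonzero h2
    have h2 : x.2 = y.2 := by
      by_contra hne
      have h2 : (f x).rep ∈ B x.2 ⊓ B y.2 := ⟨(hmem x).2, by rw [hxy]; exact (hmem y).2⟩
      rw [sB _ _ hne, Submodule.mem_bot] at h2
      exact (f x).rep_nonzero h2
    exact Prod.ext h1 h2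
  refine ⟨fun i => (f (finProdFinEquiv.symm i)).rep, fun i => Projectivization.rep_nonzero _, ?_,
    fun i j hij => ?_⟩
  · rw [hZ]
    ext p
    constructor
    · rintro ⟨i, hi, rfl⟩
      refine ⟨(finProdFinEquiv.symm i).1, (finProdFinEquiv.symm i).2, ?_⟩
      rw [Projectivization.mk_rep]
      exact hfs _
    · rintro ⟨k, j, hp⟩
      refine ⟨finProdFinEquiv (k, j), Projectivization.rep_nonzero _, ?_⟩
      rw [Projectivization.mk_rep, Equiv.symm_apply_apply]
      apply Projectivization.submodule_injective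
      rw [hp, hfs]
  · refine Fam_indep (Projectivization.rep_nonzero _) (Projectivization.rep_nonzero _) ?_
    rw [Projectivization.mk_rep, Projectivization.mk_rep]
    intro h1
    exact hij (finProdFinEquiv.symm.injective (hinj h1))

theorem near_grid (a b : ℕ) (z₀ : Fin (a * b) → Fin 4 → ℂ) (hgrid : IsGrid a b (pts z₀)) :
    ∀ᶠ z in 𝓝 z₀, ∀ c d, IsGeproci c d (pts z) → IsGrid a b (pts z) := by
  have ha : 2 ≤ a := hgrid.1
  have hab : a ≤ b := hgrid.2.1
  have hb : 2 ≤ b := ha.trans hab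
  obtain ⟨e, h0⟩ := UNP a b z₀ hgrid
  have hcont : Tendsto (fun z : Fin (a * b) → Fin 4 → ℂ => fun (k : Fin a) (j : Fin b) =>
      z (e (k, j))) (𝓝 z₀) (𝓝 (fun k j => z₀ (e (k, j)))) := by
    rw [tendsto_pi_nhds]
    intro k
    rw [tendsto_pi_nhds]
    intro j
    exact (continuous_apply (e (k, j))).tendsto z₀
  have h1 := hcont.eventually (near_contra ha hb (fun k j => z₀ (e (k, j))) h0)
  filter_upwards [FIN a b z₀ hgrid, h1] with z h2 h3 c d hcd
  rcases h2 c d hcd with h4 | ⟨h4, h5, h6, h7⟩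
  · exact h4
  · exfalso
    refine h3 c d h4 h5 h6 h7 ?_
    have hpts : pts z = pts (fun kj : Fin a × Fin b => z (e (kj.1, kj.2))) := by
      ext p
      constructor
      · rintro ⟨i, hi, rfl⟩
        refine ⟨e.symm i, ?_, ?_⟩
        · simpa using hi
        · simp
      · rintro ⟨kj, hi, rfl⟩
        exact ⟨e (kj.1, kj.2), hi, rfl⟩
    rw [← hpts]
    exact hcd

theorem near_family {T : Type*} [TopologicalSpace T] {N : ℕ}
    {Z : T → Set (Projectivization ℂ (Fin 4 → ℂ))} (hZ : IsFamily N Z) {t₀ : T} {a b : ℕ}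
    (h₀ : IsGrid a b (Z t₀)) :
    ∀ᶠ t in 𝓝 t₀, ∀ c d, IsGeproci c d (Z t) → IsGrid a b (Z t) := by
  obtain ⟨z₀, hne, hpts, hind⟩ := Fam_vec h₀
  have hN : N = a * b := by
    rw [← (hZ.1 t₀).2, ← hpts, Fam_ncard z₀ hne hind]
  have h1 := (near_grid a b z₀ (by rw [hpts]; exact h₀)).and (Fam_open z₀ hind)
  have h2 : {z : Fin (a * b) → Fin 4 → ℂ | (∀ c d, IsGeproci c d (pts z) → IsGrid a b (pts z)) ∧
      ∀ i j, i ≠ j → LinearIndependent ℂ ![z i, z j]} ∈ 𝓝 z₀ := h1
  rw [nhds_pi, Filter.mem_pi] at h2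
  obtain ⟨I, -, W, hW, hIW⟩ := h2
  have h3 : ∀ i, ∀ᶠ t in 𝓝 t₀, ∃ v ∈ interior (W i), ∃ hv : v ≠ 0,
      Projectivization.mk ℂ v hv ∈ Z t := by
    intro i
    refine (hZ.2 _ isOpen_interior).mem_nhds ?_
    refine ⟨z₀ i, mem_interior_iff_mem_nhds.2 (hW i), hne i, ?_⟩
    rw [← hpts]
    exact ⟨i, hne i, rfl⟩
  have h4 := Filter.eventually_all.2 h3
  filter_upwards [h4] with t ht
  choose z hzW hz0 hzZ using ht
  obtain ⟨h5, h6⟩ := hIW (fun i _ => interior_subset (hzW i))
  have h7 : pts z = Z t := by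
    refine Set.eq_of_subset_of_ncard_le ?_ ?_ (hZ.1 t).1
    · rintro p ⟨i, hi, rfl⟩
      exact hzZ i
    · rw [Fam_ncard z hz0 h6, (hZ.1 t).2, hN]
  rw [h7] at h5
  exact h5

end GP80
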